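import Pool.Agent.Lib.MP_3bb35d_al.UE.P0

section

/-!
# Three trace equations
-/

set_option autoImplicit false

open scoped Pointwise
open Finset

namespace Pool.Agent.Lib.MP_3bb35d_al.UE

variable {p : ℕ} [Fact p.Prime]

/-- `y` and `z` have a common eigenvector over `F_p`. -/
def CE (y z : SL2 p) : Prop :=
  ∃ v : Fin 2 → ZMod p, v ≠ 0 ∧ y ∈ bor v ∧ z ∈ bor v

/-- Independence. PROOF: let `y ≠ ±1`; `y` is not scalar (a scalar matrix of determinant one is `±1`), so `1, y⁻¹` are linearly independent. If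
`1, y⁻¹, z⁻¹` are dependent then `z⁻¹ = α + β y⁻¹` commutes with `y`. -/
theorem indep_of_not_comm {y z : SL2 p} (h : ¬ Commute y z) :
    LinearIndependent (ZMod p) ![(1 : Matrix (Fin 2) (Fin 2) (ZMod p)),
      ((y⁻¹ : SL2 p) : Matrix (Fin 2) (Fin 2) (ZMod p)),
      ((z⁻¹ : SL2 p) : Matrix (Fin 2) (Fin 2) (ZMod p))] := by
  set Y : Matrix (Fin 2) (Fin 2) (ZMod p) := ((y⁻¹ : SL2 p) : Matrix (Fin 2) (Fin 2) (ZMod p))
    with hY
  set Z : Matrix (Fin 2) (Fin 2) (ZMod p) := ((z⁻¹ : SL2 p) : Matrix (Fin 2) (Fin 2) (ZMod p))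
    with hZ
  have hne : Y * Z - Z * Y ≠ 0 := by
    intro h0
    apply h
    have h1 : (y⁻¹ * z⁻¹ : SL2 p) = z⁻¹ * y⁻¹ := by
      apply Subtype.ext
      rw [Matrix.SpecialLinearGroup.coe_mul, Matrix.SpecialLinearGroup.coe_mul]
      exact sub_eq_zero.mp h0
    have h2 : (z * y : SL2 p) = y * z := by
      have h3 := congrArg (fun x : SL2 p => x⁻¹) h1
      simpa [mul_inv_rev] using h3
    exact h2.symm
  rw [Fintype.linearIndependent_iff]
  intro g hg
  have h0 : g 0 • (1 : Matrix (Fin 2) (Fin 2) (ZMod p)) + g 1 • Y + g 2 • Z = 0 := by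
    simpa [Fin.sum_univ_three] using hg
  have hz : g 2 • (Y * Z - Z * Y) = 0 := by
    have e : g 2 • (Y * Z - Z * Y)
        = Y * (g 0 • (1 : Matrix (Fin 2) (Fin 2) (ZMod p)) + g 1 • Y + g 2 • Z)
          - (g 0 • (1 : Matrix (Fin 2) (Fin 2) (ZMod p)) + g 1 • Y + g 2 • Z) * Y := by
      simp only [mul_add, add_mul, Matrix.mul_smul, Matrix.smul_mul, mul_one, one_mul, smul_sub]
      abel
    rw [e, h0, mul_zero, zero_mul, sub_zero]
  have hy : g 1 • (Y * Z - Z * Y) = 0 := by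
    have e : g 1 • (Y * Z - Z * Y)
        = (g 0 • (1 : Matrix (Fin 2) (Fin 2) (ZMod p)) + g 1 • Y + g 2 • Z) * Z
          - Z * (g 0 • (1 : Matrix (Fin 2) (Fin 2) (ZMod p)) + g 1 • Y + g 2 • Z) := by
      simp only [mul_add, add_mul, Matrix.mul_smul, Matrix.smul_mul, mul_one, one_mul, smul_sub]
      abel
    rw [e, h0, mul_zero, zero_mul, sub_zero]
  have g2 : g 2 = 0 := (smul_eq_zero.mp hz).resolve_right hne
  have g1 : g 1 = 0 := (smul_eq_zero.mp hy).resolve_right hne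
  have g0 : g 0 = 0 := by
    rw [g1, g2, zero_smul, zero_smul, add_zero, add_zero] at h0
    have h3 := congrFun (congrFun h0 0) 0
    simpa using h3
  intro i
  fin_cases i
  · exact g0
  · exact g1
  · exact g2

/-- An eigenvector `w` proportional to `v`. -/
private theorem P7a_bor_of_det {z : SL2 p} {v w : Fin 2 → ZMod p} (hv : v ≠ 0)
    (hd : v 0 * w 1 - v 1 * w 0 = 0) (hz : z ∈ bor v) : z ∈ bor w := by
  obtain ⟨c, hc⟩ := hz
  have hw : ∃ t : ZMod p, w = t • v := by
    by_cases h0 : v 0 = 0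
    · have h1 : v 1 ≠ 0 := by
        intro h1
        apply hv
        funext i
        fin_cases i
        · exact h0
        · exact h1
      refine ⟨w 1 / v 1, ?_⟩
      funext i
      fin_cases i
      · have h2 : w 0 = 0 := by
          rw [h0, zero_mul, zero_sub, neg_eq_zero] at hd
          exact (mul_eq_zero.mp hd).resolve_left h1
        show w 0 = w 1 / v 1 * v 0
        rw [h0, h2, mul_zero]
      · show w 1 = w 1 / v 1 * v 1
        rw [div_mul_cancel₀ _ h1]
    · refine ⟨w 0 / v 0, ?_⟩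
      funext i
      fin_cases i
      · show w 0 = w 0 / v 0 * v 0
        rw [div_mul_cancel₀ _ h0]
      · show w 1 = w 0 / v 0 * v 1
        field_simp
        linear_combination hd
  obtain ⟨t, rfl⟩ := hw
  refine ⟨c, ?_⟩
  rw [Matrix.mulVec_smul, hc, smul_comm]

/-- The determinant of `v` and `y v`. -/
private theorem P7a_form {y : SL2 p} {v : Fin 2 → ZMod p} (h : y ∈ bor v) :
    y 1 0 * (v 0 * v 0) + (y 1 1 - y 0 0) * (v 0 * v 1) - y 0 1 * (v 1 * v 1) = 0 := by
  obtain ⟨c, hc⟩ := h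
  have h0 : y 0 0 * v 0 + y 0 1 * v 1 = c * v 0 := by
    have := congrFun hc 0
    simpa [Matrix.mulVec, dotProduct, Fin.sum_univ_two] using this
  have h1 : y 1 0 * v 0 + y 1 1 * v 1 = c * v 1 := by
    have := congrFun hc 1
    simpa [Matrix.mulVec, dotProduct, Fin.sum_univ_two] using this
  linear_combination v 0 * h1 - v 1 * h0

/-- Three eigenlines. -/
private theorem P7a_three {y : SL2 p} {u v w : Fin 2 → ZMod p} (hu : y ∈ bor u) (hv : y ∈ bor v)
    (hw : y ∈ bor w) (h1 : u 0 * v 1 - u 1 * v 0 ≠ 0) (h2 : u 0 * w 1 - u 1 * w 0 ≠ 0)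
    (h3 : v 0 * w 1 - v 1 * w 0 ≠ 0) : y = 1 ∨ y = -1 := by
  have q1 := P7a_form hu
  have q2 := P7a_form hv
  have q3 := P7a_form hw
  have hD : (u 0 * v 1 - u 1 * v 0) * (u 0 * w 1 - u 1 * w 0) * (v 0 * w 1 - v 1 * w 0) ≠ 0 :=
    mul_ne_zero (mul_ne_zero h1 h2) h3
  have hC : y 1 0 = 0 := by
    have e : y 1 0 * ((u 0 * v 1 - u 1 * v 0) * (u 0 * w 1 - u 1 * w 0)
        * (v 0 * w 1 - v 1 * w 0)) = 0 := by
      linear_combination (v 1 * w 1 * (v 0 * w 1 - w 0 * v 1)) * q1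
        - (u 1 * w 1 * (u 0 * w 1 - w 0 * u 1)) * q2
        + (u 1 * v 1 * (u 0 * v 1 - v 0 * u 1)) * q3
    exact (mul_eq_zero.mp e).resolve_right hD
  have hA : y 1 1 - y 0 0 = 0 := by
    have e : (y 1 1 - y 0 0) * ((u 0 * v 1 - u 1 * v 0) * (u 0 * w 1 - u 1 * w 0)
        * (v 0 * w 1 - v 1 * w 0)) = 0 := by
      linear_combination (-(v 0 * v 0 * w 1 * w 1 - v 1 * v 1 * w 0 * w 0)) * q1
        + (u 0 * u 0 * w 1 * w 1 - u 1 * u 1 * w 0 * w 0) * q2
        - (u 0 * u 0 * v 1 * v 1 - u 1 * u 1 * v 0 * v 0) * q3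
    exact (mul_eq_zero.mp e).resolve_right hD
  have hB : y 0 1 = 0 := by
    have e : y 0 1 * ((u 0 * v 1 - u 1 * v 0) * (u 0 * w 1 - u 1 * w 0)
        * (v 0 * w 1 - v 1 * w 0)) = 0 := by
      linear_combination (-(v 0 * w 0 * (v 0 * w 1 - v 1 * w 0))) * q1
        + (u 0 * w 0 * (u 0 * w 1 - u 1 * w 0)) * q2
        - (u 0 * v 0 * (u 0 * v 1 - u 1 * v 0)) * q3
    exact (mul_eq_zero.mp e).resolve_right hD
  have hdet : y 0 0 * y 1 1 - y 0 1 * y 1 0 = 1 := by
    have := y.det_coe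
    rwa [Matrix.det_fin_two] at this
  have hD1 : y 1 1 = y 0 0 := sub_eq_zero.mp hA
  rw [hB, zero_mul, sub_zero, hD1] at hdet
  have hsq : (y 0 0 - 1) * (y 0 0 + 1) = 0 := by linear_combination hdet
  rcases mul_eq_zero.mp hsq with h | h
  · left
    have h00 : y 0 0 = 1 := sub_eq_zero.mp h
    apply Matrix.SpecialLinearGroup.ext
    intro i j
    fin_cases i <;> fin_cases j
    · simpa using h00
    · simpa using hB
    · simpa using hC
    · simpa [hD1] using h00
  · right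
    have h00 : y 0 0 = -1 := eq_neg_of_add_eq_zero_left h
    apply Matrix.SpecialLinearGroup.ext
    intro i j
    fin_cases i <;> fin_cases j
    · simpa using h00
    · simpa using hB
    · simpa using hC
    · simpa [hD1] using h00

/-- A noncentral element has at most two eigenlines. PROOF: if `y` has no eigenvector over `F_p` take any `v₁ = v₂ ≠ 0` (`CE y z` is impossible). Otherwise let `v₁` be an eigenvector; if all
eigenvectors are multiples of `v₁` take `v₂ = v₁`; else let `v₂` be another one; the eigenvalues are different (else `y` is scalar), so every eigenvector is a multiple of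
`v₁` or of `v₂`. `bor` depends only on the line. -/
theorem exists_lines (y : SL2 p) (h1 : y ≠ 1) (h2 : y ≠ -1) :
    ∃ v₁ v₂ : Fin 2 → ZMod p, v₁ ≠ 0 ∧ v₂ ≠ 0 ∧ ∀ z : SL2 p, CE y z → z ∈ bor v₁ ∨ z ∈ bor v₂ := by
  classical
  by_cases hA : ∃ v : Fin 2 → ZMod p, v ≠ 0 ∧ y ∈ bor v
  · obtain ⟨v₁, hv₁, hy₁⟩ := hA
    by_cases hB : ∃ v : Fin 2 → ZMod p, v ≠ 0 ∧ y ∈ bor v ∧ v₁ 0 * v 1 - v₁ 1 * v 0 ≠ 0
    · obtain ⟨v₂, hv₂, hy₂, hd⟩ := hB
      refine ⟨v₁, v₂, hv₁, hv₂, ?_⟩
      rintro z ⟨v, hv, hyv, hzv⟩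
      by_cases e1 : v₁ 0 * v 1 - v₁ 1 * v 0 = 0
      · left
        exact P7a_bor_of_det hv (by linear_combination -e1) hzv
      · by_cases e2 : v₂ 0 * v 1 - v₂ 1 * v 0 = 0
        · right
          exact P7a_bor_of_det hv (by linear_combination -e2) hzv
        · exfalso
          rcases P7a_three hy₁ hy₂ hyv hd e1 e2 with h | h
          · exact h1 h
          · exact h2 h
    · refine ⟨v₁, v₁, hv₁, hv₁, ?_⟩
      rintro z ⟨v, hv, hyv, hzv⟩
      left
      have e1 : v₁ 0 * v 1 - v₁ 1 * v 0 = 0 := by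
        by_contra e1
        exact hB ⟨v, hv, hyv, e1⟩
      exact P7a_bor_of_det hv (by linear_combination -e1) hzv
  · have hne : (![1, 0] : Fin 2 → ZMod p) ≠ 0 := by
      intro h
      have := congrFun h 0
      simp at this
    refine ⟨![1, 0], ![1, 0], hne, hne, ?_⟩
    rintro z ⟨v, hv, hyv, _⟩
    exact absurd ⟨v, hv, hyv⟩ hA

end Pool.Agent.Lib.MP_3bb35d_al.UE
end

section

/-!
# Three trace equations
-/

set_option autoImplicit false

open scoped Pointwise
open Finset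

namespace Pool.Agent.Lib.MP_3bb35d_al.UE

variable {p : ℕ} [Fact p.Prime]

/-- The common zeros of three independent trace forms are a line. -/
private theorem P7b_ker {F : Type*} [Field F] (f : Fin 3 → Matrix (Fin 2) (Fin 2) F)
    (hf : LinearIndependent F f) (X Y : Matrix (Fin 2) (Fin 2) F) (hX0 : X ≠ 0)
    (hX : ∀ i, (f i * X).trace = 0) (hY : ∀ i, (f i * Y).trace = 0) : ∃ t : F, Y = t • X := by
  classical
  let R : Matrix (Fin 3) (Fin 2 × Fin 2) F := fun i ab => f i ab.2 ab.1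
  have hR : LinearIndependent F R.row := by
    rw [Fintype.linearIndependent_iff] at hf ⊢
    intro g hg i
    refine hf g ?_ i
    ext a b
    have h1 := congrFun hg (b, a)
    simpa [Matrix.sum_apply, R, Matrix.row] using h1
  have hrank := hR.rank_matrix
  have hdim := LinearMap.finrank_range_add_finrank_ker R.mulVecLin
  have hker : Module.finrank F (LinearMap.ker R.mulVecLin) = 1 := by
    have h1 : Module.finrank F (LinearMap.range R.mulVecLin) = 3 := by
      simpa [Matrix.rank] using hrank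
    rw [h1] at hdim
    simp at hdim
    omega
  have key : ∀ Z : Matrix (Fin 2) (Fin 2) F, (∀ i, (f i * Z).trace = 0) →
      (fun ab : Fin 2 × Fin 2 => Z ab.1 ab.2) ∈ LinearMap.ker R.mulVecLin := by
    intro Z hZ
    rw [LinearMap.mem_ker]
    funext i
    have h1 := hZ i
    simp only [Matrix.trace, Matrix.diag, Matrix.mul_apply, Fin.sum_univ_two] at h1
    change (R.mulVec (fun ab : Fin 2 × Fin 2 => Z ab.1 ab.2)) i = 0
    simp only [Matrix.mulVec, dotProduct, Fintype.sum_prod_type, Fin.sum_univ_two, R]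
    linear_combination h1
  have hne : (⟨_, key X hX⟩ : LinearMap.ker R.mulVecLin) ≠ 0 := by
    intro h0
    apply hX0
    have h1 := congrArg Subtype.val h0
    ext a b
    exact congrFun h1 (a, b)
  obtain ⟨t, ht⟩ := (finrank_eq_one_iff_of_nonzero' _ hne).1 hker ⟨_, key Y hY⟩
  refine ⟨t, ?_⟩
  have h1 := congrArg Subtype.val ht
  ext a b
  have h2 := congrFun h1 (a, b)
  simpa using h2.symm

/-- Parallel vectors. -/
private theorem P7b_par {F : Type*} [Field F] (v w : Fin 2 → F) (hv : v ≠ 0)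
    (h : v 0 * w 1 = v 1 * w 0) : ∃ c : F, w = c • v := by
  by_cases h0 : v 0 = 0
  · have h1 : v 1 ≠ 0 := by
      intro h1
      apply hv
      funext i
      fin_cases i <;> simp [h0, h1]
    refine ⟨w 1 / v 1, ?_⟩
    have hw : w 0 = 0 := by
      rw [h0, zero_mul] at h
      exact (mul_eq_zero.1 h.symm).resolve_left h1
    funext i
    fin_cases i
    · simp [h0, hw]
    · simp [h1]
  · refine ⟨w 0 / v 0, ?_⟩
    funext i
    fin_cases i
    · simp [h0]
    · simp
      field_simp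
      linear_combination h

/-- The entries of the trace form. -/
private theorem P7b_tr (y : SL2 p) (X : Matrix (Fin 2) (Fin 2) (ZMod p)) :
    (((y⁻¹ : SL2 p) : Matrix (Fin 2) (Fin 2) (ZMod p)) * X).trace =
      y 1 1 * X 0 0 - y 0 1 * X 1 0 - y 1 0 * X 0 1 + y 0 0 * X 1 1 := by
  rw [Matrix.SpecialLinearGroup.coe_inv, Matrix.adjugate_fin_two]
  simp only [Matrix.trace, Matrix.diag, Matrix.mul_apply, Fin.sum_univ_two, Matrix.of_apply,
    Matrix.cons_val_zero, Matrix.cons_val_one, Matrix.cons_val', Matrix.cons_val_fin_one]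
  ring

/-- The stabiliser of the line of a nonzero column of a square zero matrix. -/
private theorem P7b_bor (y : SL2 p) (a b c : ZMod p) (h0 : a * a + b * c = 0)
    (ht : y 1 1 * a - y 0 1 * c - y 1 0 * b - y 0 0 * a = 0) :
    (¬ (a = 0 ∧ c = 0) → y ∈ bor ![a, c]) ∧ (¬ (b = 0 ∧ a = 0) → y ∈ bor ![b, -a]) := by
  constructor
  · intro h
    have hv : (![a, c] : Fin 2 → ZMod p) ≠ 0 := by
      intro h1
      apply h
      exact ⟨by simpa using congrFun h1 0, by simpa using congrFun h1 1⟩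
    refine P7b_par _ _ hv ?_
    simp [Matrix.mulVec, dotProduct, Fin.sum_univ_two]
    linear_combination (y 1 0) * h0 + c * ht
  · intro h
    have hv : (![b, -a] : Fin 2 → ZMod p) ≠ 0 := by
      intro h1
      apply h
      exact ⟨by simpa using congrFun h1 0, by simpa using congrFun h1 1⟩
    refine P7b_par _ _ hv ?_
    simp [Matrix.mulVec, dotProduct, Fin.sum_univ_two]
    linear_combination (- y 0 1) * h0 - b * ht

/-- PROOF. The linear forms `b ↦ tr b, tr (y⁻¹ b), tr (z⁻¹ b)` on the matrices are linearly independent (`indep_of_not_comm` and nondegeneracy of the trace form), so the solutions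
of the three linear equations are contained in a line `b₀ + t n`, `n ≠ 0`, `tr n = tr (y⁻¹ n) = tr (z⁻¹ n) = 0`. `det (b₀ + t n) = 1` is a
quadratic equation in `t`; if it has three different solutions it is identically satisfied and `det n = 0`. Then `n² = 0`, `n = v φ` with `v ≠ 0`, `φ v = 0`
(`n x = φ(x) v`, and `ker φ` is the line of `v`), and `0 = tr (y⁻¹ n) = φ (y⁻¹ v)`, so `y⁻¹ v` is a multiple of `v`, similarly `z⁻¹ v`:
`CE y z`. So there are at most two solutions. -/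
theorem card_three {y z : SL2 p} (h : ¬ Commute y z) (hc : ¬ CE y z) (τ : ZMod p) :
    {b : SL2 p | tr b = τ ∧ tr (y⁻¹ * b) = τ ∧ tr (z⁻¹ * b) = τ}.ncard ≤ 2 := by
  classical
  by_contra hcard
  push Not at hcard
  obtain ⟨b₁, b₂, b₃, hb₁, hb₂, hb₃, h12, h13, h23⟩ :=
    (Set.two_lt_ncard_iff (Set.toFinite _)).1 hcard
  -- the matrices
  have hind := indep_of_not_comm h
  have hcoe : ∀ g : SL2 p, tr g = (g : Matrix (Fin 2) (Fin 2) (ZMod p)).trace := by
    intro g
    simp [tr, Matrix.trace, Fin.sum_univ_two]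
  -- differences of solutions are in the kernel
  have hdiff : ∀ b b' : SL2 p, (tr b = τ ∧ tr (y⁻¹ * b) = τ ∧ tr (z⁻¹ * b) = τ) →
      (tr b' = τ ∧ tr (y⁻¹ * b') = τ ∧ tr (z⁻¹ * b') = τ) →
      ∀ i, ((![(1 : Matrix (Fin 2) (Fin 2) (ZMod p)),
        ((y⁻¹ : SL2 p) : Matrix (Fin 2) (Fin 2) (ZMod p)),
        ((z⁻¹ : SL2 p) : Matrix (Fin 2) (Fin 2) (ZMod p))] i) *
        ((b : Matrix (Fin 2) (Fin 2) (ZMod p)) - b')).trace = 0 := by
    intro b b' hb hb' i
    obtain ⟨e1, e2, e3⟩ := hb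
    obtain ⟨f1, f2, f3⟩ := hb'
    rw [hcoe] at e1 e2 e3 f1 f2 f3
    rw [Matrix.SpecialLinearGroup.coe_mul] at e2 e3 f2 f3
    rw [mul_sub, Matrix.trace_sub]
    fin_cases i
    · simp only [Fin.zero_eta, Matrix.cons_val_zero, one_mul]
      rw [e1, f1, sub_self]
    · simp only [Fin.mk_one, Matrix.cons_val_one, Matrix.cons_val_zero]
      rw [e2, f2, sub_self]
    · simp only [Fin.reduceFinMk, Matrix.cons_val]
      rw [e3, f3, sub_self]
  set N : Matrix (Fin 2) (Fin 2) (ZMod p) :=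
    (b₂ : Matrix (Fin 2) (Fin 2) (ZMod p)) - (b₁ : Matrix (Fin 2) (Fin 2) (ZMod p)) with hN
  have hN0 : N ≠ 0 := by
    intro h0
    apply h12
    apply Subtype.ext
    exact (sub_eq_zero.1 h0).symm
  obtain ⟨t, ht⟩ := P7b_ker _ hind N
    ((b₃ : Matrix (Fin 2) (Fin 2) (ZMod p)) - (b₁ : Matrix (Fin 2) (Fin 2) (ZMod p))) hN0
    (hdiff b₂ b₁ hb₂ hb₁) (hdiff b₃ b₁ hb₃ hb₁)
  have ht0 : t ≠ 0 := by
    intro h0
    rw [h0, zero_smul] at ht
    apply h13
    apply Subtype.ext
    exact (sub_eq_zero.1 ht).symm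
  have ht1 : t ≠ 1 := by
    intro h0
    rw [h0, one_smul, hN] at ht
    apply h23
    apply Subtype.ext
    exact (sub_left_injective ht).symm
  -- determinants
  have d1 : b₁ 0 0 * b₁ 1 1 - b₁ 0 1 * b₁ 1 0 = 1 := by
    have := b₁.det_coe
    rwa [Matrix.det_fin_two] at this
  have d2 : b₂ 0 0 * b₂ 1 1 - b₂ 0 1 * b₂ 1 0 = 1 := by
    have := b₂.det_coe
    rwa [Matrix.det_fin_two] at this
  have d3 : b₃ 0 0 * b₃ 1 1 - b₃ 0 1 * b₃ 1 0 = 1 := by
    have := b₃.det_coe
    rwa [Matrix.det_fin_two] at this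
  have e2 : ∀ i j, b₂ i j = b₁ i j + N i j := by
    intro i j
    rw [hN, Matrix.sub_apply]
    ring
  have e3 : ∀ i j, b₃ i j = b₁ i j + t * N i j := by
    intro i j
    have := congrFun (congrFun ht i) j
    rw [Matrix.sub_apply, Matrix.smul_apply, smul_eq_mul] at this
    rw [← this]
    ring
  rw [e2, e2, e2, e2] at d2
  rw [e3, e3, e3, e3] at d3
  have hdet : N 0 0 * N 1 1 - N 0 1 * N 1 0 = 0 := by
    have h1 : t * (t - 1) * (N 0 0 * N 1 1 - N 0 1 * N 1 0) = 0 := by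
      linear_combination d3 - t * d2 - (1 - t) * d1
    exact (mul_eq_zero.1 h1).resolve_left (mul_ne_zero ht0 (sub_ne_zero.2 ht1))
  have htr0 : N 0 0 + N 1 1 = 0 := by
    have h1 := hdiff b₂ b₁ hb₂ hb₁ 0
    simpa [← hN, Matrix.trace, Fin.sum_univ_two] using h1
  have htry : y 1 1 * N 0 0 - y 0 1 * N 1 0 - y 1 0 * N 0 1 + y 0 0 * N 1 1 = 0 := by
    rw [← P7b_tr]
    exact hdiff b₂ b₁ hb₂ hb₁ 1
  have htrz : z 1 1 * N 0 0 - z 0 1 * N 1 0 - z 1 0 * N 0 1 + z 0 0 * N 1 1 = 0 := by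
    rw [← P7b_tr]
    exact hdiff b₂ b₁ hb₂ hb₁ 2
  have h11 : N 1 1 = - N 0 0 := by linear_combination htr0
  rw [h11] at hdet htry htrz
  have hsq : N 0 0 * N 0 0 + N 0 1 * N 1 0 = 0 := by linear_combination - hdet
  have hy := P7b_bor y (N 0 0) (N 0 1) (N 1 0) hsq (by linear_combination htry)
  have hz := P7b_bor z (N 0 0) (N 0 1) (N 1 0) hsq (by linear_combination htrz)
  apply hc
  by_cases hcol : N 0 0 = 0 ∧ N 1 0 = 0
  · have hcol' : ¬ (N 0 1 = 0 ∧ N 0 0 = 0) := by
      rintro ⟨h1, h2⟩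
      apply hN0
      ext i j
      fin_cases i <;> fin_cases j
      · simpa using h2
      · simpa using h1
      · simpa using hcol.2
      · simpa [h2] using h11
    refine ⟨_, ?_, hy.2 hcol', hz.2 hcol'⟩
    intro h1
    apply hcol'
    exact ⟨by simpa using congrFun h1 0, by simpa using congrFun h1 1⟩
  · refine ⟨_, ?_, hy.1 hcol, hz.1 hcol⟩
    intro h1
    apply hcol
    exact ⟨by simpa using congrFun h1 0, by simpa using congrFun h1 1⟩

end Pool.Agent.Lib.MP_3bb35d_al.UE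
end

section

end

section

/-!
# Proper subgroups of `SL₂(p)` of order divisible by `p`
-/

set_option autoImplicit false

open scoped Pointwise
open Finset

namespace Pool.Agent.Lib.MP_3bb35d_al.UE

variable {p : ℕ} [Fact p.Prime]

/-- An element of order `p` fixes a vector. PROOF: `(g - 1) ^ p = g ^ p - 1 = 0` in characteristic `p`, so `g - 1` is nilpotent, not injective. -/
theorem exists_fixed_vec {g : SL2 p} (h : g ^ p = 1) :
    ∃ v : Fin 2 → ZMod p, v ≠ 0 ∧ (g : Matrix (Fin 2) (Fin 2) (ZMod p)).mulVec v = v := by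
  have hp : p.Prime := Fact.out
  have h1 : ((g : Matrix (Fin 2) (Fin 2) (ZMod p)) - 1) ^ p = 0 := by
    rw [sub_pow_char_of_commute _ (Commute.one_right _), one_pow, sub_eq_zero]
    have h2 : ((g ^ p : SL2 p) : Matrix (Fin 2) (Fin 2) (ZMod p)) = 1 := by rw [h]; rfl
    rw [← h2]
    rfl
  have h3 : ((g : Matrix (Fin 2) (Fin 2) (ZMod p)) - 1).det = 0 := by
    have h4 : ((g : Matrix (Fin 2) (Fin 2) (ZMod p)) - 1).det ^ p = 0 := by
      rw [← Matrix.det_pow, h1]
      simp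
    exact pow_eq_zero_iff hp.ne_zero |>.mp h4
  obtain ⟨v, hv0, hv⟩ := Matrix.exists_mulVec_eq_zero_iff.mpr h3
  refine ⟨v, hv0, ?_⟩
  rw [Matrix.sub_mulVec, Matrix.one_mulVec, sub_eq_zero] at hv
  exact hv

/-- The upper unipotent matrices. -/
private def H1_U (t : ZMod p) : SL2 p := ⟨!![1, t; 0, 1], by simp⟩

/-- The lower unipotent matrices. -/
private def H1_L (t : ZMod p) : SL2 p := ⟨!![1, 0; t, 1], by simp⟩

private theorem H1_coeU (t : ZMod p) :
    ((H1_U t : SL2 p) : Matrix (Fin 2) (Fin 2) (ZMod p)) = !![1, t; 0, 1] := rfl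

private theorem H1_coeL (t : ZMod p) :
    ((H1_L t : SL2 p) : Matrix (Fin 2) (Fin 2) (ZMod p)) = !![1, 0; t, 1] := rfl

private theorem H1_U_mul (s t : ZMod p) : H1_U s * H1_U t = H1_U (s + t) := by
  apply Subtype.ext
  rw [Matrix.SpecialLinearGroup.coe_mul, H1_coeU, H1_coeU, H1_coeU, Matrix.mul_fin_two]
  simp [add_comm]

private theorem H1_L_mul (s t : ZMod p) : H1_L s * H1_L t = H1_L (s + t) := by
  apply Subtype.ext
  rw [Matrix.SpecialLinearGroup.coe_mul, H1_coeL, H1_coeL, H1_coeL, Matrix.mul_fin_two]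
  simp

private theorem H1_U_zero : H1_U (0 : ZMod p) = 1 := by
  apply Subtype.ext
  rw [Matrix.SpecialLinearGroup.coe_one, H1_coeU, Matrix.one_fin_two]

private theorem H1_L_zero : H1_L (0 : ZMod p) = 1 := by
  apply Subtype.ext
  rw [Matrix.SpecialLinearGroup.coe_one, H1_coeL, Matrix.one_fin_two]

private theorem H1_U_pow (a : ZMod p) (k : ℕ) : H1_U a ^ k = H1_U ((k : ZMod p) * a) := by
  induction k with
  | zero => rw [pow_zero, Nat.cast_zero, zero_mul, H1_U_zero]
  | succ k ih =>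
    rw [pow_succ, ih, H1_U_mul]
    congr 1
    push_cast
    ring

private theorem H1_L_pow (a : ZMod p) (k : ℕ) : H1_L a ^ k = H1_L ((k : ZMod p) * a) := by
  induction k with
  | zero => rw [pow_zero, Nat.cast_zero, zero_mul, H1_L_zero]
  | succ k ih =>
    rw [pow_succ, ih, H1_L_mul]
    congr 1
    push_cast
    ring

private theorem H1_std {a b : ZMod p} (ha : a ≠ 0) (hb : b ≠ 0) (K : Subgroup (SL2 p))
    (hU : H1_U a ∈ K) (hL : H1_L b ∈ K) : K = ⊤ := by
  have hU' : ∀ t : ZMod p, H1_U t ∈ K := by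
    intro t
    have h1 : H1_U a ^ (t / a : ZMod p).val = H1_U t := by
      rw [H1_U_pow, ZMod.natCast_val, ZMod.cast_id]
      congr 1
      field_simp
    rw [← h1]
    exact K.pow_mem hU _
  have hL' : ∀ t : ZMod p, H1_L t ∈ K := by
    intro t
    have h1 : H1_L b ^ (t / b : ZMod p).val = H1_L t := by
      rw [H1_L_pow, ZMod.natCast_val, ZMod.cast_id]
      congr 1
      field_simp
    rw [← h1]
    exact K.pow_mem hL _
  have hne : ∀ x : SL2 p, x 1 0 ≠ 0 → x ∈ K := by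
    intro x hx
    have hdet : x 0 0 * x 1 1 - x 0 1 * x 1 0 = 1 := by
      have := x.det_coe
      rwa [Matrix.det_fin_two] at this
    have h1 : x = H1_U ((x 0 0 - 1) / x 1 0) * H1_L (x 1 0) * H1_U ((x 1 1 - 1) / x 1 0) := by
      have hx' : (x : Matrix (Fin 2) (Fin 2) (ZMod p)) = !![x 0 0, x 0 1; x 1 0, x 1 1] :=
        Matrix.eta_fin_two (x : Matrix (Fin 2) (Fin 2) (ZMod p))
      suffices hy : ((H1_U ((x 0 0 - 1) / x 1 0) * H1_L (x 1 0) * H1_U ((x 1 1 - 1) / x 1 0) :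
          SL2 p) : Matrix (Fin 2) (Fin 2) (ZMod p)) = !![x 0 0, x 0 1; x 1 0, x 1 1] from
        Subtype.ext (hx'.trans hy.symm)
      rw [Matrix.SpecialLinearGroup.coe_mul, Matrix.SpecialLinearGroup.coe_mul, H1_coeU, H1_coeL,
        H1_coeU, Matrix.mul_fin_two, Matrix.mul_fin_two]
      have e00 : x 0 0 = (1 * 1 + (x 0 0 - 1) / x 1 0 * x 1 0) * 1 +
          (1 * 0 + (x 0 0 - 1) / x 1 0 * 1) * 0 := by
        field_simp
        ring
      have e01 : x 0 1 = (1 * 1 + (x 0 0 - 1) / x 1 0 * x 1 0) * ((x 1 1 - 1) / x 1 0) +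
          (1 * 0 + (x 0 0 - 1) / x 1 0 * 1) * 1 := by
        field_simp
        linear_combination -hdet
      have e10 : x 1 0 = (0 * 1 + 1 * x 1 0) * 1 + (0 * 0 + 1 * 1) * 0 := by ring
      have e11 : x 1 1 = (0 * 1 + 1 * x 1 0) * ((x 1 1 - 1) / x 1 0) + (0 * 0 + 1 * 1) * 1 := by
        field_simp
        ring
      ext i j
      fin_cases i <;> fin_cases j
      · exact e00.symm
      · exact e01.symm
      · exact e10.symm
      · exact e11.symm
    rw [h1]
    exact K.mul_mem (K.mul_mem (hU' _) (hL' _)) (hU' _)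
  rw [eq_top_iff]
  intro x _
  by_cases hx : x 1 0 = 0
  · have hdet : x 0 0 * x 1 1 - x 0 1 * x 1 0 = 1 := by
      have := x.det_coe
      rwa [Matrix.det_fin_two] at this
    have h11 : x 1 1 ≠ 0 := by
      intro h0
      rw [h0, hx] at hdet
      simp at hdet
    have h1 : x * H1_L 1 ∈ K := by
      apply hne
      have h2 : (x * H1_L 1 : SL2 p) 1 0 = x 1 1 := by
        rw [Matrix.SpecialLinearGroup.coe_mul, H1_coeL, Matrix.mul_apply, Fin.sum_univ_two, hx]
        simp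
      rw [h2]
      exact h11
    exact (Subgroup.mul_mem_cancel_right K (hL' 1)).mp h1
  · exact hne x hx

/-- Two elements of order `p` without a common fixed line generate. PROOF: conjugate so that `v = e₁`, `w = e₂` (basis change in `SL₂(p)`, after scaling `w`); `g = !![1, a; 0, 1]` with `a ≠ 0`, its powers are all `!![1, t; 0, 1]`; `h`: all `!![1, 0; t, 1]`. These generate `SL₂(p)`:
Mathlib may have it (transvections), or directly: `!![a, b; c, d]` with `c ≠ 0` is a product of three such matrices, and one with `c = 0` becomes one with `c ≠ 0` after multiplication by `!![1, 0; 1, 1]`. -/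
theorem closure_two_unipotents {g h : SL2 p} {v w : Fin 2 → ZMod p} (hg : g ≠ 1) (hh : h ≠ 1)
    (hv : (g : Matrix (Fin 2) (Fin 2) (ZMod p)).mulVec v = v)
    (hw : (h : Matrix (Fin 2) (Fin 2) (ZMod p)).mulVec w = w) (hv0 : v ≠ 0) (hw0 : w ≠ 0)
    (hvw : ∀ c : ZMod p, w ≠ c • v) : Subgroup.closure {g, h} = ⊤ := by
  set D : ZMod p := v 0 * w 1 - w 0 * v 1 with hD
  have hD0 : D ≠ 0 := by
    intro h0
    by_cases h1 : v 0 = 0
    · have h2 : v 1 ≠ 0 := by
        intro h3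
        apply hv0
        funext i
        fin_cases i
        · exact h1
        · exact h3
      have h4 : w 0 = 0 := by
        rw [hD, h1, zero_mul, zero_sub, neg_eq_zero] at h0
        exact (mul_eq_zero.mp h0).resolve_right h2
      apply hvw (w 1 / v 1)
      funext i
      fin_cases i
      · simp [h1, h4]
      · simp [h2]
    · apply hvw (w 0 / v 0)
      funext i
      fin_cases i
      · simp [h1]
      · simp only [Pi.smul_apply, smul_eq_mul, Fin.mk_one, Fin.isValue]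
        field_simp
        linear_combination h0
  set P : SL2 p := ⟨!![v 0, D⁻¹ * w 0; v 1, D⁻¹ * w 1], by
    rw [Matrix.det_fin_two_of]
    have : D⁻¹ * D = 1 := inv_mul_cancel₀ hD0
    linear_combination this⟩ with hP
  have hPm : (P : Matrix (Fin 2) (Fin 2) (ZMod p)) = !![v 0, D⁻¹ * w 0; v 1, D⁻¹ * w 1] := rfl
  have hP0 : (P : Matrix (Fin 2) (Fin 2) (ZMod p)).mulVec ![1, 0] = v := by
    rw [hPm]
    funext i
    fin_cases i <;> simp [Matrix.mulVec, dotProduct, Fin.sum_univ_two]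
  have hP1 : (P : Matrix (Fin 2) (Fin 2) (ZMod p)).mulVec ![0, 1] = D⁻¹ • w := by
    rw [hPm]
    funext i
    fin_cases i <;> simp [Matrix.mulVec, dotProduct, Fin.sum_univ_two]
  have hconj : ∀ (x : SL2 p) (y z : Fin 2 → ZMod p),
      (P : Matrix (Fin 2) (Fin 2) (ZMod p)).mulVec y = z →
      (x : Matrix (Fin 2) (Fin 2) (ZMod p)).mulVec z = z →
      ((P⁻¹ * x * P : SL2 p) : Matrix (Fin 2) (Fin 2) (ZMod p)).mulVec y = y := by
    intro x y z h1 h2
    have h3 : ((P⁻¹ * x * P : SL2 p) : Matrix (Fin 2) (Fin 2) (ZMod p)).mulVec y =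
        ((P⁻¹ : SL2 p) : Matrix (Fin 2) (Fin 2) (ZMod p)).mulVec
          ((x : Matrix (Fin 2) (Fin 2) (ZMod p)).mulVec
            ((P : Matrix (Fin 2) (Fin 2) (ZMod p)).mulVec y)) := by
      rw [Matrix.mulVec_mulVec, Matrix.mulVec_mulVec, Matrix.SpecialLinearGroup.coe_mul,
        Matrix.SpecialLinearGroup.coe_mul, Matrix.mul_assoc]
    rw [h3, h1, h2, ← h1, Matrix.mulVec_mulVec, ← Matrix.SpecialLinearGroup.coe_mul,
      inv_mul_cancel, Matrix.SpecialLinearGroup.coe_one, Matrix.one_mulVec]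
  have hg1 := hconj g ![1, 0] v hP0 hv
  have hh1 := hconj h ![0, 1] (D⁻¹ • w) hP1 (by rw [Matrix.mulVec_smul, hw])
  have hgU : P⁻¹ * g * P = H1_U ((P⁻¹ * g * P) 0 1) := by
    have hdet : (P⁻¹ * g * P) 0 0 * (P⁻¹ * g * P) 1 1 - (P⁻¹ * g * P) 0 1 * (P⁻¹ * g * P) 1 0 = 1 := by
      have := (P⁻¹ * g * P).det_coe
      rwa [Matrix.det_fin_two] at this
    have h00 : (P⁻¹ * g * P) 0 0 = 1 := by
      have := congrFun hg1 0
      simpa [Matrix.mulVec, dotProduct, Fin.sum_univ_two] using this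
    have h10 : (P⁻¹ * g * P) 1 0 = 0 := by
      have := congrFun hg1 1
      simpa [Matrix.mulVec, dotProduct, Fin.sum_univ_two] using this
    have h11 : (P⁻¹ * g * P) 1 1 = 1 := by
      rw [h00, h10] at hdet
      linear_combination hdet
    ext i j
    fin_cases i <;> fin_cases j
    · exact h00
    · rfl
    · exact h10
    · exact h11
  have hhL : P⁻¹ * h * P = H1_L ((P⁻¹ * h * P) 1 0) := by
    have hdet : (P⁻¹ * h * P) 0 0 * (P⁻¹ * h * P) 1 1 - (P⁻¹ * h * P) 0 1 * (P⁻¹ * h * P) 1 0 = 1 := by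
      have := (P⁻¹ * h * P).det_coe
      rwa [Matrix.det_fin_two] at this
    have h01 : (P⁻¹ * h * P) 0 1 = 0 := by
      have := congrFun hh1 0
      simpa [Matrix.mulVec, dotProduct, Fin.sum_univ_two] using this
    have h11 : (P⁻¹ * h * P) 1 1 = 1 := by
      have := congrFun hh1 1
      simpa [Matrix.mulVec, dotProduct, Fin.sum_univ_two] using this
    have h00 : (P⁻¹ * h * P) 0 0 = 1 := by
      rw [h01, h11] at hdet
      linear_combination hdet
    ext i j
    fin_cases i <;> fin_cases j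
    · exact h00
    · exact h01
    · rfl
    · exact h11
  have hnc : ∀ x : SL2 p, x ≠ 1 → P⁻¹ * x * P ≠ 1 := by
    intro x hx h1
    apply hx
    have h2 : x = P * (P⁻¹ * x * P) * P⁻¹ := by group
    rw [h2, h1]
    group
  have ha : (P⁻¹ * g * P) 0 1 ≠ 0 := by
    intro h0
    rw [h0, H1_U_zero] at hgU
    exact hnc g hg hgU
  have hb : (P⁻¹ * h * P) 1 0 ≠ 0 := by
    intro h0
    rw [h0, H1_L_zero] at hhL
    exact hnc h hh hhL
  have hmem : ∀ x : SL2 p, x ∈ Subgroup.closure {g, h} →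
      P⁻¹ * x * P ∈ (Subgroup.closure {g, h}).comap (MulAut.conj P).toMonoidHom := by
    intro x hx
    rw [Subgroup.mem_comap]
    show P * (P⁻¹ * x * P) * P⁻¹ ∈ _
    have h2 : P * (P⁻¹ * x * P) * P⁻¹ = x := by group
    rw [h2]
    exact hx
  have htop := H1_std ha hb ((Subgroup.closure {g, h}).comap (MulAut.conj P).toMonoidHom)
    (by rw [← hgU]; exact hmem g (Subgroup.subset_closure (by simp)))
    (by rw [← hhL]; exact hmem h (Subgroup.subset_closure (by simp)))
  rw [eq_top_iff]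
  intro x _
  have h1 : P⁻¹ * x * P ∈ (Subgroup.closure {g, h}).comap (MulAut.conj P).toMonoidHom := by
    rw [htop]
    exact Subgroup.mem_top _
  rw [Subgroup.mem_comap] at h1
  have h2 : P * (P⁻¹ * x * P) * P⁻¹ = x := by group
  have h3 : P * (P⁻¹ * x * P) * P⁻¹ ∈ Subgroup.closure {g, h} := h1
  rwa [h2] at h3

/-- PROOF: Cauchy: `g ∈ H` of order `p`, `g v = v`. If some `h ∈ H` does not preserve the line of `v` then `h g h⁻¹` fixes `h v`, and `closure_two_unipotents` gives `H = ⊤`. -/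
theorem subgroup_bor (H : Subgroup (SL2 p)) (hp : p ∣ Nat.card H) (hne : H ≠ ⊤) :
    ∃ v : Fin 2 → ZMod p, v ≠ 0 ∧ (H : Set (SL2 p)) ⊆ bor v := by
  have hpp : p.Prime := Fact.out
  obtain ⟨x, hx⟩ := exists_prime_orderOf_dvd_card' p hp
  have hxp : ((x : SL2 p)) ^ p = 1 := by
    have h1 : x ^ p = 1 := orderOf_dvd_iff_pow_eq_one.mp (dvd_of_eq hx)
    have h2 := congrArg (fun y : H => (y : SL2 p)) h1
    simpa using h2
  have hx1 : (x : SL2 p) ≠ 1 := by
    intro h1
    have h2 : x = 1 := Subtype.ext h1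
    rw [h2, orderOf_one] at hx
    exact hpp.one_lt.ne hx
  obtain ⟨v, hv0, hv⟩ := exists_fixed_vec hxp
  refine ⟨v, hv0, fun h hh => ?_⟩
  by_contra hcon
  have hw : ∀ c : ZMod p, (h : Matrix (Fin 2) (Fin 2) (ZMod p)).mulVec v ≠ c • v :=
    fun c hc => hcon ⟨c, hc⟩
  apply hne
  rw [eq_top_iff]
  have hy : h * x * h⁻¹ ≠ 1 := by
    intro h1
    apply hx1
    have h2 : (x : SL2 p) = h⁻¹ * (h * x * h⁻¹) * h := by group
    rw [h2, h1]
    group
  have hfix : ((h * x * h⁻¹ : SL2 p) : Matrix (Fin 2) (Fin 2) (ZMod p)).mulVec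
      ((h : Matrix (Fin 2) (Fin 2) (ZMod p)).mulVec v) =
        (h : Matrix (Fin 2) (Fin 2) (ZMod p)).mulVec v := by
    have h1 : ((h * x * h⁻¹ : SL2 p) : Matrix (Fin 2) (Fin 2) (ZMod p)).mulVec
        ((h : Matrix (Fin 2) (Fin 2) (ZMod p)).mulVec v) =
        ((h * x * h⁻¹ * h : SL2 p) : Matrix (Fin 2) (Fin 2) (ZMod p)).mulVec v := by
      rw [Matrix.mulVec_mulVec, ← Matrix.SpecialLinearGroup.coe_mul]
    rw [h1, inv_mul_cancel_right, Matrix.SpecialLinearGroup.coe_mul, ← Matrix.mulVec_mulVec, hv]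
  rw [← closure_two_unipotents hx1 hy hv hfix hv0 (fun h0 => hw 0 (by rw [h0, zero_smul])) hw,
    Subgroup.closure_le]
  rintro y (rfl | rfl)
  · exact x.2
  · exact H.mul_mem (H.mul_mem hh x.2) (H.inv_mem hh)

end Pool.Agent.Lib.MP_3bb35d_al.UE
end
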