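import Pool.Agent.Lib.MP_3bb35d_al.Mg.G001
import Pool.Agent.Lib.MP_3bb35d_al.UE.Gr
import Pool.Agent.Lib.MP_3bb35d_al.Mg.G010

section

/-!
# Actions of measures on functions on a `G`-set (definitions)
-/

set_option autoImplicit false

open Finset

namespace Pool.Agent.Lib.MP_3bb35d_al.LE

open Pool.Agent.Lib.MP_3bb35d_al.UE

/-- The action of a measure `μ` on `G` on the functions on a `G`-set (for `X = G` this is `conv μ u`, by `rfl`). -/
def act {G X : Type*} [Group G] [Fintype G] [MulAction G X] (μ : G → ℝ) (u : X → ℝ) (x : X) : ℝ :=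
  ∑ h, μ h * u (h⁻¹ • x)

/-- The translate of a function. -/
def trl {G X : Type*} [Group G] [MulAction G X] (g : G) (u : X → ℝ) (x : X) : ℝ := u (g⁻¹ • x)

/-- The square of the `ℓ²`-norm. -/
def nx {X : Type*} [Fintype X] (u : X → ℝ) : ℝ := ∑ x, u x ^ 2

/-- The inner product. -/
def ix {X : Type*} [Fintype X] (u v : X → ℝ) : ℝ := ∑ x, u x * v x

/-- The delta function of a point. -/
noncomputable def dl {X : Type*} (z : X) (x : X) : ℝ := ({z} : Set X).indicator (fun _ => (1 : ℝ)) x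

/-- The tensor power of `u`, restricted to the injective `m`-tuples. -/
noncomputable def tens {X : Type*} (m : ℕ) (u : X → ℝ) (y : Fin m → X) : ℝ :=
  {y : Fin m → X | Function.Injective y}.indicator (fun y => ∏ i, u (y i)) y

/-- All convolution powers `μ^(*n)`. -/
noncomputable def wpow {G : Type*} [Group G] [Fintype G] (μ : G → ℝ) : ℕ → G → ℝ
  | 0 => dl 1
  | n + 1 => conv μ (wpow μ n)

/-- The uniform measure of a set. -/
noncomputable def unif {G : Type*} (T : Set G) (g : G) : ℝ :=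
  T.indicator (fun _ => 1 / (T.ncard : ℝ)) g

/-- The push forward of a measure. -/
noncomputable def pf {G G' : Type*} [Group G] [Group G'] [Fintype G] (φ : G →* G') (μ : G → ℝ)
    (g' : G') : ℝ :=
  ∑ g, {g : G | φ g = g'}.indicator μ g

/-- `K` has at least `m` cosets and `m` conjugates `x K x⁻¹` with distinct cosets `x K` have at most
eight common elements. -/
def Geo {G : Type*} [Group G] (K : Subgroup G) (m : ℕ) : Prop :=
  m ≤ K.index ∧ ∀ x : Fin m → G, (∀ i j, i ≠ j → (x i)⁻¹ * x j ∉ K) →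
    {g : G | ∀ i, (x i)⁻¹ * g * x i ∈ K}.ncard ≤ 8

end Pool.Agent.Lib.MP_3bb35d_al.LE
end

section

/-!
# Words of even length generate `SL₂(p)`
-/

set_option autoImplicit false

namespace Pool.Agent.Lib.MP_3bb35d_al.LE

open Pool.Agent.Lib.MP_3bb35d_al.UE

/-- PROOF. Let `N` be the closure of `T T`. If `T` is empty then `⊤ = ⊥`, trivial. Let `t ∈ T`. The set `N ∪ t N` is stable under left multiplication by every `s ∈ T` (`s N = t (t⁻¹ s) N = t N`, `t⁻¹ ∈ T`; `s t N = N`), so it is `G` (`Subgroup.closure_induction_left` or so; `T` is symmetric), and `N` has index at most two.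
Hence `g ^ 2 ∈ N` for all `g` (`Subgroup.sq_mem_of_index_two`). If `g ^ n = 1` with `n` odd then `g = (g ^ ((n + 1) / 2)) ^ 2 ∈ N`. -/
theorem odd_mem {G : Type*} [Group G] [Finite G] {T : Set G} (hT : Subgroup.closure T = ⊤)
    (hinv : ∀ g ∈ T, g⁻¹ ∈ T) {g : G} {n : ℕ} (hn : Odd n) (hg : g ^ n = 1) :
    g ∈ Subgroup.closure {g | ∃ a ∈ T, ∃ b ∈ T, g = a * b} := by
  set N : Subgroup G := Subgroup.closure {g | ∃ a ∈ T, ∃ b ∈ T, g = a * b} with hN
  have hTT : ∀ a ∈ T, ∀ b ∈ T, a * b ∈ N := fun a ha b hb => Subgroup.subset_closure ⟨a, ha, b, hb, rfl⟩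
  have key : ∀ x : G, x ∈ N ∨ ∀ s ∈ T, s * x ∈ N := by
    intro x
    have hx : x ∈ Subgroup.closure T := by rw [hT]; exact Subgroup.mem_top x
    refine Subgroup.closure_induction_left (p := fun x _ => x ∈ N ∨ ∀ s ∈ T, s * x ∈ N) ?_ ?_ ?_ hx
    · exact Or.inl N.one_mem
    · intro s hs y _ ih
      rcases ih with ih | ih
      · right
        intro s' hs'
        rw [← mul_assoc]
        exact N.mul_mem (hTT s' hs' s hs) ih
      · exact Or.inl (ih s hs)
    · intro s hs y _ ih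
      rcases ih with ih | ih
      · right
        intro s' hs'
        rw [← mul_assoc]
        exact N.mul_mem (hTT s' hs' s⁻¹ (hinv s hs)) ih
      · exact Or.inl (ih s⁻¹ (hinv s hs))
  have hsq : ∀ x : G, x ^ 2 ∈ N := by
    intro x
    by_cases hx : x ∈ N
    · exact N.pow_mem hx 2
    · rcases T.eq_empty_or_nonempty with h0 | ⟨t, ht⟩
      · exfalso
        apply hx
        have h1 : x ∈ Subgroup.closure T := by rw [hT]; exact Subgroup.mem_top x
        rw [h0, Subgroup.closure_empty, Subgroup.mem_bot] at h1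
        rw [h1]
        exact N.one_mem
      · have h1 : t⁻¹ * x ∈ N := ((key x).resolve_left hx) t⁻¹ (hinv t ht)
        have hx' : x⁻¹ ∉ N := fun h => hx (N.inv_mem_iff.1 h)
        have h2 : t⁻¹ * x⁻¹ ∈ N := ((key x⁻¹).resolve_left hx') t⁻¹ (hinv t ht)
        have h3 : x * t ∈ N := by
          have h4 := N.inv_mem h2
          rwa [mul_inv_rev, inv_inv, inv_inv] at h4
        have h5 := N.mul_mem h3 h1
        have h6 : x * t * (t⁻¹ * x) = x ^ 2 := by
          rw [mul_assoc, mul_inv_cancel_left, sq]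
        rwa [h6] at h5
  obtain ⟨m, hm⟩ := hn
  have h1 := hsq (g ^ (m + 1))
  have h2 : (g ^ (m + 1)) ^ 2 = g := by
    rw [← pow_mul, show (m + 1) * 2 = n + 1 by omega, pow_succ, hg, one_mul]
  rwa [h2] at h1

private theorem E4_pow {p : ℕ} [Fact p.Prime] {i j : Fin 2} (h : i ≠ j) (c : ZMod p) (n : ℕ) :
    (Matrix.SpecialLinearGroup.transvection h c : SL2 p) ^ n =
      Matrix.SpecialLinearGroup.transvection h ((n : ZMod p) * c) := by
  induction n with
  | zero =>
    rw [pow_zero, Nat.cast_zero, zero_mul, Matrix.SpecialLinearGroup.transvection_coeff_zero]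
  | succ n ih =>
    rw [pow_succ, ih]
    apply Subtype.ext
    rw [Matrix.SpecialLinearGroup.coe_mul]
    show Matrix.transvection i j ((n : ZMod p) * c) * Matrix.transvection i j c =
      Matrix.transvection i j (((n + 1 : ℕ) : ZMod p) * c)
    rw [Matrix.transvection_mul_transvection_same _ _ h]
    congr 1
    push_cast
    ring

/-- PROOF. `SL₂(p)` is generated by the matrices `!![1, a; 0, 1]`, `!![1, 0; a, 1]` (Mathlib: `Matrix.SpecialLinearGroup.SL2.transvection_induction` or the proof of `closure_two_unipotents` in UE/H1), their `p`-th powers are one and `p` is odd: `odd_mem`. -/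
theorem closure_even {p : ℕ} [Fact p.Prime] (hp : 3 ≤ p) {T : Set (SL2 p)}
    (hT : Subgroup.closure T = ⊤) (hinv : ∀ g ∈ T, g⁻¹ ∈ T) :
    Subgroup.closure {g : SL2 p | ∃ a ∈ T, ∃ b ∈ T, g = a * b} = ⊤ := by
  have hp1 : p.Prime := Fact.out
  have hodd : Odd p := hp1.odd_of_ne_two (by omega)
  rw [eq_top_iff]
  intro A _
  refine Matrix.SL2.transvection_induction
    (fun A => A ∈ Subgroup.closure {g : SL2 p | ∃ a ∈ T, ∃ b ∈ T, g = a * b}) ?_ ?_ A
  · intro i j h c
    refine odd_mem hT hinv hodd ?_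
    rw [E4_pow h c p, CharP.cast_eq_zero, zero_mul, Matrix.SpecialLinearGroup.transvection_coeff_zero]
  · intro A B hA hB
    exact Subgroup.mul_mem _ hA hB

end Pool.Agent.Lib.MP_3bb35d_al.LE
end

section

/-!
# Non-degeneracy
-/

set_option autoImplicit false

open Finset

namespace Pool.Agent.Lib.MP_3bb35d_al.LE

private theorem B2_val {X : Type*} [Fintype X] (u : X → ℝ) (j : ℕ) (y : Fin j → X)
    (hy : Function.Injective y) (x : X) (S : Finset X) (hS : ∀ x, x ∈ S ↔ x ∈ Set.range y) :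
    (tens (j + 1) u (Fin.cons x y : Fin (j + 1) → X)) ^ 2
      = u x ^ 2 * (tens j u y) ^ 2 - (S : Set X).indicator (fun x => u x ^ 2 * (tens j u y) ^ 2) x := by
  unfold tens
  by_cases hx : x ∈ Set.range y
  · rw [Set.indicator_of_notMem]
    · rw [Set.indicator_of_mem (show x ∈ (S : Set X) from Finset.mem_coe.2 ((hS x).2 hx))]
      ring
    · intro hc
      have hc' : Function.Injective (Fin.cons x y : Fin (j + 1) → X) := hc
      rw [Fin.cons_injective_iff] at hc'
      exact hc'.1 hx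
  · have h1 : Function.Injective (Fin.cons x y : Fin (j + 1) → X) := by
      rw [Fin.cons_injective_iff]
      exact ⟨hx, hy⟩
    rw [Set.indicator_of_mem (show (Fin.cons x y : Fin (j + 1) → X) ∈
        {y : Fin (j + 1) → X | Function.Injective y} from h1),
      Set.indicator_of_mem (show y ∈ {y : Fin j → X | Function.Injective y} from hy),
      Set.indicator_of_notMem (show x ∉ (S : Set X) from
        fun h => hx ((hS x).1 (Finset.mem_coe.1 h)))]
    rw [Fin.prod_univ_succ]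
    simp only [Fin.cons_zero, Fin.cons_succ]
    ring

private theorem B2_step {X : Type*} [Fintype X] (u : X → ℝ) (m j : ℕ) (hj : j < m) {r : ℝ}
    (h : ∀ F : Finset X, F.card < m → ∑ x ∈ F, u x ^ 2 ≤ (1 - r) * nx u) (y : Fin j → X) :
    (tens j u y) ^ 2 * (r * nx u)
      ≤ ∑ x, (tens (j + 1) u (Fin.cons x y : Fin (j + 1) → X)) ^ 2 := by
  classical
  by_cases hy : Function.Injective y
  · have hS : ∀ x, x ∈ (Finset.univ.image y) ↔ x ∈ Set.range y := by
      intro x
      simp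
    have hcard : (Finset.univ.image y).card < m := by
      calc (Finset.univ.image y).card ≤ (Finset.univ : Finset (Fin j)).card := Finset.card_image_le
        _ = j := by simp
        _ < m := hj
    rw [Finset.sum_congr rfl (fun x _ => B2_val u j y hy x (Finset.univ.image y) hS)]
    rw [Finset.sum_sub_distrib]
    have h2 : ∑ x, ((Finset.univ.image y : Finset X) : Set X).indicator
        (fun x => u x ^ 2 * (tens j u y) ^ 2) x
          = ∑ x ∈ Finset.univ.image y, u x ^ 2 * (tens j u y) ^ 2 := by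
      rw [Finset.sum_indicator_subset _ (Finset.subset_univ _)]
    rw [h2, ← Finset.sum_mul, ← Finset.sum_mul]
    have h3 := h _ hcard
    have h4 : ∑ x, u x ^ 2 = nx u := rfl
    rw [h4]
    have h5 : 0 ≤ (tens j u y) ^ 2 := sq_nonneg _
    nlinarith [mul_le_mul_of_nonneg_right h3 h5]
  · have h0 : tens j u y = 0 := by
      unfold tens
      exact Set.indicator_of_notMem (show y ∉ {y : Fin j → X | Function.Injective y} from hy) _
    rw [h0]
    have : (0 : ℝ) ^ 2 * (r * nx u) = 0 := by ring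
    rw [this]
    exact Finset.sum_nonneg (fun x _ => sq_nonneg _)

private theorem B2_succ {X : Type*} [Fintype X] (u : X → ℝ) (m j : ℕ) (hj : j < m) {r : ℝ}
    (h : ∀ F : Finset X, F.card < m → ∑ x ∈ F, u x ^ 2 ≤ (1 - r) * nx u) :
    nx (tens j u) * (r * nx u) ≤ nx (tens (j + 1) u) := by
  have h1 : nx (tens (j + 1) u)
      = ∑ y : Fin j → X, ∑ x, (tens (j + 1) u (Fin.cons x y : Fin (j + 1) → X)) ^ 2 := by
    unfold nx
    rw [← (Fin.consEquiv (fun _ : Fin (j + 1) => X)).sum_comp]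
    rw [Fintype.sum_prod_type_right]
    rfl
  rw [h1]
  have h2 : nx (tens j u) * (r * nx u) = ∑ y : Fin j → X, (tens j u y) ^ 2 * (r * nx u) := by
    rw [← Finset.sum_mul]
    rfl
  rw [h2]
  exact Finset.sum_le_sum (fun y _ => B2_step u m j hj h y)

/-- PROOF. Let `b = nx u`, `N j = nx (tens j u) = ∑ (y : Fin j → X injective), ∏ i, u (y i) ^ 2`. Induction on `j ≤ m`: `r ^ j * b ^ j ≤ N j`. `N 0 = 1`. For `j + 1 ≤ m`: split `Fin (j + 1) → X` as `X × (Fin j → X)` (`Fin.consEquiv` / `Fin.insertNthEquiv`);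
`Fin.cons x y` is injective iff `y` is injective and `x ∉ range y` (`Fin.cons_injective_iff`), so
`N (j + 1) = ∑ (y injective), ∏ i, u (y i) ^ 2 * (b - ∑ x ∈ image y, u x ^ 2) ≥ N j * (r b)`, as the image of `y` has `j < m` points. -/
theorem nondeg {X : Type*} [Fintype X] (u : X → ℝ) (m : ℕ) {r : ℝ} (hr : 0 ≤ r)
    (h : ∀ F : Finset X, F.card < m → ∑ x ∈ F, u x ^ 2 ≤ (1 - r) * nx u) :
    r ^ m * nx u ^ m ≤ nx (tens m u) := by
  have hb : 0 ≤ nx u := Finset.sum_nonneg (fun x _ => sq_nonneg _)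
  have key : ∀ j, j ≤ m → r ^ j * nx u ^ j ≤ nx (tens j u) := by
    intro j
    induction j with
    | zero =>
      intro _
      have h0 : nx (tens 0 u) = 1 := by
        unfold nx
        rw [Fintype.sum_unique]
        have h1 : tens 0 u default = 1 := by
          unfold tens
          rw [Set.indicator_of_mem]
          · simp
          · intro a b _
            exact Subsingleton.elim a b
        rw [h1]
        norm_num
      rw [h0]
      simp
    | succ j ih =>
      intro hj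
      have h1 := ih (by omega)
      have h2 := B2_succ u m j (by omega) h
      calc r ^ (j + 1) * nx u ^ (j + 1) = (r ^ j * nx u ^ j) * (r * nx u) := by ring
        _ ≤ nx (tens j u) * (r * nx u) :=
          mul_le_mul_of_nonneg_right h1 (mul_nonneg hr hb)
        _ ≤ nx (tens (j + 1) u) := h2
  exact key m le_rfl

end Pool.Agent.Lib.MP_3bb35d_al.LE
end

section

/-!
# The stabiliser of a line
-/

set_option autoImplicit false

open Finset

namespace Pool.Agent.Lib.MP_3bb35d_al.LE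

open Pool.Agent.Lib.MP_3bb35d_al.UE

variable {p : ℕ} [Fact p.Prime]

/-- determinant of two vectors -/
private def K1_D (v w : Fin 2 → ZMod p) : ZMod p := v 0 * w 1 - v 1 * w 0

private theorem K1_prop {v w : Fin 2 → ZMod p} (hv : v ≠ 0) :
    K1_D v w = 0 ↔ ∃ c : ZMod p, w = c • v := by
  constructor
  · intro h
    unfold K1_D at h
    by_cases h0 : v 0 = 0
    · have h1 : v 1 ≠ 0 := by
        intro h1
        apply hv
        funext i
        fin_cases i
        · exact h0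
        · exact h1
      refine ⟨w 1 / v 1, ?_⟩
      funext i
      fin_cases i
      · have : v 1 * w 0 = 0 := by rw [h0] at h; linear_combination -h
        have h2 : w 0 = 0 := by
          rcases mul_eq_zero.1 this with h3 | h3
          · exact absurd h3 h1
          · exact h3
        simp [h0, h2]
      · simp [h1]
    · refine ⟨w 0 / v 0, ?_⟩
      funext i
      fin_cases i
      · simp [h0]
      · simp only [Pi.smul_apply, smul_eq_mul, Fin.mk_one, Fin.isValue]
        field_simp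
        linear_combination h
  · rintro ⟨c, rfl⟩
    simp only [K1_D, Pi.smul_apply, smul_eq_mul]
    ring

private theorem K1_mulVec (g : SL2 p) (v w : Fin 2 → ZMod p) :
    K1_D ((g : Matrix (Fin 2) (Fin 2) (ZMod p)).mulVec v)
      ((g : Matrix (Fin 2) (Fin 2) (ZMod p)).mulVec w) = K1_D v w := by
  have hd := g.det_coe
  rw [Matrix.det_fin_two] at hd
  simp only [K1_D, Matrix.mulVec, dotProduct, Fin.sum_univ_two]
  linear_combination (v 0 * w 1 - v 1 * w 0) * hd

private theorem K1_inj (g : SL2 p) {v : Fin 2 → ZMod p} (hv : v ≠ 0) :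
    (g : Matrix (Fin 2) (Fin 2) (ZMod p)).mulVec v ≠ 0 := by
  intro h
  apply hv
  have h1 : ((g⁻¹ : SL2 p) : Matrix (Fin 2) (Fin 2) (ZMod p)).mulVec
      ((g : Matrix (Fin 2) (Fin 2) (ZMod p)).mulVec v) = v := by
    rw [Matrix.mulVec_mulVec, ← Matrix.SpecialLinearGroup.coe_mul, inv_mul_cancel,
      Matrix.SpecialLinearGroup.coe_one, Matrix.one_mulVec]
  rw [← h1, h, Matrix.mulVec_zero]

/-- `x⁻¹ g y` fixes the line of `v` iff `g (y v)` is on the line of `x v`. -/
private theorem K1_iff {v : Fin 2 → ZMod p} (hv : v ≠ 0) (x h : SL2 p) :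
    x⁻¹ * h ∈ bor v ↔ K1_D ((x : Matrix (Fin 2) (Fin 2) (ZMod p)).mulVec v)
      ((h : Matrix (Fin 2) (Fin 2) (ZMod p)).mulVec v) = 0 := by
  have h1 : (x : Matrix (Fin 2) (Fin 2) (ZMod p)).mulVec
      (((x⁻¹ * h : SL2 p) : Matrix (Fin 2) (Fin 2) (ZMod p)).mulVec v) =
      (h : Matrix (Fin 2) (Fin 2) (ZMod p)).mulVec v := by
    rw [Matrix.mulVec_mulVec, ← Matrix.SpecialLinearGroup.coe_mul, mul_inv_cancel_left]
  rw [← h1, K1_mulVec, K1_prop hv]
  rfl

/-- PROOF: closed under products and inverses (if `g v = c v` then `c ≠ 0` and `g⁻¹ v = c⁻¹ v`). -/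
theorem exists_borel {v : Fin 2 → ZMod p} (hv : v ≠ 0) :
    ∃ K : Subgroup (SL2 p), ∀ g : SL2 p, g ∈ K ↔ g ∈ bor v := by
  refine ⟨{ carrier := bor v, mul_mem' := ?_, one_mem' := ?_, inv_mem' := ?_ }, fun g => Iff.rfl⟩
  · rintro a b ⟨c, hc⟩ ⟨d, hd⟩
    refine ⟨c * d, ?_⟩
    rw [Matrix.SpecialLinearGroup.coe_mul, ← Matrix.mulVec_mulVec, hd, Matrix.mulVec_smul, hc,
      smul_smul, mul_comm]
  · exact ⟨1, by simp⟩
  · rintro a ⟨c, hc⟩
    have hc0 : c ≠ 0 := by
      rintro rfl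
      rw [zero_smul] at hc
      exact K1_inj a hv hc
    refine ⟨c⁻¹, ?_⟩
    have h1 : ((a⁻¹ : SL2 p) : Matrix (Fin 2) (Fin 2) (ZMod p)).mulVec
        ((a : Matrix (Fin 2) (Fin 2) (ZMod p)).mulVec v) = v := by
      rw [Matrix.mulVec_mulVec, ← Matrix.SpecialLinearGroup.coe_mul, inv_mul_cancel,
        Matrix.SpecialLinearGroup.coe_one, Matrix.one_mulVec]
    rw [hc, Matrix.mulVec_smul] at h1
    have h2 := congrArg (fun w => c⁻¹ • w) h1
    simpa [smul_smul, hc0] using h2

private theorem K1_exists_e1 {v : Fin 2 → ZMod p} (hv : v ≠ 0) :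
    ∃ g : SL2 p, (g : Matrix (Fin 2) (Fin 2) (ZMod p)).mulVec ![1, 0] = v := by
  by_cases h0 : v 0 = 0
  · have h1 : v 1 ≠ 0 := by
      intro h1
      apply hv
      funext i
      fin_cases i
      · exact h0
      · exact h1
    refine ⟨⟨!![v 0, -(v 1)⁻¹; v 1, 0], ?_⟩, ?_⟩
    · rw [Matrix.det_fin_two_of]
      field_simp
      ring
    · funext i
      fin_cases i <;> simp [Matrix.mulVec, dotProduct, Fin.sum_univ_two]
  · refine ⟨⟨!![v 0, 0; v 1, (v 0)⁻¹], ?_⟩, ?_⟩
    · rw [Matrix.det_fin_two_of]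
      field_simp
      ring
    · funext i
      fin_cases i <;> simp [Matrix.mulVec, dotProduct, Fin.sum_univ_two]

private theorem K1_exists {v w : Fin 2 → ZMod p} (hv : v ≠ 0) (hw : w ≠ 0) :
    ∃ g : SL2 p, (g : Matrix (Fin 2) (Fin 2) (ZMod p)).mulVec v = w := by
  obtain ⟨a, ha⟩ := K1_exists_e1 hv
  obtain ⟨b, hb⟩ := K1_exists_e1 hw
  refine ⟨b * a⁻¹, ?_⟩
  rw [← ha, Matrix.mulVec_mulVec, ← Matrix.SpecialLinearGroup.coe_mul, inv_mul_cancel_right, hb]

/-- PROOF. Say `v = (a, b)`. For every `w ≠ 0` there is `g ∈ SL₂` with `g v = w`; three pairwise non-proportional vectors `w` (e.g. the nonzero vectors `(1, 0), (0, 1), (1, 1)`) give three elements in distinct cosets of `K` (`x⁻¹ y ∈ K` iff `y v` is proportional to `x v`), so `K.index ≥ 3`.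
(`w = g v`: it is enough to have `h` with `h (1, 0) = v` for every `v ≠ 0`: first column `v`; and then `g = h_w h_v⁻¹`.) -/
theorem borel_index {v : Fin 2 → ZMod p} (hv : v ≠ 0) {K : Subgroup (SL2 p)}
    (hK : ∀ g : SL2 p, g ∈ K ↔ g ∈ bor v) : 3 ≤ K.index := by
  classical
  have hw : ∀ i : Fin 3, (![![1, 0], ![0, 1], ![1, 1]] : Fin 3 → Fin 2 → ZMod p) i ≠ 0 := by
    intro i h
    have h0 := congrFun h 0
    have h1 := congrFun h 1
    fin_cases i <;> simp at h0 h1
  choose x hx using fun i : Fin 3 => K1_exists hv (hw i)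
  have hinj : Function.Injective (fun i : Fin 3 => (x i : SL2 p ⧸ K)) := by
    intro i j hij
    have h1 : (x i)⁻¹ * x j ∈ K := QuotientGroup.eq.1 hij
    rw [hK, K1_iff hv, hx, hx] at h1
    by_contra hne
    revert h1
    fin_cases i <;> fin_cases j <;> simp [K1_D] at hne ⊢
  have h2 : Nat.card (Fin 3) ≤ Nat.card (SL2 p ⧸ K) := Nat.card_le_card_of_injective _ hinj
  rw [Nat.card_eq_fintype_card, Fintype.card_fin] at h2
  exact h2

/-- PROOF. A matrix with three pairwise non-proportional eigenvectors `w₀, w₁, w₂` in dimension two is a scalar: `w₂ = α w₀ + β w₁`, `α β ≠ 0`, so the eigenvalues are equal. An element of `SL₂` which is a scalar `c` has `c ^ 2 = 1`: it is `1` or `-1`. `w_i = x_i v`: `(x i)⁻¹ * g * x i ∈ bor v` iff `g (x i v) ∈` line of `x i v`. So the set is contained in `{1, -1}`. -/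
theorem borel_stab {v : Fin 2 → ZMod p} (hv : v ≠ 0) {K : Subgroup (SL2 p)}
    (hK : ∀ g : SL2 p, g ∈ K ↔ g ∈ bor v) (x : Fin 3 → SL2 p)
    (hx : ∀ i j, i ≠ j → (x i)⁻¹ * x j ∉ K) :
    {g : SL2 p | ∀ i, (x i)⁻¹ * g * x i ∈ K}.ncard ≤ 8 := by
  have hsub : {g : SL2 p | ∀ i, (x i)⁻¹ * g * x i ∈ K} ⊆ {1, -1} := by
    intro g hg
    have h1 : ∀ i, K1_D ((x i : Matrix (Fin 2) (Fin 2) (ZMod p)).mulVec v)
        ((g : Matrix (Fin 2) (Fin 2) (ZMod p)).mulVec
          ((x i : Matrix (Fin 2) (Fin 2) (ZMod p)).mulVec v)) = 0 := by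
      intro i
      have h2 := hg i
      rw [hK, mul_assoc, K1_iff hv, Matrix.SpecialLinearGroup.coe_mul, ← Matrix.mulVec_mulVec] at h2
      exact h2
    have h3 : ∀ i j, i ≠ j → K1_D ((x i : Matrix (Fin 2) (Fin 2) (ZMod p)).mulVec v)
        ((x j : Matrix (Fin 2) (Fin 2) (ZMod p)).mulVec v) ≠ 0 := by
      intro i j hij h4
      exact hx i j hij ((hK _).2 ((K1_iff hv _ _).2 h4))
    set w : Fin 3 → Fin 2 → ZMod p := fun i => (x i : Matrix (Fin 2) (Fin 2) (ZMod p)).mulVec v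
      with hw
    have k0 := h1 0
    have k1 := h1 1
    have k2 := h1 2
    have e01 := h3 0 1 (by decide)
    have e02 := h3 0 2 (by decide)
    have e12 := h3 1 2 (by decide)
    change K1_D (w 0) ((g : Matrix (Fin 2) (Fin 2) (ZMod p)).mulVec (w 0)) = 0 at k0
    change K1_D (w 1) ((g : Matrix (Fin 2) (Fin 2) (ZMod p)).mulVec (w 1)) = 0 at k1
    change K1_D (w 2) ((g : Matrix (Fin 2) (Fin 2) (ZMod p)).mulVec (w 2)) = 0 at k2
    change K1_D (w 0) (w 1) ≠ 0 at e01
    change K1_D (w 0) (w 2) ≠ 0 at e02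
    change K1_D (w 1) (w 2) ≠ 0 at e12
    simp only [K1_D, Matrix.mulVec, dotProduct, Fin.sum_univ_two] at k0 k1 k2 e01 e02 e12
    -- quadratic form c X² + (d - a) X Y - b Y² vanishes at three non-proportional points
    have hb : (g 0 1 : ZMod p) = 0 ∧ (g 1 0 : ZMod p) = 0 ∧ (g 1 1 : ZMod p) = g 0 0 := by
      set a := (g 0 0 : ZMod p)
      set b := (g 0 1 : ZMod p)
      set c := (g 1 0 : ZMod p)
      set d := (g 1 1 : ZMod p)
      set X0 := w 0 0
      set Y0 := w 0 1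
      set X1 := w 1 0
      set Y1 := w 1 1
      set X2 := w 2 0
      set Y2 := w 2 1
      have hprod : (X0 * Y1 - Y0 * X1) * (X0 * Y2 - Y0 * X2) * (X1 * Y2 - Y1 * X2) ≠ 0 :=
        mul_ne_zero (mul_ne_zero e01 e02) e12
      have q0 : c * X0 ^ 2 + (d - a) * X0 * Y0 - b * Y0 ^ 2 = 0 := by linear_combination k0
      have q1 : c * X1 ^ 2 + (d - a) * X1 * Y1 - b * Y1 ^ 2 = 0 := by linear_combination k1
      have q2 : c * X2 ^ 2 + (d - a) * X2 * Y2 - b * Y2 ^ 2 = 0 := by linear_combination k2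
      have hc : c * ((X0 * Y1 - Y0 * X1) * (X0 * Y2 - Y0 * X2) * (X1 * Y2 - Y1 * X2)) = 0 := by
        linear_combination (X1 * Y1 * Y2 ^ 2 - X2 * Y2 * Y1 ^ 2) * q0 -
          (X0 * Y0 * Y2 ^ 2 - X2 * Y2 * Y0 ^ 2) * q1 + (X0 * Y0 * Y1 ^ 2 - X1 * Y1 * Y0 ^ 2) * q2
      have hb : b * ((X0 * Y1 - Y0 * X1) * (X0 * Y2 - Y0 * X2) * (X1 * Y2 - Y1 * X2)) = 0 := by
        linear_combination -(X1 ^ 2 * X2 * Y2 - X2 ^ 2 * X1 * Y1) * q0 +
          (X0 ^ 2 * X2 * Y2 - X2 ^ 2 * X0 * Y0) * q1 - (X0 ^ 2 * X1 * Y1 - X1 ^ 2 * X0 * Y0) * q2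
      have hd : (d - a) * ((X0 * Y1 - Y0 * X1) * (X0 * Y2 - Y0 * X2) * (X1 * Y2 - Y1 * X2)) =
          0 := by
        linear_combination -(X1 ^ 2 * Y2 ^ 2 - X2 ^ 2 * Y1 ^ 2) * q0 +
          (X0 ^ 2 * Y2 ^ 2 - X2 ^ 2 * Y0 ^ 2) * q1 - (X0 ^ 2 * Y1 ^ 2 - X1 ^ 2 * Y0 ^ 2) * q2
      have hc' := (mul_eq_zero.1 hc).resolve_right hprod
      have hb' := (mul_eq_zero.1 hb).resolve_right hprod
      have hd' := (mul_eq_zero.1 hd).resolve_right hprod
      exact ⟨hb', hc', by linear_combination hd'⟩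
    obtain ⟨hb, hc, hd⟩ := hb
    have hdet := g.det_coe
    rw [Matrix.det_fin_two] at hdet
    have hsq : (g 0 0 : ZMod p) * g 0 0 = 1 := by
      have h5 : (g 0 0 : ZMod p) * g 1 1 - g 0 1 * g 1 0 = 1 := hdet
      rw [hb, hd] at h5
      linear_combination h5
    rcases mul_self_eq_one_iff.1 hsq with h6 | h6
    · left
      ext i j
      fin_cases i <;> fin_cases j
      · simpa using h6
      · simpa using hb
      · simpa using hc
      · have : (g 1 1 : ZMod p) = 1 := by rw [hd, h6]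
        simpa using this
    · right
      show g = -1
      ext i j
      fin_cases i <;> fin_cases j
      · simpa using h6
      · simpa using hb
      · simpa using hc
      · have : (g 1 1 : ZMod p) = -1 := by rw [hd, h6]
        simpa using this
  have hfin : ({1, -1} : Set (SL2 p)).Finite := Set.toFinite _
  have h7 := Set.ncard_le_ncard hsub hfin
  have h8 : ({1, -1} : Set (SL2 p)).ncard ≤ 2 := by
    refine (Set.ncard_insert_le _ _).trans ?_
    rw [Set.ncard_singleton]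
  omega

/-- PROOF: the three lemmas above. -/
theorem geo_borel {v : Fin 2 → ZMod p} (hv : v ≠ 0) :
    ∃ K : Subgroup (SL2 p), (∀ g : SL2 p, g ∈ K ↔ g ∈ bor v) ∧ Geo K 3 := by
  obtain ⟨K, hK⟩ := exists_borel hv
  exact ⟨K, hK, borel_index hv hK, borel_stab hv hK⟩

end Pool.Agent.Lib.MP_3bb35d_al.LE
end

section

/-!
# The normaliser of a torus
-/

set_option autoImplicit false

open Finset

namespace Pool.Agent.Lib.MP_3bb35d_al.LE

open Pool.Agent.Lib.MP_3bb35d_al.UE

variable {p : ℕ} [Fact p.Prime]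

/-- `g A g⁻¹ = A` or `g A g⁻¹ = -A`. -/
def PM (A : Matrix (Fin 2) (Fin 2) (ZMod p)) (g : SL2 p) : Prop :=
  (g : Matrix (Fin 2) (Fin 2) (ZMod p)) * A = A * (g : Matrix (Fin 2) (Fin 2) (ZMod p)) ∨
    (g : Matrix (Fin 2) (Fin 2) (ZMod p)) * A = -(A * (g : Matrix (Fin 2) (Fin 2) (ZMod p)))

theorem K2_mul {A : Matrix (Fin 2) (Fin 2) (ZMod p)} {g h : SL2 p} (hg : PM A g) (hh : PM A h) :
    PM A (g * h) := by
  unfold PM at *
  rw [Matrix.SpecialLinearGroup.coe_mul]
  have e1 : ∀ X Y Z : Matrix (Fin 2) (Fin 2) (ZMod p), X * Y * Z = X * (Y * Z) :=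
    fun X Y Z => Matrix.mul_assoc X Y Z
  rcases hg with hg | hg <;> rcases hh with hh | hh
  · left
    rw [e1, hh, ← e1, hg, e1]
  · right
    rw [e1, hh, Matrix.mul_neg, ← e1, hg, e1]
  · right
    rw [e1, hh, ← e1, hg, Matrix.neg_mul, e1]
  · left
    rw [e1, hh, Matrix.mul_neg, ← e1, hg, Matrix.neg_mul, e1, neg_neg]

theorem K2_vl (g : SL2 p) : ((g⁻¹ : SL2 p) : Matrix (Fin 2) (Fin 2) (ZMod p)) *
    (g : Matrix (Fin 2) (Fin 2) (ZMod p)) = 1 := by
  rw [← Matrix.SpecialLinearGroup.coe_mul, inv_mul_cancel, Matrix.SpecialLinearGroup.coe_one]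

theorem K2_vr (g : SL2 p) : (g : Matrix (Fin 2) (Fin 2) (ZMod p)) *
    ((g⁻¹ : SL2 p) : Matrix (Fin 2) (Fin 2) (ZMod p)) = 1 := by
  rw [← Matrix.SpecialLinearGroup.coe_mul, mul_inv_cancel, Matrix.SpecialLinearGroup.coe_one]

theorem K2_inv {A : Matrix (Fin 2) (Fin 2) (ZMod p)} {g : SL2 p} (hg : PM A g) : PM A g⁻¹ := by
  have h1 := K2_vl g
  have h2 := K2_vr g
  unfold PM at *
  set G : Matrix (Fin 2) (Fin 2) (ZMod p) := (g : Matrix (Fin 2) (Fin 2) (ZMod p)) with hG
  set H : Matrix (Fin 2) (Fin 2) (ZMod p) :=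
    ((g⁻¹ : SL2 p) : Matrix (Fin 2) (Fin 2) (ZMod p)) with hH
  rcases hg with hg | hg
  · left
    calc H * A = H * (A * (G * H)) := by rw [h2, mul_one]
      _ = H * (A * G) * H := by simp only [mul_assoc]
      _ = H * (G * A) * H := by rw [hg]
      _ = (H * G) * A * H := by simp only [mul_assoc]
      _ = A * H := by rw [h1, one_mul]
  · right
    have hg' : A * G = -(G * A) := by rw [hg, neg_neg]
    calc H * A = H * (A * (G * H)) := by rw [h2, mul_one]
      _ = H * (A * G) * H := by simp only [mul_assoc]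
      _ = H * (-(G * A)) * H := by rw [hg']
      _ = -((H * G) * A * H) := by
          rw [Matrix.mul_neg, Matrix.neg_mul]
          simp only [mul_assoc]
      _ = -(A * H) := by rw [h1, one_mul]

/-- PROOF: `PM A g` iff `g A g⁻¹ = ± A`; closed under products and inverses. -/
theorem exists_tor (A : Matrix (Fin 2) (Fin 2) (ZMod p)) :
    ∃ K : Subgroup (SL2 p), ∀ g : SL2 p, g ∈ K ↔ PM A g := by
  refine ⟨{ carrier := {g | PM A g}, mul_mem' := ?_, one_mem' := ?_, inv_mem' := ?_ },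
    fun g => Iff.rfl⟩
  · intro g h hg hh
    exact K2_mul hg hh
  · left
    simp
  · intro g hg
    exact K2_inv hg

theorem K2_two (hp : 3 ≤ p) : (2 : ZMod p) ≠ 0 := by
  intro h
  have h2 : ((2 : ℕ) : ZMod p) = 0 := by exact_mod_cast h
  rw [ZMod.natCast_eq_zero_iff] at h2
  have := Nat.le_of_dvd (by norm_num) h2
  omega

/-- PROOF. It is enough to show `K ≠ ⊤`. Let `g = !![1, 1; 0, 1]`, `A = !![a, b; c, -a]` (trace zero). `g A - A g = !![c, -2a; 0, -c]`: if it is zero then `c = 0`, `a = 0`, `det A = - a² - b c = 0`, excluded. `g A + A g = !![2a + c, 2b; 2c, -2a + c]`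
(`g A = !![a + c, b - a; c, -a]`, `A g = !![a, a + b; c, c - a]`): if it is zero then `b = c = 0` and `a = 0` (`2 ≠ 0`), excluded. -/
theorem tor_index (hp : 3 ≤ p) {A : Matrix (Fin 2) (Fin 2) (ZMod p)} (htr : A 0 0 + A 1 1 = 0)
    (hdet : A.det ≠ 0) {K : Subgroup (SL2 p)} (hK : ∀ g : SL2 p, g ∈ K ↔ PM A g) :
    2 ≤ K.index := by
  have h20 : (2 : ZMod p) ≠ 0 := K2_two hp
  have h0 : K.index ≠ 0 := Subgroup.index_ne_zero_of_finite
  have h1 : K.index ≠ 1 := by
    intro h
    rw [Subgroup.index_eq_one] at h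
    have hdet' := hdet
    rw [Matrix.det_fin_two] at hdet'
    have h11 : A 1 1 = -A 0 0 := by linear_combination htr
    let g : SL2 p := ⟨!![1, 1; 0, 1], by simp [Matrix.det_fin_two]⟩
    have hg : PM A g := (hK g).1 (by rw [h]; exact Subgroup.mem_top g)
    have hgm : (g : Matrix (Fin 2) (Fin 2) (ZMod p)) = !![1, 1; 0, 1] := rfl
    unfold PM at hg
    rw [hgm] at hg
    rcases hg with hg | hg
    · have e00 := congrFun (congrFun hg 0) 0
      have e01 := congrFun (congrFun hg 0) 1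
      simp only [Matrix.mul_apply, Fin.sum_univ_two, Matrix.of_apply, Matrix.cons_val', Matrix.cons_val_zero, Matrix.cons_val_one, Matrix.cons_val_fin_one] at e00 e01
      have hc : A 1 0 = 0 := by linear_combination e00
      have ha : A 0 0 = 0 := by
        have : (2 : ZMod p) * A 0 0 = 0 := by
          rw [h11] at e01
          linear_combination -e01
        rcases mul_eq_zero.1 this with h | h
        · exact absurd h h20
        · exact h
      apply hdet'
      rw [hc, ha]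
      ring
    · have e00 := congrFun (congrFun hg 0) 0
      have e01 := congrFun (congrFun hg 0) 1
      have e10 := congrFun (congrFun hg 1) 0
      simp only [Matrix.mul_apply, Fin.sum_univ_two, Matrix.of_apply, Matrix.cons_val', Matrix.cons_val_zero, Matrix.cons_val_one, Matrix.cons_val_fin_one, Matrix.neg_apply] at e00 e01 e10
      have hc : A 1 0 = 0 := by
        have : (2 : ZMod p) * A 1 0 = 0 := by
          linear_combination e10
        rcases mul_eq_zero.1 this with h | h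
        · exact absurd h h20
        · exact h
      have ha : A 0 0 = 0 := by
        have : (2 : ZMod p) * A 0 0 = 0 := by
          linear_combination e00 - hc
        rcases mul_eq_zero.1 this with h | h
        · exact absurd h h20
        · exact h
      apply hdet'
      rw [hc, ha]
      ring
  omega

/-- `y A y⁻¹`. -/
def K2_cj (A : Matrix (Fin 2) (Fin 2) (ZMod p)) (y : SL2 p) : Matrix (Fin 2) (Fin 2) (ZMod p) :=
  (y : Matrix (Fin 2) (Fin 2) (ZMod p)) * A *
    ((y⁻¹ : SL2 p) : Matrix (Fin 2) (Fin 2) (ZMod p))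

theorem K2_cj_tr {A : Matrix (Fin 2) (Fin 2) (ZMod p)} (htr : A 0 0 + A 1 1 = 0) (y : SL2 p) :
    K2_cj A y 0 0 + K2_cj A y 1 1 = 0 := by
  have h1 : (K2_cj A y).trace = A.trace := by
    unfold K2_cj
    rw [Matrix.trace_mul_comm, ← mul_assoc, K2_vl, one_mul]
  rw [Matrix.trace_fin_two, Matrix.trace_fin_two] at h1
  rw [h1, htr]

theorem K2_cj_det (A : Matrix (Fin 2) (Fin 2) (ZMod p)) (y : SL2 p) :
    (K2_cj A y).det = A.det := by
  unfold K2_cj
  rw [Matrix.det_mul, Matrix.det_mul, y.2, (y⁻¹).2, one_mul, mul_one]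

theorem K2_cj_pm {A : Matrix (Fin 2) (Fin 2) (ZMod p)} {x y : SL2 p}
    (h : K2_cj A y = K2_cj A x ∨ K2_cj A y = -K2_cj A x) : PM A (x⁻¹ * y) := by
  have hx1 := K2_vl x
  have hx2 := K2_vr x
  have hy1 := K2_vl y
  have hy2 := K2_vr y
  unfold K2_cj at h
  unfold PM
  rw [Matrix.SpecialLinearGroup.coe_mul]
  set X : Matrix (Fin 2) (Fin 2) (ZMod p) := (x : Matrix (Fin 2) (Fin 2) (ZMod p)) with hX
  set X' : Matrix (Fin 2) (Fin 2) (ZMod p) :=
    ((x⁻¹ : SL2 p) : Matrix (Fin 2) (Fin 2) (ZMod p)) with hX'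
  set Y : Matrix (Fin 2) (Fin 2) (ZMod p) := (y : Matrix (Fin 2) (Fin 2) (ZMod p)) with hY
  set Y' : Matrix (Fin 2) (Fin 2) (ZMod p) :=
    ((y⁻¹ : SL2 p) : Matrix (Fin 2) (Fin 2) (ZMod p)) with hY'
  rcases h with h | h
  · left
    calc X' * Y * A = X' * Y * A * (Y' * Y) := by rw [hy1, mul_one]
      _ = X' * (Y * A * Y') * Y := by simp only [mul_assoc]
      _ = X' * (X * A * X') * Y := by rw [h]
      _ = (X' * X) * (A * (X' * Y)) := by simp only [mul_assoc]
      _ = A * (X' * Y) := by rw [hx1, one_mul]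
  · right
    calc X' * Y * A = X' * Y * A * (Y' * Y) := by rw [hy1, mul_one]
      _ = X' * (Y * A * Y') * Y := by simp only [mul_assoc]
      _ = X' * (-(X * A * X')) * Y := by rw [h]
      _ = -((X' * X) * (A * (X' * Y))) := by
          rw [Matrix.mul_neg, Matrix.neg_mul]
          simp only [mul_assoc]
      _ = -(A * (X' * Y)) := by rw [hx1, one_mul]

theorem K2_cj_mem {A : Matrix (Fin 2) (Fin 2) (ZMod p)} {y g : SL2 p}
    (h : PM A (y⁻¹ * g * y)) : PM (K2_cj A y) g := by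
  have hy1 := K2_vl y
  have hy2 := K2_vr y
  unfold PM at h ⊢
  unfold K2_cj
  rw [Matrix.SpecialLinearGroup.coe_mul, Matrix.SpecialLinearGroup.coe_mul] at h
  set G : Matrix (Fin 2) (Fin 2) (ZMod p) := (g : Matrix (Fin 2) (Fin 2) (ZMod p)) with hG
  set Y : Matrix (Fin 2) (Fin 2) (ZMod p) := (y : Matrix (Fin 2) (Fin 2) (ZMod p)) with hY
  set Y' : Matrix (Fin 2) (Fin 2) (ZMod p) :=
    ((y⁻¹ : SL2 p) : Matrix (Fin 2) (Fin 2) (ZMod p)) with hY'
  rcases h with h | h
  · left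
    calc G * (Y * A * Y') = (Y * Y') * (G * (Y * A * Y')) := by rw [hy2, one_mul]
      _ = Y * (Y' * G * Y * A) * Y' := by simp only [mul_assoc]
      _ = Y * (A * (Y' * G * Y)) * Y' := by rw [h]
      _ = Y * A * Y' * G * (Y * Y') := by simp only [mul_assoc]
      _ = Y * A * Y' * G := by rw [hy2, mul_one]
  · right
    calc G * (Y * A * Y') = (Y * Y') * (G * (Y * A * Y')) := by rw [hy2, one_mul]
      _ = Y * (Y' * G * Y * A) * Y' := by simp only [mul_assoc]
      _ = Y * (-(A * (Y' * G * Y))) * Y' := by rw [h]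
      _ = -(Y * A * Y' * G * (Y * Y')) := by
          rw [Matrix.mul_neg, Matrix.neg_mul]
          simp only [mul_assoc]
      _ = -(Y * A * Y' * G) := by rw [hy2, mul_one]

/-- Two vectors parallel to a nonzero vector are parallel. -/
theorem K2_par {F : Type*} [Field F] {w1 w2 w3 b1 b2 b3 c1 c2 c3 : F}
    (hb12 : w1 * b2 = w2 * b1) (hb13 : w1 * b3 = w3 * b1) (hb23 : w2 * b3 = w3 * b2)
    (hc12 : w1 * c2 = w2 * c1) (hc13 : w1 * c3 = w3 * c1) (hc23 : w2 * c3 = w3 * c2)
    (hw : ¬ (w1 = 0 ∧ w2 = 0 ∧ w3 = 0)) :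
    b1 * c2 = b2 * c1 ∧ b1 * c3 = b3 * c1 ∧ b2 * c3 = b3 * c2 := by
  by_cases h1 : w1 = 0
  · by_cases h2 : w2 = 0
    · have h3 : w3 ≠ 0 := fun h => hw ⟨h1, h2, h⟩
      refine ⟨mul_left_cancel₀ h3 ?_, mul_left_cancel₀ h3 ?_, mul_left_cancel₀ h3 ?_⟩
      · linear_combination c1 * hb23 - c2 * hb13 + b3 * hc12
      · linear_combination b3 * hc13 - c3 * hb13
      · linear_combination b3 * hc23 - c3 * hb23
    · refine ⟨mul_left_cancel₀ h2 ?_, mul_left_cancel₀ h2 ?_, mul_left_cancel₀ h2 ?_⟩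
      · linear_combination b2 * hc12 - c2 * hb12
      · linear_combination -c3 * hb12 + b3 * hc12 + (b2 * c3 - b3 * c2) * h1
      · linear_combination c2 * hb23 * (-1) + b2 * hc23
  · refine ⟨mul_left_cancel₀ h1 ?_, mul_left_cancel₀ h1 ?_, mul_left_cancel₀ h1 ?_⟩
    · linear_combination b1 * hc12 - c1 * hb12
    · linear_combination b1 * hc13 - c1 * hb13
    · linear_combination c3 * hb12 - c2 * hb13 + b1 * hc23

/-- `B` and `C` are linearly independent. -/
theorem K2_ind {B C : Matrix (Fin 2) (Fin 2) (ZMod p)} (hB : B 0 0 + B 1 1 = 0)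
    (hC : C 0 0 + C 1 1 = 0) (hd : B.det = C.det) (hB0 : B.det ≠ 0) (h1 : C ≠ B) (h2 : C ≠ -B) :
    ¬ (B 0 0 * C 0 1 = B 0 1 * C 0 0 ∧ B 0 0 * C 1 0 = B 1 0 * C 0 0 ∧
      B 0 1 * C 1 0 = B 1 0 * C 0 1) := by
  rintro ⟨e1, e2, e3⟩
  rw [Matrix.det_fin_two] at hd hB0
  rw [Matrix.det_fin_two] at hd
  have hB11 : B 1 1 = -B 0 0 := by linear_combination hB
  have hC11 : C 1 1 = -C 0 0 := by linear_combination hC
  rw [hB11] at hd hB0
  rw [hC11] at hd
  -- `C = t B`
  obtain ⟨t, ht0, ht1, ht2⟩ : ∃ t : ZMod p, C 0 0 = t * B 0 0 ∧ C 0 1 = t * B 0 1 ∧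
      C 1 0 = t * B 1 0 := by
    by_cases ha : B 0 0 = 0
    · by_cases hb : B 0 1 = 0
      · exfalso
        apply hB0
        rw [ha, hb]
        ring
      · refine ⟨C 0 1 / B 0 1, ?_, ?_, ?_⟩
        · field_simp
          linear_combination -e1
        · field_simp
        · field_simp
          linear_combination e3
    · refine ⟨C 0 0 / B 0 0, ?_, ?_, ?_⟩
      · field_simp
      · field_simp
        linear_combination e1
      · field_simp
        linear_combination e2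
  have ht : (t - 1) * (t + 1) = 0 := by
    have h : (B 0 0 * -B 0 0 - B 0 1 * B 1 0) * ((t - 1) * (t + 1)) = 0 := by
      rw [ht0, ht1, ht2] at hd
      linear_combination -hd
    rcases mul_eq_zero.1 h with h | h
    · exact absurd h hB0
    · exact h
  rcases mul_eq_zero.1 ht with h | h
  · apply h1
    have : t = 1 := by linear_combination h
    ext i j
    fin_cases i <;> fin_cases j
    · show C 0 0 = B 0 0
      rw [ht0, this, one_mul]
    · show C 0 1 = B 0 1
      rw [ht1, this, one_mul]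
    · show C 1 0 = B 1 0
      rw [ht2, this, one_mul]
    · show C 1 1 = B 1 1
      rw [hC11, hB11, ht0, this, one_mul]
  · apply h2
    have : t = -1 := by linear_combination h
    ext i j
    fin_cases i <;> fin_cases j
    · show C 0 0 = -B 0 0
      rw [ht0, this]; ring
    · show C 0 1 = -B 0 1
      rw [ht1, this]; ring
    · show C 1 0 = -B 1 0
      rw [ht2, this]; ring
    · show C 1 1 = -B 1 1
      rw [hC11, hB11, ht0, this]; ring

/-- The elements with given signs. -/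
def K2_T (B C : Matrix (Fin 2) (Fin 2) (ZMod p)) (e f : ZMod p) : Set (SL2 p) :=
  {g : SL2 p | (g : Matrix (Fin 2) (Fin 2) (ZMod p)) * B =
      e • (B * (g : Matrix (Fin 2) (Fin 2) (ZMod p))) ∧
    (g : Matrix (Fin 2) (Fin 2) (ZMod p)) * C =
      f • (C * (g : Matrix (Fin 2) (Fin 2) (ZMod p)))}

/-- Two elements with the same nonzero sign differ by an element commuting with `B`. -/
theorem K2_comm {B : Matrix (Fin 2) (Fin 2) (ZMod p)} {e : ZMod p} (he : e ≠ 0) {g h : SL2 p}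
    (hg : (g : Matrix (Fin 2) (Fin 2) (ZMod p)) * B =
      e • (B * (g : Matrix (Fin 2) (Fin 2) (ZMod p))))
    (hh : (h : Matrix (Fin 2) (Fin 2) (ZMod p)) * B =
      e • (B * (h : Matrix (Fin 2) (Fin 2) (ZMod p)))) :
    ((h⁻¹ * g : SL2 p) : Matrix (Fin 2) (Fin 2) (ZMod p)) * B =
      B * ((h⁻¹ * g : SL2 p) : Matrix (Fin 2) (Fin 2) (ZMod p)) := by
  have h1 := K2_vl h
  have h2 := K2_vr h
  rw [Matrix.SpecialLinearGroup.coe_mul]
  set G : Matrix (Fin 2) (Fin 2) (ZMod p) := (g : Matrix (Fin 2) (Fin 2) (ZMod p)) with hG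
  set H : Matrix (Fin 2) (Fin 2) (ZMod p) := (h : Matrix (Fin 2) (Fin 2) (ZMod p)) with hH
  set H' : Matrix (Fin 2) (Fin 2) (ZMod p) :=
    ((h⁻¹ : SL2 p) : Matrix (Fin 2) (Fin 2) (ZMod p)) with hH'
  have h3 : B * H = e⁻¹ • (H * B) := by
    rw [hh, smul_smul, inv_mul_cancel₀ he, one_smul]
  have h4 : H' * B = e⁻¹ • (B * H') := by
    calc H' * B = H' * (B * (H * H')) := by rw [h2, mul_one]
      _ = H' * (B * H) * H' := by simp only [mul_assoc]
      _ = H' * (e⁻¹ • (H * B)) * H' := by rw [h3]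
      _ = e⁻¹ • ((H' * H) * B * H') := by
          rw [Matrix.mul_smul, Matrix.smul_mul]
          simp only [mul_assoc]
      _ = e⁻¹ • (B * H') := by rw [h1, one_mul]
  calc H' * G * B = H' * (G * B) := by rw [mul_assoc]
    _ = H' * (e • (B * G)) := by rw [hg]
    _ = e • (H' * B * G) := by rw [Matrix.mul_smul, mul_assoc]
    _ = e • ((e⁻¹ • (B * H')) * G) := by rw [h4]
    _ = B * (H' * G) := by
        rw [Matrix.smul_mul, smul_smul, mul_inv_cancel₀ he, one_smul, mul_assoc]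

/-- An element commuting with `B` and `C` is `±1`. -/
theorem K2_scalar (h20 : (2 : ZMod p) ≠ 0) {B C : Matrix (Fin 2) (Fin 2) (ZMod p)}
    (hB : B 0 0 + B 1 1 = 0) (hC : C 0 0 + C 1 1 = 0)
    (hind : ¬ (B 0 0 * C 0 1 = B 0 1 * C 0 0 ∧ B 0 0 * C 1 0 = B 1 0 * C 0 0 ∧
      B 0 1 * C 1 0 = B 1 0 * C 0 1)) {k : SL2 p}
    (h1 : (k : Matrix (Fin 2) (Fin 2) (ZMod p)) * B = B * (k : Matrix (Fin 2) (Fin 2) (ZMod p)))
    (h2 : (k : Matrix (Fin 2) (Fin 2) (ZMod p)) * C = C * (k : Matrix (Fin 2) (Fin 2) (ZMod p))) :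
    k = 1 ∨ k = -1 := by
  have hkd := k.2
  rw [Matrix.det_fin_two] at hkd
  have hB11 : B 1 1 = -B 0 0 := by linear_combination hB
  have hC11 : C 1 1 = -C 0 0 := by linear_combination hC
  have b00 := congrFun (congrFun h1 0) 0
  have b01 := congrFun (congrFun h1 0) 1
  have b10 := congrFun (congrFun h1 1) 0
  have c00 := congrFun (congrFun h2 0) 0
  have c01 := congrFun (congrFun h2 0) 1
  have c10 := congrFun (congrFun h2 1) 0
  simp only [Matrix.mul_apply, Fin.sum_univ_two] at b00 b01 b10 c00 c01 c10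
  rw [hB11] at b01 b10
  rw [hC11] at c01 c10
  have hw : (k.1 0 0 - k.1 1 1) = 0 ∧ 2 * k.1 0 1 = 0 ∧ 2 * k.1 1 0 = 0 := by
    by_contra hw
    apply hind
    refine K2_par (w1 := k.1 0 0 - k.1 1 1) (w2 := 2 * k.1 0 1) (w3 := 2 * k.1 1 0)
      ?_ ?_ ?_ ?_ ?_ ?_ hw
    · linear_combination b01
    · linear_combination -b10
    · linear_combination (2 : ZMod p) * b00
    · linear_combination c01
    · linear_combination -c10
    · linear_combination (2 : ZMod p) * c00
  obtain ⟨w1, w2, w3⟩ := hw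
  have k01 : k.1 0 1 = 0 := by
    rcases mul_eq_zero.1 w2 with h | h
    · exact absurd h h20
    · exact h
  have k10 : k.1 1 0 = 0 := by
    rcases mul_eq_zero.1 w3 with h | h
    · exact absurd h h20
    · exact h
  have k11 : k.1 1 1 = k.1 0 0 := by linear_combination -w1
  have hk : (k.1 0 0 - 1) * (k.1 0 0 + 1) = 0 := by
    rw [k11, k01, k10] at hkd
    linear_combination hkd
  rcases mul_eq_zero.1 hk with h | h
  · left
    have h00 : k.1 0 0 = 1 := by linear_combination h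
    ext i j
    fin_cases i <;> fin_cases j
    · show k.1 0 0 = _
      rw [h00]; simp
    · show k.1 0 1 = _
      rw [k01]; simp
    · show k.1 1 0 = _
      rw [k10]; simp
    · show k.1 1 1 = _
      rw [k11, h00]; simp
  · right
    have h00 : k.1 0 0 = -1 := by linear_combination h
    ext i j
    fin_cases i <;> fin_cases j
    · show k.1 0 0 = _
      rw [h00]; simp
    · show k.1 0 1 = _
      rw [k01]; simp
    · show k.1 1 0 = _
      rw [k10]; simp
    · show k.1 1 1 = _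
      rw [k11, h00]; simp

theorem K2_T_card (h20 : (2 : ZMod p) ≠ 0) {B C : Matrix (Fin 2) (Fin 2) (ZMod p)}
    (hB : B 0 0 + B 1 1 = 0) (hC : C 0 0 + C 1 1 = 0)
    (hind : ¬ (B 0 0 * C 0 1 = B 0 1 * C 0 0 ∧ B 0 0 * C 1 0 = B 1 0 * C 0 0 ∧
      B 0 1 * C 1 0 = B 1 0 * C 0 1)) {e f : ZMod p} (he : e ≠ 0) (hf : f ≠ 0) :
    (K2_T B C e f).ncard ≤ 2 := by
  rcases (K2_T B C e f).eq_empty_or_nonempty with h | ⟨h, hh⟩
  · rw [h, Set.ncard_empty]
    omega
  · have hsub : K2_T B C e f ⊆ {h, h * (-1)} := by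
      intro g hg
      have h1 := K2_comm he hg.1 hh.1
      have h2 := K2_comm hf hg.2 hh.2
      rcases K2_scalar h20 hB hC hind h1 h2 with h3 | h3
      · left
        exact (inv_mul_eq_one.1 h3).symm
      · right
        show g = h * (-1)
        rw [← h3, mul_inv_cancel_left]
    calc (K2_T B C e f).ncard ≤ ({h, h * (-1)} : Set (SL2 p)).ncard :=
          Set.ncard_le_ncard hsub (Set.toFinite _)
      _ ≤ 2 := by
          refine (Set.ncard_insert_le _ _).trans ?_
          rw [Set.ncard_singleton]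

/-- PROOF. Let `B = x₀ A x₀⁻¹`, `C = x₁ A x₁⁻¹`: trace zero, determinant `det A ≠ 0`. `(x 0)⁻¹ * x 1 ∉ K` means `C ≠ B`, `C ≠ -B`; as `det (c B) = c² det B`, `C` is not a multiple of `B`. `(x i)⁻¹ g x i ∈ K` iff `g B = ± B g` resp. `g C = ± C g`. For each of the four pairs of signs `(ε, ε')` the set of `g ∈ SL₂` with
`g B = ε B g`, `g C = ε' C g` has at most two elements: if `g, h` are in it then `k = h⁻¹ g` commutes with `B` and `C`. A matrix `k` commuting with the non-scalar matrix `B` is `k = s + t B`; it commutes with `C`, so `t = 0` or `B` commutes with `C`, and then `C = s' + t' B`, with trace zero `s' = 0` (`p` odd): excluded. So `k` is a scalar, `k = ±1`.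
So the set has at most eight elements. -/
theorem tor_stab (hp : 3 ≤ p) {A : Matrix (Fin 2) (Fin 2) (ZMod p)} (htr : A 0 0 + A 1 1 = 0)
    (hdet : A.det ≠ 0) {K : Subgroup (SL2 p)} (hK : ∀ g : SL2 p, g ∈ K ↔ PM A g)
    (x : Fin 2 → SL2 p) (hx : ∀ i j, i ≠ j → (x i)⁻¹ * x j ∉ K) :
    {g : SL2 p | ∀ i, (x i)⁻¹ * g * x i ∈ K}.ncard ≤ 8 := by
  set B : Matrix (Fin 2) (Fin 2) (ZMod p) := K2_cj A (x 0) with hB
  set C : Matrix (Fin 2) (Fin 2) (ZMod p) := K2_cj A (x 1) with hC
  have h20 : (2 : ZMod p) ≠ 0 := K2_two hp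
  have hBt : B 0 0 + B 1 1 = 0 := K2_cj_tr htr (x 0)
  have hCt : C 0 0 + C 1 1 = 0 := K2_cj_tr htr (x 1)
  have hBd : B.det = A.det := K2_cj_det A (x 0)
  have hCd : C.det = A.det := K2_cj_det A (x 1)
  have hne : ¬ PM A ((x 0)⁻¹ * x 1) := by
    intro h
    exact hx 0 1 (by decide) ((hK _).2 h)
  have hBC1 : C ≠ B := by
    intro h
    exact hne (K2_cj_pm (Or.inl h))
  have hBC2 : C ≠ -B := by
    intro h
    exact hne (K2_cj_pm (Or.inr h))
  have hind := K2_ind hBt hCt (hBd.trans hCd.symm) (by rw [hBd]; exact hdet) hBC1 hBC2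
  have hsub : {g : SL2 p | ∀ i, (x i)⁻¹ * g * x i ∈ K} ⊆
      ((K2_T B C 1 1 ∪ K2_T B C 1 (-1)) ∪ (K2_T B C (-1) 1 ∪ K2_T B C (-1) (-1))) := by
    intro g hg
    have g0 := K2_cj_mem ((hK _).1 (hg 0))
    have g1 := K2_cj_mem ((hK _).1 (hg 1))
    rw [← hB] at g0
    rw [← hC] at g1
    unfold PM at g0 g1
    rcases g0 with g0 | g0 <;> rcases g1 with g1 | g1
    · exact Or.inl (Or.inl ⟨by rw [one_smul]; exact g0, by rw [one_smul]; exact g1⟩)
    · exact Or.inl (Or.inr ⟨by rw [one_smul]; exact g0, by rw [neg_smul, one_smul]; exact g1⟩)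
    · exact Or.inr (Or.inl ⟨by rw [neg_smul, one_smul]; exact g0, by rw [one_smul]; exact g1⟩)
    · exact Or.inr (Or.inr ⟨by rw [neg_smul, one_smul]; exact g0,
        by rw [neg_smul, one_smul]; exact g1⟩)
  have hT : ∀ e f : ZMod p, e ≠ 0 → f ≠ 0 → (K2_T B C e f).ncard ≤ 2 := by
    intro e f he hf
    exact K2_T_card h20 hBt hCt hind he hf
  have h1 : (1 : ZMod p) ≠ 0 := one_ne_zero
  have h2 : (-1 : ZMod p) ≠ 0 := neg_ne_zero.2 one_ne_zero
  calc {g : SL2 p | ∀ i, (x i)⁻¹ * g * x i ∈ K}.ncard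
      ≤ ((K2_T B C 1 1 ∪ K2_T B C 1 (-1)) ∪ (K2_T B C (-1) 1 ∪ K2_T B C (-1) (-1))).ncard :=
        Set.ncard_le_ncard hsub (Set.toFinite _)
    _ ≤ (K2_T B C 1 1 ∪ K2_T B C 1 (-1)).ncard + (K2_T B C (-1) 1 ∪ K2_T B C (-1) (-1)).ncard :=
        Set.ncard_union_le _ _
    _ ≤ ((K2_T B C 1 1).ncard + (K2_T B C 1 (-1)).ncard) +
          ((K2_T B C (-1) 1).ncard + (K2_T B C (-1) (-1)).ncard) :=
        Nat.add_le_add (Set.ncard_union_le _ _) (Set.ncard_union_le _ _)
    _ ≤ (2 + 2) + (2 + 2) :=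
        Nat.add_le_add (Nat.add_le_add (hT _ _ h1 h1) (hT _ _ h1 h2))
          (Nat.add_le_add (hT _ _ h2 h1) (hT _ _ h2 h2))
    _ = 8 := by norm_num

theorem geo_tor (hp : 3 ≤ p) {A : Matrix (Fin 2) (Fin 2) (ZMod p)} (htr : A 0 0 + A 1 1 = 0)
    (hdet : A.det ≠ 0) : ∃ K : Subgroup (SL2 p), (∀ g : SL2 p, g ∈ K ↔ PM A g) ∧ Geo K 2 := by
  obtain ⟨K, hK⟩ := exists_tor A
  exact ⟨K, hK, tor_index hp htr hdet hK, tor_stab hp htr hdet hK⟩

end Pool.Agent.Lib.MP_3bb35d_al.LE
end
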