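import Pool.Agent.Lib.MP_3bb35d_al.Mg.G001

section

/-!
# Balog-Szemerédi-Gowers: definitions
-/

set_option autoImplicit false

open scoped Pointwise
open Finset

namespace Pool.Agent.Lib.MP_3bb35d_al.UE

variable {G : Type*} [Group G] [DecidableEq G]

/-- The number of representations `x = a⁻¹ b`. -/
def rl (A : Finset G) (x : G) : ℕ := #{e ∈ A ×ˢ A | e.1⁻¹ * e.2 = x}

/-- The number of representations `x = a b⁻¹`. -/
def rr (A : Finset G) (x : G) : ℕ := #{e ∈ A ×ˢ A | e.1 * e.2⁻¹ = x}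

/-- The energy: the number of quadruples `a⁻¹ b = c⁻¹ d`. -/
def en (A : Finset G) : ℕ := #{e ∈ (A ×ˢ A) ×ˢ (A ×ˢ A) | e.1.1⁻¹ * e.1.2 = e.2.1⁻¹ * e.2.2}

end Pool.Agent.Lib.MP_3bb35d_al.UE
end

section

/-!
# Representation functions and energy
-/

set_option autoImplicit false

open scoped Pointwise
open Finset

namespace Pool.Agent.Lib.MP_3bb35d_al.UE

variable {G : Type*} [Group G] [DecidableEq G]

theorem rl_le (A : Finset G) (x : G) : rl A x ≤ #A := by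
  unfold rl
  apply card_le_card_of_injOn (fun e => e.1)
  · intro e he
    simp only [coe_filter, mem_product, Set.mem_setOf_eq] at he
    exact he.1.1
  · intro e he f hf hef
    simp only [coe_filter, mem_product, Set.mem_setOf_eq] at he hf
    have hef' : e.1 = f.1 := hef
    refine Prod.ext hef' ?_
    have h1 := he.2.trans hf.2.symm
    rw [hef'] at h1
    exact mul_left_cancel h1

theorem rr_le (A : Finset G) (x : G) : rr A x ≤ #A := by
  unfold rr
  apply card_le_card_of_injOn (fun e => e.1)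
  · intro e he
    simp only [coe_filter, mem_product, Set.mem_setOf_eq] at he
    exact he.1.1
  · intro e he f hf hef
    simp only [coe_filter, mem_product, Set.mem_setOf_eq] at he hf
    have hef' : e.1 = f.1 := hef
    refine Prod.ext hef' ?_
    have h1 := he.2.trans hf.2.symm
    rw [hef'] at h1
    exact inv_injective (mul_left_cancel h1)

theorem rl_inv (A : Finset G) (x : G) : rl A x⁻¹ = rl A x := by
  unfold rl
  apply card_bij (fun e _ => (e.2, e.1))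
  · intro e he
    simp only [mem_filter, mem_product] at he ⊢
    refine ⟨⟨he.1.2, he.1.1⟩, ?_⟩
    rw [← inv_inj, ← he.2]
    group
  · rintro ⟨a, b⟩ _ ⟨c, d⟩ _ h
    simp only [Prod.mk.injEq] at h ⊢
    exact ⟨h.2, h.1⟩
  · rintro ⟨a, b⟩ he
    simp only [mem_filter, mem_product] at he
    refine ⟨(b, a), ?_, rfl⟩
    simp only [mem_filter, mem_product]
    refine ⟨⟨he.1.2, he.1.1⟩, ?_⟩
    rw [← he.2]
    group

theorem rr_inv (A : Finset G) (x : G) : rr A x⁻¹ = rr A x := by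
  unfold rr
  apply card_bij (fun e _ => (e.2, e.1))
  · intro e he
    simp only [mem_filter, mem_product] at he ⊢
    refine ⟨⟨he.1.2, he.1.1⟩, ?_⟩
    rw [← inv_inj, ← he.2]
    group
  · rintro ⟨a, b⟩ _ ⟨c, d⟩ _ h
    simp only [Prod.mk.injEq] at h ⊢
    exact ⟨h.2, h.1⟩
  · rintro ⟨a, b⟩ he
    simp only [mem_filter, mem_product] at he
    refine ⟨(b, a), ?_, rfl⟩
    simp only [mem_filter, mem_product]
    refine ⟨⟨he.1.2, he.1.1⟩, ?_⟩
    rw [← he.2]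
    group

/-- PROOF: partition of `A × A` by the value of `a⁻¹ b`. -/
theorem sum_rl (A : Finset G) : ∑ x ∈ A⁻¹ * A, rl A x = #A ^ 2 := by
  unfold rl
  rw [← card_eq_sum_card_fiberwise, card_product, sq]
  intro e he
  have he' := mem_product.1 (mem_coe.1 he)
  exact mem_coe.2 (mul_mem_mul (inv_mem_inv he'.1) he'.2)

theorem sum_rr (A : Finset G) : ∑ x ∈ A * A⁻¹, rr A x = #A ^ 2 := by
  unfold rr
  rw [← card_eq_sum_card_fiberwise, card_product, sq]
  intro e he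
  have he' := mem_product.1 (mem_coe.1 he)
  exact mem_coe.2 (mul_mem_mul he'.1 (inv_mem_inv he'.2))

theorem sum_rl_sq (A : Finset G) : ∑ x ∈ A⁻¹ * A, rl A x ^ 2 = en A := by
  unfold en
  rw [card_eq_sum_card_fiberwise (f := fun e => e.1.1⁻¹ * e.1.2) (t := A⁻¹ * A)]
  · refine sum_congr rfl fun x _ => ?_
    unfold rl
    rw [sq, ← card_product]
    congr 1
    ext ⟨⟨a, b⟩, ⟨c, d⟩⟩
    simp only [mem_product, mem_filter]
    constructor
    · rintro ⟨⟨h1, h2⟩, h3, h4⟩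
      exact ⟨⟨⟨h1, h3⟩, h2.trans h4.symm⟩, h2⟩
    · rintro ⟨⟨⟨h1, h3⟩, h4⟩, h2⟩
      exact ⟨⟨h1, h2⟩, h3, h4.symm.trans h2⟩
  · intro e he
    have he' := (mem_filter.1 (mem_coe.1 he)).1
    rw [mem_product, mem_product] at he'
    exact mem_coe.2 (mul_mem_mul (inv_mem_inv he'.1.1) he'.1.2)

/-- PROOF: `a⁻¹ b = c⁻¹ d` iff `c a⁻¹ = d b⁻¹`. -/
theorem sum_rr_sq (A : Finset G) : ∑ x ∈ A * A⁻¹, rr A x ^ 2 = en A := by
  have h1 : ∑ x ∈ A * A⁻¹, rr A x ^ 2
      = #{e ∈ (A ×ˢ A) ×ˢ (A ×ˢ A) | e.1.1 * e.1.2⁻¹ = e.2.1 * e.2.2⁻¹} := by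
    rw [card_eq_sum_card_fiberwise (f := fun e => e.1.1 * e.1.2⁻¹) (t := A * A⁻¹)]
    · refine sum_congr rfl fun x _ => ?_
      unfold rr
      rw [sq, ← card_product]
      congr 1
      ext ⟨⟨a, b⟩, ⟨c, d⟩⟩
      simp only [mem_product, mem_filter]
      constructor
      · rintro ⟨⟨h1, h2⟩, h3, h4⟩
        exact ⟨⟨⟨h1, h3⟩, h2.trans h4.symm⟩, h2⟩
      · rintro ⟨⟨⟨h1, h3⟩, h4⟩, h2⟩
        exact ⟨⟨h1, h2⟩, h3, h4.symm.trans h2⟩
    · intro e he
      have he' := (mem_filter.1 (mem_coe.1 he)).1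
      rw [mem_product, mem_product] at he'
      exact mem_coe.2 (mul_mem_mul he'.1.1 (inv_mem_inv he'.1.2))
  rw [h1]
  unfold en
  apply card_bij (fun e _ => ((e.1.2, e.2.2), (e.1.1, e.2.1)))
  · rintro ⟨⟨a, b⟩, ⟨c, d⟩⟩ he
    simp only [mem_product, mem_filter] at he ⊢
    obtain ⟨⟨⟨ha, hb⟩, hc, hd⟩, h⟩ := he
    refine ⟨⟨⟨hb, hd⟩, ha, hc⟩, ?_⟩
    have : a⁻¹ * (a * b⁻¹) * d = a⁻¹ * (c * d⁻¹) * d := by rw [h]
    simpa [mul_assoc] using this
  · rintro ⟨⟨a, b⟩, ⟨c, d⟩⟩ _ ⟨⟨a', b'⟩, ⟨c', d'⟩⟩ _ h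
    simp only [Prod.mk.injEq] at h ⊢
    tauto
  · rintro ⟨⟨a, b⟩, ⟨c, d⟩⟩ he
    refine ⟨((c, a), (d, b)), ?_, rfl⟩
    simp only [mem_product, mem_filter] at he ⊢
    obtain ⟨⟨⟨ha, hb⟩, hc, hd⟩, h⟩ := he
    refine ⟨⟨⟨hc, ha⟩, hd, hb⟩, ?_⟩
    have : c * (a⁻¹ * b) * b⁻¹ = c * (c⁻¹ * d) * b⁻¹ := by rw [h]
    simpa [mul_assoc] using this

/-- PROOF: Cauchy-Schwarz for `sum_rl`. -/
theorem en_ge (A : Finset G) : #A ^ 4 ≤ #(A⁻¹ * A) * en A := by
  rw [← sum_rl_sq, show #A ^ 4 = (#A ^ 2) ^ 2 by ring, ← sum_rl]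
  exact sq_sum_le_card_mul_sum_sq

private theorem F1b_aux {ι : Type*} [DecidableEq ι] (X : Finset ι) (r : ι → ℕ) (n e : ℕ)
    (hr : ∀ x ∈ X, r x ≤ n) (h1 : ∑ x ∈ X, r x = n ^ 2) (h2 : ∑ x ∈ X, r x ^ 2 = e)
    {K : ℝ} (hK : 1 ≤ K) (h : (n : ℝ) ^ 3 ≤ K * e) (P : ι → Prop) [DecidablePred P]
    (hP : ∀ x, P x ↔ (n : ℝ) ≤ 2 * K * r x) :
    (n : ℝ) ^ 2 ≤ 2 * K * ((∑ x ∈ X with P x, r x : ℕ) : ℝ) := by
  rcases Nat.eq_zero_or_pos n with rfl | hn
  · simp only [Nat.cast_zero, ne_eq, OfNat.ofNat_ne_zero, not_false_eq_true, zero_pow]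
    positivity
  have hn' : (0 : ℝ) < n := by exact_mod_cast hn
  have hsplit : (e : ℝ) = ∑ x ∈ X with P x, (r x : ℝ) ^ 2 + ∑ x ∈ X with ¬ P x, (r x : ℝ) ^ 2 := by
    rw [sum_filter_add_sum_filter_not, ← h2]
    push_cast
    rfl
  have hbig : ∑ x ∈ X with P x, (r x : ℝ) ^ 2 ≤ n * ∑ x ∈ X with P x, (r x : ℝ) := by
    rw [mul_sum]
    refine sum_le_sum fun x hx => ?_
    have := hr x (mem_filter.1 hx).1
    have h3 : (r x : ℝ) ≤ n := by exact_mod_cast this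
    have h4 : (0 : ℝ) ≤ r x := Nat.cast_nonneg _
    nlinarith
  have hsmall : 2 * K * ∑ x ∈ X with ¬ P x, (r x : ℝ) ^ 2 ≤ n * (n : ℝ) ^ 2 := by
    have h5 : ∑ x ∈ X with ¬ P x, (r x : ℝ) ≤ (n : ℝ) ^ 2 := by
      have : (n : ℝ) ^ 2 = ∑ x ∈ X, (r x : ℝ) := by
        rw [← Nat.cast_sum, h1]
        push_cast
        rfl
      rw [this]
      exact sum_le_sum_of_subset_of_nonneg (filter_subset _ _) fun x _ _ => Nat.cast_nonneg _
    calc 2 * K * ∑ x ∈ X with ¬ P x, (r x : ℝ) ^ 2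
        ≤ n * ∑ x ∈ X with ¬ P x, (r x : ℝ) := by
          rw [mul_sum, mul_sum]
          refine sum_le_sum fun x hx => ?_
          have h6 := (mem_filter.1 hx).2
          rw [hP, not_le] at h6
          have h4 : (0 : ℝ) ≤ r x := Nat.cast_nonneg _
          nlinarith
      _ ≤ n * (n : ℝ) ^ 2 := by gcongr
  push_cast
  have hK0 : 0 < K := by linarith
  -- 2 K e ≥ 2 n^3; so 2 K big ≥ n^3; so 2 K n sum ≥ n^3
  have h7 : (n : ℝ) ^ 3 ≤ 2 * K * (n * ∑ x ∈ X with P x, (r x : ℝ)) := by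
    have h8 : 2 * (K * e) = 2 * K * ∑ x ∈ X with P x, (r x : ℝ) ^ 2
        + 2 * K * ∑ x ∈ X with ¬ P x, (r x : ℝ) ^ 2 := by rw [hsplit]; ring
    have h9 : 2 * K * ∑ x ∈ X with P x, (r x : ℝ) ^ 2
        ≤ 2 * K * (n * ∑ x ∈ X with P x, (r x : ℝ)) := by gcongr
    nlinarith
  have h10 : (n : ℝ) * (n : ℝ) ^ 2 ≤ n * (2 * K * ∑ x ∈ X with P x, (r x : ℝ)) := by
    calc (n : ℝ) * (n : ℝ) ^ 2 = (n : ℝ) ^ 3 := by ring
      _ ≤ _ := h7
      _ = _ := by ring
  exact le_of_mul_le_mul_left h10 hn'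

/-- Popular pairs. PROOF: let `X = A⁻¹ * A`. The part of `en A = ∑ (rl A x)²` with `2 K rl A x < #A` is at most `(#A / (2 K)) * #A²`, half of the lower bound `#A³ / K` of
`en A`; so the part over the `x` with `#A ≤ 2 K rl A x` is at least `#A³ / (2 K)`, and `rl A x ≤ #A`, so `∑ (popular x), rl A x ≥ #A² / (2 K)`, and this sum is the number of the pairs. -/
theorem popular_rl (A : Finset G) {K : ℝ} (hK : 1 ≤ K) (h : (#A : ℝ) ^ 3 ≤ K * en A) :
    (#A : ℝ) ^ 2 ≤ 2 * K *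
      ({e ∈ ((A ×ˢ A : Finset (G × G)) : Set (G × G)) | (#A : ℝ) ≤ 2 * K * rl A (e.1⁻¹ * e.2)}).ncard := by
  classical
  have h1 := F1b_aux (A⁻¹ * A) (rl A) #A (en A) (fun x _ => rl_le A x) (sum_rl A) (sum_rl_sq A) hK h
    (fun x => (#A : ℝ) ≤ 2 * K * rl A x) (fun x => Iff.rfl)
  have h2 : ({e ∈ ((A ×ˢ A : Finset (G × G)) : Set (G × G)) | (#A : ℝ) ≤ 2 * K * rl A (e.1⁻¹ * e.2)}).ncard
      = ∑ x ∈ A⁻¹ * A with (#A : ℝ) ≤ 2 * K * rl A x, rl A x := by
    have h3 : ({e ∈ ((A ×ˢ A : Finset (G × G)) : Set (G × G)) | (#A : ℝ) ≤ 2 * K * rl A (e.1⁻¹ * e.2)})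
        = ((((A ×ˢ A).filter (fun e : G × G => (#A : ℝ) ≤ 2 * K * rl A (e.1⁻¹ * e.2))) : Finset (G × G)) : Set (G × G)) := by
      ext e
      simp
    rw [h3, Set.ncard_coe_finset,
      card_eq_sum_card_fiberwise (f := fun e : G × G => e.1⁻¹ * e.2)
        (t := (A⁻¹ * A).filter (fun x => (#A : ℝ) ≤ 2 * K * rl A x))]
    · refine sum_congr rfl fun x hx => ?_
      unfold rl
      congr 1
      ext e
      simp only [mem_filter, mem_product]
      have hx' := (mem_filter.1 hx).2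
      constructor
      · rintro ⟨⟨h4, h5⟩, h6⟩
        exact ⟨h4, h6⟩
      · rintro ⟨h4, h6⟩
        refine ⟨⟨h4, ?_⟩, h6⟩
        rw [h6]
        exact hx'
    · intro e he
      have he' := mem_filter.1 (mem_coe.1 he)
      have he2 := mem_product.1 he'.1
      exact mem_coe.2 (mem_filter.2 ⟨mul_mem_mul (inv_mem_inv he2.1) he2.2, he'.2⟩)
  rw [h2]
  exact h1

/-- The same for `a b⁻¹`. -/
theorem popular_rr (A : Finset G) {K : ℝ} (hK : 1 ≤ K) (h : (#A : ℝ) ^ 3 ≤ K * en A) :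
    (#A : ℝ) ^ 2 ≤ 2 * K *
      ({e ∈ ((A ×ˢ A : Finset (G × G)) : Set (G × G)) | (#A : ℝ) ≤ 2 * K * rr A (e.1 * e.2⁻¹)}).ncard := by
  classical
  have h1 := F1b_aux (A * A⁻¹) (rr A) #A (en A) (fun x _ => rr_le A x) (sum_rr A) (sum_rr_sq A) hK h
    (fun x => (#A : ℝ) ≤ 2 * K * rr A x) (fun x => Iff.rfl)
  have h2 : ({e ∈ ((A ×ˢ A : Finset (G × G)) : Set (G × G)) | (#A : ℝ) ≤ 2 * K * rr A (e.1 * e.2⁻¹)}).ncard
      = ∑ x ∈ A * A⁻¹ with (#A : ℝ) ≤ 2 * K * rr A x, rr A x := by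
    have h3 : ({e ∈ ((A ×ˢ A : Finset (G × G)) : Set (G × G)) | (#A : ℝ) ≤ 2 * K * rr A (e.1 * e.2⁻¹)})
        = ((((A ×ˢ A).filter (fun e : G × G => (#A : ℝ) ≤ 2 * K * rr A (e.1 * e.2⁻¹))) : Finset (G × G)) : Set (G × G)) := by
      ext e
      simp
    rw [h3, Set.ncard_coe_finset,
      card_eq_sum_card_fiberwise (f := fun e : G × G => e.1 * e.2⁻¹)
        (t := (A * A⁻¹).filter (fun x => (#A : ℝ) ≤ 2 * K * rr A x))]
    · refine sum_congr rfl fun x hx => ?_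
      unfold rr
      congr 1
      ext e
      simp only [mem_filter, mem_product]
      have hx' := (mem_filter.1 hx).2
      constructor
      · rintro ⟨⟨h4, h5⟩, h6⟩
        exact ⟨h4, h6⟩
      · rintro ⟨h4, h6⟩
        refine ⟨⟨h4, ?_⟩, h6⟩
        rw [h6]
        exact hx'
    · intro e he
      have he' := mem_filter.1 (mem_coe.1 he)
      have he2 := mem_product.1 he'.1
      exact mem_coe.2 (mem_filter.2 ⟨mul_mem_mul he2.1 (inv_mem_inv he2.2), he'.2⟩)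
  rw [h2]
  exact h1

end Pool.Agent.Lib.MP_3bb35d_al.UE
end

section

/-!
# Convolution on a finite group
-/

set_option autoImplicit false

open scoped Pointwise
open Finset

namespace Pool.Agent.Lib.MP_3bb35d_al.UE

variable {G : Type*} [Group G] [Fintype G]

/-- PROOF: substitution `h ↦ h' h`. -/
theorem conv_assoc (μ ν f : G → ℝ) : conv (conv μ ν) f = conv μ (conv ν f) := by
  funext g
  unfold conv
  simp only [Finset.sum_mul, Finset.mul_sum]
  rw [Finset.sum_comm]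
  refine Finset.sum_congr rfl fun k _ => ?_
  rw [← Equiv.sum_comp (Equiv.mulLeft k)]
  refine Finset.sum_congr rfl fun h _ => ?_
  simp only [Equiv.coe_mulLeft, mul_inv_rev, inv_mul_cancel_left, mul_assoc]

theorem conv_add (μ f f' : G → ℝ) : conv μ (f + f') = conv μ f + conv μ f' := by
  funext g
  simp only [conv, Pi.add_apply, mul_add, Finset.sum_add_distrib]

theorem conv_smul (μ f : G → ℝ) (c : ℝ) : conv μ (c • f) = c • conv μ f := by
  funext g
  simp only [conv, Pi.smul_apply, smul_eq_mul, Finset.mul_sum]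
  exact Finset.sum_congr rfl fun h _ => by ring

theorem add_conv (μ μ' f : G → ℝ) : conv (μ + μ') f = conv μ f + conv μ' f := by
  funext g
  simp only [conv, Pi.add_apply, add_mul, Finset.sum_add_distrib]

/-- PROOF: substitution. -/
theorem ip_conv (μ f f' : G → ℝ) (hμ : ∀ g, μ g⁻¹ = μ g) :
    ip (conv μ f) f' = ip f (conv μ f') := by
  unfold ip conv
  simp only [Finset.sum_mul, Finset.mul_sum]
  rw [Finset.sum_comm]
  rw [Finset.sum_comm (f := fun g h => f g * (μ h * f' (h⁻¹ * g)))]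
  rw [← Equiv.sum_comp (Equiv.inv G)]
  refine Finset.sum_congr rfl fun h _ => ?_
  rw [← Equiv.sum_comp (Equiv.mulLeft h⁻¹)]
  refine Finset.sum_congr rfl fun g _ => ?_
  simp only [Equiv.inv_apply, Equiv.coe_mulLeft, inv_inv, hμ, mul_inv_cancel_left]
  ring

/-- The sum of a convolution is the product of the sums. -/
theorem sum_conv (μ f : G → ℝ) : ∑ g, conv μ f g = (∑ g, μ g) * ∑ g, f g := by
  unfold conv
  rw [Finset.sum_comm, Finset.sum_mul]
  refine Finset.sum_congr rfl fun h _ => ?_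
  rw [← Finset.mul_sum]
  congr 1
  exact Equiv.sum_comp (Equiv.mulLeft h⁻¹) f

end Pool.Agent.Lib.MP_3bb35d_al.UE
end

section

/-!
# Convolution on a finite group
-/

set_option autoImplicit false

open scoped Pointwise
open Finset

namespace Pool.Agent.Lib.MP_3bb35d_al.UE

variable {G : Type*} [Group G] [Fintype G]

/-- Young: PROOF: `conv μ f = ∑ h, μ h • (translate of f)` and the triangle inequality of the `ℓ²`-norm (or Cauchy-Schwarz:
`(conv |μ| f g)² ≤ (∑ |μ|) (∑ h, |μ h| f (h⁻¹ g)²)`). -/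
theorem nsq_conv_le (μ f : G → ℝ) (hμ : ∀ g, 0 ≤ μ g) :
    nsq (conv μ f) ≤ (∑ g, μ g) ^ 2 * nsq f := by
  unfold nsq conv
  have h1 : ∀ g : G, (∑ h, μ h * f (h⁻¹ * g)) ^ 2 ≤ (∑ h, μ h) * ∑ h, μ h * f (h⁻¹ * g) ^ 2 := by
    intro g
    apply Finset.sum_sq_le_sum_mul_sum_of_sq_le_mul
    · intro h _
      exact hμ h
    · intro h _
      exact mul_nonneg (hμ h) (sq_nonneg _)
    · intro h _
      exact le_of_eq (by ring)
  calc ∑ g, (∑ h, μ h * f (h⁻¹ * g)) ^ 2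
      ≤ ∑ g, (∑ h, μ h) * ∑ h, μ h * f (h⁻¹ * g) ^ 2 := Finset.sum_le_sum fun g _ => h1 g
    _ = (∑ h, μ h) * ∑ h, ∑ g, μ h * f (h⁻¹ * g) ^ 2 := by
        rw [← Finset.mul_sum, Finset.sum_comm]
    _ = (∑ h, μ h) * ∑ h, μ h * ∑ g, f g ^ 2 := by
        congr 1
        apply Finset.sum_congr rfl
        intro h _
        rw [← Finset.mul_sum]
        congr 1
        exact Equiv.sum_comp (Equiv.mulLeft h⁻¹) (fun g => f g ^ 2)
    _ = (∑ h, μ h) ^ 2 * ∑ g, f g ^ 2 := by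
        rw [← Finset.sum_mul]
        ring

/-- Young on the other side. PROOF: `conv f μ g = ∑ k, f (g k⁻¹) μ k` (substitution `h = g k⁻¹`), then as before. -/
theorem nsq_conv_le' (f μ : G → ℝ) (hμ : ∀ g, 0 ≤ μ g) :
    nsq (conv f μ) ≤ (∑ g, μ g) ^ 2 * nsq f := by
  unfold nsq conv
  have h0 : ∀ g : G, ∑ h, μ (h⁻¹ * g) = ∑ h, μ h := by
    intro g
    exact Equiv.sum_comp ((Equiv.inv G).trans (Equiv.mulRight g)) μ
  have h1 : ∀ g : G, (∑ h, f h * μ (h⁻¹ * g)) ^ 2 ≤ (∑ h, μ h) * ∑ h, f h ^ 2 * μ (h⁻¹ * g) := by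
    intro g
    rw [← h0 g]
    apply Finset.sum_sq_le_sum_mul_sum_of_sq_le_mul
    · intro h _
      exact hμ _
    · intro h _
      exact mul_nonneg (sq_nonneg _) (hμ _)
    · intro h _
      exact le_of_eq (by ring)
  calc ∑ g, (∑ h, f h * μ (h⁻¹ * g)) ^ 2
      ≤ ∑ g, (∑ h, μ h) * ∑ h, f h ^ 2 * μ (h⁻¹ * g) := Finset.sum_le_sum fun g _ => h1 g
    _ = (∑ h, μ h) * ∑ h, ∑ g, f h ^ 2 * μ (h⁻¹ * g) := by
        rw [← Finset.mul_sum, Finset.sum_comm]
    _ = (∑ h, μ h) * ∑ h, f h ^ 2 * ∑ g, μ g := by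
        congr 1
        apply Finset.sum_congr rfl
        intro h _
        rw [← Finset.mul_sum]
        congr 1
        exact Equiv.sum_comp (Equiv.mulLeft h⁻¹) μ
    _ = (∑ h, μ h) ^ 2 * ∑ g, f g ^ 2 := by
        rw [← Finset.sum_mul]
        ring

theorem SP.conv {μ : G → ℝ} (h : SP μ) : SP (conv μ μ) := by
  refine ⟨fun g => ?_, ?_, fun g => ?_⟩
  · exact Finset.sum_nonneg fun x _ => mul_nonneg (h.nonneg _) (h.nonneg _)
  · rw [sum_conv, h.sum, one_mul]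
  · unfold UE.conv
    calc ∑ x, μ x * μ (x⁻¹ * g⁻¹) = ∑ x, μ x * μ (g * x) := by
          apply Finset.sum_congr rfl
          intro x _
          rw [← h.symm (g * x), mul_inv_rev]
      _ = ∑ x, μ (g⁻¹ * x) * μ (g * (g⁻¹ * x)) :=
          (Equiv.sum_comp (Equiv.mulLeft g⁻¹) (fun x => μ x * μ (g * x))).symm
      _ = ∑ x, μ x * μ (x⁻¹ * g) := by
          apply Finset.sum_congr rfl
          intro x _
          rw [mul_inv_cancel_left, mul_comm, ← h.symm (x⁻¹ * g), mul_inv_rev, inv_inv]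

theorem SP.cpow {μ : G → ℝ} (h : SP μ) (r : ℕ) : SP (cpow μ r) := by
  induction r with
  | zero => exact h
  | succ r ih => exact ih.conv

/-- PROOF: `conv μ f g = ∑ h, μ h f (h⁻¹ g) ≤ ‖μ‖_∞`-type bound: `conv μ ν (k) ` summed over a left coset `g H`: `mass (conv μ ν) (g H) = ∑ h, μ h * mass ν (h⁻¹ g H) ≤ sup`. -/
theorem mass_conv_le {μ ν : G → ℝ} (hμ : SP μ) {c : ℝ} (H : Subgroup G)
    (h : ∀ g, mass ν {x | g * x ∈ H} ≤ c) (g : G) : mass (conv μ ν) {x | g * x ∈ H} ≤ c := by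
  classical
  have key : mass (UE.conv μ ν) {x | g * x ∈ H} = ∑ k, μ k * mass ν {x | g * k * x ∈ H} := by
    unfold mass UE.conv
    calc ∑ x, Set.indicator {x | g * x ∈ H} (fun x => ∑ k, μ k * ν (k⁻¹ * x)) x
        = ∑ x, ∑ k, μ k * (if g * x ∈ H then ν (k⁻¹ * x) else 0) := by
          apply Finset.sum_congr rfl
          intro x _
          rw [Set.indicator_apply]
          by_cases hx : g * x ∈ H
          · rw [if_pos (by exact hx)]
            apply Finset.sum_congr rfl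
            intro k _
            rw [if_pos hx]
          · rw [if_neg (by exact hx)]
            symm
            apply Finset.sum_eq_zero
            intro k _
            rw [if_neg hx, mul_zero]
      _ = ∑ k, ∑ x, μ k * (if g * x ∈ H then ν (k⁻¹ * x) else 0) := Finset.sum_comm
      _ = ∑ k, μ k * ∑ x, Set.indicator {x | g * k * x ∈ H} ν x := by
          apply Finset.sum_congr rfl
          intro k _
          rw [← Finset.mul_sum]
          congr 1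
          rw [← Equiv.sum_comp (Equiv.mulLeft k) (fun x => if g * x ∈ H then ν (k⁻¹ * x) else 0)]
          apply Finset.sum_congr rfl
          intro x _
          rw [Set.indicator_apply, Equiv.coe_mulLeft, ← mul_assoc g k x, inv_mul_cancel_left]
          rfl
  rw [key]
  calc ∑ k, μ k * mass ν {x | g * k * x ∈ H} ≤ ∑ k, μ k * c :=
        Finset.sum_le_sum fun k _ => mul_le_mul_of_nonneg_left (h (g * k)) (hμ.nonneg k)
    _ = c := by rw [← Finset.sum_mul, hμ.sum, one_mul]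

/-- Monotonicity in the power. PROOF: `nsq_conv_le` with total mass one. -/
theorem nsq_cpow_succ_le {μ : G → ℝ} (h : SP μ) (r : ℕ) :
    nsq (cpow μ (r + 1)) ≤ nsq (cpow μ r) := by
  have h1 := (h.cpow r)
  have h2 := nsq_conv_le (cpow μ r) (cpow μ r) h1.nonneg
  rw [h1.sum, one_pow, one_mul] at h2
  exact h2

end Pool.Agent.Lib.MP_3bb35d_al.UE
end

section

/-!
# Convolution on a finite group
-/

set_option autoImplicit false

open scoped Pointwise
open Finset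

namespace Pool.Agent.Lib.MP_3bb35d_al.UE

variable {G : Type*} [Group G] [Fintype G]

private theorem E0c_nsq_eq_ip (f : G → ℝ) : nsq f = ip f f := by
  unfold nsq ip
  exact Finset.sum_congr rfl fun g _ => by ring

private theorem E0c_nsq_nonneg (f : G → ℝ) : 0 ≤ nsq f := by
  unfold nsq
  exact Finset.sum_nonneg fun g _ => sq_nonneg _

private theorem E0c_ip_le (f f' : G → ℝ) : ip f f' ≤ √(nsq f) * √(nsq f') := by
  unfold ip nsq
  exact Real.sum_mul_le_sqrt_mul_sqrt _ _ _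

/-- PROOF: induction on `r`, `conv_assoc`: `conv (cpow μ (r+1)) f = conv (cpow μ r) (conv (cpow μ r) f)`. If `nsq (conv (cpow μ (r+1)) f) ≤ ρ nsq f` for all `f` of mean zero then for such `f`, with `ν = cpow μ r`:
`nsq (conv ν f) = ip (conv ν f) (conv ν f) = ip (conv (conv ν ν) f) f ≤ √(nsq (conv (conv ν ν) f)) √(nsq f) ≤ √ρ nsq f` (`ip_conv`, Cauchy-Schwarz).
So the constant for `cpow μ 0 = μ` is `ρ ^ (1 / 2 ^ r)`. -/
theorem nsq_conv_root {μ : G → ℝ} (h : SP μ) (r : ℕ) {ρ : ℝ} (hρ : 0 ≤ ρ)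
    (hc : ∀ f : G → ℝ, ∑ g, f g = 0 → nsq (conv (cpow μ r) f) ≤ ρ * nsq f)
    (f : G → ℝ) (hf : ∑ g, f g = 0) : nsq (conv μ f) ≤ ρ ^ ((1 : ℝ) / 2 ^ r) * nsq f := by
  induction r generalizing ρ with
  | zero =>
    have h1 := hc f hf
    have h2 : cpow μ 0 = μ := rfl
    rw [h2] at h1
    simpa using h1
  | succ r ih =>
    have hν : SP (cpow μ r) := h.cpow r
    have key : ∀ f : G → ℝ, ∑ g, f g = 0 → nsq (conv (cpow μ r) f) ≤ √ρ * nsq f := by
      intro f hf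
      have h1 : nsq (conv (cpow μ (r + 1)) f) ≤ ρ * nsq f := hc f hf
      have h2 : cpow μ (r + 1) = conv (cpow μ r) (cpow μ r) := rfl
      rw [h2, conv_assoc] at h1
      have h3 : nsq (conv (cpow μ r) f) = ip f (conv (cpow μ r) (conv (cpow μ r) f)) := by
        rw [E0c_nsq_eq_ip, ip_conv _ _ _ hν.symm]
      have h4 := E0c_ip_le f (conv (cpow μ r) (conv (cpow μ r) f))
      have h5 : √(nsq (conv (cpow μ r) (conv (cpow μ r) f))) ≤ √ρ * √(nsq f) := by
        rw [← Real.sqrt_mul hρ]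
        exact Real.sqrt_le_sqrt h1
      have h6 : √(nsq f) * √(nsq f) = nsq f := Real.mul_self_sqrt (E0c_nsq_nonneg f)
      have h7 : 0 ≤ √(nsq f) := Real.sqrt_nonneg _
      calc nsq (conv (cpow μ r) f) = ip f (conv (cpow μ r) (conv (cpow μ r) f)) := h3
        _ ≤ √(nsq f) * √(nsq (conv (cpow μ r) (conv (cpow μ r) f))) := h4
        _ ≤ √(nsq f) * (√ρ * √(nsq f)) := mul_le_mul_of_nonneg_left h5 h7
        _ = √ρ * (√(nsq f) * √(nsq f)) := by ring
        _ = √ρ * nsq f := by rw [h6]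
    have h8 := ih (Real.sqrt_nonneg ρ) key
    have h9 : (√ρ) ^ ((1 : ℝ) / 2 ^ r) = ρ ^ ((1 : ℝ) / 2 ^ (r + 1)) := by
      rw [Real.sqrt_eq_rpow, ← Real.rpow_mul hρ]
      congr 1
      rw [pow_succ]
      field_simp
    rw [h9] at h8
    exact h8

end Pool.Agent.Lib.MP_3bb35d_al.UE
end
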