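import Pool.Agent.Lib.MP_3bb35d_al.Mg.G030
import Pool.Agent.Lib.MP_3bb35d_al.Mg.G002

section

/-!
# Basic properties of `act`
-/

set_option autoImplicit false

open Finset

namespace Pool.Agent.Lib.MP_3bb35d_al.LE

open Pool.Agent.Lib.MP_3bb35d_al.UE

variable {G X : Type*} [Group G] [Fintype G] [MulAction G X]

/-- PROOF: as `UE.conv_assoc` (file UE/E0a), substitution `g = h k`. -/
theorem act_conv (μ ν : G → ℝ) (u : X → ℝ) : act (conv μ ν) u = act μ (act ν u) := by
  funext x
  unfold act conv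
  simp only [Finset.sum_mul, Finset.mul_sum]
  rw [Finset.sum_comm]
  refine Finset.sum_congr rfl fun h _ => ?_
  rw [← Equiv.sum_comp (Equiv.mulLeft h)]
  refine Finset.sum_congr rfl fun k _ => ?_
  simp only [Equiv.coe_mulLeft, inv_mul_cancel_left, mul_inv_rev, mul_smul]
  ring

/-- PROOF: `cpow μ (r + 1) = conv (cpow μ r) (cpow μ r)` by definition, `act_conv`. -/
theorem act_cpow_succ (μ : G → ℝ) (r : ℕ) (u : X → ℝ) :
    act (cpow μ (r + 1)) u = act (cpow μ r) (act (cpow μ r) u) := by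
  rw [← act_conv]
  rfl

theorem act_nonneg {μ : G → ℝ} {u : X → ℝ} (hμ : ∀ g, 0 ≤ μ g) (hu : ∀ x, 0 ≤ u x) (x : X) :
    0 ≤ act μ u x := by
  exact Finset.sum_nonneg fun g _ => mul_nonneg (hμ g) (hu _)

variable [Fintype X]

theorem sum_act (μ : G → ℝ) (u : X → ℝ) : ∑ x, act μ u x = (∑ g, μ g) * ∑ x, u x := by
  unfold act
  rw [Finset.sum_comm, Finset.sum_mul]
  refine Finset.sum_congr rfl fun h _ => ?_
  rw [← Finset.mul_sum]
  congr 1
  exact Equiv.sum_comp (MulAction.toPerm (h⁻¹ : G)) u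

theorem nx_nonneg (u : X → ℝ) : 0 ≤ nx u := by
  exact Finset.sum_nonneg fun x _ => sq_nonneg _

/-- Cauchy-Schwarz (`Real.sum_mul_le_sqrt_mul_sqrt`). -/
theorem ix_le (u v : X → ℝ) : ix u v ≤ √(nx u) * √(nx v) := by
  unfold ix nx
  exact Real.sum_mul_le_sqrt_mul_sqrt _ _ _

theorem nx_trl (g : G) (u : X → ℝ) : nx (trl g u) = nx u := by
  unfold nx trl
  exact Equiv.sum_comp (MulAction.toPerm (g⁻¹ : G)) fun x => u x ^ 2

/-- PROOF: `ix (trl g u) v = ∑ x, u (g⁻¹ x) v x = ∑ x, u x v (g x)`, so the adjoint of `act μ` is `act` of `g ↦ μ g⁻¹`. -/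
theorem ix_act {μ : G → ℝ} (hμ : ∀ g, μ g⁻¹ = μ g) (u v : X → ℝ) :
    ix (act μ u) v = ix u (act μ v) := by
  unfold ix act
  simp only [Finset.sum_mul, Finset.mul_sum]
  rw [Finset.sum_comm]
  rw [Finset.sum_comm (f := fun x g => u x * (μ g * v (g⁻¹ • x)))]
  rw [← Equiv.sum_comp (Equiv.inv G)]
  refine Finset.sum_congr rfl fun g _ => ?_
  rw [← Equiv.sum_comp (MulAction.toPerm (g⁻¹ : G))]
  refine Finset.sum_congr rfl fun x _ => ?_
  simp only [MulAction.toPerm_apply, Equiv.inv_apply, smul_inv_smul, inv_inv, hμ]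
  ring

theorem ix_act_eq_sum (μ : G → ℝ) (u v : X → ℝ) : ix (act μ u) v = ∑ g, μ g * ix (trl g u) v := by
  unfold ix act trl
  simp only [Finset.sum_mul, Finset.mul_sum]
  rw [Finset.sum_comm]
  exact Finset.sum_congr rfl fun g _ => Finset.sum_congr rfl fun x _ => by ring

/-- PROOF: `nx (act μ u) = ix (act μ u) (act μ u) = ix (act μ (act μ u)) u`. -/
theorem nx_act {μ : G → ℝ} (h : SP μ) (u : X → ℝ) : nx (act μ u) = ix (act (conv μ μ) u) u := by
  rw [act_conv, ix_act h.symm]
  unfold nx ix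
  exact Finset.sum_congr rfl fun x _ => by ring

/-- PROOF: `nx (trl g u - u) = 2 nx u - 2 ix (trl g u) u`, `∑ g, conv μ μ g = 1` (`SP.conv`), `nx_act`, `ix_act_eq_sum`. -/
theorem defect {μ : G → ℝ} (h : SP μ) (u : X → ℝ) :
    nx u - nx (act μ u) = 1 / 2 * ∑ g, conv μ μ g * nx (fun x => trl g u x - u x) := by
  have h1 : ∀ g : G, nx (fun x => trl g u x - u x) = 2 * nx u - 2 * ix (trl g u) u := by
    intro g
    have h2 := nx_trl g u
    have h3 : nx (fun x => trl g u x - u x) = nx (trl g u) - 2 * ix (trl g u) u + nx u := by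
      unfold nx ix
      rw [Finset.mul_sum, ← Finset.sum_sub_distrib, ← Finset.sum_add_distrib]
      exact Finset.sum_congr rfl fun x _ => by ring
    rw [h3, h2]
    ring
  have h4 : ∑ g, conv μ μ g * nx (fun x => trl g u x - u x) =
      2 * nx u * ∑ g, conv μ μ g - 2 * ix (act (conv μ μ) u) u := by
    rw [ix_act_eq_sum, Finset.mul_sum, Finset.mul_sum, ← Finset.sum_sub_distrib]
    refine Finset.sum_congr rfl fun g _ => ?_
    rw [h1]
    ring
  rw [h4, h.conv.sum, nx_act h]
  ring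

theorem nx_act_le {μ : G → ℝ} (h : SP μ) (u : X → ℝ) : nx (act μ u) ≤ nx u := by
  have h1 := defect h u
  have h2 : 0 ≤ ∑ g, conv μ μ g * nx (fun x => trl g u x - u x) :=
    Finset.sum_nonneg fun g _ => mul_nonneg (h.conv.nonneg g) (nx_nonneg _)
  linarith

end Pool.Agent.Lib.MP_3bb35d_al.LE
end

section

/-!
# The values of convolution powers at the identity
-/

set_option autoImplicit false

open Finset

namespace Pool.Agent.Lib.MP_3bb35d_al.LE

open Pool.Agent.Lib.MP_3bb35d_al.UE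

variable {G : Type*} [Group G] [Fintype G]

/-- PROOF: `conv ν ν 1 = ∑ h, ν h * ν h⁻¹ = nsq ν` for `ν = cpow μ r`, which is SP (`SP.cpow`). -/
theorem nsq_cpow {μ : G → ℝ} (h : SP μ) (r : ℕ) : nsq (cpow μ r) = cpow μ (r + 1) 1 := by
  change ∑ g, cpow μ r g ^ 2 = ∑ g, cpow μ r g * cpow μ r (g⁻¹ * 1)
  refine Finset.sum_congr rfl fun g _ => ?_
  rw [mul_one, (h.cpow r).symm, sq]

/-- PROOF: `r = r₀ + 1`, `ν = cpow μ r₀`: `conv ν ν g = ∑ h, ν h * ν (h⁻¹ g) ≤ nsq ν` by Cauchy-Schwarz (or `a b ≤ (a² + b²)/2`), `nsq_cpow`. -/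
theorem cpow_le_one {μ : G → ℝ} (h : SP μ) {r : ℕ} (hr : 1 ≤ r) (g : G) :
    cpow μ r g ≤ cpow μ r 1 := by
  obtain ⟨s, rfl⟩ : ∃ s, r = s + 1 := ⟨r - 1, by omega⟩
  rw [← nsq_cpow h s]
  change ∑ x, cpow μ s x * cpow μ s (x⁻¹ * g) ≤ ∑ x, cpow μ s x ^ 2
  have h1 : ∑ x, cpow μ s (x⁻¹ * g) ^ 2 = ∑ x, cpow μ s x ^ 2 :=
    Fintype.sum_equiv ((Equiv.inv G).trans (Equiv.mulRight g)) _ _ (fun x => rfl)
  have h2 : ∑ x, cpow μ s x * cpow μ s (x⁻¹ * g) ≤ ∑ x, (cpow μ s x ^ 2 + cpow μ s (x⁻¹ * g) ^ 2) / 2 := by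
    refine Finset.sum_le_sum fun x _ => ?_
    nlinarith [sq_nonneg (cpow μ s x - cpow μ s (x⁻¹ * g))]
  rw [← Finset.sum_div, Finset.sum_add_distrib, h1] at h2
  linarith

/-- PROOF: it is enough to do `r' = r + 1`: `cpow μ (r + 1) 1 = nsq (cpow μ r) = ∑ h, (cpow μ r h) ^ 2 ≤ cpow μ r 1 * ∑ h, cpow μ r h`. -/
theorem cpow_one_anti {μ : G → ℝ} (h : SP μ) {r r' : ℕ} (hr : 1 ≤ r) (hr' : r ≤ r') :
    cpow μ r' 1 ≤ cpow μ r 1 := by
  induction r', hr' using Nat.le_induction with
  | base => exact le_rfl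
  | succ k hk ih =>
    refine le_trans ?_ ih
    rw [← nsq_cpow h k]
    have hS := h.cpow k
    have hk1 : 1 ≤ k := hr.trans hk
    calc ∑ x, cpow μ k x ^ 2 ≤ ∑ x, cpow μ k 1 * cpow μ k x := by
          refine Finset.sum_le_sum fun x _ => ?_
          rw [sq]
          exact mul_le_mul_of_nonneg_right (cpow_le_one h hk1 x) (hS.nonneg x)
      _ = cpow μ k 1 := by rw [← Finset.mul_sum, hS.sum, mul_one]

/-- PROOF: a set of at most `n` elements has mass at most `n * max`, `cpow_le_one`. -/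
theorem mass_cpow_le {μ : G → ℝ} (h : SP μ) {r : ℕ} (hr : 1 ≤ r) (H : Subgroup G) (g : G) :
    mass (cpow μ r) {x | g * x ∈ H} ≤ Nat.card H * cpow μ r 1 := by
  classical
  unfold mass
  have h1 : ∑ x, ({x | g * x ∈ H} : Set G).indicator (cpow μ r) x ≤
      ∑ x, ({x | g * x ∈ H} : Set G).indicator (fun _ => cpow μ r 1) x := by
    refine Finset.sum_le_sum fun x _ => ?_
    exact Set.indicator_le_indicator (cpow_le_one h hr x)
  have h2 : ∑ x, ({x | g * x ∈ H} : Set G).indicator (fun _ => cpow μ r 1) x =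
      ∑ x, (H : Set G).indicator (fun _ => cpow μ r 1) x := by
    refine Fintype.sum_equiv (Equiv.mulLeft g) _ _ (fun x => ?_)
    simp only [Set.indicator_apply, Set.mem_setOf_eq, Equiv.coe_mulLeft, SetLike.mem_coe]
  refine h1.trans (le_of_eq (h2.trans ?_))
  simp only [Set.indicator_apply]
  rw [← Finset.sum_filter, Finset.sum_const, nsmul_eq_mul]
  congr 2
  rw [Nat.card_eq_fintype_card, ← Fintype.card_subtype]
  rfl

/-- PROOF: monotonicity of sums of nonnegative terms. -/
theorem mass_mono {μ : G → ℝ} (h : ∀ g, 0 ≤ μ g) {A B : Set G} (hAB : A ⊆ B) :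
    mass μ A ≤ mass μ B := by
  unfold mass
  exact Finset.sum_le_sum fun x _ => Set.indicator_le_indicator_of_subset hAB h x

/-- PROOF: induction on `s`. -/
theorem cpow_cpow (μ : G → ℝ) (r s : ℕ) : cpow (cpow μ r) s = cpow μ (r + s) := by
  induction s with
  | zero => rfl
  | succ s ih =>
    change conv (cpow (cpow μ r) s) (cpow (cpow μ r) s) = conv (cpow μ (r + s)) (cpow μ (r + s))
    rw [ih]

/-- Upper bound. PROOF. With `ρ = conv ν ν`, `ν = cpow μ r`, `ρ = cpow μ (r + 1)`: `nx (act ν v) = ix (act ρ v) v = ∑ g, ρ g * ix (trl g v) v ≤ ρ 1 * ∑ g, ix (trl g v) v` (`nx_act`, `ix_act_eq_sum`, `cpow_le_one`; `ix (trl g v) v ≥ 0`). And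
`∑ g, ix (trl g v) v = ∑ y, v y * ∑ g, v (g⁻¹ • y) = ∑ y, ∑ z, v y * v z * #{g | g⁻¹ • y = z}`; for `v z ≠ 0` the set `{g | g • z = y}` is empty or a left coset of the stabiliser of `z`, so it has at most `c` elements. -/
theorem upper {Y : Type*} [Fintype Y] [MulAction G Y] {μ : G → ℝ} (h : SP μ) {v : Y → ℝ}
    (hv : ∀ y, 0 ≤ v y) {c : ℝ} (hc : ∀ y, v y ≠ 0 → ({g : G | g • y = y}.ncard : ℝ) ≤ c) (r : ℕ) :
    nx (act (cpow μ r) v) ≤ c * cpow μ (r + 1) 1 * (∑ y, v y) ^ 2 := by
  classical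
  have hS := h.cpow (r + 1)
  have h1 : nx (act (cpow μ r) v) = ∑ g, cpow μ (r + 1) g * ix (trl g v) v := by
    rw [nx_act (h.cpow r) v, ix_act_eq_sum]
    rfl
  have h2 : ∀ g : G, 0 ≤ ix (trl g v) v := fun g =>
    Finset.sum_nonneg fun x _ => mul_nonneg (hv _) (hv _)
  have h3 : nx (act (cpow μ r) v) ≤ cpow μ (r + 1) 1 * ∑ g : G, ix (trl g v) v := by
    rw [h1, Finset.mul_sum]
    exact Finset.sum_le_sum fun g _ => mul_le_mul_of_nonneg_right (cpow_le_one h (by omega) g) (h2 g)
  -- orbits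
  have h4 : ∀ y : Y, ∑ g : G, v (g⁻¹ • y) ≤ c * ∑ z, v z := by
    intro y
    have e1 : ∀ g : G, v (g⁻¹ • y) = ∑ z, if g⁻¹ • y = z then v z else 0 := by
      intro g
      rw [Finset.sum_ite_eq]
      simp
    rw [Finset.sum_congr rfl fun g _ => e1 g, Finset.sum_comm, Finset.mul_sum]
    refine Finset.sum_le_sum fun z _ => ?_
    rw [← Finset.sum_filter, Finset.sum_const, nsmul_eq_mul]
    by_cases hz : v z = 0
    · rw [hz, mul_zero, mul_zero]
    · refine mul_le_mul_of_nonneg_right ?_ (hv z)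
      refine le_trans ?_ (hc z hz)
      have hcard : (Finset.univ.filter fun g : G => g⁻¹ • y = z).card ≤ {g : G | g • z = z}.ncard := by
        rcases Finset.eq_empty_or_nonempty (Finset.univ.filter fun g : G => g⁻¹ • y = z) with h0 | ⟨g₀, hg₀⟩
        · rw [h0]
          exact Nat.zero_le _
        · have hg₀' : g₀⁻¹ • y = z := (Finset.mem_filter.mp hg₀).2
          rw [← Set.ncard_coe_finset]
          refine Set.ncard_le_ncard_of_injOn (fun g : G => g⁻¹ * g₀) ?_ ?_ (Set.toFinite _)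
          · intro g hg
            have hg' : g⁻¹ • y = z := by
              rw [Finset.mem_coe, Finset.mem_filter] at hg
              exact hg.2
            change (g⁻¹ * g₀) • z = z
            have e2 : g₀ • z = y := by rw [← hg₀', smul_inv_smul]
            rw [mul_smul, e2, hg']
          · intro g _ g' _ hgg
            have e3 : g⁻¹ * g₀ = g'⁻¹ * g₀ := hgg
            exact inv_injective (mul_right_cancel e3)
      exact_mod_cast hcard
  have h5 : ∑ g : G, ix (trl g v) v ≤ c * (∑ y, v y) ^ 2 := by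
    calc ∑ g : G, ix (trl g v) v = ∑ y, v y * ∑ g : G, v (g⁻¹ • y) := by
          unfold ix trl
          rw [Finset.sum_comm]
          refine Finset.sum_congr rfl fun y _ => ?_
          rw [Finset.mul_sum]
          refine Finset.sum_congr rfl fun g _ => ?_
          ring
      _ ≤ ∑ y, v y * (c * ∑ z, v z) :=
          Finset.sum_le_sum fun y _ => mul_le_mul_of_nonneg_left (h4 y) (hv y)
      _ = c * (∑ y, v y) ^ 2 := by
          rw [← Finset.sum_mul]
          ring
  calc nx (act (cpow μ r) v) ≤ cpow μ (r + 1) 1 * ∑ g : G, ix (trl g v) v := h3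
    _ ≤ cpow μ (r + 1) 1 * (c * (∑ y, v y) ^ 2) := mul_le_mul_of_nonneg_left h5 (hS.nonneg 1)
    _ = c * cpow μ (r + 1) 1 * (∑ y, v y) ^ 2 := by ring

end Pool.Agent.Lib.MP_3bb35d_al.LE
end

section

/-!
# Counting words
-/

set_option autoImplicit false

open Finset

namespace Pool.Agent.Lib.MP_3bb35d_al.LE

open Pool.Agent.Lib.MP_3bb35d_al.UE

variable {G : Type*} [Group G] [Fintype G]

private theorem E2_dl_conv (f : G → ℝ) : conv (dl (1 : G)) f = f := by
  classical
  funext g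
  unfold conv dl
  rw [Finset.sum_eq_single (1 : G)]
  · rw [Set.indicator_of_mem (Set.mem_singleton _), one_mul, inv_one, one_mul]
  · intro b _ hb
    rw [Set.indicator_of_notMem (by rwa [Set.mem_singleton_iff]), zero_mul]
  · intro h
    exact absurd (Finset.mem_univ _) h

private theorem E2_conv_dl (f : G → ℝ) : conv f (dl (1 : G)) = f := by
  classical
  funext g
  unfold conv dl
  rw [Finset.sum_eq_single g]
  · rw [inv_mul_cancel, Set.indicator_of_mem (Set.mem_singleton _), mul_one]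
  · intro b _ hb
    rw [Set.indicator_of_notMem, mul_zero]
    rw [Set.mem_singleton_iff, inv_mul_eq_one]
    exact hb
  · intro h
    exact absurd (Finset.mem_univ _) h

private theorem E2_wpow_one (μ : G → ℝ) : wpow μ 1 = μ := by
  show conv μ (dl 1) = μ
  exact E2_conv_dl μ

/-- PROOF: induction on `m`, `conv_assoc`, `conv (dl 1) f = f`. -/
theorem wpow_add (μ : G → ℝ) (m n : ℕ) : wpow μ (m + n) = conv (wpow μ m) (wpow μ n) := by
  induction m with
  | zero =>
    rw [Nat.zero_add]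
    show wpow μ n = conv (dl 1) (wpow μ n)
    rw [E2_dl_conv]
  | succ m ih =>
    have e : m + 1 + n = (m + n) + 1 := by ring
    rw [e]
    show conv μ (wpow μ (m + n)) = conv (conv μ (wpow μ m)) (wpow μ n)
    rw [ih, conv_assoc]

/-- PROOF: induction on `r`, `wpow_add`, `wpow μ 1 = μ`. -/
theorem cpow_eq_wpow (μ : G → ℝ) (r : ℕ) : cpow μ r = wpow μ (2 ^ r) := by
  induction r with
  | zero =>
    rw [pow_zero, E2_wpow_one]
    rfl
  | succ r ih =>
    rw [pow_succ, mul_two, wpow_add, ← ih]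
    rfl

private theorem E2_conv_inv {μ ν : G → ℝ} (h1 : ∀ g, μ g⁻¹ = μ g) (h2 : ∀ g, ν g⁻¹ = ν g) (g : G) :
    conv μ ν g⁻¹ = conv ν μ g := by
  unfold conv
  rw [← Equiv.sum_comp (Equiv.mulLeft g⁻¹)]
  refine Finset.sum_congr rfl fun k _ => ?_
  simp only [Equiv.coe_mulLeft]
  have e1 : (g⁻¹ * k)⁻¹ * g⁻¹ = k⁻¹ * g * g⁻¹ := by group
  rw [e1, mul_inv_cancel_right, h2]
  have e2 : μ (g⁻¹ * k) = μ (k⁻¹ * g) := by
    rw [← h1 (k⁻¹ * g)]
    congr 1
    group
  rw [e2, mul_comm]

/-- PROOF: induction: nonnegative, sum one (`sum_conv`), symmetric: `wpow μ (n + 1) = conv μ (wpow μ n) = conv (wpow μ n) μ` (`wpow_add`) and `(conv μ ν) g⁻¹ = (conv ν μ) g` for symmetric `μ, ν`. -/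
theorem SP_wpow {μ : G → ℝ} (h : SP μ) (n : ℕ) : SP (wpow μ n) := by
  classical
  induction n with
  | zero =>
    refine ⟨fun g => ?_, ?_, fun g => ?_⟩
    · show 0 ≤ dl (1 : G) g
      exact Set.indicator_nonneg (fun _ _ => zero_le_one) _
    · show ∑ g, dl (1 : G) g = 1
      unfold dl
      rw [Finset.sum_eq_single (1 : G)]
      · exact Set.indicator_of_mem (Set.mem_singleton _) _
      · intro b _ hb
        exact Set.indicator_of_notMem (by rwa [Set.mem_singleton_iff]) _
      · intro h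
        exact absurd (Finset.mem_univ _) h
    · show dl (1 : G) g⁻¹ = dl (1 : G) g
      unfold dl
      by_cases hg : g = 1
      · rw [hg, inv_one]
      · rw [Set.indicator_of_notMem, Set.indicator_of_notMem]
        · rwa [Set.mem_singleton_iff]
        · rw [Set.mem_singleton_iff, inv_eq_one]
          exact hg
  | succ n ih =>
    refine ⟨fun g => ?_, ?_, fun g => ?_⟩
    · show 0 ≤ conv μ (wpow μ n) g
      exact Finset.sum_nonneg fun k _ => mul_nonneg (h.nonneg k) (ih.nonneg _)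
    · show ∑ g, conv μ (wpow μ n) g = 1
      rw [sum_conv, h.sum, ih.sum, one_mul]
    · have e1 : wpow μ (n + 1) = conv (wpow μ n) μ := by
        rw [wpow_add, E2_wpow_one]
      show conv μ (wpow μ n) g⁻¹ = wpow μ (n + 1) g
      rw [e1]
      exact E2_conv_inv h.symm ih.symm g

private theorem E2_two (μ : G → ℝ) (n : ℕ) (h : SP μ) : wpow μ (2 * n) 1 = nsq (wpow μ n) := by
  rw [two_mul, wpow_add]
  unfold conv nsq
  refine Finset.sum_congr rfl fun k _ => ?_
  rw [mul_one, (SP_wpow h n).symm, sq]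

/-- PROOF: `wpow μ (2 n) 1 = conv ν ν 1 = nsq ν` for `ν = wpow μ n`, and `nsq (conv μ ν) ≤ nsq ν` (`nsq_conv_le`, `∑ μ = 1`). -/
theorem wpow_anti {μ : G → ℝ} (h : SP μ) {m n : ℕ} (hmn : m ≤ n) :
    wpow μ (2 * n) 1 ≤ wpow μ (2 * m) 1 := by
  rw [E2_two μ n h, E2_two μ m h]
  induction n, hmn using Nat.le_induction with
  | base => exact le_rfl
  | succ n _ ih =>
    refine le_trans ?_ ih
    show nsq (conv μ (wpow μ n)) ≤ nsq (wpow μ n)
    have h3 := nsq_conv_le μ (wpow μ n) h.nonneg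
    rw [h.sum, one_pow, one_mul] at h3
    exact h3

/-- PROOF: the values are nonnegative, their sum is `|T| / |T| = 1`, `T` is symmetric. -/
theorem SP_unif {T : Set G} (h1 : T.Nonempty) (h2 : ∀ g ∈ T, g⁻¹ ∈ T) : SP (unif T) := by
  classical
  refine ⟨fun g => ?_, ?_, fun g => ?_⟩
  · unfold unif
    exact Set.indicator_nonneg (fun _ _ => by positivity) _
  · unfold unif
    have hT : (T.ncard : ℝ) ≠ 0 := by
      rw [Nat.cast_ne_zero]
      exact (Set.ncard_pos (Set.toFinite T)).mpr h1 |>.ne'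
    rw [← Finset.sum_subset (Finset.subset_univ T.toFinset)]
    · rw [Finset.sum_congr rfl (g := fun _ => 1 / (T.ncard : ℝ))]
      · rw [Finset.sum_const, nsmul_eq_mul, ← Set.ncard_eq_toFinset_card']
        field_simp
      · intro g hg
        rw [Set.mem_toFinset] at hg
        exact Set.indicator_of_mem hg _
    · intro g _ hg
      rw [Set.mem_toFinset] at hg
      exact Set.indicator_of_notMem hg _
  · unfold unif
    by_cases hg : g ∈ T
    · rw [Set.indicator_of_mem hg, Set.indicator_of_mem (h2 g hg)]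
    · rw [Set.indicator_of_notMem hg, Set.indicator_of_notMem]
      intro h3
      apply hg
      have := h2 _ h3
      rwa [inv_inv] at this

/-- PROOF: induction on `n`: `wpow (unif T) (n + 1) g = ∑ (h ∈ T), (1 / |T|) * wpow (unif T) n (h⁻¹ g)`, and the words of length `n + 1` with product `g` are `Fin.cons h w`, `h ∈ T`, `w` a word with product `h⁻¹ g` (`List.ofFn_succ`). -/
theorem wpow_unif (T : Set G) (n : ℕ) (g : G) :
    wpow (unif T) n g =
      ({w : Fin n → G | (∀ i, w i ∈ T) ∧ (List.ofFn w).prod = g}.ncard : ℝ) / (T.ncard : ℝ) ^ n := by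
  classical
  induction n generalizing g with
  | zero =>
    rw [pow_zero, div_one]
    show dl (1 : G) g = _
    unfold dl
    by_cases hg : g = 1
    · have e : {w : Fin 0 → G | (∀ i, w i ∈ T) ∧ (List.ofFn w).prod = g} = {Fin.elim0} := by
        ext w
        rw [Set.mem_singleton_iff]
        constructor
        · intro _
          exact Subsingleton.elim _ _
        · intro _
          refine ⟨fun i => i.elim0, ?_⟩
          rw [List.ofFn_zero, List.prod_nil, hg]
      rw [e, Set.ncard_singleton, hg, Set.indicator_of_mem (Set.mem_singleton _), Nat.cast_one]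
    · have e : {w : Fin 0 → G | (∀ i, w i ∈ T) ∧ (List.ofFn w).prod = g} = ∅ := by
        ext w
        constructor
        · rintro ⟨_, h⟩
          rw [List.ofFn_zero, List.prod_nil] at h
          exact (hg h.symm).elim
        · intro h
          exact h.elim
      rw [e, Set.ncard_empty, Set.indicator_of_notMem (by rwa [Set.mem_singleton_iff]),
        Nat.cast_zero]
  | succ n ih =>
    show conv (unif T) (wpow (unif T) n) g = _
    unfold conv
    have e1 : ∀ h : G, unif T h * wpow (unif T) n (h⁻¹ * g) =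
        T.indicator (fun h => ({w : Fin n → G | (∀ i, w i ∈ T) ∧
          (List.ofFn w).prod = h⁻¹ * g}.ncard : ℝ)) h / (T.ncard : ℝ) ^ (n + 1) := by
      intro h
      rw [ih]
      unfold unif
      by_cases hh : h ∈ T
      · rw [Set.indicator_of_mem hh, Set.indicator_of_mem hh, pow_succ]
        rw [div_mul_div_comm, one_mul, mul_comm ((T.ncard : ℝ) ^ n)]
      · rw [Set.indicator_of_notMem hh, Set.indicator_of_notMem hh, zero_mul, zero_div]
    rw [Finset.sum_congr rfl fun h _ => e1 h, ← Finset.sum_div]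
    congr 1
    have e2 : ({w : Fin (n + 1) → G | (∀ i, w i ∈ T) ∧ (List.ofFn w).prod = g}.ncard : ℝ) =
        ∑ h : G, ((Finset.univ.filter fun w : Fin (n + 1) → G =>
          ((∀ i, w i ∈ T) ∧ (List.ofFn w).prod = g) ∧ w 0 = h).card : ℝ) := by
      have e3 : {w : Fin (n + 1) → G | (∀ i, w i ∈ T) ∧ (List.ofFn w).prod = g} =
          ((Finset.univ.filter fun w : Fin (n + 1) → G =>
            (∀ i, w i ∈ T) ∧ (List.ofFn w).prod = g : Finset (Fin (n + 1) → G)) :
            Set (Fin (n + 1) → G)) := by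
        ext w
        rw [Finset.coe_filter]
        exact ⟨fun hw => ⟨Finset.mem_univ _, hw⟩, fun hw => hw.2⟩
      rw [e3, Set.ncard_coe_finset,
        Finset.card_eq_sum_card_fiberwise (f := fun w : Fin (n + 1) → G => w 0)
          (t := Finset.univ) (fun _ _ => Finset.mem_coe.mpr (Finset.mem_univ _)), Nat.cast_sum]
      refine Finset.sum_congr rfl fun h _ => ?_
      rw [Finset.filter_filter]
    rw [e2]
    refine Finset.sum_congr rfl fun h _ => ?_
    by_cases hh : h ∈ T
    · rw [Set.indicator_of_mem hh]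
      rw [← Set.ncard_coe_finset]
      congr 1
      refine Set.ncard_congr (fun w _ => (Fin.cons h w : Fin (n + 1) → G)) ?_ ?_ ?_
      · rintro w ⟨hw, hp⟩
        rw [Finset.coe_filter]
        refine ⟨Finset.mem_univ _, ⟨fun i => ?_, ?_⟩, Fin.cons_zero _ _⟩
        · refine Fin.cases ?_ (fun j => ?_) i
          · rw [Fin.cons_zero]
            exact hh
          · rw [Fin.cons_succ]
            exact hw j
        · rw [List.ofFn_succ, List.prod_cons, Fin.cons_zero]
          simp only [Fin.cons_succ]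
          rw [hp, mul_inv_cancel_left]
      · intro w v _ _ hwv
        exact Fin.cons_right_injective (α := fun _ : Fin (n + 1) => G) h hwv
      · intro w hw
        rw [Finset.coe_filter] at hw
        obtain ⟨_, ⟨hw1, hw2⟩, hw3⟩ := hw
        refine ⟨Fin.tail w, ⟨fun i => hw1 i.succ, ?_⟩, ?_⟩
        · rw [List.ofFn_succ, List.prod_cons, hw3] at hw2
          rw [← hw2, inv_mul_cancel_left]
          rfl
        · rw [← hw3]
          exact Fin.cons_self_tail w
    · rw [Set.indicator_of_notMem hh]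
      have e4 : (Finset.univ.filter fun w : Fin (n + 1) → G =>
          ((∀ i, w i ∈ T) ∧ (List.ofFn w).prod = g) ∧ w 0 = h) = ∅ := by
        rw [Finset.filter_eq_empty_iff]
        rintro w _ ⟨⟨hw, _⟩, rfl⟩
        exact hh (hw 0)
      rw [e4, Finset.card_empty, Nat.cast_zero]

/-- PROOF: `2 ^ r = 2 * 2 ^ (r - 1)` with `n ≤ 2 ^ (r - 1)` (`r ≥ 1` as `2 n ≥ 2`), `cpow_eq_wpow`, `wpow_anti`, `wpow_unif`, `SP_unif`. -/
theorem return_of_words {T : Set G} (h1 : T.Nonempty) (h2 : ∀ g ∈ T, g⁻¹ ∈ T) {n r : ℕ}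
    (hn : 1 ≤ n) (hr : 2 * n ≤ 2 ^ r) {q : ℝ}
    (h : ({w : Fin (2 * n) → G | (∀ i, w i ∈ T) ∧ (List.ofFn w).prod = 1}.ncard : ℝ) ≤
      q * (T.ncard : ℝ) ^ (2 * n)) : cpow (unif T) r 1 ≤ q := by
  have hr0 : r ≠ 0 := by
    rintro rfl
    rw [pow_zero] at hr
    omega
  obtain ⟨s, rfl⟩ := Nat.exists_eq_succ_of_ne_zero hr0
  have hs : n ≤ 2 ^ s := by
    rw [Nat.succ_eq_add_one, pow_succ] at hr
    omega
  have hT : (0 : ℝ) < (T.ncard : ℝ) ^ (2 * n) := by
    have : 0 < T.ncard := (Set.ncard_pos (Set.toFinite T)).mpr h1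
    positivity
  rw [cpow_eq_wpow, Nat.succ_eq_add_one, pow_succ, mul_comm]
  refine (wpow_anti (SP_unif h1 h2) hs).trans ?_
  rw [wpow_unif, div_le_iff₀ hT]
  exact h

end Pool.Agent.Lib.MP_3bb35d_al.LE
end

section

/-!
# Push forward of measures
-/

set_option autoImplicit false

open Finset

namespace Pool.Agent.Lib.MP_3bb35d_al.LE

open Pool.Agent.Lib.MP_3bb35d_al.UE

variable {G G' : Type*} [Group G] [Fintype G] [Group G'] [Fintype G'] (φ : G →* G')

private theorem E3_sum (μ : G → ℝ) (F : G' → ℝ) : ∑ g', pf φ μ g' * F g' = ∑ g, μ g * F (φ g) := by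
  classical
  unfold pf
  simp only [Finset.sum_mul]
  rw [Finset.sum_comm]
  refine Finset.sum_congr rfl fun g _ => ?_
  rw [Finset.sum_eq_single (φ g)]
  · rw [Set.indicator_of_mem (show g ∈ {g_1 : G | φ g_1 = φ g} from rfl)]
  · intro g' _ hg'
    rw [Set.indicator_of_notMem (show g ∉ {g_1 : G | φ g_1 = g'} from fun h => hg' h.symm), zero_mul]
  · intro h
    exact absurd (Finset.mem_univ _) h

private theorem E3_shift (ν : G → ℝ) (h : G) (g' : G') :
    ∑ g, {g : G | φ g = g'}.indicator (fun g => ν (h⁻¹ * g)) g = pf φ ν ((φ h)⁻¹ * g') := by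
  classical
  unfold pf
  rw [← Equiv.sum_comp (Equiv.mulLeft h)]
  refine Finset.sum_congr rfl fun k _ => ?_
  have h1 : (Equiv.mulLeft h) k = h * k := rfl
  rw [h1]
  by_cases hk : φ k = (φ h)⁻¹ * g'
  · have h2 : h * k ∈ {g : G | φ g = g'} := by
      show φ (h * k) = g'
      rw [map_mul, hk, mul_inv_cancel_left]
    rw [Set.indicator_of_mem h2, Set.indicator_of_mem (show k ∈ {g : G | φ g = (φ h)⁻¹ * g'} from hk),
      inv_mul_cancel_left]
  · have h2 : h * k ∉ {g : G | φ g = g'} := by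
      intro h3
      have h4 : φ (h * k) = g' := h3
      rw [map_mul] at h4
      exact hk (by rw [← h4, inv_mul_cancel_left])
    rw [Set.indicator_of_notMem h2, Set.indicator_of_notMem (show k ∉ {g : G | φ g = (φ h)⁻¹ * g'} from hk)]

/-- PROOF: `∑ (g : φ g = g'), ∑ h, μ h ν (h⁻¹ g) = ∑ h, μ h (pf φ ν) ((φ h)⁻¹ g')` (substitution `k = h⁻¹ g`), then group the `h` by `h' = φ h`. -/
theorem pf_conv (μ ν : G → ℝ) : pf φ (conv μ ν) = conv (pf φ μ) (pf φ ν) := by
  classical
  funext g'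
  have h1 : conv (pf φ μ) (pf φ ν) g' = ∑ h, μ h * pf φ ν ((φ h)⁻¹ * g') :=
    E3_sum φ μ (fun h' => pf φ ν (h'⁻¹ * g'))
  have h2 : pf φ (conv μ ν) g' = ∑ g, ∑ h, {g : G | φ g = g'}.indicator (fun g => μ h * ν (h⁻¹ * g)) g := by
    unfold pf
    refine Finset.sum_congr rfl fun g _ => ?_
    by_cases hg : g ∈ {g : G | φ g = g'}
    · rw [Set.indicator_of_mem hg]
      refine Finset.sum_congr rfl fun h _ => ?_
      rw [Set.indicator_of_mem hg]
    · rw [Set.indicator_of_notMem hg]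
      symm
      refine Finset.sum_eq_zero fun h _ => ?_
      rw [Set.indicator_of_notMem hg]
  rw [h1, h2, Finset.sum_comm]
  refine Finset.sum_congr rfl fun h _ => ?_
  rw [← E3_shift φ ν h g', Finset.mul_sum]
  refine Finset.sum_congr rfl fun g _ => ?_
  by_cases hg : g ∈ {g : G | φ g = g'}
  · rw [Set.indicator_of_mem hg, Set.indicator_of_mem hg]
  · rw [Set.indicator_of_notMem hg, Set.indicator_of_notMem hg, mul_zero]

theorem pf_cpow (μ : G → ℝ) (r : ℕ) : pf φ (cpow μ r) = cpow (pf φ μ) r := by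
  induction r with
  | zero => rfl
  | succ r ih =>
    show pf φ (conv (cpow μ r) (cpow μ r)) = conv (cpow (pf φ μ) r) (cpow (pf φ μ) r)
    rw [pf_conv, ih]

private theorem E3_nonneg {μ : G → ℝ} (h : ∀ g, 0 ≤ μ g) (r : ℕ) (g : G) : 0 ≤ cpow μ r g := by
  induction r generalizing g with
  | zero => exact h g
  | succ r ih => exact Finset.sum_nonneg fun k _ => mul_nonneg (ih k) (ih _)

/-- PROOF: `pf_cpow`; `cpow μ r 1` is one of the nonnegative terms of the sum over the fibre of `1`. -/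
theorem cpow_le_pf {μ : G → ℝ} (h : SP μ) (r : ℕ) : cpow μ r 1 ≤ cpow (pf φ μ) r 1 := by
  classical
  rw [← pf_cpow]
  unfold pf
  have h1 := Finset.single_le_sum (f := fun g => {g : G | φ g = 1}.indicator (cpow μ r) g)
    (fun g _ => Set.indicator_nonneg (fun g _ => E3_nonneg h.nonneg r g) g) (Finset.mem_univ (1 : G))
  have h2 : {g : G | φ g = 1}.indicator (cpow μ r) 1 = cpow μ r 1 :=
    Set.indicator_of_mem (show (1 : G) ∈ {g : G | φ g = 1} from map_one φ) _
  rw [← h2]
  exact h1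

private theorem E3_fib (hφ : Function.Surjective φ) (g' : G') : {g : G | φ g = g'}.ncard = Nat.card φ.ker := by
  obtain ⟨g0, rfl⟩ := hφ g'
  have h1 : {g : G | φ g = φ g0} = (fun k => g0 * k) '' (φ.ker : Set G) := by
    ext g
    constructor
    · intro hg
      refine ⟨g0⁻¹ * g, ?_, mul_inv_cancel_left g0 g⟩
      have h2 : φ g = φ g0 := hg
      show g0⁻¹ * g ∈ φ.ker
      rw [MonoidHom.mem_ker, map_mul, map_inv, h2, inv_mul_cancel]
    · rintro ⟨k, hk, rfl⟩
      have h2 : φ k = 1 := MonoidHom.mem_ker.1 hk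
      show φ (g0 * k) = φ g0
      rw [map_mul, h2, mul_one]
  rw [h1, Set.ncard_image_of_injective _ (mul_right_injective g0)]
  exact (Nat.card_coe_set_eq _).symm

private theorem E3_card (hφ : Function.Surjective φ) (T : Set G') :
    (φ ⁻¹' T).ncard = Nat.card φ.ker * T.ncard := by
  classical
  have h1 : (φ ⁻¹' T).ncard = (Finset.univ.filter fun g => φ g ∈ T).card := by
    rw [← Set.ncard_coe_finset]
    congr 1
    ext g
    simp
  have h2 : T.ncard = (Finset.univ.filter fun g' => g' ∈ T).card := by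
    rw [← Set.ncard_coe_finset]
    congr 1
    ext g
    simp
  rw [h1, h2, Finset.card_eq_sum_card_fiberwise (f := φ) (t := Finset.univ.filter fun g' => g' ∈ T)
    (fun g hg => by simpa using hg)]
  rw [Finset.sum_const_nat (m := Nat.card φ.ker), mul_comm]
  intro g' hg'
  rw [← E3_fib φ hφ g', ← Set.ncard_coe_finset]
  congr 1
  ext g
  simp only [Finset.coe_filter, Finset.mem_filter, Finset.mem_univ, true_and, Set.mem_ofPred_eq]
  constructor
  · intro h
    exact h.2
  · intro h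
    refine ⟨?_, h⟩
    rw [h]
    simpa using hg'

/-- PROOF: every fibre of `φ` has `n = |ker φ|` elements, so `|φ⁻¹ T| = n |T|`, and the sum over the fibre of `g' ∈ T` is `n / (n |T|)`. -/
theorem pf_unif (hφ : Function.Surjective φ) (T : Set G') : pf φ (unif (φ ⁻¹' T)) = unif T := by
  classical
  funext g'
  have hk : (0 : ℝ) < Nat.card φ.ker := by
    exact_mod_cast Nat.card_pos
  unfold pf
  by_cases hg' : g' ∈ T
  · have h1 : ∀ g : G, {g : G | φ g = g'}.indicator (unif (φ ⁻¹' T)) g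
        = if φ g = g' then 1 / (((φ ⁻¹' T).ncard : ℕ) : ℝ) else 0 := by
      intro g
      by_cases hg : φ g = g'
      · rw [Set.indicator_of_mem (show g ∈ {g : G | φ g = g'} from hg), if_pos hg]
        unfold unif
        exact Set.indicator_of_mem (s := φ ⁻¹' T) (a := g) (show φ g ∈ T from hg ▸ hg') _
      · rw [Set.indicator_of_notMem (show g ∉ {g : G | φ g = g'} from hg), if_neg hg]
    simp only [h1]
    rw [← Finset.sum_filter, Finset.sum_const, nsmul_eq_mul]
    have h2 : (Finset.univ.filter fun g => φ g = g').card = Nat.card φ.ker := by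
      rw [← E3_fib φ hφ g', ← Set.ncard_coe_finset]
      congr 1
      ext g
      simp
    have h3 : unif T g' = 1 / (T.ncard : ℝ) := Set.indicator_of_mem hg' _
    have h4 : (0 : ℝ) < T.ncard := by
      have : 0 < T.ncard := (Set.ncard_pos (Set.toFinite T)).2 ⟨g', hg'⟩
      exact_mod_cast this
    rw [h2, h3, E3_card φ hφ T]
    push_cast
    field_simp
  · have h3 : unif T g' = 0 := Set.indicator_of_notMem hg' _
    rw [h3]
    refine Finset.sum_eq_zero fun g _ => ?_
    by_cases hg : φ g = g'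
    · rw [Set.indicator_of_mem (show g ∈ {g : G | φ g = g'} from hg)]
      unfold unif
      exact Set.indicator_of_notMem (s := φ ⁻¹' T) (a := g) (fun h : φ g ∈ T => hg' (hg ▸ h)) _
    · exact Set.indicator_of_notMem (show g ∉ {g : G | φ g = g'} from hg) _

theorem card_preimage (hφ : Function.Surjective φ) (T : Set G') :
    (φ ⁻¹' T).ncard = Nat.card φ.ker * T.ncard := by
  exact E3_card φ hφ T

end Pool.Agent.Lib.MP_3bb35d_al.LE
end

section

/-!
# Telescoping
-/

set_option autoImplicit false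

open Finset

namespace Pool.Agent.Lib.MP_3bb35d_al.LE

open Pool.Agent.Lib.MP_3bb35d_al.UE

variable {G X : Type*} [Group G] [Fintype G] [MulAction G X] [Fintype X]

/-- PROOF. Induction on `r`. Let `ν = cpow μ r` (it is SP: `SP.cpow`), `q' = q ^ (2 ^ r)`. By `nx_act` and `ix_le`:
`q' * nx u ≤ nx (act ν u) = ix (act (conv ν ν) u) u ≤ √(nx (act (conv ν ν) u)) * √(nx u)`; square and divide by `nx u` (the case `nx u = 0` is trivial):
`q' ^ 2 * nx u ≤ nx (act (conv ν ν) u)`. -/
theorem up {μ : G → ℝ} (h : SP μ) {u : X → ℝ} {q : ℝ} (hq : 0 ≤ q)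
    (hu : q * nx u ≤ nx (act μ u)) (r : ℕ) : q ^ (2 ^ r) * nx u ≤ nx (act (cpow μ r) u) := by
  induction r with
  | zero => simpa [cpow] using hu
  | succ r ih =>
    have h1 := nx_act (h.cpow r) u
    have h2 := ix_le (act (conv (cpow μ r) (cpow μ r)) u) u
    have h3 : nx (act (cpow μ r) u) ≤ √(nx (act (cpow μ (r + 1)) u)) * √(nx u) := by
      rw [h1]
      exact h2
    have ha := nx_nonneg u
    have hc := nx_nonneg (act (cpow μ (r + 1)) u)
    have hq' : 0 ≤ q ^ (2 ^ r) := pow_nonneg hq _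
    have h4 : q ^ (2 ^ r) * nx u ≤ √(nx (act (cpow μ (r + 1)) u)) * √(nx u) := ih.trans h3
    have h5 : (q ^ (2 ^ r) * nx u) ^ 2 ≤ nx (act (cpow μ (r + 1)) u) * nx u := by
      have h6 := pow_le_pow_left₀ (mul_nonneg hq' ha) h4 2
      rw [mul_pow (√(nx (act (cpow μ (r + 1)) u))), Real.sq_sqrt hc, Real.sq_sqrt ha] at h6
      exact h6
    have h7 : q ^ (2 ^ (r + 1)) = (q ^ (2 ^ r)) ^ 2 := by
      rw [← pow_mul, pow_succ]
    rw [h7]
    rcases ha.lt_or_eq with h8 | h8
    · have h9 : (q ^ (2 ^ r)) ^ 2 * nx u * nx u ≤ nx (act (cpow μ (r + 1)) u) * nx u := by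
        calc (q ^ (2 ^ r)) ^ 2 * nx u * nx u = (q ^ (2 ^ r) * nx u) ^ 2 := by ring
          _ ≤ _ := h5
      exact le_of_mul_le_mul_right h9 h8
    · rw [← h8, mul_zero]
      exact hc

/-- PROOF. Induction on `r`, `act_cpow_succ`, `Function.iterate_add`, `pow_succ`, `mul_two`. -/
theorem act_cpow_iterate (μ : G → ℝ) (r : ℕ) (u : X → ℝ) :
    act (cpow μ r) u = (act μ)^[2 ^ r] u := by
  induction r generalizing u with
  | zero => simp [cpow]
  | succ r ih => rw [act_cpow_succ, ih, ih, ← Function.iterate_add_apply, pow_succ, mul_two]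

/-- PROOF. Let `w j = (act μ)^[j] u₀`, `N = 2 ^ r`, `q = a ^ (1 / N)`. All `w j` are nonnegative with sum one (`act_nonneg`, `sum_act`), `nx (w j)` is non-increasing (`nx_act_le`), at most one, and
at least `nx (w N) ≥ a` for `j ≤ N` (`act_cpow_iterate`). If `nx (w (j + 1)) < q * nx (w j)` for all `j < N` then `nx (w N) < q ^ N * nx (w 0) ≤ a` (`N ≥ 1`), a contradiction. So take `u = w j` for some `j < N`. -/
theorem down {μ : G → ℝ} (h : SP μ) {u₀ : X → ℝ} (h0 : ∀ x, 0 ≤ u₀ x) (h1 : ∑ x, u₀ x = 1)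
    (h2 : nx u₀ ≤ 1) {a : ℝ} (ha : 0 < a) (r : ℕ) (hr : a ≤ nx (act (cpow μ r) u₀)) :
    ∃ u : X → ℝ, (∀ x, 0 ≤ u x) ∧ ∑ x, u x = 1 ∧ a ≤ nx u ∧ nx u ≤ 1 ∧
      a ^ ((1 : ℝ) / 2 ^ r) * nx u ≤ nx (act μ u) := by
  set w : ℕ → X → ℝ := fun j => (act μ)^[j] u₀ with hw
  have hsucc : ∀ j, w (j + 1) = act μ (w j) := fun j => Function.iterate_succ_apply' _ _ _
  have hw0 : w 0 = u₀ := rfl
  have hnn : ∀ j x, 0 ≤ w j x := by
    intro j
    induction j with
    | zero => exact h0
    | succ j ih =>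
      intro x
      rw [hsucc]
      exact act_nonneg h.nonneg ih x
  have hsum : ∀ j, ∑ x, w j x = 1 := by
    intro j
    induction j with
    | zero => exact h1
    | succ j ih => rw [hsucc, sum_act, h.sum, ih, one_mul]
  have hdec : ∀ j, nx (w (j + 1)) ≤ nx (w j) := by
    intro j
    rw [hsucc]
    exact nx_act_le h _
  have hanti : Antitone fun j => nx (w j) := antitone_nat_of_succ_le hdec
  have hle1 : ∀ j, nx (w j) ≤ 1 := fun j => (hanti (Nat.zero_le j)).trans h2
  have hN : a ≤ nx (w (2 ^ r)) := by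
    rw [act_cpow_iterate] at hr
    exact hr
  set q : ℝ := a ^ ((1 : ℝ) / 2 ^ r) with hq
  have hq0 : 0 < q := Real.rpow_pos_of_pos ha _
  have hqN : q ^ (2 ^ r) = a := by
    rw [hq, ← Real.rpow_natCast, ← Real.rpow_mul ha.le]
    push_cast
    rw [one_div_mul_cancel (by positivity), Real.rpow_one]
  by_contra hcon
  push Not at hcon
  have hlt : ∀ j, j < 2 ^ r → nx (w (j + 1)) < q * nx (w j) := by
    intro j hj
    rw [hsucc]
    exact hcon (w j) (hnn j) (hsum j) (hN.trans (hanti hj.le)) (hle1 j)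
  have hpow : ∀ j, j ≤ 2 ^ r → nx (w j) ≤ q ^ j := by
    intro j
    induction j with
    | zero =>
      intro _
      rw [pow_zero]
      exact h2
    | succ j ih =>
      intro hj
      calc nx (w (j + 1)) ≤ q * nx (w j) := (hlt j hj).le
        _ ≤ q * q ^ j := mul_le_mul_of_nonneg_left (ih (by omega)) hq0.le
        _ = q ^ (j + 1) := by ring
  obtain ⟨n, hn⟩ : ∃ n, 2 ^ r = n + 1 := ⟨2 ^ r - 1, by have := Nat.one_le_two_pow (n := r); omega⟩
  rw [hn] at hN hqN hlt hpow
  have h3 := hlt n (Nat.lt_succ_self n)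
  have h4 : q * nx (w n) ≤ q * q ^ n := mul_le_mul_of_nonneg_left (hpow n (by omega)) hq0.le
  have h5 : q * q ^ n = a := by rw [← hqN]; ring
  linarith

end Pool.Agent.Lib.MP_3bb35d_al.LE
end

section

/-!
# Tensor powers on injective tuples
-/

set_option autoImplicit false

open Finset

namespace Pool.Agent.Lib.MP_3bb35d_al.LE

open Pool.Agent.Lib.MP_3bb35d_al.UE

variable {G X : Type*} [Group G] [Fintype G] [MulAction G X] [Fintype X]

private theorem B1_pow {b c : ℝ} (hc : 0 ≤ c) (hcb : c ≤ b) (m : ℕ) :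
    b ^ m - c ^ m ≤ m * b ^ (m - 1) * (b - c) := by
  have hb : 0 ≤ b := hc.trans hcb
  induction m with
  | zero => simp
  | succ m ih =>
    have e : (m : ℝ) * b ^ (m - 1) * b = m * b ^ m := by
      rcases m with _ | k
      · simp
      · rw [Nat.add_sub_cancel, pow_succ, mul_assoc]
    rw [Nat.add_sub_cancel]
    push_cast
    have h1 : c * (b ^ m - c ^ m) ≤ b * (m * b ^ (m - 1) * (b - c)) := by
      have hn : 0 ≤ b ^ m - c ^ m := sub_nonneg.2 (pow_le_pow_left₀ hc hcb m)
      exact mul_le_mul hcb ih hn hb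
    have h2 : b * (m * b ^ (m - 1) * (b - c)) = m * b ^ m * (b - c) := by
      rw [← e]
      ring
    have h3 : b ^ (m + 1) - c ^ (m + 1) = b ^ m * (b - c) + c * (b ^ m - c ^ m) := by
      ring
    rw [h3]
    have h4 : ((m : ℝ) + 1) * b ^ m * (b - c) = b ^ m * (b - c) + m * b ^ m * (b - c) := by ring
    rw [h4]
    linarith

omit [Fintype X] in
theorem tens_nonneg (m : ℕ) {u : X → ℝ} (hu : ∀ x, 0 ≤ u x) (y : Fin m → X) : 0 ≤ tens m u y := by
  unfold tens
  exact Set.indicator_nonneg (fun y _ => Finset.prod_nonneg (fun i _ => hu (y i))) y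

/-- PROOF: `tens m u y ≤ ∏ i, u (y i)` and `∑ y, ∏ i, u (y i) = ∏ i, ∑ x, u x = 1` (`Finset.prod_univ_sum` / `Fintype.piFinset_univ`). -/
theorem tens_sum_le (m : ℕ) {u : X → ℝ} (hu : ∀ x, 0 ≤ u x) (h1 : ∑ x, u x = 1) :
    ∑ y, tens m u y ≤ 1 := by
  have h2 : ∑ y : Fin m → X, ∏ i, u (y i) = 1 := by
    rw [← Fintype.sum_pow, h1, one_pow]
  rw [← h2]
  refine Finset.sum_le_sum (fun y _ => ?_)
  unfold tens
  exact Set.indicator_le_self' (fun z _ => Finset.prod_nonneg (fun i _ => hu (z i))) y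

/-- PROOF. Let `U y = ∏ i, u (y i)` on all `m`-tuples. The set of injective tuples is invariant under `G`, so for every `y` the term `(tens (g⁻¹ y) - tens y)²` is `(U (g⁻¹ y) - U y)²` or zero. Hence the left side is at most `∑ y, (U (g⁻¹ y) - U y)² = 2 b ^ m - 2 c ^ m` with `b = nx u = ix u u`, `c = ix (trl g u) u`
(product formula for the sums over the tuples). `0 ≤ c ≤ b` (`u ≥ 0`; `ix_le` and `nx_trl`), and `b ^ m - c ^ m ≤ m b ^ (m - 1) (b - c)` (induction, or Bernoulli `one_add_mul_le_pow`, or `geom_sum₂`). For `m = 0` both sides are `0`. -/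
theorem tens_diff (m : ℕ) {u : X → ℝ} (hu : ∀ x, 0 ≤ u x) (g : G) :
    nx (fun y => trl g (tens m u) y - tens m u y) ≤
      2 * m * nx u ^ (m - 1) * (nx u - ix (trl g u) u) := by
  have hv : ∀ x, 0 ≤ trl g u x := fun x => hu _
  have e0 : ∀ y : Fin m → X, trl g (tens m u) y =
      {y : Fin m → X | Function.Injective y}.indicator (fun y => ∏ i, trl g u (y i)) y := by
    intro y
    unfold trl tens
    have hinj : Function.Injective (g⁻¹ • y) ↔ Function.Injective y := by
      constructor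
      · intro h a b hab
        refine h ?_
        rw [Pi.smul_apply, Pi.smul_apply, hab]
      · intro h a b hab
        rw [Pi.smul_apply, Pi.smul_apply] at hab
        exact h (MulAction.injective g⁻¹ hab)
    by_cases hy : Function.Injective y
    · rw [Set.indicator_of_mem (show g⁻¹ • y ∈ {y : Fin m → X | Function.Injective y} from
        hinj.2 hy), Set.indicator_of_mem (show y ∈ {y : Fin m → X | Function.Injective y} from hy)]
      rfl
    · rw [Set.indicator_of_notMem (show g⁻¹ • y ∉ {y : Fin m → X | Function.Injective y} from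
        fun h => hy (hinj.1 h)), Set.indicator_of_notMem
        (show y ∉ {y : Fin m → X | Function.Injective y} from hy)]
  have e1 : nx (fun y => trl g (tens m u) y - tens m u y) ≤
      ∑ y : Fin m → X, (∏ i, trl g u (y i) - ∏ i, u (y i)) ^ 2 := by
    unfold nx
    refine Finset.sum_le_sum (fun y _ => ?_)
    show (trl g (tens m u) y - tens m u y) ^ 2 ≤ _
    rw [e0 y]
    unfold tens
    by_cases hy : Function.Injective y
    · rw [Set.indicator_of_mem (show y ∈ {y : Fin m → X | Function.Injective y} from hy),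
        Set.indicator_of_mem (show y ∈ {y : Fin m → X | Function.Injective y} from hy)]
    · rw [Set.indicator_of_notMem (show y ∉ {y : Fin m → X | Function.Injective y} from hy),
        Set.indicator_of_notMem (show y ∉ {y : Fin m → X | Function.Injective y} from hy),
        sub_zero]
      have h0 := sq_nonneg (∏ i, trl g u (y i) - ∏ i, u (y i))
      linarith
  have e2 : ∑ y : Fin m → X, (∏ i, trl g u (y i) - ∏ i, u (y i)) ^ 2 =
      (nx (trl g u)) ^ m - 2 * (ix (trl g u) u) ^ m + (nx u) ^ m := by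
    unfold nx ix
    rw [Fintype.sum_pow, Fintype.sum_pow, Fintype.sum_pow, Finset.mul_sum,
      ← Finset.sum_sub_distrib, ← Finset.sum_add_distrib]
    refine Finset.sum_congr rfl (fun y _ => ?_)
    rw [Finset.prod_pow, Finset.prod_pow, Finset.prod_mul_distrib]
    ring
  rw [e2, nx_trl] at e1
  have hc : 0 ≤ ix (trl g u) u := Finset.sum_nonneg (fun x _ => mul_nonneg (hv x) (hu x))
  have hcb : ix (trl g u) u ≤ nx u := by
    have h := ix_le (trl g u) u
    rw [nx_trl, Real.mul_self_sqrt (nx_nonneg u)] at h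
    exact h
  have h3 := B1_pow hc hcb m
  linarith

/-- PROOF. `defect` for `tens m u` and for `u`, `tens_diff`, and `∑ g, conv μ μ g * (nx u - ix (trl g u) u) = nx u - nx (act μ u) ≤ θ * nx u` (`SP.conv`, `nx_act`, `ix_act_eq_sum`):
`nx v - nx (act μ v) = 1/2 ∑ g, conv μ μ g * nx (trl g v - v) ≤ m b ^ (m-1) (b - nx (act μ u)) ≤ m b ^ (m - 1) θ b`. -/
theorem tens_act {μ : G → ℝ} (h : SP μ) (m : ℕ) {u : X → ℝ} (hu : ∀ x, 0 ≤ u x) {θ : ℝ}
    (hθ : (1 - θ) * nx u ≤ nx (act μ u)) :
    nx (tens m u) - m * θ * nx u ^ m ≤ nx (act μ (tens m u)) := by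
  have h1 := defect h (tens m u)
  have hcv := h.conv
  have h2 : ∑ g, conv μ μ g * nx (fun y => trl g (tens m u) y - tens m u y) ≤
      ∑ g, conv μ μ g * (2 * m * nx u ^ (m - 1) * (nx u - ix (trl g u) u)) :=
    Finset.sum_le_sum (fun g _ => mul_le_mul_of_nonneg_left (tens_diff m hu g) (hcv.nonneg g))
  have h3 : ∑ g, conv μ μ g * (2 * m * nx u ^ (m - 1) * (nx u - ix (trl g u) u)) =
      2 * m * nx u ^ (m - 1) * (nx u - nx (act μ u)) := by
    have e : ∀ g, conv μ μ g * (2 * m * nx u ^ (m - 1) * (nx u - ix (trl g u) u)) =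
        2 * m * nx u ^ (m - 1) * (conv μ μ g * nx u - conv μ μ g * ix (trl g u) u) := fun g => by
      ring
    rw [Finset.sum_congr rfl (fun g _ => e g), ← Finset.mul_sum, Finset.sum_sub_distrib,
      ← Finset.sum_mul, hcv.sum, one_mul, nx_act h, ix_act_eq_sum]
  rw [h3] at h2
  have hb := nx_nonneg u
  rcases m with _ | k
  · simp only [Nat.cast_zero, mul_zero, zero_mul] at h2 ⊢
    linarith
  · have h4 : 2 * ((k + 1 : ℕ) : ℝ) * nx u ^ (k + 1 - 1) * (nx u - nx (act μ u)) ≤
        2 * ((k + 1 : ℕ) : ℝ) * nx u ^ (k + 1 - 1) * (θ * nx u) :=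
      mul_le_mul_of_nonneg_left (by linarith) (by positivity)
    rw [Nat.add_sub_cancel] at h2 h4
    have h5 : 2 * ((k + 1 : ℕ) : ℝ) * nx u ^ k * (θ * nx u) =
        2 * (((k + 1 : ℕ) : ℝ) * θ * nx u ^ (k + 1)) := by
      ring
    rw [h5] at h4
    linarith

end Pool.Agent.Lib.MP_3bb35d_al.LE
end

section

/-!
# Almost invariant vectors are not concentrated on one or two points
-/

set_option autoImplicit false

open Finset

namespace Pool.Agent.Lib.MP_3bb35d_al.LE

open Pool.Agent.Lib.MP_3bb35d_al.UE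

/-- PROOF. Let `b = nx u > 0`, `β = √b`. Suppose `F` has less than `m ≤ 3` points and `∑ x ∈ F, u x ^ 2 > (99/100) b`. Then `u x ≤ β / 10` for `x ∉ F` (`u x ^ 2 ≤ b - ∑_F`). `F` is not empty; let `M = u a` be the maximum of `u` on `F`: `M ^ 2 * 2 ≥ (99/100) b`, so `M > (7/10) β` (`0.7² · 2 = 0.98 < 0.99`).
For `j = 0, 1, 2` let `E j = {x | M - j * (β / 10) ≤ u x}`. As `M - 2 β / 10 > β / 10`, `E j ⊆ F` for `j ≤ 2`. `a ∈ E 0 ⊆ E 1 ⊆ E 2`, all have between `1` and `m - 1 ≤ 2` elements. So `E 0 = E 1` or `E 1 = E 2` (if `m ≤ 2`, or in general by counting; only `E 0, .., E (m-1)` are needed): there is `j ≤ 1` with `E j = E (j + 1)`.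
For `s ∈ T` and `x ∈ E j`: `|u (s⁻¹ (s x)) - u (s x)| ≤ √(nx (trl s u - u)) ≤ β / 10`, so `u (s x) ≥ u x - β/10` and `s x ∈ E (j + 1) = E j`. So `s (E j) ⊆ E j`, with equality (finite sets), for all `s ∈ T`, so for all `s` in the closure of `T`, i.e. in `G`
(`Subgroup.closure_induction` for the subgroup `{g | ∀ x, x ∈ E j ↔ g x ∈ E j}`). By transitivity `E j = univ` has at least `m` elements. Contradiction. -/
theorem gap {G X : Type*} [Group G] [MulAction G X] [MulAction.IsPretransitive G X] [Fintype X]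
    {m : ℕ} (hm : m ≤ 3) (hX : m ≤ Fintype.card X) {T : Set G} (hT : Subgroup.closure T = ⊤)
    {u : X → ℝ} (hu : ∀ x, 0 ≤ u x) (hb : 0 < nx u)
    (hs : ∀ s ∈ T, nx (fun x => trl s u x - u x) ≤ nx u / 100) (F : Finset X) (hF : F.card < m) :
    ∑ x ∈ F, u x ^ 2 ≤ (1 - 1 / 100) * nx u := by
  classical
  by_contra hcon
  rw [not_le] at hcon
  have hcon' : 99 / 100 * nx u < ∑ x ∈ F, u x ^ 2 := by linarith [hcon]
  obtain ⟨β, hβ⟩ : ∃ β, β = √(nx u) := ⟨_, rfl⟩
  have hβ0 : 0 < β := by rw [hβ]; exact Real.sqrt_pos.2 hb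
  have hβ2 : β ^ 2 = nx u := by rw [hβ]; exact Real.sq_sqrt hb.le
  have hsplit : ∑ x ∈ F, u x ^ 2 + ∑ x ∈ Fᶜ, u x ^ 2 = nx u :=
    Finset.sum_add_sum_compl F _
  have hout : ∀ x, x ∉ F → u x < β / 10 := by
    intro x hx
    have h1 : u x ^ 2 ≤ ∑ x ∈ Fᶜ, u x ^ 2 :=
      Finset.single_le_sum (f := fun x => u x ^ 2) (fun i _ => sq_nonneg _)
        (Finset.mem_compl.2 hx)
    by_contra h
    rw [not_lt] at h
    have h2 : (β / 10) ^ 2 ≤ u x ^ 2 := pow_le_pow_left₀ (by positivity) h 2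
    nlinarith
  have hF0 : F.Nonempty := by
    rw [Finset.nonempty_iff_ne_empty]
    rintro rfl
    rw [Finset.sum_empty] at hcon'
    linarith
  obtain ⟨a, haF, ha⟩ := Finset.exists_max_image F u hF0
  have hcard : F.card ≤ 2 := by omega
  have hua : 7 / 10 * β < u a := by
    have h1 : ∑ x ∈ F, u x ^ 2 ≤ F.card • (u a ^ 2) :=
      Finset.sum_le_card_nsmul _ _ _ (fun x hx => pow_le_pow_left₀ (hu x) (ha x hx) 2)
    have h2 : (F.card : ℝ) * u a ^ 2 ≤ 2 * u a ^ 2 := by
      apply mul_le_mul_of_nonneg_right _ (sq_nonneg _)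
      exact_mod_cast hcard
    rw [nsmul_eq_mul] at h1
    by_contra h
    rw [not_lt] at h
    have h3 : u a ^ 2 ≤ (7 / 10 * β) ^ 2 := pow_le_pow_left₀ (hu a) h 2
    nlinarith
  have hstep : ∀ s ∈ T, ∀ x, u x - β / 10 ≤ u (s • x) := by
    intro s hsT x
    have h1 : (u x - u (s • x)) ^ 2 ≤ nx (fun y => trl s u y - u y) := by
      have h2 := Finset.single_le_sum (f := fun y => (trl s u y - u y) ^ 2)
        (s := Finset.univ) (fun i _ => sq_nonneg _) (Finset.mem_univ (s • x))
      have h3 : trl s u (s • x) = u x := by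
        unfold trl
        rw [inv_smul_smul]
      simp only [h3] at h2
      exact h2
    have h2 : (u x - u (s • x)) ^ 2 ≤ (β / 10) ^ 2 := by
      have h3 := hs s hsT
      nlinarith
    have h3 : |u x - u (s • x)| ≤ β / 10 := by
      exact abs_le_of_sq_le_sq h2 (by positivity)
    have h4 := (abs_le.1 h3).2
    linarith
  obtain ⟨E, hE⟩ : ∃ E : ℝ → Finset X, ∀ t x, x ∈ E t ↔ u a - t ≤ u x :=
    ⟨fun t => Finset.univ.filter (fun x => u a - t ≤ u x), fun t x => by simp⟩
  have hmono : ∀ t t', t ≤ t' → E t ⊆ E t' := by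
    intro t t' htt x hx
    rw [hE] at hx ⊢
    linarith
  have hEF : ∀ t, t ≤ 2 * (β / 10) → E t ⊆ F := by
    intro t ht x hx
    rw [hE] at hx
    by_contra hxF
    have := hout x hxF
    linarith
  have haE : ∀ t, 0 ≤ t → a ∈ E t := by
    intro t ht
    rw [hE]
    linarith
  obtain ⟨t, ht0, ht1, ht2⟩ : ∃ t, 0 ≤ t ∧ t ≤ 2 * (β / 10) ∧ E (t + β / 10) = E t := by
    have c0 : 0 < (E 0).card := Finset.card_pos.2 ⟨a, haE 0 le_rfl⟩
    have c2 : (E (β / 10 + β / 10)).card ≤ F.card := Finset.card_le_card (hEF _ (by linarith))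
    have m1 : E 0 ⊆ E (β / 10) := hmono _ _ (by positivity)
    have m2 : E (β / 10) ⊆ E (β / 10 + β / 10) := hmono _ _ (by linarith)
    by_cases h : (E (β / 10)).card ≤ (E 0).card
    · refine ⟨0, le_rfl, by positivity, ?_⟩
      rw [zero_add]
      exact (Finset.eq_of_subset_of_card_le m1 h).symm
    · refine ⟨β / 10, by positivity, by linarith, ?_⟩
      exact (Finset.eq_of_subset_of_card_le m2 (by omega)).symm
  have hinv : ∀ s ∈ T, ∀ x, x ∈ E t ↔ s • x ∈ E t := by
    intro s hsT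
    have hfwd : ∀ x, x ∈ E t → s • x ∈ E t := by
      intro x hx
      rw [← ht2, hE]
      rw [hE] at hx
      have := hstep s hsT x
      linarith
    have hsub : (E t).image (fun x => s • x) ⊆ E t := by
      intro y hy
      obtain ⟨x, hx, rfl⟩ := Finset.mem_image.1 hy
      exact hfwd x hx
    have hinj : Function.Injective (fun x : X => s • x) := MulAction.injective s
    have heq : (E t).image (fun x => s • x) = E t :=
      Finset.eq_of_subset_of_card_le hsub (by rw [Finset.card_image_of_injective _ hinj])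
    intro x
    refine ⟨hfwd x, fun hx => ?_⟩
    rw [← heq] at hx
    obtain ⟨y, hy, hyx⟩ := Finset.mem_image.1 hx
    rw [← hinj hyx]
    exact hy
  have hall : ∀ g : G, ∀ x, x ∈ E t ↔ g • x ∈ E t := by
    intro g
    have hg : g ∈ Subgroup.closure T := by rw [hT]; exact Subgroup.mem_top g
    induction hg using Subgroup.closure_induction with
    | mem s hs' => exact hinv s hs'
    | one => intro x; rw [one_smul]
    | mul g h _ _ ihg ihh =>
      intro x
      rw [mul_smul]
      exact (ihh x).trans (ihg (h • x))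
    | inv g _ ih =>
      intro x
      have h1 := ih (g⁻¹ • x)
      rw [smul_inv_smul] at h1
      exact h1.symm
  have huniv : ∀ x, x ∈ E t := by
    intro x
    obtain ⟨g, hg⟩ := MulAction.exists_smul_eq G a x
    rw [← hg]
    exact (hall g a).1 (haE t ht0)
  have hcardX : Fintype.card X ≤ F.card := by
    rw [← Finset.card_univ]
    exact Finset.card_le_card (fun x _ => hEF t ht1 (huniv x))
  omega

end Pool.Agent.Lib.MP_3bb35d_al.LE
end
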