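import Pool.Agent.Lib.MP_3bb35d_al.Mg.G032
import Pool.Agent.Lib.MP_3bb35d_al.Mg.G030
import Pool.Agent.Lib.MP_3bb35d_al.UE.P0
import Pool.Agent.Lib.MP_3bb35d_al.Mg.G031

section

/-!
# Subgroups of `SL₂(p)` of order prime to `p`
-/

set_option autoImplicit false

open Finset

namespace Pool.Agent.Lib.MP_3bb35d_al.LE

open Pool.Agent.Lib.MP_3bb35d_al.UE

variable {p : ℕ} [Fact p.Prime]

private theorem K3b_pm {K : Type*} [Field K] {x y z x' y' z' : K} (e1 : y * z' = z * y')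
    (e2 : x * y' = y * x') (e3 : x * z' = z * x') (hD : x * x + y * z = x' * x' + y' * z')
    (hne : x * x + y * z ≠ 0) :
    (x' = x ∧ y' = y ∧ z' = z) ∨ (x' = -x ∧ y' = -y ∧ z' = -z) := by
  set D := x * x + y * z with hDdef
  set s := x * x' + y * z' with hs
  have k1 : s * x = D * x' := by rw [hs, hDdef]; linear_combination y * e3
  have k2 : s * y = D * y' := by
    rw [hs, hDdef]
    linear_combination y * e1 - x * e2
  have k3 : s * z = D * z' := by
    rw [hs, hDdef]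
    linear_combination (-x) * e3
  have k4 : s * s = D * D := by
    have : s * s = s * x * x' + s * y * z' := by rw [hs]; ring
    rw [this, k1, k2]
    linear_combination (-D) * hD
  have k5 : (s - D) * (s + D) = 0 := by linear_combination k4
  rcases mul_eq_zero.1 k5 with h | h
  · left
    have h' : s = D := sub_eq_zero.1 h
    rw [h'] at k1 k2 k3
    exact ⟨(mul_left_cancel₀ hne k1).symm, (mul_left_cancel₀ hne k2).symm,
      (mul_left_cancel₀ hne k3).symm⟩
  · right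
    have h' : s = -D := eq_neg_of_add_eq_zero_left h
    rw [h'] at k1 k2 k3
    refine ⟨mul_left_cancel₀ hne ?_, mul_left_cancel₀ hne ?_, mul_left_cancel₀ hne ?_⟩
    · linear_combination -k1
    · linear_combination -k2
    · linear_combination -k3

private theorem K3b_det (a : SL2 p) : a 0 0 * a 1 1 - a 0 1 * a 1 0 = 1 := by
  have := a.det_coe
  rw [Matrix.det_fin_two] at this
  exact this

private theorem K3b_ext {a b : SL2 p} (h00 : a 0 0 = b 0 0) (h01 : a 0 1 = b 0 1)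
    (h10 : a 1 0 = b 1 0) (h11 : a 1 1 = b 1 1) : a = b := by
  ext i j
  fin_cases i <;> fin_cases j
  · exact h00
  · exact h01
  · exact h10
  · exact h11

private theorem K3b_mul (a b : SL2 p) (i j : Fin 2) :
    (a * b) i j = a i 0 * b 0 j + a i 1 * b 1 j := by
  rw [Matrix.SpecialLinearGroup.coe_mul, Matrix.mul_apply, Fin.sum_univ_two]

private theorem K3b_two (hp : 3 ≤ p) : (2 : ZMod p) ≠ 0 := by
  intro h
  have h1 : ((2 : ℕ) : ZMod p) = 0 := by exact_mod_cast h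
  rw [ZMod.natCast_eq_zero_iff] at h1
  have := Nat.le_of_dvd (by norm_num) h1
  omega

/-- Cayley-Hamilton. -/
private theorem K3b_ch (a : SL2 p) : (a : Matrix (Fin 2) (Fin 2) (ZMod p)) * a =
    (a 0 0 + a 1 1) • (a : Matrix (Fin 2) (Fin 2) (ZMod p)) - 1 := by
  have hd := K3b_det a
  ext i j
  rw [Matrix.mul_apply, Fin.sum_univ_two, Matrix.sub_apply, Matrix.smul_apply, smul_eq_mul]
  fin_cases i <;> fin_cases j
  · simp only [Fin.zero_eta, Fin.isValue, Matrix.one_apply_eq]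
    linear_combination -hd
  · simp only [Fin.zero_eta, Fin.mk_one, Fin.isValue]
    rw [Matrix.one_apply_ne (by decide)]
    ring
  · simp only [Fin.zero_eta, Fin.mk_one, Fin.isValue]
    rw [Matrix.one_apply_ne (by decide)]
    ring
  · simp only [Fin.mk_one, Fin.isValue, Matrix.one_apply_eq]
    linear_combination -hd

private theorem K3b_unip (hp : 3 ≤ p) {H : Subgroup (SL2 p)} (hH : ¬ p ∣ Nat.card H) {a : SL2 p}
    (ha : a ∈ H) {ε : ZMod p} (hε : ε * ε = 1) (ht : a 0 0 + a 1 1 = 2 * ε) :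
    a = 1 ∨ a = -1 := by
  have h2 := K3b_two hp
  have hch := K3b_ch a
  set M : Matrix (Fin 2) (Fin 2) (ZMod p) := (a : Matrix (Fin 2) (Fin 2) (ZMod p)) with hM
  have hN : (ε • M - 1) ^ 2 = 0 := by
    have e0 : (ε • M - 1) ^ 2 = (ε * ε) • (M * M) - (2 * ε) • M + 1 := by
      rw [sq, sub_mul, mul_sub, Matrix.smul_mul, Matrix.mul_smul, smul_smul]
      rw [mul_one, one_mul, mul_smul (2 : ZMod p) ε M, two_smul]
      abel
    rw [e0, hε, hch, ht, one_smul]
    abel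
  have hcomm : Commute (ε • M) (1 : Matrix (Fin 2) (Fin 2) (ZMod p)) := Commute.one_right _
  have hpp : (ε • M - 1) ^ p = (ε • M) ^ p - 1 := by
    have := sub_pow_char_of_commute (p := p) hcomm
    rwa [one_pow] at this
  have hz : (ε • M - 1) ^ p = 0 := by
    exact pow_eq_zero_of_le (by omega) hN
  rw [hz] at hpp
  have hone : (ε • M) ^ p = 1 := (sub_eq_zero.1 hpp.symm)
  have hone2 : M ^ (2 * p) = 1 := by
    have e1 : (ε • M) ^ (2 * p) = 1 := by rw [mul_comm, pow_mul, hone, one_pow]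
    rw [smul_pow] at e1
    have e2 : ε ^ (2 * p) = 1 := by rw [pow_mul, sq, hε, one_pow]
    rwa [e2, one_smul] at e1
  have hone3 : a ^ (2 * p) = 1 := by
    apply Subtype.ext
    rw [Matrix.SpecialLinearGroup.coe_pow, Matrix.SpecialLinearGroup.coe_one]
    exact hone2
  have ho1 : orderOf a ∣ 2 * p := orderOf_dvd_of_pow_eq_one hone3
  have ho2 : orderOf a ∣ Nat.card H := Subgroup.orderOf_dvd_natCard H ha
  have hpr : p.Prime := Fact.out
  have hcop : Nat.Coprime (orderOf a) p := by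
    rw [Nat.coprime_comm, hpr.coprime_iff_not_dvd]
    intro h
    exact hH (h.trans ho2)
  have ho3 : orderOf a ∣ 2 := hcop.dvd_of_dvd_mul_right ho1
  have hsq : a ^ 2 = 1 := orderOf_dvd_iff_pow_eq_one.1 ho3
  have hMM : M * M = 1 := by
    have := congrArg (fun x : SL2 p => (x : Matrix (Fin 2) (Fin 2) (ZMod p))) hsq
    simp only [Matrix.SpecialLinearGroup.coe_pow, Matrix.SpecialLinearGroup.coe_one] at this
    rwa [sq] at this
  rw [hMM, ht] at hch
  have hfin : (2 * ε) • M = (2 : ZMod p) • (1 : Matrix (Fin 2) (Fin 2) (ZMod p)) := by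
    rw [eq_sub_iff_add_eq] at hch
    rw [← hch, two_smul]
  have hfin2 : M = ε • (1 : Matrix (Fin 2) (Fin 2) (ZMod p)) := by
    have h3 := congrArg (fun X => ((2 : ZMod p)⁻¹ * ε) • X) hfin
    simp only [smul_smul] at h3
    rw [show (2 : ZMod p)⁻¹ * ε * (2 * ε) = 1 by
      rw [show (2 : ZMod p)⁻¹ * ε * (2 * ε) = ((2 : ZMod p)⁻¹ * 2) * (ε * ε) by ring, hε,
        inv_mul_cancel₀ h2, one_mul], one_smul,
      show (2 : ZMod p)⁻¹ * ε * 2 = ((2 : ZMod p)⁻¹ * 2) * ε by ring, inv_mul_cancel₀ h2,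
      one_mul] at h3
    exact h3
  have hε2 : (ε - 1) * (ε + 1) = 0 := by linear_combination hε
  rcases mul_eq_zero.1 hε2 with h | h
  · left
    apply Subtype.ext
    rw [Matrix.SpecialLinearGroup.coe_one]
    rw [sub_eq_zero.1 h, one_smul] at hfin2
    exact hfin2
  · right
    apply Subtype.ext
    rw [Matrix.SpecialLinearGroup.coe_neg, Matrix.SpecialLinearGroup.coe_one]
    rw [eq_neg_of_add_eq_zero_left h, neg_smul, one_smul] at hfin2
    exact hfin2

/-- PROOF. Transport by the injective map `φ : SL₂(F_p) → SL₂(Kb p)` (`Matrix.SpecialLinearGroup.map (algebraMap _ _)`; see the proof of `law_proper` in UE/H3 for the same step): `finite_subgroup_card` for `H.map φ` (the same order, nonzero in `Kb p`): the first case gives that `h ^ 2`, `h' ^ 2` commute for `h, h' ∈ H`. -/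
theorem sq_comm_or_small (H : Subgroup (SL2 p)) (hH : ¬ p ∣ Nat.card H) :
    (∀ h ∈ H, ∀ h' ∈ H, h ^ 2 * h' ^ 2 = h' ^ 2 * h ^ 2) ∨ Nat.card H ≤ 240 := by
  set φ : SL2 p →* Matrix.SpecialLinearGroup (Fin 2) (Kb p) :=
    Matrix.SpecialLinearGroup.map (algebraMap (ZMod p) (Kb p)) with hφ
  have hinj : Function.Injective φ := by
    intro x y hxy
    ext i j
    have h1 := congrArg (fun z : Matrix.SpecialLinearGroup (Fin 2) (Kb p) => z i j) hxy
    simp only [hφ, Matrix.SpecialLinearGroup.map_apply_coe, RingHom.mapMatrix_apply,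
      Matrix.map_apply] at h1
    exact (algebraMap (ZMod p) (Kb p)).injective h1
  have hcard : Nat.card (H.map φ) = Nat.card H :=
    (Nat.card_congr (H.equivMapOfInjective φ hinj).toEquiv).symm
  have : Finite (H.map φ) := Finite.of_equiv H (H.equivMapOfInjective φ hinj).toEquiv
  have hne : (Nat.card (H.map φ) : Kb p) ≠ 0 := by
    rw [hcard]
    intro h0
    exact hH ((CharP.cast_eq_zero_iff (Kb p) p _).1 h0)
  have hm : ∀ x ∈ H, φ x ∈ H.map φ := fun x hx => Subgroup.mem_map_of_mem φ hx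
  rcases finite_subgroup_card (H.map φ) hne with ⟨N, hN, hcomm⟩ | h240
  · left
    intro h hh h' hh'
    apply hinj
    rw [map_mul, map_mul, map_pow, map_pow]
    exact hcomm _ (hN _ (hm h hh)) _ (hN _ (hm h' hh'))
  · right
    rwa [hcard] at h240

/-- PROOF. `a` is not a scalar (a scalar in `SL₂` is `±1`), so the matrices commuting with `a` are `x + y a`: `b = x + y a`. Let `t = tr a = tr b`, `A = 2 a - t`, `B = 2 b - t`. The traces give `2 x + y t = t`, so `B = y A`. `det A = 4 - t² = det B` (`det a = det b = 1`), so `y² = 1` or `t² = 4`. If `t = 2` or `-2` then `(a ∓ 1) ^ 2 = 0`, so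
`(± a) ^ p = 1`, `a ^ (2 p) = 1`; `a ^ 2 ≠ 1` (otherwise `a = ±1`: `p` odd), so `p` divides the order of `a` and the order of `H`: excluded. So `B = ± A`. -/
theorem comm_conj (hp : 3 ≤ p) {H : Subgroup (SL2 p)} (hH : ¬ p ∣ Nat.card H) {a : SL2 p}
    (ha : a ∈ H) (h1 : a ≠ 1) (h2 : a ≠ -1) :
    ∃ A : Matrix (Fin 2) (Fin 2) (ZMod p), A 0 0 + A 1 1 = 0 ∧ A.det ≠ 0 ∧
      ∀ g : SL2 p, a * (g * a * g⁻¹) = g * a * g⁻¹ * a → PM A g := by
  have h2' := K3b_two hp
  have hda := K3b_det a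
  have ht : (a 0 0 + a 1 1) * (a 0 0 + a 1 1) ≠ 4 := by
    intro h4
    have hε : (2 : ZMod p)⁻¹ * (a 0 0 + a 1 1) * ((2 : ZMod p)⁻¹ * (a 0 0 + a 1 1)) = 1 := by
      rw [show (2 : ZMod p)⁻¹ * (a 0 0 + a 1 1) * ((2 : ZMod p)⁻¹ * (a 0 0 + a 1 1)) =
        (2 : ZMod p)⁻¹ * (2 : ZMod p)⁻¹ * ((a 0 0 + a 1 1) * (a 0 0 + a 1 1)) by ring, h4,
        show (2 : ZMod p)⁻¹ * (2 : ZMod p)⁻¹ * 4 = ((2 : ZMod p)⁻¹ * 2) * ((2 : ZMod p)⁻¹ * 2) by
          ring, inv_mul_cancel₀ h2', one_mul]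
    have h5 : a 0 0 + a 1 1 = 2 * ((2 : ZMod p)⁻¹ * (a 0 0 + a 1 1)) := by
      rw [← mul_assoc, mul_inv_cancel₀ h2', one_mul]
    rcases K3b_unip hp hH ha hε h5 with h | h
    · exact h1 h
    · exact h2 h
  refine ⟨!![a 0 0 - a 1 1, 2 * a 0 1; 2 * a 1 0, a 1 1 - a 0 0], ?_, ?_, ?_⟩
  · simp
  · rw [Matrix.det_fin_two_of]
    intro h0
    apply ht
    linear_combination -h0 + 4 * hda
  · intro g hg
    set b : SL2 p := g * a * g⁻¹ with hb
    have hba : g * a = b * g := by rw [hb]; group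
    have hbm : (g : Matrix (Fin 2) (Fin 2) (ZMod p)) * (a : Matrix (Fin 2) (Fin 2) (ZMod p)) =
        (b : Matrix (Fin 2) (Fin 2) (ZMod p)) * (g : Matrix (Fin 2) (Fin 2) (ZMod p)) := by
      rw [← Matrix.SpecialLinearGroup.coe_mul, hba, Matrix.SpecialLinearGroup.coe_mul]
    have hdb := K3b_det b
    have htr : b 0 0 + b 1 1 = a 0 0 + a 1 1 := by
      have e1 : (b : Matrix (Fin 2) (Fin 2) (ZMod p)).trace =
          (a : Matrix (Fin 2) (Fin 2) (ZMod p)).trace := by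
        rw [hb, Matrix.SpecialLinearGroup.coe_mul, Matrix.trace_mul_comm,
          ← Matrix.SpecialLinearGroup.coe_mul]
        congr 2
        group
      rwa [Matrix.trace_fin_two, Matrix.trace_fin_two] at e1
    have c00 := congrArg (fun X : SL2 p => X 0 0) hg
    have c01 := congrArg (fun X : SL2 p => X 0 1) hg
    have c10 := congrArg (fun X : SL2 p => X 1 0) hg
    simp only [K3b_mul] at c00 c01 c10
    have key := K3b_pm (x := a 0 0 - a 1 1) (y := 2 * a 0 1) (z := 2 * a 1 0)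
      (x' := b 0 0 - b 1 1) (y' := 2 * b 0 1) (z' := 2 * b 1 0)
      (by linear_combination 4 * c00) (by linear_combination 2 * c01)
      (by linear_combination -2 * c10)
      (by linear_combination (-(b 0 0 + b 1 1) - (a 0 0 + a 1 1)) * htr - 4 * hda + 4 * hdb)
      (by
        intro h0
        apply ht
        linear_combination h0 + 4 * hda)
    have hA : (!![a 0 0 - a 1 1, 2 * a 0 1; 2 * a 1 0, a 1 1 - a 0 0] :
        Matrix (Fin 2) (Fin 2) (ZMod p)) =
        (2 : ZMod p) • (a : Matrix (Fin 2) (Fin 2) (ZMod p)) - (a 0 0 + a 1 1) • 1 := by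
      ext i j
      fin_cases i <;> fin_cases j <;> simp <;> ring
    have hB : (!![b 0 0 - b 1 1, 2 * b 0 1; 2 * b 1 0, b 1 1 - b 0 0] :
        Matrix (Fin 2) (Fin 2) (ZMod p)) =
        (2 : ZMod p) • (b : Matrix (Fin 2) (Fin 2) (ZMod p)) - (a 0 0 + a 1 1) • 1 := by
      rw [← htr]
      ext i j
      fin_cases i <;> fin_cases j <;> simp <;> ring
    have hgA : (g : Matrix (Fin 2) (Fin 2) (ZMod p)) *
        !![a 0 0 - a 1 1, 2 * a 0 1; 2 * a 1 0, a 1 1 - a 0 0] =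
        !![b 0 0 - b 1 1, 2 * b 0 1; 2 * b 1 0, b 1 1 - b 0 0] *
          (g : Matrix (Fin 2) (Fin 2) (ZMod p)) := by
      rw [hA, hB, mul_sub, sub_mul, Matrix.mul_smul, Matrix.mul_smul, Matrix.smul_mul,
        Matrix.smul_mul, hbm, mul_one, one_mul]
    rcases key with ⟨k1, k2, k3⟩ | ⟨k1, k2, k3⟩
    · left
      rw [hgA]
      congr 1
      ext i j
      fin_cases i <;> fin_cases j
      · simpa using k1
      · simpa using k2
      · simpa using k3
      · simp only [Fin.mk_one, Fin.isValue, Matrix.of_apply, Matrix.cons_val', Matrix.cons_val_one,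
          Matrix.cons_val_fin_one]
        linear_combination -k1
    · right
      rw [hgA, ← Matrix.neg_mul]
      congr 1
      ext i j
      rw [Matrix.neg_apply]
      fin_cases i <;> fin_cases j
      · simpa using k1
      · simpa using k2
      · simpa using k3
      · simp only [Fin.mk_one, Fin.isValue, Matrix.of_apply, Matrix.cons_val', Matrix.cons_val_one,
          Matrix.cons_val_fin_one]
        linear_combination -k1

/-- PROOF. `sq_comm_or_small`. In the first case: (1) some `h₀ ∈ H` has `a = h₀ ^ 2 ≠ ±1`: `comm_conj`; for `g ∈ H` the element `g a g⁻¹ = (g h₀ g⁻¹) ^ 2` commutes with `a`. (2) `h ^ 2 = ±1` for all `h ∈ H`. If `H ⊆ {1, -1}` its order is at most two. Otherwise let `h₀ ∈ H`, `h₀ ≠ ±1`. By Cayley-Hamilton `h₀² = t h₀ - 1`, `t` the trace;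
if `h₀² = 1` then `t h₀ = 2`: `t ≠ 0` and `h₀` is a scalar, so `±1`, excluded. So `h₀² = -1`, `t h₀ = 0`, `t = 0`. Take `A = h₀` (trace zero, determinant one). For `g ∈ H`: `(g h₀)² = ±1` and `g² = ±1` give `g h₀ = ± h₀⁻¹ g⁻¹ = ± h₀ g` (`h₀⁻¹ = - h₀`, `g⁻¹ = ± g`): `PM A g`. -/
theorem tor_type (hp : 5 ≤ p) (H : Subgroup (SL2 p)) (hH : ¬ p ∣ Nat.card H) :
    Nat.card H ≤ 240 ∨ ∃ A : Matrix (Fin 2) (Fin 2) (ZMod p), A 0 0 + A 1 1 = 0 ∧ A.det ≠ 0 ∧
      ∀ g ∈ H, PM A g := by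
  have hp3 : 3 ≤ p := by omega
  rcases sq_comm_or_small H hH with hc | h240
  swap
  · exact Or.inl h240
  by_cases hex : ∃ h₀ ∈ H, h₀ ^ 2 ≠ 1 ∧ h₀ ^ 2 ≠ -1
  · right
    obtain ⟨h₀, hh, h1, h2⟩ := hex
    obtain ⟨A, hA1, hA2, hA3⟩ := comm_conj hp3 hH (H.pow_mem hh 2) h1 h2
    refine ⟨A, hA1, hA2, fun g hg => hA3 g ?_⟩
    have e1 : g * h₀ ^ 2 * g⁻¹ = (g * h₀ * g⁻¹) ^ 2 := by rw [sq, sq]; group
    rw [e1]
    exact hc h₀ hh _ (H.mul_mem (H.mul_mem hg hh) (H.inv_mem hg))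
  push Not at hex
  by_cases hsm : ∀ h ∈ H, h = 1 ∨ h = -1
  · left
    have h1 : (H : Set (SL2 p)) ⊆ {1, -1} := by
      intro x hx
      rcases hsm x hx with h | h
      · left; exact h
      · right; exact h
    have h2 : Nat.card H ≤ 2 := by
      show (H : Set (SL2 p)).ncard ≤ 2
      refine (Set.ncard_le_ncard h1 (Set.toFinite _)).trans ?_
      exact (Set.ncard_insert_le _ _).trans (by rw [Set.ncard_singleton])
    omega
  push Not at hsm
  obtain ⟨h₀, hh, hn1, hn2⟩ := hsm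
  right
  have hd := K3b_det h₀
  have h2' := K3b_two hp3
  have hsq : h₀ ^ 2 = -1 := by
    by_cases h1 : h₀ ^ 2 = 1
    · exfalso
      rw [sq] at h1
      have c00 := congrArg (fun X : SL2 p => X 0 0) h1
      have c01 := congrArg (fun X : SL2 p => X 0 1) h1
      have c10 := congrArg (fun X : SL2 p => X 1 0) h1
      have c11 := congrArg (fun X : SL2 p => X 1 1) h1
      simp only [K3b_mul, Matrix.SpecialLinearGroup.coe_one, Matrix.one_apply_eq] at c00 c11
      simp only [K3b_mul, Matrix.SpecialLinearGroup.coe_one] at c01 c10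
      rw [Matrix.one_apply_ne (by decide)] at c01 c10
      have ht : h₀ 0 0 * (h₀ 0 0 + h₀ 1 1) = 2 := by linear_combination c00 + hd
      have ht0 : h₀ 0 0 + h₀ 1 1 ≠ 0 := by
        intro h0
        rw [h0, mul_zero] at ht
        exact h2' ht.symm
      have z1 : h₀ 0 1 = 0 := by
        have : h₀ 0 1 * (h₀ 0 0 + h₀ 1 1) = 0 := by linear_combination c01
        exact (mul_eq_zero.1 this).resolve_right ht0
      have z2 : h₀ 1 0 = 0 := by
        have : h₀ 1 0 * (h₀ 0 0 + h₀ 1 1) = 0 := by linear_combination c10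
        exact (mul_eq_zero.1 this).resolve_right ht0
      rw [z1, z2] at c00 hd
      have z3 : (h₀ 0 0 - 1) * (h₀ 0 0 + 1) = 0 := by linear_combination c00
      rcases mul_eq_zero.1 z3 with h | h
      · apply hn1
        have e0 : h₀ 0 0 = 1 := sub_eq_zero.1 h
        rw [e0] at hd
        refine K3b_ext ?_ ?_ ?_ ?_
        · rw [e0]; simp
        · rw [z1]; simp
        · rw [z2]; simp
        · rw [Matrix.SpecialLinearGroup.coe_one, Matrix.one_apply_eq]
          linear_combination hd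
      · apply hn2
        have e0 : h₀ 0 0 = -1 := eq_neg_of_add_eq_zero_left h
        rw [e0] at hd
        refine K3b_ext ?_ ?_ ?_ ?_
        · rw [e0]; simp
        · rw [z1]; simp
        · rw [z2]; simp
        · rw [Matrix.SpecialLinearGroup.coe_neg, Matrix.SpecialLinearGroup.coe_one,
            Matrix.neg_apply, Matrix.one_apply_eq]
          linear_combination -hd
    · exact hex h₀ hh h1
  have htr : h₀ 0 0 + h₀ 1 1 = 0 := by
    by_contra ht0
    have h1 := hsq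
    rw [sq] at h1
    have c00 := congrArg (fun X : SL2 p => X 0 0) h1
    have c01 := congrArg (fun X : SL2 p => X 0 1) h1
    simp only [K3b_mul, Matrix.SpecialLinearGroup.coe_neg, Matrix.SpecialLinearGroup.coe_one,
      Matrix.neg_apply, Matrix.one_apply_eq] at c00
    simp only [K3b_mul, Matrix.SpecialLinearGroup.coe_neg, Matrix.SpecialLinearGroup.coe_one,
      Matrix.neg_apply] at c01
    rw [Matrix.one_apply_ne (by decide), neg_zero] at c01
    have z0 : h₀ 0 0 = 0 := by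
      have : h₀ 0 0 * (h₀ 0 0 + h₀ 1 1) = 0 := by linear_combination c00 + hd
      exact (mul_eq_zero.1 this).resolve_right ht0
    have z1 : h₀ 0 1 = 0 := by
      have : h₀ 0 1 * (h₀ 0 0 + h₀ 1 1) = 0 := by linear_combination c01
      exact (mul_eq_zero.1 this).resolve_right ht0
    rw [z0, z1] at hd
    simp at hd
  refine ⟨(h₀ : Matrix (Fin 2) (Fin 2) (ZMod p)), htr, ?_, ?_⟩
  · rw [h₀.det_coe]
    exact one_ne_zero
  · intro g hg
    have hpm : ∀ x ∈ H, x * x = 1 ∨ x * x = -1 := by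
      intro x hx
      by_cases h1 : x ^ 2 = 1
      · left; rw [← sq]; exact h1
      · right; rw [← sq]; exact hex x hx h1
    have hsq' : h₀ * h₀ = -1 := by rw [← sq]; exact hsq
    have hg2 := hpm g hg
    have hgh := hpm (g * h₀) (H.mul_mem hg hh)
    have main : g * h₀ = h₀ * g ∨ g * h₀ = -(h₀ * g) := by
      have e1 : g * h₀ = ((g * h₀) * (g * h₀)) * (h₀ * h₀)⁻¹ * h₀ * (g * g)⁻¹ * g := by group
      rcases hg2 with h3 | h3 <;> rcases hgh with h4 | h4 <;> rw [h3, h4, hsq'] at e1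
      · right
        rw [e1]
        simp
      · left
        rw [e1]
        simp
      · left
        rw [e1]
        simp
      · right
        rw [e1]
        simp
    rcases main with h | h
    · left
      rw [← Matrix.SpecialLinearGroup.coe_mul, ← Matrix.SpecialLinearGroup.coe_mul, h]
    · right
      rw [← Matrix.SpecialLinearGroup.coe_mul, ← Matrix.SpecialLinearGroup.coe_mul, h,
        Matrix.SpecialLinearGroup.coe_neg]

end Pool.Agent.Lib.MP_3bb35d_al.LE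
end

section

/-!
# Push forward of an almost invariant function to a `G`-set
-/

set_option autoImplicit false

open Finset

namespace Pool.Agent.Lib.MP_3bb35d_al.LE

open Pool.Agent.Lib.MP_3bb35d_al.UE

private theorem S2_fib {G X : Type*} [Fintype G] [Fintype X] [DecidableEq X] (π : G → X)
    (p : G → ℝ) : ∑ x, ∑ g, (if π g = x then p g else 0) = ∑ g, p g := by
  rw [Finset.sum_comm]
  refine Finset.sum_congr rfl fun g _ => ?_
  rw [Finset.sum_ite_eq]
  simp

private theorem S2_shift {G X : Type*} [Group G] [Fintype G] [MulAction G X] [DecidableEq X]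
    (x₀ : X) (p : G → ℝ) (s : G) (x : X) :
    ∑ g : G, (if g • x₀ = s⁻¹ • x then p g else 0) =
      ∑ g : G, (if g • x₀ = x then p (s⁻¹ * g) else 0) := by
  refine Fintype.sum_equiv (Equiv.mulLeft s) _ _ fun g => ?_
  have h1 : (Equiv.mulLeft s g • x₀ = x) ↔ (g • x₀ = s⁻¹ • x) := by
    rw [Equiv.coe_mulLeft, mul_smul]
    constructor
    · intro h
      rw [← h, inv_smul_smul]
    · intro h
      rw [h, smul_inv_smul]
  have h2 : s⁻¹ * (Equiv.mulLeft s g) = g := by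
    rw [Equiv.coe_mulLeft, inv_mul_cancel_left]
  rw [h2]
  by_cases h : g • x₀ = s⁻¹ • x
  · rw [if_pos h, if_pos (h1.2 h)]
  · rw [if_neg h, if_neg (fun h' => h (h1.1 h'))]

private theorem S2_l1 {G X : Type*} [Fintype G] [Fintype X] [DecidableEq X] (π : G → X)
    (p q : G → ℝ) :
    ∑ x, |(∑ g, (if π g = x then p g else 0)) - ∑ g, (if π g = x then q g else 0)| ≤
      ∑ g, |p g - q g| := by
  rw [← S2_fib π (fun g => |p g - q g|)]
  refine Finset.sum_le_sum fun x _ => ?_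
  rw [← Finset.sum_sub_distrib]
  refine (Finset.abs_sum_le_sum_abs _ _).trans (Finset.sum_le_sum fun g _ => ?_)
  by_cases h : π g = x
  · simp only [if_pos h, le_refl]
  · simp only [if_neg h, sub_zero, abs_zero, le_refl]

private theorem S2_cs {G : Type*} [Group G] [Fintype G] {u : G → ℝ} (hb : 0 < nx u) (s : G) :
    ∑ g, |u (s⁻¹ * g) ^ 2 / nx u - u g ^ 2 / nx u| ≤
      2 * √(nx (fun g => u (s⁻¹ * g) - u g) / nx u) := by
  have h1 : ∀ g, |u (s⁻¹ * g) ^ 2 / nx u - u g ^ 2 / nx u| =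
      |u (s⁻¹ * g) - u g| * |u (s⁻¹ * g) + u g| / nx u := by
    intro g
    rw [← abs_mul, ← sub_div, abs_div, abs_of_pos hb]
    congr 2
    ring
  simp only [h1]
  rw [← Finset.sum_div]
  have h2 := Real.sum_mul_le_sqrt_mul_sqrt Finset.univ (fun g => |u (s⁻¹ * g) - u g|)
    (fun g => |u (s⁻¹ * g) + u g|)
  simp only [sq_abs] at h2
  have h3 : ∑ g, (u (s⁻¹ * g) + u g) ^ 2 ≤ 4 * nx u := by
    have h4 : ∑ g, u (s⁻¹ * g) ^ 2 = nx u := by
      unfold nx
      exact Fintype.sum_equiv (Equiv.mulLeft s⁻¹) _ _ fun g => by rw [Equiv.coe_mulLeft]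
    have h5 : ∑ g, (u (s⁻¹ * g) + u g) ^ 2 ≤ ∑ g, (2 * u (s⁻¹ * g) ^ 2 + 2 * u g ^ 2) := by
      refine Finset.sum_le_sum fun g _ => ?_
      nlinarith [sq_nonneg (u (s⁻¹ * g) - u g)]
    rw [Finset.sum_add_distrib, ← Finset.mul_sum, ← Finset.mul_sum, h4] at h5
    have h6 : ∑ g, u g ^ 2 = nx u := rfl
    rw [h6] at h5
    linarith
  have h7 : √(∑ g, (u (s⁻¹ * g) + u g) ^ 2) ≤ 2 * √(nx u) := by
    refine (Real.sqrt_le_sqrt h3).trans (le_of_eq ?_)
    rw [Real.sqrt_mul (by norm_num : (0 : ℝ) ≤ 4)]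
    congr 1
    rw [show (4 : ℝ) = 2 ^ 2 by norm_num, Real.sqrt_sq (by norm_num)]
  have hD : ∑ g, (u (s⁻¹ * g) - u g) ^ 2 = nx (fun g => u (s⁻¹ * g) - u g) := rfl
  rw [hD] at h2
  rw [Real.sqrt_div' _ hb.le]
  have hs : 0 < √(nx u) := Real.sqrt_pos.2 hb
  have h8 : ∑ g, |u (s⁻¹ * g) - u g| * |u (s⁻¹ * g) + u g| ≤
      √(nx (fun g => u (s⁻¹ * g) - u g)) * (2 * √(nx u)) :=
    h2.trans (mul_le_mul_of_nonneg_left h7 (Real.sqrt_nonneg _))
  rw [div_le_iff₀ hb]
  refine h8.trans (le_of_eq ?_)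
  have h9 : nx u = √(nx u) * √(nx u) := (Real.mul_self_sqrt hb.le).symm
  field_simp
  rw [Real.sq_sqrt hb.le]

/-- PROOF. `W x = ∑ g, {g | g • x₀ = x}.indicator (fun g => u g ^ 2 / b) g`, `b = nx u`. Nonnegative, with sum `∑ g, u g ^ 2 / b = 1` (every `g` is in exactly one fibre).
(3) `W (s⁻¹ • x) = ∑ (g : g • x₀ = s⁻¹ • x), u g ^ 2 / b = ∑ (g : g • x₀ = x), u (s⁻¹ * g) ^ 2 / b` (substitution `g ↦ s⁻¹ g`), so `∑ x, |W (s⁻¹ • x) - W x| ≤ ∑ g, |u (s⁻¹ g) ^ 2 - u g ^ 2| / b`, and `|a² - c²| = |a - c| |a + c|`, Cauchy-Schwarz: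
`∑ g, |u (s⁻¹ g) - u g| |u (s⁻¹ g) + u g| ≤ √D * √(∑ (u (s⁻¹ g) + u g) ^ 2) ≤ √D * √(4 b)`, `D = nx (fun g => u (s⁻¹ * g) - u g)`; `√D * 2 √b / b = 2 √(D / b)`.
(4) Let `E = {g | b / 4 ≤ u g}`: `|E| ≤ 4 / b` as `∑ u = 1`; `∑ (g ∉ E), u g ^ 2 / b ≤ ∑ g, u g / 4 = 1 / 4`. Let `F` be the image of `E` under `g ↦ g • x₀`: `|F| ≤ 4 / b` and `∑ (x ∈ F), W x ≥ ∑ (g ∈ E), u g ^ 2 / b ≥ 3 / 4`. So
`∑ x, max (W x - t) 0 ≥ ∑ (x ∈ F), (W x - t) ≥ 3 / 4 - t * 4 / b`. -/
theorem push {G X : Type*} [Group G] [Fintype G] [Fintype X] [MulAction G X] (x₀ : X) {u : G → ℝ}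
    (h0 : ∀ g, 0 ≤ u g) (h1 : ∑ g, u g = 1) (hb : 0 < nx u) :
    ∃ W : X → ℝ, (∀ x, 0 ≤ W x) ∧ ∑ x, W x = 1 ∧
      (∀ s : G, ∑ x, |W (s⁻¹ • x) - W x| ≤ 2 * √(nx (fun g => u (s⁻¹ * g) - u g) / nx u)) ∧
      ∀ t : ℝ, 0 ≤ t → 3 / 4 - t * 4 / nx u ≤ ∑ x, max (W x - t) 0 := by
  classical
  have hp0 : ∀ g, 0 ≤ u g ^ 2 / nx u := fun g => div_nonneg (sq_nonneg _) hb.le
  have hsum : ∑ g, u g ^ 2 / nx u = 1 := by
    rw [← Finset.sum_div]
    exact div_self hb.ne'
  refine ⟨fun x => ∑ g : G, (if g • x₀ = x then u g ^ 2 / nx u else 0), ?_, ?_, ?_, ?_⟩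
  · intro x
    refine Finset.sum_nonneg fun g _ => ?_
    by_cases h : g • x₀ = x
    · rw [if_pos h]
      exact hp0 g
    · rw [if_neg h]
  · rw [S2_fib (fun g : G => g • x₀) (fun g => u g ^ 2 / nx u), hsum]
  · intro s
    refine le_trans ?_ (S2_cs hb s)
    have h := S2_l1 (fun g : G => g • x₀) (fun g => u (s⁻¹ * g) ^ 2 / nx u)
      (fun g => u g ^ 2 / nx u)
    refine le_trans (le_of_eq (Finset.sum_congr rfl fun x _ => ?_)) h
    have h3 := S2_shift x₀ (fun g => u g ^ 2 / nx u) s x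
    beta_reduce at h3 ⊢
    rw [h3]
  · intro t ht
    set W : X → ℝ := fun x => ∑ g : G, (if g • x₀ = x then u g ^ 2 / nx u else 0) with hW
    set E : Finset G := Finset.univ.filter (fun g => nx u / 4 ≤ u g) with hE
    set F : Finset X := E.image (fun g => g • x₀) with hF
    have hEc : (E.card : ℝ) ≤ 4 / nx u := by
      have h2 : (E.card : ℝ) * (nx u / 4) ≤ ∑ g ∈ E, u g := by
        rw [← nsmul_eq_mul, ← Finset.sum_const]
        refine Finset.sum_le_sum fun g hg => ?_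
        exact (Finset.mem_filter.1 hg).2
      have h3 : ∑ g ∈ E, u g ≤ 1 := by
        rw [← h1]
        exact Finset.sum_le_sum_of_subset_of_nonneg (Finset.subset_univ _) fun g _ _ => h0 g
      rw [le_div_iff₀ hb]
      nlinarith
    have hFc : (F.card : ℝ) ≤ 4 / nx u :=
      le_trans (by exact_mod_cast Finset.card_image_le) hEc
    have hE1 : 3 / 4 ≤ ∑ g ∈ E, u g ^ 2 / nx u := by
      have h2 : ∑ g ∈ E, u g ^ 2 / nx u + ∑ g ∈ Finset.univ.filter (fun g => ¬ nx u / 4 ≤ u g), u g ^ 2 / nx u = 1 := by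
        rw [← hsum]
        exact Finset.sum_filter_add_sum_filter_not Finset.univ (fun g => nx u / 4 ≤ u g) _
      have h3 : ∑ g ∈ Finset.univ.filter (fun g => ¬ nx u / 4 ≤ u g), u g ^ 2 / nx u ≤ 1 / 4 := by
        have h4 : ∑ g ∈ Finset.univ.filter (fun g => ¬ nx u / 4 ≤ u g), u g ^ 2 / nx u ≤
            ∑ g ∈ Finset.univ.filter (fun g => ¬ nx u / 4 ≤ u g), u g * (1 / 4) := by
          refine Finset.sum_le_sum fun g hg => ?_
          have h5 : u g < nx u / 4 := not_le.1 (Finset.mem_filter.1 hg).2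
          rw [div_le_iff₀ hb]
          nlinarith [h0 g]
        have h5 : ∑ g ∈ Finset.univ.filter (fun g => ¬ nx u / 4 ≤ u g), u g * (1 / 4) ≤
            ∑ g, u g * (1 / 4) :=
          Finset.sum_le_sum_of_subset_of_nonneg (Finset.subset_univ _) fun g _ _ =>
            mul_nonneg (h0 g) (by norm_num)
        rw [← Finset.sum_mul Finset.univ, h1] at h5
        linarith
      linarith
    have hWF : ∑ g ∈ E, u g ^ 2 / nx u ≤ ∑ x ∈ F, W x := by
      have h2 : ∑ x ∈ F, W x = ∑ g : G, ∑ x ∈ F, (if g • x₀ = x then u g ^ 2 / nx u else 0) := by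
        rw [hW]
        exact Finset.sum_comm
      rw [h2]
      have h3 : ∑ g ∈ E, u g ^ 2 / nx u = ∑ g ∈ E, ∑ x ∈ F, (if g • x₀ = x then u g ^ 2 / nx u else 0) := by
        refine Finset.sum_congr rfl fun g hg => ?_
        rw [Finset.sum_ite_eq, if_pos (Finset.mem_image_of_mem _ hg)]
      rw [h3]
      refine Finset.sum_le_sum_of_subset_of_nonneg (Finset.subset_univ _) fun g _ _ => ?_
      refine Finset.sum_nonneg fun x _ => ?_
      by_cases h : g • x₀ = x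
      · rw [if_pos h]
        exact hp0 g
      · rw [if_neg h]
    have h6 : ∑ x ∈ F, (W x - t) ≤ ∑ x, max (W x - t) 0 := by
      refine le_trans (Finset.sum_le_sum fun x _ => le_max_left (W x - t) 0) ?_
      exact Finset.sum_le_sum_of_subset_of_nonneg (Finset.subset_univ _) fun x _ _ =>
        le_max_right _ _
    rw [Finset.sum_sub_distrib, Finset.sum_const, nsmul_eq_mul] at h6
    have h7 : (F.card : ℝ) * t ≤ t * 4 / nx u := by
      have h8 : (F.card : ℝ) * t ≤ 4 / nx u * t := mul_le_mul_of_nonneg_right hFc ht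
      refine h8.trans (le_of_eq ?_)
      ring
    linarith

end Pool.Agent.Lib.MP_3bb35d_al.LE
end

section

/-!
# Expansion of tiny sets gives small return probabilities
-/

set_option autoImplicit false

open Finset

namespace Pool.Agent.Lib.MP_3bb35d_al.LE

open Pool.Agent.Lib.MP_3bb35d_al.UE

/-- PROOF. Suppose `a < nsq (cpow μ r)`. `cpow μ r = act (cpow μ r) (dl 1)` (left multiplication; `conv ν (dl 1) = ν`) and `nsq = nx`. `down` (`X = G`, `u₀ = dl 1`): `u ≥ 0`, `∑ u = 1`, `a ≤ b = nx u`, `(1 - θ) b ≤ a ^ (1 / 2 ^ r) * b ≤ nx (act μ u)`. `defect`: `∑ g, conv μ μ g * nx (trl g u - u) ≤ 2 θ b`,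
so `nx (trl s u - u) / b ≤ 2 θ / η` for `s ∈ T`. `push` for a point `x₀` of `X`: `W`. Let `f x = max (W x - t) 0`. Its support `{x | t < W x}` has at most `1 / t` points (`∑ W = 1`), so by `hA` and `coarea` (`ι = T`, `σ s x = s • x`; the set of pairs is the same up to the subtype):
`δ * ∑ f ≤ ∑ (s ∈ T), ∑ x, max (f x - f (s • x)) 0 ≤ ∑ (s ∈ T), ∑ x, |W x - W (s • x)|` (`max (max (a - t) 0 - max (b - t) 0) 0 ≤ |a - b|`) and `∑ x, |W x - W (s • x)| = ∑ x, |W (s⁻¹ • x) - W x| ≤ 2 √(2 θ / η)` (substitution `x = s⁻¹ • y`).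
`∑ f ≥ 3/4 - 4 t / b ≥ 3/4 - 4 t / a ≥ 1/2`. So `δ / 2 ≤ |T| * 2 √(2 θ / η) ≤ 2 τ √(2 θ / η)`, which contradicts `h4` (square). -/
theorem tiny_core {G X : Type*} [Group G] [Fintype G] [Fintype X] [Nonempty X] [MulAction G X]
    {μ : G → ℝ} (h : SP μ) {T : Finset G} {τ : ℕ} (hT : T.card ≤ τ) {η θ a t δ : ℝ} (hη : 0 < η)
    (hT₂ : ∀ s ∈ T, η ≤ conv μ μ s) (hθ : 0 ≤ θ) (ha : 0 < a) (ht : 0 < t) (hta : 16 * t ≤ a)
    (hδ : 0 < δ)
    (hA : ∀ A : Finset X, (A.card : ℝ) ≤ 1 / t →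
      δ * (A.card : ℝ) ≤ ({q : X × G | q.1 ∈ A ∧ q.2 ∈ T ∧ q.2 • q.1 ∉ A}.ncard : ℝ))
    (r : ℕ) (h3 : 1 - θ ≤ a ^ ((1 : ℝ) / 2 ^ r)) (h4 : 32 * (τ : ℝ) ^ 2 * θ < η * δ ^ 2) :
    nsq (cpow μ r) ≤ a := by
  classical
  by_contra hcon
  push Not at hcon
  -- the delta function
  have hdl : ∀ x : G, dl (1 : G) x = if x = 1 then 1 else 0 := by
    intro x
    unfold dl
    by_cases hx : x = 1
    · rw [Set.indicator_of_mem (by simp [hx]), if_pos hx]
    · rw [Set.indicator_of_notMem (by simp [hx]), if_neg hx]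
  have hact : ∀ x : G, act (cpow μ r) (dl (1 : G)) x = cpow μ r x := by
    intro x
    unfold act
    rw [Finset.sum_eq_single x]
    · rw [hdl, if_pos (by simp), mul_one]
    · intro g _ hg
      rw [hdl, if_neg, mul_zero]
      intro h1
      rw [smul_eq_mul, inv_mul_eq_one] at h1
      exact hg h1
    · intro hx
      exact absurd (Finset.mem_univ x) hx
  have hnx : nx (act (cpow μ r) (dl (1 : G))) = nsq (cpow μ r) := by
    unfold nx nsq
    exact Finset.sum_congr rfl fun x _ => by rw [hact]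
  have h0 : ∀ x : G, 0 ≤ dl (1 : G) x := by
    intro x
    rw [hdl]
    split_ifs <;> norm_num
  have h1 : ∑ x : G, dl (1 : G) x = 1 := by
    simp only [hdl]
    rw [Finset.sum_ite_eq' Finset.univ (1 : G)]
    simp
  have h2 : nx (dl (1 : G)) ≤ 1 := by
    unfold nx
    have : ∑ x : G, dl (1 : G) x ^ 2 = 1 := by
      refine (Finset.sum_congr rfl fun x _ => ?_).trans h1
      rw [hdl]
      split_ifs <;> norm_num
    rw [this]
  obtain ⟨u, hu0, hu1, hau, hub, hdu⟩ := down h h0 h1 h2 ha r (by rw [hnx]; exact hcon.le)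
  have hb : 0 < nx u := lt_of_lt_of_le ha hau
  have hcn : ∀ g, 0 ≤ conv μ μ g := by
    intro g
    unfold conv
    exact Finset.sum_nonneg fun k _ => mul_nonneg (h.nonneg _) (h.nonneg _)
  have hdef := defect h u
  have h5 : (1 - θ) * nx u ≤ nx (act μ u) :=
    (mul_le_mul_of_nonneg_right h3 hb.le).trans hdu
  have h6 : ∑ g, conv μ μ g * nx (fun x => trl g u x - u x) ≤ 2 * θ * nx u := by
    nlinarith
  have hnn : ∀ w : G → ℝ, 0 ≤ nx w := fun w => Finset.sum_nonneg fun x _ => sq_nonneg _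
  have h7 : ∀ s ∈ T, nx (fun g => u (s⁻¹ * g) - u g) / nx u ≤ 2 * θ / η := by
    intro s hs
    have e1 : conv μ μ s * nx (fun x => trl s u x - u x) ≤ 2 * θ * nx u :=
      (Finset.single_le_sum (f := fun g => conv μ μ g * nx (fun x => trl g u x - u x))
        (fun g _ => mul_nonneg (hcn g) (hnn _)) (Finset.mem_univ s)).trans h6
    have e2 : η * nx (fun x => trl s u x - u x) ≤ 2 * θ * nx u :=
      (mul_le_mul_of_nonneg_right (hT₂ s hs) (hnn _)).trans e1
    have e3 : nx (fun g => u (s⁻¹ * g) - u g) = nx (fun x => trl s u x - u x) := rfl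
    rw [e3, div_le_div_iff₀ hb hη]
    linarith
  obtain ⟨x₀⟩ := (inferInstance : Nonempty X)
  obtain ⟨W, hW0, hW1, hW3, hW4⟩ := push x₀ hu0 hu1 hb
  have hco := coarea (ι := {s // s ∈ T}) (fun s x => (s : G) • x)
    (f := fun x => max (W x - t) 0) (fun x => le_max_right _ _) (δ := δ) (by
      intro A hAf
      have hAW : ∀ x ∈ A, t < W x := by
        intro x hx
        have := hAf x hx
        rcases lt_max_iff.1 this with h | h
        · linarith
        · exact absurd h (lt_irrefl _)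
      have hcard : (A.card : ℝ) ≤ 1 / t := by
        rw [le_div_iff₀ ht]
        calc (A.card : ℝ) * t = ∑ _x ∈ A, t := by rw [Finset.sum_const, nsmul_eq_mul]
          _ ≤ ∑ x ∈ A, W x := Finset.sum_le_sum fun x hx => (hAW x hx).le
          _ ≤ ∑ x, W x := Finset.sum_le_sum_of_subset_of_nonneg (Finset.subset_univ _)
              fun x _ _ => hW0 x
          _ = 1 := hW1
      have e1 := hA A hcard
      have e2 : {q : X × G | q.1 ∈ A ∧ q.2 ∈ T ∧ q.2 • q.1 ∉ A} =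
          (fun q : X × {s // s ∈ T} => (q.1, (q.2 : G))) ''
            {q : X × {s // s ∈ T} | q.1 ∈ A ∧ (q.2 : G) • q.1 ∉ A} := by
        ext ⟨x, g⟩
        constructor
        · rintro ⟨hx, hg, hgx⟩
          exact ⟨(x, ⟨g, hg⟩), ⟨hx, hgx⟩, rfl⟩
        · rintro ⟨⟨y, s⟩, ⟨hy, hs⟩, heq⟩
          simp only [Prod.mk.injEq] at heq
          obtain ⟨rfl, rfl⟩ := heq
          exact ⟨hy, s.2, hs⟩
      rw [e2, Set.ncard_image_of_injective _ (by
        rintro ⟨x, s⟩ ⟨y, s'⟩ heq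
        simp only [Prod.mk.injEq] at heq
        exact Prod.ext heq.1 (Subtype.ext heq.2))] at e1
      exact e1)
  set ρ : ℝ := 2 * √(2 * θ / η) with hρ
  have h8 : ∀ s ∈ T, ∑ x, max (max (W x - t) 0 - max (W (s • x) - t) 0) 0 ≤ ρ := by
    intro s hs
    have e1 : ∀ x, max (max (W x - t) 0 - max (W (s • x) - t) 0) 0 ≤ |W x - W (s • x)| := by
      intro x
      have := abs_max_sub_max_le_abs (W x - t) (W (s • x) - t) 0
      apply max_le _ (abs_nonneg _)
      refine (le_abs_self _).trans (this.trans ?_)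
      rw [show W x - t - (W (s • x) - t) = W x - W (s • x) by ring]
    have e2 : ∑ x, |W x - W (s • x)| = ∑ x, |W (s⁻¹ • x) - W x| := by
      rw [← Equiv.sum_comp (MulAction.toPerm s) (fun x => |W (s⁻¹ • x) - W x|)]
      refine Finset.sum_congr rfl fun x _ => ?_
      rw [MulAction.toPerm_apply, inv_smul_smul]
    calc ∑ x, max (max (W x - t) 0 - max (W (s • x) - t) 0) 0 ≤ ∑ x, |W x - W (s • x)| :=
          Finset.sum_le_sum fun x _ => e1 x
      _ = ∑ x, |W (s⁻¹ • x) - W x| := e2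
      _ ≤ 2 * √(nx (fun g => u (s⁻¹ * g) - u g) / nx u) := hW3 s
      _ ≤ ρ := by
        rw [hρ]
        exact mul_le_mul_of_nonneg_left (Real.sqrt_le_sqrt (h7 s hs)) (by norm_num)
  have hρ0 : 0 ≤ ρ := by positivity
  have h9 : ∑ s : {s // s ∈ T}, ∑ x, max (max (W x - t) 0 - max (W ((s : G) • x) - t) 0) 0 ≤ τ * ρ := by
    calc ∑ s : {s // s ∈ T}, ∑ x, max (max (W x - t) 0 - max (W ((s : G) • x) - t) 0) 0 ≤
        ∑ _s : {s // s ∈ T}, ρ := Finset.sum_le_sum fun s _ => h8 s s.2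
      _ = T.card * ρ := by
        rw [Finset.sum_const, nsmul_eq_mul, Finset.card_univ, Fintype.card_coe]
      _ ≤ τ * ρ := by
        apply mul_le_mul_of_nonneg_right _ hρ0
        exact_mod_cast hT
  have h10 : 1 / 2 ≤ ∑ x, max (W x - t) 0 := by
    have e1 := hW4 t ht.le
    have e2 : t * 4 / nx u ≤ 1 / 4 := by
      rw [div_le_iff₀ hb]
      nlinarith
    linarith
  have h11 : δ / 2 ≤ τ * ρ := by
    have e1 : δ * (1 / 2) ≤ δ * ∑ x, max (W x - t) 0 := mul_le_mul_of_nonneg_left h10 hδ.le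
    linarith [hco]
  have hτ : (0 : ℝ) ≤ τ := Nat.cast_nonneg τ
  have h12 : (δ / 2) ^ 2 ≤ (τ * ρ) ^ 2 := pow_le_pow_left₀ (by linarith) h11 2
  have h13 : (τ * ρ) ^ 2 = 8 * (τ : ℝ) ^ 2 * θ / η := by
    rw [hρ]
    have : √(2 * θ / η) ^ 2 = 2 * θ / η := Real.sq_sqrt (by positivity)
    calc ((τ : ℝ) * (2 * √(2 * θ / η))) ^ 2 = 4 * (τ : ℝ) ^ 2 * √(2 * θ / η) ^ 2 := by ring
      _ = 4 * (τ : ℝ) ^ 2 * (2 * θ / η) := by rw [this]
      _ = 8 * (τ : ℝ) ^ 2 * θ / η := by ring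
  rw [h13, le_div_iff₀ hη] at h12
  nlinarith

/-- PROOF (numerical). `δ' = min (δ / 2) (η δ ^ 2 / (64 (τ + 1) ^ 2))`, `θ = δ'`, `a = p ^ (-δ')`, `t = p ^ (-δ)`, so `1 / t = p ^ δ`, `16 t ≤ a` for `p ≥ p0` (`p ^ (δ - δ') ≥ p ^ (δ / 2) ≥ 16`). `a ^ (1 / 2 ^ r) = exp (- δ' log p / 2 ^ r) ≥ 1 - δ' log p / 2 ^ r ≥ 1 - δ'` as `2 ^ r ≥ log p`. `tiny_core`. -/
theorem tiny (η δ : ℝ) (τ : ℕ) (hη : 0 < η) (hδ : 0 < δ) :
    ∃ δ' : ℝ, 0 < δ' ∧ ∃ p0 : ℕ, ∀ p : ℕ, p0 ≤ p →
      ∀ (G X : Type) [Group G] [Fintype G] [Fintype X] [Nonempty X] [MulAction G X]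
      (T : Finset G), T.card ≤ τ →
      (∀ A : Finset X, (A.card : ℝ) ≤ (p : ℝ) ^ δ →
        δ * (A.card : ℝ) ≤ ({q : X × G | q.1 ∈ A ∧ q.2 ∈ T ∧ q.2 • q.1 ∉ A}.ncard : ℝ)) →
      ∀ μ : G → ℝ, SP μ → (∀ s ∈ T, η ≤ conv μ μ s) →
      ∀ r : ℕ, Real.log p ≤ 2 ^ r → nsq (cpow μ r) ≤ (p : ℝ) ^ (-δ') := by
  have hτ1 : (0 : ℝ) < (τ : ℝ) + 1 := by positivity
  set δ' : ℝ := min (δ / 2) (η * δ ^ 2 / (64 * ((τ : ℝ) + 1) ^ 2)) with hδ'
  have hδ'0 : 0 < δ' := lt_min (by linarith) (by positivity)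
  have hδ'1 : δ' ≤ δ / 2 := min_le_left _ _
  have hδ'2 : δ' ≤ η * δ ^ 2 / (64 * ((τ : ℝ) + 1) ^ 2) := min_le_right _ _
  refine ⟨δ', hδ'0, max 2 ⌈(16 : ℝ) ^ (2 / δ)⌉₊, ?_⟩
  intro p hp G X _ _ _ _ _ T hT hA μ h hT₂ r hr
  have hp2 : (2 : ℝ) ≤ p := by exact_mod_cast (le_max_left _ _).trans hp
  have hp0 : (0 : ℝ) < p := by linarith
  have hp16 : (16 : ℝ) ^ (2 / δ) ≤ p :=
    (Nat.le_ceil _).trans (by exact_mod_cast (le_max_right _ _).trans hp)
  have h16 : (16 : ℝ) ≤ (p : ℝ) ^ (δ / 2) := by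
    have e1 : ((16 : ℝ) ^ (2 / δ)) ^ (δ / 2) ≤ (p : ℝ) ^ (δ / 2) :=
      Real.rpow_le_rpow (by positivity) hp16 (by linarith)
    rw [← Real.rpow_mul (by norm_num)] at e1
    have e2 : 2 / δ * (δ / 2) = 1 := by field_simp
    rw [e2, Real.rpow_one] at e1
    exact e1
  have hlp : 0 ≤ Real.log p := Real.log_nonneg (by linarith)
  have hta : 16 * (p : ℝ) ^ (-δ) ≤ (p : ℝ) ^ (-δ') := by
    have e1 : (p : ℝ) ^ (δ / 2) * (p : ℝ) ^ (-δ) ≤ (p : ℝ) ^ (-δ') := by
      rw [← Real.rpow_add hp0]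
      apply Real.rpow_le_rpow_of_exponent_le (by linarith)
      linarith
    exact (mul_le_mul_of_nonneg_right h16 (Real.rpow_nonneg hp0.le _)).trans e1
  have h3 : 1 - δ' ≤ ((p : ℝ) ^ (-δ')) ^ ((1 : ℝ) / 2 ^ r) := by
    rw [← Real.rpow_mul hp0.le, Real.rpow_def_of_pos hp0]
    have e1 := Real.add_one_le_exp (Real.log p * (-δ' * (1 / 2 ^ r)))
    have e2 : Real.log p * (δ' * (1 / 2 ^ r)) ≤ δ' := by
      have e3 : Real.log p * (1 / 2 ^ r) ≤ 1 := by
        rw [mul_one_div, div_le_one (by positivity)]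
        exact hr
      calc Real.log p * (δ' * (1 / 2 ^ r)) = δ' * (Real.log p * (1 / 2 ^ r)) := by ring
        _ ≤ δ' * 1 := mul_le_mul_of_nonneg_left e3 hδ'0.le
        _ = δ' := mul_one _
    have e4 : Real.log p * (-δ' * (1 / 2 ^ r)) = -(Real.log p * (δ' * (1 / 2 ^ r))) := by ring
    rw [e4] at e1 ⊢
    linarith
  have h4 : 32 * (τ : ℝ) ^ 2 * δ' < η * δ ^ 2 := by
    have e0 : 0 < η * δ ^ 2 := by positivity
    have e1 : 32 * (τ : ℝ) ^ 2 * δ' ≤ 32 * ((τ : ℝ) + 1) ^ 2 * (η * δ ^ 2 / (64 * ((τ : ℝ) + 1) ^ 2)) := by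
      apply mul_le_mul _ hδ'2 hδ'0.le (by positivity)
      have : (0 : ℝ) ≤ τ := Nat.cast_nonneg τ
      nlinarith
    have e2 : 32 * ((τ : ℝ) + 1) ^ 2 * (η * δ ^ 2 / (64 * ((τ : ℝ) + 1) ^ 2)) = η * δ ^ 2 / 2 := by
      field_simp
      norm_num
    rw [e2] at e1
    linarith
  refine tiny_core (X := X) h hT hη hT₂ hδ'0.le (Real.rpow_pos_of_pos hp0 _) (Real.rpow_pos_of_pos hp0 (-δ))
    hta hδ ?_ r h3 h4
  intro A hAc
  apply hA A
  rw [Real.rpow_neg hp0.le, one_div, inv_inv] at hAc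
  exact hAc

end Pool.Agent.Lib.MP_3bb35d_al.LE
end
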