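import Mathlib
import Pool.Agent.Lib.MP_3bb35d_al.UE.Gr
import Pool.Agent.Lib.MP_3bb35d_al.UE.P0

section

/-!
# Dependent random choice
-/

set_option autoImplicit false

open scoped Pointwise
open Finset

namespace Pool.Agent.Lib.MP_3bb35d_al.UE

/-- Dependent random choice. PROOF. For `b ∈ A` let `N b = {a ∈ A | H a b}`. `∑ b, #(N b) ≥ #A² / L`, so by Cauchy-Schwarz `∑ b, #(N b)² ≥ #A³ / L²`. Call a pair `(a, a')` bad if
`#A > 16 L² * cod a a'`, `cod a a' = #{b ∈ A | H a b ∧ H a' b}`. `∑ b, #{bad pairs in N b × N b} = ∑ bad pairs, cod ≤ #A² * #A / (16 L²)`. So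
`∑ b, (#(N b)² - 8 #{bad pairs in N b × N b}) ≥ #A³ / (2 L²)` and there is `b` with `#(N b)² ≥ #A² / (2 L²) + 8 #{bad pairs in N b × N b}`. `B' = N b`: `#A ≤ 2 L #B'` (as `√2 ≤ 2`) and at most
`#B'² / 8` bad pairs. `B = {a ∈ B' | #{a' ∈ B' | (a, a') bad} ≤ #B' / 4}`: the complement has at most `#B' / 2` elements. For `a₁, a₂ ∈ B` at least `#B' / 2` elements `a' ∈ B'` are
good for both. -/
theorem drc {α : Type*} [DecidableEq α] (A : Finset α) (hA : A.Nonempty) (H : α → α → Prop)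
    [DecidableRel H] {L : ℝ} (hL : 1 ≤ L)
    (h : (#A : ℝ) ^ 2 ≤ L * #{e ∈ A ×ˢ A | H e.1 e.2}) :
    ∃ B' ⊆ A, ∃ B ⊆ B', (#A : ℝ) ≤ 2 * L * #B' ∧ #B' ≤ 2 * #B ∧
      ∀ a₁ ∈ B, ∀ a₂ ∈ B, #B' ≤ 2 * ({a' ∈ (B' : Set α) |
        (#A : ℝ) ≤ 16 * L ^ 2 * #{b ∈ A | H a₁ b ∧ H a' b} ∧
        (#A : ℝ) ≤ 16 * L ^ 2 * #{b ∈ A | H a₂ b ∧ H a' b}}).ncard := by
  classical
  have hL0 : (0 : ℝ) < L := by linarith
  have hn : (0 : ℝ) < #A := by exact_mod_cast card_pos.2 hA
  set N : α → Finset α := fun b => A.filter (fun a => H a b) with hN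
  set cod : α → α → ℕ := fun a a' => #{b ∈ A | H a b ∧ H a' b} with hcod
  set bad : α → α → Prop := fun a a' => ¬ ((#A : ℝ) ≤ 16 * L ^ 2 * cod a a') with hbad
  have hsumN : (∑ b ∈ A, (#(N b) : ℝ)) = #{e ∈ A ×ˢ A | H e.1 e.2} := by
    have h1 : #{e ∈ A ×ˢ A | H e.1 e.2} = ∑ b ∈ A, #(N b) := by
      rw [card_eq_sum_card_fiberwise (f := fun e : α × α => e.2) (t := A)]
      · refine sum_congr rfl fun b hb => ?_
        apply card_bij (fun e _ => e.1)
        · intro e he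
          simp only [mem_filter, mem_product] at he
          simp only [hN, mem_filter]
          obtain ⟨⟨⟨h1, h2⟩, h3⟩, h4⟩ := he
          subst h4
          exact ⟨h1, h3⟩
        · intro e he f hf hef
          simp only [mem_filter, mem_product] at he hf
          exact Prod.ext hef (he.2.trans hf.2.symm)
        · intro a ha
          simp only [hN, mem_filter] at ha
          refine ⟨(a, b), ?_, rfl⟩
          simp only [mem_filter, mem_product]
          exact ⟨⟨⟨ha.1, hb⟩, ha.2⟩, trivial⟩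
      · intro e he
        exact (mem_product.1 (mem_filter.1 (mem_coe.1 he)).1).2
    rw [h1]
    push_cast
    rfl
  -- number of bad pairs
  set BP : α → ℕ := fun b => #{e ∈ N b ×ˢ N b | bad e.1 e.2} with hBP
  have hbadsum : 16 * L ^ 2 * ∑ b ∈ A, (BP b : ℝ) ≤ (#A : ℝ) ^ 3 := by
    have h1 : ∑ b ∈ A, BP b = ∑ e ∈ (A ×ˢ A) with bad e.1 e.2, cod e.1 e.2 := by
      simp only [hBP, hcod, card_eq_sum_ones, sum_filter]
      simp only [hN, sum_filter, sum_product]
      rw [sum_comm]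
      refine sum_congr rfl fun a _ => ?_
      have e1 : ∀ x ∈ A, (if H a x then ∑ a₁ ∈ A, (if H a₁ x then (if bad a a₁ then 1 else 0) else 0) else 0)
          = ∑ a₁ ∈ A, (if H a x ∧ H a₁ x ∧ bad a a₁ then 1 else 0) := by
        intro x _
        by_cases h1 : H a x
        · rw [if_pos h1]
          refine sum_congr rfl fun a₁ _ => ?_
          by_cases h2 : H a₁ x <;> by_cases h3 : bad a a₁ <;> simp [h1, h2, h3]
        · rw [if_neg h1, eq_comm]
          exact sum_eq_zero fun a₁ _ => by simp [h1]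
      have e2 : ∀ x ∈ A, (if bad a x then ∑ x₁ ∈ A, (if H a x₁ ∧ H x x₁ then 1 else 0) else 0)
          = ∑ x₁ ∈ A, (if H a x₁ ∧ H x x₁ ∧ bad a x then 1 else 0) := by
        intro x _
        by_cases h1 : bad a x
        · rw [if_pos h1]
          refine sum_congr rfl fun a₁ _ => ?_
          simp [h1]
        · rw [if_neg h1, eq_comm]
          exact sum_eq_zero fun a₁ _ => by simp [h1]
      rw [sum_congr rfl e1, sum_congr rfl e2, sum_comm]
    have h2 : 16 * L ^ 2 * ∑ b ∈ A, (BP b : ℝ)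
        = ∑ e ∈ (A ×ˢ A) with bad e.1 e.2, 16 * L ^ 2 * (cod e.1 e.2 : ℝ) := by
      rw [← Nat.cast_sum, h1, Nat.cast_sum, mul_sum]
    rw [h2]
    calc ∑ e ∈ (A ×ˢ A) with bad e.1 e.2, 16 * L ^ 2 * (cod e.1 e.2 : ℝ)
        ≤ ∑ e ∈ (A ×ˢ A) with bad e.1 e.2, (#A : ℝ) := by
          refine sum_le_sum fun e he => ?_
          have := (mem_filter.1 he).2
          exact (not_le.1 this).le
      _ = (#{e ∈ A ×ˢ A | bad e.1 e.2} : ℝ) * #A := by rw [sum_const, nsmul_eq_mul]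
      _ ≤ ((#A : ℝ) * #A) * #A := by
          gcongr
          rw [← Nat.cast_mul, ← card_product]
          exact_mod_cast card_filter_le _ _
      _ = (#A : ℝ) ^ 3 := by ring
  -- choice of `b`
  have hchoice : ∃ b ∈ A, (#A : ℝ) ^ 2 + 16 * L ^ 2 * BP b ≤ 2 * L ^ 2 * (#(N b) : ℝ) ^ 2 := by
    by_contra hcon
    push Not at hcon
    have h1 : ∑ b ∈ A, 2 * L ^ 2 * (#(N b) : ℝ) ^ 2 < ∑ b ∈ A, ((#A : ℝ) ^ 2 + 16 * L ^ 2 * BP b) :=
      sum_lt_sum_of_nonempty hA fun b hb => hcon b hb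
    rw [sum_add_distrib, sum_const, nsmul_eq_mul, ← mul_sum, ← mul_sum] at h1
    have h2 : (∑ b ∈ A, (#(N b) : ℝ)) ^ 2 ≤ #A * ∑ b ∈ A, (#(N b) : ℝ) ^ 2 :=
      sq_sum_le_card_mul_sum_sq
    rw [hsumN] at h2
    have h3 : ((#A : ℝ) ^ 2) ^ 2 ≤ (L * #{e ∈ A ×ˢ A | H e.1 e.2}) ^ 2 := by
      gcongr
    have h4 : (#A : ℝ) * (#A : ℝ) ^ 3 ≤ #A * (L ^ 2 * ∑ b ∈ A, (#(N b) : ℝ) ^ 2) := by
      calc (#A : ℝ) * (#A : ℝ) ^ 3 = ((#A : ℝ) ^ 2) ^ 2 := by ring
        _ ≤ (L * #{e ∈ A ×ˢ A | H e.1 e.2}) ^ 2 := h3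
        _ = L ^ 2 * (#{e ∈ A ×ˢ A | H e.1 e.2} : ℝ) ^ 2 := by ring
        _ ≤ L ^ 2 * (#A * ∑ b ∈ A, (#(N b) : ℝ) ^ 2) := by gcongr
        _ = _ := by ring
    have h5 := le_of_mul_le_mul_left h4 hn
    nlinarith
  obtain ⟨b, hb, hbb⟩ := hchoice
  have hB'pos : 0 ≤ (BP b : ℝ) := Nat.cast_nonneg _
  refine ⟨N b, filter_subset _ _, (N b).filter (fun a => 4 * #((N b).filter (fun a' => bad a a')) ≤ #(N b)),
    filter_subset _ _, ?_, ?_, ?_⟩
  · have h1 : (#A : ℝ) ^ 2 ≤ (2 * L * #(N b)) ^ 2 := by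
      have : 0 ≤ L ^ 2 * (#(N b) : ℝ) ^ 2 := by positivity
      nlinarith [mul_nonneg (sq_nonneg L) hB'pos]
    have h2 : (0 : ℝ) ≤ 2 * L * #(N b) := by positivity
    exact le_of_sq_le_sq h1 h2
  · -- the complement
    have h1 : 8 * (BP b : ℝ) ≤ (#(N b) : ℝ) ^ 2 := by
      have h2 : 2 * L ^ 2 * (8 * (BP b : ℝ)) ≤ 2 * L ^ 2 * (#(N b) : ℝ) ^ 2 := by nlinarith [sq_nonneg (#A : ℝ)]
      exact le_of_mul_le_mul_left h2 (by positivity)
    have h1' : 8 * BP b ≤ #(N b) ^ 2 := by exact_mod_cast h1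
    have h3 : BP b = ∑ a ∈ N b, #((N b).filter (fun a' => bad a a')) := by
      simp only [hBP, card_eq_sum_ones, sum_filter, sum_product]
    set C := (N b).filter (fun a => ¬ (4 * #((N b).filter (fun a' => bad a a')) ≤ #(N b))) with hC
    have h4 : #(N b) * #C ≤ 4 * BP b := by
      rw [h3, mul_sum]
      calc #(N b) * #C = ∑ a ∈ C, #(N b) := by rw [sum_const, smul_eq_mul, mul_comm]
        _ ≤ ∑ a ∈ C, 4 * #((N b).filter (fun a' => bad a a')) := by
          refine sum_le_sum fun a ha => ?_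
          have := (mem_filter.1 ha).2
          exact (not_le.1 this).le
        _ ≤ ∑ a ∈ N b, 4 * #((N b).filter (fun a' => bad a a')) :=
          sum_le_sum_of_subset (filter_subset _ _)
    have h5 : #((N b).filter (fun a => 4 * #((N b).filter (fun a' => bad a a')) ≤ #(N b))) + #C = #(N b) :=
      card_filter_add_card_filter_not _
    have h6 : 2 * #C ≤ #(N b) := by
      rcases Nat.eq_zero_or_pos #(N b) with h0 | h0
      · have : #C ≤ #(N b) := card_filter_le _ _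
        omega
      · have : #(N b) * (2 * #C) ≤ #(N b) * #(N b) := by nlinarith
        exact Nat.le_of_mul_le_mul_left this h0
    omega
  · intro a₁ ha₁ a₂ ha₂
    have hset : ({a' ∈ ((N b : Finset α) : Set α) |
        (#A : ℝ) ≤ 16 * L ^ 2 * #{b ∈ A | H a₁ b ∧ H a' b} ∧
        (#A : ℝ) ≤ 16 * L ^ 2 * #{b ∈ A | H a₂ b ∧ H a' b}})
        = (((N b).filter (fun a' => ¬ (bad a₁ a' ∨ bad a₂ a')) : Finset α) : Set α) := by
      ext a'
      simp only [coe_filter, hbad, hcod, not_or, not_not]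
      rfl
    rw [hset, Set.ncard_coe_finset]
    have h1 : #((N b).filter (fun a' => bad a₁ a' ∨ bad a₂ a'))
        + #((N b).filter (fun a' => ¬ (bad a₁ a' ∨ bad a₂ a'))) = #(N b) :=
      card_filter_add_card_filter_not _
    have h2 : #((N b).filter (fun a' => bad a₁ a' ∨ bad a₂ a'))
        ≤ #((N b).filter (fun a' => bad a₁ a')) + #((N b).filter (fun a' => bad a₂ a')) := by
      rw [filter_or]
      exact card_union_le _ _
    have h3 := (mem_filter.1 ha₁).2
    have h4 := (mem_filter.1 ha₂).2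
    omega

end Pool.Agent.Lib.MP_3bb35d_al.UE
end

section

/-!
# Convolution on a finite group
-/

set_option autoImplicit false

open scoped Pointwise
open Finset

namespace Pool.Agent.Lib.MP_3bb35d_al.UE

variable {G : Type*} [Group G] [Fintype G]

/-- Convolution. -/
def conv (μ f : G → ℝ) (g : G) : ℝ := ∑ h, μ h * f (h⁻¹ * g)

/-- The square of the `ℓ²`-norm. -/
def nsq (f : G → ℝ) : ℝ := ∑ g, f g ^ 2

/-- The inner product. -/
def ip (f f' : G → ℝ) : ℝ := ∑ g, f g * f' g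

/-- Convolution powers `μ^(2^r)`. -/
def cpow (μ : G → ℝ) : ℕ → G → ℝ
  | 0 => μ
  | r + 1 => conv (cpow μ r) (cpow μ r)

/-- Symmetric probability measures. -/
structure SP (μ : G → ℝ) : Prop where
  nonneg : ∀ g, 0 ≤ μ g
  sum : ∑ g, μ g = 1
  symm : ∀ g, μ g⁻¹ = μ g

/-- The measure of a set. -/
noncomputable def mass (μ : G → ℝ) (S : Set G) : ℝ := ∑ g, S.indicator μ g

/-- The law of a random word of length `n` in `u, v`. -/
noncomputable def rwk (u v : G) (n : ℕ) (g : G) : ℝ :=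
  ({A : Fin n → Fin 4 | wd u v A = g}.ncard : ℝ) / 4 ^ n

end Pool.Agent.Lib.MP_3bb35d_al.UE
end

section

/-!
# The minimal degree of a nontrivial representation of `SL₂(p)`
-/

set_option autoImplicit false

namespace Pool.Agent.Lib.MP_3bb35d_al.UE

variable {p : ℕ} [Fact p.Prime]

private def Q1_u (t : ZMod p) : SL2 p := ⟨!![1, t; 0, 1], by simp [Matrix.det_fin_two]⟩

private def Q1_l (t : ZMod p) : SL2 p := ⟨!![1, 0; t, 1], by simp [Matrix.det_fin_two]⟩

private def Q1_w : SL2 p := ⟨!![0, 1; -1, 0], by simp [Matrix.det_fin_two]⟩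

private def Q1_d (s : ZMod p) (hs : s ≠ 0) : SL2 p :=
  ⟨!![s, 0; 0, s⁻¹], by simp [Matrix.det_fin_two, hs]⟩

private theorem Q1_u_add (s t : ZMod p) : Q1_u (s + t) = Q1_u s * Q1_u t := by
  ext i j
  rw [Matrix.SpecialLinearGroup.coe_mul]
  fin_cases i <;> fin_cases j <;>
    simp [Q1_u, Matrix.mul_apply, Fin.sum_univ_two, add_comm]

private theorem Q1_u_zero : Q1_u (0 : ZMod p) = 1 := by
  ext i j
  fin_cases i <;> fin_cases j <;> simp [Q1_u]

private theorem Q1_u_nat (n : ℕ) : Q1_u (n : ZMod p) = Q1_u 1 ^ n := by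
  induction n with
  | zero => simpa using Q1_u_zero
  | succ n ih => rw [Nat.cast_succ, Q1_u_add, ih, pow_succ]

private theorem Q1_u_val (t : ZMod p) : Q1_u t = Q1_u 1 ^ t.val := by
  rw [← Q1_u_nat, ZMod.natCast_zmod_val]

private theorem Q1_l_eq (t : ZMod p) : Q1_l t = Q1_w * Q1_u (-t) * Q1_w⁻¹ := by
  rw [eq_mul_inv_iff_mul_eq]
  ext i j
  rw [Matrix.SpecialLinearGroup.coe_mul, Matrix.SpecialLinearGroup.coe_mul]
  fin_cases i <;> fin_cases j <;>
    simp [Q1_u, Q1_l, Q1_w, Matrix.mul_apply, Fin.sum_univ_two]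

private theorem Q1_d_eq (s : ZMod p) (hs : s ≠ 0) (t : ZMod p) :
    Q1_d s hs * Q1_u t = Q1_u (s ^ 2 * t) * Q1_d s hs := by
  ext i j
  rw [Matrix.SpecialLinearGroup.coe_mul, Matrix.SpecialLinearGroup.coe_mul]
  fin_cases i <;> fin_cases j <;>
    simp [Q1_u, Q1_d, Matrix.mul_apply, Fin.sum_univ_two]
  field_simp

private theorem Q1_gen_ne (g : SL2 p) (hc : g 1 0 ≠ 0) :
    g = Q1_u ((g 0 0 - 1) / g 1 0) * Q1_l (g 1 0) * Q1_u ((g 1 1 - 1) / g 1 0) := by
  have hdet : g 0 0 * g 1 1 - g 0 1 * g 1 0 = 1 := by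
    have := g.det_coe
    rw [Matrix.det_fin_two] at this
    exact this
  ext i j
  rw [Matrix.SpecialLinearGroup.coe_mul, Matrix.SpecialLinearGroup.coe_mul]
  fin_cases i <;> fin_cases j
  · simp [Q1_u, Q1_l, Matrix.mul_apply, Fin.sum_univ_two]
    field_simp
    ring
  · simp [Q1_u, Q1_l, Matrix.mul_apply, Fin.sum_univ_two]
    field_simp
    linear_combination -hdet
  · simp [Q1_u, Q1_l, Matrix.mul_apply, Fin.sum_univ_two]
  · simp [Q1_u, Q1_l, Matrix.mul_apply, Fin.sum_univ_two]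
    field_simp
    ring

private theorem Q1_triv {M : Type*} [Monoid M] (ρ : SL2 p →* M) (h1 : ρ (Q1_u 1) = 1)
    (g : SL2 p) : ρ g = 1 := by
  have hu : ∀ t : ZMod p, ρ (Q1_u t) = 1 := by
    intro t
    rw [Q1_u_val, map_pow, h1, one_pow]
  have hl : ∀ t : ZMod p, ρ (Q1_l t) = 1 := by
    intro t
    rw [Q1_l_eq, map_mul, map_mul, hu, mul_one, ← map_mul, mul_inv_cancel, map_one]
  have hne : ∀ g : SL2 p, g 1 0 ≠ 0 → ρ g = 1 := by
    intro g hc
    rw [Q1_gen_ne g hc, map_mul, map_mul, hu, hu, hl, one_mul, one_mul]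
  by_cases hc : g 1 0 = 0
  · have h2 : ρ (Q1_l 1 * g) = 1 := by
      apply hne
      have hdet : g 0 0 * g 1 1 - g 0 1 * g 1 0 = 1 := by
        have := g.det_coe
        rw [Matrix.det_fin_two] at this
        exact this
      have h3 : (Q1_l 1 * g : SL2 p) 1 0 = g 0 0 := by
        rw [Matrix.SpecialLinearGroup.coe_mul]
        simp [Q1_l, Matrix.mul_apply, Fin.sum_univ_two, hc]
      rw [h3]
      intro h0
      rw [h0, hc] at hdet
      simp at hdet
    rw [map_mul, hl, one_mul] at h2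
    exact h2
  · exact hne g hc

/-- PROOF. Let `u t = !![1, t; 0, 1]`. If `ρ (u 1) = 1` then `ρ` is trivial on all `u t` and on all `!![1, 0; t, 1]` (a conjugate of `u (-t)` by `!![0, 1; -1, 0]`), which generate `SL₂(p)` (see `closure_two_unipotents` in file H1, not imported; prove it directly), contradiction. So `U = ρ (u 1) ≠ 1`, `U ^ p = 1`; `X ^ p - 1` is
separable over `ℂ`, so `U` is diagonalisable and has an eigenvalue `z ≠ 1`, a primitive `p`-th root of unity. For `s ≠ 0` let `d = diag(s, s⁻¹)`: `d (u t) d⁻¹ = u (s² t)`; so `U ^ (s²)` is conjugate to `U` and `z ^ (s²)`... precisely: if `U x = z x` then for `y = ρ(d)⁻¹ x`: `U ^ m y = ρ (d)⁻¹ ρ (d (u m) d⁻¹) x = ρ(d)⁻¹ ρ (u (s² m)) x`;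
with `m = s⁻²` (mod `p`): `U ^ m y = z y`, so `U y = U ^ (m s²) y = z ^ (s²) y`. So all the numbers `z ^ (s² mod p)` are eigenvalues of `U`; there are at least `(p - 1) / 2` different ones (number of nonzero squares modulo `p`, `z` primitive). The number of eigenvalues is at most the dimension. -/
theorem min_dim {V : Type*} [AddCommGroup V] [Module ℂ V] [FiniteDimensional ℂ V]
    (ρ : SL2 p →* (V →ₗ[ℂ] V)) (hρ : ∃ g, ρ g ≠ 1) : p - 1 ≤ 2 * Module.finrank ℂ V := by
  classical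
  obtain ⟨g0, hg0⟩ := hρ
  set U : Module.End ℂ V := ρ (Q1_u 1) with hU
  have hU1 : U ≠ 1 := fun h => hg0 (Q1_triv ρ h g0)
  have hUp : U ^ p = 1 := by
    rw [hU, ← map_pow, ← Q1_u_nat, CharP.cast_eq_zero, Q1_u_zero, map_one]
  have hp0 : (p : ℂ) ≠ 0 := by exact_mod_cast (Fact.out : p.Prime).ne_zero
  -- an eigenvalue different from one
  have hss : U.IsSemisimple := by
    refine Module.End.isSemisimple_of_squarefree_aeval_eq_zero
      (p := (Polynomial.X ^ p - 1 : Polynomial ℂ)) ?_ ?_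
    · exact (Polynomial.separable_X_pow_sub_C (1 : ℂ) hp0 one_ne_zero).squarefree
    · simp [hUp]
  obtain ⟨z, hz, hz1⟩ : ∃ z : ℂ, U.HasEigenvalue z ∧ z ≠ 1 := by
    by_contra hcon
    push Not at hcon
    apply hU1
    have h1 : U.eigenspace 1 = ⊤ := by
      rw [← hss.iSup_eigenspace_eq_top]
      refine le_antisymm (le_iSup (fun μ => U.eigenspace μ) 1) (iSup_le fun μ => ?_)
      rcases eq_or_ne μ 1 with rfl | hμ
      · exact le_refl _
      · have h2 : U.eigenspace μ = ⊥ := by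
          by_contra h3
          exact hμ (hcon μ (Module.End.hasEigenvalue_iff.2 h3))
        rw [h2]
        exact bot_le
    ext x
    have h2 : x ∈ U.eigenspace 1 := by rw [h1]; trivial
    rw [Module.End.mem_eigenspace_iff, one_smul] at h2
    exact h2
  obtain ⟨x, hx⟩ := hz.exists_hasEigenvector
  have hxU : U x = z • x := hx.apply_eq_smul
  have hx0 : x ≠ 0 := hx.2
  have hUn : ∀ n : ℕ, (U ^ n) x = z ^ n • x := by
    intro n
    induction n with
    | zero => simp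
    | succ n ih => rw [pow_succ, Module.End.mul_apply, hxU, map_smul, ih, smul_smul, pow_succ, mul_comm]
  have hzp : z ^ p = 1 := by
    have h1 := hUn p
    rw [hUp, Module.End.one_apply] at h1
    have h2 : (z ^ p - 1) • x = 0 := by rw [sub_smul, one_smul, ← h1, sub_self]
    rcases smul_eq_zero.1 h2 with h3 | h3
    · exact sub_eq_zero.1 h3
    · exact absurd h3 hx0
  have hprim : IsPrimitiveRoot z p := IsPrimitiveRoot.iff_orderOf.2 (orderOf_eq_prime hzp hz1)
  -- further eigenvalues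
  have heig : ∀ s : ZMod p, s ≠ 0 → U.HasEigenvalue (z ^ (s ^ 2).val) := by
    intro s hs
    have hd : ρ (Q1_d s hs) * ρ (Q1_d s hs)⁻¹ = 1 := by
      rw [← map_mul, mul_inv_cancel, map_one]
    refine Module.End.hasEigenvalue_of_hasEigenvector (x := ρ (Q1_d s hs)⁻¹ x) ?_
    rw [Module.End.hasEigenvector_iff, Module.End.mem_eigenspace_iff]
    constructor
    · have h1 : Q1_u 1 * (Q1_d s hs)⁻¹ = (Q1_d s hs)⁻¹ * Q1_u (s ^ 2) := by
        rw [mul_inv_eq_iff_eq_mul, mul_assoc, eq_inv_mul_iff_mul_eq, Q1_d_eq, mul_one]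
      calc U (ρ (Q1_d s hs)⁻¹ x) = (ρ (Q1_u 1) * ρ (Q1_d s hs)⁻¹) x := rfl
        _ = ρ (Q1_d s hs)⁻¹ (ρ (Q1_u (s ^ 2)) x) := by
          rw [← map_mul, h1, map_mul]
          rfl
        _ = z ^ (s ^ 2).val • ρ (Q1_d s hs)⁻¹ x := by
          rw [Q1_u_val, map_pow, ← hU, hUn, map_smul]
    · intro h0
      apply hx0
      have h1 : (ρ (Q1_d s hs) * ρ (Q1_d s hs)⁻¹) x = x := by rw [hd, Module.End.one_apply]
      rw [← h1, Module.End.mul_apply, h0, map_zero]
  -- counting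
  set S : Finset (ZMod p) := Finset.univ.filter fun s => s ≠ 0 with hS
  have hScard : S.card = p - 1 := by
    have h1 : S = Finset.univ.erase 0 := by
      ext s
      simp [hS]
    rw [h1, Finset.card_erase_of_mem (Finset.mem_univ _), Finset.card_univ, ZMod.card]
  set T : Finset ℂ := S.image fun s => z ^ (s ^ 2).val with hT
  have h2 : S.card ≤ 2 * T.card := by
    rw [hT]
    refine Finset.card_le_mul_card_image S 2 ?_
    intro b _
    by_cases hne : (S.filter fun s => z ^ (s ^ 2).val = b).Nonempty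
    · obtain ⟨s, hs⟩ := hne
      rw [Finset.mem_filter] at hs
      have h3 : (S.filter fun s => z ^ (s ^ 2).val = b) ⊆ {s, -s} := by
        intro t ht
        rw [Finset.mem_filter] at ht
        have h4 : z ^ (t ^ 2).val = z ^ (s ^ 2).val := by rw [ht.2, hs.2]
        have h5 := hprim.pow_inj (ZMod.val_lt _) (ZMod.val_lt _) h4
        have h6 : t ^ 2 = s ^ 2 := ZMod.val_injective p h5
        rw [sq_eq_sq_iff_eq_or_eq_neg] at h6
        simpa using h6
      exact (Finset.card_le_card h3).trans Finset.card_le_two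
    · rw [Finset.not_nonempty_iff_eq_empty.1 hne]
      simp
  have h3 : T.card ≤ Module.finrank ℂ V := by
    have h4 : ∀ μ : T, ∃ y : V, U.HasEigenvector (μ : ℂ) y := by
      rintro ⟨μ, hμ⟩
      rw [hT, Finset.mem_image] at hμ
      obtain ⟨s, hs, rfl⟩ := hμ
      exact (heig s (by simpa [hS] using hs)).exists_hasEigenvector
    choose y hy using h4
    have h5 := Module.End.eigenvectors_linearIndependent' U (fun μ : T => (μ : ℂ))
      Subtype.coe_injective y hy
    simpa using h5.fintype_card_le_finrank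
  omega

/-- PROOF: base change to `ℂ` (`LinearMap.baseChange`, `Module.finrank_baseChange`; `LinearMap.baseChange` is multiplicative and injective). -/
theorem min_dim_real {V : Type*} [AddCommGroup V] [Module ℝ V] [FiniteDimensional ℝ V]
    (ρ : SL2 p →* (V →ₗ[ℝ] V)) (hρ : ∃ g, ρ g ≠ 1) : p - 1 ≤ 2 * Module.finrank ℝ V := by
  obtain ⟨g, hg⟩ := hρ
  have hinj : Function.Injective (Module.End.baseChangeHom ℝ ℂ V) :=
    LinearMap.baseChangeHom_injective ℝ V ℂ
  let σ : SL2 p →* (TensorProduct ℝ ℂ V →ₗ[ℂ] TensorProduct ℝ ℂ V) :=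
    ((Module.End.baseChangeHom ℝ ℂ V).toRingHom.toMonoidHom).comp ρ
  have hσ : ∃ g, σ g ≠ 1 := by
    refine ⟨g, fun h => hg (hinj ?_)⟩
    rw [map_one]
    exact h
  have h1 := min_dim σ hσ
  rwa [Module.finrank_baseChange] at h1

end Pool.Agent.Lib.MP_3bb35d_al.UE
end
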