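import Pool.Agent.Lib.MP_3bb35d_al.Mg.G001
import Pool.Agent.Lib.MP_3bb35d_al.Mg.G002

section

/-!
# The Balog-Szemerédi-Gowers theorem in a group
-/

set_option autoImplicit false

open scoped Pointwise
open Finset

namespace Pool.Agent.Lib.MP_3bb35d_al.UE

variable {G : Type*} [Group G] [DecidableEq G]

/-- Fibres over `T` have at most `#S` elements altogether. -/
private theorem F1c_fib {α β : Type*} [DecidableEq α] [DecidableEq β] (S : Finset α) (T : Finset β)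
    (f : α → β) : ∑ x ∈ T, #{a ∈ S | f a = x} ≤ #S := by
  classical
  have h := Finset.card_eq_sum_card_fiberwise (f := f) (s := S.filter (fun a => f a ∈ T)) (t := T)
    (fun a ha => by
      have := (Finset.mem_filter.1 (Finset.mem_coe.1 ha)).2
      exact Finset.mem_coe.2 this)
  calc ∑ x ∈ T, #{a ∈ S | f a = x}
      ≤ ∑ x ∈ T, #{a ∈ S.filter (fun a => f a ∈ T) | f a = x} := by
        apply Finset.sum_le_sum
        intro x hx
        apply Finset.card_le_card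
        intro a ha
        rw [Finset.mem_filter] at ha
        rw [Finset.mem_filter, Finset.mem_filter]
        exact ⟨⟨ha.1, by rw [ha.2]; exact hx⟩, ha.2⟩
    _ = #(S.filter (fun a => f a ∈ T)) := h.symm
    _ ≤ #S := Finset.card_filter_le _ _

/-- Products of two quotients: the number of quadruples is at least the sum over `b`. -/
private theorem F1c_quad (A S : Finset G) (a a' : G) :
    ∑ b ∈ S, rl A (a⁻¹ * b) * rl A (a'⁻¹ * b) ≤
      #{q ∈ (A ×ˢ A) ×ˢ (A ×ˢ A) | (q.1.1⁻¹ * q.1.2) * (q.2.1⁻¹ * q.2.2)⁻¹ = a⁻¹ * a'} := by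
  classical
  have h1 : ∑ b ∈ S, rl A (a⁻¹ * b) * rl A (a'⁻¹ * b) =
      #(S.biUnion (fun b => ({e ∈ A ×ˢ A | e.1⁻¹ * e.2 = a⁻¹ * b} : Finset (G × G)) ×ˢ
        ({e ∈ A ×ˢ A | e.1⁻¹ * e.2 = a'⁻¹ * b} : Finset (G × G)))) := by
    rw [Finset.card_biUnion]
    · apply Finset.sum_congr rfl
      intro b _
      rw [Finset.card_product]
      rfl
    · intro b _ b' _ hbb'
      rw [Function.onFun, Finset.disjoint_left]
      rintro ⟨x, y⟩ hx hy
      rw [Finset.mem_product] at hx hy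
      have h2 := (Finset.mem_filter.1 hx.1).2
      have h3 := (Finset.mem_filter.1 hy.1).2
      apply hbb'
      have h4 : a⁻¹ * b = a⁻¹ * b' := by rw [← h2, ← h3]
      exact mul_left_cancel h4
  rw [h1]
  apply Finset.card_le_card
  rintro ⟨x, y⟩ hx
  rw [Finset.mem_biUnion] at hx
  obtain ⟨b, _, hx⟩ := hx
  rw [Finset.mem_product] at hx
  obtain ⟨h2, h3⟩ := hx
  rw [Finset.mem_filter] at h2 h3
  rw [Finset.mem_filter, Finset.mem_product]
  refine ⟨⟨h2.1, h3.1⟩, ?_⟩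
  show (x.1⁻¹ * x.2) * (y.1⁻¹ * y.2)⁻¹ = a⁻¹ * a'
  rw [h2.2, h3.2]
  group

/-- BSG. PROOF. Apply `drc` with `H a b` iff `#A ≤ 2 K rl A (a⁻¹ b)` (popular; `popular_rl`) and `L = 2 K`: `B ⊆ B' ⊆ A`, `#A ≤ 4 K #B'`, `#B' ≤ 2 #B`, so `#A ≤ 8 K #B`. Call `x` good if
`x = a⁻¹ a'` with `a, a' ∈ A` such that at least `#A / (64 K²)` elements `b ∈ A` satisfy `H a b`, `H a' b`. For such `x` the number of quadruples `(c, d, e, f) ∈ A⁴` with `(c⁻¹ d) (e⁻¹ f)⁻¹ = x` is at least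
`∑ b, rl A (a⁻¹ b) rl A (a'⁻¹ b) ≥ (#A / (64 K²)) (#A / (2 K))² = #A³ / (256 K⁴)` (different `b` give different values of `c⁻¹ d = a⁻¹ b`). So the set `Q` of the good `x` has at most
`256 K⁴ #A` elements. Let `y = a₁⁻¹ a₂`, `a₁, a₂ ∈ B`. For at least `#B' / 2 ≥ #A / (8 K)` elements `a' ∈ B'` the elements `a₁⁻¹ a'` and `a'⁻¹ a₂` (the inverse of the good `a₂⁻¹ a'`; good is symmetric) are in `Q`, and `y` is their
product. So `#(B⁻¹ * B) * #A / (8 K) ≤ #Q²`, `#(B⁻¹ * B) ≤ 8 K * 2 ^ 16 K ^ 8 #A ≤ 2 ^ 22 K ^ 10 #B`. -/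
theorem bsg (A : Finset G) (hA : A.Nonempty) {K : ℝ} (hK : 1 ≤ K)
    (h : (#A : ℝ) ^ 3 ≤ K * en A) :
    ∃ B ⊆ A, (#A : ℝ) ≤ 8 * K * #B ∧ (#(B⁻¹ * B) : ℝ) ≤ 2 ^ 22 * K ^ 10 * #B := by
  classical
  have hK0 : (0 : ℝ) < K := by linarith
  set H : G → G → Prop := fun a b => (#A : ℝ) ≤ 2 * K * rl A (a⁻¹ * b) with hH
  have hA0 : (0 : ℝ) < #A := by exact_mod_cast Finset.card_pos.2 hA
  have hpop : (#A : ℝ) ^ 2 ≤ (2 * K) * #{e ∈ A ×ˢ A | H e.1 e.2} := by
    have h1 := popular_rl A hK h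
    have h2 : ({e ∈ ((A ×ˢ A : Finset (G × G)) : Set (G × G)) |
        (#A : ℝ) ≤ 2 * K * rl A (e.1⁻¹ * e.2)}) =
        (({e ∈ A ×ˢ A | H e.1 e.2} : Finset (G × G)) : Set (G × G)) := by
      ext e
      simp only [Set.mem_ofPred_eq, Finset.mem_coe, Finset.mem_filter, hH]
    rw [h2, Set.ncard_coe_finset] at h1
    exact h1
  obtain ⟨B', hB'A, B, hBB', hc1, hc2, hdrc⟩ := drc A hA H (by linarith : (1 : ℝ) ≤ 2 * K) hpop
  have hB'0 : (0 : ℝ) < #B' := by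
    by_contra hcon
    push Not at hcon
    have : (2 * (2 * K)) * (#B' : ℝ) ≤ 0 := by nlinarith
    linarith
  have hc2' : (#B' : ℝ) ≤ 2 * #B := by exact_mod_cast hc2
  -- good elements
  set good : G → Prop := fun x => ∃ a ∈ A, ∃ a' ∈ A, x = a⁻¹ * a' ∧
    (#A : ℝ) ≤ 16 * (2 * K) ^ 2 * #{b ∈ A | H a b ∧ H a' b} with hgood
  set Q : Finset G := (A⁻¹ * A).filter good with hQ
  have hN : ∀ x ∈ Q, (#A : ℝ) ^ 3 ≤ 256 * K ^ 4 *
      #{q ∈ (A ×ˢ A) ×ˢ (A ×ˢ A) | (q.1.1⁻¹ * q.1.2) * (q.2.1⁻¹ * q.2.2)⁻¹ = x} := by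
    intro x hx
    obtain ⟨_, a, _, a', _, rfl, hcod⟩ := Finset.mem_filter.1 hx
    set S : Finset G := {b ∈ A | H a b ∧ H a' b} with hS
    have h1 := F1c_quad A S a a'
    have h2 : (∑ b ∈ S, rl A (a⁻¹ * b) * rl A (a'⁻¹ * b) : ℝ) ≤
        #{q ∈ (A ×ˢ A) ×ˢ (A ×ˢ A) | (q.1.1⁻¹ * q.1.2) * (q.2.1⁻¹ * q.2.2)⁻¹ = a⁻¹ * a'} := by
      exact_mod_cast h1
    have h3 : (#S : ℝ) * (#A : ℝ) ^ 2 ≤ 4 * K ^ 2 *
        (∑ b ∈ S, rl A (a⁻¹ * b) * rl A (a'⁻¹ * b) : ℝ) := by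
      rw [Finset.mul_sum, ← nsmul_eq_mul]
      apply Finset.card_nsmul_le_sum
      intro b hb
      rw [hS, Finset.mem_filter] at hb
      have h4 : (#A : ℝ) ≤ 2 * K * rl A (a⁻¹ * b) := hb.2.1
      have h5 : (#A : ℝ) ≤ 2 * K * rl A (a'⁻¹ * b) := hb.2.2
      calc (#A : ℝ) ^ 2 = #A * #A := by ring
        _ ≤ (2 * K * rl A (a⁻¹ * b)) * (2 * K * rl A (a'⁻¹ * b)) :=
            mul_le_mul h4 h5 hA0.le (by positivity)
        _ = _ := by ring
    calc (#A : ℝ) ^ 3 = #A * #A ^ 2 := by ring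
      _ ≤ (16 * (2 * K) ^ 2 * #S) * #A ^ 2 := by
          apply mul_le_mul_of_nonneg_right hcod (by positivity)
      _ = 64 * K ^ 2 * (#S * #A ^ 2) := by ring
      _ ≤ 64 * K ^ 2 * (4 * K ^ 2 * (∑ b ∈ S, rl A (a⁻¹ * b) * rl A (a'⁻¹ * b) : ℝ)) := by
          apply mul_le_mul_of_nonneg_left h3 (by positivity)
      _ = 256 * K ^ 4 * (∑ b ∈ S, rl A (a⁻¹ * b) * rl A (a'⁻¹ * b) : ℝ) := by ring
      _ ≤ _ := by
          apply mul_le_mul_of_nonneg_left h2 (by positivity)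
  have hQcard : (#Q : ℝ) ≤ 256 * K ^ 4 * #A := by
    have h1 : (#Q : ℝ) * (#A : ℝ) ^ 3 ≤ 256 * K ^ 4 * (#A : ℝ) ^ 4 := by
      calc (#Q : ℝ) * (#A : ℝ) ^ 3 ≤ ∑ x ∈ Q, 256 * K ^ 4 *
          (#{q ∈ (A ×ˢ A) ×ˢ (A ×ˢ A) | (q.1.1⁻¹ * q.1.2) * (q.2.1⁻¹ * q.2.2)⁻¹ = x} : ℝ) := by
            rw [← nsmul_eq_mul]
            exact Finset.card_nsmul_le_sum _ _ _ hN
        _ = 256 * K ^ 4 * (∑ x ∈ Q,
          #{q ∈ (A ×ˢ A) ×ˢ (A ×ˢ A) | (q.1.1⁻¹ * q.1.2) * (q.2.1⁻¹ * q.2.2)⁻¹ = x} : ℕ) := by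
            rw [← Finset.mul_sum]
            push_cast
            rfl
        _ ≤ 256 * K ^ 4 * (#((A ×ˢ A) ×ˢ (A ×ˢ A)) : ℕ) := by
            apply mul_le_mul_of_nonneg_left _ (by positivity)
            exact_mod_cast F1c_fib ((A ×ˢ A) ×ˢ (A ×ˢ A)) Q
              (fun q => (q.1.1⁻¹ * q.1.2) * (q.2.1⁻¹ * q.2.2)⁻¹)
        _ = 256 * K ^ 4 * (#A : ℝ) ^ 4 := by
            rw [Finset.card_product, Finset.card_product]
            push_cast
            ring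
    have h2 : (#Q : ℝ) * (#A : ℝ) ^ 3 ≤ (256 * K ^ 4 * #A) * (#A : ℝ) ^ 3 := by
      calc _ ≤ _ := h1
        _ = _ := by ring
    exact le_of_mul_le_mul_right h2 (by positivity)
  -- every quotient of `B` has many representations
  have hrep : ∀ y ∈ B⁻¹ * B, (#B' : ℝ) ≤ 2 * #{p ∈ Q ×ˢ Q | p.1 * p.2 = y} := by
    intro y hy
    obtain ⟨u, hu, a₂, ha₂, rfl⟩ := Finset.mem_mul.1 hy
    have ha₁ : u⁻¹ ∈ B := Finset.mem_inv'.1 hu
    set a₁ := u⁻¹ with ha₁d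
    have hu' : u = a₁⁻¹ := by rw [ha₁d, inv_inv]
    have h1 := hdrc a₁ ha₁ a₂ ha₂
    set M : Set G := {a' ∈ (B' : Set G) |
        (#A : ℝ) ≤ 16 * (2 * K) ^ 2 * #{b ∈ A | H a₁ b ∧ H a' b} ∧
        (#A : ℝ) ≤ 16 * (2 * K) ^ 2 * #{b ∈ A | H a₂ b ∧ H a' b}} with hM
    have h2 : M.ncard ≤ #{p ∈ Q ×ˢ Q | p.1 * p.2 = u * a₂} := by
      rw [← Set.ncard_coe_finset]
      apply Set.ncard_le_ncard_of_injOn (fun a' => (a₁⁻¹ * a', a'⁻¹ * a₂))
      · intro a' ha'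
        obtain ⟨hB'm, hg1, hg2⟩ := ha'
        have ha'A : a' ∈ A := hB'A (Finset.mem_coe.1 hB'm)
        have ha₁A : a₁ ∈ A := hB'A (hBB' ha₁)
        have ha₂A : a₂ ∈ A := hB'A (hBB' ha₂)
        rw [Finset.mem_coe, Finset.mem_filter, Finset.mem_product]
        refine ⟨⟨?_, ?_⟩, ?_⟩
        · rw [hQ, Finset.mem_filter]
          exact ⟨Finset.mul_mem_mul (Finset.inv_mem_inv ha₁A) ha'A,
            a₁, ha₁A, a', ha'A, rfl, hg1⟩
        · rw [hQ, Finset.mem_filter]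
          refine ⟨Finset.mul_mem_mul (Finset.inv_mem_inv ha'A) ha₂A,
            a', ha'A, a₂, ha₂A, rfl, ?_⟩
          have h3 : ({b ∈ A | H a' b ∧ H a₂ b} : Finset G) = {b ∈ A | H a₂ b ∧ H a' b} := by
            ext b
            simp only [Finset.mem_filter]
            tauto
          rw [h3]
          exact hg2
        · show a₁⁻¹ * a' * (a'⁻¹ * a₂) = u * a₂
          rw [hu']
          group
      · intro x _ y _ hxy
        have := (Prod.mk.inj hxy).1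
        exact mul_left_cancel this
    have h3 : (#B' : ℝ) ≤ 2 * M.ncard := by exact_mod_cast h1
    have h4 : (M.ncard : ℝ) ≤ #{p ∈ Q ×ˢ Q | p.1 * p.2 = u * a₂} := by exact_mod_cast h2
    linarith
  have hBB : (#(B⁻¹ * B) : ℝ) * #B' ≤ 2 * (#Q : ℝ) ^ 2 := by
    calc (#(B⁻¹ * B) : ℝ) * #B' ≤ ∑ y ∈ B⁻¹ * B, 2 * (#{p ∈ Q ×ˢ Q | p.1 * p.2 = y} : ℝ) := by
          rw [← nsmul_eq_mul]
          exact Finset.card_nsmul_le_sum _ _ _ hrep
      _ = 2 * (∑ y ∈ B⁻¹ * B, #{p ∈ Q ×ˢ Q | p.1 * p.2 = y} : ℕ) := by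
          rw [← Finset.mul_sum]
          push_cast
          rfl
      _ ≤ 2 * (#(Q ×ˢ Q) : ℕ) := by
          apply mul_le_mul_of_nonneg_left _ (by norm_num)
          exact_mod_cast F1c_fib (Q ×ˢ Q) (B⁻¹ * B) (fun p => p.1 * p.2)
      _ = 2 * (#Q : ℝ) ^ 2 := by
          rw [Finset.card_product]
          push_cast
          ring
  refine ⟨B, hBB'.trans hB'A, ?_, ?_⟩
  · calc (#A : ℝ) ≤ 2 * (2 * K) * #B' := hc1
      _ ≤ 2 * (2 * K) * (2 * #B) := by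
          apply mul_le_mul_of_nonneg_left hc2' (by positivity)
      _ = 8 * K * #B := by ring
  · have h1 : (#(B⁻¹ * B) : ℝ) * #B' ≤ (2 ^ 19 * K ^ 9 * #A) * #B' := by
      calc (#(B⁻¹ * B) : ℝ) * #B' ≤ 2 * (#Q : ℝ) ^ 2 := hBB
        _ ≤ 2 * (256 * K ^ 4 * #A) ^ 2 := by
            apply mul_le_mul_of_nonneg_left _ (by norm_num)
            exact pow_le_pow_left₀ (by positivity) hQcard 2
        _ = 2 ^ 17 * K ^ 8 * #A * #A := by ring
        _ ≤ 2 ^ 17 * K ^ 8 * #A * (2 * (2 * K) * #B') := by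
            apply mul_le_mul_of_nonneg_left hc1 (by positivity)
        _ = (2 ^ 19 * K ^ 9 * #A) * #B' := by ring
    have h2 : (#(B⁻¹ * B) : ℝ) ≤ 2 ^ 19 * K ^ 9 * #A := le_of_mul_le_mul_right h1 hB'0
    calc (#(B⁻¹ * B) : ℝ) ≤ 2 ^ 19 * K ^ 9 * #A := h2
      _ ≤ 2 ^ 19 * K ^ 9 * (2 * (2 * K) * #B') := by
          apply mul_le_mul_of_nonneg_left hc1 (by positivity)
      _ ≤ 2 ^ 19 * K ^ 9 * (2 * (2 * K) * (2 * #B)) := by
          apply mul_le_mul_of_nonneg_left _ (by positivity)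
          apply mul_le_mul_of_nonneg_left hc2' (by positivity)
      _ = 2 ^ 22 * K ^ 10 * #B := by ring

end Pool.Agent.Lib.MP_3bb35d_al.UE
end

section

/-!
# The popular quotients of a set of small doubling
-/

set_option autoImplicit false

open scoped Pointwise
open Finset

namespace Pool.Agent.Lib.MP_3bb35d_al.UE

variable {G : Type*} [Group G] [DecidableEq G]

private theorem F2_fiber (B : Finset G) {b₀ : G} (hb₀ : b₀ ∈ B) (x₁ x₂ x₃ : G) :
    rr B x₁ * (rr B x₂ * rr B x₃) ≤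
      #{y ∈ (B⁻¹ * B) ×ˢ ((B⁻¹ * B) ×ˢ ((B⁻¹ * B) ×ˢ (B⁻¹ * B))) |
        b₀ * (y.1 * y.2.1 * y.2.2.1 * y.2.2.2) * b₀⁻¹ = x₁ * x₂ * x₃} := by
  unfold rr
  rw [← card_product, ← card_product]
  refine card_le_card_of_injOn (fun e => (b₀⁻¹ * e.1.1, e.1.2⁻¹ * e.2.1.1, e.2.1.2⁻¹ * e.2.2.1,
    e.2.2.2⁻¹ * b₀)) ?_ ?_
  · rintro ⟨⟨c₁, d₁⟩, ⟨c₂, d₂⟩, c₃, d₃⟩ he
    simp only [coe_product, Set.mem_prod, coe_filter, mem_product, Set.mem_ofPred_eq] at he
    obtain ⟨⟨⟨hc₁, hd₁⟩, e₁⟩, ⟨⟨hc₂, hd₂⟩, e₂⟩, ⟨hc₃, hd₃⟩, e₃⟩ := he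
    simp only [coe_filter, mem_product, Set.mem_ofPred_eq]
    refine ⟨⟨mul_mem_mul (inv_mem_inv hb₀) hc₁, mul_mem_mul (inv_mem_inv hd₁) hc₂,
      mul_mem_mul (inv_mem_inv hd₂) hc₃, mul_mem_mul (inv_mem_inv hd₃) hb₀⟩, ?_⟩
    rw [← e₁, ← e₂, ← e₃]
    group
  · rintro ⟨⟨c₁, d₁⟩, ⟨c₂, d₂⟩, c₃, d₃⟩ he ⟨⟨c₁', d₁'⟩, ⟨c₂', d₂'⟩, c₃', d₃'⟩ he' h
    simp only [coe_product, Set.mem_prod, coe_filter, mem_product, Set.mem_ofPred_eq] at he he'
    obtain ⟨⟨_, e₁⟩, ⟨_, e₂⟩, _, e₃⟩ := he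
    obtain ⟨⟨_, e₁'⟩, ⟨_, e₂'⟩, _, e₃'⟩ := he'
    simp only [Prod.mk.injEq, mul_right_inj] at h
    obtain ⟨h1, h2, h3, h4⟩ := h
    have k1 : d₁ = d₁' := by
      rw [← e₁', h1] at e₁
      exact inv_injective (mul_left_cancel e₁)
    rw [k1] at h2
    have k2 := mul_left_cancel h2
    have k3 : d₂ = d₂' := by
      rw [← e₂', k2] at e₂
      exact inv_injective (mul_left_cancel e₂)
    rw [k3] at h3
    have k4 := mul_left_cancel h3
    have k5 : d₃ = d₃' := by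
      rw [← e₃', k4] at e₃
      exact inv_injective (mul_left_cancel e₃)
    rw [h1, k1, k2, k3, k4, k5]

/-- PROOF. Let `T = B * D ^ 3`-type counting: for `g = b⁻¹ x₁ x₂ x₃ b'` with `b, b' ∈ B`, `xᵢ ∈ D` (`b = b' ` fixed is enough: it suffices to bound `#(D ^ 3)`; take fixed `b = b' = b₀ ∈ B`, the map `D ^ 3 → G`, `t ↦ b₀⁻¹ t b₀` is injective). Every `xᵢ` has at least `#B / (2 L)` representations
`xᵢ = cᵢ dᵢ⁻¹` with `cᵢ, dᵢ ∈ B`. For each choice the tuple `(y₀, y₁, y₂, y₃) = (b₀⁻¹ c₁, d₁⁻¹ c₂, d₂⁻¹ c₃, d₃⁻¹ b₀) ∈ (B⁻¹ * B)⁴` has the product `b₀⁻¹ x₁ x₂ x₃ b₀`, and it determines `c₁, d₁ = x₁⁻¹ c₁, c₂, ...`. So for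
fixed `t = x₁ x₂ x₃ ∈ D ^ 3` there are at least `(#B / (2 L))³` such tuples, and tuples with different products are different: `#(D ^ 3) (#B / (2 L))³ ≤ (L #B)⁴`, `#(D ^ 3) ≤ 8 L ^ 7 #B`. -/
theorem card_D3 (B : Finset G) (hB : B.Nonempty) {L : ℝ} (hL : 1 ≤ L)
    (h : (#(B⁻¹ * B) : ℝ) ≤ L * #B) (D : Finset G) (hD : ∀ x ∈ D, (#B : ℝ) ≤ 2 * L * rr B x) :
    (#(D ^ 3) : ℝ) ≤ 8 * L ^ 7 * #B := by
  obtain ⟨b₀, hb₀⟩ := hB
  have hBpos : (0 : ℝ) < #B := by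
    exact_mod_cast card_pos.2 ⟨b₀, hb₀⟩
  have hL0 : (0 : ℝ) < L := lt_of_lt_of_le one_pos hL
  set Y : Finset G := B⁻¹ * B with hY
  have hfib : ∀ t ∈ D ^ 3, (#B : ℝ) ^ 3 ≤ 8 * L ^ 3 *
      #{y ∈ Y ×ˢ (Y ×ˢ (Y ×ˢ Y)) | b₀ * (y.1 * y.2.1 * y.2.2.1 * y.2.2.2) * b₀⁻¹ = t} := by
    intro t ht
    obtain ⟨x₁, h₁, x₂, h₂, x₃, h₃, e⟩ : ∃ x₁ ∈ D, ∃ x₂ ∈ D, ∃ x₃ ∈ D, x₁ * x₂ * x₃ = t := by
      rw [pow_succ, pow_two, mem_mul] at ht
      obtain ⟨u, hu, x₃, h₃, e⟩ := ht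
      rw [mem_mul] at hu
      obtain ⟨x₁, h₁, x₂, h₂, e'⟩ := hu
      exact ⟨x₁, h₁, x₂, h₂, x₃, h₃, by rw [e', e]⟩
    have hc := F2_fiber B hb₀ x₁ x₂ x₃
    rw [e] at hc
    calc (#B : ℝ) ^ 3 = #B * (#B * #B) := by ring
      _ ≤ (2 * L * rr B x₁) * ((2 * L * rr B x₂) * (2 * L * rr B x₃)) :=
          mul_le_mul (hD _ h₁) (mul_le_mul (hD _ h₂) (hD _ h₃) hBpos.le (by positivity))
            (by positivity) (by positivity)
      _ = 8 * L ^ 3 * ((rr B x₁ * (rr B x₂ * rr B x₃) : ℕ) : ℝ) := by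
          push_cast
          ring
      _ ≤ _ := by
          refine mul_le_mul_of_nonneg_left ?_ (by positivity)
          exact_mod_cast hc
  have hsum : ∑ t ∈ D ^ 3,
      #{y ∈ Y ×ˢ (Y ×ˢ (Y ×ˢ Y)) | b₀ * (y.1 * y.2.1 * y.2.2.1 * y.2.2.2) * b₀⁻¹ = t} ≤
      #Y * (#Y * (#Y * #Y)) := by
    rw [← card_biUnion]
    · rw [← card_product, ← card_product, ← card_product]
      refine card_le_card ?_
      intro y hy
      rw [mem_biUnion] at hy
      obtain ⟨t, _, hy⟩ := hy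
      exact (mem_filter.1 hy).1
    · intro t _ t' _ hne
      change Disjoint _ _
      rw [disjoint_left]
      intro y hy hy'
      exact hne ((mem_filter.1 hy).2.symm.trans (mem_filter.1 hy').2)
  have h1 : (#(D ^ 3) : ℝ) * (#B : ℝ) ^ 3 ≤ 8 * L ^ 3 * (L * #B) ^ 4 := by
    calc (#(D ^ 3) : ℝ) * (#B : ℝ) ^ 3 = ∑ t ∈ D ^ 3, (#B : ℝ) ^ 3 := by
          rw [sum_const, nsmul_eq_mul]
      _ ≤ ∑ t ∈ D ^ 3, 8 * L ^ 3 * #{y ∈ Y ×ˢ (Y ×ˢ (Y ×ˢ Y)) |
            b₀ * (y.1 * y.2.1 * y.2.2.1 * y.2.2.2) * b₀⁻¹ = t} := sum_le_sum hfib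
      _ = 8 * L ^ 3 * ((∑ t ∈ D ^ 3, #{y ∈ Y ×ˢ (Y ×ˢ (Y ×ˢ Y)) |
            b₀ * (y.1 * y.2.1 * y.2.2.1 * y.2.2.2) * b₀⁻¹ = t} : ℕ) : ℝ) := by
          rw [← mul_sum]
          push_cast
          rfl
      _ ≤ 8 * L ^ 3 * ((#Y * (#Y * (#Y * #Y)) : ℕ) : ℝ) := by
          refine mul_le_mul_of_nonneg_left ?_ (by positivity)
          exact_mod_cast hsum
      _ = 8 * L ^ 3 * (#Y : ℝ) ^ 4 := by
          push_cast
          ring
      _ ≤ 8 * L ^ 3 * (L * #B) ^ 4 := by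
          refine mul_le_mul_of_nonneg_left ?_ (by positivity)
          exact pow_le_pow_left₀ (Nat.cast_nonneg _) h 4
  have h2 : (#(D ^ 3) : ℝ) * (#B : ℝ) ^ 3 ≤ (8 * L ^ 7 * #B) * (#B : ℝ) ^ 3 := by
    calc (#(D ^ 3) : ℝ) * (#B : ℝ) ^ 3 ≤ 8 * L ^ 3 * (L * #B) ^ 4 := h1
      _ = _ := by ring
  exact le_of_mul_le_mul_right h2 (by positivity)

/-- PROOF. `D = {x ∈ B * B⁻¹ | #B ≤ 2 L rr B x}`. `1 ∈ D` as `rr B 1 = #B`; symmetric by `rr_inv`. `en_ge`: `#B⁴ ≤ L #B en B`, so `#B³ ≤ L en B` and `popular_rr` gives at least `#B² / (2 L)` pairs `(b, c) ∈ B²` with `b c⁻¹ ∈ D`: so for some `c`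
at least `#B / (2 L)` elements `b ∈ B` with `b c⁻¹ ∈ D`; in particular `#D ≥ #B / (2 L)`. `card_D3`: `#(D ^ 3) ≤ 8 L ^ 7 #B ≤ 16 L ^ 8 #D`. `∑ (x ∈ D), rr B x ≤ #B²` and `rr B x ≥ #B / (2 L)`: `#D ≤ 2 L #B`. -/
theorem pop_quot (B : Finset G) (hB : B.Nonempty) {L : ℝ} (hL : 1 ≤ L)
    (h : (#(B⁻¹ * B) : ℝ) ≤ L * #B) :
    ∃ D : Finset G, 1 ∈ D ∧ D⁻¹ = D ∧ (#(D ^ 3) : ℝ) ≤ 16 * L ^ 8 * #D ∧
      (#B : ℝ) ≤ 2 * L * #D ∧ (#D : ℝ) ≤ 2 * L * #B ∧
      ∃ c : G, (#B : ℝ) ≤ 2 * L * #{b ∈ B | b * c⁻¹ ∈ D} := by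
  have hBpos : (0 : ℝ) < #B := by
    exact_mod_cast card_pos.2 hB
  have hL0 : (0 : ℝ) < L := lt_of_lt_of_le one_pos hL
  set D : Finset G := {x ∈ B * B⁻¹ | (#B : ℝ) ≤ 2 * L * rr B x} with hDdef
  have hmem : ∀ x, x ∈ D ↔ x ∈ B * B⁻¹ ∧ (#B : ℝ) ≤ 2 * L * rr B x := fun x => by
    rw [hDdef, mem_filter]
  have hD : ∀ x ∈ D, (#B : ℝ) ≤ 2 * L * rr B x := fun x hx => ((hmem x).1 hx).2
  have h3 := card_D3 B hB hL h D hD
  have hen : (#B : ℝ) ^ 3 ≤ L * en B := by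
    have h1 : (#B : ℝ) ^ 4 ≤ #(B⁻¹ * B) * en B := by exact_mod_cast en_ge B
    have h2 : (#B : ℝ) * (#B : ℝ) ^ 3 ≤ #B * (L * en B) := by
      calc (#B : ℝ) * (#B : ℝ) ^ 3 = (#B : ℝ) ^ 4 := by ring
        _ ≤ (#(B⁻¹ * B) : ℝ) * (en B : ℝ) := h1
        _ ≤ (L * #B) * en B := mul_le_mul_of_nonneg_right h (Nat.cast_nonneg _)
        _ = _ := by ring
    exact le_of_mul_le_mul_left h2 hBpos
  have hpop := popular_rr B hL hen
  have hset : ({e ∈ ((B ×ˢ B : Finset (G × G)) : Set (G × G)) |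
      (#B : ℝ) ≤ 2 * L * rr B (e.1 * e.2⁻¹)}).ncard = ∑ c ∈ B, #{b ∈ B | b * c⁻¹ ∈ D} := by
    have h1 : {e ∈ ((B ×ˢ B : Finset (G × G)) : Set (G × G)) |
        (#B : ℝ) ≤ 2 * L * rr B (e.1 * e.2⁻¹)} =
        (({e ∈ B ×ˢ B | e.1 * e.2⁻¹ ∈ D} : Finset (G × G)) : Set (G × G)) := by
      ext e
      rw [mem_coe, mem_filter, Set.mem_ofPred_eq, mem_coe, hmem]
      constructor
      · rintro ⟨h1, h2⟩
        exact ⟨h1, mul_mem_mul (mem_product.1 h1).1 (inv_mem_inv (mem_product.1 h1).2), h2⟩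
      · rintro ⟨h1, h2⟩
        exact ⟨h1, h2.2⟩
    rw [h1, Set.ncard_coe_finset]
    simp only [card_filter]
    rw [sum_product_right]
  rw [hset] at hpop
  obtain ⟨c, hcB, hc⟩ : ∃ c ∈ B, (#B : ℝ) ≤ 2 * L * #{b ∈ B | b * c⁻¹ ∈ D} := by
    refine exists_le_of_sum_le hB ?_
    rw [sum_const, nsmul_eq_mul, ← sq, ← mul_sum]
    push_cast at hpop
    exact hpop
  have hcD : #{b ∈ B | b * c⁻¹ ∈ D} ≤ #D := by
    refine card_le_card_of_injOn (fun b => b * c⁻¹) ?_ ?_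
    · intro b hb
      rw [mem_coe, mem_filter] at hb
      exact hb.2
    · intro b _ b' _ e
      exact mul_right_cancel e
  have hBD : (#B : ℝ) ≤ 2 * L * #D := by
    refine hc.trans (mul_le_mul_of_nonneg_left ?_ (by positivity))
    exact_mod_cast hcD
  refine ⟨D, ?_, ?_, ?_, hBD, ?_, c, hc⟩
  · rw [hmem]
    obtain ⟨b, hb⟩ := hB
    refine ⟨?_, ?_⟩
    · rw [← mul_inv_cancel b]
      exact mul_mem_mul hb (inv_mem_inv hb)
    · have h1 : #B ≤ rr B 1 := by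
        unfold rr
        refine card_le_card_of_injOn (fun b => (b, b)) ?_ ?_
        · intro b hb
          simp only [coe_filter, mem_product, Set.mem_ofPred_eq]
          exact ⟨⟨hb, hb⟩, mul_inv_cancel b⟩
        · intro b _ b' _ e
          exact congrArg Prod.fst e
      have h2 : (#B : ℝ) ≤ rr B 1 := by exact_mod_cast h1
      have h4 : (0 : ℝ) ≤ rr B 1 := Nat.cast_nonneg _
      nlinarith
  · ext x
    rw [mem_inv', hmem, hmem, rr_inv]
    have h1 : x⁻¹ ∈ B * B⁻¹ ↔ x ∈ B * B⁻¹ := by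
      rw [← mem_inv', mul_inv_rev, inv_inv]
    rw [h1]
  · calc (#(D ^ 3) : ℝ) ≤ 8 * L ^ 7 * #B := h3
      _ ≤ 8 * L ^ 7 * (2 * L * #D) := mul_le_mul_of_nonneg_left hBD (by positivity)
      _ = _ := by ring
  · have h1 : ∑ x ∈ D, rr B x ≤ #B ^ 2 := by
      rw [← sum_rr B]
      exact sum_le_sum_of_subset (filter_subset _ _)
    have h2 : (∑ x ∈ D, rr B x : ℝ) ≤ (#B : ℝ) ^ 2 := by exact_mod_cast h1
    have h4 : (#D : ℝ) * #B ≤ (2 * L * #B) * #B := by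
      calc (#D : ℝ) * #B = ∑ x ∈ D, (#B : ℝ) := by rw [sum_const, nsmul_eq_mul]
        _ ≤ ∑ x ∈ D, 2 * L * (rr B x : ℝ) := sum_le_sum hD
        _ = 2 * L * ∑ x ∈ D, (rr B x : ℝ) := by rw [mul_sum]
        _ ≤ 2 * L * (#B : ℝ) ^ 2 := mul_le_mul_of_nonneg_left h2 (by positivity)
        _ = _ := by ring
    exact le_of_mul_le_mul_right h4 hBpos

end Pool.Agent.Lib.MP_3bb35d_al.UE
end

section

/-!
# Convolution on a finite group
-/

set_option autoImplicit false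

open scoped Pointwise
open Finset

namespace Pool.Agent.Lib.MP_3bb35d_al.UE

variable {G : Type*} [Group G] [Fintype G]

private theorem E0d_rwk (u v : G) (n : ℕ) (g : G) [DecidableEq G] :
    rwk u v n g = (∑ A : Fin n → Fin 4, if wd u v A = g then (1 : ℝ) else 0) / 4 ^ n := by
  classical
  have h : ({A : Fin n → Fin 4 | wd u v A = g}.ncard : ℝ) =
      ∑ A : Fin n → Fin 4, if wd u v A = g then (1 : ℝ) else 0 := by
    rw [Finset.sum_boole, Set.ncard_eq_toFinset_card', Set.toFinset_setOf]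
  rw [rwk, h]

private theorem E0d_wd_append (u v : G) {m n : ℕ} (A : Fin m → Fin 4) (B : Fin n → Fin 4) :
    wd u v (Fin.append A B) = wd u v A * wd u v B := by
  rw [wd, wd, wd, ← List.prod_append, ← List.ofFn_fin_append]
  congr 2
  funext i
  refine Fin.addCases (fun i => ?_) (fun i => ?_) i
  · rw [Fin.append_left, Fin.append_left]
  · rw [Fin.append_right, Fin.append_right]

private theorem E0d_lt_inv (u v : G) (i : Fin 4) :
    lt u v (![1, 0, 3, 2] i) = (lt u v i)⁻¹ := by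
  fin_cases i <;> simp [lt]

private theorem E0d_sw_sw (i : Fin 4) :
    (![1, 0, 3, 2] : Fin 4 → Fin 4) ((![1, 0, 3, 2] : Fin 4 → Fin 4) i) = i := by
  fin_cases i <;> rfl

private theorem E0d_wd_rev (u v : G) {n : ℕ} (A : Fin n → Fin 4) :
    wd u v (fun i => (![1, 0, 3, 2] : Fin 4 → Fin 4) (A (Fin.rev i))) = (wd u v A)⁻¹ := by
  rw [wd, wd, List.prod_inv_reverse, List.map_ofFn]
  congr 1
  apply List.ext_getElem
  · simp
  · intro i h1 h2
    simp only [List.getElem_ofFn, List.getElem_reverse, E0d_lt_inv, Function.comp]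
    congr 3
    apply Fin.ext
    simp only [Fin.val_rev, List.length_ofFn]
    omega

/-- PROOF: `(rwk u v m) * (rwk u v n)` = law of the concatenation: `Fin.append`, `wd u v (Fin.append A B) = wd u v A * wd u v B`. -/
theorem rwk_add (u v : G) (m n : ℕ) : rwk u v (m + n) = conv (rwk u v m) (rwk u v n) := by
  classical
  funext g
  rw [conv, E0d_rwk]
  have h1 : ∀ h : G, rwk u v m h * rwk u v n (h⁻¹ * g) =
      (∑ A : Fin m → Fin 4, ∑ B : Fin n → Fin 4,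
        if wd u v A = h then (if wd u v B = h⁻¹ * g then (1 : ℝ) else 0) else 0) / 4 ^ (m + n) := by
    intro h
    rw [E0d_rwk, E0d_rwk, pow_add, div_mul_div_comm, Finset.sum_mul_sum]
    congr 1
    refine Finset.sum_congr rfl fun A _ => Finset.sum_congr rfl fun B _ => ?_
    split_ifs <;> simp
  rw [Finset.sum_congr rfl fun h _ => h1 h, ← Finset.sum_div]
  congr 1
  rw [Finset.sum_comm]
  have h2 : ∀ A : Fin m → Fin 4, ∑ h : G, ∑ B : Fin n → Fin 4,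
      (if wd u v A = h then (if wd u v B = h⁻¹ * g then (1 : ℝ) else 0) else 0) =
      ∑ B : Fin n → Fin 4, if wd u v A * wd u v B = g then (1 : ℝ) else 0 := by
    intro A
    rw [Finset.sum_comm]
    refine Finset.sum_congr rfl fun B _ => ?_
    rw [Finset.sum_ite_eq Finset.univ (wd u v A)]
    simp only [Finset.mem_univ, if_true, eq_inv_mul_iff_mul_eq]
  rw [Finset.sum_congr rfl fun A _ => h2 A]
  let e : ((Fin m → Fin 4) × (Fin n → Fin 4)) ≃ (Fin (m + n) → Fin 4) :=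
    { toFun := fun x => Fin.append x.1 x.2
      invFun := fun f => (fun i => f (Fin.castAdd n i), fun i => f (Fin.natAdd m i))
      left_inv := by
        intro x
        refine Prod.ext (funext fun i => ?_) (funext fun i => ?_)
        · exact Fin.append_left _ _ _
        · exact Fin.append_right _ _ _
      right_inv := by
        intro f
        funext i
        refine Fin.addCases (fun i => ?_) (fun i => ?_) i
        · exact Fin.append_left _ _ _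
        · exact Fin.append_right _ _ _ }
  rw [← Equiv.sum_comp e, Fintype.sum_prod_type]
  refine Finset.sum_congr rfl fun A _ => Finset.sum_congr rfl fun B _ => ?_
  show (if wd u v (Fin.append A B) = g then (1 : ℝ) else 0) = _
  rw [E0d_wd_append]

/-- PROOF: nonnegative; the sum over `g` of the numbers of words is `4 ^ n`; the involution of the words (reverse the order and invert the letters `0 ↔ 1`, `2 ↔ 3`) inverts the product. -/
theorem SP_rwk (u v : G) (n : ℕ) : SP (rwk u v n) := by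
  classical
  refine ⟨fun g => ?_, ?_, fun g => ?_⟩
  · rw [rwk]
    positivity
  · rw [Finset.sum_congr rfl fun g _ => E0d_rwk u v n g, ← Finset.sum_div, Finset.sum_comm]
    have h1 : ∀ A : Fin n → Fin 4, ∑ g : G, (if wd u v A = g then (1 : ℝ) else 0) = 1 := by
      intro A
      rw [Finset.sum_ite_eq Finset.univ (wd u v A)]
      simp
    rw [Finset.sum_congr rfl fun A _ => h1 A]
    simp
  · rw [E0d_rwk, E0d_rwk]
    congr 1
    let e : (Fin n → Fin 4) ≃ (Fin n → Fin 4) :=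
      { toFun := fun A i => (![1, 0, 3, 2] : Fin 4 → Fin 4) (A (Fin.rev i))
        invFun := fun A i => (![1, 0, 3, 2] : Fin 4 → Fin 4) (A (Fin.rev i))
        left_inv := by
          intro A
          funext i
          show (![1, 0, 3, 2] : Fin 4 → Fin 4) ((![1, 0, 3, 2] : Fin 4 → Fin 4)
            (A (Fin.rev (Fin.rev i)))) = A i
          rw [E0d_sw_sw, Fin.rev_rev]
        right_inv := by
          intro A
          funext i
          show (![1, 0, 3, 2] : Fin 4 → Fin 4) ((![1, 0, 3, 2] : Fin 4 → Fin 4)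
            (A (Fin.rev (Fin.rev i)))) = A i
          rw [E0d_sw_sw, Fin.rev_rev] }
    rw [← Equiv.sum_comp e]
    refine Finset.sum_congr rfl fun A _ => ?_
    show (if wd u v (fun i => (![1, 0, 3, 2] : Fin 4 → Fin 4) (A (Fin.rev i))) = g⁻¹ then (1 : ℝ)
      else 0) = _
    rw [E0d_wd_rev]
    simp only [inv_inj]

/-- PROOF: induction, `rwk_add`, `2 ^ (r + 1) * n = 2 ^ r * n + 2 ^ r * n`. -/
theorem cpow_rwk (u v : G) (n r : ℕ) : cpow (rwk u v n) r = rwk u v (2 ^ r * n) := by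
  induction r with
  | zero => rw [pow_zero, one_mul]; rfl
  | succ r ih =>
    rw [show 2 ^ (r + 1) * n = 2 ^ r * n + 2 ^ r * n by ring, rwk_add, ← ih]
    rfl

end Pool.Agent.Lib.MP_3bb35d_al.UE
end

section

/-!
# Truncation of a measure
-/

set_option autoImplicit false

open scoped Pointwise
open Finset

namespace Pool.Agent.Lib.MP_3bb35d_al.UE

variable {G : Type*} [Group G] [Fintype G]

private theorem F3a_nsq_pos {ν : G → ℝ} (h : SP ν) : 0 < nsq ν := by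
  have h1 : 0 ≤ nsq ν := sum_nonneg fun g _ => sq_nonneg _
  rcases h1.lt_or_eq with h2 | h2
  · exact h2
  exfalso
  have h3 : ∀ g, ν g = 0 := by
    intro g
    have h4 := (sum_eq_zero_iff_of_nonneg (fun g _ => sq_nonneg (ν g))).1 h2.symm g (mem_univ g)
    exact pow_eq_zero_iff (two_ne_zero) |>.1 h4
  have h5 := h.sum
  simp [h3] at h5

/-- Large and small values. PROOF. `∑ (ν > T s) ν ≤ (1 / (T s)) ∑ ν² = 1 / T`; `∑ (ν < s / T) ν² ≤ (s / T) ∑ ν = s / T`, with `s = nsq ν`. -/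
theorem trunc {ν : G → ℝ} (h : SP ν) {T : ℝ} (hT : 1 ≤ T) :
    ∑ g, (if T * nsq ν < ν g then ν g else 0) ≤ 1 / T ∧
      nsq (fun g => if ν g < nsq ν / T then ν g else 0) ≤ nsq ν / T := by
  have hs := F3a_nsq_pos h
  have hT0 : 0 < T := by linarith
  constructor
  · have h1 : (T * nsq ν) * ∑ g, (if T * nsq ν < ν g then ν g else 0) ≤ nsq ν := by
      rw [mul_sum]
      unfold nsq
      refine sum_le_sum fun g _ => ?_
      split_ifs with hg
      · have := h.nonneg g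
        unfold nsq at hg
        nlinarith
      · simp only [mul_zero]
        positivity
    rw [le_div_iff₀ hT0]
    have h2 : nsq ν * (T * ∑ g, (if T * nsq ν < ν g then ν g else 0)) ≤ nsq ν * 1 := by
      calc _ = (T * nsq ν) * ∑ g, (if T * nsq ν < ν g then ν g else 0) := by ring
        _ ≤ nsq ν := h1
        _ = _ := by ring
    have h3 := le_of_mul_le_mul_left h2 hs
    linarith
  · calc nsq (fun g => if ν g < nsq ν / T then ν g else 0)
        = ∑ g, (if ν g < nsq ν / T then ν g else 0) ^ 2 := rfl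
      _ ≤ ∑ g, (nsq ν / T) * ν g := by
        refine sum_le_sum fun g _ => ?_
        have := h.nonneg g
        split_ifs with hg
        · nlinarith
        · have : 0 ≤ nsq ν / T := by positivity
          nlinarith
      _ = nsq ν / T := by rw [← mul_sum, h.sum, mul_one]

/-- The norm. -/
private noncomputable def F3a_nm (f : G → ℝ) : ℝ := ‖WithLp.toLp 2 f‖

private theorem F3a_nm_sq (f : G → ℝ) : F3a_nm f ^ 2 = nsq f := by
  unfold F3a_nm nsq
  rw [EuclideanSpace.norm_sq_eq]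
  refine sum_congr rfl fun g _ => ?_
  simp

private theorem F3a_nm_nonneg (f : G → ℝ) : 0 ≤ F3a_nm f := norm_nonneg _

private theorem F3a_nm_add (f f' : G → ℝ) : F3a_nm (f + f') ≤ F3a_nm f + F3a_nm f' := by
  unfold F3a_nm
  rw [WithLp.toLp_add]
  exact norm_add_le _ _

private theorem F3a_nm_le {f : G → ℝ} {c : ℝ} (hc : 0 ≤ c) (h : nsq f ≤ c ^ 2) : F3a_nm f ≤ c := by
  rw [← F3a_nm_sq] at h
  exact le_of_sq_le_sq h hc

/-- The middle part carries the convolution. PROOF. `s = nsq ν`, `T = 64 K²`, `ν = b + m + l` (large, middle, small values; the middle part is `m = ν` where `s / T ≤ ν ≤ T s`). With the norm `‖f‖ = √(nsq f)` (triangle inequality), `conv ν ν = conv b ν + conv l ν + conv m b + conv m l + conv m m`,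
`‖conv b ν‖ ≤ (∑ b) ‖ν‖ ≤ √s / T`, `‖conv l ν‖ ≤ ‖l‖ (∑ ν) ≤ √(s / T)` (`nsq_conv_le'`), `‖conv m b‖ ≤ ‖m‖ ∑ b ≤ √s / T`, `‖conv m l‖ ≤ (∑ m) ‖l‖ ≤ √(s / T)`. So `‖conv m m‖ ≥ (1/K - 2/T - 2/√T) √s ≥ (1/K) (1 - 1/32 - 1/4) √s ≥ √s / (2 K)`. -/
theorem middle {ν : G → ℝ} (h : SP ν) {K : ℝ} (hK : 1 ≤ K)
    (hc : nsq ν ≤ K ^ 2 * nsq (conv ν ν)) (m : G → ℝ)
    (hm : ∀ g, m g = if nsq ν / (64 * K ^ 2) ≤ ν g ∧ ν g ≤ 64 * K ^ 2 * nsq ν then ν g else 0) :
    nsq ν ≤ 4 * K ^ 2 * nsq (conv m m) := by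
  have hs := F3a_nsq_pos h
  have hK0 : 0 < K := by linarith
  have hT : (1 : ℝ) ≤ 64 * K ^ 2 := by nlinarith
  obtain ⟨ht1, ht2⟩ := trunc h hT
  set s := nsq ν with hsdef
  set b : G → ℝ := fun g => if 64 * K ^ 2 * s < ν g then ν g else 0 with hb
  set l : G → ℝ := fun g => if ν g < s / (64 * K ^ 2) then ν g else 0 with hl
  have hb0 : ∀ g, 0 ≤ b g := fun g => by
    simp only [hb]; split_ifs; exacts [h.nonneg g, le_rfl]
  have hl0 : ∀ g, 0 ≤ l g := fun g => by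
    simp only [hl]; split_ifs; exacts [h.nonneg g, le_rfl]
  have hm0 : ∀ g, 0 ≤ m g := fun g => by
    rw [hm]; split_ifs; exacts [h.nonneg g, le_rfl]
  have hmle : ∀ g, m g ≤ ν g := fun g => by
    rw [hm]; split_ifs; exacts [le_rfl, h.nonneg g]
  have hTs : s / (64 * K ^ 2) ≤ 64 * K ^ 2 * s := by
    rw [div_le_iff₀ (by positivity)]
    nlinarith [mul_le_mul hT hT (by norm_num) (by positivity)]
  have hdec : ν = b + (l + m) := by
    funext g
    simp only [Pi.add_apply, hm, hb, hl]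
    by_cases h1 : 64 * K ^ 2 * s < ν g
    · have h2 : ¬ (ν g < s / (64 * K ^ 2)) := by linarith
      have h3 : ¬ (s / (64 * K ^ 2) ≤ ν g ∧ ν g ≤ 64 * K ^ 2 * s) := fun h4 => by linarith [h4.2]
      rw [if_pos h1, if_neg h2, if_neg h3]; ring
    · by_cases h2 : ν g < s / (64 * K ^ 2)
      · have h3 : ¬ (s / (64 * K ^ 2) ≤ ν g ∧ ν g ≤ 64 * K ^ 2 * s) := fun h4 => by linarith [h4.1]
        rw [if_neg h1, if_pos h2, if_neg h3]; ring
      · rw [if_neg h1, if_neg h2, if_pos ⟨not_lt.1 h2, not_lt.1 h1⟩]; ring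
  -- decomposition of the convolution
  have hconv : conv ν ν = conv b ν + (conv l ν + (conv m b + (conv m l + conv m m))) := by
    have e1 : conv ν ν = conv b ν + (conv l ν + conv m ν) := by
      conv_lhs => rw [show conv ν ν = conv (b + (l + m)) ν by rw [← hdec]]
      rw [add_conv, add_conv]
    have e2 : conv m ν = conv m b + (conv m l + conv m m) := by
      conv_lhs => rw [show conv m ν = conv m (b + (l + m)) by rw [← hdec]]
      rw [conv_add, conv_add]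
    rw [e1, e2]
  have hKs : F3a_nm ν ^ 2 = s := F3a_nm_sq ν
  have hnν : 0 < F3a_nm ν := by
    rcases (F3a_nm_nonneg ν).lt_or_eq with h1 | h1
    · exact h1
    · rw [← h1] at hKs; simp at hKs; linarith
  set r := F3a_nm ν with hr
  -- bounds
  have hsb : ∑ g, b g ≤ 1 / (64 * K ^ 2) := ht1
  have hsb0 : 0 ≤ ∑ g, b g := sum_nonneg fun g _ => hb0 g
  have hsm : ∑ g, m g ≤ 1 := by rw [← h.sum]; exact sum_le_sum fun g _ => hmle g
  have hsm0 : 0 ≤ ∑ g, m g := sum_nonneg fun g _ => hm0 g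
  have hnm : nsq m ≤ s := by
    rw [hsdef]; unfold nsq
    exact sum_le_sum fun g _ => pow_le_pow_left₀ (hm0 g) (hmle g) 2
  have hnl : nsq l ≤ s / (64 * K ^ 2) := ht2
  have hnsq0 : ∀ f : G → ℝ, 0 ≤ nsq f := fun f => sum_nonneg fun g _ => sq_nonneg _
  have hq : s / (64 * K ^ 2) = (r / (8 * K)) ^ 2 := by
    rw [← hKs]; field_simp; ring
  have b1 : F3a_nm (conv b ν) ≤ r / (64 * K ^ 2) := by
    apply F3a_nm_le (by positivity)
    calc nsq (conv b ν) ≤ (∑ g, b g) ^ 2 * nsq ν := nsq_conv_le b ν hb0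
      _ ≤ (1 / (64 * K ^ 2)) ^ 2 * r ^ 2 := by rw [hKs]; gcongr
      _ = _ := by ring
  have b2 : F3a_nm (conv l ν) ≤ r / (8 * K) := by
    apply F3a_nm_le (by positivity)
    calc nsq (conv l ν) ≤ (∑ g, ν g) ^ 2 * nsq l := nsq_conv_le' l ν h.nonneg
      _ = nsq l := by rw [h.sum]; ring
      _ ≤ _ := by rw [← hq]; exact hnl
  have b3 : F3a_nm (conv m b) ≤ r / (64 * K ^ 2) := by
    apply F3a_nm_le (by positivity)
    calc nsq (conv m b) ≤ (∑ g, b g) ^ 2 * nsq m := nsq_conv_le' m b hb0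
      _ ≤ (1 / (64 * K ^ 2)) ^ 2 * r ^ 2 := by
        rw [hKs]
        have := hnsq0 m
        gcongr
      _ = _ := by ring
  have b4 : F3a_nm (conv m l) ≤ r / (8 * K) := by
    apply F3a_nm_le (by positivity)
    calc nsq (conv m l) ≤ (∑ g, m g) ^ 2 * nsq l := nsq_conv_le m l hm0
      _ ≤ 1 ^ 2 * nsq l := by have := hnsq0 l; gcongr
      _ = nsq l := by ring
      _ ≤ _ := by rw [← hq]; exact hnl
  have btot : r ≤ K * F3a_nm (conv ν ν) := by
    apply F3a_nm_le (by have := F3a_nm_nonneg (conv ν ν); positivity)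
    rw [mul_pow, F3a_nm_sq]
    exact hc
  have btri : F3a_nm (conv ν ν) ≤ r / (64 * K ^ 2) + (r / (8 * K) + (r / (64 * K ^ 2) + (r / (8 * K)
      + F3a_nm (conv m m)))) := by
    rw [hconv]
    refine (F3a_nm_add _ _).trans (add_le_add b1 ?_)
    refine (F3a_nm_add _ _).trans (add_le_add b2 ?_)
    refine (F3a_nm_add _ _).trans (add_le_add b3 ?_)
    refine (F3a_nm_add _ _).trans (add_le_add b4 le_rfl)
  have hfin : r ≤ 2 * K * F3a_nm (conv m m) := by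
    have h1 : r ≤ K * (r / (64 * K ^ 2) + (r / (8 * K) + (r / (64 * K ^ 2) + (r / (8 * K)
      + F3a_nm (conv m m))))) := btot.trans (by gcongr)
    have h2 : K * (r / (64 * K ^ 2) + (r / (8 * K) + (r / (64 * K ^ 2) + (r / (8 * K)
      + F3a_nm (conv m m))))) = r / (32 * K) + r / 4 + K * F3a_nm (conv m m) := by
      field_simp
      ring
    have h3 : r / (32 * K) ≤ r / 32 := by
      apply div_le_div_of_nonneg_left hnν.le (by norm_num)
      linarith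
    rw [h2] at h1
    have h4 : 0 ≤ K * F3a_nm (conv m m) := by have := F3a_nm_nonneg (conv m m); positivity
    nlinarith
  calc s = r ^ 2 := hKs.symm
    _ ≤ (2 * K * F3a_nm (conv m m)) ^ 2 := by gcongr
    _ = 4 * K ^ 2 * F3a_nm (conv m m) ^ 2 := by ring
    _ = _ := by rw [F3a_nm_sq]

end Pool.Agent.Lib.MP_3bb35d_al.UE
end

section

/-!
# From an operator bound to the expansion constant
-/

set_option autoImplicit false

open scoped Pointwise
open Finset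

namespace Pool.Agent.Lib.MP_3bb35d_al.UE

variable {G : Type*} [Group G] [Fintype G]

/-- Words of length at most `R` in `S`: the elements `s₁ ⋯ s_r`, `r ≤ R`, `sᵢ ∈ S ∪ S⁻¹`. -/
def Wrd (S : Set G) (R : ℕ) : Set G :=
  {g | ∃ l : List G, l.length ≤ R ∧ (∀ x ∈ l, x ∈ S ∨ x⁻¹ ∈ S) ∧ l.prod = g}

/-- PROOF. For `s ∈ S ∪ S⁻¹` the number of `g ∈ A` with `g s ∉ A` is at most `#(bdry S A)` (the map `g ↦ (g, g s)` is injective). For a product `w = s₁ ⋯ s_r`: if `g ∈ A` and `g w ∉ A` then for some `i` `g s₁ ⋯ s_{i-1} ∈ A`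
and `g s₁ ⋯ s_i ∉ A`; so the number of such `g` is at most `R * #(bdry S A)`. -/
theorem move_word (S A : Set G) (R : ℕ) {w : G} (hw : w ∈ Wrd S R) :
    {g ∈ A | g * w ∉ A}.ncard ≤ R * (bdry S A).ncard := by
  classical
  have key : ∀ l : List G, (∀ x ∈ l, x ∈ S ∨ x⁻¹ ∈ S) →
      {g ∈ A | g * l.prod ∉ A}.ncard ≤ l.length * (bdry S A).ncard := by
    intro l
    induction l with
    | nil =>
      intro _
      have h0 : {g ∈ A | g * ([] : List G).prod ∉ A} = ∅ := by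
        ext g
        simp
      rw [h0, Set.ncard_empty]
      exact Nat.zero_le _
    | cons x l ih =>
      intro hx
      have hx1 := hx x (List.mem_cons_self)
      have hl := ih fun y hy => hx y (List.mem_cons_of_mem _ hy)
      have hsub : {g ∈ A | g * (x :: l).prod ∉ A} ⊆
          {g ∈ A | g * x ∉ A} ∪ {g | g * x ∈ A ∧ (g * x) * l.prod ∉ A} := by
        rintro g ⟨hg, hg2⟩
        rw [List.prod_cons, ← mul_assoc] at hg2
        by_cases h : g * x ∈ A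
        · exact Or.inr ⟨h, hg2⟩
        · exact Or.inl ⟨hg, h⟩
      have h1 : {g ∈ A | g * x ∉ A}.ncard ≤ (bdry S A).ncard := by
        refine Set.ncard_le_ncard_of_injOn (fun g => (g, g * x)) ?_ ?_ (Set.toFinite _)
        · rintro g ⟨hg, hg2⟩
          refine ⟨hg, hg2, ?_⟩
          rcases hx1 with h | h
          · exact ⟨x, h, Or.inl rfl⟩
          · refine ⟨x⁻¹, h, Or.inr ?_⟩
            show g = g * x * x⁻¹
            rw [mul_inv_cancel_right]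
        · intro g _ g' _ h
          exact (Prod.ext_iff.mp h).1
      have h2 : {g | g * x ∈ A ∧ (g * x) * l.prod ∉ A}.ncard ≤
          {g ∈ A | g * l.prod ∉ A}.ncard := by
        refine Set.ncard_le_ncard_of_injOn (fun g => g * x) ?_ ?_ (Set.toFinite _)
        · rintro g ⟨hg, hg2⟩
          exact ⟨hg, hg2⟩
        · intro g _ g' _ h
          exact mul_right_cancel h
      have h3 := Set.ncard_le_ncard hsub (Set.toFinite _)
      have h4 := Set.ncard_union_le {g ∈ A | g * x ∉ A} {g | g * x ∈ A ∧ (g * x) * l.prod ∉ A}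
      rw [List.length_cons, Nat.add_mul, Nat.one_mul]
      omega
  obtain ⟨l, hl, hl2, rfl⟩ := hw
  exact (key l hl2).trans (Nat.mul_le_mul_right _ hl)

/-- Every generating set gives an expander with the constant `1 / |G|`. PROOF: if `A` is not empty and `2 |A| ≤ |G|` then `A ≠ G` and the boundary is not empty (otherwise `A` is closed under right
multiplication by `S ∪ S⁻¹`, so by `G`). So `|∂A| ≥ 1 ≥ |A| / |G|`. -/
theorem expander_small (S : Set G) (hS : Subgroup.closure S = ⊤) :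
    IsExpander ((1 : ℝ) / Nat.card G) S := by
  intro A hA
  have hpos : 0 < Nat.card G := Nat.card_pos
  have hle : A.ncard ≤ Nat.card G := by
    rw [← Set.ncard_univ]
    exact Set.ncard_le_ncard (Set.subset_univ _) (Set.toFinite _)
  rcases Set.eq_empty_or_nonempty A with h0 | ⟨a, ha⟩
  · rw [h0, Set.ncard_empty, Nat.cast_zero, mul_zero]
    exact Nat.cast_nonneg _
  have hb : (bdry S A).Nonempty := by
    by_contra hb
    rw [Set.not_nonempty_iff_eq_empty] at hb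
    have hno : ∀ e : G × G, e ∉ bdry S A := fun e => by rw [hb]; exact Set.notMem_empty e
    have hall : ∀ h : G, (∀ g ∈ A, g * h ∈ A) ∧ ∀ g ∈ A, g * h⁻¹ ∈ A := by
      intro h
      have hh : h ∈ Subgroup.closure S := by rw [hS]; exact Subgroup.mem_top h
      refine Subgroup.closure_induction (p := fun h _ =>
        (∀ g ∈ A, g * h ∈ A) ∧ ∀ g ∈ A, g * h⁻¹ ∈ A) ?_ ?_ ?_ ?_ hh
      · intro s hs
        constructor
        · intro g hg
          by_contra hc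
          exact hno (g, g * s) ⟨hg, hc, s, hs, Or.inl rfl⟩
        · intro g hg
          by_contra hc
          refine hno (g, g * s⁻¹) ⟨hg, hc, s, hs, Or.inr ?_⟩
          show g = g * s⁻¹ * s
          rw [inv_mul_cancel_right]
      · constructor
        · intro g hg; rwa [mul_one]
        · intro g hg; rwa [inv_one, mul_one]
      · intro x y _ _ hx hy
        constructor
        · intro g hg
          rw [← mul_assoc]
          exact hy.1 _ (hx.1 g hg)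
        · intro g hg
          rw [mul_inv_rev, ← mul_assoc]
          exact hx.2 _ (hy.2 g hg)
      · intro x _ hx
        refine ⟨hx.2, ?_⟩
        rw [inv_inv]
        exact hx.1
    have hu : A = Set.univ := by
      ext g
      simp only [Set.mem_univ, iff_true]
      have := (hall (a⁻¹ * g)).1 a ha
      rwa [mul_inv_cancel_left] at this
    rw [hu, Set.ncard_univ] at hA
    omega
  have h1 : 1 ≤ (bdry S A).ncard := (Set.ncard_pos (Set.toFinite _)).mpr hb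
  have h2 : (1 : ℝ) / Nat.card G * A.ncard ≤ 1 := by
    rw [div_mul_eq_mul_div, one_mul, div_le_one (by exact_mod_cast hpos)]
    exact_mod_cast hle
  exact h2.trans (by exact_mod_cast h1)

theorem IsExpander.mono {S : Set G} {ε ε' : ℝ} (h : IsExpander ε S) (he : ε' ≤ ε) :
    IsExpander ε' S := fun A hA =>
  (mul_le_mul_of_nonneg_right he (Nat.cast_nonneg _)).trans (h A hA)

end Pool.Agent.Lib.MP_3bb35d_al.UE
end
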