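import Mathlib

section

/-!
# Escape from linear conditions (general)
-/

set_option autoImplicit false

open scoped Pointwise
open Finset

namespace Pool.Agent.Lib.MP_3bb35d_al.UE

/-- Escape. PROOF: let `W j` be the span of the `ρ g v`, `g ∈ A ^ j`. `W j ≤ W (j + 1)` (`1 ∈ A`), and `W (j + 1)` is spanned by the
`ρ a (W j)`, `a ∈ A` (`A ^ (j + 1) = A * A ^ j`). If `v = 0` there is nothing to show. Otherwise `finrank (W 0) = 1`, so for some `j < n` we have
`W j = W (j + 1)` (else `finrank (W j) ≥ j + 1` for all `j ≤ n`, but `n ≥ finrank V`). Then `ρ a` maps `W j` into itself for all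
`a ∈ A`; the set of all `g` with `ρ g (W j) ≤ W j` is closed under products and contains `A = A⁻¹`, so it is everything
(`Subgroup.closure_induction`, or `Submonoid` closure with `A⁻¹ = A`). So `ρ g v ∈ W j ≤ W n` for all `g`, and `φ` vanishes on `W n`. -/
theorem escape_lin {G E V : Type*} [Group G] [DecidableEq G] [Field E] [AddCommGroup V] [Module E V]
    [FiniteDimensional E V] (ρ : G →* Module.End E V) (v : V) (φ : Module.Dual E V)
    {A : Finset G} (h1 : (1 : G) ∈ A) (hinv : A⁻¹ = A)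
    (hgen : Subgroup.closure (A : Set G) = ⊤) {n : ℕ} (hn : Module.finrank E V ≤ n)
    (h : ∀ g ∈ A ^ n, φ (ρ g v) = 0) (g : G) : φ (ρ g v) = 0 := by
  classical
  by_cases hv : v = 0
  · rw [hv, map_zero, map_zero]
  set W : ℕ → Submodule E V := fun j =>
    Submodule.span E ((fun g => ρ g v) '' (↑(A ^ j) : Set G)) with hW
  have hmono : ∀ i j, i ≤ j → W i ≤ W j := by
    intro i j hij
    exact Submodule.span_mono (Set.image_mono
      (Finset.coe_subset.mpr (Finset.pow_subset_pow_right h1 hij)))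
  have hstep : ∀ j, ∀ a ∈ A, ∀ x ∈ W j, ρ a x ∈ W (j + 1) := by
    intro j a ha x hx
    refine Submodule.span_induction (p := fun x _ => ρ a x ∈ W (j + 1)) ?_ ?_ ?_ ?_ hx
    · rintro _ ⟨g, hg, rfl⟩
      refine Submodule.subset_span ⟨a * g, ?_, ?_⟩
      · rw [Finset.mem_coe, pow_succ']
        exact Finset.mul_mem_mul ha (Finset.mem_coe.mp hg)
      · show ρ (a * g) v = ρ a (ρ g v)
        rw [map_mul]
        rfl
    · rw [map_zero]
      exact Submodule.zero_mem _
    · intro x y _ _ hx hy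
      rw [map_add]
      exact Submodule.add_mem _ hx hy
    · intro c x _ hx
      rw [map_smul]
      exact Submodule.smul_mem _ c hx
  have hvW : ∀ j, v ∈ W j := by
    intro j
    refine Submodule.subset_span ⟨1, ?_, ?_⟩
    · exact Finset.mem_coe.mpr (Finset.one_mem_pow h1)
    · show ρ 1 v = v
      rw [map_one]
      rfl
  have hex : ∃ j, j < n ∧ W j = W (j + 1) := by
    by_contra hcon
    push Not at hcon
    have hlt : ∀ j, j ≤ n → j + 1 ≤ Module.finrank E (W j) := by
      intro j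
      induction j with
      | zero =>
        intro _
        have h2 : W 0 ≠ ⊥ := by
          intro h2
          have h3 := hvW 0
          rw [h2, Submodule.mem_bot] at h3
          exact hv h3
        have := Submodule.one_le_finrank_iff.mpr h2
        omega
      | succ j ih =>
        intro hj
        have h2 := ih (by omega)
        have h3 : W j < W (j + 1) :=
          lt_of_le_of_ne (hmono j (j + 1) (Nat.le_succ j)) (hcon j (by omega))
        have h4 := Submodule.finrank_lt_finrank_of_lt h3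
        omega
    have h2 := hlt n le_rfl
    have h3 := Submodule.finrank_le (W n)
    omega
  obtain ⟨j, hj, hWj⟩ := hex
  have hA : ∀ a ∈ A, ∀ x ∈ W j, ρ a x ∈ W j := by
    intro a ha x hx
    rw [hWj]
    exact hstep j a ha x hx
  have hall : ∀ g : G, (∀ x ∈ W j, ρ g x ∈ W j) ∧ ∀ x ∈ W j, ρ g⁻¹ x ∈ W j := by
    intro g
    have hg : g ∈ Subgroup.closure (A : Set G) := by
      rw [hgen]
      exact Subgroup.mem_top g
    refine Subgroup.closure_induction (p := fun g _ =>
      (∀ x ∈ W j, ρ g x ∈ W j) ∧ ∀ x ∈ W j, ρ g⁻¹ x ∈ W j) ?_ ?_ ?_ ?_ hg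
    · intro a ha
      refine ⟨hA a (Finset.mem_coe.mp ha), hA a⁻¹ ?_⟩
      rw [← hinv]
      exact Finset.inv_mem_inv (Finset.mem_coe.mp ha)
    · constructor
      · intro x hx
        rw [map_one]
        exact hx
      · intro x hx
        rw [inv_one, map_one]
        exact hx
    · intro a b _ _ ha hb
      constructor
      · intro x hx
        rw [map_mul]
        exact ha.1 _ (hb.1 x hx)
      · intro x hx
        rw [mul_inv_rev, map_mul]
        exact hb.2 _ (ha.2 x hx)
    · intro a _ ha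
      refine ⟨ha.2, ?_⟩
      rw [inv_inv]
      exact ha.1
  have hφ : ∀ x ∈ W n, φ x = 0 := by
    intro x hx
    refine Submodule.span_induction (p := fun x _ => φ x = 0) ?_ ?_ ?_ ?_ hx
    · rintro _ ⟨g, hg, rfl⟩
      exact h g (Finset.mem_coe.mp hg)
    · exact map_zero φ
    · intro x y _ _ hx hy
      rw [map_add, hx, hy, add_zero]
    · intro c x _ hx
      rw [map_smul, hx, smul_zero]
  exact hφ _ (hmono j n hj.le ((hall g).1 v (hvW j)))

end Pool.Agent.Lib.MP_3bb35d_al.UE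
end

section

/-!
# Escape from products of matrix entries
-/

set_option autoImplicit false

open scoped Pointwise
open Finset

namespace Pool.Agent.Lib.MP_3bb35d_al.UE

/-- The `k`-th tensor power of a two dimensional representation. `(ρ g f) I = ∑ J, (∏ l, M g (I l) (J l)) f J`. PROOF of multiplicativity:
`∏ l, ∑ a, M g (I l) a * M h a (J l) = ∑ K, ∏ l, ...` (`Finset.prod_univ_sum`, `Fintype.piFinset_univ`). -/
theorem exists_tensor {G E : Type*} [Group G] [Field E] (k : ℕ)
    (M : G →* Matrix (Fin 2) (Fin 2) E) :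
    ∃ ρ : G →* Module.End E ((Fin k → Fin 2) → E), ∀ g f I,
      ρ g f I = ∑ J, (∏ l, M g (I l) (J l)) * f J := by
  classical
  let T : G → Matrix (Fin k → Fin 2) (Fin k → Fin 2) E := fun g =>
    Matrix.of (fun I J => ∏ l, M g (I l) (J l))
  have hT1 : T 1 = 1 := by
    ext I J
    simp only [T, Matrix.of_apply, map_one, Matrix.one_apply]
    by_cases h : I = J
    · subst h
      simp
    · rw [if_neg h]
      obtain ⟨l, hl⟩ := Function.ne_iff.1 h
      exact Finset.prod_eq_zero (Finset.mem_univ l) (by rw [if_neg hl])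
  have hTm : ∀ g h, T (g * h) = T g * T h := by
    intro g h
    ext I J
    simp only [T, Matrix.of_apply, map_mul, Matrix.mul_apply]
    rw [Finset.prod_univ_sum, Fintype.piFinset_univ]
    apply Finset.sum_congr rfl
    intro K _
    rw [← Finset.prod_mul_distrib]
  refine ⟨{ toFun := fun g => Matrix.toLin' (T g)
            map_one' := by rw [hT1, Matrix.toLin'_one]; rfl
            map_mul' := by intro g h; rw [hTm, Matrix.toLin'_mul]; rfl }, ?_⟩
  intro g f I
  change Matrix.toLin' (T g) f I = _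
  rw [Matrix.toLin'_apply]
  rfl

/-- PROOF: `escape_lin` for the representation of `exists_tensor`, `v = Pi.single J 1`, `φ = ` the coordinate `I`; the dimension of
`(Fin k → Fin 2) → E` is `2 ^ k`. -/
theorem escape_prod {G E : Type*} [Group G] [DecidableEq G] [Field E] (k : ℕ)
    (M : G →* Matrix (Fin 2) (Fin 2) E) (I J : Fin k → Fin 2)
    {A : Finset G} (h1 : (1 : G) ∈ A) (hinv : A⁻¹ = A)
    (hgen : Subgroup.closure (A : Set G) = ⊤) {n : ℕ} (hn : 2 ^ k ≤ n)
    (h : ∀ g ∈ A ^ n, ∏ l, M g (I l) (J l) = 0) (g : G) : ∏ l, M g (I l) (J l) = 0 := by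
  classical
  obtain ⟨ρ, hρ⟩ := exists_tensor k M
  have key : ∀ g : G, (LinearMap.proj I : ((Fin k → Fin 2) → E) →ₗ[E] E)
      (ρ g (Pi.single J (1 : E))) = ∏ l, M g (I l) (J l) := by
    intro g
    rw [LinearMap.proj_apply, hρ]
    rw [Finset.sum_eq_single J]
    · rw [Pi.single_eq_same, mul_one]
    · intro K _ hK
      rw [Pi.single_eq_of_ne hK, mul_zero]
    · intro hJ
      exact absurd (Finset.mem_univ J) hJ
  have hfr : Module.finrank E ((Fin k → Fin 2) → E) ≤ n := by
    rw [Module.finrank_fintype_fun_eq_card]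
    simpa using hn
  have := escape_lin ρ (Pi.single J (1 : E))
    (LinearMap.proj I : ((Fin k → Fin 2) → E) →ₗ[E] E) h1 hinv hgen hfr
    (fun g hg => by rw [key]; exact h g hg) g
  rw [key] at this
  exact this

end Pool.Agent.Lib.MP_3bb35d_al.UE
end

section

/-!
# The class equation of the polyhedral groups: numbers
-/

set_option autoImplicit false

open Finset

namespace Pool.Agent.Lib.MP_3bb35d_al.UE

private theorem H2a_three (n a b c : ℕ) (_hn : 1 < n) (ha : a ∣ n) (hb : b ∣ n) (hc : c ∣ n)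
    (ha2 : 2 * a ≤ n) (hb2 : 2 * b ≤ n) (hc3 : 3 ≤ c) (hab : b ≤ a) (hbc : c ≤ b)
    (h : a + b + c = n + 2) : n = 12 ∨ n = 24 ∨ n = 60 := by
  obtain ⟨p, hp⟩ := ha
  obtain ⟨q, hq⟩ := hb
  obtain ⟨r, hr⟩ := hc
  have ha0 : 0 < a := by omega
  have hb0 : 0 < b := by omega
  have hc0 : 0 < c := by omega
  have hp2 : 2 ≤ p := by
    by_contra hcon
    have : p ≤ 1 := by omega
    nlinarith
  have hp3 : p < 3 := by
    by_contra hcon
    have : 3 ≤ p := by omega
    nlinarith
  have hp' : p = 2 := by omega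
  subst hp'
  have hq2 : 2 ≤ q := by
    by_contra hcon
    have : q ≤ 1 := by omega
    nlinarith
  have hq4 : q < 4 := by
    by_contra hcon
    have : 4 ≤ q := by omega
    nlinarith
  interval_cases q
  · omega
  · have hr6 : r < 6 := by
      by_contra hcon
      have : 6 ≤ r := by omega
      nlinarith
    have hr3 : 3 ≤ r := by
      by_contra hcon
      have : r ≤ 2 := by omega
      nlinarith
    interval_cases r <;> omega

/-- PROOF. Write `n = nᵢ m i`, `nᵢ ≥ 2`. `∑ m i ≤ #s n / 2` gives `#s ≤ 3` (if `#s ≥ 4` then `∑ m i = #s n - 2 (n - 1) > #s n / 2`). `#s = 0`: `n = 1`. `#s = 1`: `m = 2 - n < 1`. `#s = 2`: `m₁ + m₂ = 2`, so both are one. `#s = 3`: `m₁ + m₂ + m₃ = n + 2`, order `m₁ ≥ m₂ ≥ m₃`.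
`3 m₁ ≥ n + 2` so `n₁ < 3`, `m₁ = n / 2`. `m₂ + m₃ = n / 2 + 2`, `2 m₂ ≥ n / 2 + 2`, so `n₂ < 4`. `n₂ = 2`: `m₃ = 2`. `n₂ = 3`: `m₃ = n / 6 + 2`, so `n₃ < 6` and `n₃ ≥ 3`: `n₃ = 3, 4, 5` give `n = 12, 24, 60`. -/
theorem orbit_numbers {ι : Type*} (s : Finset ι) (n : ℕ) (hn : 1 < n) (m : ι → ℕ)
    (hm : ∀ i ∈ s, 1 ≤ m i ∧ m i ∣ n ∧ 2 * m i ≤ n)
    (h : ∑ i ∈ s, m i + 2 * (n - 1) = #s * n) :
    (∃ i ∈ s, m i ≤ 2) ∨ n = 12 ∨ n = 24 ∨ n = 60 := by
  classical
  by_cases hs : ∃ i ∈ s, m i ≤ 2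
  · exact Or.inl hs
  right
  push Not at hs
  have h2 : 2 * ∑ i ∈ s, m i ≤ #s * n := by
    rw [Finset.mul_sum]
    calc ∑ i ∈ s, 2 * m i ≤ ∑ _i ∈ s, n := Finset.sum_le_sum fun i hi => (hm i hi).2.2
      _ = #s * n := by rw [Finset.sum_const, smul_eq_mul]
  have hs3 : #s ≤ 3 := by
    by_contra hcon
    have h4 : 4 ≤ #s := by omega
    have h5 : 4 * n ≤ #s * n := Nat.mul_le_mul_right n h4
    omega
  rcases Nat.lt_or_ge #s 3 with h3 | h3
  · exfalso
    have hk012 : #s = 0 ∨ #s = 1 ∨ #s = 2 := by omega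
    rcases hk012 with hk | hk | hk
    · rw [hk] at h
      omega
    · rw [hk] at h
      have h8 : 1 ≤ ∑ i ∈ s, m i := by
        obtain ⟨x, hx⟩ := Finset.card_eq_one.1 hk
        rw [hx, Finset.sum_singleton]
        exact (hm x (by rw [hx]; exact Finset.mem_singleton_self x)).1
      omega
    · obtain ⟨x, y, hxy, hx⟩ := Finset.card_eq_two.1 hk
      rw [hk] at h
      subst hx
      rw [Finset.sum_pair hxy] at h
      have h6 := hs x (by simp)
      have h7 := hs y (by simp)
      omega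
  · have hk : #s = 3 := le_antisymm hs3 h3
    obtain ⟨x, y, z, hxy, hxz, hyz, hx⟩ := Finset.card_eq_three.1 hk
    rw [hk] at h
    subst hx
    have hsum : ∑ i ∈ ({x, y, z} : Finset ι), m i = m x + m y + m z := by
      rw [Finset.sum_insert (by simp [hxy, hxz]), Finset.sum_pair hyz]
      ring
    rw [hsum] at h
    have hx1 := hm x (by simp)
    have hy1 := hm y (by simp)
    have hz1 := hm z (by simp)
    have hx2 := hs x (by simp)
    have hy2 := hs y (by simp)
    have hz2 := hs z (by simp)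
    have h' : m x + m y + m z = n + 2 := by omega
    rcases le_total (m x) (m y) with h1 | h1 <;> rcases le_total (m y) (m z) with h4 | h4 <;>
      rcases le_total (m x) (m z) with h5 | h5
    · exact H2a_three n (m z) (m y) (m x) hn hz1.2.1 hy1.2.1 hx1.2.1 hz1.2.2 hy1.2.2 (by omega)
        (by omega) (by omega) (by omega)
    · exact H2a_three n (m z) (m y) (m x) hn hz1.2.1 hy1.2.1 hx1.2.1 hz1.2.2 hy1.2.2 (by omega)
        (by omega) (by omega) (by omega)
    · exact H2a_three n (m y) (m z) (m x) hn hy1.2.1 hz1.2.1 hx1.2.1 hy1.2.2 hz1.2.2 (by omega)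
        (by omega) (by omega) (by omega)
    · exact H2a_three n (m y) (m x) (m z) hn hy1.2.1 hx1.2.1 hz1.2.1 hy1.2.2 hx1.2.2 (by omega)
        (by omega) (by omega) (by omega)
    · exact H2a_three n (m z) (m x) (m y) hn hz1.2.1 hx1.2.1 hy1.2.1 hz1.2.2 hx1.2.2 (by omega)
        (by omega) (by omega) (by omega)
    · exact H2a_three n (m x) (m z) (m y) hn hx1.2.1 hz1.2.1 hy1.2.1 hx1.2.2 hz1.2.2 (by omega)
        (by omega) (by omega) (by omega)
    · exact H2a_three n (m x) (m y) (m z) hn hx1.2.1 hy1.2.1 hz1.2.1 hx1.2.2 hy1.2.2 (by omega)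
        (by omega) (by omega) (by omega)
    · exact H2a_three n (m x) (m y) (m z) hn hx1.2.1 hy1.2.1 hz1.2.1 hx1.2.2 hy1.2.2 (by omega)
        (by omega) (by omega) (by omega)

end Pool.Agent.Lib.MP_3bb35d_al.UE
end

section

/-!
# Finite subgroups of `SL₂(K)` of order prime to the characteristic
-/

set_option autoImplicit false

namespace Pool.Agent.Lib.MP_3bb35d_al.UE

/-- The stabiliser of the line of `v` in `H`. -/
def lstab {K : Type*} [Field K] (H : Subgroup (Matrix.SpecialLinearGroup (Fin 2) K))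
    (v : Fin 2 → K) : Set (Matrix.SpecialLinearGroup (Fin 2) K) :=
  {h | h ∈ H ∧ ∃ c : K, (h : Matrix (Fin 2) (Fin 2) K).mulVec v = c • v}

private theorem H2b_pow {K : Type*} [Field K] (E : Matrix (Fin 2) (Fin 2) K) (hE : E * E = 0)
    (n : ℕ) : (1 + E) ^ n = 1 + (n : K) • E := by
  induction n with
  | zero => simp
  | succ n ih =>
    rw [pow_succ, ih, add_mul, one_mul, Matrix.smul_mul, mul_add, mul_one, hE, add_zero,
      Nat.cast_succ, add_smul, one_smul]
    abel

private theorem H2b_det {K : Type*} [Field K] (h : Matrix.SpecialLinearGroup (Fin 2) K) (s : K) :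
    ((h : Matrix (Fin 2) (Fin 2) K) - s • (1 : Matrix (Fin 2) (Fin 2) K)).det =
      s ^ 2 - (h 0 0 + h 1 1) * s + 1 := by
  have hd : (h : Matrix (Fin 2) (Fin 2) K).det = 1 := h.2
  rw [Matrix.det_fin_two] at hd
  rw [Matrix.det_fin_two]
  simp only [Matrix.sub_apply, Matrix.smul_apply, Matrix.one_apply_eq, smul_eq_mul, mul_one,
    Matrix.one_apply_ne (show (0 : Fin 2) ≠ 1 by decide),
    Matrix.one_apply_ne (show (1 : Fin 2) ≠ 0 by decide), mul_zero, sub_zero]
  linear_combination hd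

private theorem H2b_root {K : Type*} [Field K] (h : Matrix.SpecialLinearGroup (Fin 2) K) {s : K}
    {v : Fin 2 → K} (hv : v ≠ 0) (hs : (h : Matrix (Fin 2) (Fin 2) K).mulVec v = s • v) :
    s ^ 2 - (h 0 0 + h 1 1) * s + 1 = 0 := by
  rw [← H2b_det h s]
  refine Matrix.exists_mulVec_eq_zero_iff.mp ⟨v, hv, ?_⟩
  rw [Matrix.sub_mulVec, hs, Matrix.smul_mulVec, Matrix.one_mulVec, sub_self]

private theorem H2b_eig {K : Type*} [Field K] (h : Matrix.SpecialLinearGroup (Fin 2) K) {s : K}
    (hs : s ^ 2 - (h 0 0 + h 1 1) * s + 1 = 0) :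
    ∃ v : Fin 2 → K, v ≠ 0 ∧ (h : Matrix (Fin 2) (Fin 2) K).mulVec v = s • v := by
  rw [← H2b_det h s] at hs
  obtain ⟨v, hv, hv2⟩ := Matrix.exists_mulVec_eq_zero_iff.mpr hs
  refine ⟨v, hv, ?_⟩
  rw [Matrix.sub_mulVec, Matrix.smul_mulVec, Matrix.one_mulVec, sub_eq_zero] at hv2
  exact hv2

/-- an element with the eigenvalue one and of finite order prime to the characteristic is trivial -/
private theorem H2b_one {K : Type*} [Field K] (k : Matrix.SpecialLinearGroup (Fin 2) K)
    {v : Fin 2 → K} (hv : v ≠ 0) (hk : (k : Matrix (Fin 2) (Fin 2) K).mulVec v = v) {N : ℕ}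
    (hN : k ^ N = 1) (hN0 : (N : K) ≠ 0) : k = 1 := by
  have ht := H2b_root k (s := 1) hv (by rw [hk, one_smul])
  have hd : (k : Matrix (Fin 2) (Fin 2) K).det = 1 := k.2
  rw [Matrix.det_fin_two] at hd
  have hE : ((k : Matrix (Fin 2) (Fin 2) K) - 1) * ((k : Matrix (Fin 2) (Fin 2) K) - 1) = 0 := by
    ext i j
    rw [Matrix.mul_apply, Fin.sum_univ_two]
    fin_cases i <;> fin_cases j <;>
      simp only [Fin.zero_eta, Fin.mk_one, Matrix.sub_apply, Matrix.one_apply_eq,
        Matrix.one_apply_ne (show (0 : Fin 2) ≠ 1 by decide), Fin.isValue,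
        Matrix.one_apply_ne (show (1 : Fin 2) ≠ 0 by decide), sub_zero, Matrix.zero_apply]
    · linear_combination -k 0 0 * ht - hd
    · linear_combination -k 0 1 * ht
    · linear_combination -k 1 0 * ht
    · linear_combination -k 1 1 * ht - hd
  have h1 := H2b_pow _ hE N
  rw [add_sub_cancel] at h1
  have h2 : (k : Matrix (Fin 2) (Fin 2) K) ^ N = 1 := by
    rw [← Matrix.SpecialLinearGroup.coe_pow, hN, Matrix.SpecialLinearGroup.coe_one]
  rw [h2] at h1
  have h3 : (N : K) • ((k : Matrix (Fin 2) (Fin 2) K) - 1) = 0 := by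
    have h4 : (1 : Matrix (Fin 2) (Fin 2) K) + (N : K) • ((k : Matrix (Fin 2) (Fin 2) K) - 1) =
      1 + 0 := by rw [← h1, add_zero]
    exact add_left_cancel h4
  rcases smul_eq_zero.mp h3 with h4 | h4
  · exact absurd h4 hN0
  · ext i j
    have h5 := congrFun (congrFun (sub_eq_zero.mp h4) i) j
    rw [h5, Matrix.SpecialLinearGroup.coe_one]

private theorem H2b_prop {K : Type*} [Field K] {v z : Fin 2 → K} (hv : v ≠ 0)
    (h : z 0 * v 1 = z 1 * v 0) : ∃ c : K, z = c • v := by
  by_cases h0 : v 0 = 0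
  · have h1 : v 1 ≠ 0 := by
      intro h1
      apply hv
      funext i
      fin_cases i
      · exact h0
      · exact h1
    refine ⟨z 1 / v 1, ?_⟩
    funext i
    fin_cases i
    · show z 0 = z 1 / v 1 * v 0
      rw [h0, mul_zero] at h
      rw [h0, mul_zero]
      exact (mul_eq_zero.mp h).resolve_right h1
    · show z 1 = z 1 / v 1 * v 1
      rw [div_mul_cancel₀ _ h1]
  · refine ⟨z 0 / v 0, ?_⟩
    funext i
    fin_cases i
    · show z 0 = z 0 / v 0 * v 0
      rw [div_mul_cancel₀ _ h0]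
    · show z 1 = z 0 / v 0 * v 1
      field_simp
      linear_combination -h

private theorem H2b_line {K : Type*} [Field K] {h : Matrix.SpecialLinearGroup (Fin 2) K}
    (h1 : h ≠ 1) (h2 : h ≠ -1) {s : K} {v z : Fin 2 → K} (hv : v ≠ 0)
    (hs : (h : Matrix (Fin 2) (Fin 2) K).mulVec v = s • v)
    (hz : (h : Matrix (Fin 2) (Fin 2) K).mulVec z = s • z) : ∃ c : K, z = c • v := by
  have a0 := congrFun hs 0
  have a1 := congrFun hs 1
  have b0 := congrFun hz 0
  have b1 := congrFun hz 1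
  simp only [Matrix.mulVec, dotProduct, Fin.sum_univ_two, Pi.smul_apply, smul_eq_mul] at a0 a1 b0 b1
  refine H2b_prop hv ?_
  by_contra hne
  have hne' : z 0 * v 1 - z 1 * v 0 ≠ 0 := fun h' => hne (sub_eq_zero.mp h')
  have c1 : h 0 0 - s = 0 := by
    refine (mul_eq_zero.mp (?_ : (h 0 0 - s) * (z 0 * v 1 - z 1 * v 0) = 0)).resolve_right hne'
    linear_combination v 1 * b0 - z 1 * a0
  have c2 : h 0 1 = 0 := by
    refine (mul_eq_zero.mp (?_ : h 0 1 * (z 0 * v 1 - z 1 * v 0) = 0)).resolve_right hne'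
    linear_combination z 0 * a0 - v 0 * b0
  have c3 : h 1 0 = 0 := by
    refine (mul_eq_zero.mp (?_ : h 1 0 * (z 0 * v 1 - z 1 * v 0) = 0)).resolve_right hne'
    linear_combination v 1 * b1 - z 1 * a1
  have c4 : h 1 1 - s = 0 := by
    refine (mul_eq_zero.mp (?_ : (h 1 1 - s) * (z 0 * v 1 - z 1 * v 0) = 0)).resolve_right hne'
    linear_combination z 0 * a1 - v 0 * b1
  have hd : (h : Matrix (Fin 2) (Fin 2) K).det = 1 := h.2
  rw [Matrix.det_fin_two] at hd
  have e0 : h 0 0 = s := sub_eq_zero.mp c1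
  have e1 : h 1 1 = s := sub_eq_zero.mp c4
  have hss : (s - 1) * (s + 1) = 0 := by
    rw [e0, e1, c2] at hd
    linear_combination hd
  rcases mul_eq_zero.mp hss with h3 | h3
  · apply h1
    have hs1 : s = 1 := sub_eq_zero.mp h3
    ext i j
    rw [Matrix.SpecialLinearGroup.coe_one]
    fin_cases i <;> fin_cases j
    · show h 0 0 = (1 : Matrix (Fin 2) (Fin 2) K) 0 0
      rw [e0, hs1, Matrix.one_apply_eq]
    · show h 0 1 = (1 : Matrix (Fin 2) (Fin 2) K) 0 1
      rw [c2, Matrix.one_apply_ne (by decide)]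
    · show h 1 0 = (1 : Matrix (Fin 2) (Fin 2) K) 1 0
      rw [c3, Matrix.one_apply_ne (by decide)]
    · show h 1 1 = (1 : Matrix (Fin 2) (Fin 2) K) 1 1
      rw [e1, hs1, Matrix.one_apply_eq]
  · apply h2
    have hs1 : s = -1 := by linear_combination h3
    ext i j
    rw [Matrix.SpecialLinearGroup.coe_neg, Matrix.SpecialLinearGroup.coe_one]
    fin_cases i <;> fin_cases j
    · show h 0 0 = (-(1 : Matrix (Fin 2) (Fin 2) K)) 0 0
      rw [e0, hs1, Matrix.neg_apply, Matrix.one_apply_eq]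
    · show h 0 1 = (-(1 : Matrix (Fin 2) (Fin 2) K)) 0 1
      rw [c2, Matrix.neg_apply, Matrix.one_apply_ne (by decide), neg_zero]
    · show h 1 0 = (-(1 : Matrix (Fin 2) (Fin 2) K)) 1 0
      rw [c3, Matrix.neg_apply, Matrix.one_apply_ne (by decide), neg_zero]
    · show h 1 1 = (-(1 : Matrix (Fin 2) (Fin 2) K)) 1 1
      rw [e1, hs1, Matrix.neg_apply, Matrix.one_apply_eq]

private theorem H2b_card {K : Type*} [Field K]
    (H : Subgroup (Matrix.SpecialLinearGroup (Fin 2) K)) [Finite H]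
    {k : Matrix.SpecialLinearGroup (Fin 2) K} (hk : k ∈ H) : k ^ Nat.card H = 1 := by
  have h1 : (⟨k, hk⟩ : H) ^ Nat.card H = 1 := pow_card_eq_one'
  have h2 := congrArg (fun x : H => (x : Matrix.SpecialLinearGroup (Fin 2) K)) h1
  exact h2

/-- PROOF: the map `h ↦ c` (eigenvalue on the line of `v`) is a homomorphism from the stabiliser to `Kˣ`; an element of the kernel is `!![1, x; 0, 1]` in a suitable basis, and its order is the characteristic or infinite if `x ≠ 0`; as `h ^ |H| = 1` means `|H| x = 0`, `x = 0`. So the kernel is trivial and the stabiliser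
is commutative. -/
theorem lstab_comm {K : Type*} [Field K] (H : Subgroup (Matrix.SpecialLinearGroup (Fin 2) K))
    [Finite H] (hc : (Nat.card H : K) ≠ 0) {v : Fin 2 → K} (hv : v ≠ 0)
    {a b : Matrix.SpecialLinearGroup (Fin 2) K} (ha : a ∈ lstab H v) (hb : b ∈ lstab H v) :
    a * b = b * a := by
  obtain ⟨haH, c, hc1⟩ := ha
  obtain ⟨hbH, d, hd1⟩ := hb
  have e1 : ((a * b : Matrix.SpecialLinearGroup (Fin 2) K) : Matrix (Fin 2) (Fin 2) K).mulVec v =
      (c * d) • v := by
    rw [Matrix.SpecialLinearGroup.coe_mul, ← Matrix.mulVec_mulVec, hd1, Matrix.mulVec_smul, hc1,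
      smul_smul, mul_comm]
  have e2 : ((b * a : Matrix.SpecialLinearGroup (Fin 2) K) : Matrix (Fin 2) (Fin 2) K).mulVec v =
      (c * d) • v := by
    rw [Matrix.SpecialLinearGroup.coe_mul, ← Matrix.mulVec_mulVec, hc1, Matrix.mulVec_smul, hd1,
      smul_smul]
  have e3 : (((b * a)⁻¹ * (a * b) : Matrix.SpecialLinearGroup (Fin 2) K) :
      Matrix (Fin 2) (Fin 2) K).mulVec v = v := by
    rw [Matrix.SpecialLinearGroup.coe_mul, ← Matrix.mulVec_mulVec, e1, ← e2, Matrix.mulVec_mulVec,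
      ← Matrix.SpecialLinearGroup.coe_mul, inv_mul_cancel, Matrix.SpecialLinearGroup.coe_one,
      Matrix.one_mulVec]
  have hmem : (b * a)⁻¹ * (a * b) ∈ H :=
    H.mul_mem (H.inv_mem (H.mul_mem hbH haH)) (H.mul_mem haH hbH)
  have h3 := H2b_one _ hv e3 (H2b_card H hmem) hc
  exact (inv_mul_eq_one.mp h3).symm

/-- PROOF: `h` has finite order prime to the characteristic, so it is diagonalisable (`K` algebraically closed; `X ^ n - 1` is separable), with eigenvalues `s, s⁻¹`; `s ≠ s⁻¹` as `h ≠ ±1`. The eigenlines are exactly the lines of the two eigenvectors `v, w`. -/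
theorem two_lines {K : Type*} [Field K] [IsAlgClosed K]
    (H : Subgroup (Matrix.SpecialLinearGroup (Fin 2) K)) [Finite H] (hc : (Nat.card H : K) ≠ 0)
    {h : Matrix.SpecialLinearGroup (Fin 2) K} (hh : h ∈ H) (h1 : h ≠ 1) (h2 : h ≠ -1) :
    ∃ v w : Fin 2 → K, v ≠ 0 ∧ w ≠ 0 ∧ (∀ c : K, w ≠ c • v) ∧ h ∈ lstab H v ∧ h ∈ lstab H w ∧
      ∀ z : Fin 2 → K, z ≠ 0 → h ∈ lstab H z → (∃ c : K, z = c • v) ∨ ∃ c : K, z = c • w := by
  have ht2 : h 0 0 + h 1 1 ≠ 2 := by
    intro ht
    obtain ⟨v, hv, hv2⟩ := H2b_eig h (s := 1) (by rw [ht]; ring)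
    rw [one_smul] at hv2
    exact h1 (H2b_one h hv hv2 (H2b_card H hh) hc)
  have ht3 : h 0 0 + h 1 1 ≠ -2 := by
    intro ht
    by_cases h20 : (2 : K) = 0
    · apply ht2
      rw [ht, h20, neg_zero]
    obtain ⟨v, hv, hv2⟩ := H2b_eig h (s := -1) (by rw [ht]; ring)
    have hv3 : ((-h : Matrix.SpecialLinearGroup (Fin 2) K) :
        Matrix (Fin 2) (Fin 2) K).mulVec v = v := by
      rw [Matrix.SpecialLinearGroup.coe_neg, Matrix.neg_mulVec, hv2, neg_smul, one_smul, neg_neg]
    have hp : (-h) ^ (2 * Nat.card H) = 1 := by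
      rw [pow_mul, neg_sq, ← pow_mul, mul_comm, pow_mul, H2b_card H hh, one_pow]
    have hN : ((2 * Nat.card H : ℕ) : K) ≠ 0 := by
      push_cast
      exact mul_ne_zero h20 hc
    have h4 := H2b_one (-h) hv hv3 hp hN
    apply h2
    rw [← h4, neg_neg]
  obtain ⟨s, hs⟩ : ∃ s : K, s ^ 2 - (h 0 0 + h 1 1) * s + 1 = 0 := by
    obtain ⟨s, hs⟩ := IsAlgClosed.exists_root
      (Polynomial.X ^ 2 - Polynomial.C (h 0 0 + h 1 1) * Polynomial.X + 1 : Polynomial K) (by
        have : (Polynomial.X ^ 2 - Polynomial.C (h 0 0 + h 1 1) * Polynomial.X + 1 :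
            Polynomial K).degree = 2 := by
          compute_degree!
        rw [this]
        decide)
    refine ⟨s, ?_⟩
    simpa [Polynomial.IsRoot] using hs
  have hs' : (h 0 0 + h 1 1 - s) ^ 2 - (h 0 0 + h 1 1) * (h 0 0 + h 1 1 - s) + 1 = 0 := by
    linear_combination hs
  have hne : s ≠ h 0 0 + h 1 1 - s := by
    intro he
    have h5 : (s - 1) * (s + 1) = 0 := by
      have h6 : h 0 0 + h 1 1 = 2 * s := by linear_combination -he
      rw [h6] at hs
      linear_combination -hs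
    rcases mul_eq_zero.mp h5 with h6 | h6
    · apply ht2
      linear_combination -he + 2 * h6
    · apply ht3
      linear_combination -he + 2 * h6
  obtain ⟨v, hv, hv2⟩ := H2b_eig h hs
  obtain ⟨w, hw, hw2⟩ := H2b_eig h hs'
  refine ⟨v, w, hv, hw, ?_, ⟨hh, s, hv2⟩, ⟨hh, _, hw2⟩, ?_⟩
  · intro c hcw
    have h5 : (h : Matrix (Fin 2) (Fin 2) K).mulVec w = s • w := by
      rw [hcw, Matrix.mulVec_smul, hv2, smul_comm]
    rw [hw2] at h5
    have h6 : (h 0 0 + h 1 1 - s - s) • w = 0 := by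
      rw [sub_smul _ s, h5, sub_self]
    rcases smul_eq_zero.mp h6 with h7 | h7
    · exact hne (sub_eq_zero.mp h7).symm
    · exact hw h7
  · rintro z hz ⟨_, c, hcz⟩
    have h5 := H2b_root h hz hcz
    have h6 : (c - s) * (c - (h 0 0 + h 1 1 - s)) = 0 := by
      linear_combination h5 - hs
    rcases mul_eq_zero.mp h6 with h7 | h7
    · left
      rw [sub_eq_zero.mp h7] at hcz
      exact H2b_line h1 h2 hv hv2 hcz
    · right
      rw [sub_eq_zero.mp h7] at hcz
      exact H2b_line h1 h2 hw hw2 hcz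

end Pool.Agent.Lib.MP_3bb35d_al.UE
end
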