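import Pool.Agent.Lib.MP_3bb35d_al.Mg.G006
import Pool.Agent.Lib.MP_3bb35d_al.Mg.G005
import Pool.Agent.Lib.MP_3bb35d_al.Mg.G003
import Pool.Agent.Lib.MP_3bb35d_al.Mg.G001

section

/-!
# Counting in `SL₂(p)`
-/

set_option autoImplicit false

open scoped Pointwise
open Finset

namespace Pool.Agent.Lib.MP_3bb35d_al.UE

variable {p : ℕ} [Fact p.Prime]

private theorem P3c_dual {x : Kb p} (hx : x ≠ 0) : ∃ f : Kb p →ₗ[ZMod p] ZMod p, f x ≠ 0 := by
  set b := Module.Basis.ofVectorSpace (ZMod p) (Kb p) with hb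
  have h1 : b.repr x ≠ 0 := by
    intro h
    exact hx (b.repr.map_eq_zero_iff.1 h)
  obtain ⟨i, hi⟩ := Finsupp.ne_iff.1 h1
  exact ⟨b.coord i, hi⟩

private theorem P3c_ent (P : GL (Fin 2) (Kb p)) (i j : Fin 2) (g : SL2 p) :
    ent P g i j = g 0 0 • ((P⁻¹ : GL (Fin 2) (Kb p)) i 0 * P 0 j) +
      g 0 1 • ((P⁻¹ : GL (Fin 2) (Kb p)) i 0 * P 1 j) +
      g 1 0 • ((P⁻¹ : GL (Fin 2) (Kb p)) i 1 * P 0 j) +
      g 1 1 • ((P⁻¹ : GL (Fin 2) (Kb p)) i 1 * P 1 j) := by
  unfold ent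
  simp only [Matrix.mul_apply, Fin.sum_univ_two, Matrix.map_apply, Algebra.smul_def]
  ring

private theorem P3c_row (P : GL (Fin 2) (Kb p)) (i : Fin 2) :
    ∃ k, (P : Matrix (Fin 2) (Fin 2) (Kb p)) i k ≠ 0 := by
  by_contra h
  push Not at h
  have h1 : (P : Matrix (Fin 2) (Fin 2) (Kb p)) *
      ((P⁻¹ : GL (Fin 2) (Kb p)) : Matrix (Fin 2) (Fin 2) (Kb p)) = 1 := by
    rw [← Units.val_mul, mul_inv_cancel, Units.val_one]
  have h2 := congrFun (congrFun h1 i) i
  rw [Matrix.mul_apply, Fin.sum_univ_two, h 0, h 1] at h2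
  simp at h2

private theorem P3c_col (P : GL (Fin 2) (Kb p)) (j : Fin 2) :
    ∃ k, (P : Matrix (Fin 2) (Fin 2) (Kb p)) k j ≠ 0 := by
  by_contra h
  push Not at h
  have h1 : ((P⁻¹ : GL (Fin 2) (Kb p)) : Matrix (Fin 2) (Fin 2) (Kb p)) *
      (P : Matrix (Fin 2) (Fin 2) (Kb p)) = 1 := by
    rw [← Units.val_mul, inv_mul_cancel, Units.val_one]
  have h2 := congrFun (congrFun h1 j) j
  rw [Matrix.mul_apply, Fin.sum_univ_two, h 0, h 1] at h2
  simp at h2

/-- Each entry of `ent P g` vanishes for at most `2 p ^ 2` elements. PROOF: `ent P g i j = ∑ k l, P⁻¹ i k * P l j * g k l`, the coefficients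
`P⁻¹ i k * P l j` are not all `0` (a row of `P⁻¹` and a column of `P` are nonzero). Choose a `ZMod p`-linear map `f : Kb p → ZMod p` which is nonzero at a nonzero
coefficient (`Module.exists_dual_forall_apply_eq_zero_iff` or a basis); apply `f` to the equation and use `card_linear`. -/
theorem card_ent (P : GL (Fin 2) (Kb p)) (i j : Fin 2) :
    {g : SL2 p | ent P g i j = 0}.ncard ≤ 2 * p ^ 2 := by
  obtain ⟨k, hk⟩ := P3c_row (P⁻¹) i
  obtain ⟨l, hl⟩ := P3c_col P j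
  obtain ⟨f, hf⟩ := P3c_dual (mul_ne_zero hk hl)
  have h := card_linear (f ((P⁻¹ : GL (Fin 2) (Kb p)) i 0 * P 0 j))
    (f ((P⁻¹ : GL (Fin 2) (Kb p)) i 0 * P 1 j)) (f ((P⁻¹ : GL (Fin 2) (Kb p)) i 1 * P 0 j))
    (f ((P⁻¹ : GL (Fin 2) (Kb p)) i 1 * P 1 j)) (by
      rintro ⟨h00, h01, h10, h11⟩
      apply hf
      fin_cases k <;> fin_cases l
      exacts [h00, h01, h10, h11])
  refine (Set.ncard_le_ncard ?_ (Set.toFinite _)).trans h
  intro g hg
  have h1 : ent P g i j = 0 := hg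
  rw [P3c_ent] at h1
  have h2 := congrArg f h1
  rw [map_add, map_add, map_add, map_smul, map_smul, map_smul, map_smul, map_zero] at h2
  simp only [smul_eq_mul] at h2
  show _ = _
  linear_combination h2

/-- PROOF: `4 * (2 p ^ 2) < p ^ 3 - p`, `card_ent`, `card_SL2`. -/
theorem exists_generic (hp : 11 ≤ p) (P : GL (Fin 2) (Kb p)) :
    ∃ g : SL2 p, ∀ i j, ent P g i j ≠ 0 := by
  by_contra hcon
  push Not at hcon
  have hsub : (Set.univ : Set (SL2 p)) ⊆ ({g | ent P g 0 0 = 0} ∪ {g | ent P g 0 1 = 0}) ∪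
      ({g | ent P g 1 0 = 0} ∪ {g | ent P g 1 1 = 0}) := by
    intro g _
    obtain ⟨i, j, h⟩ := hcon g
    fin_cases i <;> fin_cases j
    exacts [Or.inl (Or.inl h), Or.inl (Or.inr h), Or.inr (Or.inl h), Or.inr (Or.inr h)]
  have h1 := Set.ncard_le_ncard hsub (Set.toFinite _)
  rw [Set.ncard_univ, card_SL2] at h1
  have h2 := Set.ncard_union_le ({g : SL2 p | ent P g 0 0 = 0} ∪ {g | ent P g 0 1 = 0})
    ({g | ent P g 1 0 = 0} ∪ {g | ent P g 1 1 = 0})
  have h3 := Set.ncard_union_le {g : SL2 p | ent P g 0 0 = 0} {g | ent P g 0 1 = 0}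
  have h4 := Set.ncard_union_le {g : SL2 p | ent P g 1 0 = 0} {g | ent P g 1 1 = 0}
  have h5 := card_ent P 0 0
  have h6 := card_ent P 0 1
  have h7 := card_ent P 1 0
  have h8 := card_ent P 1 1
  have h9 : p ^ 3 - p ≤ 8 * p ^ 2 := by omega
  have h10 : p ^ 3 ≤ 8 * p ^ 2 + p := by omega
  nlinarith [Nat.mul_le_mul hp hp, Nat.mul_le_mul_left (p ^ 2) hp, Nat.mul_le_mul_left p hp]

end Pool.Agent.Lib.MP_3bb35d_al.UE
end

section

end

section

/-!
# Elements of `A ^ 16` in general position; the product map of three torus elements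
-/

set_option autoImplicit false

open scoped Pointwise
open Finset

namespace Pool.Agent.Lib.MP_3bb35d_al.UE

variable {p : ℕ} [Fact p.Prime]

private theorem P4a_quartic {E : Type*} [Field E] (a b c : E) (ha : a ≠ 0) (T : Finset E)
    (hT : ∀ s ∈ T, a * s ^ 4 + b * s ^ 2 + c = 0) : #T ≤ 4 := by
  let P : Polynomial E := Polynomial.C a * Polynomial.X ^ 4 + Polynomial.C b * Polynomial.X ^ 2 +
    Polynomial.C c
  have hcoef : P.coeff 4 = a := by
    simp only [P, Polynomial.coeff_add, Polynomial.coeff_C_mul, Polynomial.coeff_X_pow,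
      Polynomial.coeff_C]
    norm_num
  have hP : P ≠ 0 := by
    intro h
    rw [h, Polynomial.coeff_zero] at hcoef
    exact ha hcoef.symm
  have hdeg : P.natDegree ≤ 4 := by
    simp only [P]
    compute_degree
  refine le_trans (Polynomial.card_le_degree_of_subset_roots (p := P) ?_) hdeg
  intro s hs
  rw [Polynomial.mem_roots hP, Polynomial.IsRoot.def]
  simp only [P, Polynomial.eval_add, Polynomial.eval_mul, Polynomial.eval_C, Polynomial.eval_pow,
    Polynomial.eval_X]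
  exact hT s hs

/-- PROOF: `escape_prod` with `k = 4`, `M = ent P` (a monoid homomorphism by `ent_mul`, `ent_one`), `I = ![0, 0, 1, 1]`, `J = ![0, 1, 0, 1]`, and `exists_generic`. -/
theorem exists_generic_pow (hp : 11 ≤ p) {A : Finset (SL2 p)} {K : ℝ} (hA : Apx p A K)
    (P : GL (Fin 2) (Kb p)) : ∃ g ∈ A ^ 16, ∀ i j, ent P g i j ≠ 0 := by
  by_contra hcon
  push Not at hcon
  let M : SL2 p →* Matrix (Fin 2) (Fin 2) (Kb p) :=
    { toFun := ent P
      map_one' := ent_one P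
      map_mul' := ent_mul P }
  obtain ⟨g, hg⟩ := exists_generic hp P
  have h1 := escape_prod 4 M ![0, 0, 1, 1] ![0, 1, 0, 1] hA.one hA.inv hA.gen (n := 16)
    (by norm_num) (by
      intro g hg
      obtain ⟨i, j, hij⟩ := hcon g hg
      rw [Fin.prod_univ_four]
      have hM : M g = ent P g := rfl
      rw [hM]
      fin_cases i <;> fin_cases j <;> simp_all) g
  rw [Fin.prod_univ_four] at h1
  have hM : M g = ent P g := rfl
  rw [hM] at h1
  have h2 : ent P g 0 0 * ent P g 0 1 * ent P g 1 0 * ent P g 1 1 = 0 := h1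
  exact (mul_ne_zero (mul_ne_zero (mul_ne_zero (hg 0 0) (hg 0 1)) (hg 1 0)) (hg 1 1)) h2

/-- Over a field: the number of `s` with given `x z`, where `x = α² s + β γ / s`, `z = β γ s + δ² / s`. PROOF: `S = s²` is a root of the quadratic polynomial
`α² β γ S² + (α² δ² + β² γ² - r) S + β γ δ²` with leading coefficient `≠ 0`: at most two values of `S`, and each has at most two square roots. -/
theorem card_s {E : Type*} [Field E] (α β γ δ r : E) (hα : α ≠ 0) (hβ : β ≠ 0) (hγ : γ ≠ 0)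
    (T : Finset E)
    (hT : ∀ s ∈ T, s ≠ 0 ∧ (α ^ 2 * s + β * γ * s⁻¹) * (β * γ * s + δ ^ 2 * s⁻¹) = r) :
    #T ≤ 4 := by
  refine P4a_quartic (α ^ 2 * (β * γ)) (α ^ 2 * δ ^ 2 + β ^ 2 * γ ^ 2 - r) (β * γ * δ ^ 2)
    (mul_ne_zero (pow_ne_zero 2 hα) (mul_ne_zero hβ hγ)) T fun s hs => ?_
  obtain ⟨h0, h1⟩ := hT s hs
  rw [← h1]
  field_simp
  ring

/-- The exceptional values. PROOF: `s² = - β γ / α²` or `s² = - δ / α`. -/
theorem card_exc {E : Type*} [Field E] (α β γ δ : E) (hα : α ≠ 0) (T : Finset E)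
    (hT : ∀ s ∈ T, s ≠ 0 ∧ (α ^ 2 * s + β * γ * s⁻¹ = 0 ∨ α * s + δ * s⁻¹ = 0)) :
    #T ≤ 4 := by
  refine P4a_quartic (α ^ 3) (α ^ 2 * δ + α * β * γ) (β * γ * δ) (pow_ne_zero 3 hα) T
    fun s hs => ?_
  obtain ⟨h0, h1⟩ := hT s hs
  have h2 : (α ^ 2 * s ^ 2 + β * γ) * (α * s ^ 2 + δ) = 0 := by
    rcases h1 with h1 | h1
    · have h3 : α ^ 2 * s ^ 2 + β * γ = (α ^ 2 * s + β * γ * s⁻¹) * s := by
        field_simp
      rw [h3, h1, zero_mul, zero_mul]
    · have h3 : α * s ^ 2 + δ = (α * s + δ * s⁻¹) * s := by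
        field_simp
      rw [h3, h1, zero_mul, mul_zero]
  rw [← h2]
  ring

end Pool.Agent.Lib.MP_3bb35d_al.UE
end

section

/-!
# Elements of `A ^ 16` in general position; the product map of three torus elements
-/

set_option autoImplicit false

open scoped Pointwise
open Finset

namespace Pool.Agent.Lib.MP_3bb35d_al.UE

variable {p : ℕ} [Fact p.Prime]

private theorem P4b_sqs {E : Type*} [Field E] (c : E) (S : Finset E)
    (hS : ∀ s ∈ S, s ^ 2 = c) : #S ≤ 2 := by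
  classical
  rcases S.eq_empty_or_nonempty with h | ⟨s0, h0⟩
  · simp [h]
  · have h1 : S ⊆ {s0, -s0} := by
      intro s hs
      have h2 := (hS s hs).trans (hS s0 h0).symm
      rcases sq_eq_sq_iff_eq_or_eq_neg.mp h2 with h | h <;> simp [h]
    exact (card_le_card h1).trans card_le_two

private theorem P4b_tor (P : GL (Fin 2) (Kb p)) {t : SL2 p} (ht : t ∈ tor P) :
    ent P t 0 0 ≠ 0 ∧ ent P t 1 1 = (ent P t 0 0)⁻¹ := by
  obtain ⟨h1, h2⟩ := ht
  have h := det_ent P t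
  rw [h1, zero_mul, sub_zero] at h
  exact ⟨left_ne_zero_of_mul_eq_one h, eq_inv_of_mul_eq_one_right h⟩

private theorem P4b_gtg (P : GL (Fin 2) (Kb p)) (g : SL2 p) {t : SL2 p} (ht : t ∈ tor P) :
    ent P (g * t * g) 0 0 = ent P g 0 0 ^ 2 * ent P t 0 0
        + ent P g 0 1 * ent P g 1 0 * (ent P t 0 0)⁻¹ ∧
    ent P (g * t * g) 0 1 = ent P g 0 1 * (ent P g 0 0 * ent P t 0 0
        + ent P g 1 1 * (ent P t 0 0)⁻¹) ∧
    ent P (g * t * g) 1 1 = ent P g 0 1 * ent P g 1 0 * ent P t 0 0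
        + ent P g 1 1 ^ 2 * (ent P t 0 0)⁻¹ := by
  obtain ⟨h0, h1⟩ := P4b_tor P ht
  obtain ⟨h2, h3⟩ := ht
  simp only [ent_mul, Matrix.mul_apply, Fin.sum_univ_two, h2, h3, h1]
  refine ⟨by ring, by ring, by ring⟩

private theorem P4b_tXt (P : GL (Fin 2) (Kb p)) (X : SL2 p) {t₁ t₃ : SL2 p} (h₁ : t₁ ∈ tor P)
    (h₃ : t₃ ∈ tor P) :
    ent P (t₁ * X * t₃) 0 0 = ent P t₁ 0 0 * ent P X 0 0 * ent P t₃ 0 0 ∧
    ent P (t₁ * X * t₃) 0 1 = ent P t₁ 0 0 * ent P X 0 1 * (ent P t₃ 0 0)⁻¹ ∧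
    ent P (t₁ * X * t₃) 1 1 = (ent P t₁ 0 0)⁻¹ * ent P X 1 1 * (ent P t₃ 0 0)⁻¹ := by
  obtain ⟨a0, a1⟩ := P4b_tor P h₁
  obtain ⟨b0, b1⟩ := P4b_tor P h₃
  obtain ⟨a2, a3⟩ := h₁
  obtain ⟨b2, b3⟩ := h₃
  simp only [ent_mul, Matrix.mul_apply, Fin.sum_univ_two, a2, a3, a1, b2, b3, b1]
  refine ⟨by ring, by ring, by ring⟩

/-- The fibres of `(t₁, t₂, t₃) ↦ t₁ g t₂ g t₃`. PROOF: write `sᵢ = ent P tᵢ 0 0`, `ent P tᵢ = diag(sᵢ, sᵢ⁻¹)` and `ent P g = !![α, β; γ, δ]`. The matrix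
`R = ent P (t₁ g t₂ g t₃)` has the entries `R₀₀ = s₁ s₃ x`, `R₀₁ = s₁ s₃⁻¹ β y`, `R₁₀ = s₁⁻¹ s₃ γ y`, `R₁₁ = s₁⁻¹ s₃⁻¹ z` with `x = α² s + β γ / s`,
`y = α s + δ / s`, `z = β γ s + δ² / s`, `s = s₂`. So `x z = R₀₀ R₁₁` is given: at most four values of `s₂` (`card_s`), and for given `s₂` with `x, y ≠ 0` the values
`s₁ s₃` and `s₁ / s₃` are given, so at most two `s₁`, and `s₃` is determined: at most eight triples (`tor_ext`). -/
theorem card_fibre3 (P : GL (Fin 2) (Kb p)) (g : SL2 p) (hg : ∀ i j, ent P g i j ≠ 0) (R : SL2 p)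
    (T : Finset (SL2 p × SL2 p × SL2 p))
    (hT : ∀ t ∈ T, t.1 ∈ tor P ∧ t.2.1 ∈ tor P ∧ t.2.2 ∈ tor P ∧
      t.1 * g * t.2.1 * g * t.2.2 = R ∧
      ent P (g * t.2.1 * g) 0 0 ≠ 0 ∧ ent P (g * t.2.1 * g) 0 1 ≠ 0) :
    #T ≤ 8 := by
  classical
  -- the image under the middle coordinate
  have himg : #(T.image fun t => ent P t.2.1 0 0) ≤ 4 := by
    refine card_s (ent P g 0 0) (ent P g 0 1) (ent P g 1 0) (ent P g 1 1)
      (ent P R 0 0 * ent P R 1 1) (hg 0 0) (hg 0 1) (hg 1 0) _ ?_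
    intro s hs
    obtain ⟨t, ht, rfl⟩ := Finset.mem_image.mp hs
    obtain ⟨h1, h2, h3, hR, hx, hy⟩ := hT t ht
    refine ⟨(P4b_tor P h2).1, ?_⟩
    obtain ⟨e1, e2, e3⟩ := P4b_gtg P g h2
    have hR' : t.1 * (g * t.2.1 * g) * t.2.2 = R := by
      rw [← hR]; simp only [mul_assoc]
    obtain ⟨f1, f2, f3⟩ := P4b_tXt P (g * t.2.1 * g) h1 h3
    rw [hR'] at f1 f2 f3
    rw [← e1, ← e3, f1, f3]
    have n1 := (P4b_tor P h1).1
    have n3 := (P4b_tor P h3).1
    field_simp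
  have hfib : ∀ s ∈ (T.image fun t => ent P t.2.1 0 0),
      #(T.filter fun t => ent P t.2.1 0 0 = s) ≤ 2 := by
    intro s hs
    obtain ⟨t₀, ht₀, hs₀⟩ := Finset.mem_image.mp hs
    obtain ⟨h1, h2, h3, hR, hx, hy⟩ := hT t₀ ht₀
    -- constants
    set x := ent P (g * t₀.2.1 * g) 0 0 with hxdef
    set y := ent P (g * t₀.2.1 * g) 0 1 with hydef
    have hprop : ∀ t ∈ T.filter (fun t => ent P t.2.1 0 0 = s),
        t.2.1 = t₀.2.1 ∧ t.1 ∈ tor P ∧ t.2.2 ∈ tor P ∧
        ent P R 0 0 = ent P t.1 0 0 * x * ent P t.2.2 0 0 ∧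
        ent P R 0 1 = ent P t.1 0 0 * y * (ent P t.2.2 0 0)⁻¹ := by
      intro t ht
      obtain ⟨ht, hts⟩ := Finset.mem_filter.mp ht
      obtain ⟨h1', h2', h3', hR', hx', hy'⟩ := hT t ht
      have e : t.2.1 = t₀.2.1 := tor_ext P h2' h2 (by rw [hts]; exact hs₀.symm)
      obtain ⟨f1, f2, f3⟩ := P4b_tXt P (g * t.2.1 * g) h1' h3'
      have hR'' : t.1 * (g * t.2.1 * g) * t.2.2 = R := by
        rw [← hR']; simp only [mul_assoc]
      rw [hR'', e] at f1 f2
      exact ⟨e, h1', h3', f1, f2⟩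
    have hinj : Set.InjOn (fun t : SL2 p × SL2 p × SL2 p => ent P t.1 0 0)
        (T.filter fun t => ent P t.2.1 0 0 = s) := by
      intro t ht t' ht' htt
      have htt : ent P t.1 0 0 = ent P t'.1 0 0 := htt
      obtain ⟨a1, a2, a3, a4, a5⟩ := hprop t (by simpa using ht)
      obtain ⟨b1, b2, b3, b4, b5⟩ := hprop t' (by simpa using ht')
      have c1 : t.1 = t'.1 := tor_ext P a2 b2 htt
      have n1 := (P4b_tor P b2).1
      have c3 : ent P t.2.2 0 0 = ent P t'.2.2 0 0 := by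
        rw [a4, htt] at b4
        exact mul_left_cancel₀ (mul_ne_zero n1 hx) b4
      have c2 : t.2.2 = t'.2.2 := tor_ext P a3 b3 c3
      exact Prod.ext c1 (Prod.ext (a1.trans b1.symm) c2)
    rw [← Finset.card_image_of_injOn hinj]
    refine P4b_sqs ((ent P R 0 0 / x) * (ent P R 0 1 / y)) _ ?_
    intro u hu
    obtain ⟨t, ht, rfl⟩ := Finset.mem_image.mp hu
    obtain ⟨a1, a2, a3, a4, a5⟩ := hprop t ht
    have n3 := (P4b_tor P a3).1
    rw [a4, a5]
    field_simp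
  have h := Finset.card_le_mul_card_image (f := fun t : SL2 p × SL2 p × SL2 p => ent P t.2.1 0 0)
    T 2 hfib
  omega

/-- The exceptional elements. PROOF: `ent P (g t g) 0 0 = α² s + β γ / s` and `ent P (g t g) 0 1 = β (α s + δ / s)`; `card_exc`, `tor_ext`. -/
theorem card_exc_tor (P : GL (Fin 2) (Kb p)) (g : SL2 p) (hg : ∀ i j, ent P g i j ≠ 0)
    (T : Finset (SL2 p))
    (hT : ∀ t ∈ T, t ∈ tor P ∧ (ent P (g * t * g) 0 0 = 0 ∨ ent P (g * t * g) 0 1 = 0)) :
    #T ≤ 4 := by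
  classical
  have hinj : Set.InjOn (fun t : SL2 p => ent P t 0 0) T := by
    intro t ht t' ht' h
    exact tor_ext P (hT t ht).1 (hT t' ht').1 h
  rw [← Finset.card_image_of_injOn hinj]
  refine card_exc (ent P g 0 0) (ent P g 0 1) (ent P g 1 0) (ent P g 1 1) (hg 0 0) _ ?_
  intro s hs
  obtain ⟨t, ht, rfl⟩ := Finset.mem_image.mp hs
  obtain ⟨h1, h2⟩ := hT t ht
  refine ⟨(P4b_tor P h1).1, ?_⟩
  obtain ⟨e1, e2, e3⟩ := P4b_gtg P g h1
  rcases h2 with h | h
  · left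
    rw [← e1]; exact h
  · right
    rw [e2] at h
    exact (mul_eq_zero.mp h).resolve_left (hg 0 1)

end Pool.Agent.Lib.MP_3bb35d_al.UE
end

section

/-!
# Bessel's inequality and the largest eigenvalue
-/

set_option autoImplicit false
set_option linter.unusedSectionVars false

open Finset

namespace Pool.Agent.Lib.MP_3bb35d_al.UE

variable {G : Type*} [Group G] [Fintype G]

private theorem Q2_bessel {ι : Type*} [Fintype ι] [DecidableEq ι] (e : ι → G → ℝ)
    (he : ∀ i j, ip (e i) (e j) = if i = j then 1 else 0) (a : G → ℝ) :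
    ∑ i, (ip a (e i)) ^ 2 ≤ nsq a := by
  have h0 : 0 ≤ ∑ g, (a g - ∑ i, ip a (e i) * e i g) ^ 2 := sum_nonneg fun g _ => sq_nonneg _
  have h1 : ∑ g, a g * ∑ i, ip a (e i) * e i g = ∑ i, (ip a (e i)) ^ 2 := by
    simp only [mul_sum]
    rw [sum_comm]
    refine sum_congr rfl fun i _ => ?_
    calc ∑ g, a g * (ip a (e i) * e i g) = ip a (e i) * ∑ g, a g * e i g := by
          rw [mul_sum]
          exact sum_congr rfl fun g _ => by ring
      _ = _ := by
          rw [sq]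
          rfl
  have h2 : ∑ g, (∑ i, ip a (e i) * e i g) * (∑ j, ip a (e j) * e j g) =
      ∑ i, (ip a (e i)) ^ 2 := by
    calc ∑ g, (∑ i, ip a (e i) * e i g) * (∑ j, ip a (e j) * e j g) =
          ∑ g, ∑ i, ∑ j, ip a (e i) * ip a (e j) * (e i g * e j g) := by
          refine sum_congr rfl fun g _ => ?_
          rw [sum_mul_sum]
          exact sum_congr rfl fun i _ => sum_congr rfl fun j _ => by ring
      _ = ∑ i, ∑ j, ip a (e i) * ip a (e j) * ip (e i) (e j) := by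
          rw [sum_comm]
          refine sum_congr rfl fun i _ => ?_
          rw [sum_comm]
          refine sum_congr rfl fun j _ => ?_
          rw [← mul_sum]
          rfl
      _ = ∑ i, (ip a (e i)) ^ 2 := by
          refine sum_congr rfl fun i _ => ?_
          simp only [he, mul_ite, mul_one, mul_zero]
          rw [sum_ite_eq, if_pos (mem_univ _), sq]
  have h3 : ∑ g, (a g - ∑ i, ip a (e i) * e i g) ^ 2 =
      nsq a - 2 * (∑ g, a g * ∑ i, ip a (e i) * e i g) +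
      ∑ g, (∑ i, ip a (e i) * e i g) * (∑ j, ip a (e j) * e j g) := by
    unfold nsq
    rw [mul_sum, ← sum_sub_distrib, ← sum_add_distrib]
    exact sum_congr rfl fun g _ => by ring
  rw [h3, h1, h2] at h0
  linarith

private theorem Q2_conv (ν e : G → ℝ) (g : G) : conv ν e g = ip (fun k => ν (g * k⁻¹)) e := by
  unfold conv ip
  refine (Equiv.sum_comp ((Equiv.inv G).trans (Equiv.mulLeft g))
    (fun h => ν h * e (h⁻¹ * g))).symm.trans ?_
  refine sum_congr rfl fun k _ => ?_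
  change ν (g * k⁻¹) * e ((g * k⁻¹)⁻¹ * g) = _
  have h : (g * k⁻¹)⁻¹ * g = k := by group
  rw [h]

private theorem Q2_nsq (ν : G → ℝ) (g : G) : nsq (fun k => ν (g * k⁻¹)) = nsq ν := by
  unfold nsq
  exact Equiv.sum_comp ((Equiv.inv G).trans (Equiv.mulLeft g)) (fun h => ν h ^ 2)

private theorem Q2_nsq_add (f g : G → ℝ) (t : ℝ) :
    nsq (f + t • g) = nsq f + 2 * t * ip f g + t ^ 2 * nsq g := by
  unfold nsq ip
  rw [mul_sum, mul_sum, ← sum_add_distrib, ← sum_add_distrib]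
  refine sum_congr rfl fun x _ => ?_
  rw [Pi.add_apply, Pi.smul_apply, smul_eq_mul]
  ring

private theorem Q2_nsq_smul (f : G → ℝ) (t : ℝ) : nsq (t • f) = t ^ 2 * nsq f := by
  unfold nsq
  rw [mul_sum]
  refine sum_congr rfl fun x _ => ?_
  rw [Pi.smul_apply, smul_eq_mul]
  ring

private theorem Q2_nsq_nonneg (f : G → ℝ) : 0 ≤ nsq f := sum_nonneg fun g _ => sq_nonneg _

private theorem Q2_nsq_eq_zero {f : G → ℝ} (h : nsq f = 0) : f = 0 := by
  funext g
  have h1 := (sum_eq_zero_iff_of_nonneg (fun g _ => sq_nonneg (f g))).1 h g (mem_univ g)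
  exact pow_eq_zero_iff two_ne_zero |>.1 h1

private theorem Q2_ip_self (f : G → ℝ) : ip f f = nsq f := by
  unfold ip nsq
  exact sum_congr rfl fun g _ => by ring

private theorem Q2_max (ν : G → ℝ) (hG : 1 < Nat.card G) :
    ∃ f₀ : G → ℝ, nsq f₀ = 1 ∧ ∑ g, f₀ g = 0 ∧
      ∀ f : G → ℝ, nsq f = 1 → ∑ g, f g = 0 → nsq (conv ν f) ≤ nsq (conv ν f₀) := by
  classical
  have hc : Continuous (fun f : G → ℝ => nsq f) := by
    unfold nsq
    exact continuous_finset_sum _ fun g _ => (continuous_apply g).pow 2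
  have hs : Continuous (fun f : G → ℝ => ∑ g, f g) :=
    continuous_finset_sum _ fun g _ => continuous_apply g
  have hcv : Continuous (fun f : G → ℝ => conv ν f) := by
    refine continuous_pi fun g => ?_
    unfold conv
    exact continuous_finset_sum _ fun h _ => (continuous_apply _).const_mul _
  set S : Set (G → ℝ) := {f | nsq f = 1} ∩ {f | ∑ g, f g = 0} with hS
  have hcl : IsClosed S := (isClosed_singleton.preimage hc).inter (isClosed_singleton.preimage hs)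
  have hK : IsCompact S := by
    refine IsCompact.of_isClosed_subset
      (isCompact_univ_pi (fun _ : G => isCompact_Icc (a := (-1 : ℝ)) (b := 1))) hcl ?_
    intro f hf g _
    have h1 : f g ^ 2 ≤ 1 := by
      have h2 : nsq f = 1 := hf.1
      rw [← h2]
      exact single_le_sum (f := fun g => f g ^ 2) (fun g _ => sq_nonneg _) (mem_univ g)
    exact abs_le.1 (abs_le_of_sq_le_sq' (by rw [one_pow]; exact h1) zero_le_one |> abs_le.2)
  have hne : S.Nonempty := by
    rw [Nat.card_eq_fintype_card, Fintype.one_lt_card_iff] at hG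
    obtain ⟨a, b, hab⟩ := hG
    obtain ⟨u, hu⟩ : ∃ u : G → ℝ, u = fun g => (if g = a then 1 else 0) - (if g = b then 1 else 0) :=
      ⟨_, rfl⟩
    have hu0 : ∑ g, u g = 0 := by
      rw [hu, sum_sub_distrib, sum_ite_eq', sum_ite_eq', if_pos (mem_univ _), if_pos (mem_univ _),
        sub_self]
    have hun : nsq u ≠ 0 := by
      intro h
      have h1 := congrFun (Q2_nsq_eq_zero h) a
      rw [hu] at h1
      simp only [if_true, if_neg hab, sub_zero, Pi.zero_apply] at h1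
      exact one_ne_zero h1
    have hup : 0 < nsq u := lt_of_le_of_ne (Q2_nsq_nonneg u) (Ne.symm hun)
    refine ⟨(Real.sqrt (nsq u))⁻¹ • u, ?_, ?_⟩
    · change nsq _ = 1
      rw [Q2_nsq_smul, inv_pow, Real.sq_sqrt hup.le, inv_mul_cancel₀ hun]
    · change ∑ g, ((Real.sqrt (nsq u))⁻¹ • u) g = 0
      simp only [Pi.smul_apply, smul_eq_mul]
      rw [← mul_sum, hu0, mul_zero]
  obtain ⟨f₀, hf₀, hmax⟩ := hK.exists_isMaxOn hne (hc.comp hcv).continuousOn
  exact ⟨f₀, hf₀.1, hf₀.2, fun f h1 h2 => hmax ⟨h1, h2⟩⟩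

/-- PROOF. `conv ν e g = ∑ k, ν (g * k⁻¹) * e k = ip (ν_g) e` with `ν_g k = ν (g * k⁻¹)`, `nsq ν_g = nsq ν`. Bessel: `∑ i, (ip ν_g (e i)) ^ 2 ≤ nsq ν_g` for every `g` (`nsq (ν_g - ∑ i, ip ν_g (e i) • e i) ≥ 0`). Sum over `g`. -/
theorem bessel (ν : G → ℝ) {ι : Type*} [Fintype ι] [DecidableEq ι] (e : ι → G → ℝ)
    (he : ∀ i j, ip (e i) (e j) = if i = j then 1 else 0) :
    ∑ i, nsq (conv ν (e i)) ≤ Nat.card G * nsq ν := by
  have h1 : ∀ i, nsq (conv ν (e i)) = ∑ g, (ip (fun k => ν (g * k⁻¹)) (e i)) ^ 2 := by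
    intro i
    unfold nsq
    exact sum_congr rfl fun g _ => by rw [Q2_conv]
  simp only [h1]
  rw [sum_comm]
  calc ∑ g, ∑ i, (ip (fun k => ν (g * k⁻¹)) (e i)) ^ 2 ≤ ∑ _g : G, nsq ν :=
        sum_le_sum fun g _ => (Q2_bessel e he _).trans (Q2_nsq ν g).le
    _ = Nat.card G * nsq ν := by
        rw [sum_const, nsmul_eq_mul, card_univ, Nat.card_eq_fintype_card]

/-- PROOF. The operator `S f = conv ν (conv ν f)` maps the space `W` of functions of sum zero to itself (`sum_conv`) and is symmetric for `ip` (`ip_conv`). `W ≠ 0` as `|G| ≥ 2`. The quadratic form `ip (S f) f = nsq (conv ν f)` attains its maximum `lam` on the unit sphere of `W` (finite dimension), and a maximizer is an eigenvector: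
Mathlib `LinearMap.IsSymmetric.hasEigenvalue_iSup_of_finiteDimensional` or `IsSelfAdjoint.hasEigenvector_of_isMaxOn` for a subspace of `EuclideanSpace ℝ G`; or directly with Lagrange: for `f` a maximizer and `g ∈ W` orthogonal to `f`: `ip (S f) g = 0`. -/
theorem top_eigen (ν : G → ℝ) (hν : ∀ g, ν g⁻¹ = ν g) (hG : 1 < Nat.card G) :
    ∃ lam : ℝ, (∀ f : G → ℝ, ∑ g, f g = 0 → nsq (conv ν f) ≤ lam * nsq f) ∧
      ∃ f : G → ℝ, f ≠ 0 ∧ ∑ g, f g = 0 ∧ conv ν (conv ν f) = lam • f := by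
  obtain ⟨f₀, hn, hs, hmax⟩ := Q2_max ν hG
  have hle : ∀ f : G → ℝ, ∑ g, f g = 0 → nsq (conv ν f) ≤ nsq (conv ν f₀) * nsq f := by
    intro f hf
    by_cases h0 : nsq f = 0
    · rw [Q2_nsq_eq_zero h0]
      have h1 : conv ν (0 : G → ℝ) = 0 := by
        funext g
        unfold conv
        simp
      have h2 : nsq (0 : G → ℝ) = 0 := by
        unfold nsq
        simp
      rw [h1, h2, mul_zero]
    · have hp : 0 < nsq f := lt_of_le_of_ne (Q2_nsq_nonneg f) (Ne.symm h0)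
      have h1 := hmax ((Real.sqrt (nsq f))⁻¹ • f)
        (by rw [Q2_nsq_smul, inv_pow, Real.sq_sqrt hp.le, inv_mul_cancel₀ h0])
        (by
          simp only [Pi.smul_apply, smul_eq_mul]
          rw [← mul_sum, hf, mul_zero])
      rw [conv_smul, Q2_nsq_smul, inv_pow, Real.sq_sqrt hp.le, ← div_eq_inv_mul,
        div_le_iff₀ hp] at h1
      exact h1
  refine ⟨nsq (conv ν f₀), hle, f₀, ?_, hs, ?_⟩
  · intro h
    rw [h] at hn
    unfold nsq at hn
    simp at hn
  · set lam := nsq (conv ν f₀) with hlam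
    set g : G → ℝ := conv ν (conv ν f₀) - lam • f₀ with hg
    have hg0 : ∑ x, g x = 0 := by
      rw [hg]
      simp only [Pi.sub_apply, Pi.smul_apply, smul_eq_mul]
      rw [sum_sub_distrib, sum_conv, sum_conv, ← mul_sum, hs]
      ring
    set X : ℝ := ip (conv ν f₀) (conv ν g) - lam * ip f₀ g with hX
    set Y : ℝ := lam * nsq g - nsq (conv ν g) with hY
    have hY0 : 0 ≤ Y := by
      have := hle g hg0
      linarith
    have key : ∀ t : ℝ, 2 * t * X ≤ t ^ 2 * Y := by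
      intro t
      have h1 := hle (f₀ + t • g) (by
        simp only [Pi.add_apply, Pi.smul_apply, smul_eq_mul]
        rw [sum_add_distrib, ← mul_sum, hs, hg0]
        ring)
      rw [conv_add, conv_smul, Q2_nsq_add, Q2_nsq_add, hn, ← hlam] at h1
      rw [hX, hY]
      linarith
    have hX0 : X = 0 := by
      have h1 := key (X / (Y + 1))
      have h2 : 0 < Y + 1 := by linarith
      have h3 : 2 * (X / (Y + 1)) * X = 2 * X ^ 2 * (Y + 1) / (Y + 1) ^ 2 := by
        field_simp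
      have h4 : (X / (Y + 1)) ^ 2 * Y = X ^ 2 * Y / (Y + 1) ^ 2 := by
        field_simp
      rw [h3, h4, div_le_div_iff_of_pos_right (by positivity)] at h1
      have h5 : X ^ 2 * (Y + 2) ≤ 0 := by nlinarith
      have h6 : 0 ≤ X ^ 2 * Y := mul_nonneg (sq_nonneg X) hY0
      have h7 : X ^ 2 ≤ 0 := by nlinarith
      exact pow_eq_zero_iff two_ne_zero |>.1 (le_antisymm h7 (sq_nonneg X))
    have h8 : ip (conv ν (conv ν f₀)) g = ip (conv ν f₀) (conv ν g) := ip_conv ν _ _ hν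
    have h9 : nsq g = ip (conv ν (conv ν f₀)) g - lam * ip f₀ g := by
      rw [← Q2_ip_self]
      unfold ip
      rw [mul_sum, ← sum_sub_distrib]
      refine sum_congr rfl fun x _ => ?_
      nth_rewrite 1 [hg]
      rw [Pi.sub_apply, Pi.smul_apply, smul_eq_mul]
      ring
    rw [h8, ← hX, hX0] at h9
    have h10 := Q2_nsq_eq_zero h9
    rw [hg, sub_eq_zero] at h10
    exact h10

end Pool.Agent.Lib.MP_3bb35d_al.UE
end

section

/-!
# Quasirandomness
-/

set_option autoImplicit false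

open Finset

namespace Pool.Agent.Lib.MP_3bb35d_al.UE

variable {p : ℕ} [Fact p.Prime]

private theorem Q3_conv_translate {G : Type*} [Group G] [Fintype G] (ν f : G → ℝ) (x : G) :
    conv ν (fun g => f (g * x)) = fun g => conv ν f (g * x) := by
  funext g
  unfold conv
  refine Finset.sum_congr rfl fun h _ => ?_
  show ν h * f (h⁻¹ * g * x) = ν h * f (h⁻¹ * (g * x))
  rw [mul_assoc]

private theorem Q3_nsq_ip {G : Type*} [Group G] [Fintype G] (f : G → ℝ) : nsq f = ip f f := by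
  unfold nsq ip
  refine Finset.sum_congr rfl fun g _ => ?_
  ring

/-- The eigenspace. -/
private def Q3_E {G : Type*} [Group G] [Fintype G] (ν : G → ℝ) (lam : ℝ) :
    Submodule ℝ (G → ℝ) where
  carrier := {f | ∑ g, f g = 0 ∧ conv ν (conv ν f) = lam • f}
  add_mem' := by
    rintro a b ⟨ha, ha'⟩ ⟨hb, hb'⟩
    refine ⟨?_, ?_⟩
    · simp only [Pi.add_apply, Finset.sum_add_distrib, ha, hb, add_zero]
    · rw [conv_add, conv_add, ha', hb', smul_add]
  zero_mem' := by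
    refine ⟨by simp, ?_⟩
    have h0 : conv ν (0 : G → ℝ) = 0 := by
      funext g
      simp [conv]
    rw [h0, h0, smul_zero]
  smul_mem' := by
    rintro c a ⟨ha, ha'⟩
    refine ⟨?_, ?_⟩
    · simp only [Pi.smul_apply, smul_eq_mul, ← Finset.mul_sum, ha, mul_zero]
    · rw [conv_smul, conv_smul, ha', smul_comm]

private theorem Q3_mem {G : Type*} [Group G] [Fintype G] {ν : G → ℝ} {lam : ℝ} {f : G → ℝ} :
    f ∈ Q3_E ν lam ↔ ∑ g, f g = 0 ∧ conv ν (conv ν f) = lam • f := Iff.rfl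

private theorem Q3_translate_mem {G : Type*} [Group G] [Fintype G] {ν : G → ℝ} {lam : ℝ}
    {f : G → ℝ} (hf : f ∈ Q3_E ν lam) (x : G) : (fun g => f (g * x)) ∈ Q3_E ν lam := by
  obtain ⟨h1, h2⟩ := Q3_mem.1 hf
  refine Q3_mem.2 ⟨?_, ?_⟩
  · rw [← h1]
    exact Fintype.sum_equiv (Equiv.mulRight x) _ _ fun g => rfl
  · rw [Q3_conv_translate, Q3_conv_translate, h2]
    rfl

/-- The representation by right translations. -/
private def Q3_rho {G : Type*} [Group G] [Fintype G] (ν : G → ℝ) (lam : ℝ) :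
    G →* (Q3_E ν lam →ₗ[ℝ] Q3_E ν lam) where
  toFun x :=
    { toFun := fun f => ⟨fun g => f.1 (g * x), Q3_translate_mem f.2 x⟩
      map_add' := fun a b => rfl
      map_smul' := fun c a => rfl }
  map_one' := by
    refine LinearMap.ext fun f => Subtype.ext ?_
    funext g
    show f.1 (g * 1) = f.1 g
    rw [mul_one]
  map_mul' x y := by
    refine LinearMap.ext fun f => Subtype.ext ?_
    funext g
    show f.1 (g * (x * y)) = f.1 (g * x * y)
    rw [mul_assoc]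

private theorem Q3_onb {G : Type*} [Group G] [Fintype G] [DecidableEq G]
    (E : Submodule ℝ (G → ℝ)) :
    ∃ e : Fin (Module.finrank ℝ E) → G → ℝ, (∀ i, e i ∈ E) ∧
      ∀ i j, ip (e i) (e j) = if i = j then 1 else 0 := by
  set L := WithLp.linearEquiv 2 ℝ (G → ℝ) with hL
  set E' : Submodule ℝ (EuclideanSpace ℝ G) := E.map L.symm.toLinearMap with hE'
  have hfr : Module.finrank ℝ E' = Module.finrank ℝ E := LinearEquiv.finrank_map_eq L.symm E
  set b := stdOrthonormalBasis ℝ E' with hb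
  have hon := orthonormal_iff_ite.1 b.orthonormal
  refine ⟨fun i => L (b (Fin.cast hfr.symm i) : EuclideanSpace ℝ G), fun i => ?_, fun i j => ?_⟩
  · obtain ⟨f, hf, hfe⟩ := Submodule.mem_map.1 (b (Fin.cast hfr.symm i)).2
    beta_reduce
    rw [← hfe]
    have : L (L.symm.toLinearMap f) = f := L.apply_symm_apply f
    rw [this]
    exact hf
  · have h := hon (Fin.cast hfr.symm i) (Fin.cast hfr.symm j)
    have h2 : (Fin.cast hfr.symm i = Fin.cast hfr.symm j) ↔ i = j := by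
      constructor
      · intro h0
        exact Fin.ext (by simpa using congrArg Fin.val h0)
      · rintro rfl
        rfl
    simp only [h2] at h
    rw [← h, Submodule.coe_inner, PiLp.inner_apply]
    unfold ip
    refine Finset.sum_congr rfl fun g _ => ?_
    simp only [RCLike.inner_apply, RCLike.conj_to_real]
    rw [mul_comm]
    rfl

/-- PROOF. `top_eigen`: `lam`, `f₀`. Let `E` be the submodule of all `f` with sum zero and `conv ν (conv ν f) = lam • f`; `f₀ ∈ E`, `f₀ ≠ 0`. Right translations `(ρ x f) g = f (g * x)` commute with `conv ν`, preserve sums, so they act on `E`, `ρ : SL2 p →* End E`. If `ρ` is trivial then `f₀ (g x) = f₀ g` for all `g, x`, so `f₀` is constant and of sum zero, so zero. So `p - 1 ≤ 2 dim E` (`min_dim_real`).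
Take an orthonormal basis `e` of `E` for `ip` (e.g. `stdOrthonormalBasis` of the corresponding subspace of `EuclideanSpace ℝ (SL2 p)`): `nsq (conv ν (e i)) = ip (conv ν (conv ν (e i))) (e i) = lam`, so `lam * dim E ≤ |G| nsq ν` (`bessel`). Here `lam ≥ 0` (it is `nsq (conv ν f₀) / nsq f₀`). So `(p - 1) lam ≤ 2 |G| nsq ν` and
`(p - 1) nsq (conv ν f) ≤ (p - 1) lam nsq f ≤ 2 |G| nsq ν nsq f`. -/
theorem quasirandom (ν : SL2 p → ℝ) (hν : ∀ g, ν g⁻¹ = ν g) (f : SL2 p → ℝ)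
    (hf : ∑ g, f g = 0) :
    ((p : ℝ) - 1) * nsq (conv ν f) ≤ 2 * Nat.card (SL2 p) * nsq ν * nsq f := by
  classical
  have hG : 1 < Nat.card (SL2 p) := by
    have hdet : (!![1, 1; 0, 1] : Matrix (Fin 2) (Fin 2) (ZMod p)).det = 1 := by
      simp [Matrix.det_fin_two]
    have : Nontrivial (SL2 p) := by
      refine ⟨⟨!![1, 1; 0, 1], hdet⟩, 1, fun h => ?_⟩
      have h1 := congrArg (fun g : SL2 p => (g : Matrix (Fin 2) (Fin 2) (ZMod p)) 0 1) h
      simp at h1
    exact Finite.one_lt_card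
  obtain ⟨lam, hlam, f₀, hf₀, hf₀s, hf₀e⟩ := top_eigen ν hν hG
  have hmem : f₀ ∈ Q3_E ν lam := Q3_mem.2 ⟨hf₀s, hf₀e⟩
  have hρ : ∃ g, Q3_rho ν lam g ≠ 1 := by
    by_contra hcon
    push Not at hcon
    have h1 : ∀ x g, f₀ (g * x) = f₀ g := by
      intro x g
      have h2 := hcon x
      have h3 := congrArg (fun T : Q3_E ν lam →ₗ[ℝ] Q3_E ν lam => (T ⟨f₀, hmem⟩).1 g) h2
      exact h3
    have h2 : ∀ g, f₀ g = f₀ 1 := by
      intro g
      have := h1 g 1
      rw [one_mul] at this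
      exact this
    have h3 : ∑ g : SL2 p, f₀ g = (Fintype.card (SL2 p) : ℝ) * f₀ 1 := by
      rw [Finset.sum_congr rfl fun g _ => h2 g, Finset.sum_const, Finset.card_univ, nsmul_eq_mul]
    rw [hf₀s] at h3
    have h4 : (Fintype.card (SL2 p) : ℝ) ≠ 0 := by
      exact_mod_cast Fintype.card_ne_zero
    have h5 : f₀ 1 = 0 := by
      rcases mul_eq_zero.1 h3.symm with h | h
      · exact absurd h h4
      · exact h
    apply hf₀
    funext g
    rw [h2 g, h5]
    rfl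
  have hdim := min_dim_real (Q3_rho ν lam) hρ
  obtain ⟨e, heE, heo⟩ := Q3_onb (Q3_E ν lam)
  have hb := bessel ν e heo
  have hval : ∀ i, nsq (conv ν (e i)) = lam := by
    intro i
    obtain ⟨h1, h2⟩ := Q3_mem.1 (heE i)
    rw [Q3_nsq_ip, ← ip_conv ν (conv ν (e i)) (e i) hν, h2]
    have h3 : ip (lam • e i) (e i) = lam * ip (e i) (e i) := by
      unfold ip
      rw [Finset.mul_sum]
      refine Finset.sum_congr rfl fun g _ => ?_
      simp only [Pi.smul_apply, smul_eq_mul]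
      ring
    rw [h3, heo i i, if_pos rfl, mul_one]
  simp only [hval, Finset.sum_const, Finset.card_univ, Fintype.card_fin, nsmul_eq_mul] at hb
  have hnn : ∀ u : SL2 p → ℝ, 0 ≤ nsq u := fun u => Finset.sum_nonneg fun g _ => sq_nonneg _
  have hlam0 : 0 ≤ lam := by
    have h1 : nsq (conv ν f₀) = lam * nsq f₀ := by
      rw [Q3_nsq_ip, ← ip_conv ν (conv ν f₀) f₀ hν, hf₀e, Q3_nsq_ip]
      unfold ip
      rw [Finset.mul_sum]
      refine Finset.sum_congr rfl fun g _ => ?_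
      simp only [Pi.smul_apply, smul_eq_mul]
      ring
    have h2 : 0 < nsq f₀ := by
      obtain ⟨g, hg⟩ := Function.ne_iff.1 hf₀
      refine Finset.sum_pos' (fun g _ => sq_nonneg _) ⟨g, Finset.mem_univ g, ?_⟩
      have hg2 : f₀ g ≠ 0 := hg
      positivity
    have h3 := hnn (conv ν f₀)
    rw [h1] at h3
    exact nonneg_of_mul_nonneg_left h3 h2
  have hp1 : 1 ≤ p := (Fact.out : p.Prime).one_lt.le
  have hdim' : (p : ℝ) - 1 ≤ 2 * Module.finrank ℝ (Q3_E ν lam) := by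
    have h1 : p ≤ 2 * Module.finrank ℝ (Q3_E ν lam) + 1 := by omega
    have h2 : (p : ℝ) ≤ 2 * Module.finrank ℝ (Q3_E ν lam) + 1 := by exact_mod_cast h1
    linarith
  have hp0 : (0 : ℝ) ≤ (p : ℝ) - 1 := by
    have : (1 : ℝ) ≤ p := by exact_mod_cast hp1
    linarith
  have h1 : ((p : ℝ) - 1) * lam ≤ 2 * (Nat.card (SL2 p) * nsq ν) := by
    calc ((p : ℝ) - 1) * lam ≤ (2 * Module.finrank ℝ (Q3_E ν lam)) * lam :=
          mul_le_mul_of_nonneg_right hdim' hlam0
      _ = 2 * (Module.finrank ℝ (Q3_E ν lam) * lam) := by ring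
      _ ≤ _ := mul_le_mul_of_nonneg_left hb (by norm_num)
  calc ((p : ℝ) - 1) * nsq (conv ν f) ≤ ((p : ℝ) - 1) * (lam * nsq f) :=
        mul_le_mul_of_nonneg_left (hlam f hf) hp0
    _ = (((p : ℝ) - 1) * lam) * nsq f := by ring
    _ ≤ (2 * (Nat.card (SL2 p) * nsq ν)) * nsq f := mul_le_mul_of_nonneg_right h1 (hnn f)
    _ = _ := by ring

end Pool.Agent.Lib.MP_3bb35d_al.UE
end
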