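import Pool.Agent.Lib.MP_3bb35d_al.Mg.G003
import Pool.Agent.Lib.MP_3bb35d_al.Mg.G007

section

/-!
# From the `ℓ²`-norm of the convolution to a set of large energy
-/

set_option autoImplicit false
set_option linter.unusedSectionVars false

open scoped Pointwise
open Finset

namespace Pool.Agent.Lib.MP_3bb35d_al.UE

variable {G : Type*} [Group G] [Fintype G] [DecidableEq G]

private theorem F3b_rl_eq_zero (A : Finset G) {x : G} (hx : x ∉ A⁻¹ * A) : rl A x = 0 := by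
  unfold rl
  rw [card_eq_zero, filter_eq_empty_iff]
  rintro ⟨a, b⟩ hab h
  rw [mem_product] at hab
  exact hx (h ▸ mul_mem_mul (inv_mem_inv hab.1) hab.2)

private theorem F3b_conv (A : Finset G) (hA : A⁻¹ = A) (g : G) :
    conv (fun g => if g ∈ A then (1 : ℝ) else 0) (fun g => if g ∈ A then (1 : ℝ) else 0) g =
      rl A g := by
  have hmem : ∀ h : G, h⁻¹ ∈ A ↔ h ∈ A := fun h => by
    rw [← mem_inv', hA]
  unfold conv rl
  have h1 : ∀ h : G, ((if h ∈ A then (1 : ℝ) else 0) * (if h⁻¹ * g ∈ A then (1 : ℝ) else 0)) =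
      if (h ∈ A ∧ h⁻¹ * g ∈ A) then 1 else 0 := by
    intro h
    by_cases h1 : h ∈ A <;> by_cases h2 : h⁻¹ * g ∈ A <;> simp [h1, h2]
  simp only [h1]
  rw [sum_boole]
  norm_cast
  refine card_bij (fun h _ => (h⁻¹, h⁻¹ * g)) ?_ ?_ ?_
  · intro h hh
    rw [mem_filter] at hh
    rw [mem_filter, mem_product]
    refine ⟨⟨(hmem h).2 hh.2.1, hh.2.2⟩, ?_⟩
    change (h⁻¹)⁻¹ * (h⁻¹ * g) = g
    group
  · intro h _ h' _ e
    exact inv_injective (congrArg Prod.fst e)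
  · rintro ⟨a, b⟩ hab
    rw [mem_filter, mem_product] at hab
    obtain ⟨⟨ha, hb⟩, e⟩ := hab
    change a ∈ A at ha
    change b ∈ A at hb
    change a⁻¹ * b = g at e
    subst e
    refine ⟨a⁻¹, ?_, ?_⟩
    · rw [mem_filter]
      refine ⟨mem_univ _, (hmem a).2 ha, ?_⟩
      have : (a⁻¹)⁻¹ * (a⁻¹ * b) = b := by group
      rwa [this]
    · refine Prod.ext (inv_inv a) ?_
      change (a⁻¹)⁻¹ * (a⁻¹ * b) = b
      group

/-- PROOF: `conv 1_A 1_A g = #{(a, b) ∈ A² | a b = g}`, so `nsq` is the number of quadruples with `a b = c d`; substituting `a ↦ a⁻¹`, `c ↦ c⁻¹` (`A⁻¹ = A`): `a⁻¹ b = c⁻¹ d`. -/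
theorem nsq_conv_indicator (A : Finset G) (hA : A⁻¹ = A) :
    nsq (conv (fun g => if g ∈ A then (1 : ℝ) else 0) (fun g => if g ∈ A then (1 : ℝ) else 0)) =
      en A := by
  unfold nsq
  simp only [F3b_conv A hA]
  rw [← sum_rl_sq A]
  push_cast
  symm
  refine sum_subset (subset_univ _) ?_
  intro x _ hx
  rw [F3b_rl_eq_zero A hx]
  simp

private theorem F3b_en_le (A : Finset G) : (en A : ℝ) ≤ (#A : ℝ) ^ 3 := by
  have h : en A ≤ #A ^ 3 := by
    calc en A = ∑ x ∈ A⁻¹ * A, rl A x ^ 2 := (sum_rl_sq A).symm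
      _ ≤ ∑ x ∈ A⁻¹ * A, #A * rl A x := by
          refine sum_le_sum fun x _ => ?_
          rw [sq]
          exact Nat.mul_le_mul_right _ (rl_le A x)
      _ = #A ^ 3 := by
          rw [← mul_sum, sum_rl]
          ring
  exact_mod_cast h

private theorem F3b_conv_mono {m f : G → ℝ} {c : ℝ} (hm : ∀ g, 0 ≤ m g)
    (hf : ∀ g, m g ≤ c * f g) (hc : 0 ≤ c) (hf0 : ∀ g, 0 ≤ f g) :
    nsq (conv m m) ≤ c ^ 4 * nsq (conv f f) := by
  unfold nsq
  rw [mul_sum]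
  refine sum_le_sum fun g _ => ?_
  have h0 : 0 ≤ conv m m g := sum_nonneg fun h _ => mul_nonneg (hm _) (hm _)
  have h1 : conv m m g ≤ c ^ 2 * conv f f g := by
    unfold conv
    rw [mul_sum]
    refine sum_le_sum fun h _ => ?_
    calc m h * m (h⁻¹ * g) ≤ (c * f h) * (c * f (h⁻¹ * g)) :=
          mul_le_mul (hf _) (hf _) (hm _) (mul_nonneg hc (hf0 _))
      _ = c ^ 2 * (f h * f (h⁻¹ * g)) := by ring
  calc conv m m g ^ 2 ≤ (c ^ 2 * conv f f g) ^ 2 := pow_le_pow_left₀ h0 h1 2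
    _ = c ^ 4 * conv f f g ^ 2 := by ring

private theorem F3b_nsq_pos {ν : G → ℝ} (h : SP ν) : 0 < nsq ν := by
  unfold nsq
  refine lt_of_le_of_ne (sum_nonneg fun g _ => sq_nonneg _) fun h0 => ?_
  have h1 := (sum_eq_zero_iff_of_nonneg (fun g _ => sq_nonneg (ν g))).1 h0.symm
  have h2 : ∑ g, ν g = 0 := sum_eq_zero fun g hg => by
    simpa using h1 g hg
  rw [h.sum] at h2
  exact one_ne_zero h2

/-- PROOF. `T = 64 K²`, `s = nsq ν > 0`, `A = {g | s / T ≤ ν g ≤ T s}`, symmetric. `m ≤ T s 1_A` pointwise, so `nsq (conv m m) ≤ (T s)⁴ en A` and with `middle`: `s ≤ 4 K² (T s)⁴ en A`, i.e. `1 ≤ 4 K² T⁴ s³ en A`. `#A * (s / T) ≤ ∑ ν = 1`: `#A s ≤ T`. So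
`#A³ ≤ T³ / s³ ≤ 4 K² T⁷ en A`. `en A ≤ #A³`, so `1 ≤ 4 K² T⁴ (s #A)³`, hence `1 ≤ 4 K² T⁴ (s #A)` (otherwise `s #A < 1` and the cube is smaller). `A` is not empty as `en A ≠ 0`. -/
theorem energy_of_conv {ν : G → ℝ} (h : SP ν) {K : ℝ} (hK : 1 ≤ K)
    (hc : nsq ν ≤ K ^ 2 * nsq (conv ν ν)) :
    ∃ A : Finset G, A.Nonempty ∧ (∀ g ∈ A, nsq ν ≤ 64 * K ^ 2 * ν g) ∧
      #A * nsq ν ≤ 64 * K ^ 2 ∧ 1 ≤ 4 * K ^ 2 * (64 * K ^ 2) ^ 4 * (#A * nsq ν) ∧
      (#A : ℝ) ^ 3 ≤ 4 * K ^ 2 * (64 * K ^ 2) ^ 7 * en A := by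
  classical
  have hs : 0 < nsq ν := F3b_nsq_pos h
  have hmid := middle h hK hc
    (fun g => if nsq ν / (64 * K ^ 2) ≤ ν g ∧ ν g ≤ 64 * K ^ 2 * nsq ν then ν g else 0)
    (fun g => rfl)
  have hK2 : 1 ≤ K ^ 2 := one_le_pow₀ hK
  clear hc
  generalize hT : 64 * K ^ 2 = T at *
  generalize nsq ν = s at *
  have hT1 : 1 ≤ T := by rw [← hT]; linarith
  have hT0 : 0 < T := lt_of_lt_of_le one_pos hT1
  set A : Finset G := {g | s / T ≤ ν g ∧ ν g ≤ T * s} with hAdef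
  have hmA : ∀ g, g ∈ A ↔ s / T ≤ ν g ∧ ν g ≤ T * s := fun g => by
    rw [hAdef, mem_filter]
    exact ⟨fun h => h.2, fun h => ⟨mem_univ _, h⟩⟩
  have hAinv : A⁻¹ = A := by
    ext g
    rw [mem_inv', hmA, hmA, h.symm]
  have key : s ≤ 4 * K ^ 2 * ((T * s) ^ 4 * en A) := by
    refine hmid.trans (mul_le_mul_of_nonneg_left ?_ (by positivity))
    rw [← nsq_conv_indicator A hAinv]
    refine F3b_conv_mono ?_ ?_ (by positivity) ?_
    · intro g
      split_ifs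
      · exact h.nonneg g
      · exact le_rfl
    · intro g
      by_cases hg : s / T ≤ ν g ∧ ν g ≤ T * s
      · rw [if_pos hg, if_pos ((hmA g).2 hg), mul_one]
        exact hg.2
      · rw [if_neg hg, if_neg (fun h' => hg ((hmA g).1 h')), mul_zero]
    · intro g
      split_ifs
      · exact zero_le_one
      · exact le_rfl
  have key2 : 1 ≤ 4 * K ^ 2 * T ^ 4 * s ^ 3 * en A := by
    have h1 : s * 1 ≤ s * (4 * K ^ 2 * T ^ 4 * s ^ 3 * en A) := by
      calc s * 1 = s := mul_one s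
        _ ≤ _ := key
        _ = _ := by ring
    exact le_of_mul_le_mul_left h1 hs
  have key3 : #A * s ≤ T := by
    have h1 : (#A : ℝ) * (s / T) ≤ 1 := by
      calc (#A : ℝ) * (s / T) = ∑ g ∈ A, s / T := by rw [sum_const, nsmul_eq_mul]
        _ ≤ ∑ g ∈ A, ν g := sum_le_sum fun g hg => ((hmA g).1 hg).1
        _ ≤ ∑ g, ν g := sum_le_univ_sum_of_nonneg h.nonneg
        _ = 1 := h.sum
    rw [← mul_div_assoc, div_le_one hT0] at h1
    exact h1
  have hen := F3b_en_le A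
  have hA0 : (0 : ℝ) ≤ #A := Nat.cast_nonneg _
  have hE0 : (0 : ℝ) ≤ en A := Nat.cast_nonneg _
  refine ⟨A, ?_, ?_, key3, ?_, ?_⟩
  · rw [nonempty_iff_ne_empty]
    intro he
    have h1 : (en A : ℝ) ≤ 0 := by
      refine hen.trans ?_
      rw [he]
      simp
    have h2 : (en A : ℝ) = 0 := le_antisymm h1 hE0
    rw [h2, mul_zero] at key2
    linarith
  · intro g hg
    have h1 := ((hmA g).1 hg).1
    rw [div_le_iff₀ hT0] at h1
    linarith
  · have h1 : 1 ≤ 4 * K ^ 2 * T ^ 4 * (#A * s) ^ 3 := by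
      calc (1 : ℝ) ≤ 4 * K ^ 2 * T ^ 4 * s ^ 3 * en A := key2
        _ ≤ 4 * K ^ 2 * T ^ 4 * s ^ 3 * (#A : ℝ) ^ 3 := by gcongr
        _ = _ := by ring
    have h0 : (0 : ℝ) ≤ #A * s := by positivity
    have hc1 : 1 ≤ 4 * K ^ 2 * T ^ 4 := by
      have : 1 ≤ T ^ 4 := one_le_pow₀ hT1
      nlinarith
    rcases le_total 1 ((#A : ℝ) * s) with h2 | h2
    · calc (1 : ℝ) = 1 * 1 := by ring
        _ ≤ 4 * K ^ 2 * T ^ 4 * (#A * s) := mul_le_mul hc1 h2 zero_le_one (by positivity)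
    · refine h1.trans (mul_le_mul_of_nonneg_left ?_ (by positivity))
      exact pow_le_of_le_one h0 h2 (by norm_num)
  · have h1 : ((#A : ℝ) * s) ^ 3 ≤ T ^ 3 := pow_le_pow_left₀ (by positivity) key3 3
    have h2 : s ^ 3 * (#A : ℝ) ^ 3 ≤ s ^ 3 * (4 * K ^ 2 * T ^ 7 * en A) := by
      calc s ^ 3 * (#A : ℝ) ^ 3 = ((#A : ℝ) * s) ^ 3 := by ring
        _ ≤ T ^ 3 * 1 := by rw [mul_one]; exact h1
        _ ≤ T ^ 3 * (4 * K ^ 2 * T ^ 4 * s ^ 3 * en A) :=
            mul_le_mul_of_nonneg_left key2 (by positivity)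
        _ = _ := by ring
    exact le_of_mul_le_mul_left h2 (by positivity)

end Pool.Agent.Lib.MP_3bb35d_al.UE
end

section

/-!
# Flattening
-/

set_option autoImplicit false

open scoped Pointwise
open Finset

namespace Pool.Agent.Lib.MP_3bb35d_al.UE

variable {G : Type*} [Group G] [Fintype G] [DecidableEq G]

/-- The measure of the set is at least the sum over the elements of `B`. -/
private theorem F4_mass {ν : G → ℝ} (h : SP ν) (B D : Finset G) (c : G) {s U : ℝ} (hU : 0 ≤ U)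
    (hB : ∀ b ∈ B, s ≤ U * ν b) :
    (#{b ∈ B | b * c⁻¹ ∈ D} : ℝ) * s ≤ U * mass ν {x | x * c⁻¹ ∈ D} := by
  classical
  have h1 : (#{b ∈ B | b * c⁻¹ ∈ D} : ℝ) * s ≤ ∑ b ∈ B with b * c⁻¹ ∈ D, U * ν b := by
    rw [← nsmul_eq_mul]
    apply Finset.card_nsmul_le_sum
    intro b hb
    exact hB b (Finset.mem_filter.1 hb).1
  have h2 : ∑ b ∈ B with b * c⁻¹ ∈ D, U * ν b = U * ∑ b ∈ B with b * c⁻¹ ∈ D, ν b := by
    rw [Finset.mul_sum]
  have h3 : ∑ b ∈ B with b * c⁻¹ ∈ D, ν b ≤ mass ν {x | x * c⁻¹ ∈ D} := by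
    unfold mass
    calc ∑ b ∈ B with b * c⁻¹ ∈ D, ν b
        = ∑ b ∈ B with b * c⁻¹ ∈ D, Set.indicator {x | x * c⁻¹ ∈ D} ν b := by
          apply Finset.sum_congr rfl
          intro b hb
          rw [Set.indicator_of_mem]
          exact (Finset.mem_filter.1 hb).2
      _ ≤ ∑ b, Set.indicator {x | x * c⁻¹ ∈ D} ν b := by
          apply Finset.sum_le_sum_of_subset_of_nonneg (Finset.subset_univ _)
          intro b _ _
          exact Set.indicator_nonneg (fun x _ => h.nonneg x) b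
  calc _ ≤ _ := h1
    _ = _ := h2
    _ ≤ _ := mul_le_mul_of_nonneg_left h3 hU

/-- Flattening. PROOF (`K ≥ 2`, so constants are powers of `K`; `s = nsq ν > 0`). `energy_of_conv` with `T = 64 K² ≤ K ^ 8`: `A`, `#A³ ≤ K₁ en A` with `K₁ = 4 K² T⁷ ≤ K ^ 60`. `bsg`: `B ⊆ A`, `#A ≤ 8 K₁ #B`, `#(B⁻¹ B) ≤ L #B`, `L = 2 ^ 22 K₁ ^ 10 ≤ K ^ 622`.
`pop_quot`: `D`, `c`. `#(D ^ 3) ≤ 16 L ^ 8 #D ≤ K ^ 4980 #D`. `#D s ≤ 2 L #B s ≤ 2 L #A s ≤ 2 L T ≤ K ^ 5000`. `1 ≤ 4 K² T⁴ #A s ≤ 4 K² T⁴ 8 K₁ 2 L #D s ≤ K ^ 5000 #D s`. The measure of `{x | x c⁻¹ ∈ D}` is at least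
`∑ (b ∈ B, b c⁻¹ ∈ D) ν b ≥ (#B / (2 L)) (s / T) ≥ #A s / (16 K₁ L T) ≥ 1 / (4 K² T⁴ 16 K₁ L T) ≥ K ^ (-5000)`. -/
theorem flat {ν : G → ℝ} (h : SP ν) {K : ℝ} (hK : 2 ≤ K) (hc : nsq ν ≤ K ^ 2 * nsq (conv ν ν)) :
    ∃ D : Finset G, 1 ∈ D ∧ D⁻¹ = D ∧ (#(D ^ 3) : ℝ) ≤ K ^ 5000 * #D ∧
      #D * nsq ν ≤ K ^ 5000 ∧ 1 ≤ K ^ 5000 * (#D * nsq ν) ∧
      ∃ c : G, 1 ≤ K ^ 5000 * mass ν {x | x * c ∈ D} := by
  classical
  have hK1 : (1 : ℝ) ≤ K := by linarith
  have hK0 : (0 : ℝ) < K := by linarith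
  have hs0 : 0 ≤ nsq ν := by
    unfold nsq
    exact Finset.sum_nonneg (fun g _ => sq_nonneg _)
  have h2K : ∀ n : ℕ, (2 : ℝ) ^ n ≤ K ^ n := fun n => pow_le_pow_left₀ (by norm_num) hK n
  have h64 : 64 * K ^ 2 ≤ K ^ 8 := by
    calc 64 * K ^ 2 = 2 ^ 6 * K ^ 2 := by norm_num
      _ ≤ K ^ 6 * K ^ 2 := mul_le_mul_of_nonneg_right (h2K 6) (by positivity)
      _ = K ^ 8 := by ring
  have h4 : 4 * K ^ 2 ≤ K ^ 4 := by
    calc 4 * K ^ 2 = 2 ^ 2 * K ^ 2 := by norm_num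
      _ ≤ K ^ 2 * K ^ 2 := mul_le_mul_of_nonneg_right (h2K 2) (by positivity)
      _ = K ^ 4 := by ring
  obtain ⟨A, hA, hAν, hAs, hAs', hAen⟩ := energy_of_conv h hK1 hc
  have hAen' : (#A : ℝ) ^ 3 ≤ K ^ 60 * en A := by
    calc (#A : ℝ) ^ 3 ≤ 4 * K ^ 2 * (64 * K ^ 2) ^ 7 * en A := hAen
      _ ≤ K ^ 4 * (K ^ 8) ^ 7 * en A := by
          apply mul_le_mul_of_nonneg_right _ (by positivity)
          exact mul_le_mul h4 (pow_le_pow_left₀ (by positivity) h64 7) (by positivity)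
            (by positivity)
      _ = K ^ 60 * en A := by ring
  obtain ⟨B, hBA, hAB, hBB⟩ := bsg A hA (one_le_pow₀ hK1) hAen'
  have hAB' : (#A : ℝ) ≤ K ^ 63 * #B := by
    calc (#A : ℝ) ≤ 8 * K ^ 60 * #B := hAB
      _ = 2 ^ 3 * K ^ 60 * #B := by norm_num
      _ ≤ K ^ 3 * K ^ 60 * #B := by
          apply mul_le_mul_of_nonneg_right _ (by positivity)
          exact mul_le_mul_of_nonneg_right (h2K 3) (by positivity)
      _ = K ^ 63 * #B := by ring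
  have hBB' : (#(B⁻¹ * B) : ℝ) ≤ K ^ 622 * #B := by
    calc (#(B⁻¹ * B) : ℝ) ≤ 2 ^ 22 * (K ^ 60) ^ 10 * #B := hBB
      _ ≤ K ^ 22 * (K ^ 60) ^ 10 * #B := by
          apply mul_le_mul_of_nonneg_right _ (by positivity)
          exact mul_le_mul_of_nonneg_right (h2K 22) (by positivity)
      _ = K ^ 622 * #B := by ring
  have hB : B.Nonempty := by
    rw [Finset.nonempty_iff_ne_empty]
    intro hB
    rw [hB, Finset.card_empty, Nat.cast_zero, mul_zero] at hAB'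
    have : (0 : ℝ) < #A := by exact_mod_cast Finset.card_pos.2 hA
    linarith
  obtain ⟨D, h1D, hDi, hD3, hBD, hDB, c, hcc⟩ := pop_quot B hB (one_le_pow₀ hK1) hBB'
  have h2L : 2 * K ^ 622 ≤ K ^ 623 := by
    calc 2 * K ^ 622 ≤ K * K ^ 622 := mul_le_mul_of_nonneg_right hK (by positivity)
      _ = K ^ 623 := by ring
  have hBA' : (#B : ℝ) ≤ #A := by exact_mod_cast Finset.card_le_card hBA
  have hpow : ∀ n : ℕ, n ≤ 5000 → K ^ n ≤ K ^ 5000 := fun n hn => pow_le_pow_right₀ hK1 hn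
  -- lower bound for the number of elements
  have hlow : 1 ≤ K ^ 99 * (#B * nsq ν) := by
    calc 1 ≤ 4 * K ^ 2 * (64 * K ^ 2) ^ 4 * (#A * nsq ν) := hAs'
      _ ≤ K ^ 4 * (K ^ 8) ^ 4 * (#A * nsq ν) := by
          apply mul_le_mul_of_nonneg_right _ (by positivity)
          exact mul_le_mul h4 (pow_le_pow_left₀ (by positivity) h64 4) (by positivity)
            (by positivity)
      _ ≤ K ^ 4 * (K ^ 8) ^ 4 * ((K ^ 63 * #B) * nsq ν) := by
          apply mul_le_mul_of_nonneg_left _ (by positivity)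
          exact mul_le_mul_of_nonneg_right hAB' hs0
      _ = K ^ 99 * (#B * nsq ν) := by ring
  refine ⟨D, h1D, hDi, ?_, ?_, ?_, c⁻¹, ?_⟩
  · calc (#(D ^ 3) : ℝ) ≤ 16 * (K ^ 622) ^ 8 * #D := hD3
      _ = 2 ^ 4 * (K ^ 622) ^ 8 * #D := by norm_num
      _ ≤ K ^ 4 * (K ^ 622) ^ 8 * #D := by
          apply mul_le_mul_of_nonneg_right _ (by positivity)
          exact mul_le_mul_of_nonneg_right (h2K 4) (by positivity)
      _ = K ^ 4980 * #D := by ring
      _ ≤ K ^ 5000 * #D := mul_le_mul_of_nonneg_right (hpow 4980 (by norm_num)) (by positivity)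
  · calc (#D : ℝ) * nsq ν ≤ (2 * K ^ 622 * #B) * nsq ν := mul_le_mul_of_nonneg_right hDB hs0
      _ ≤ (2 * K ^ 622 * #A) * nsq ν := by
          apply mul_le_mul_of_nonneg_right _ hs0
          exact mul_le_mul_of_nonneg_left hBA' (by positivity)
      _ = 2 * K ^ 622 * (#A * nsq ν) := by ring
      _ ≤ K ^ 623 * K ^ 8 := by
          exact mul_le_mul h2L (hAs.trans h64) (by positivity) (by positivity)
      _ = K ^ 631 := by ring
      _ ≤ K ^ 5000 := hpow 631 (by norm_num)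
  · calc 1 ≤ K ^ 99 * (#B * nsq ν) := hlow
      _ ≤ K ^ 99 * ((K ^ 623 * #D) * nsq ν) := by
          apply mul_le_mul_of_nonneg_left _ (by positivity)
          apply mul_le_mul_of_nonneg_right _ hs0
          exact hBD.trans (mul_le_mul_of_nonneg_right h2L (by positivity))
      _ = K ^ 722 * (#D * nsq ν) := by ring
      _ ≤ K ^ 5000 * (#D * nsq ν) :=
          mul_le_mul_of_nonneg_right (hpow 722 (by norm_num)) (by positivity)
  · have hm := F4_mass h B D c (s := nsq ν) (U := 64 * K ^ 2) (by positivity)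
      (fun b hb => hAν b (hBA hb))
    have hmass0 : 0 ≤ mass ν {x | x * c⁻¹ ∈ D} := by
      unfold mass
      exact Finset.sum_nonneg (fun g _ => Set.indicator_nonneg (fun x _ => h.nonneg x) g)
    calc 1 ≤ K ^ 99 * (#B * nsq ν) := hlow
      _ ≤ K ^ 99 * ((K ^ 623 * #{b ∈ B | b * c⁻¹ ∈ D}) * nsq ν) := by
          apply mul_le_mul_of_nonneg_left _ (by positivity)
          apply mul_le_mul_of_nonneg_right _ hs0
          exact hcc.trans (mul_le_mul_of_nonneg_right h2L (by positivity))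
      _ = K ^ 722 * (#{b ∈ B | b * c⁻¹ ∈ D} * nsq ν) := by ring
      _ ≤ K ^ 722 * (64 * K ^ 2 * mass ν {x | x * c⁻¹ ∈ D}) := by
          apply mul_le_mul_of_nonneg_left hm (by positivity)
      _ ≤ K ^ 722 * (K ^ 8 * mass ν {x | x * c⁻¹ ∈ D}) := by
          apply mul_le_mul_of_nonneg_left _ (by positivity)
          exact mul_le_mul_of_nonneg_right h64 hmass0
      _ = K ^ 730 * mass ν {x | x * c⁻¹ ∈ D} := by ring
      _ ≤ K ^ 5000 * mass ν {x | x * c⁻¹ ∈ D} :=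
          mul_le_mul_of_nonneg_right (hpow 730 (by norm_num)) hmass0

end Pool.Agent.Lib.MP_3bb35d_al.UE
end

section

/-!
# Elements of `A ^ 16` in general position; the product map of three torus elements
-/

set_option autoImplicit false

open scoped Pointwise
open Finset

namespace Pool.Agent.Lib.MP_3bb35d_al.UE

variable {p : ℕ} [Fact p.Prime]

/-- The torus bound. PROOF: let `V = A ^ m ∩ tor P`, `g ∈ A ^ 16` in general position (`exists_generic_pow`). The triples `(t₁, t₂, t₃) ∈ V³` with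
`t₂` not exceptional are at least `#V² (#V - 4)` (`card_exc_tor`), their images are in `A ^ (3 m + 32)`, and the fibres have at most
8 elements (`card_fibre3`). So `#V² (#V - 4) ≤ 8 #(A ^ (3 m + 32))`. If `#V ≥ 8` then `#V - 4 ≥ #V / 2` and `#V³ ≤ 16 #(A ^ (3 m + 32))`; if `#V ≤ 8` then
`#V³ ≤ 512`. -/
theorem torus_bound (hp : 11 ≤ p) {A : Finset (SL2 p)} {K : ℝ} (hA : Apx p A K)
    (P : GL (Fin 2) (Kb p)) (m : ℕ) :
    cin A m (tor P) ^ 3 ≤ 512 * #(A ^ (3 * m + 32)) := by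
  classical
  obtain ⟨g, hgA, hg⟩ := exists_generic_pow hp hA P
  set V : Finset (SL2 p) := (A ^ m).filter (fun t => t ∈ tor P) with hV
  have hcin : cin A m (tor P) = #V := by
    have h1 : ((↑(A ^ m) : Set (SL2 p)) ∩ tor P) = (↑V : Set (SL2 p)) := by
      ext t
      simp only [Set.mem_inter_iff, Finset.mem_coe, hV, Finset.mem_filter]
    rw [cin, h1, Set.ncard_coe_finset]
  rw [hcin]
  set Exc : SL2 p → Prop := fun t => ent P (g * t * g) 0 0 = 0 ∨ ent P (g * t * g) 0 1 = 0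
    with hExc
  have hVm : ∀ t ∈ V, t ∈ A ^ m ∧ t ∈ tor P := fun t ht => Finset.mem_filter.mp ht
  have h4 : #(V.filter Exc) ≤ 4 := by
    refine card_exc_tor P g hg _ (fun t ht => ?_)
    obtain ⟨ht1, ht2⟩ := Finset.mem_filter.mp ht
    exact ⟨(hVm t ht1).2, ht2⟩
  have hsplit : #(V.filter Exc) + #(V.filter (fun t => ¬ Exc t)) = #V :=
    Finset.card_filter_add_card_filter_not Exc
  set W : Finset (SL2 p) := V.filter (fun t => ¬ Exc t) with hW
  set T : Finset (SL2 p × SL2 p × SL2 p) := V ×ˢ (W ×ˢ V) with hT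
  set φ : SL2 p × SL2 p × SL2 p → SL2 p := fun t => t.1 * g * t.2.1 * g * t.2.2 with hφ
  have hfib : #T ≤ 8 * #(T.image φ) := by
    refine Finset.card_le_mul_card_image T 8 (fun R _ => ?_)
    refine card_fibre3 P g hg R _ (fun t ht => ?_)
    obtain ⟨ht1, ht2⟩ := Finset.mem_filter.mp ht
    have ht3 := Finset.mem_product.mp ht1
    have ht4 := Finset.mem_product.mp ht3.2
    have ht5 := Finset.mem_filter.mp ht4.1
    have ht6 : ¬ (ent P (g * t.2.1 * g) 0 0 = 0 ∨ ent P (g * t.2.1 * g) 0 1 = 0) := ht5.2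
    exact ⟨(hVm _ ht3.1).2, (hVm _ ht5.1).2, (hVm _ ht4.2).2, ht2,
      fun h => ht6 (Or.inl h), fun h => ht6 (Or.inr h)⟩
  have e : A ^ (3 * m + 32) = A ^ m * A ^ 16 * A ^ m * A ^ 16 * A ^ m := by
    have e1 : 3 * m + 32 = m + 16 + m + 16 + m := by ring
    rw [e1, pow_add, pow_add, pow_add, pow_add]
  have himg : T.image φ ⊆ A ^ (3 * m + 32) := by
    rw [e]
    generalize A ^ 16 = B at hgA ⊢
    generalize A ^ m = C at hVm ⊢
    refine Finset.image_subset_iff.mpr (fun t ht => ?_)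
    have ht3 := Finset.mem_product.mp ht
    have ht4 := Finset.mem_product.mp ht3.2
    have ht5 := Finset.mem_filter.mp ht4.1
    exact Finset.mul_mem_mul (Finset.mul_mem_mul (Finset.mul_mem_mul (Finset.mul_mem_mul
      (hVm _ ht3.1).1 hgA) (hVm _ ht5.1).1) hgA) (hVm _ ht4.2).1
  have hbig : #T ≤ 8 * #(A ^ (3 * m + 32)) :=
    hfib.trans (Nat.mul_le_mul_left 8 (Finset.card_le_card himg))
  have hTc : #T = #V * (#W * #V) := by
    rw [hT, Finset.card_product, Finset.card_product]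
  rcases Nat.lt_or_ge (#V) 8 with h8 | h8
  · have h1 : 1 ≤ #(A ^ (3 * m + 32)) := by
      have h0 : (1 : SL2 p) ∈ A ^ (0 : ℕ) := by
        rw [pow_zero]
        exact Finset.one_mem_one
      generalize 3 * m + 32 = k
      exact Finset.card_pos.mpr ⟨1, hA.mono (Nat.zero_le k) h0⟩
    have h2 : #V ^ 3 ≤ 8 ^ 3 := Nat.pow_le_pow_left h8.le 3
    calc #V ^ 3 ≤ 8 ^ 3 := h2
      _ = 512 * 1 := by norm_num
      _ ≤ 512 * #(A ^ (3 * m + 32)) := Nat.mul_le_mul_left 512 h1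
  · have hW2 : #V ≤ 2 * #W := by omega
    calc #V ^ 3 = #V * (#V * #V) := by ring
      _ ≤ #V * ((2 * #W) * #V) := Nat.mul_le_mul_left _ (Nat.mul_le_mul_right _ hW2)
      _ = 2 * #T := by rw [hTc]; ring
      _ ≤ 2 * (8 * #(A ^ (3 * m + 32))) := Nat.mul_le_mul_left 2 hbig
      _ ≤ 512 * #(A ^ (3 * m + 32)) := by
          have h0 : 0 ≤ #(A ^ (3 * m + 32)) := Nat.zero_le _
          omega

end Pool.Agent.Lib.MP_3bb35d_al.UE
end

section

end
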