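import Pool.Agent.Lib.MP_3bb35d_al.UE.P0
import Pool.Agent.Lib.MP_3bb35d_al.UE.T0

section

/-!
# Counting in `SL₂(p)`
-/

set_option autoImplicit false

open scoped Pointwise
open Finset

namespace Pool.Agent.Lib.MP_3bb35d_al.UE

variable {p : ℕ} [Fact p.Prime]

/-- The order of `SL₂(p)`. PROOF: `g` is determined by `(a, b, c, d)` with `a d - b c = 1`. If `a ≠ 0`: `b, c` arbitrary and
`d = (1 + b c) / a`: `(p - 1) p ^ 2` elements. If `a = 0`: `b ≠ 0`, `c = - 1 / b`, `d` arbitrary: `(p - 1) p` elements. Together `(p - 1) p (p + 1)`.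
(Or by the cardinality of `GL₂(p)`, `Matrix.card_GL_field`, and the surjective determinant.) -/
theorem card_SL2 : Nat.card (SL2 p) = p ^ 3 - p := by
  classical
  have hp : 1 < p := (Fact.out : p.Prime).one_lt
  haveI : NeZero p := ⟨by omega⟩
  let d : GL (Fin 2) (ZMod p) →* (ZMod p)ˣ := Matrix.GeneralLinearGroup.det
  have h1 : Nat.card (GL (Fin 2) (ZMod p))
      = Nat.card ((GL (Fin 2) (ZMod p)) ⧸ d.ker) * Nat.card d.ker :=
    Subgroup.card_eq_card_quotient_mul_card_subgroup _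
  have h2 : Nat.card ((GL (Fin 2) (ZMod p)) ⧸ d.ker) = p - 1 := by
    rw [Nat.card_congr (QuotientGroup.quotientKerEquivOfSurjective d
      Matrix.GeneralLinearGroup.det_surjective).toEquiv, Nat.card_eq_fintype_card,
      ZMod.card_units]
  have h3 : Nat.card d.ker = Nat.card (SL2 p) := by
    symm
    apply Nat.card_congr
    have hk : ∀ g : SL2 p, Matrix.SpecialLinearGroup.toGL g ∈ d.ker := by
      intro g
      rw [MonoidHom.mem_ker]
      apply Units.ext
      exact g.2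
    refine Equiv.ofBijective (fun g : SL2 p =>
      (⟨Matrix.SpecialLinearGroup.toGL g, hk g⟩ : d.ker)) ⟨?_, ?_⟩
    · intro g h hgh
      exact Matrix.SpecialLinearGroup.toGL_injective (congrArg Subtype.val hgh)
    · rintro ⟨x, hx⟩
      rw [MonoidHom.mem_ker] at hx
      have hx' : (x : Matrix (Fin 2) (Fin 2) (ZMod p)).det = 1 := congrArg Units.val hx
      refine ⟨⟨(x : Matrix (Fin 2) (Fin 2) (ZMod p)), hx'⟩, ?_⟩
      apply Subtype.ext
      apply Units.ext
      rfl
  have h4 : Nat.card (GL (Fin 2) (ZMod p)) = (p ^ 2 - 1) * (p ^ 2 - p) := by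
    rw [Matrix.card_GL_field, Fin.prod_univ_two]
    simp [ZMod.card]
  rw [h4, h2, h3] at h1
  -- (p ^ 2 - 1) (p ^ 2 - p) = (p - 1) * N
  obtain ⟨q, rfl⟩ : ∃ q, p = q + 1 := ⟨p - 1, by omega⟩
  have hq : 0 < q := by omega
  have e1 : (q + 1) ^ 2 - 1 = q * (q + 2) := by
    rw [show (q + 1) ^ 2 = q * (q + 2) + 1 by ring]; rfl
  have e2 : (q + 1) ^ 2 - (q + 1) = (q + 1) * q := by
    rw [show (q + 1) ^ 2 = (q + 1) * q + (q + 1) by ring]; exact Nat.add_sub_cancel _ _
  have e3 : (q + 1) ^ 3 - (q + 1) = q * ((q + 2) * (q + 1)) := by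
    rw [show (q + 1) ^ 3 = q * ((q + 2) * (q + 1)) + (q + 1) by ring]
    exact Nat.add_sub_cancel _ _
  rw [e1, e2, Nat.add_sub_cancel] at h1
  rw [e3]
  have h5 : q * Nat.card (SL2 (q + 1)) = q * (q * ((q + 2) * (q + 1))) := by
    rw [← h1]; ring
  exact Nat.eq_of_mul_eq_mul_left hq h5

end Pool.Agent.Lib.MP_3bb35d_al.UE
end

section

/-!
# Counting in `SL₂(p)`
-/

set_option autoImplicit false

open scoped Pointwise
open Finset

namespace Pool.Agent.Lib.MP_3bb35d_al.UE

variable {p : ℕ} [Fact p.Prime]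

/-- the linear form with coefficients `u` -/
private noncomputable def P3b_lin (u : Fin 3 → ZMod p) : MvPolynomial (Fin 3) (ZMod p) :=
  ∑ j, MvPolynomial.C (u j) * MvPolynomial.X j

private theorem P3b_lin_deg (u : Fin 3 → ZMod p) : (P3b_lin u).totalDegree ≤ 1 := by
  refine (MvPolynomial.totalDegree_finsetSum _ _).trans ?_
  refine Finset.sup_le fun j _ => ?_
  refine (MvPolynomial.totalDegree_mul _ _).trans ?_
  rw [MvPolynomial.totalDegree_C, MvPolynomial.totalDegree_X]

private theorem P3b_lin_eval (u x : Fin 3 → ZMod p) :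
    MvPolynomial.eval x (P3b_lin u) = ∑ j, u j * x j := by
  simp [P3b_lin]

private theorem P3b_aux (S : Set (SL2 p)) (f : SL2 p → Fin 3 → ZMod p)
    (u : Fin 4 → Fin 3 → ZMod p)
    (h : ∀ g ∈ S, g 0 0 = ∑ j, u 0 j * f g j ∧ g 1 1 = ∑ j, u 1 j * f g j ∧
      g 0 1 = ∑ j, u 2 j * f g j ∧ g 1 0 = ∑ j, u 3 j * f g j) :
    S.ncard ≤ 2 * p ^ 2 := by
  classical
  set P : MvPolynomial (Fin 3) (ZMod p) :=
    P3b_lin (u 0) * P3b_lin (u 1) - P3b_lin (u 2) * P3b_lin (u 3) - 1 with hP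
  have hev : ∀ x : Fin 3 → ZMod p, MvPolynomial.eval x P =
      (∑ j, u 0 j * x j) * (∑ j, u 1 j * x j) - (∑ j, u 2 j * x j) * (∑ j, u 3 j * x j) - 1 := by
    intro x
    rw [hP, map_sub, map_sub, map_mul, map_mul, P3b_lin_eval, P3b_lin_eval, P3b_lin_eval,
      P3b_lin_eval, map_one]
  have hne : P ≠ 0 := by
    intro h0
    have h1 := hev 0
    rw [h0] at h1
    simp at h1
  have hdeg : P.totalDegree ≤ 2 := by
    have h2 : ∀ v w : Fin 3 → ZMod p, (P3b_lin v * P3b_lin w).totalDegree ≤ 2 := by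
      intro v w
      refine (MvPolynomial.totalDegree_mul _ _).trans ?_
      have := P3b_lin_deg v
      have := P3b_lin_deg w
      omega
    refine (MvPolynomial.totalDegree_sub _ _).trans (max_le ?_ ?_)
    · exact (MvPolynomial.totalDegree_sub _ _).trans (max_le (h2 _ _) (h2 _ _))
    · rw [MvPolynomial.totalDegree_one]; omega
  have hSZ := MvPolynomial.schwartz_zippel_totalDegree (p := P) hne (Finset.univ : Finset (ZMod p))
  have hp0 : 0 < p := (Fact.out : p.Prime).pos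
  rw [Finset.card_univ, ZMod.card] at hSZ
  have hcard : #{x ∈ Fintype.piFinset (fun _ : Fin 3 => (Finset.univ : Finset (ZMod p))) |
      MvPolynomial.eval x P = 0} ≤ 2 * p ^ 2 := by
    have hp' : (0 : ℚ≥0) < p := by exact_mod_cast hp0
    rw [div_le_div_iff₀ (by positivity) hp'] at hSZ
    have h3 : (#{x ∈ Fintype.piFinset (fun _ : Fin 3 => (Finset.univ : Finset (ZMod p))) |
      MvPolynomial.eval x P = 0} : ℚ≥0) * p ≤ 2 * p ^ 3 := by
      refine hSZ.trans ?_
      have : (P.totalDegree : ℚ≥0) ≤ 2 := by exact_mod_cast hdeg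
      exact mul_le_mul_of_nonneg_right this (by positivity)
    have h4 : #{x ∈ Fintype.piFinset (fun _ : Fin 3 => (Finset.univ : Finset (ZMod p))) |
      MvPolynomial.eval x P = 0} * p ≤ 2 * p ^ 3 := by exact_mod_cast h3
    have h5 : 2 * p ^ 3 = 2 * p ^ 2 * p := by ring
    rw [h5] at h4
    exact Nat.le_of_mul_le_mul_right h4 hp0
  refine le_trans ?_ hcard
  rw [← Set.ncard_coe_finset]
  apply Set.ncard_le_ncard_of_injOn f
  · intro g hg
    obtain ⟨h0, h1, h2, h3⟩ := h g hg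
    rw [Finset.mem_coe, Finset.mem_filter]
    refine ⟨by simp, ?_⟩
    rw [hev, ← h0, ← h1, ← h2, ← h3]
    have h4 := g.det_coe
    rw [Matrix.det_fin_two] at h4
    have h5 : g 0 0 * g 1 1 - g 0 1 * g 1 0 = 1 := h4
    rw [h5, sub_self]
  · intro g hg g' hg' hff
    obtain ⟨h0, h1, h2, h3⟩ := h g hg
    obtain ⟨h0', h1', h2', h3'⟩ := h g' hg'
    rw [hff] at h0 h1 h2 h3
    apply Matrix.SpecialLinearGroup.ext
    intro i j
    fin_cases i <;> fin_cases j
    · exact h0.trans h0'.symm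
    · exact h2.trans h2'.symm
    · exact h3.trans h3'.symm
    · exact h1.trans h1'.symm

/-- PROOF. By the symmetries it is enough to consider each of the four cases of a nonzero coefficient. Say `α ≠ 0`: then
`a = - (β b + γ c + δ d) / α` is determined by `(b, c, d)` and `a d - b c = 1` becomes `δ d ^ 2 + (β b + γ c) d + α (b c + 1) = 0`. If `δ ≠ 0`: for each
`(b, c)` at most two `d`: at most `2 p ^ 2` solutions. If `δ = 0`: for `(b, c)` with `β b + γ c ≠ 0` exactly one `d`; for `β b + γ c = 0` we need `b c = - 1`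
and `d` is arbitrary; if `(β, γ) ≠ 0` there are at most two such `(b, c)` (`b` determines `c`, `b ^ 2` is determined), altogether at most
`p ^ 2 + 2 p`; if `β = γ = 0` there are `p - 1` such `(b, c)`, at most `p ^ 2` solutions. The case `δ ≠ 0` is symmetric (exchange `a` and `d`).
Say `β ≠ 0` and `α = δ = 0` (the remaining cases): `b = - γ c / β`, `a d = 1 + b c` : for every `(c, a)` with `a ≠ 0` one `d`, for `a = 0` at most
two `c` (`1 = γ c ^ 2 / β`) and `d` arbitrary: at most `p ^ 2 + 2 p ≤ 2 p ^ 2`. Similarly `γ ≠ 0`. -/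
theorem card_linear (α β γ δ : ZMod p) (h : ¬ (α = 0 ∧ β = 0 ∧ γ = 0 ∧ δ = 0)) :
    {g : SL2 p | α * g 0 0 + β * g 0 1 + γ * g 1 0 + δ * g 1 1 = 0}.ncard ≤ 2 * p ^ 2 := by
  by_cases hα : α = 0
  · by_cases hβ : β = 0
    · by_cases hγ : γ = 0
      · have hδ : δ ≠ 0 := fun hd => h ⟨hα, hβ, hγ, hd⟩
        refine P3b_aux _ (fun g => ![g 0 0, g 0 1, g 1 0])
          ![![1, 0, 0], ![-α / δ, -β / δ, -γ / δ], ![0, 1, 0], ![0, 0, 1]] fun g hg => ?_
        have hg' : α * g 0 0 + β * g 0 1 + γ * g 1 0 + δ * g 1 1 = 0 := hg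
        refine ⟨by simp [Fin.sum_univ_three], ?_, by simp [Fin.sum_univ_three],
          by simp [Fin.sum_univ_three]⟩
        simp only [Fin.sum_univ_three, Matrix.cons_val]
        field_simp
        linear_combination hg'
      · refine P3b_aux _ (fun g => ![g 0 0, g 0 1, g 1 1])
          ![![1, 0, 0], ![0, 0, 1], ![0, 1, 0], ![-α / γ, -β / γ, -δ / γ]] fun g hg => ?_
        have hg' : α * g 0 0 + β * g 0 1 + γ * g 1 0 + δ * g 1 1 = 0 := hg
        refine ⟨by simp [Fin.sum_univ_three], by simp [Fin.sum_univ_three],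
          by simp [Fin.sum_univ_three], ?_⟩
        simp only [Fin.sum_univ_three, Matrix.cons_val]
        field_simp
        linear_combination hg'
    · refine P3b_aux _ (fun g => ![g 0 0, g 1 0, g 1 1])
        ![![1, 0, 0], ![0, 0, 1], ![-α / β, -γ / β, -δ / β], ![0, 1, 0]] fun g hg => ?_
      have hg' : α * g 0 0 + β * g 0 1 + γ * g 1 0 + δ * g 1 1 = 0 := hg
      refine ⟨by simp [Fin.sum_univ_three], by simp [Fin.sum_univ_three], ?_,
        by simp [Fin.sum_univ_three]⟩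
      simp only [Fin.sum_univ_three, Matrix.cons_val]
      field_simp
      linear_combination hg'
  · refine P3b_aux _ (fun g => ![g 0 1, g 1 0, g 1 1])
      ![![-β / α, -γ / α, -δ / α], ![0, 0, 1], ![1, 0, 0], ![0, 1, 0]] fun g hg => ?_
    have hg' : α * g 0 0 + β * g 0 1 + γ * g 1 0 + δ * g 1 1 = 0 := hg
    refine ⟨?_, by simp [Fin.sum_univ_three], by simp [Fin.sum_univ_three],
      by simp [Fin.sum_univ_three]⟩
    simp only [Fin.sum_univ_three, Matrix.cons_val]
    field_simp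
    linear_combination hg'

end Pool.Agent.Lib.MP_3bb35d_al.UE
end

section

/-!
# Left multiplication in the basis `1, x, y, x y` (definitions)
-/

set_option autoImplicit false

namespace Pool.Agent.Lib.MP_3bb35d_al.UE

variable {R : Type*} [CommRing R]

/-- Left multiplication by `x`. -/
def Lx (a _b _c : R) : Matrix (Fin 4) (Fin 4) R :=
  !![0, -1, 0, 0; 1, a, 0, 0; 0, 0, 0, -1; 0, 0, 1, a]

/-- Left multiplication by `y`. -/
def Ly (a b c : R) : Matrix (Fin 4) (Fin 4) R :=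
  !![0, c - a * b, -1, -a; 0, b, 0, 1; 1, a, b, c; 0, -1, 0, 0]

/-- Left multiplication by `x⁻¹ = a - x`. -/
def Lx' (a _b _c : R) : Matrix (Fin 4) (Fin 4) R :=
  !![a, 1, 0, 0; -1, 0, 0, 0; 0, 0, a, 1; 0, 0, -1, 0]

/-- Left multiplication by `y⁻¹ = b - y`. -/
def Ly' (a b c : R) : Matrix (Fin 4) (Fin 4) R :=
  !![b, -c + a * b, 1, a; 0, 0, 0, -1; -1, -a, 0, -c; 0, 1, 0, b]

theorem Lx_mul (a b c : R) : Lx a b c * Lx' a b c = 1 := by
  ext i j
  fin_cases i <;> fin_cases j <;>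
    simp [Lx, Lx', Matrix.mul_apply, Fin.sum_univ_four]

theorem Lx_mul' (a b c : R) : Lx' a b c * Lx a b c = 1 := by
  ext i j
  fin_cases i <;> fin_cases j <;>
    simp [Lx, Lx', Matrix.mul_apply, Fin.sum_univ_four]

theorem Ly_mul (a b c : R) : Ly a b c * Ly' a b c = 1 := by
  ext i j
  fin_cases i <;> fin_cases j <;>
    simp [Ly, Ly', Matrix.mul_apply, Fin.sum_univ_four] <;> ring

theorem Ly_mul' (a b c : R) : Ly' a b c * Ly a b c = 1 := by
  ext i j
  fin_cases i <;> fin_cases j <;>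
    simp [Ly, Ly', Matrix.mul_apply, Fin.sum_univ_four] <;> ring

/-- The unit `Lx`. -/
def uLx (a b c : R) : (Matrix (Fin 4) (Fin 4) R)ˣ := ⟨Lx a b c, Lx' a b c, Lx_mul a b c, Lx_mul' a b c⟩

/-- The unit `Ly`. -/
def uLy (a b c : R) : (Matrix (Fin 4) (Fin 4) R)ˣ := ⟨Ly a b c, Ly' a b c, Ly_mul a b c, Ly_mul' a b c⟩

/-- The representation of the free group by `4 × 4` matrices. -/
def Rep (a b c : R) : F2 →* (Matrix (Fin 4) (Fin 4) R)ˣ := ev (uLx a b c) (uLy a b c)

end Pool.Agent.Lib.MP_3bb35d_al.UE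
end

section

/-!
# The bad points (definitions)
-/

set_option autoImplicit false

namespace Pool.Agent.Lib.MP_3bb35d_al.UE

/-- The bad points: `Φ ≠ 0` and for all nine endomorphisms the proportion of the quadruples of words of length `2 n` which satisfy
the law is at least `η`. -/
def BadPt (p : ℕ) [Fact p.Prime] (n : ℕ) (η : ℝ) : Set (Fin 3 → ZMod p) :=
  {P | Ph (P 0) (P 1) (P 2) ≠ 0 ∧ ∀ i : Fin 3 × Fin 3,
    η * 4 ^ (8 * n) ≤
      ({ω : Om (2 * n) | Rep (P 0) (P 1) (P 2) (th i (lw fx fy ω)) = 1}.ncard : ℝ)}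

/-- The traces of a pair. -/
def trP {R : Type*} [CommRing R] (u v : Matrix.SpecialLinearGroup (Fin 2) R) : Fin 3 → R :=
  ![tr u, tr v, tr (u * v)]

end Pool.Agent.Lib.MP_3bb35d_al.UE
end
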