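import Pool.Agent.Lib.MP_3bb35d_al.Mg.G004

section

/-!
# Unipotent and Borel subgroups
-/

set_option autoImplicit false

open scoped Pointwise
open Finset

namespace Pool.Agent.Lib.MP_3bb35d_al.UE

variable {p : ℕ} [Fact p.Prime]

private theorem P5a_inv_mulVec (g : SL2 p) (v w : Fin 2 → ZMod p)
    (h : (g : Matrix (Fin 2) (Fin 2) (ZMod p)).mulVec v = w) :
    ((g⁻¹ : SL2 p) : Matrix (Fin 2) (Fin 2) (ZMod p)).mulVec w = v := by
  rw [← h, Matrix.mulVec_mulVec, ← Matrix.SpecialLinearGroup.coe_mul, inv_mul_cancel,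
    Matrix.SpecialLinearGroup.coe_one, Matrix.one_mulVec]

/-- The stabiliser of a line as a subgroup. -/
theorem bor_subgroup (v : Fin 2 → ZMod p) (hv : v ≠ 0) :
    ∃ H : Subgroup (SL2 p), (H : Set (SL2 p)) = bor v := by
  refine ⟨{ carrier := bor v, mul_mem' := ?_, one_mem' := ?_, inv_mem' := ?_ }, rfl⟩
  · rintro g h ⟨c, hc⟩ ⟨d, hd⟩
    refine ⟨d * c, ?_⟩
    rw [Matrix.SpecialLinearGroup.coe_mul, ← Matrix.mulVec_mulVec, hd, Matrix.mulVec_smul, hc,
      smul_smul]
  · exact ⟨1, by simp⟩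
  · rintro g ⟨c, hc⟩
    have h1 := P5a_inv_mulVec g v (c • v) hc
    have hc0 : c ≠ 0 := by
      rintro rfl
      apply hv
      rw [← h1]
      simp
    refine ⟨c⁻¹, ?_⟩
    have h2 : c • ((g⁻¹ : SL2 p) : Matrix (Fin 2) (Fin 2) (ZMod p)).mulVec v = v := by
      rw [← Matrix.mulVec_smul]; exact h1
    calc ((g⁻¹ : SL2 p) : Matrix (Fin 2) (Fin 2) (ZMod p)).mulVec v
        = c⁻¹ • (c • ((g⁻¹ : SL2 p) : Matrix (Fin 2) (Fin 2) (ZMod p)).mulVec v) := by
          rw [smul_smul, inv_mul_cancel₀ hc0, one_smul]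
      _ = c⁻¹ • v := by rw [h2]

/-- `SL₂(p)` fixes no line. PROOF: one of `!![1, 1; 0, 1]`, `!![1, 0; 1, 1]` moves the line of `v`. -/
theorem bor_ne_univ (v : Fin 2 → ZMod p) (hv : v ≠ 0) : ∃ g : SL2 p, g ∉ bor v := by
  by_cases h1 : v 1 = 0
  · have h0 : v 0 ≠ 0 := by
      intro h0
      apply hv
      funext i
      fin_cases i
      · exact h0
      · exact h1
    refine ⟨⟨!![1, 0; 1, 1], by simp [Matrix.det_fin_two]⟩, ?_⟩
    rintro ⟨c, hc⟩
    have e1 := congrFun hc 1
    simp [Matrix.mulVec, dotProduct, Fin.sum_univ_two, h1] at e1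
    exact h0 e1
  · refine ⟨⟨!![1, 1; 0, 1], by simp [Matrix.det_fin_two]⟩, ?_⟩
    rintro ⟨c, hc⟩
    have e1 := congrFun hc 1
    have e0 := congrFun hc 0
    simp [Matrix.mulVec, dotProduct, Fin.sum_univ_two] at e1 e0
    have hc1 : c = 1 := by
      have : v 1 * (c - 1) = 0 := by linear_combination -e1
      rcases mul_eq_zero.mp this with h | h
      · exact absurd h h1
      · linear_combination h
    subst hc1
    apply h1
    linear_combination e0

/-- PROOF: otherwise `A` is contained in the proper subgroup `bor v`. -/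
theorem exists_move {A : Finset (SL2 p)} {K : ℝ} (hA : Apx p A K) (v : Fin 2 → ZMod p)
    (hv : v ≠ 0) : ∃ a ∈ A, a ∉ bor v := by
  by_contra hcon
  push Not at hcon
  obtain ⟨H, hH⟩ := bor_subgroup v hv
  obtain ⟨g, hg⟩ := bor_ne_univ v hv
  apply hg
  rw [← hH]
  have h1 : Subgroup.closure (A : Set (SL2 p)) ≤ H := by
    rw [Subgroup.closure_le, hH]
    intro a ha
    exact hcon a ha
  rw [hA.gen] at h1
  exact h1 (Subgroup.mem_top g)

/-- An element of `unip v` and of `unip (a v)`, `a ∉ bor v`, is `1` or `-1`. PROOF: `g v = ε v`, `g (a v) = ε' a v`, `v, a v` is a basis, `det g = ε ε' = 1`, so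
`ε = ε'` and `g = ε`. (In characteristic 2 there is only one sign.) -/
theorem unip_inter {v : Fin 2 → ZMod p} (hv : v ≠ 0) {a : SL2 p} (ha : a ∉ bor v) {g : SL2 p}
    (h1 : g ∈ unip v) (h2 : a⁻¹ * g * a ∈ unip v) : g = 1 ∨ g = -1 := by
  set w : Fin 2 → ZMod p := (a : Matrix (Fin 2) (Fin 2) (ZMod p)).mulVec v with hw
  -- the determinant of (v, w)
  have hD : v 0 * w 1 - v 1 * w 0 ≠ 0 := by
    intro hD
    apply ha
    by_cases h0 : v 0 = 0
    · have h1 : v 1 ≠ 0 := by
        intro h1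
        apply hv
        funext i
        fin_cases i
        · exact h0
        · exact h1
      refine ⟨w 1 / v 1, ?_⟩
      rw [← hw]
      have hw0 : w 0 = 0 := by
        rw [h0] at hD
        have : v 1 * w 0 = 0 := by linear_combination -hD
        exact (mul_eq_zero.mp this).resolve_left h1
      funext i
      fin_cases i
      · simp [hw0, h0]
      · simp; field_simp
    · refine ⟨w 0 / v 0, ?_⟩
      rw [← hw]
      funext i
      fin_cases i
      · simp; field_simp
      · simp; field_simp; linear_combination hD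
  -- the eigenvalues
  have key : ∀ e : ZMod p, ∀ e' : ZMod p,
      (g : Matrix (Fin 2) (Fin 2) (ZMod p)).mulVec v = e • v →
      (g : Matrix (Fin 2) (Fin 2) (ZMod p)).mulVec w = e' • w →
      e * e' = 1 ∧ (e = e' → (g : Matrix (Fin 2) (Fin 2) (ZMod p)) = e • 1) := by
    intro e e' hv' hw'
    have a0 := congrFun hv' 0
    have a1 := congrFun hv' 1
    have b0 := congrFun hw' 0
    have b1 := congrFun hw' 1
    simp only [Matrix.mulVec, dotProduct, Fin.sum_univ_two, Pi.smul_apply, smul_eq_mul]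
      at a0 a1 b0 b1
    have hdet : (g : Matrix (Fin 2) (Fin 2) (ZMod p)) 0 0 * (g : Matrix (Fin 2) (Fin 2) (ZMod p)) 1 1
        - (g : Matrix (Fin 2) (Fin 2) (ZMod p)) 0 1 * (g : Matrix (Fin 2) (Fin 2) (ZMod p)) 1 0 = 1 := by
      have := g.det_coe
      rwa [Matrix.det_fin_two] at this
    generalize (g : Matrix (Fin 2) (Fin 2) (ZMod p)) = M at *
    refine ⟨?_, ?_⟩
    · apply mul_right_cancel₀ hD
      -- (M v) ∧ (M w) = det M (v ∧ w)
      have : (e * v 0) * (e' * w 1) - (e * v 1) * (e' * w 0) =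
          (M 0 0 * M 1 1 - M 0 1 * M 1 0) * (v 0 * w 1 - v 1 * w 0) := by
        rw [← a0, ← a1, ← b0, ← b1]; ring
      rw [hdet] at this
      linear_combination this
    · rintro rfl
      have c00 : (M 0 0 - e) * (v 0 * w 1 - v 1 * w 0) = 0 := by
        linear_combination w 1 * a0 - v 1 * b0
      have c01 : M 0 1 * (v 0 * w 1 - v 1 * w 0) = 0 := by
        linear_combination (-w 0) * a0 + v 0 * b0
      have c10 : M 1 0 * (v 0 * w 1 - v 1 * w 0) = 0 := by
        linear_combination w 1 * a1 - v 1 * b1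
      have c11 : (M 1 1 - e) * (v 0 * w 1 - v 1 * w 0) = 0 := by
        linear_combination (-w 0) * a1 + v 0 * b1
      have d00 := (mul_eq_zero.mp c00).resolve_right hD
      have d01 := (mul_eq_zero.mp c01).resolve_right hD
      have d10 := (mul_eq_zero.mp c10).resolve_right hD
      have d11 := (mul_eq_zero.mp c11).resolve_right hD
      ext i j
      fin_cases i <;> fin_cases j
      · simpa [sub_eq_zero] using d00
      · simpa using d01
      · simpa using d10
      · simpa [sub_eq_zero] using d11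
  have hs : ∀ e' : ZMod p, ((a⁻¹ * g * a : SL2 p) : Matrix (Fin 2) (Fin 2) (ZMod p)).mulVec v
      = e' • v → (g : Matrix (Fin 2) (Fin 2) (ZMod p)).mulVec w = e' • w := by
    intro e' h
    have h3 : (a : Matrix (Fin 2) (Fin 2) (ZMod p)).mulVec
        (((a⁻¹ * g * a : SL2 p) : Matrix (Fin 2) (Fin 2) (ZMod p)).mulVec v) = e' • w := by
      rw [h, Matrix.mulVec_smul]
    have h4 : g * a = a * (a⁻¹ * g * a) := by simp [mul_assoc]
    rw [← h3, hw, Matrix.mulVec_mulVec, Matrix.mulVec_mulVec, ← Matrix.SpecialLinearGroup.coe_mul,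
      ← Matrix.SpecialLinearGroup.coe_mul, ← h4]
  have fin1 : ∀ e : ZMod p, (g : Matrix (Fin 2) (Fin 2) (ZMod p)) = e • 1 → e = 1 → g = 1 := by
    rintro e h rfl
    apply Subtype.ext
    rw [h]; simp
  have fin2 : ∀ e : ZMod p, (g : Matrix (Fin 2) (Fin 2) (ZMod p)) = e • 1 → e = -1 → g = -1 := by
    rintro e h rfl
    apply Subtype.ext
    rw [h, Matrix.SpecialLinearGroup.coe_neg]; simp
  rcases h1 with h1 | h1 <;> rcases h2 with h2 | h2
  · left
    obtain ⟨-, k⟩ := key 1 1 (by rw [h1, one_smul]) (hs 1 (by rw [h2, one_smul]))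
    exact fin1 1 (k rfl) rfl
  · left
    obtain ⟨k1, k2⟩ := key 1 (-1) (by rw [h1, one_smul]) (hs (-1) (by rw [h2, neg_smul, one_smul]))
    exact fin1 1 (k2 (by linear_combination -k1)) rfl
  · right
    obtain ⟨k1, k2⟩ := key (-1) 1 (by rw [h1, neg_smul, one_smul]) (hs 1 (by rw [h2, one_smul]))
    exact fin2 (-1) (k2 (by linear_combination k1)) rfl
  · right
    obtain ⟨-, k⟩ := key (-1) (-1) (by rw [h1, neg_smul, one_smul])
      (hs (-1) (by rw [h2, neg_smul, one_smul]))
    exact fin2 (-1) (k rfl) rfl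

end Pool.Agent.Lib.MP_3bb35d_al.UE
end

section

/-!
# Unipotent and Borel subgroups
-/

set_option autoImplicit false

open scoped Pointwise
open Finset

namespace Pool.Agent.Lib.MP_3bb35d_al.UE

variable {p : ℕ} [Fact p.Prime]

private theorem P5b_mul (g h : SL2 p) (v : Fin 2 → ZMod p) :
    ((g * h : SL2 p) : Matrix (Fin 2) (Fin 2) (ZMod p)).mulVec v =
      (g : Matrix (Fin 2) (Fin 2) (ZMod p)).mulVec
        ((h : Matrix (Fin 2) (Fin 2) (ZMod p)).mulVec v) := by
  rw [Matrix.SpecialLinearGroup.coe_mul, Matrix.mulVec_mulVec]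

private theorem P5b_inv (g : SL2 p) (v : Fin 2 → ZMod p) :
    ((g⁻¹ : SL2 p) : Matrix (Fin 2) (Fin 2) (ZMod p)).mulVec
      ((g : Matrix (Fin 2) (Fin 2) (ZMod p)).mulVec v) = v := by
  rw [← P5b_mul, inv_mul_cancel, Matrix.SpecialLinearGroup.coe_one, Matrix.one_mulVec]

private theorem P5b_unip_mul {v : Fin 2 → ZMod p} {g h : SL2 p} (hg : g ∈ unip v)
    (hh : h ∈ unip v) : g * h ∈ unip v := by
  simp only [unip, Set.mem_ofPred_eq] at hg hh ⊢
  rw [P5b_mul]
  rcases hg with hg | hg <;> rcases hh with hh | hh <;> rw [hh]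
  · exact Or.inl hg
  · right
    rw [Matrix.mulVec_neg, hg]
  · exact Or.inr hg
  · left
    rw [Matrix.mulVec_neg, hg, neg_neg]

private theorem P5b_unip_inv {v : Fin 2 → ZMod p} {g : SL2 p} (hg : g ∈ unip v) :
    g⁻¹ ∈ unip v := by
  simp only [unip, Set.mem_ofPred_eq] at hg ⊢
  have h := P5b_inv g v
  rcases hg with hg | hg <;> rw [hg] at h
  · exact Or.inl h
  · right
    rw [Matrix.mulVec_neg] at h
    rw [← h, neg_neg, h]

private theorem P5b_pow_inv {A : Finset (SL2 p)} (hA : A⁻¹ = A) {m : ℕ} {g : SL2 p}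
    (hg : g ∈ A ^ m) : g⁻¹ ∈ A ^ m := by
  have h1 : g⁻¹ ∈ (A ^ m)⁻¹ := Finset.inv_mem_inv hg
  rwa [← inv_pow, hA] at h1

private theorem P5b_cin (A : Finset (SL2 p)) (m : ℕ) (S : Set (SL2 p))
    [DecidablePred fun g => g ∈ S] :
    cin A m S = #((A ^ m).filter fun g => g ∈ S) := by
  unfold cin
  rw [← Set.ncard_coe_finset]
  congr 1
  ext g
  rw [Set.mem_inter_iff, Finset.mem_coe, Finset.mem_coe, Finset.mem_filter]

/-- The unipotent bound. PROOF: let `a ∈ A`, `a ∉ bor v`, `V = A ^ m ∩ unip v`. The map `V × V → A ^ (2 m + 2)`, `(u, u') ↦ u a u' a⁻¹`, has fibres with at most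
two elements: if `u a u' a⁻¹ = w a w' a⁻¹` then `w⁻¹ u = a (w' u'⁻¹) a⁻¹` is in `unip v` and its conjugate by `a⁻¹` is in `unip v`, so `w⁻¹ u = 1` or `-1`
(`unip_inter`; `unip v` is closed under products and inverses). -/
theorem unip_bound {A : Finset (SL2 p)} {K : ℝ} (hA : Apx p A K) (v : Fin 2 → ZMod p)
    (hv : v ≠ 0) (m : ℕ) : cin A m (unip v) ^ 2 ≤ 2 * #(A ^ (2 * m + 2)) := by
  classical
  obtain ⟨a, haA, hav⟩ := exists_move hA v hv
  have haA' : a⁻¹ ∈ A := by
    have h1 : a⁻¹ ∈ A⁻¹ := Finset.inv_mem_inv haA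
    rwa [hA.inv] at h1
  rw [P5b_cin]
  set V := (A ^ m).filter fun g => g ∈ unip v with hV
  have hcard : #(V ×ˢ V) = #V ^ 2 := by
    rw [Finset.card_product, sq]
  rw [← hcard]
  refine Finset.card_le_mul_card_image_of_maps_to
    (f := fun q : SL2 p × SL2 p => q.1 * a * q.2 * a⁻¹) ?_ 2 ?_
  · rintro ⟨u, u'⟩ hu
    rw [Finset.mem_product] at hu
    have h1 := (Finset.mem_filter.mp hu.1).1
    have h2 := (Finset.mem_filter.mp hu.2).1
    have h3 : 2 * m + 2 = m + 1 + m + 1 := by ring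
    rw [h3, pow_succ, pow_add, pow_succ]
    exact Finset.mul_mem_mul (Finset.mul_mem_mul (Finset.mul_mem_mul h1 haA) h2) haA'
  · intro b _
    rcases (Finset.filter (fun q : SL2 p × SL2 p => q.1 * a * q.2 * a⁻¹ = b)
      (V ×ˢ V)).eq_empty_or_nonempty with h0 | ⟨⟨u₀, u₀'⟩, h0⟩
    · rw [h0]
      simp
    · rw [Finset.mem_filter, Finset.mem_product] at h0
      obtain ⟨⟨hu0, hu0'⟩, hb0⟩ := h0
      have hsub : Finset.filter (fun q : SL2 p × SL2 p => q.1 * a * q.2 * a⁻¹ = b) (V ×ˢ V) ⊆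
          {(u₀, u₀'), (-u₀, -u₀')} := by
        rintro ⟨u, u'⟩ hq
        rw [Finset.mem_filter, Finset.mem_product] at hq
        obtain ⟨⟨hu, hu'⟩, hb⟩ := hq
        dsimp only at hb hb0 hu hu' hu0 hu0'
        have m1 := (Finset.mem_filter.mp hu).2
        have m2 := (Finset.mem_filter.mp hu').2
        have m3 := (Finset.mem_filter.mp hu0).2
        have m4 := (Finset.mem_filter.mp hu0').2
        have e1 : a⁻¹ * (u₀⁻¹ * u) * a = u₀' * u'⁻¹ := by
          have e2 : u * a * u' * a⁻¹ = u₀ * a * u₀' * a⁻¹ := hb.trans hb0.symm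
          have e3 : u * a * u' = u₀ * a * u₀' := mul_right_cancel e2
          have e4 : u = u₀ * a * u₀' * u'⁻¹ * a⁻¹ := by
            rw [← e3]
            group
          rw [e4]
          group
        have h1 : u₀⁻¹ * u ∈ unip v := P5b_unip_mul (P5b_unip_inv m3) m1
        have h2 : a⁻¹ * (u₀⁻¹ * u) * a ∈ unip v := by
          rw [e1]
          exact P5b_unip_mul m4 (P5b_unip_inv m2)
        rw [Finset.mem_insert, Finset.mem_singleton, Prod.mk.injEq, Prod.mk.injEq]
        rcases unip_inter hv hav h1 h2 with h3 | h3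
        · left
          rw [h3, mul_one, inv_mul_cancel] at e1
          refine ⟨?_, ?_⟩
          · exact (inv_mul_eq_one.mp h3).symm
          · exact (mul_inv_eq_one.mp e1.symm).symm
        · right
          rw [h3, mul_neg, mul_one, neg_mul, inv_mul_cancel] at e1
          refine ⟨?_, ?_⟩
          · have h4 : u = u₀ * (u₀⁻¹ * u) := by group
            rw [h4, h3, mul_neg, mul_one]
          · have h4 : u'⁻¹ = u₀'⁻¹ * (u₀' * u'⁻¹) := by group
            rw [← e1, mul_neg, mul_one] at h4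
            have h5 : u' * u'⁻¹ = u' * -u₀'⁻¹ := by rw [h4]
            rw [mul_inv_cancel, mul_neg] at h5
            have h6 : u₀' = -u' := by
              have h7 : (1 : SL2 p) * u₀' = -(u' * u₀'⁻¹) * u₀' := by rw [← h5]
              rw [one_mul, neg_mul, inv_mul_cancel_right] at h7
              exact h7
            rw [h6, neg_neg]
      refine (Finset.card_le_card hsub).trans ?_
      exact Finset.card_le_two

/-- PROOF: let `a ∈ A`, `a ∉ bor v`; let `P` be the matrix with the columns `v, a v`. An element `g` with `g ∈ bor v` and `a⁻¹ g a ∈ bor v` has the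
eigenvectors `v, a v`, so it is in `tor P`. The map `V × V → A ^ (2 m + 2)`, `(b, b') ↦ b a b' a⁻¹`, `V = A ^ m ∩ bor v`: if `b a b' a⁻¹ = c a c' a⁻¹` then
`c⁻¹ b = a (c' b'⁻¹) a⁻¹` is in `A ^ (2 m) ∩ tor P`; so for fixed `(c, c')` there are at most `cin A (2 m) (tor P)` pairs `(b, b')`. -/
theorem bor_bound_aux {A : Finset (SL2 p)} {K : ℝ} (hA : Apx p A K) (v : Fin 2 → ZMod p)
    (hv : v ≠ 0) (m : ℕ) : ∃ P : GL (Fin 2) (Kb p),
      cin A m (bor v) ^ 2 ≤ #(A ^ (2 * m + 2)) * cin A (2 * m) (tor P) := by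
  classical
  obtain ⟨a, haA, hav⟩ := exists_move hA v hv
  obtain ⟨H, hH⟩ := bor_subgroup v hv
  have haA' : a⁻¹ ∈ A := by
    have h1 : a⁻¹ ∈ A⁻¹ := Finset.inv_mem_inv haA
    rwa [hA.inv] at h1
  set w : Fin 2 → ZMod p := (a : Matrix (Fin 2) (Fin 2) (ZMod p)).mulVec v with hw
  -- the basis
  set M : Matrix (Fin 2) (Fin 2) (ZMod p) := !![v 0, w 0; v 1, w 1] with hM
  have hdet : M.det ≠ 0 := by
    rw [hM, Matrix.det_fin_two_of]
    intro h0
    apply hav
    change ∃ c : ZMod p, (a : Matrix (Fin 2) (Fin 2) (ZMod p)).mulVec v = c • v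
    rw [← hw]
    have hv' : v 0 ≠ 0 ∨ v 1 ≠ 0 := by
      by_contra hcon
      push Not at hcon
      apply hv
      ext i
      fin_cases i
      · exact hcon.1
      · exact hcon.2
    rcases hv' with h | h
    · refine ⟨w 0 / v 0, ?_⟩
      ext i
      fin_cases i
      · simp [h]
      · simp only [Fin.mk_one, Fin.isValue, Pi.smul_apply, smul_eq_mul]
        field_simp
        linear_combination h0
    · refine ⟨w 1 / v 1, ?_⟩
      ext i
      fin_cases i
      · simp only [Fin.zero_eta, Fin.isValue, Pi.smul_apply, smul_eq_mul]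
        field_simp
        linear_combination -h0
      · simp [h]
  set φ := algebraMap (ZMod p) (Kb p) with hφ
  have hdet' : (M.map φ).det ≠ 0 := by
    have h1 : (M.map φ).det = φ M.det := (RingHom.map_det φ M).symm
    rw [h1]
    exact (map_ne_zero φ).mpr hdet
  let P : GL (Fin 2) (Kb p) := Matrix.GeneralLinearGroup.mkOfDetNeZero (M.map φ) hdet'
  have hPc : (P : Matrix (Fin 2) (Fin 2) (Kb p)) = M.map φ := rfl
  -- the torus
  have htor : ∀ g : SL2 p, g ∈ bor v → a⁻¹ * g * a ∈ bor v → g ∈ tor P := by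
    intro g h1 h2
    obtain ⟨c, hc⟩ := h1
    obtain ⟨d, hd⟩ := h2
    have hd' : (g : Matrix (Fin 2) (Fin 2) (ZMod p)).mulVec w = d • w := by
      have e1 : g * a = a * (a⁻¹ * g * a) := by group
      rw [hw, ← P5b_mul, e1, P5b_mul, hd, Matrix.mulVec_smul]
    have hgM : (g : Matrix (Fin 2) (Fin 2) (ZMod p)) * M = M * !![c, 0; 0, d] := by
      have c0 := congrFun hc 0
      have c1 := congrFun hc 1
      have d0 := congrFun hd' 0
      have d1 := congrFun hd' 1
      simp only [Matrix.mulVec, dotProduct, Fin.sum_univ_two, Pi.smul_apply, smul_eq_mul]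
        at c0 c1 d0 d1
      rw [hM]
      ext i j
      fin_cases i <;> fin_cases j <;>
        simp [Matrix.mul_apply, Fin.sum_univ_two] <;>
        first
          | linear_combination c0
          | linear_combination c1
          | linear_combination d0
          | linear_combination d1
    have hgM' : (g : Matrix (Fin 2) (Fin 2) (ZMod p)).map φ * M.map φ =
        M.map φ * (!![c, 0; 0, d] : Matrix (Fin 2) (Fin 2) (ZMod p)).map φ := by
      rw [← Matrix.map_mul, ← Matrix.map_mul, hgM]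
    have hent : ent P g = (!![c, 0; 0, d] : Matrix (Fin 2) (Fin 2) (ZMod p)).map φ := by
      unfold ent
      rw [mul_assoc, hPc, hgM', ← mul_assoc, ← hPc]
      have e2 : ((P⁻¹ : GL (Fin 2) (Kb p)) : Matrix (Fin 2) (Fin 2) (Kb p)) *
          (P : Matrix (Fin 2) (Fin 2) (Kb p)) = 1 := Units.inv_mul P
      rw [e2, one_mul]
    refine ⟨?_, ?_⟩
    · rw [hent]
      simp
    · rw [hent]
      simp
  refine ⟨P, ?_⟩
  rw [P5b_cin A m, P5b_cin A (2 * m)]
  set V := (A ^ m).filter fun g => g ∈ bor v with hV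
  set T := (A ^ (2 * m)).filter fun g => g ∈ tor P with hT
  have hcard : #(V ×ˢ V) = #V ^ 2 := by
    rw [Finset.card_product, sq]
  rw [← hcard, mul_comm]
  refine Finset.card_le_mul_card_image_of_maps_to
    (f := fun q : SL2 p × SL2 p => q.1 * a * q.2 * a⁻¹) ?_ #T ?_
  · rintro ⟨u, u'⟩ hu
    rw [Finset.mem_product] at hu
    have h1 := (Finset.mem_filter.mp hu.1).1
    have h2 := (Finset.mem_filter.mp hu.2).1
    have h3 : 2 * m + 2 = m + 1 + m + 1 := by ring
    rw [h3, pow_succ, pow_add, pow_succ]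
    exact Finset.mul_mem_mul (Finset.mul_mem_mul (Finset.mul_mem_mul h1 haA) h2) haA'
  · intro b _
    rcases (Finset.filter (fun q : SL2 p × SL2 p => q.1 * a * q.2 * a⁻¹ = b)
      (V ×ˢ V)).eq_empty_or_nonempty with h0 | ⟨⟨u₀, u₀'⟩, h0⟩
    · rw [h0]
      simp
    · rw [Finset.mem_filter, Finset.mem_product] at h0
      obtain ⟨⟨hu0, hu0'⟩, hb0⟩ := h0
      have key : ∀ u u' : SL2 p, u * a * u' * a⁻¹ = b → a⁻¹ * (u₀⁻¹ * u) * a = u₀' * u'⁻¹ := by
        intro u u' hb
        dsimp only at hb0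
        have e2 : u * a * u' * a⁻¹ = u₀ * a * u₀' * a⁻¹ := hb.trans hb0.symm
        have e3 : u * a * u' = u₀ * a * u₀' := mul_right_cancel e2
        have e4 : u = u₀ * a * u₀' * u'⁻¹ * a⁻¹ := by
          rw [← e3]
          group
        rw [e4]
        group
      refine Finset.card_le_card_of_injOn (fun q : SL2 p × SL2 p => u₀⁻¹ * q.1) ?_ ?_
      · rintro ⟨u, u'⟩ hq
        rw [Finset.mem_coe, Finset.mem_filter, Finset.mem_product] at hq
        obtain ⟨⟨hu, hu'⟩, hb⟩ := hq
        dsimp only at hb hb0 hu hu' hu0 hu0'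
        have m1 := Finset.mem_filter.mp hu
        have m2 := Finset.mem_filter.mp hu'
        have m3 := Finset.mem_filter.mp hu0
        have m4 := Finset.mem_filter.mp hu0'
        have n1 : u ∈ H := by
          rw [← SetLike.mem_coe, hH]
          exact m1.2
        have n2 : u' ∈ H := by
          rw [← SetLike.mem_coe, hH]
          exact m2.2
        have n3 : u₀ ∈ H := by
          rw [← SetLike.mem_coe, hH]
          exact m3.2
        have n4 : u₀' ∈ H := by
          rw [← SetLike.mem_coe, hH]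
          exact m4.2
        rw [Finset.mem_coe, hT, Finset.mem_filter]
        refine ⟨?_, htor _ ?_ ?_⟩
        · have h3 : 2 * m = m + m := by ring
          rw [h3, pow_add]
          exact Finset.mul_mem_mul (P5b_pow_inv hA.inv m3.1) m1.1
        · rw [← hH, SetLike.mem_coe]
          exact H.mul_mem (H.inv_mem n3) n1
        · rw [key u u' hb, ← hH, SetLike.mem_coe]
          exact H.mul_mem n4 (H.inv_mem n2)
      · rintro ⟨u, u'⟩ hq ⟨t, t'⟩ hq' h
        rw [Finset.mem_coe, Finset.mem_filter, Finset.mem_product] at hq hq'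
        have hb := hq.2
        have hb' := hq'.2
        dsimp only at h hb hb'
        have e1 : u = t := mul_left_cancel h
        have e2 : u * a * u' * a⁻¹ = t * a * t' * a⁻¹ := hb.trans hb'.symm
        have e3 : u * a * u' = t * a * t' := mul_right_cancel e2
        rw [e1] at e3
        rw [e1, mul_left_cancel e3]

end Pool.Agent.Lib.MP_3bb35d_al.UE
end

section

/-!
# Unipotent and Borel subgroups
-/

set_option autoImplicit false

open scoped Pointwise
open Finset

namespace Pool.Agent.Lib.MP_3bb35d_al.UE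

variable {p : ℕ} [Fact p.Prime]

/-- The Borel bound. PROOF: the sixth power of the left side (before cubing) is at most `#(A ^ (2m+2)) ^ 3 * 512 * #(A ^ (6 m + 32))`
(`bor_bound_aux` cubed, `torus_bound`), so at most `512 K ^ (12 m + 38) #A ^ 4 ≤ (23 K ^ (6 m + 19) #A ^ 2) ^ 2` (`Apx.pow`), and `23 ≤ K ^ 5`. -/
theorem bor_bound (hp : 11 ≤ p) {A : Finset (SL2 p)} {K : ℝ} (hA : Apx p A K)
    (v : Fin 2 → ZMod p) (hv : v ≠ 0) (m : ℕ) (hm : 1 ≤ m) :
    (cin A m (bor v) : ℝ) ^ 3 ≤ K ^ (6 * m + 24) * (#A : ℝ) ^ 2 := by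
  obtain ⟨P, hP⟩ := bor_bound_aux hA v hv m
  have hT := torus_bound hp hA P (2 * m)
  have hK0 : (0 : ℝ) ≤ K := by linarith [hA.K2]
  set B : ℝ := (cin A m (bor v) : ℝ) with hB
  set T : ℝ := (cin A (2 * m) (tor P) : ℝ) with hTdef
  have hB0 : 0 ≤ B := Nat.cast_nonneg _
  have hT0 : 0 ≤ T := Nat.cast_nonneg _
  have h1 : B ^ 2 ≤ (#(A ^ (2 * m + 2)) : ℝ) * T := by
    rw [hB, hTdef]
    exact_mod_cast hP
  have h2 : T ^ 3 ≤ 512 * (#(A ^ (3 * (2 * m) + 32)) : ℝ) := by
    rw [hTdef]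
    exact_mod_cast hT
  have h3 : (#(A ^ (2 * m + 2)) : ℝ) ≤ K ^ (2 * m + 2) * #A := hA.pow (by omega)
  have h4 : (#(A ^ (3 * (2 * m) + 32)) : ℝ) ≤ K ^ (3 * (2 * m) + 32) * #A := hA.pow (by omega)
  have hA0 : (0 : ℝ) ≤ #A := Nat.cast_nonneg _
  have hrel : (K ^ (6 * m + 24)) ^ 2 =
      K ^ 10 * ((K ^ (2 * m + 2)) ^ 3 * K ^ (3 * (2 * m) + 32)) := by
    rw [← pow_mul, ← pow_mul, ← pow_add, ← pow_add]
    congr 1
    ring
  have hX0 : 0 ≤ K ^ (2 * m + 2) := pow_nonneg hK0 _
  have hY0 : 0 ≤ K ^ (3 * (2 * m) + 32) := pow_nonneg hK0 _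
  have hZ0 : 0 ≤ K ^ (6 * m + 24) := pow_nonneg hK0 _
  have h6 : (2 : ℝ) ^ 10 ≤ K ^ 10 := pow_le_pow_left₀ (by norm_num) hA.K2 10
  generalize K ^ (2 * m + 2) = X at h3 hrel hX0
  generalize K ^ (3 * (2 * m) + 32) = Y at h4 hrel hY0
  generalize K ^ (6 * m + 24) = Z at hrel hZ0 ⊢
  generalize (#(A ^ (2 * m + 2)) : ℝ) = a₁ at h1 h3
  generalize (#(A ^ (3 * (2 * m) + 32)) : ℝ) = a₂ at h2 h4
  generalize (#A : ℝ) = a₀ at h3 h4 hA0 ⊢
  have hXa : 0 ≤ X * a₀ := mul_nonneg hX0 hA0
  have hYa : 0 ≤ Y * a₀ := mul_nonneg hY0 hA0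
  have h5 : (B ^ 3) ^ 2 ≤ (Z * a₀ ^ 2) ^ 2 := by
    have e1 : (B ^ 2) ^ 3 ≤ ((X * a₀) * T) ^ 3 :=
      pow_le_pow_left₀ (sq_nonneg B) (h1.trans (mul_le_mul_of_nonneg_right h3 hT0)) 3
    have e2 : (X * a₀) ^ 3 * T ^ 3 ≤ (X * a₀) ^ 3 * (512 * (Y * a₀)) :=
      mul_le_mul_of_nonneg_left (by linarith) (pow_nonneg hXa 3)
    have e3 : 512 * ((X * a₀) ^ 3 * (Y * a₀)) ≤ K ^ 10 * ((X * a₀) ^ 3 * (Y * a₀)) := by
      apply mul_le_mul_of_nonneg_right _ (mul_nonneg (pow_nonneg hXa 3) hYa)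
      norm_num at h6
      linarith
    have e4 : (Z * a₀ ^ 2) ^ 2 = K ^ 10 * ((X * a₀) ^ 3 * (Y * a₀)) := by
      rw [mul_pow, hrel]
      ring
    rw [e4]
    calc (B ^ 3) ^ 2 = (B ^ 2) ^ 3 := by ring
      _ ≤ ((X * a₀) * T) ^ 3 := e1
      _ = (X * a₀) ^ 3 * T ^ 3 := by ring
      _ ≤ (X * a₀) ^ 3 * (512 * (Y * a₀)) := e2
      _ = 512 * ((X * a₀) ^ 3 * (Y * a₀)) := by ring
      _ ≤ _ := e3
  exact le_of_sq_le_sq h5 (mul_nonneg hZ0 (sq_nonneg a₀))

end Pool.Agent.Lib.MP_3bb35d_al.UE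
end

section

end

section

/-!
# Centralisers
-/

set_option autoImplicit false

open scoped Pointwise
open Finset

namespace Pool.Agent.Lib.MP_3bb35d_al.UE

variable {p : ℕ} [Fact p.Prime]

private theorem P6a_aux1 (P : GL (Fin 2) (Kb p)) (y : SL2 p) (s t : Kb p)
    (h : (y : Matrix (Fin 2) (Fin 2) (ZMod p)).map (algebraMap (ZMod p) (Kb p)) *
      (P : Matrix (Fin 2) (Fin 2) (Kb p)) = (P : Matrix (Fin 2) (Fin 2) (Kb p)) * !![s, 0; 0, t]) :
    y ∈ tor P := by
  have h1 : ent P y = !![s, 0; 0, t] := by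
    unfold ent
    rw [Matrix.mul_assoc, h, ← Matrix.mul_assoc]
    have h2 : ((P⁻¹ : GL (Fin 2) (Kb p)) : Matrix (Fin 2) (Fin 2) (Kb p)) *
        (P : Matrix (Fin 2) (Fin 2) (Kb p)) = 1 := by
      rw [← Units.val_mul, inv_mul_cancel, Units.val_one]
    rw [h2, Matrix.one_mul]
  constructor
  · rw [h1]; simp
  · rw [h1]; simp

private theorem P6a_aux2 (P : GL (Fin 2) (Kb p)) {y : SL2 p} (hy : y ∈ tor P) :
    ent P y = !![ent P y 0 0, 0; 0, ent P y 1 1] := by
  ext i j
  fin_cases i <;> fin_cases j <;> simp [hy.1, hy.2]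

private theorem P6a_aux3 (P : GL (Fin 2) (Kb p)) {y : SL2 p} (hy : y ∈ tor P)
    (h : ent P y 0 0 = ent P y 1 1) : y = 1 ∨ y = -1 := by
  have hd := det_ent P y
  rw [hy.1, ← h] at hd
  have h1 : (ent P y 0 0 - 1) * (ent P y 0 0 + 1) = 0 := by linear_combination hd
  rcases mul_eq_zero.1 h1 with h2 | h2
  · left
    have h3 : ent P y 0 0 = 1 := by linear_combination h2
    apply ent_inj P
    rw [ent_one, P6a_aux2 P hy, ← h, h3]
    ext i j
    fin_cases i <;> fin_cases j <;> simp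
  · right
    have h3 : ent P y 0 0 = -1 := by linear_combination h2
    apply ent_inj P
    rw [ent_neg, ent_one, P6a_aux2 P hy, ← h, h3]
    ext i j
    fin_cases i <;> fin_cases j <;> simp

/-- A matrix with two different eigenvalues is diagonalisable over the algebraic closure. PROOF: `X² - (tr y) X + 1` has two different roots `s, s⁻¹` in `Kb p`
as `(tr y)² ≠ 4`; take eigenvectors as the columns of `P`. -/
theorem exists_diag (y : SL2 p) (hy : tr y ≠ 2) (hy' : tr y ≠ -2) :
    ∃ P : GL (Fin 2) (Kb p), y ∈ tor P := by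
  set φ := algebraMap (ZMod p) (Kb p) with hφ
  have hinj : Function.Injective φ := φ.injective
  set a := φ (y 0 0) with ha
  set b := φ (y 0 1) with hb
  set c := φ (y 1 0) with hc
  set d := φ (y 1 1) with hd
  have hdet : a * d - b * c = 1 := by
    have h1 := y.det_coe
    rw [Matrix.det_fin_two] at h1
    have h2 := congrArg φ h1
    rw [map_sub, map_mul, map_mul, map_one] at h2
    exact h2
  have htr : φ (tr y) = a + d := by rw [tr, map_add]
  obtain ⟨s, hs⟩ : ∃ s : Kb p, s ^ 2 - (a + d) * s + 1 = 0 := by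
    set q : Polynomial (Kb p) := Polynomial.X ^ 2 - Polynomial.C (a + d) * Polynomial.X + 1 with hq
    have hdeg : q.degree = 2 := by
      have : q = Polynomial.C 1 * Polynomial.X ^ 2 + Polynomial.C (-(a + d)) * Polynomial.X
          + Polynomial.C 1 := by
        rw [hq]; simp; ring
      rw [this]
      exact Polynomial.degree_quadratic one_ne_zero
    obtain ⟨s, hs⟩ := IsAlgClosed.exists_root q (by rw [hdeg]; norm_num)
    refine ⟨s, ?_⟩
    have h1 := hs
    rw [Polynomial.IsRoot.def, hq] at h1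
    simpa using h1
  set t := a + d - s with ht
  have hst : s * t = 1 := by rw [ht]; linear_combination -hs
  have hne : s ≠ t := by
    intro h
    have h1 : (s - 1) * (s + 1) = 0 := by
      have : s * s = 1 := by nth_rewrite 2 [h]; exact hst
      linear_combination this
    have h2 : a + d = 2 * s := by
      have : a + d = s + t := by rw [ht]; ring
      rw [this, ← h]; ring
    rcases mul_eq_zero.1 h1 with h3 | h3
    · apply hy
      apply hinj
      have h4 : s = 1 := by linear_combination h3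
      rw [htr, h2, h4, map_ofNat]
      ring
    · apply hy'
      apply hinj
      have h4 : s = -1 := by linear_combination h3
      rw [htr, h2, h4, map_neg, map_ofNat]
      ring
  have ht' : t ^ 2 - (a + d) * t + 1 = 0 := by
    rw [ht]; linear_combination hs
  have hM : (y : Matrix (Fin 2) (Fin 2) (ZMod p)).map φ = !![a, b; c, d] := by
    ext i j
    fin_cases i <;> fin_cases j <;> simp [ha, hb, hc, hd]
  by_cases hb0 : b = 0
  · by_cases hc0 : c = 0
    · refine ⟨1, P6a_aux1 1 y a d ?_⟩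
      rw [← hφ, hM, hb0, hc0]
      simp
    · have hdP : (!![s - d, t - d; c, c] : Matrix (Fin 2) (Fin 2) (Kb p)).det ≠ 0 := by
        rw [Matrix.det_fin_two_of]
        have : (s - d) * c - (t - d) * c = (s - t) * c := by ring
        rw [this]
        exact mul_ne_zero (sub_ne_zero.2 hne) hc0
      refine ⟨Matrix.GeneralLinearGroup.mkOfDetNeZero _ hdP, P6a_aux1 _ y s t ?_⟩
      rw [← hφ, hM]
      change !![a, b; c, d] * !![s - d, t - d; c, c] = !![s - d, t - d; c, c] * !![s, 0; 0, t]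
      rw [Matrix.mul_fin_two, Matrix.mul_fin_two]
      ext i j
      fin_cases i <;> fin_cases j <;> simp
      · linear_combination -hs - hdet
      · linear_combination -ht' - hdet
      · ring
      · ring
  · have hdP : (!![b, b; s - a, t - a] : Matrix (Fin 2) (Fin 2) (Kb p)).det ≠ 0 := by
      rw [Matrix.det_fin_two_of]
      have : b * (t - a) - b * (s - a) = b * (t - s) := by ring
      rw [this]
      exact mul_ne_zero hb0 (sub_ne_zero.2 hne.symm)
    refine ⟨Matrix.GeneralLinearGroup.mkOfDetNeZero _ hdP, P6a_aux1 _ y s t ?_⟩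
    rw [← hφ, hM]
    change !![a, b; c, d] * !![b, b; s - a, t - a] = !![b, b; s - a, t - a] * !![s, 0; 0, t]
    rw [Matrix.mul_fin_two, Matrix.mul_fin_two]
    ext i j
    fin_cases i <;> fin_cases j <;> simp
    · ring
    · ring
    · linear_combination -hs - hdet
    · linear_combination -ht' - hdet

/-- PROOF: an element of `tor P` with the entries `s, s⁻¹`; `s = s⁻¹` iff `s = ±1` iff `y = ±1` iff the trace is `±2`
(`s + s⁻¹ = 2 ε` gives `(s - ε)² = 0`). -/
theorem tor_tr (P : GL (Fin 2) (Kb p)) {y : SL2 p} (hy : y ∈ tor P) (h1 : y ≠ 1)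
    (h2 : y ≠ -1) : tr y ≠ 2 ∧ tr y ≠ -2 ∧ ent P y 0 0 ≠ ent P y 1 1 := by
  have hne : ent P y 0 0 ≠ ent P y 1 1 := fun h => (P6a_aux3 P hy h).elim h1 h2
  have hd := det_ent P y
  rw [hy.1, zero_mul, sub_zero] at hd
  have ht := tr_ent P y
  refine ⟨fun h => hne ?_, fun h => hne ?_, hne⟩
  · rw [h] at ht
    simp only [map_ofNat] at ht
    have h3 : (ent P y 0 0 - 1) ^ 2 = 0 := by
      have h4 : ent P y 1 1 = 2 - ent P y 0 0 := by linear_combination ht
      rw [h4] at hd
      linear_combination -hd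
    have h5 : ent P y 0 0 = 1 := by
      have := pow_eq_zero_iff (two_ne_zero) |>.1 h3
      linear_combination this
    linear_combination 2 * h5 - ht
  · rw [h] at ht
    simp only [map_neg, map_ofNat] at ht
    have h3 : (ent P y 0 0 + 1) ^ 2 = 0 := by
      have h4 : ent P y 1 1 = -2 - ent P y 0 0 := by linear_combination ht
      rw [h4] at hd
      linear_combination -hd
    have h5 : ent P y 0 0 = -1 := by
      have := pow_eq_zero_iff (two_ne_zero) |>.1 h3
      linear_combination this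
    linear_combination 2 * h5 - ht

/-- PROOF: commuting with `diag(s, s⁻¹)`, `s ≠ s⁻¹`, means diagonal. -/
theorem comm_tor (P : GL (Fin 2) (Kb p)) {y z : SL2 p} (hy : y ∈ tor P) (h1 : y ≠ 1)
    (h2 : y ≠ -1) (h : Commute y z) : z ∈ tor P := by
  have hne := (tor_tr P hy h1 h2).2.2
  have e : ent P y * ent P z = ent P z * ent P y := by
    rw [← ent_mul, ← ent_mul, h.eq]
  rw [P6a_aux2 P hy] at e
  have e01 := congrFun (congrFun e 0) 1
  have e10 := congrFun (congrFun e 1) 0
  simp [Matrix.mul_apply, Fin.sum_univ_two] at e01 e10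
  constructor
  · have : (ent P y 0 0 - ent P y 1 1) * ent P z 0 1 = 0 := by linear_combination e01
    exact (mul_eq_zero.1 this).resolve_left (sub_ne_zero.2 hne)
  · have : (ent P y 0 0 - ent P y 1 1) * ent P z 1 0 = 0 := by linear_combination -e10
    exact (mul_eq_zero.1 this).resolve_left (sub_ne_zero.2 hne)

end Pool.Agent.Lib.MP_3bb35d_al.UE
end
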