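import Pool.Agent.Lib.MP_3bb35d_al.Mg.G008
import Pool.Agent.Lib.MP_3bb35d_al.Mg.G010

section

/-!
# Centralisers
-/

set_option autoImplicit false

open scoped Pointwise
open Finset

namespace Pool.Agent.Lib.MP_3bb35d_al.UE

variable {p : ℕ} [Fact p.Prime]

/-- The computation in coordinates: `N = y - ε`, `z` commutes with `y`. -/
private theorem P6b_aux {ε a b c d x q r s : ZMod p} (hε : ε ^ 2 = 1) (hdet : a * d - b * c = 1)
    (htr : a + d = 2 * ε) (hz : x * s - q * r = 1)
    (e1 : a * x + b * r = x * a + q * c)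
    (e3 : c * x + d * r = r * a + s * c) (hc : c ≠ 0) :
    (x * (a - ε) + q * c = a - ε ∧ r * (a - ε) + s * c = c) ∨
      (x * (a - ε) + q * c = -(a - ε) ∧ r * (a - ε) + s * c = -c) := by
  have hd : d = 2 * ε - a := by linear_combination htr
  have hα : (a - ε) ^ 2 = -(b * c) := by
    rw [hd] at hdet
    linear_combination -hdet + hε
  have h1 : b * r = q * c := by linear_combination e1
  have h3 : 2 * (a - ε) * r = c * (x - s) := by
    rw [hd] at e3
    linear_combination -e3
  have hl : (x * c - r * (a - ε)) / c * ((x * c - r * (a - ε)) / c) = 1 := by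
    rw [← pow_two, div_pow, div_eq_one_iff_eq (pow_ne_zero 2 hc)]
    linear_combination c ^ 2 * hz + r ^ 2 * hα - x * c * h3 - r * c * h1
  have hv1 : x * (a - ε) + q * c = (x * c - r * (a - ε)) / c * (a - ε) := by
    rw [div_mul_eq_mul_div, eq_div_iff hc]
    linear_combination r * hα - c * h1
  have hv2 : r * (a - ε) + s * c = (x * c - r * (a - ε)) / c * c := by
    rw [div_mul_cancel₀ _ hc]
    linear_combination h3
  rw [hv1, hv2]
  rcases mul_self_eq_one_iff.1 hl with h | h
  · left; rw [h]; simp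
  · right; rw [h]; simp

private theorem P6b_main {y : SL2 p} (ε : ZMod p) (hε : ε ^ 2 = 1)
    (hne : ¬ (y 0 0 = ε ∧ y 0 1 = 0 ∧ y 1 0 = 0 ∧ y 1 1 = ε)) (ht : y 0 0 + y 1 1 = 2 * ε) :
    ∃ v : Fin 2 → ZMod p, v ≠ 0 ∧ ∀ z : SL2 p, Commute y z → z ∈ unip v := by
  have hy : y 0 0 * y 1 1 - y 0 1 * y 1 0 = 1 := by
    have h := y.2
    rw [Matrix.det_fin_two] at h
    exact h
  have hcom : ∀ z : SL2 p, Commute y z →
      (z 0 0 * z 1 1 - z 0 1 * z 1 0 = 1) ∧
      (y 0 0 * z 0 0 + y 0 1 * z 1 0 = z 0 0 * y 0 0 + z 0 1 * y 1 0) ∧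
      (y 0 0 * z 0 1 + y 0 1 * z 1 1 = z 0 0 * y 0 1 + z 0 1 * y 1 1) ∧
      (y 1 0 * z 0 0 + y 1 1 * z 1 0 = z 1 0 * y 0 0 + z 1 1 * y 1 0) := by
    intro z hz
    have h0 : (y * z : SL2 p).1 = (z * y : SL2 p).1 := congrArg Subtype.val hz.eq
    have h1 : (y : Matrix (Fin 2) (Fin 2) (ZMod p)) * (z : Matrix (Fin 2) (Fin 2) (ZMod p)) =
        (z : Matrix (Fin 2) (Fin 2) (ZMod p)) * (y : Matrix (Fin 2) (Fin 2) (ZMod p)) := h0
    have h2 := z.2
    rw [Matrix.det_fin_two] at h2
    have h3 := fun i j => congrFun (congrFun h1 i) j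
    refine ⟨h2, ?_, ?_, ?_⟩
    · have := h3 0 0
      simpa [Matrix.mul_apply, Fin.sum_univ_two] using this
    · have := h3 0 1
      simpa [Matrix.mul_apply, Fin.sum_univ_two] using this
    · have := h3 1 0
      simpa [Matrix.mul_apply, Fin.sum_univ_two] using this
  by_cases hc : y 1 0 = 0
  · -- upper triangular
    have ha : y 0 0 = ε := by
      have h1 : (y 0 0 - ε) ^ 2 = 0 := by
        rw [hc] at hy
        have hd : y 1 1 = 2 * ε - y 0 0 := by linear_combination ht
        rw [hd] at hy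
        linear_combination -hy + hε
      have h2 := pow_eq_zero_iff (two_ne_zero) |>.1 h1
      exact sub_eq_zero.1 h2
    have hd : y 1 1 = ε := by linear_combination ht - ha
    have hb : y 0 1 ≠ 0 := fun hb => hne ⟨ha, hb, hc, hd⟩
    refine ⟨![1, 0], ?_, ?_⟩
    · intro h
      have := congrFun h 0
      simp at this
    · intro z hz
      obtain ⟨h0, h1, h2, _⟩ := hcom z hz
      have hr : z 1 0 = 0 := by
        rw [hc] at h1
        have : y 0 1 * z 1 0 = 0 := by linear_combination h1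
        exact (mul_eq_zero.1 this).resolve_left hb
      have hs : z 1 1 = z 0 0 := by
        rw [ha, hd] at h2
        have : y 0 1 * (z 1 1 - z 0 0) = 0 := by linear_combination h2
        exact sub_eq_zero.1 ((mul_eq_zero.1 this).resolve_left hb)
      have hx : z 0 0 * z 0 0 = 1 := by
        rw [hr, hs] at h0
        linear_combination h0
      rcases mul_self_eq_one_iff.1 hx with h | h
      · left
        funext i
        fin_cases i
        · simp [Matrix.mulVec, dotProduct, Fin.sum_univ_two, h]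
        · simp [Matrix.mulVec, dotProduct, Fin.sum_univ_two, hr]
      · right
        funext i
        fin_cases i
        · simp [Matrix.mulVec, dotProduct, Fin.sum_univ_two, h]
        · simp [Matrix.mulVec, dotProduct, Fin.sum_univ_two, hr]
  · refine ⟨![y 0 0 - ε, y 1 0], ?_, ?_⟩
    · intro h
      apply hc
      have := congrFun h 1
      simpa using this
    · intro z hz
      obtain ⟨h0, h1, _, h3⟩ := hcom z hz
      rcases P6b_aux hε hy ht h0 h1 h3 hc with ⟨h4, h5⟩ | ⟨h4, h5⟩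
      · left
        funext i
        fin_cases i
        · simpa [Matrix.mulVec, dotProduct, Fin.sum_univ_two] using h4
        · simpa [Matrix.mulVec, dotProduct, Fin.sum_univ_two] using h5
      · right
        funext i
        fin_cases i
        · simpa [Matrix.mulVec, dotProduct, Fin.sum_univ_two] using h4
        · simpa [Matrix.mulVec, dotProduct, Fin.sum_univ_two] using h5

/-- PROOF: `tr y = 2 ε`: `(y - ε)² = 0` (Cayley-Hamilton), `y ≠ ε` so there is `v ≠ 0` with `y v = ε v`, and `ker (y - ε)` is the line of `v`, image of `y - ε`. If `z` commutes with `y` then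
`z v = c v`; let `w` be a vector with `(y - ε) w = v`; then `(y - ε) z w = z v = c v`, so `z w - c w ∈ ker = ` line of `v`, and `det z = c² = 1`, `c = ±1`. -/
theorem comm_unip {y : SL2 p} (h1 : y ≠ 1) (h2 : y ≠ -1) (ht : tr y = 2 ∨ tr y = -2) :
    ∃ v : Fin 2 → ZMod p, v ≠ 0 ∧ ∀ z : SL2 p, Commute y z → z ∈ unip v := by
  rcases ht with ht | ht
  · refine P6b_main 1 (by ring) ?_ ?_
    · rintro ⟨ha, hb, hc, hd⟩
      apply h1
      ext i j
      fin_cases i <;> fin_cases j
      · simpa using ha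
      · simpa using hb
      · simpa using hc
      · simpa using hd
    · unfold tr at ht
      linear_combination ht
  · refine P6b_main (-1) (by ring) ?_ ?_
    · rintro ⟨ha, hb, hc, hd⟩
      apply h2
      ext i j
      fin_cases i <;> fin_cases j
      · simpa using ha
      · simpa using hb
      · simpa using hc
      · simpa using hd
    · unfold tr at ht
      linear_combination ht

end Pool.Agent.Lib.MP_3bb35d_al.UE
end

section

/-!
# Centralisers
-/

set_option autoImplicit false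

open scoped Pointwise
open Finset

namespace Pool.Agent.Lib.MP_3bb35d_al.UE

variable {p : ℕ} [Fact p.Prime]

private theorem P6c_aux (S : Finset (SL2 p)) (φ ψ : SL2 p → ZMod p)
    (hinj : ∀ z ∈ S, ∀ w ∈ S, φ z = φ w → ψ z = ψ w → z = w)
    (hq : ∀ c, ∃ u w : ZMod p, ∀ z ∈ S, φ z = c → ψ z ^ 2 + u * ψ z + w = 0) :
    #S ≤ 2 * p := by
  classical
  have h := Finset.card_le_mul_card_image_of_maps_to (s := S) (t := (Finset.univ : Finset (ZMod p)))
    (f := φ) (fun z _ => Finset.mem_univ _) 2 (by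
      intro c _
      by_contra hcon
      push Not at hcon
      obtain ⟨z1, m1, z2, m2, z3, m3, n12, n13, n23⟩ := Finset.two_lt_card.1 hcon
      rw [Finset.mem_filter] at m1 m2 m3
      obtain ⟨u, w, huw⟩ := hq c
      have q1 := huw z1 m1.1 m1.2
      have q2 := huw z2 m2.1 m2.2
      have q3 := huw z3 m3.1 m3.2
      have d12 : ψ z1 - ψ z2 ≠ 0 := fun e => n12 (hinj z1 m1.1 z2 m2.1 (m1.2.trans m2.2.symm)
        (sub_eq_zero.1 e))
      have d13 : ψ z1 - ψ z3 ≠ 0 := fun e => n13 (hinj z1 m1.1 z3 m3.1 (m1.2.trans m3.2.symm)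
        (sub_eq_zero.1 e))
      have d23 : ψ z2 - ψ z3 ≠ 0 := fun e => n23 (hinj z2 m2.1 z3 m3.1 (m2.2.trans m3.2.symm)
        (sub_eq_zero.1 e))
      have e12 : (ψ z1 - ψ z2) * (ψ z1 + ψ z2 + u) = 0 := by linear_combination q1 - q2
      have e13 : (ψ z1 - ψ z3) * (ψ z1 + ψ z3 + u) = 0 := by linear_combination q1 - q3
      have f12 := (mul_eq_zero.1 e12).resolve_left d12
      have f13 := (mul_eq_zero.1 e13).resolve_left d13
      exact d23 (by linear_combination f12 - f13))
  rwa [Finset.card_univ, ZMod.card] at h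

private theorem P6c_ext {z w : SL2 p} (h00 : z 0 0 = w 0 0) (h01 : z 0 1 = w 0 1)
    (h10 : z 1 0 = w 1 0) (h11 : z 1 1 = w 1 1) : z = w := by
  ext i j
  fin_cases i <;> fin_cases j
  exacts [h00, h01, h10, h11]

private theorem P6c_det (z : SL2 p) : z 0 0 * z 1 1 - z 0 1 * z 1 0 = 1 := by
  have h1 := z.det_coe
  rw [Matrix.det_fin_two] at h1
  exact h1

private theorem P6c_comm {y z : SL2 p} (h : Commute y z) :
    (y 0 1 * z 1 0 = z 0 1 * y 1 0) ∧
    (y 0 0 * z 0 1 + y 0 1 * z 1 1 = z 0 0 * y 0 1 + z 0 1 * y 1 1) ∧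
    (y 1 0 * z 0 0 + y 1 1 * z 1 0 = z 1 0 * y 0 0 + z 1 1 * y 1 0) := by
  have e : (y * z : SL2 p) = z * y := h.eq
  have e' : (y : Matrix (Fin 2) (Fin 2) (ZMod p)) * (z : Matrix (Fin 2) (Fin 2) (ZMod p))
      = (z : Matrix (Fin 2) (Fin 2) (ZMod p)) * (y : Matrix (Fin 2) (Fin 2) (ZMod p)) := by
    rw [← Matrix.SpecialLinearGroup.coe_mul, ← Matrix.SpecialLinearGroup.coe_mul, e]
  have e00 := congrFun (congrFun e' 0) 0
  have e01 := congrFun (congrFun e' 0) 1
  have e10 := congrFun (congrFun e' 1) 0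
  rw [Matrix.mul_apply, Matrix.mul_apply, Fin.sum_univ_two, Fin.sum_univ_two] at e00 e01 e10
  refine ⟨?_, e01, e10⟩
  linear_combination e00

/-- PROOF. By `exists_diag`, `comm_tor` or `comm_unip` the centraliser is contained in a torus or in `unip v`. Torus: the cube is at most
`512 #(A ^ (3 m + 32)) ≤ 512 K ^ (3 m + 32) #A ≤ K ^ (3 m + 41) #A ^ 2`. Unipotent: `c² ≤ 2 #(A ^ (2 m + 2)) ≤ 2 K ^ (2 m + 2) #A`, so `c³ ≤ c⁴ ≤ 4 K ^ (4 m + 4) #A ^ 2`
(`c ≥ 1` because `1 ∈ A ^ m`, or `c = 0`). -/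
theorem comm_bound (hp : 11 ≤ p) {A : Finset (SL2 p)} {K : ℝ} (hA : Apx p A K) (y : SL2 p)
    (h1 : y ≠ 1) (h2 : y ≠ -1) (m : ℕ) (hm : 1 ≤ m) :
    (cin A m {z | Commute y z} : ℝ) ^ 3 ≤ K ^ (4 * m + 41) * (#A : ℝ) ^ 2 := by
  have hmono : ∀ T : Set (SL2 p), (∀ z : SL2 p, Commute y z → z ∈ T) →
      cin A m {z | Commute y z} ≤ cin A m T := by
    intro T hT
    unfold cin
    exact Set.ncard_le_ncard (fun z hz => ⟨hz.1, hT z hz.2⟩)
      ((A ^ m).finite_toSet.subset Set.inter_subset_left)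
  have hK1 : (1 : ℝ) ≤ K := by linarith [hA.K2]
  have hK0 : (0 : ℝ) ≤ K := by linarith
  have hA1 : (1 : ℝ) ≤ #A := by
    exact_mod_cast Finset.card_pos.2 ⟨1, hA.one⟩
  have hA2 : (#A : ℝ) ≤ (#A : ℝ) ^ 2 := by nlinarith
  set N := cin A m {z | Commute y z} with hN
  by_cases ht : tr y = 2 ∨ tr y = -2
  · obtain ⟨v, hv, hv'⟩ := comm_unip h1 h2 ht
    have h3 := hmono (unip v) hv'
    have h4 := unip_bound hA v hv m
    have h5 : (N : ℝ) ^ 2 ≤ 2 * (K ^ (2 * m + 2) * #A) := by
      have h6 : (N : ℝ) ^ 2 ≤ 2 * #(A ^ (2 * m + 2)) := by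
        exact_mod_cast (Nat.pow_le_pow_left h3 2).trans h4
      refine h6.trans ?_
      have h7 := hA.pow (m := 2 * m + 2) (by omega)
      linarith
    have h6 : (N : ℝ) ^ 3 ≤ (N : ℝ) ^ 4 := by
      have : N ^ 3 ≤ N ^ 4 := by
        rcases Nat.eq_zero_or_pos N with h0 | h0
        · rw [h0]; norm_num
        · exact Nat.pow_le_pow_right h0 (by norm_num)
      exact_mod_cast this
    have h7 : (N : ℝ) ^ 4 ≤ (2 * (K ^ (2 * m + 2) * #A)) ^ 2 := by
      calc (N : ℝ) ^ 4 = ((N : ℝ) ^ 2) ^ 2 := by ring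
        _ ≤ _ := pow_le_pow_left₀ (by positivity) h5 2
    have h8 : (2 * (K ^ (2 * m + 2) * (#A : ℝ))) ^ 2 = 4 * K ^ (4 * m + 4) * (#A : ℝ) ^ 2 := by
      have : K ^ (4 * m + 4) = (K ^ (2 * m + 2)) ^ 2 := by rw [← pow_mul]; ring_nf
      rw [this]; ring
    have h9 : 4 * K ^ (4 * m + 4) ≤ K ^ (4 * m + 41) := by
      have h10 : (4 : ℝ) ≤ K ^ 37 := by
        calc (4 : ℝ) ≤ 2 ^ 37 := by norm_num
          _ ≤ K ^ 37 := pow_le_pow_left₀ (by norm_num) hA.K2 37
      calc 4 * K ^ (4 * m + 4) ≤ K ^ 37 * K ^ (4 * m + 4) := by gcongr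
        _ = K ^ (4 * m + 41) := by rw [← pow_add]; ring_nf
    calc (N : ℝ) ^ 3 ≤ (N : ℝ) ^ 4 := h6
      _ ≤ 4 * K ^ (4 * m + 4) * (#A : ℝ) ^ 2 := by rw [← h8]; exact h7
      _ ≤ _ := by gcongr
  · push Not at ht
    obtain ⟨P, hP⟩ := exists_diag y ht.1 ht.2
    have h3 := hmono (tor P) (fun z hz => comm_tor P hP h1 h2 hz)
    have h4 := torus_bound hp hA P m
    have h6 : (N : ℝ) ^ 3 ≤ 512 * #(A ^ (3 * m + 32)) := by
      have h5 : N ^ 3 ≤ 512 * #(A ^ (3 * m + 32)) := (Nat.pow_le_pow_left h3 3).trans h4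
      calc (N : ℝ) ^ 3 = ((N ^ 3 : ℕ) : ℝ) := by rw [Nat.cast_pow]
        _ ≤ ((512 * #(A ^ (3 * m + 32)) : ℕ) : ℝ) := Nat.cast_le.2 h5
        _ = _ := by rw [Nat.cast_mul, Nat.cast_ofNat]
    have h7 := hA.pow (m := 3 * m + 32) (by omega)
    have h9 : 512 * K ^ (3 * m + 32) ≤ K ^ (4 * m + 41) := by
      have h10 : (512 : ℝ) ≤ K ^ 9 := by
        calc (512 : ℝ) = 2 ^ 9 := by norm_num
          _ ≤ K ^ 9 := pow_le_pow_left₀ (by norm_num) hA.K2 9
      calc 512 * K ^ (3 * m + 32) ≤ K ^ 9 * K ^ (3 * m + 32) := by gcongr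
        _ = K ^ (3 * m + 41) := by rw [← pow_add]; ring_nf
        _ ≤ K ^ (4 * m + 41) := pow_le_pow_right₀ hK1 (by omega)
    calc (N : ℝ) ^ 3 ≤ 512 * #(A ^ (3 * m + 32)) := h6
      _ ≤ 512 * (K ^ (3 * m + 32) * #A) := by linarith
      _ = 512 * K ^ (3 * m + 32) * #A := by ring
      _ ≤ K ^ (4 * m + 41) * (#A : ℝ) ^ 2 :=
        mul_le_mul h9 hA2 (Nat.cast_nonneg _) (pow_nonneg hK0 _)

/-- A centraliser has at most `2 p` elements. PROOF: an element commuting with the noncentral `y` is `α + β y` as a matrix (`α, β ∈ ZMod p`: the commutant of a nonscalar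
`2 × 2` matrix), with `1 = det = α² + α β tr y + β²`: for every `β` at most two `α`. -/
theorem card_comm (y : SL2 p) (h1 : y ≠ 1) (h2 : y ≠ -1) :
    {z : SL2 p | Commute y z}.ncard ≤ 2 * p := by
  classical
  have hfin : ({z : SL2 p | Commute y z}).Finite := Set.toFinite _
  rw [Set.ncard_eq_toFinset_card _ hfin]
  have hmem : ∀ z ∈ hfin.toFinset, Commute y z := fun z hz => by
    rwa [Set.Finite.mem_toFinset] at hz
  by_cases hb : y 0 1 = 0
  · by_cases hc : y 1 0 = 0
    · have had : y 0 0 - y 1 1 ≠ 0 := by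
        intro h
        have hd := P6c_det y
        rw [hb, zero_mul, sub_zero, ← sub_eq_zero.1 h] at hd
        have h3 : (y 0 0 - 1) * (y 0 0 + 1) = 0 := by linear_combination hd
        rcases mul_eq_zero.1 h3 with h4 | h4
        · apply h1
          have h5 : y 0 0 = 1 := by linear_combination h4
          have h6 : y 1 1 = 1 := by rw [← sub_eq_zero.1 h]; exact h5
          exact P6c_ext (by simp [h5]) (by simp [hb]) (by simp [hc]) (by simp [h6])
        · apply h2
          have h5 : y 0 0 = -1 := by linear_combination h4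
          have h6 : y 1 1 = -1 := by rw [← sub_eq_zero.1 h]; exact h5
          exact P6c_ext (by simp [h5]) (by simp [hb]) (by simp [hc]) (by simp [h6])
      have hz01 : ∀ z ∈ hfin.toFinset, z 0 1 = 0 := by
        intro z hz
        have := (P6c_comm (hmem z hz)).2.1
        rw [hb] at this
        have h3 : (y 0 0 - y 1 1) * z 0 1 = 0 := by linear_combination this
        exact (mul_eq_zero.1 h3).resolve_left had
      have hz10 : ∀ z ∈ hfin.toFinset, z 1 0 = 0 := by
        intro z hz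
        have := (P6c_comm (hmem z hz)).2.2
        rw [hc] at this
        have h3 : (y 0 0 - y 1 1) * z 1 0 = 0 := by linear_combination -this
        exact (mul_eq_zero.1 h3).resolve_left had
      refine P6c_aux _ (fun z => z 0 0) (fun z => z 0 0) ?_ ?_
      · intro z hz w hw e _
        have dz := P6c_det z
        have dw := P6c_det w
        rw [hz01 z hz] at dz
        rw [hz01 w hw] at dw
        have e' : z 0 0 = w 0 0 := e
        have hne : z 0 0 ≠ 0 := fun h0 => by rw [h0] at dz; simp at dz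
        refine P6c_ext e' (by rw [hz01 z hz, hz01 w hw]) (by rw [hz10 z hz, hz10 w hw]) ?_
        apply mul_left_cancel₀ hne
        rw [← e'] at dw
        linear_combination dz - dw
      · intro c
        refine ⟨0, -c ^ 2, fun z _ e => ?_⟩
        have e' : z 0 0 = c := e
        show z 0 0 ^ 2 + 0 * z 0 0 + -c ^ 2 = 0
        rw [e']; ring
    · refine P6c_aux _ (fun z => z 1 0) (fun z => z 1 1) ?_ ?_
      · intro z hz w hw e e2
        have e' : z 1 0 = w 1 0 := e
        have e2' : z 1 1 = w 1 1 := e2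
        obtain ⟨a1, a2, a3⟩ := P6c_comm (hmem z hz)
        obtain ⟨b1, b2, b3⟩ := P6c_comm (hmem w hw)
        refine P6c_ext ?_ ?_ e' e2'
        · apply mul_left_cancel₀ hc
          rw [← e', ← e2'] at b3
          linear_combination a3 - b3
        · apply mul_right_cancel₀ hc
          rw [← e'] at b1
          linear_combination b1 - a1
      · intro c
        refine ⟨c * (y 0 0 - y 1 1) / y 1 0, -(c ^ 2 * y 0 1 / y 1 0) - 1, fun z hz e => ?_⟩
        have e' : z 1 0 = c := e
        obtain ⟨a1, a2, a3⟩ := P6c_comm (hmem z hz)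
        have dz := P6c_det z
        rw [e'] at a1 a3 dz
        have f1 : z 0 0 = z 1 1 + c * (y 0 0 - y 1 1) / y 1 0 := by
          field_simp
          linear_combination a3
        have f2 : z 0 1 = c * y 0 1 / y 1 0 := by
          field_simp
          linear_combination -a1
        rw [f1, f2] at dz
        show z 1 1 ^ 2 + c * (y 0 0 - y 1 1) / y 1 0 * z 1 1 + (-(c ^ 2 * y 0 1 / y 1 0) - 1) = 0
        linear_combination dz
  · refine P6c_aux _ (fun z => z 0 1) (fun z => z 0 0) ?_ ?_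
    · intro z hz w hw e e2
      have e' : z 0 1 = w 0 1 := e
      have e2' : z 0 0 = w 0 0 := e2
      obtain ⟨a1, a2, a3⟩ := P6c_comm (hmem z hz)
      obtain ⟨b1, b2, b3⟩ := P6c_comm (hmem w hw)
      refine P6c_ext e2' e' ?_ ?_
      · apply mul_left_cancel₀ hb
        rw [← e'] at b1
        linear_combination a1 - b1
      · apply mul_left_cancel₀ hb
        rw [← e', ← e2'] at b2
        linear_combination a2 - b2
    · intro c
      refine ⟨c * (y 1 1 - y 0 0) / y 0 1, -(c ^ 2 * y 1 0 / y 0 1) - 1, fun z hz e => ?_⟩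
      have e' : z 0 1 = c := e
      obtain ⟨a1, a2, a3⟩ := P6c_comm (hmem z hz)
      have dz := P6c_det z
      rw [e'] at a1 a2 dz
      have f1 : z 1 1 = z 0 0 + c * (y 1 1 - y 0 0) / y 0 1 := by
        field_simp
        linear_combination a2
      have f2 : z 1 0 = c * y 1 0 / y 0 1 := by
        field_simp
        linear_combination a1
      rw [f1, f2] at dz
      show z 0 0 ^ 2 + c * (y 1 1 - y 0 0) / y 0 1 * z 0 0 + (-(c ^ 2 * y 1 0 / y 0 1) - 1) = 0
      linear_combination dz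

end Pool.Agent.Lib.MP_3bb35d_al.UE
end

section

end

section

/-!
# The bound for the elements of given trace
-/

set_option autoImplicit false

open scoped Pointwise
open Finset

namespace Pool.Agent.Lib.MP_3bb35d_al.UE

variable {p : ℕ} [Fact p.Prime]

private theorem P8a_cin (A : Finset (SL2 p)) (m : ℕ) (S : Set (SL2 p)) [DecidablePred (· ∈ S)] :
    cin A m S = #{x ∈ A ^ m | x ∈ S} := by
  rw [cin, ← Set.ncard_coe_finset]
  congr 1
  ext x
  rw [Set.mem_inter_iff, Finset.mem_coe, Finset.mem_coe, Finset.mem_filter]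

private theorem P8a_mem8 {A : Finset (SL2 p)} {K : ℝ} (hA : Apx p A K) {b c : SL2 p}
    (hb : b ∈ A ^ 4) (hc : c ∈ A ^ 4) : b * c⁻¹ ∈ A ^ 8 := by
  have h8 : A ^ 8 = A ^ 4 * A ^ 4 := by rw [← pow_add]
  rw [h8]
  have hc' : c⁻¹ ∈ A ^ 4 := by
    have h1 : (A ^ 4)⁻¹ = A ^ 4 := by rw [← inv_pow, hA.inv]
    rw [← h1]
    exact Finset.inv_mem_inv hc
  exact Finset.mul_mem_mul hb hc'

/-- Counting triples. PROOF: let `B = A ^ 4 ∩ trs τ`. Consider the triples `(b₁, b₂, b₃) ∈ B³`, `y = b₁ b₂⁻¹`, `z = b₁ b₃⁻¹`, both in `A ^ 8`.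
(1) `y = ±1`: `b₂ = ± b₁`, at most `2 #B²` triples. (2) `y ≠ ±1` and `y, z` commute: for given `(b₁, b₂)` at most `c := cin A 8 {z | Commute y z}` elements `z` and so `b₃ = z⁻¹ b₁`; (3)
`y ≠ ±1`, `CE y z`: for given `(b₁, b₂)` at most `cin A 8 (bor v₁) + cin A 8 (bor v₂)` (`exists_lines`). (4) otherwise: the map `(b₁, b₂, b₃) ↦ (y, z) ∈ A ^ 8 × A ^ 8` has fibres with at most two
elements (`card_three`: `b₁` is a solution of `tr b = tr (y⁻¹ b) = tr (z⁻¹ b) = τ`, and it determines `b₂, b₃`). `M` is a common upper bound of the three numbers of (2) and (3). -/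
theorem triple_count {A : Finset (SL2 p)} {K : ℝ} (hA : Apx p A K) (τ : ZMod p) (M : ℕ)
    (hM1 : ∀ y : SL2 p, y ≠ 1 → y ≠ -1 → cin A 8 {z | Commute y z} ≤ M)
    (hM2 : ∀ v : Fin 2 → ZMod p, v ≠ 0 → cin A 8 (bor v) ≤ M) :
    cin A 4 (trs τ) ^ 3 ≤ 2 * #(A ^ 8) ^ 2 + 2 * cin A 4 (trs τ) ^ 2 +
      3 * M * cin A 4 (trs τ) ^ 2 := by
  classical
  rw [P8a_cin]
  set B : Finset (SL2 p) := {x ∈ A ^ 4 | x ∈ trs τ} with hB
  have hB4 : ∀ x ∈ B, x ∈ A ^ 4 := fun x hx => (Finset.mem_filter.mp hx).1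
  have hBt : ∀ x ∈ B, tr x = τ := fun x hx => (Finset.mem_filter.mp hx).2
  set T : Finset (SL2 p × SL2 p × SL2 p) := B ×ˢ B ×ˢ B with hT
  have hTc : #T = #B ^ 3 := by
    rw [hT, Finset.card_product, Finset.card_product]; ring
  -- the four classes
  set T0 := {t ∈ T | t.2.1 = t.1} with hT0
  set T1 := {t ∈ T | t.2.1 = -t.1} with hT1
  set T2 := {t ∈ T | t.2.1 ≠ t.1 ∧ t.2.1 ≠ -t.1 ∧ Commute (t.1 * t.2.1⁻¹) (t.1 * t.2.2⁻¹)} with hT2
  set T3 := {t ∈ T | t.2.1 ≠ t.1 ∧ t.2.1 ≠ -t.1 ∧ CE (t.1 * t.2.1⁻¹) (t.1 * t.2.2⁻¹)} with hT3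
  set T4 := {t ∈ T | ¬ Commute (t.1 * t.2.1⁻¹) (t.1 * t.2.2⁻¹) ∧
    ¬ CE (t.1 * t.2.1⁻¹) (t.1 * t.2.2⁻¹)} with hT4
  have hcov : T ⊆ T0 ∪ (T1 ∪ (T2 ∪ (T3 ∪ T4))) := by
    intro t ht
    simp only [hT0, hT1, hT2, hT3, hT4, Finset.mem_union, Finset.mem_filter, ht, true_and]
    by_cases a0 : t.2.1 = t.1
    · exact Or.inl a0
    · by_cases a1 : t.2.1 = -t.1
      · exact Or.inr (Or.inl a1)
      · by_cases a2 : Commute (t.1 * t.2.1⁻¹) (t.1 * t.2.2⁻¹)
        · exact Or.inr (Or.inr (Or.inl ⟨a0, a1, a2⟩))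
        · by_cases a3 : CE (t.1 * t.2.1⁻¹) (t.1 * t.2.2⁻¹)
          · exact Or.inr (Or.inr (Or.inr (Or.inl ⟨a0, a1, a3⟩)))
          · exact Or.inr (Or.inr (Or.inr (Or.inr ⟨a2, a3⟩)))
  have hmem : ∀ t ∈ T, t.1 ∈ B ∧ t.2.1 ∈ B ∧ t.2.2 ∈ B := by
    intro t ht
    rw [hT, Finset.mem_product, Finset.mem_product] at ht
    exact ht
  have hc0 : #T0 ≤ #B ^ 2 := by
    have e : #B ^ 2 = #(B ×ˢ B) := by rw [Finset.card_product]; ring
    rw [e]
    refine Finset.card_le_card_of_injOn (fun t => (t.1, t.2.2)) ?_ ?_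
    · intro t ht
      have ht' := hmem t (Finset.mem_filter.mp ht).1
      exact Finset.mem_coe.mpr (Finset.mem_product.mpr ⟨ht'.1, ht'.2.2⟩)
    · intro t ht t' ht' e
      have h1 := (Finset.mem_filter.mp ht).2
      have h2 := (Finset.mem_filter.mp ht').2
      simp only [Prod.mk.injEq] at e
      refine Prod.ext e.1 (Prod.ext ?_ e.2)
      rw [h1, h2, e.1]
  have hc1 : #T1 ≤ #B ^ 2 := by
    have e : #B ^ 2 = #(B ×ˢ B) := by rw [Finset.card_product]; ring
    rw [e]
    refine Finset.card_le_card_of_injOn (fun t => (t.1, t.2.2)) ?_ ?_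
    · intro t ht
      have ht' := hmem t (Finset.mem_filter.mp ht).1
      exact Finset.mem_coe.mpr (Finset.mem_product.mpr ⟨ht'.1, ht'.2.2⟩)
    · intro t ht t' ht' e
      have h1 := (Finset.mem_filter.mp ht).2
      have h2 := (Finset.mem_filter.mp ht').2
      simp only [Prod.mk.injEq] at e
      refine Prod.ext e.1 (Prod.ext ?_ e.2)
      rw [h1, h2, e.1]
  have hy1 : ∀ b c : SL2 p, c ≠ b → b * c⁻¹ ≠ 1 := by
    intro b c h e
    exact h (mul_inv_eq_one.mp e).symm
  have hy2 : ∀ b c : SL2 p, c ≠ -b → b * c⁻¹ ≠ -1 := by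
    intro b c h e
    apply h
    have : b = -1 * c := by rw [← e, inv_mul_cancel_right]
    rw [this]
    simp
  have hc2 : #T2 ≤ M * #B ^ 2 := by
    have e : #B ^ 2 = #(B ×ˢ B) := by rw [Finset.card_product]; ring
    rw [e]
    refine Finset.card_le_mul_card_image_of_maps_to (f := fun t => (t.1, t.2.1)) ?_ M ?_
    · intro t ht
      have ht' := hmem t (Finset.mem_filter.mp ht).1
      exact Finset.mem_product.mpr ⟨ht'.1, ht'.2.1⟩
    · rintro ⟨b, c⟩ hbc
      by_cases hne : c ≠ b ∧ c ≠ -b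
      · refine le_trans ?_ (hM1 (b * c⁻¹) (hy1 b c hne.1) (hy2 b c hne.2))
        rw [P8a_cin]
        refine Finset.card_le_card_of_injOn (fun t => t.1 * t.2.2⁻¹) ?_ ?_
        · intro t ht
          have h1 := Finset.mem_filter.mp ht
          have h2 := Finset.mem_filter.mp h1.1
          have h3 := hmem t h2.1
          have h4 := h1.2
          simp only [Prod.mk.injEq] at h4
          refine Finset.mem_coe.mpr (Finset.mem_filter.mpr
            ⟨P8a_mem8 hA (hB4 _ h3.1) (hB4 _ h3.2.2), ?_⟩)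
          have h5 := h2.2.2.2
          change Commute (b * c⁻¹) (t.1 * t.2.2⁻¹)
          rw [← h4.1, ← h4.2]
          exact h5
        · intro t ht t' ht' e
          have h4 := (Finset.mem_filter.mp ht).2
          have h4' := (Finset.mem_filter.mp ht').2
          simp only [Prod.mk.injEq] at h4 h4'
          have e1 : t.1 = t'.1 := h4.1.trans h4'.1.symm
          have e2 : t.2.1 = t'.2.1 := h4.2.trans h4'.2.symm
          refine Prod.ext e1 (Prod.ext e2 ?_)
          simp only at e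
          rw [e1] at e
          exact inv_injective (mul_left_cancel e)
      · rw [Finset.card_eq_zero.mpr]
        · exact Nat.zero_le _
        · rw [Finset.eq_empty_iff_forall_notMem]
          intro t ht
          have h1 := Finset.mem_filter.mp ht
          have h2 := Finset.mem_filter.mp h1.1
          have h4 := h1.2
          simp only [Prod.mk.injEq] at h4
          apply hne
          rw [← h4.1, ← h4.2]
          exact ⟨h2.2.1, h2.2.2.1⟩
  have hc3 : #T3 ≤ (2 * M) * #B ^ 2 := by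
    have e : #B ^ 2 = #(B ×ˢ B) := by rw [Finset.card_product]; ring
    rw [e]
    refine Finset.card_le_mul_card_image_of_maps_to (f := fun t => (t.1, t.2.1)) ?_ (2 * M) ?_
    · intro t ht
      have ht' := hmem t (Finset.mem_filter.mp ht).1
      exact Finset.mem_product.mpr ⟨ht'.1, ht'.2.1⟩
    · rintro ⟨b, c⟩ hbc
      by_cases hne : c ≠ b ∧ c ≠ -b
      · obtain ⟨v₁, v₂, hv1, hv2, hv⟩ := exists_lines (b * c⁻¹) (hy1 b c hne.1) (hy2 b c hne.2)
        have hle : #({x ∈ A ^ 8 | x ∈ bor v₁} ∪ {x ∈ A ^ 8 | x ∈ bor v₂}) ≤ 2 * M := by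
          refine (Finset.card_union_le _ _).trans ?_
          have a1 := hM2 v₁ hv1
          have a2 := hM2 v₂ hv2
          rw [P8a_cin] at a1 a2
          omega
        refine le_trans ?_ hle
        refine Finset.card_le_card_of_injOn (fun t => t.1 * t.2.2⁻¹) ?_ ?_
        · intro t ht
          have h1 := Finset.mem_filter.mp ht
          have h2 := Finset.mem_filter.mp h1.1
          have h3 := hmem t h2.1
          have h4 := h1.2
          simp only [Prod.mk.injEq] at h4
          have h5 := h2.2.2.2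
          have h6 : CE (b * c⁻¹) (t.1 * t.2.2⁻¹) := by
            rw [← h4.1, ← h4.2]
            exact h5
          have h7 := P8a_mem8 hA (hB4 _ h3.1) (hB4 _ h3.2.2)
          refine Finset.mem_coe.mpr (Finset.mem_union.mpr ?_)
          rcases hv _ h6 with h8 | h8
          · exact Or.inl (Finset.mem_filter.mpr ⟨h7, h8⟩)
          · exact Or.inr (Finset.mem_filter.mpr ⟨h7, h8⟩)
        · intro t ht t' ht' e
          have h4 := (Finset.mem_filter.mp ht).2
          have h4' := (Finset.mem_filter.mp ht').2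
          simp only [Prod.mk.injEq] at h4 h4'
          have e1 : t.1 = t'.1 := h4.1.trans h4'.1.symm
          have e2 : t.2.1 = t'.2.1 := h4.2.trans h4'.2.symm
          refine Prod.ext e1 (Prod.ext e2 ?_)
          simp only at e
          rw [e1] at e
          exact inv_injective (mul_left_cancel e)
      · rw [Finset.card_eq_zero.mpr]
        · exact Nat.zero_le _
        · rw [Finset.eq_empty_iff_forall_notMem]
          intro t ht
          have h1 := Finset.mem_filter.mp ht
          have h2 := Finset.mem_filter.mp h1.1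
          have h4 := h1.2
          simp only [Prod.mk.injEq] at h4
          apply hne
          rw [← h4.1, ← h4.2]
          exact ⟨h2.2.1, h2.2.2.1⟩
  have hc4 : #T4 ≤ 2 * #(A ^ 8) ^ 2 := by
    have e : #(A ^ 8) ^ 2 = #((A ^ 8) ×ˢ (A ^ 8)) := by rw [Finset.card_product]; ring
    rw [e]
    refine Finset.card_le_mul_card_image_of_maps_to
      (f := fun t => (t.1 * t.2.1⁻¹, t.1 * t.2.2⁻¹)) ?_ 2 ?_
    · intro t ht
      have h3 := hmem t (Finset.mem_filter.mp ht).1
      exact Finset.mem_product.mpr ⟨P8a_mem8 hA (hB4 _ h3.1) (hB4 _ h3.2.1),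
        P8a_mem8 hA (hB4 _ h3.1) (hB4 _ h3.2.2)⟩
    · rintro ⟨y, z⟩ hyz
      by_cases hne : ¬ Commute y z ∧ ¬ CE y z
      · refine le_trans ?_ (card_three hne.1 hne.2 τ)
        have hfin : {b : SL2 p | tr b = τ ∧ tr (y⁻¹ * b) = τ ∧ tr (z⁻¹ * b) = τ}.Finite :=
          Set.toFinite _
        rw [← Set.ncard_coe_finset]
        refine Set.ncard_le_ncard_of_injOn (fun t => t.1) ?_ ?_ hfin
        · intro t ht
          have h1 := Finset.mem_filter.mp (Finset.mem_coe.mp ht)
          have h2 := Finset.mem_filter.mp h1.1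
          have h3 := hmem t h2.1
          have h4 := h1.2
          simp only [Prod.mk.injEq] at h4
          refine ⟨hBt _ h3.1, ?_, ?_⟩
          · have : y⁻¹ * t.1 = t.2.1 := by rw [← h4.1]; simp
            rw [this]; exact hBt _ h3.2.1
          · have : z⁻¹ * t.1 = t.2.2 := by rw [← h4.2]; simp
            rw [this]; exact hBt _ h3.2.2
        · intro t ht t' ht' e
          have h4 := (Finset.mem_filter.mp (Finset.mem_coe.mp ht)).2
          have h4' := (Finset.mem_filter.mp (Finset.mem_coe.mp ht')).2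
          simp only [Prod.mk.injEq] at h4 h4'
          simp only at e
          have e1 : t.1 * t.2.1⁻¹ = t'.1 * t'.2.1⁻¹ := h4.1.trans h4'.1.symm
          have e2 : t.1 * t.2.2⁻¹ = t'.1 * t'.2.2⁻¹ := h4.2.trans h4'.2.symm
          rw [e] at e1 e2
          exact Prod.ext e (Prod.ext (inv_injective (mul_left_cancel e1))
            (inv_injective (mul_left_cancel e2)))
      · rw [Finset.card_eq_zero.mpr]
        · exact Nat.zero_le _
        · rw [Finset.eq_empty_iff_forall_notMem]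
          intro t ht
          have h1 := Finset.mem_filter.mp ht
          have h2 := Finset.mem_filter.mp h1.1
          have h4 := h1.2
          simp only [Prod.mk.injEq] at h4
          apply hne
          rw [← h4.1, ← h4.2]
          exact h2.2
  have htot := (Finset.card_le_card hcov).trans
    ((Finset.card_union_le _ _).trans (Nat.add_le_add_left ((Finset.card_union_le _ _).trans
      (Nat.add_le_add_left ((Finset.card_union_le _ _).trans
        (Nat.add_le_add_left (Finset.card_union_le _ _) _)) _)) _))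
  rw [hTc] at htot
  calc #B ^ 3 ≤ #T0 + (#T1 + (#T2 + (#T3 + #T4))) := htot
    _ ≤ #B ^ 2 + (#B ^ 2 + (M * #B ^ 2 + ((2 * M) * #B ^ 2 + 2 * #(A ^ 8) ^ 2))) := by
        gcongr
    _ = 2 * #(A ^ 8) ^ 2 + 2 * #B ^ 2 + 3 * M * #B ^ 2 := by ring

end Pool.Agent.Lib.MP_3bb35d_al.UE
end
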