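import Pool.Agent.Lib.MP_3bb35d_al.Mg.G009

section

/-!
# The bound for the elements of given trace
-/

set_option autoImplicit false

open scoped Pointwise
open Finset

namespace Pool.Agent.Lib.MP_3bb35d_al.UE

variable {p : ℕ} [Fact p.Prime]

private theorem P8b_root (N : ℝ) (hN : 1 ≤ N) :
    ∃ M : ℕ, 1 ≤ M ∧ (M : ℝ) ^ 3 ≤ N ∧ ∀ c : ℕ, (c : ℝ) ^ 3 ≤ N → c ≤ M := by
  have h0 : 0 ≤ N := by linarith
  have h3 : (N ^ ((1 : ℝ) / 3)) ^ 3 = N := by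
    rw [← Real.rpow_natCast, ← Real.rpow_mul h0]
    norm_num
  have hr : 0 ≤ N ^ ((1 : ℝ) / 3) := Real.rpow_nonneg h0 _
  have key : ∀ c : ℕ, (c : ℝ) ^ 3 ≤ N → c ≤ ⌊N ^ ((1 : ℝ) / 3)⌋₊ := by
    intro c hc
    apply Nat.le_floor
    rw [← h3] at hc
    exact le_of_pow_le_pow_left₀ (by norm_num) hr hc
  refine ⟨⌊N ^ ((1 : ℝ) / 3)⌋₊, key 1 (by simpa using hN), ?_, key⟩
  calc ((⌊N ^ ((1 : ℝ) / 3)⌋₊ : ℕ) : ℝ) ^ 3 ≤ (N ^ ((1 : ℝ) / 3)) ^ 3 :=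
        pow_le_pow_left₀ (Nat.cast_nonneg _) (Nat.floor_le hr) 3
    _ = N := h3

/-- PROOF. Take `M = ` the maximum of the numbers (over all `y`, `v`; finite types; at least `1` as `1 ∈ bor v`): `M³ ≤ K ^ 73 #A²` (`comm_bound`, `bor_bound` with `m = 8`). With `b = cin A 4 (trs τ)`: `b³ ≤ 2 #(A^8)² + 5 M b²`, so
`b³ ≤ 4 #(A ^ 8)² ≤ 4 K ^ 16 #A²` or `b ≤ 10 M`, `b³ ≤ 1000 M³ ≤ 1000 K ^ 73 #A² ≤ K ^ 83 #A²`. -/
theorem trace_bound (hp : 11 ≤ p) {A : Finset (SL2 p)} {K : ℝ} (hA : Apx p A K) (τ : ZMod p) :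
    (cin A 4 (trs τ) : ℝ) ^ 3 ≤ K ^ 90 * (#A : ℝ) ^ 2 := by
  have hK2 := hA.K2
  have hK1 : (1 : ℝ) ≤ K := by linarith
  have hA1 : (1 : ℝ) ≤ #A := by
    exact_mod_cast Finset.card_pos.mpr ⟨1, hA.one⟩
  have hA2 : (1 : ℝ) ≤ (#A : ℝ) ^ 2 := one_le_pow₀ hA1
  have hN : (1 : ℝ) ≤ K ^ 73 * (#A : ℝ) ^ 2 :=
    one_le_mul_of_one_le_of_one_le (one_le_pow₀ hK1) hA2
  obtain ⟨M, hM1, hM3, hM⟩ := P8b_root _ hN
  have h1 := triple_count hA τ M
    (fun y hy1 hy2 => hM _ (by simpa using comm_bound hp hA y hy1 hy2 8 (by norm_num)))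
    (fun v hv => hM _ (by
      refine (bor_bound hp hA v hv 8 (by norm_num)).trans ?_
      exact mul_le_mul_of_nonneg_right (pow_le_pow_right₀ hK1 (by norm_num)) (by positivity)))
  set b := cin A 4 (trs τ) with hb
  have h2 : (b : ℝ) ^ 3 ≤ 2 * (#(A ^ 8) : ℝ) ^ 2 + 2 * (b : ℝ) ^ 2 + 3 * M * (b : ℝ) ^ 2 := by
    exact_mod_cast h1
  have hM1' : (1 : ℝ) ≤ M := by exact_mod_cast hM1
  have hb0 : (0 : ℝ) ≤ b := Nat.cast_nonneg _
  have hb2 : (0 : ℝ) ≤ (b : ℝ) ^ 2 := by positivity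
  rcases le_or_gt (b : ℝ) (10 * M) with h | h
  · calc (b : ℝ) ^ 3 ≤ (10 * M) ^ 3 := pow_le_pow_left₀ hb0 h 3
      _ = 1000 * (M : ℝ) ^ 3 := by ring
      _ ≤ K ^ 10 * (K ^ 73 * (#A : ℝ) ^ 2) := by
          apply mul_le_mul _ hM3 (by positivity) (by positivity)
          calc (1000 : ℝ) ≤ 2 ^ 10 := by norm_num
            _ ≤ K ^ 10 := pow_le_pow_left₀ (by norm_num) hK2 10
      _ = K ^ 83 * (#A : ℝ) ^ 2 := by ring
      _ ≤ K ^ 90 * (#A : ℝ) ^ 2 :=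
          mul_le_mul_of_nonneg_right (pow_le_pow_right₀ hK1 (by norm_num)) (by positivity)
  · have h3 : (b : ℝ) ^ 3 ≤ 4 * (#(A ^ 8) : ℝ) ^ 2 := by
      have h4 : 10 * (M : ℝ) * (b : ℝ) ^ 2 ≤ b * (b : ℝ) ^ 2 :=
        mul_le_mul_of_nonneg_right h.le hb2
      have h5 : (b : ℝ) ^ 2 ≤ M * (b : ℝ) ^ 2 := le_mul_of_one_le_left hb2 hM1'
      have h6 : (b : ℝ) * (b : ℝ) ^ 2 = (b : ℝ) ^ 3 := by ring
      nlinarith
    have h7 : (#(A ^ 8) : ℝ) ≤ K ^ 8 * #A := hA.pow (by norm_num)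
    calc (b : ℝ) ^ 3 ≤ 4 * (#(A ^ 8) : ℝ) ^ 2 := h3
      _ ≤ 4 * (K ^ 8 * #A) ^ 2 := by
          apply mul_le_mul_of_nonneg_left _ (by norm_num)
          exact pow_le_pow_left₀ (Nat.cast_nonneg _) h7 2
      _ = 4 * K ^ 16 * (#A : ℝ) ^ 2 := by ring
      _ ≤ K ^ 2 * K ^ 16 * (#A : ℝ) ^ 2 := by
          apply mul_le_mul_of_nonneg_right _ (by positivity)
          apply mul_le_mul_of_nonneg_right _ (by positivity)
          nlinarith
      _ = K ^ 18 * (#A : ℝ) ^ 2 := by ring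
      _ ≤ K ^ 90 * (#A : ℝ) ^ 2 :=
          mul_le_mul_of_nonneg_right (pow_le_pow_right₀ hK1 (by norm_num)) (by positivity)

end Pool.Agent.Lib.MP_3bb35d_al.UE
end

section

end

section

/-!
# Involved tori
-/

set_option autoImplicit false

open scoped Pointwise
open Finset

namespace Pool.Agent.Lib.MP_3bb35d_al.UE

variable {p : ℕ} [Fact p.Prime]

private theorem P9a_tr_conj (a t : SL2 p) : tr (a * t * a⁻¹) = tr t := by
  have h1 : ∀ g : SL2 p, tr g = Matrix.trace (g : Matrix (Fin 2) (Fin 2) (ZMod p)) := by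
    intro g
    rw [Matrix.trace_fin_two]
    rfl
  have h2 : a⁻¹ * (a * t) = t := by group
  rw [h1, h1, Matrix.SpecialLinearGroup.coe_mul, Matrix.trace_mul_comm,
    ← Matrix.SpecialLinearGroup.coe_mul, h2]

/-- Orbit and stabiliser. PROOF: let `t ∈ A ^ 2 ∩ tor P`, `t ≠ ±1`. The map `A → A ^ 4 ∩ trs (tr t)`, `a ↦ a t a⁻¹`: two elements `a, a'` with the same image satisfy `a'⁻¹ a ∈ C(t) ⊆ tor P` (`comm_tor`) and `a'⁻¹ a ∈ A ^ 2`,
so the fibres have at most `cin A 2 (tor P)` elements. -/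
theorem orbit_count {A : Finset (SL2 p)} {K : ℝ} (hA : Apx p A K) {P : GL (Fin 2) (Kb p)}
    (hP : Inv A P) : ∃ τ : ZMod p, #A ≤ cin A 4 (trs τ) * cin A 2 (tor P) := by
  classical
  obtain ⟨t, ht, htP, ht1, ht2⟩ := hP
  refine ⟨tr t, ?_⟩
  set f : SL2 p → SL2 p := fun a => a * t * a⁻¹ with hf
  have hinv : ∀ a ∈ A, a⁻¹ ∈ A := by
    intro a ha
    rw [← hA.inv]
    exact Finset.inv_mem_inv ha
  have hfib : ∀ b ∈ A.image f, #{a ∈ A | f a = b} ≤ cin A 2 (tor P) := by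
    intro b hb
    obtain ⟨a₀, ha₀, rfl⟩ := Finset.mem_image.1 hb
    unfold cin
    have h1 : #{a ∈ A | f a = f a₀} = #(({a ∈ A | f a = f a₀}).image (fun a => a₀⁻¹ * a)) := by
      rw [Finset.card_image_of_injective]
      intro x y hxy
      exact mul_left_cancel hxy
    rw [h1, ← Set.ncard_coe_finset]
    refine Set.ncard_le_ncard ?_ ((Finset.finite_toSet _).inter_of_left _)
    intro x hx
    obtain ⟨a, ha, rfl⟩ := Finset.mem_image.1 (Finset.mem_coe.1 hx)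
    obtain ⟨haA, hfa⟩ := Finset.mem_filter.1 ha
    have h2 : a₀⁻¹ * a ∈ A ^ 2 := by
      rw [pow_two]
      exact Finset.mul_mem_mul (hinv a₀ ha₀) haA
    refine ⟨Finset.mem_coe.2 h2, comm_tor P htP ht1 ht2 ?_⟩
    have h3 : a * t * a⁻¹ = a₀ * t * a₀⁻¹ := hfa
    show t * (a₀⁻¹ * a) = a₀⁻¹ * a * t
    have h4 : a * t = a₀ * t * a₀⁻¹ * a := by
      rw [← h3]
      group
    calc t * (a₀⁻¹ * a) = a₀⁻¹ * (a₀ * t * a₀⁻¹ * a) := by group
      _ = a₀⁻¹ * (a * t) := by rw [h4]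
      _ = a₀⁻¹ * a * t := by group
  have himg : #(A.image f) ≤ cin A 4 (trs (tr t)) := by
    unfold cin
    rw [← Set.ncard_coe_finset]
    refine Set.ncard_le_ncard ?_ ((Finset.finite_toSet _).inter_of_left _)
    intro x hx
    obtain ⟨a, ha, rfl⟩ := Finset.mem_image.1 (Finset.mem_coe.1 hx)
    refine ⟨Finset.mem_coe.2 ?_, P9a_tr_conj a t⟩
    have h2 : A ^ 4 = A * A ^ 2 * A := by
      rw [← pow_succ', ← pow_succ]
    rw [h2]
    exact Finset.mul_mem_mul (Finset.mul_mem_mul ha ht) (hinv a ha)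
  calc #A ≤ cin A 2 (tor P) * #(A.image f) := Finset.card_le_mul_card_image A _ hfib
    _ ≤ cin A 2 (tor P) * cin A 4 (trs (tr t)) := Nat.mul_le_mul_left _ himg
    _ = _ := mul_comm _ _

/-- PROOF: cube of `orbit_count` and `trace_bound`; divide by `#A²` (`A` is not empty). -/
theorem involved_lower (hp : 11 ≤ p) {A : Finset (SL2 p)} {K : ℝ} (hA : Apx p A K)
    {P : GL (Fin 2) (Kb p)} (hP : Inv A P) :
    (#A : ℝ) ≤ K ^ 90 * (cin A 2 (tor P) : ℝ) ^ 3 := by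
  obtain ⟨τ, hτ⟩ := orbit_count hA hP
  have h1 := trace_bound hp hA τ
  have hA0 : (0 : ℝ) < #A := by
    have : 0 < #A := Finset.card_pos.2 ⟨1, hA.one⟩
    exact_mod_cast this
  have hτ' : (#A : ℝ) ≤ (cin A 4 (trs τ) : ℝ) * (cin A 2 (tor P) : ℝ) := by exact_mod_cast hτ
  have h2 : (#A : ℝ) ^ 3 ≤ (K ^ 90 * (cin A 2 (tor P) : ℝ) ^ 3) * (#A : ℝ) ^ 2 := by
    calc (#A : ℝ) ^ 3 ≤ ((cin A 4 (trs τ) : ℝ) * (cin A 2 (tor P) : ℝ)) ^ 3 :=
          pow_le_pow_left₀ hA0.le hτ' 3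
      _ = (cin A 4 (trs τ) : ℝ) ^ 3 * (cin A 2 (tor P) : ℝ) ^ 3 := mul_pow _ _ _
      _ ≤ (K ^ 90 * (#A : ℝ) ^ 2) * (cin A 2 (tor P) : ℝ) ^ 3 :=
          mul_le_mul_of_nonneg_right h1 (by positivity)
      _ = _ := by ring
  have h3 : (#A : ℝ) ^ 3 = (#A : ℝ) * (#A : ℝ) ^ 2 := by ring
  rw [h3] at h2
  exact le_of_mul_le_mul_right h2 (by positivity)

end Pool.Agent.Lib.MP_3bb35d_al.UE
end

section

/-!
# Involved tori
-/

set_option autoImplicit false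

open scoped Pointwise
open Finset

namespace Pool.Agent.Lib.MP_3bb35d_al.UE

variable {p : ℕ} [Fact p.Prime]

private theorem P9b_inv_mem {A : Finset (SL2 p)} {K : ℝ} (hA : Apx p A K) {a : SL2 p}
    (ha : a ∈ A) : a⁻¹ ∈ A := by
  rw [← hA.inv]
  exact Finset.inv_mem_inv ha

private theorem P9b_one (P : GL (Fin 2) (Kb p)) : gP (1 : SL2 p) P = P := by
  unfold gP
  rw [map_one, map_one, one_mul]

/-- PROOF. Let `a ∈ A`, `T' = tor (gP a P) = a (tor P) a⁻¹`. `A ^ 4 ∩ T' ⊇ a (A ^ 2 ∩ tor P) a⁻¹`, so `M := cin A 4 T' ≥ cin A 2 (tor P)`, `K ^ 90 M³ ≥ #A > K ^ 108`, so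
`M > K ^ 6 ≥ 2 K ^ 5`. The map `A × (A ^ 4 ∩ T') → A ^ 5`, `(x, t) ↦ x t`: `#A * M > 2 K ^ 5 #A ≥ 2 #(A ^ 5)`, so some fibre has three elements `(xᵢ, tᵢ)` (pigeonhole), the `tᵢ` are different (`xᵢ = y tᵢ⁻¹`), and
`t₂ t₁⁻¹ = x₂⁻¹ x₁`, `t₃ t₁⁻¹ = x₃⁻¹ x₁` are different elements `≠ 1` of `A ^ 2 ∩ T'`; at least one of them is not `-1`. -/
theorem involved_conj (hp : 11 ≤ p) {A : Finset (SL2 p)} {K : ℝ} (hA : Apx p A K)
    (hK : K ^ 108 < (#A : ℝ)) {P : GL (Fin 2) (Kb p)} (hP : Inv A P) {a : SL2 p} (ha : a ∈ A) :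
    Inv A (gP a P) := by
  classical
  have hK2 : (2 : ℝ) ≤ K := hA.K2
  have hK0 : (0 : ℝ) < K := by linarith
  set S : Finset (SL2 p) := (A ^ 2).filter (fun t => t ∈ tor P) with hS
  set S' : Finset (SL2 p) := (A ^ 4).filter (fun t => t ∈ tor (gP a P)) with hS'
  have hcin : cin A 2 (tor P) = #S := by
    unfold cin
    rw [← Set.ncard_coe_finset]
    congr 1
    ext x
    rw [hS, Set.mem_inter_iff, Finset.mem_coe, Finset.mem_coe, Finset.mem_filter]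
  have hSS : #S ≤ #S' := by
    refine Finset.card_le_card_of_injOn (fun t => a * t * a⁻¹) ?_ ?_
    · intro t ht
      rw [Finset.mem_coe, hS, Finset.mem_filter] at ht
      rw [Finset.mem_coe, hS', Finset.mem_filter]
      refine ⟨?_, ?_⟩
      · have h1 : A ^ 4 = A * A ^ 2 * A := by
          rw [show (4 : ℕ) = 1 + 2 + 1 from rfl, pow_add, pow_add, pow_one]
        rw [h1]
        exact Finset.mul_mem_mul (Finset.mul_mem_mul ha ht.1) (P9b_inv_mem hA ha)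
      · rw [mem_tor_gP]
        have h1 : a⁻¹ * (a * t * a⁻¹) * a = t := by group
        rw [h1]
        exact ht.2
    · intro t _ t' _ h
      simpa using h
  have hlow := involved_lower hp hA hP
  rw [hcin] at hlow
  have h6 : K ^ 6 < (#S' : ℝ) := by
    have h1 : K ^ 90 * K ^ 18 < K ^ 90 * (#S : ℝ) ^ 3 := by
      rw [← pow_add]
      exact hK.trans_le hlow
    have h2 : (K ^ 6) ^ 3 < (#S : ℝ) ^ 3 := by
      have := lt_of_mul_lt_mul_left h1 (by positivity)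
      rw [← pow_mul]
      exact this
    have h3 : K ^ 6 < (#S : ℝ) := lt_of_pow_lt_pow_left₀ 3 (by positivity) h2
    exact h3.trans_le (by exact_mod_cast hSS)
  have h5 : 2 * K ^ 5 ≤ K ^ 6 := by
    have : K ^ 6 = K * K ^ 5 := by ring
    rw [this]
    exact mul_le_mul_of_nonneg_right hK2 (by positivity)
  have hA5 : (#(A ^ 5) : ℝ) ≤ K ^ 5 * #A := hA.pow (by norm_num)
  have hApos : (0 : ℝ) < #A := by
    have : 0 < #A := Finset.card_pos.2 ⟨1, hA.one⟩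
    exact_mod_cast this
  have hpig : #(A ^ 5) * 2 < #(A ×ˢ S') := by
    rw [Finset.card_product]
    have h1 : (#(A ^ 5) : ℝ) * 2 < (#A : ℝ) * #S' := by
      calc (#(A ^ 5) : ℝ) * 2 ≤ (K ^ 5 * #A) * 2 := by
            exact mul_le_mul_of_nonneg_right hA5 (by norm_num)
        _ = #A * (2 * K ^ 5) := by ring
        _ < #A * #S' := by
            refine mul_lt_mul_of_pos_left ?_ hApos
            exact h5.trans_lt h6
    exact_mod_cast h1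
  obtain ⟨y, _, hy⟩ := Finset.exists_lt_card_fiber_of_mul_lt_card_of_maps_to
    (f := fun z : SL2 p × SL2 p => z.1 * z.2) (s := A ×ˢ S') (t := A ^ 5) (n := 2) (by
      intro z hz
      rw [Finset.mem_product, hS', Finset.mem_filter] at hz
      have h1 : A ^ 5 = A * A ^ 4 := by
        rw [show (5 : ℕ) = 1 + 4 from rfl, pow_add, pow_one]
      rw [h1]
      exact Finset.mul_mem_mul hz.1 hz.2.1) hpig
  rw [Finset.two_lt_card] at hy
  obtain ⟨z₁, hz₁, z₂, hz₂, z₃, hz₃, h12, h13, h23⟩ := hy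
  rw [Finset.mem_filter, Finset.mem_product, hS', Finset.mem_filter] at hz₁ hz₂ hz₃
  have key : ∀ z z' : SL2 p × SL2 p,
      ((z.1 ∈ A ∧ z.2 ∈ A ^ 4 ∧ z.2 ∈ tor (gP a P)) ∧ z.1 * z.2 = y) →
      ((z'.1 ∈ A ∧ z'.2 ∈ A ^ 4 ∧ z'.2 ∈ tor (gP a P)) ∧ z'.1 * z'.2 = y) → z ≠ z' →
      z'.2 * z.2⁻¹ ∈ A ^ 2 ∧ z'.2 * z.2⁻¹ ∈ tor (gP a P) ∧ z'.2 ≠ z.2 := by
    intro z z' hz hz' hne
    refine ⟨?_, ?_, ?_⟩
    · have h1 : z'.2 * z.2⁻¹ = z'.1⁻¹ * z.1 := by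
        have e1 : z.2⁻¹ = y⁻¹ * z.1 := by rw [← hz.2]; group
        have e2 : z'.2 = z'.1⁻¹ * y := by rw [← hz'.2]; group
        rw [e1, e2]; group
      rw [h1, pow_two]
      exact Finset.mul_mem_mul (P9b_inv_mem hA hz'.1.1) hz.1.1
    · exact tor_mul _ hz'.1.2.2 (tor_inv _ hz.1.2.2)
    · intro h
      apply hne
      have h1 : z.1 = z'.1 := by
        have h2 : z.1 * z.2 = z'.1 * z.2 := by
          rw [hz.2, ← h, hz'.2]
        exact mul_right_cancel h2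
      exact Prod.ext h1 h.symm
  obtain ⟨k1, k2, k3⟩ := key z₁ z₂ hz₁ hz₂ h12
  obtain ⟨l1, l2, l3⟩ := key z₁ z₃ hz₁ hz₃ h13
  obtain ⟨_, _, m3⟩ := key z₂ z₃ hz₂ hz₃ h23
  by_cases hm : z₂.2 * z₁.2⁻¹ = -1
  · refine ⟨z₃.2 * z₁.2⁻¹, l1, l2, ?_, ?_⟩
    · intro h
      exact l3 (mul_inv_eq_one.1 h)
    · intro h
      apply m3
      exact mul_right_cancel (h.trans hm.symm)
  · refine ⟨z₂.2 * z₁.2⁻¹, k1, k2, ?_, hm⟩
    intro h
    exact k3 (mul_inv_eq_one.1 h)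

/-- PROOF: the set of the `g` with `Inv A P → Inv A (gP g P)` for all `P` is closed under products (`gP_mul`) and contains `A = A⁻¹`. -/
theorem involved_all (hp : 11 ≤ p) {A : Finset (SL2 p)} {K : ℝ} (hA : Apx p A K)
    (hK : K ^ 108 < (#A : ℝ)) {P : GL (Fin 2) (Kb p)} (hP : Inv A P) (g : SL2 p) :
    Inv A (gP g P) := by
  have hg : g ∈ Subgroup.closure (A : Set (SL2 p)) := by
    rw [hA.gen]; exact Subgroup.mem_top g
  have key : (∀ Q : GL (Fin 2) (Kb p), Inv A Q → Inv A (gP g Q)) ∧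
      (∀ Q : GL (Fin 2) (Kb p), Inv A Q → Inv A (gP g⁻¹ Q)) := by
    induction hg using Subgroup.closure_induction with
    | mem x hx =>
      exact ⟨fun Q hQ => involved_conj hp hA hK hQ hx,
        fun Q hQ => involved_conj hp hA hK hQ (P9b_inv_mem hA hx)⟩
    | one =>
      rw [inv_one]
      exact ⟨fun Q hQ => by rw [P9b_one]; exact hQ, fun Q hQ => by rw [P9b_one]; exact hQ⟩
    | mul x y _ _ hx hy =>
      refine ⟨fun Q hQ => ?_, fun Q hQ => ?_⟩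
      · rw [gP_mul]; exact hx.1 _ (hy.1 _ hQ)
      · rw [mul_inv_rev, gP_mul]; exact hy.2 _ (hx.2 _ hQ)
    | inv x _ hx =>
      rw [inv_inv]
      exact ⟨hx.2, hx.1⟩
  exact key.1 P hP

end Pool.Agent.Lib.MP_3bb35d_al.UE
end
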