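import Pool.Agent.Lib.MP_3bb35d_al.Mg.G011

section

/-!
# Involved tori
-/

set_option autoImplicit false

open scoped Pointwise
open Finset

namespace Pool.Agent.Lib.MP_3bb35d_al.UE

variable {p : ℕ} [Fact p.Prime]

private theorem P9c_inv (b : SL2 p) : b⁻¹ 0 0 = b 1 1 ∧ b⁻¹ 0 1 = - b 0 1 ∧
    b⁻¹ 1 0 = - b 1 0 ∧ b⁻¹ 1 1 = b 0 0 := by
  rw [Matrix.SpecialLinearGroup.SL2_inv_expl]
  simp

private theorem P9c_det (a : SL2 p) : a 0 0 * a 1 1 - a 0 1 * a 1 0 = 1 := by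
  have h := a.det_coe
  rw [Matrix.det_fin_two] at h
  exact h

private theorem P9c_key (h2 : (2 : ZMod p) ≠ 0) (a b : SL2 p) (e e' : ZMod p) (he : e ^ 2 = 1)
    (he' : e' ^ 2 = 1) (ha : tr a = 2 * e) (hb : tr b = 2 * e')
    (hab : tr (a * b) = 2 ∨ tr (a * b) = -2) (hab' : tr (a * b⁻¹) = 2 ∨ tr (a * b⁻¹) = -2) :
    (a 0 0 - e) * (b 0 0 - b 1 1) + a 0 1 * b 1 0 + a 1 0 * b 0 1 = 0 := by
  obtain ⟨i1, i2, i3, i4⟩ := P9c_inv b
  set τ := (a 0 0 - e) * (b 0 0 - b 1 1) + a 0 1 * b 1 0 + a 1 0 * b 0 1 with hτ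
  have ha' : a 1 1 = 2 * e - a 0 0 := by
    unfold tr at ha; linear_combination ha
  have hb' : b 1 1 = 2 * e' - b 0 0 := by
    unfold tr at hb; linear_combination hb
  have t1 : tr (a * b) = τ + 2 * (e * e') := by
    unfold tr
    rw [hτ]
    simp only [Matrix.SpecialLinearGroup.coe_mul, Matrix.mul_apply, Fin.sum_univ_two]
    rw [ha', hb']
    ring
  have t2 : tr (a * b⁻¹) = -τ + 2 * (e * e') := by
    unfold tr
    rw [hτ]
    simp only [Matrix.SpecialLinearGroup.coe_mul, Matrix.mul_apply, Fin.sum_univ_two]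
    rw [i1, i2, i3, i4, ha', hb']
    ring
  have hee : (e * e') ^ 2 = 1 := by rw [mul_pow, he, he', one_mul]
  have hee0 : e * e' ≠ 0 := by
    intro h
    rw [h] at hee
    simp at hee
  have h4 : (2 : ZMod p) * 2 * (e * e') ≠ 0 := mul_ne_zero (mul_ne_zero h2 h2) hee0
  rw [t1] at hab
  rw [t2] at hab'
  rcases hab with h | h <;> rcases hab' with h' | h'
  · have : 2 * τ = 0 := by linear_combination h - h'
    exact (mul_eq_zero.mp this).resolve_left h2
  · exact absurd (by linear_combination h + h') h4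
  · exact absurd (by linear_combination h + h') h4
  · have : 2 * τ = 0 := by linear_combination h - h'
    exact (mul_eq_zero.mp this).resolve_left h2

/-- There is an involved torus. PROOF. Otherwise all elements of `A ^ 2` have trace `±2` (`exists_diag`; an element of trace `≠ ±2` is not `±1`). `A` contains an element `a ≠ ±1`
(`{±1}` is a proper subgroup). `tr a = 2 ε`; there is `v ≠ 0` with `a v = ε v`. Let `b ∈ A`, `tr b = 2 ε'`. `a b, a b⁻¹ ∈ A ^ 2`, so their traces are `±2`, and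
`tr (a b) + tr (a b⁻¹) = tr a tr b = 4 ε ε'`; as `p ≥ 11` both are `2 ε ε'`. In a basis `v, w` with `a w = ε w + ε v` (`w` with `ε (a - ε) w = v`, it exists as the image of `a - ε` is the line of `v`), `b = !![b₁, b₂; b₃, b₄]`:
`tr (a b) = ε (b₁ + b₄ + b₃)`, so `b₃ = 0`: `b v = b₁ v`. So `A ⊆ bor v`, a contradiction (`exists_move`). -/
theorem exists_involved (hp : 11 ≤ p) {A : Finset (SL2 p)} {K : ℝ} (hA : Apx p A K) :
    ∃ P : GL (Fin 2) (Kb p), Inv A P := by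
  by_contra hcon
  push Not at hcon
  have h2 : (2 : ZMod p) ≠ 0 := by
    intro h
    have h' : ((2 : ℕ) : ZMod p) = 0 := by exact_mod_cast h
    rw [ZMod.natCast_eq_zero_iff] at h'
    have := Nat.le_of_dvd (by norm_num) h'
    omega
  -- all traces of `A ^ 2` are `2` or `-2`
  have htr : ∀ t ∈ A ^ 2, tr t = 2 ∨ tr t = -2 := by
    intro t ht
    by_contra hne
    push Not at hne
    obtain ⟨P, hP⟩ := exists_diag t hne.1 hne.2
    refine hcon P ⟨t, ht, hP, ?_, ?_⟩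
    · rintro rfl
      apply hne.1
      simp only [tr, Matrix.SpecialLinearGroup.coe_one, Matrix.one_apply_eq]
      norm_num
    · rintro rfl
      apply hne.2
      simp only [tr, Matrix.SpecialLinearGroup.coe_neg, Matrix.SpecialLinearGroup.coe_one,
        Matrix.neg_apply, Matrix.one_apply_eq]
      norm_num
  have hA2 : A ⊆ A ^ 2 := by
    have h := hA.mono (show 1 ≤ 2 by norm_num)
    rwa [pow_one] at h
  have htr' : ∀ t ∈ A ^ 2, ∃ e : ZMod p, e ^ 2 = 1 ∧ tr t = 2 * e := by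
    intro t ht
    rcases htr t ht with h | h
    · exact ⟨1, by ring, by rw [h]; ring⟩
    · exact ⟨-1, by ring, by rw [h]; ring⟩
  -- a noncentral element
  obtain ⟨a, haA, ha⟩ : ∃ a ∈ A, a ∉ bor (p := p) ![1, 0] := exists_move hA _ (by
    intro h
    have := congrFun h 0
    simp at this)
  have ha1 : a ≠ 1 := by
    rintro rfl
    apply ha
    refine ⟨1, ?_⟩
    simp
  have ha2 : a ≠ -1 := by
    rintro rfl
    apply ha
    refine ⟨-1, ?_⟩
    simp
  obtain ⟨e, he, hae⟩ := htr' a (hA2 haA)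
  have hkey : ∀ b ∈ A, (a 0 0 - e) * (b 0 0 - b 1 1) + a 0 1 * b 1 0 + a 1 0 * b 0 1 = 0 := by
    intro b hb
    obtain ⟨e', he', hbe⟩ := htr' b (hA2 hb)
    have hbi : b⁻¹ ∈ A := by
      rw [← hA.inv]
      exact Finset.inv_mem_inv hb
    refine P9c_key h2 a b e e' he he' hae hbe (htr _ ?_) (htr _ ?_)
    · rw [pow_two]; exact Finset.mul_mem_mul haA hb
    · rw [pow_two]; exact Finset.mul_mem_mul haA hbi
  have hd := P9c_det a
  have ha' : a 1 1 = 2 * e - a 0 0 := by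
    unfold tr at hae; linear_combination hae
  have hq : (a 0 0 - e) ^ 2 + a 0 1 * a 1 0 = 0 := by
    rw [ha'] at hd
    linear_combination -hd + he
  by_cases hy : a 0 1 = 0
  · have hx : a 0 0 - e = 0 := by
      rw [hy, zero_mul, add_zero] at hq
      exact pow_eq_zero_iff (two_ne_zero) |>.mp hq
    have hx0 : a 0 0 = e := by linear_combination hx
    have hz : a 1 0 ≠ 0 := by
      intro hz
      have hee : e = 1 ∨ e = -1 := sq_eq_sq_iff_eq_or_eq_neg.mp (by rw [he, one_pow])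
      have h11 : a 1 1 = e := by rw [ha', hx0]; ring
      rcases hee with h | h
      · apply ha1
        ext i j
        fin_cases i <;> fin_cases j <;> simp [hx0, hy, hz, h11, h]
      · apply ha2
        ext i j
        fin_cases i <;> fin_cases j <;> simp [hx0, hy, hz, h11, h]
    obtain ⟨b, hbA, hb⟩ : ∃ b ∈ A, b ∉ bor (p := p) ![0, 1] := exists_move hA _ (by
      intro h
      have := congrFun h 1
      simp at this)
    apply hb
    have hk := hkey b hbA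
    rw [hx, hy, zero_mul, zero_mul, zero_add, zero_add] at hk
    have hb01 : b 0 1 = 0 := (mul_eq_zero.mp hk).resolve_left hz
    refine ⟨b 1 1, ?_⟩
    ext i
    fin_cases i <;> simp [Matrix.mulVec, dotProduct, Fin.sum_univ_two, hb01]
  · obtain ⟨b, hbA, hb⟩ : ∃ b ∈ A, b ∉ bor (p := p) ![a 0 1, -(a 0 0 - e)] := exists_move hA _ (by
      intro h
      have := congrFun h 0
      simp at this
      exact hy this)
    apply hb
    have hk := hkey b hbA
    refine ⟨b 0 0 - b 0 1 * (a 0 0 - e) / a 0 1, ?_⟩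
    ext i
    fin_cases i
    · simp only [Matrix.mulVec, dotProduct, Fin.sum_univ_two, Pi.smul_apply, smul_eq_mul,
        Fin.zero_eta, Matrix.cons_val_zero, Matrix.cons_val_one]
      field_simp
      ring
    · simp only [Matrix.mulVec, dotProduct, Fin.sum_univ_two, Pi.smul_apply, smul_eq_mul,
        Fin.mk_one, Matrix.cons_val_zero, Matrix.cons_val_one]
      field_simp
      linear_combination (a 0 1) * hk - (b 0 1) * hq

end Pool.Agent.Lib.MP_3bb35d_al.UE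
end

section

end

section

/-!
# The product theorem
-/

set_option autoImplicit false

open scoped Pointwise
open Finset

namespace Pool.Agent.Lib.MP_3bb35d_al.UE

variable {p : ℕ} [Fact p.Prime]

private theorem P10a_fibre (P : GL (Fin 2) (Kb p)) (x : SL2 p) (h1 : x ≠ 1) (h2 : x ≠ -1)
    (c : Kb p) :
    {g : SL2 p | g⁻¹ * x * g ∈ tor P ∧ ent P (g⁻¹ * x * g) 0 0 = c}.ncard ≤ 2 * p := by
  rcases Set.eq_empty_or_nonempty
    {g : SL2 p | g⁻¹ * x * g ∈ tor P ∧ ent P (g⁻¹ * x * g) 0 0 = c} with h | ⟨g₀, hg₀⟩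
  · rw [h, Set.ncard_empty]
    exact Nat.zero_le _
  · refine le_trans ?_ (card_comm x h1 h2)
    refine Set.ncard_le_ncard_of_injOn (fun g => g * g₀⁻¹) ?_ ?_ (Set.toFinite _)
    · intro g hg
      have e : g⁻¹ * x * g = g₀⁻¹ * x * g₀ := tor_ext P hg.1 hg₀.1 (hg.2.trans hg₀.2.symm)
      show x * (g * g₀⁻¹) = g * g₀⁻¹ * x
      have e2 : x * g = g * (g₀⁻¹ * x * g₀) := by
        rw [← e]
        group
      calc x * (g * g₀⁻¹) = (x * g) * g₀⁻¹ := by group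
        _ = g * (g₀⁻¹ * x * g₀) * g₀⁻¹ := by rw [e2]
        _ = g * g₀⁻¹ * x := by group
    · intro a _ b _ hab
      exact mul_right_cancel hab

/-- PROOF: for `x ≠ ±1`: if `g⁻¹ x g ∈ tor P` then it has the trace of `x`, and the torus contains at most two elements `y₁, y₂` of given trace (`s + s⁻¹` given, `tor_ext`, `tr_ent`). For each `yᵢ` the set `{g | g⁻¹ x g = yᵢ}` is empty or a
coset of the centraliser of `x`, at most `2 p` elements (`card_comm`). -/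
theorem card_conj_tor (P : GL (Fin 2) (Kb p)) (x : SL2 p) (h1 : x ≠ 1) (h2 : x ≠ -1) :
    {g : SL2 p | x ∈ tor (gP g P)}.ncard ≤ 4 * p := by
  rcases Set.eq_empty_or_nonempty {g : SL2 p | x ∈ tor (gP g P)} with h | ⟨g₁, hg₁⟩
  · rw [h, Set.ncard_empty]
    exact Nat.zero_le _
  · have htr : ∀ g : SL2 p, tr (g⁻¹ * x * g) = tr x := by
      intro g
      have h := Matrix.trace_mul_comm (((g⁻¹ * x : SL2 p)) : Matrix (Fin 2) (Fin 2) (ZMod p))
        (g : Matrix (Fin 2) (Fin 2) (ZMod p))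
      rw [← Matrix.SpecialLinearGroup.coe_mul, ← Matrix.SpecialLinearGroup.coe_mul,
        Matrix.trace_fin_two, Matrix.trace_fin_two] at h
      have h3 : g * (g⁻¹ * x) = x := by group
      rw [h3] at h
      exact h
    have hm : ∀ g : SL2 p, x ∈ tor (gP g P) → g⁻¹ * x * g ∈ tor P := fun g hg =>
      (mem_tor_gP P g x).mp hg
    have hg₁' := hm g₁ hg₁
    have hd : ∀ g : SL2 p, x ∈ tor (gP g P) →
        ent P (g⁻¹ * x * g) 0 0 * ent P (g⁻¹ * x * g) 1 1 = 1 := by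
      intro g hg
      have h3 := det_ent P (g⁻¹ * x * g)
      have h4 := hm g hg
      rw [h4.1, zero_mul, sub_zero] at h3
      exact h3
    have hs : ∀ g : SL2 p, ent P (g⁻¹ * x * g) 0 0 + ent P (g⁻¹ * x * g) 1 1 =
        ent P (g₁⁻¹ * x * g₁) 0 0 + ent P (g₁⁻¹ * x * g₁) 1 1 := by
      intro g
      rw [tr_ent, tr_ent, htr, htr]
    have hsub : {g : SL2 p | x ∈ tor (gP g P)} ⊆
        {g : SL2 p | g⁻¹ * x * g ∈ tor P ∧
          ent P (g⁻¹ * x * g) 0 0 = ent P (g₁⁻¹ * x * g₁) 0 0} ∪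
        {g : SL2 p | g⁻¹ * x * g ∈ tor P ∧
          ent P (g⁻¹ * x * g) 0 0 = ent P (g₁⁻¹ * x * g₁) 1 1} := by
      intro g hg
      have e1 := hd g hg
      have e2 := hd g₁ hg₁
      have e3 := hs g
      have e4 : (ent P (g⁻¹ * x * g) 0 0 - ent P (g₁⁻¹ * x * g₁) 0 0) *
          (ent P (g⁻¹ * x * g) 0 0 - ent P (g₁⁻¹ * x * g₁) 1 1) = 0 := by
        linear_combination e2 - e1 + ent P (g⁻¹ * x * g) 0 0 * e3
      rcases mul_eq_zero.mp e4 with h5 | h5
      · exact Or.inl ⟨hm g hg, sub_eq_zero.mp h5⟩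
      · exact Or.inr ⟨hm g hg, sub_eq_zero.mp h5⟩
    have h6 := P10a_fibre P x h1 h2 (ent P (g₁⁻¹ * x * g₁) 0 0)
    have h7 := P10a_fibre P x h1 h2 (ent P (g₁⁻¹ * x * g₁) 1 1)
    have h8 := (Set.ncard_le_ncard hsub (Set.toFinite _)).trans (Set.ncard_union_le _ _)
    omega

/-- Double counting. PROOF: `∑ g, #{x ∈ A ^ 2 | x ∈ tor (gP g P), x ≠ ±1} ≥ (p³ - p) (M - 2)` (`card_SL2`), and it is at most `#(A ^ 2) * 4 p` by `card_conj_tor`. -/
theorem double_count {A : Finset (SL2 p)} {K : ℝ} (hA : Apx p A K) (P : GL (Fin 2) (Kb p)) (M : ℕ)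
    (hM : ∀ g, M ≤ cin A 2 (tor (gP g P))) :
    (p ^ 3 - p) * (M - 2) ≤ #(A ^ 2) * (4 * p) := by
  classical
  have : Fintype (SL2 p) := Fintype.ofFinite _
  have h1 : ∀ g : SL2 p, M - 2 ≤
      #((A ^ 2).filter fun x => (x ≠ 1 ∧ x ≠ -1) ∧ x ∈ tor (gP g P)) := by
    intro g
    have h2 := hM g
    have h3 : cin A 2 (tor (gP g P)) ≤
        #((A ^ 2).filter fun x => (x ≠ 1 ∧ x ≠ -1) ∧ x ∈ tor (gP g P)) +
          #({1, -1} : Finset (SL2 p)) := by
      unfold cin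
      refine le_trans ?_ (Finset.card_union_le _ _)
      rw [← Set.ncard_coe_finset]
      refine Set.ncard_le_ncard ?_ (Finset.finite_toSet _)
      rintro x ⟨hx1, hx2⟩
      rw [Finset.mem_coe, Finset.mem_union, Finset.mem_filter, Finset.mem_insert,
        Finset.mem_singleton]
      by_cases h4 : x = 1
      · exact Or.inr (Or.inl h4)
      · by_cases h5 : x = -1
        · exact Or.inr (Or.inr h5)
        · exact Or.inl ⟨hx1, ⟨h4, h5⟩, hx2⟩
    have h4 : #({1, -1} : Finset (SL2 p)) ≤ 2 := Finset.card_le_two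
    omega
  have h5 : (p ^ 3 - p) * (M - 2) ≤
      ∑ g : SL2 p, #((A ^ 2).filter fun x => (x ≠ 1 ∧ x ≠ -1) ∧ x ∈ tor (gP g P)) := by
    have h6 := Finset.card_nsmul_le_sum (Finset.univ : Finset (SL2 p))
      (fun g => #((A ^ 2).filter fun x => (x ≠ 1 ∧ x ≠ -1) ∧ x ∈ tor (gP g P))) (M - 2)
      (fun g _ => h1 g)
    rw [Finset.card_univ, ← Nat.card_eq_fintype_card, card_SL2, smul_eq_mul] at h6
    exact h6
  refine h5.trans ?_
  have h7 : ∑ g : SL2 p, #((A ^ 2).filter fun x => (x ≠ 1 ∧ x ≠ -1) ∧ x ∈ tor (gP g P)) =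
      ∑ x ∈ A ^ 2, #((Finset.univ : Finset (SL2 p)).filter
        fun g => (x ≠ 1 ∧ x ≠ -1) ∧ x ∈ tor (gP g P)) := by
    simp only [Finset.card_filter]
    exact Finset.sum_comm
  rw [h7]
  refine (Finset.sum_le_card_nsmul (A ^ 2) _ (4 * p) ?_).trans (le_of_eq (smul_eq_mul _ _))
  intro x _
  by_cases h8 : x ≠ 1 ∧ x ≠ -1
  · refine le_trans (le_of_eq ?_) (card_conj_tor P x h8.1 h8.2)
    rw [← Set.ncard_coe_finset]
    congr 1
    ext g
    simp [h8]
  · rw [Finset.filter_false_of_mem]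
    · exact Nat.zero_le _
    · intro g _ h9
      exact h8 h9.1

end Pool.Agent.Lib.MP_3bb35d_al.UE
end

section

/-!
# The product theorem
-/

set_option autoImplicit false

open scoped Pointwise
open Finset

namespace Pool.Agent.Lib.MP_3bb35d_al.UE

variable {p : ℕ} [Fact p.Prime]

/-- The product theorem. PROOF. If `p < 11` then `p ^ 3 ≤ 1000 ≤ K ^ 200 * #A`. Let `p ≥ 11` and `K ^ 108 < #A`. All `gP g P` are involved (`exists_involved`, `involved_all`). Let `M` be the minimum of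
the numbers `cin A 2 (tor (gP g P))`: `#A ≤ K ^ 90 M³` (`involved_lower`), so `M > 4` and `M - 2 ≥ M / 2`. `double_count`: `(p³ - p) M / 2 ≤ 4 p K² #A` (`Apx.pow`), `p² M ≤ 16 K² #A` (as `p³ - p ≥ p³ / 2`), so `p⁶ M³ ≤ 2 ^ 12 K ^ 6 #A³`,
`p⁶ #A ≤ K ^ 90 p⁶ M³ ≤ 2 ^ 12 K ^ 96 #A³ ≤ K ^ 108 #A³`, `p³ ≤ K ^ 54 #A`. -/
theorem product_theorem {A : Finset (SL2 p)} {K : ℝ} (hA : Apx p A K) :
    (#A : ℝ) ≤ K ^ 200 ∨ (p : ℝ) ^ 3 ≤ K ^ 200 * #A := by
  have hK2 : (2 : ℝ) ≤ K := hA.K2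
  have hK1 : (1 : ℝ) ≤ K := by linarith
  have hK0 : (0 : ℝ) < K := by linarith
  have hA1 : (1 : ℝ) ≤ (#A : ℝ) := by
    exact_mod_cast Finset.card_pos.mpr ⟨1, hA.one⟩
  have hA0 : (0 : ℝ) < (#A : ℝ) := by linarith
  rcases Nat.lt_or_ge p 11 with hp | hp
  · right
    have h1 : (p : ℝ) ≤ 10 := by exact_mod_cast Nat.lt_succ_iff.mp hp
    have h2 : (p : ℝ) ^ 3 ≤ 10 ^ 3 := pow_le_pow_left₀ (Nat.cast_nonneg p) h1 3
    have h3 : (2 : ℝ) ^ 10 ≤ K ^ 10 := pow_le_pow_left₀ (by norm_num) hK2 10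
    have h4 : K ^ 10 ≤ K ^ 200 := pow_le_pow_right₀ hK1 (by norm_num)
    have h5 : (1 : ℝ) ≤ K ^ 200 := one_le_pow₀ hK1
    have h6 : K ^ 200 * 1 ≤ K ^ 200 * #A := mul_le_mul_of_nonneg_left hA1 (by linarith)
    have h7 : (10 : ℝ) ^ 3 ≤ 2 ^ 10 := by norm_num
    linarith
  · rcases le_or_gt (#A : ℝ) (K ^ 108) with hs | hs
    · left
      exact hs.trans (pow_le_pow_right₀ hK1 (by norm_num))
    · right
      obtain ⟨P, hP⟩ := exists_involved hp hA
      have hall : ∀ g : SL2 p, Inv A (gP g P) := fun g => involved_all hp hA hs hP g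
      have : Finite (SL2 p) := inferInstance
      obtain ⟨g0, hg0⟩ := Finite.exists_min (fun g : SL2 p => cin A 2 (tor (gP g P)))
      obtain ⟨M, hMdef⟩ : ∃ M, M = cin A 2 (tor (gP g0 P)) := ⟨_, rfl⟩
      have hlow : (#A : ℝ) ≤ K ^ 90 * (M : ℝ) ^ 3 := by
        rw [hMdef]
        exact involved_lower hp hA (hall g0)
      have hM : ∀ g, M ≤ cin A 2 (tor (gP g P)) := by
        intro g
        rw [hMdef]
        exact hg0 g
      have hdc := double_count hA P M hM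
      have hK90 : (0 : ℝ) < K ^ 90 := pow_pos hK0 90
      -- M > 4
      have hM3 : K ^ 18 < (M : ℝ) ^ 3 := by
        have e : K ^ 108 = K ^ 90 * K ^ 18 := by rw [← pow_add]
        rw [e] at hs
        exact lt_of_mul_lt_mul_left (hs.trans_le hlow) hK90.le
      have hM4 : (4 : ℝ) < (M : ℝ) := by
        by_contra hcon
        have hcon' : (M : ℝ) ≤ 4 := not_lt.mp hcon
        have h1 : (M : ℝ) ^ 3 ≤ 4 ^ 3 := pow_le_pow_left₀ (Nat.cast_nonneg M) hcon' 3
        have h2 : (2 : ℝ) ^ 18 ≤ K ^ 18 := pow_le_pow_left₀ (by norm_num) hK2 18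
        have h3 : (4 : ℝ) ^ 3 ≤ 2 ^ 18 := by norm_num
        linarith
      have hM4' : 4 < M := by exact_mod_cast hM4
      have hM0 : (0 : ℝ) < (M : ℝ) := by linarith
      have hpR : (11 : ℝ) ≤ (p : ℝ) := by exact_mod_cast hp
      have hp0 : (0 : ℝ) < (p : ℝ) := by linarith
      -- real double count
      have hple : p ≤ p ^ 3 := Nat.le_self_pow (by norm_num) p
      have hdcR : ((p : ℝ) ^ 3 - p) * ((M : ℝ) - 2) ≤ (#(A ^ 2) : ℝ) * (4 * p) := by
        have h := hdc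
        have h' : (((p ^ 3 - p) * (M - 2) : ℕ) : ℝ) ≤ ((#(A ^ 2) * (4 * p) : ℕ) : ℝ) := by
          exact_mod_cast h
        rw [Nat.cast_mul, Nat.cast_sub hple, Nat.cast_sub (by omega)] at h'
        push_cast at h'
        exact h'
      have hA2 : (#(A ^ 2) : ℝ) ≤ K ^ 2 * #A := hA.pow (by norm_num)
      have h1 : (p : ℝ) ^ 3 / 2 ≤ (p : ℝ) ^ 3 - p := by nlinarith [mul_pos hp0 hp0, mul_pos (mul_pos hp0 hp0) hp0]
      have h2 : (M : ℝ) / 2 ≤ (M : ℝ) - 2 := by linarith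
      have h3 : (p : ℝ) ^ 3 / 2 * ((M : ℝ) / 2) ≤ ((p : ℝ) ^ 3 - p) * ((M : ℝ) - 2) :=
        mul_le_mul h1 h2 (by linarith) (by nlinarith [pow_pos hp0 3])
      have h4 : (p : ℝ) ^ 3 / 2 * ((M : ℝ) / 2) ≤ K ^ 2 * #A * (4 * p) :=
        h3.trans (hdcR.trans (mul_le_mul_of_nonneg_right hA2 (by linarith)))
      have h5 : (p : ℝ) ^ 2 * M ≤ 16 * (K ^ 2 * #A) := by
        have h6 : (p : ℝ) * ((p : ℝ) ^ 2 * M) ≤ (p : ℝ) * (16 * (K ^ 2 * #A)) := by
          nlinarith [h4]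
        exact le_of_mul_le_mul_left h6 hp0
      have h7 : ((p : ℝ) ^ 2 * M) ^ 3 ≤ (16 * (K ^ 2 * #A)) ^ 3 :=
        pow_le_pow_left₀ (by positivity) h5 3
      have h8 : ((p : ℝ) ^ 3) ^ 2 * (M : ℝ) ^ 3 ≤ 2 ^ 12 * (K ^ 6 * (#A : ℝ) ^ 3) := by
        have e1 : ((p : ℝ) ^ 3) ^ 2 * (M : ℝ) ^ 3 = ((p : ℝ) ^ 2 * M) ^ 3 := by ring
        have e2 : (2 : ℝ) ^ 12 * (K ^ 6 * (#A : ℝ) ^ 3) = (16 * (K ^ 2 * #A)) ^ 3 := by ring
        rw [e1, e2]
        exact h7
      have h9 : (2 : ℝ) ^ 12 ≤ K ^ 12 := pow_le_pow_left₀ (by norm_num) hK2 12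
      have h10 : ((p : ℝ) ^ 3) ^ 2 * #A ≤ K ^ 108 * (#A : ℝ) ^ 3 := by
        have a1 : ((p : ℝ) ^ 3) ^ 2 * #A ≤ ((p : ℝ) ^ 3) ^ 2 * (K ^ 90 * (M : ℝ) ^ 3) :=
          mul_le_mul_of_nonneg_left hlow (by positivity)
        have a2 : ((p : ℝ) ^ 3) ^ 2 * (K ^ 90 * (M : ℝ) ^ 3)
            = K ^ 90 * (((p : ℝ) ^ 3) ^ 2 * (M : ℝ) ^ 3) := by
          rw [mul_left_comm]
        have a3 : K ^ 90 * (((p : ℝ) ^ 3) ^ 2 * (M : ℝ) ^ 3)
            ≤ K ^ 90 * (2 ^ 12 * (K ^ 6 * (#A : ℝ) ^ 3)) :=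
          mul_le_mul_of_nonneg_left h8 hK90.le
        have a4 : (2 : ℝ) ^ 12 * (K ^ 6 * (#A : ℝ) ^ 3) ≤ K ^ 12 * (K ^ 6 * (#A : ℝ) ^ 3) :=
          mul_le_mul_of_nonneg_right h9 (by positivity)
        have a5 : K ^ 90 * (K ^ 12 * (K ^ 6 * (#A : ℝ) ^ 3)) = K ^ 108 * (#A : ℝ) ^ 3 := by
          rw [← mul_assoc, ← mul_assoc, ← pow_add, ← pow_add]
        have a6 := mul_le_mul_of_nonneg_left a4 hK90.le
        rw [a5] at a6
        linarith
      have h11 : ((p : ℝ) ^ 3) ^ 2 ≤ (K ^ 54 * #A) ^ 2 := by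
        have e : K ^ 108 * (#A : ℝ) ^ 3 = (K ^ 54 * #A) ^ 2 * #A := by
          have : K ^ 108 = (K ^ 54) ^ 2 := by rw [← pow_mul]
          rw [this]
          ring
        rw [e] at h10
        exact le_of_mul_le_mul_right h10 hA0
      have h12 : (p : ℝ) ^ 3 ≤ K ^ 54 * #A :=
        le_of_sq_le_sq h11 (by positivity)
      refine h12.trans (mul_le_mul_of_nonneg_right (pow_le_pow_right₀ hK1 (by norm_num)) hA0.le)

end Pool.Agent.Lib.MP_3bb35d_al.UE
end

section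

end
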