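import Pool.Agent.Lib.MP_3bb35d_al.Mg.G004
import Pool.Agent.Lib.MP_3bb35d_al.Mg.G012
import Pool.Agent.Lib.MP_3bb35d_al.Mg.G007

section

/-!
# One step of the flattening
-/

set_option autoImplicit false

open Finset

namespace Pool.Agent.Lib.MP_3bb35d_al.UE

/-- PROOF: if the second alternative fails for all `j < J` then `s J ≤ K ^ (-2 J)` by induction, so `P * s J ≤ 1 ≤ L`; if it holds for some `j < J` then for `J` by monotonicity (`P ≥ 0`). -/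
theorem iteration (s : ℕ → ℝ) (hs : ∀ j, s (j + 1) ≤ s j) (h0 : s 0 ≤ 1) {K P L : ℝ} (hK : 1 ≤ K)
    (hP : 0 ≤ P) (hL : 1 ≤ L) (h : ∀ j, K ^ 2 * s (j + 1) ≤ s j ∨ P * s j ≤ L) (J : ℕ)
    (hJ : P ≤ K ^ (2 * J)) : P * s J ≤ L := by
  by_cases hex : ∃ j < J, P * s j ≤ L
  · obtain ⟨j, hj, hPj⟩ := hex
    have hmono : s J ≤ s j := antitone_nat_of_succ_le hs hj.le
    exact (mul_le_mul_of_nonneg_left hmono hP).trans hPj
  · push Not at hex
    have hind : ∀ j ≤ J, K ^ (2 * j) * s j ≤ 1 := by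
      intro j
      induction j with
      | zero =>
        intro _
        rw [mul_zero, pow_zero, one_mul]
        exact h0
      | succ j ih =>
        intro hj
        have h1 := ih (by omega)
        have h2 : K ^ 2 * s (j + 1) ≤ s j := by
          rcases h j with h2 | h2
          · exact h2
          · exact absurd h2 (not_le.2 (hex j (by omega)))
        calc K ^ (2 * (j + 1)) * s (j + 1) = K ^ (2 * j) * (K ^ 2 * s (j + 1)) := by ring
          _ ≤ K ^ (2 * j) * s j := mul_le_mul_of_nonneg_left h2 (by positivity)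
          _ ≤ 1 := h1
    rcases le_total 0 (s J) with h1 | h1
    · calc P * s J ≤ K ^ (2 * J) * s J := mul_le_mul_of_nonneg_right hJ h1
        _ ≤ 1 := hind J le_rfl
        _ ≤ L := hL
    · have h2 : P * s J ≤ 0 := mul_nonpos_of_nonneg_of_nonpos hP h1
      linarith

private theorem G1_mass_mono {G : Type*} [Fintype G] {μ : G → ℝ} (hμ : ∀ g, 0 ≤ μ g)
    {S T : Set G} (h : S ⊆ T) : mass μ S ≤ mass μ T := by
  unfold mass
  exact sum_le_sum fun g _ => Set.indicator_le_indicator_of_subset h hμ g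

private theorem G1_mass_inv {G : Type*} [Group G] [Fintype G] {μ : G → ℝ}
    (hμ : ∀ g, μ g⁻¹ = μ g) (H : Subgroup G) (c : G) :
    mass μ {x | x * c ∈ H} = mass μ {x | c⁻¹ * x ∈ H} := by
  unfold mass
  rw [← Equiv.sum_comp (Equiv.inv G)]
  refine sum_congr rfl fun g _ => ?_
  change Set.indicator {x | x * c ∈ H} μ g⁻¹ = _
  by_cases h : c⁻¹ * g ∈ H
  · have h1 : g⁻¹ * c ∈ H := by
      have h2 := H.inv_mem h
      rwa [mul_inv_rev, inv_inv] at h2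
    rw [Set.indicator_of_mem (show g⁻¹ ∈ {x | x * c ∈ H} from h1),
      Set.indicator_of_mem (show g ∈ {x | c⁻¹ * x ∈ H} from h), hμ]
  · have h1 : ¬ g⁻¹ * c ∈ H := by
      intro h2
      have h3 := H.inv_mem h2
      rw [mul_inv_rev, inv_inv] at h3
      exact h h3
    rw [Set.indicator_of_notMem (show g⁻¹ ∉ {x | x * c ∈ H} from h1),
      Set.indicator_of_notMem (show g ∉ {x | c⁻¹ * x ∈ H} from h)]

private theorem G1_point {G : Type*} [Group G] [Fintype G] {μ : G → ℝ} (hμ : ∀ g, 0 ≤ μ g)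
    {c : ℝ} (h : ∀ g, mass μ {x | g * x ∈ (⊥ : Subgroup G)} ≤ c) (g : G) : μ g ≤ c := by
  refine le_trans ?_ (h g⁻¹)
  unfold mass
  have h1 : g ∈ {x | g⁻¹ * x ∈ (⊥ : Subgroup G)} := by
    change g⁻¹ * g ∈ (⊥ : Subgroup G)
    rw [inv_mul_cancel]
    exact Subgroup.one_mem _
  calc μ g = Set.indicator {x | g⁻¹ * x ∈ (⊥ : Subgroup G)} μ g := by
        rw [Set.indicator_of_mem h1]
    _ ≤ _ := single_le_sum (f := fun k => Set.indicator {x | g⁻¹ * x ∈ (⊥ : Subgroup G)} μ k)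
        (fun k _ => Set.indicator_nonneg (fun x _ => hμ x) k) (mem_univ g)

private theorem G1_bot_ne_top (p : ℕ) [Fact p.Prime] : (⊥ : Subgroup (SL2 p)) ≠ ⊤ := by
  intro h
  obtain ⟨u, hu⟩ : ∃ u : SL2 p, u 0 1 = 1 :=
    ⟨⟨!![1, 1; 0, 1], by simp [Matrix.det_fin_two]⟩, rfl⟩
  have h1 : u ∈ (⊥ : Subgroup (SL2 p)) := by
    rw [h]
    exact Subgroup.mem_top _
  rw [Subgroup.mem_bot] at h1
  rw [h1] at hu
  have h3 : (1 : SL2 p) 0 1 = 0 := rfl
  rw [h3] at hu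
  exact zero_ne_one hu

/-- PROOF. Suppose `nsq ν ≤ K² nsq (conv ν ν)`. `flat`: `D`, `c`. `1 ≤ K ^ 5000 * mass ν {x | x * c ∈ D}`. If `D` does not generate let `H` be the subgroup generated, `H ≠ ⊤`: `mass ν {x | x * c ∈ D} ≤ mass ν {x | x * c ∈ H} = mass ν {x | x⁻¹ * c ∈ H}` (symmetry) `= mass ν {x | c⁻¹ * x ∈ H}` (inverse) `≤ c'`, where `c'` is the constant
of the hypothesis, and `K ^ 5000 c' < 1`, a contradiction. So `Apx p D (K ^ 5000)`. `product_theorem`: (i) `#D ≤ (K ^ 5000) ^ 200`: then `1 ≤ K ^ 5000 * (#D * nsq ν) ≤ K ^ 1005000 * nsq ν` and `nsq ν ≤ c'` (`ν g ≤ c'` by the hypothesis for the trivial subgroup, which is not `⊤`, and `∑ ν = 1`), a contradiction.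
(ii) `p ^ 3 ≤ (K ^ 5000) ^ 200 * #D`: `p ^ 3 * nsq ν ≤ K ^ 1000000 * (#D * nsq ν) ≤ K ^ 1005000`. -/
theorem bg_step {p : ℕ} [Fact p.Prime] {ν : SL2 p → ℝ} (hν : SP ν) {K c : ℝ} (hK : 2 ≤ K)
    (hc : K ^ 1005000 * c < 1)
    (hm : ∀ H : Subgroup (SL2 p), H ≠ ⊤ → ∀ g, mass ν {x | g * x ∈ H} ≤ c) :
    K ^ 2 * nsq (conv ν ν) ≤ nsq ν ∨ (p : ℝ) ^ 3 * nsq ν ≤ K ^ 1005000 := by
  classical
  by_cases hcase : K ^ 2 * nsq (conv ν ν) ≤ nsq ν
  · exact Or.inl hcase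
  refine Or.inr ?_
  obtain ⟨D, h1, hinv, htrip, hup, hlow, c₀, hmass⟩ := flat hν hK (not_le.1 hcase).le
  have hK1 : 1 ≤ K := by linarith
  have hK0 : 0 < K := by linarith
  have hns : 0 ≤ nsq ν := sum_nonneg fun g _ => sq_nonneg _
  have hgen : Subgroup.closure (D : Set (SL2 p)) = ⊤ := by
    by_contra hH
    have h2 : mass ν {x | x * c₀ ∈ D} ≤ c := by
      refine le_trans (G1_mass_mono hν.nonneg
        (T := {x | x * c₀ ∈ Subgroup.closure (D : Set (SL2 p))}) ?_) ?_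
      · intro x hx
        exact Subgroup.subset_closure hx
      · rw [G1_mass_inv hν.symm]
        exact hm _ hH _
    have h3 : 1 ≤ K ^ 5000 * c :=
      hmass.trans (mul_le_mul_of_nonneg_left h2 (pow_nonneg hK0.le _))
    have hc0 : 0 ≤ c := by
      by_contra hneg
      have : K ^ 5000 * c ≤ 0 :=
        mul_nonpos_of_nonneg_of_nonpos (pow_nonneg hK0.le _) (not_le.1 hneg).le
      linarith
    have h4 : K ^ 5000 * c ≤ K ^ 1005000 * c :=
      mul_le_mul_of_nonneg_right (pow_le_pow_right₀ hK1 (by norm_num)) hc0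
    linarith
  have hK2 : 2 ≤ K ^ 5000 := by
    calc (2 : ℝ) ≤ K := hK
      _ = K ^ 1 := (pow_one K).symm
      _ ≤ K ^ 5000 := pow_le_pow_right₀ hK1 (by norm_num)
  have hApx : Apx p D (K ^ 5000) := ⟨h1, hinv, hgen, hK2, htrip⟩
  have e1 : (K ^ 5000) ^ 200 = K ^ 1000000 := by rw [← pow_mul]
  have e2 : K ^ 1000000 * K ^ 5000 = K ^ 1005000 := by rw [← pow_add]
  rcases product_theorem hApx with hc1 | hc1
  · exfalso
    rw [e1] at hc1
    have h5 : ∀ g, ν g ≤ c := G1_point hν.nonneg (hm ⊥ (G1_bot_ne_top p))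
    have h6 : nsq ν ≤ c := by
      calc nsq ν = ∑ g, ν g * ν g := sum_congr rfl fun g _ => sq (ν g)
        _ ≤ ∑ g, ν g * c := sum_le_sum fun g _ => mul_le_mul_of_nonneg_left (h5 g) (hν.nonneg g)
        _ = c := by rw [← sum_mul, hν.sum, one_mul]
    have h7 : (1 : ℝ) ≤ K ^ 1005000 * c := by
      calc (1 : ℝ) ≤ K ^ 5000 * (#D * nsq ν) := hlow
        _ ≤ K ^ 5000 * (K ^ 1000000 * c) := by
            refine mul_le_mul_of_nonneg_left ?_ (pow_nonneg hK0.le _)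
            exact mul_le_mul hc1 h6 hns (pow_nonneg hK0.le _)
        _ = K ^ 1005000 * c := by rw [← mul_assoc, mul_comm (K ^ 5000), e2]
    linarith
  · rw [e1] at hc1
    calc (p : ℝ) ^ 3 * nsq ν ≤ (K ^ 1000000 * #D) * nsq ν := mul_le_mul_of_nonneg_right hc1 hns
      _ = K ^ 1000000 * (#D * nsq ν) := by rw [mul_assoc]
      _ ≤ K ^ 1000000 * K ^ 5000 := mul_le_mul_of_nonneg_left hup (pow_nonneg hK0.le _)
      _ = K ^ 1005000 := e2

end Pool.Agent.Lib.MP_3bb35d_al.UE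
end

section

/-!
# The Bourgain-Gamburd theorem from non-concentration
-/

set_option autoImplicit false

open Finset

namespace Pool.Agent.Lib.MP_3bb35d_al.UE

private theorem G2_nsq_nonneg {G : Type*} [Fintype G] [Group G] (f : G → ℝ) : 0 ≤ nsq f :=
  Finset.sum_nonneg fun _ _ => sq_nonneg _

private theorem G2_nsq_le_one {G : Type*} [Fintype G] [Group G] {ν : G → ℝ} (h : SP ν) :
    nsq ν ≤ 1 := by
  have h1 : ∀ g, ν g ≤ 1 := by
    intro g
    rw [← h.sum]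
    exact Finset.single_le_sum (f := ν) (fun i _ => h.nonneg i) (Finset.mem_univ g)
  calc nsq ν = ∑ g, ν g ^ 2 := rfl
    _ ≤ ∑ g, ν g := by
        apply Finset.sum_le_sum
        intro g _
        have h2 := h.nonneg g
        have h3 := h1 g
        nlinarith
    _ = 1 := h.sum

private theorem G2_mass {G : Type*} [Fintype G] [Group G] {ν : G → ℝ} (hν : SP ν) {c : ℝ}
    (H : Subgroup G) (h : ∀ g, mass ν {x | g * x ∈ H} ≤ c) (j : ℕ) :
    ∀ g, mass (cpow ν j) {x | g * x ∈ H} ≤ c := by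
  induction j with
  | zero => exact h
  | succ j ih => exact fun g => mass_conv_le (hν.cpow j) H ih g

private theorem G2_cpow_cpow {G : Type*} [Fintype G] [Group G] (μ : G → ℝ) (r j : ℕ) :
    cpow (cpow μ r) j = cpow μ (r + j) := by
  induction j with
  | zero => rfl
  | succ j ih =>
    have h1 : cpow (cpow μ r) (j + 1) = conv (cpow (cpow μ r) j) (cpow (cpow μ r) j) := rfl
    have h2 : cpow μ (r + (j + 1)) = conv (cpow μ (r + j)) (cpow μ (r + j)) := rfl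
    rw [h1, h2, ih]

/-- PROOF. Let `K = p ^ (κ / 1005001)`, at least two for `p ≥ p0`; `c = p ^ (-κ)`, `K ^ 1005000 * c = p ^ (-κ / 1005001) < 1`. `s j = nsq (cpow ν j)`, decreasing (`nsq_cpow_succ_le`), `s 0 ≤ 1` (`∑ ν² ≤ (∑ ν)²`). The mass bound passes to `cpow ν j` (`mass_conv_le`, `SP.cpow`). `bg_step` for `cpow ν j` and `iteration` with `P = p ^ 3`, `L = K ^ 1005000`,
`J` any integer with `2 J κ ≥ 3 * 1005001`: `p ^ 3 nsq (cpow ν J) ≤ K ^ 1005000 ≤ p ^ κ ≤ p ^ (1 / 4)`. `quasirandom` and `|SL₂(p)| ≤ p ^ 3` (e.g. `card_SL2` of file P1 or a bound by the number of columns): `(p - 1) nsq (conv (cpow ν J) f) ≤ 2 p ^ (1 / 4) nsq f`, and `2 p ^ (1/4) / (p - 1) ≤ p ^ (-1/2)` for `p ≥ 100`. -/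
theorem bg_iter (κ : ℝ) (hκ : 0 < κ) (hκ1 : κ ≤ 1 / 4) : ∃ J p0 : ℕ, ∀ p : ℕ, ∀ _ : Fact p.Prime,
    p0 ≤ p → ∀ ν : SL2 p → ℝ, SP ν →
    (∀ H : Subgroup (SL2 p), H ≠ ⊤ → ∀ g, mass ν {x | g * x ∈ H} ≤ (p : ℝ) ^ (-κ)) →
    ∀ f : SL2 p → ℝ, ∑ g, f g = 0 →
      nsq (conv (cpow ν J) f) ≤ (p : ℝ) ^ (-(1 / 2) : ℝ) * nsq f := by
  set β : ℝ := κ / 1005001 with hβ
  have hβ0 : 0 < β := by positivity
  have hκβ : κ = β * 1005001 := by
    rw [hβ]
    ring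
  obtain ⟨J, hJ⟩ := exists_nat_ge (3 / (2 * β))
  obtain ⟨p1, hp1⟩ := exists_nat_ge ((2 : ℝ) ^ (1 / β))
  refine ⟨J, max 100 p1, fun p hp hpp ν hν hm f hf => ?_⟩
  have hp100 : (100 : ℝ) ≤ p := by
    have : 100 ≤ p := (le_max_left _ _).trans hpp
    exact_mod_cast this
  have hp0 : (0 : ℝ) < p := by linarith
  have hp1' : (1 : ℝ) ≤ p := by linarith
  have hK2 : (2 : ℝ) ≤ (p : ℝ) ^ β := by
    have h1 : (2 : ℝ) ^ (1 / β) ≤ p := by
      refine hp1.trans ?_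
      have : p1 ≤ p := (le_max_right _ _).trans hpp
      exact_mod_cast this
    calc (2 : ℝ) = ((2 : ℝ) ^ (1 / β)) ^ β := by
          rw [← Real.rpow_mul (by norm_num), one_div, inv_mul_cancel₀ hβ0.ne', Real.rpow_one]
      _ ≤ (p : ℝ) ^ β := Real.rpow_le_rpow (by positivity) h1 hβ0.le
  have hpow : ∀ m : ℕ, ((p : ℝ) ^ β) ^ m = (p : ℝ) ^ (β * m) := by
    intro m
    rw [← Real.rpow_natCast, ← Real.rpow_mul hp0.le]
  have hKc : ((p : ℝ) ^ β) ^ 1005000 * (p : ℝ) ^ (-κ) < 1 := by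
    rw [hpow, ← Real.rpow_add hp0]
    apply Real.rpow_lt_one_of_one_lt_of_neg (by linarith)
    rw [hκβ]
    push_cast
    linarith
  have hK1 : (1 : ℝ) ≤ (p : ℝ) ^ β := by linarith
  have hstep : ∀ j, ((p : ℝ) ^ β) ^ 2 * nsq (cpow ν (j + 1)) ≤ nsq (cpow ν j) ∨
      (p : ℝ) ^ 3 * nsq (cpow ν j) ≤ ((p : ℝ) ^ β) ^ 1005000 := fun j =>
    bg_step (hν.cpow j) hK2 hKc fun H hH g => G2_mass hν H (hm H hH) j g
  have hJ' : (p : ℝ) ^ 3 ≤ ((p : ℝ) ^ β) ^ (2 * J) := by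
    rw [hpow, ← Real.rpow_natCast (p : ℝ) 3]
    apply Real.rpow_le_rpow_of_exponent_le hp1'
    rw [div_le_iff₀ (by positivity)] at hJ
    push_cast
    linarith
  have hmain := iteration (fun j => nsq (cpow ν j)) (fun j => nsq_cpow_succ_le hν j)
    (G2_nsq_le_one hν) hK1 (by positivity) (one_le_pow₀ hK1) hstep J hJ'
  have hmain' : (p : ℝ) ^ 3 * nsq (cpow ν J) ≤ (p : ℝ) ^ ((1 : ℝ) / 4) := by
    refine hmain.trans ?_
    rw [hpow]
    apply Real.rpow_le_rpow_of_exponent_le hp1'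
    push_cast
    linarith
  set a : ℝ := (p : ℝ) ^ ((1 : ℝ) / 4) with ha
  have ha4 : a ^ 4 = p := by
    rw [ha, ← Real.rpow_natCast, ← Real.rpow_mul hp0.le]
    norm_num
  have ha3 : 3 ≤ a := by
    have h1 : (3 : ℝ) = ((3 : ℝ) ^ 4) ^ ((1 : ℝ) / 4) := by
      rw [← Real.rpow_natCast, ← Real.rpow_mul (by norm_num)]
      norm_num
    rw [h1, ha]
    apply Real.rpow_le_rpow (by positivity) _ (by norm_num)
    linarith
  have ha2 : (p : ℝ) ^ (-(1 / 2) : ℝ) = (a ^ 2)⁻¹ := by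
    rw [Real.rpow_neg hp0.le, ha, ← Real.rpow_natCast, ← Real.rpow_mul hp0.le]
    norm_num
  have hq := quasirandom (cpow ν J) (hν.cpow J).symm f hf
  have hcard : (Nat.card (SL2 p) : ℝ) ≤ (p : ℝ) ^ 3 := by
    have h1 : Nat.card (SL2 p) ≤ p ^ 3 := by
      rw [card_SL2]
      exact Nat.sub_le _ _
    exact_mod_cast h1
  have hX := G2_nsq_nonneg (conv (cpow ν J) f)
  have hY := G2_nsq_nonneg f
  have hZ := G2_nsq_nonneg (cpow ν J)
  have hq2 : ((p : ℝ) - 1) * nsq (conv (cpow ν J) f) ≤ 2 * a * nsq f := by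
    refine hq.trans ?_
    have h1 : 2 * (Nat.card (SL2 p) : ℝ) * nsq (cpow ν J) ≤ 2 * a := by
      have h2 : (Nat.card (SL2 p) : ℝ) * nsq (cpow ν J) ≤ (p : ℝ) ^ 3 * nsq (cpow ν J) :=
        mul_le_mul_of_nonneg_right hcard hZ
      linarith
    exact mul_le_mul_of_nonneg_right h1 hY
  rw [ha2, inv_mul_eq_div, le_div_iff₀ (by positivity)]
  rw [← ha4] at hq2
  have hpos : 0 < a ^ 4 - 1 := by
    have : (3 : ℝ) ^ 4 ≤ a ^ 4 := pow_le_pow_left₀ (by norm_num) ha3 4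
    linarith
  have h5 : 2 * a ^ 3 ≤ a ^ 4 - 1 := by
    have h6 : (3 : ℝ) ^ 3 ≤ a ^ 3 := pow_le_pow_left₀ (by norm_num) ha3 3
    nlinarith
  apply le_of_mul_le_mul_left _ hpos
  calc (a ^ 4 - 1) * (nsq (conv (cpow ν J) f) * a ^ 2)
      = (a ^ 4 - 1) * nsq (conv (cpow ν J) f) * a ^ 2 := by ring
    _ ≤ 2 * a * nsq f * a ^ 2 := mul_le_mul_of_nonneg_right hq2 (by positivity)
    _ = 2 * a ^ 3 * nsq f := by ring
    _ ≤ (a ^ 4 - 1) * nsq f := mul_le_mul_of_nonneg_right h5 hY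

/-- PROOF. `J, p0` of `bg_iter`; `ρ = exp (-1 / (4 * 2 ^ J))`. With `μ = rwk u v 1`: `cpow μ r = rwk u v (2 ^ r)` (`cpow_rwk`) and `cpow (cpow μ r) J = cpow μ (r + J)` (induction). `nsq_conv_root` with `r + J`: the constant is `(p ^ (-1/2)) ^ (1 / 2 ^ (r + J)) = exp (-log p / (2 * 2 ^ r * 2 ^ J)) ≤ exp (-1 / (4 * 2 ^ J))` as `2 ^ r ≤ 2 log p`. -/
theorem bg_theorem (κ : ℝ) (hκ : 0 < κ) (hκ1 : κ ≤ 1 / 4) : ∃ (ρ : ℝ) (p0 : ℕ), 0 ≤ ρ ∧ ρ < 1 ∧
    ∀ p : ℕ, ∀ _ : Fact p.Prime, p0 ≤ p → ∀ (u v : SL2 p) (r : ℕ), (2 : ℝ) ^ r ≤ 2 * Real.log p →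
    (∀ H : Subgroup (SL2 p), H ≠ ⊤ → ∀ g,
      mass (rwk u v (2 ^ r)) {x | g * x ∈ H} ≤ (p : ℝ) ^ (-κ)) →
    ∀ f : SL2 p → ℝ, ∑ g, f g = 0 → nsq (conv (rwk u v 1) f) ≤ ρ * nsq f := by
  obtain ⟨J, p0, hJ⟩ := bg_iter κ hκ hκ1
  refine ⟨Real.exp (-(1 / (4 * 2 ^ J))), p0, (Real.exp_pos _).le, ?_, ?_⟩
  · rw [Real.exp_lt_one_iff]
    have : (0 : ℝ) < 1 / (4 * 2 ^ J) := by positivity
    linarith
  · intro p hp hpp u v r hr hm f hf
    have hp1 : (1 : ℝ) < p := by exact_mod_cast hp.out.one_lt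
    have hp0 : (0 : ℝ) < p := by linarith
    have h1 : cpow (rwk u v 1) r = rwk u v (2 ^ r) := by
      rw [cpow_rwk, mul_one]
    have h2 : ∀ f : SL2 p → ℝ, ∑ g, f g = 0 →
        nsq (conv (cpow (rwk u v 1) (r + J)) f) ≤ (p : ℝ) ^ (-(1 / 2) : ℝ) * nsq f := by
      intro f hf
      rw [← G2_cpow_cpow, h1]
      exact hJ p hp hpp (rwk u v (2 ^ r)) (SP_rwk u v _) hm f hf
    have h3 := nsq_conv_root (SP_rwk u v 1) (r + J) (ρ := (p : ℝ) ^ (-(1 / 2) : ℝ))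
      (by positivity) h2 f hf
    refine h3.trans (mul_le_mul_of_nonneg_right ?_ (G2_nsq_nonneg f))
    rw [← Real.rpow_mul hp0.le, Real.rpow_def_of_pos hp0, Real.exp_le_exp, pow_add]
    have hA : (0 : ℝ) < 2 ^ r := by positivity
    have hB : (0 : ℝ) < 2 ^ J := by positivity
    have h4 : 1 / (4 * (2 : ℝ) ^ J) ≤ Real.log p * (1 / 2 * (1 / (2 ^ r * 2 ^ J))) := by
      have h5 : Real.log p * (1 / 2 * (1 / ((2 : ℝ) ^ r * 2 ^ J))) =
          (2 * Real.log p) / (4 * (2 ^ r * 2 ^ J)) := by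
        field_simp
        ring
      rw [h5, div_le_div_iff₀ (by positivity) (by positivity)]
      nlinarith
    linarith

end Pool.Agent.Lib.MP_3bb35d_al.UE
end
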