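import Pool.Agent.Lib.MP_3bb35d_al.Mg.G003

section

/-!
# From an operator bound to the expansion constant
-/

set_option autoImplicit false

open scoped Pointwise
open Finset

namespace Pool.Agent.Lib.MP_3bb35d_al.UE

variable {G : Type*} [Group G] [Fintype G]

omit [Fintype G] in
private theorem E1b_inv {S : Set G} {R : ℕ} {w : G} (hw : w ∈ Wrd S R) : w⁻¹ ∈ Wrd S R := by
  obtain ⟨l, hl, hx, rfl⟩ := hw
  refine ⟨(l.map (fun x => x⁻¹)).reverse, ?_, ?_, ?_⟩
  · rw [List.length_reverse, List.length_map]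
    exact hl
  · intro x hx'
    rw [List.mem_reverse, List.mem_map] at hx'
    obtain ⟨y, hy, rfl⟩ := hx'
    rw [inv_inv]
    exact (hx y hy).symm
  · exact (List.prod_inv_reverse l).symm

private theorem E1b_conv (u v : G) (f : G → ℝ) (g : G) :
    conv (rwk u v 1) f g = (f (u⁻¹ * g) + f (u * g) + f (v⁻¹ * g) + f (v * g)) / 4 := by
  classical
  have h1 : ∀ h : G, rwk u v 1 h * f (h⁻¹ * g) =
      ∑ i : Fin 4, if lt u v i = h then f (h⁻¹ * g) / 4 else 0 := by
    intro h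
    have h2 : {A : Fin 1 → Fin 4 | wd u v A = h}.ncard =
        (Finset.univ.filter fun i : Fin 4 => lt u v i = h).card := by
      rw [← Set.ncard_coe_finset]
      refine Set.ncard_congr (fun A _ => A 0) ?_ ?_ ?_
      · intro A hA
        have hA' : wd u v A = h := hA
        rw [Finset.coe_filter]
        refine ⟨Finset.mem_univ _, ?_⟩
        rw [← hA']
        simp [wd]
      · intro A B _ _ hAB
        funext i
        rw [Subsingleton.elim i 0]
        exact hAB
      · intro i hi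
        rw [Finset.coe_filter] at hi
        refine ⟨fun _ => i, ?_, rfl⟩
        show wd u v (fun _ : Fin 1 => i) = h
        rw [← hi.2]
        simp [wd]
    unfold rwk
    rw [h2, ← Finset.sum_filter, Finset.sum_const, nsmul_eq_mul, pow_one]
    ring
  unfold conv
  rw [Finset.sum_congr rfl fun h _ => h1 h, Finset.sum_comm]
  have h3 : ∀ i : Fin 4, (∑ h : G, if lt u v i = h then f (h⁻¹ * g) / 4 else 0) =
      f ((lt u v i)⁻¹ * g) / 4 := by
    intro i
    rw [Finset.sum_ite_eq Finset.univ (lt u v i) (fun h => f (h⁻¹ * g) / 4),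
      if_pos (Finset.mem_univ _)]
  rw [Finset.sum_congr rfl fun i _ => h3 i, Fin.sum_univ_four]
  have e0 : lt u v 0 = u := rfl
  have e1 : lt u v 1 = u⁻¹ := rfl
  have e2 : lt u v 2 = v := rfl
  have e3 : lt u v 3 = v⁻¹ := rfl
  rw [e0, e1, e2, e3, inv_inv, inv_inv]
  ring

omit [Group G] in
private theorem E1b_sum_ind (B : Set G) : ∑ g : G, B.indicator (fun _ => (1 : ℝ)) g = B.ncard := by
  classical
  rw [Set.ncard_eq_toFinset_card', Finset.card_eq_sum_ones, Nat.cast_sum, Nat.cast_one]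
  rw [← Finset.sum_subset (Finset.subset_univ B.toFinset)]
  · refine Finset.sum_congr rfl fun g hg => ?_
    rw [Set.mem_toFinset] at hg
    rw [Set.indicator_of_mem hg]
  · intro g _ hg
    rw [Set.mem_toFinset] at hg
    rw [Set.indicator_of_notMem hg]

private theorem E1b_move (S A : Set G) (R : ℕ) {w : G} (hw : w ∈ Wrd S R) :
    ∑ g : G, (A.indicator (fun _ => (1 : ℝ)) (g⁻¹ * w) - A.indicator (fun _ => (1 : ℝ)) g⁻¹) ^ 2 ≤
      2 * R * (bdry S A).ncard := by
  classical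
  rw [← Equiv.sum_comp (Equiv.inv G)]
  simp only [Equiv.inv_apply, inv_inv]
  have h1 : ∀ g : G, (A.indicator (fun _ => (1 : ℝ)) (g * w) -
      A.indicator (fun _ => (1 : ℝ)) g) ^ 2 =
      {g ∈ A | g * w ∉ A}.indicator (fun _ => (1 : ℝ)) g +
      {g ∈ A | g * w⁻¹ ∉ A}.indicator (fun _ => (1 : ℝ)) (g * w) := by
    intro g
    by_cases ha : g ∈ A <;> by_cases hb : g * w ∈ A
    · rw [Set.indicator_of_mem ha, Set.indicator_of_mem hb, Set.indicator_of_notMem,
        Set.indicator_of_notMem]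
      · norm_num
      · rintro ⟨_, h⟩
        rw [mul_inv_cancel_right] at h
        exact h ha
      · rintro ⟨_, h⟩
        exact h hb
    · rw [Set.indicator_of_mem ha, Set.indicator_of_notMem hb, Set.indicator_of_mem,
        Set.indicator_of_notMem]
      · norm_num
      · rintro ⟨h, _⟩
        exact hb h
      · exact ⟨ha, hb⟩
    · rw [Set.indicator_of_notMem ha, Set.indicator_of_mem hb, Set.indicator_of_notMem,
        Set.indicator_of_mem]
      · norm_num
      · refine ⟨hb, ?_⟩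
        rw [mul_inv_cancel_right]
        exact ha
      · rintro ⟨h, _⟩
        exact ha h
    · rw [Set.indicator_of_notMem ha, Set.indicator_of_notMem hb, Set.indicator_of_notMem,
        Set.indicator_of_notMem]
      · norm_num
      · rintro ⟨h, _⟩
        exact hb h
      · rintro ⟨h, _⟩
        exact ha h
  rw [Finset.sum_congr rfl fun g _ => h1 g, Finset.sum_add_distrib]
  have h2 : ∑ g : G, {g ∈ A | g * w⁻¹ ∉ A}.indicator (fun _ => (1 : ℝ)) (g * w) =
      ∑ g : G, {g ∈ A | g * w⁻¹ ∉ A}.indicator (fun _ => (1 : ℝ)) g :=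
    Equiv.sum_comp (Equiv.mulRight w) ({g ∈ A | g * w⁻¹ ∉ A}.indicator (fun _ => (1 : ℝ)))
  rw [h2, E1b_sum_ind, E1b_sum_ind]
  have h3 : (({g ∈ A | g * w ∉ A}.ncard : ℕ) : ℝ) ≤ ((R * (bdry S A).ncard : ℕ) : ℝ) :=
    Nat.cast_le.mpr (move_word S A R hw)
  have h4 : (({g ∈ A | g * w⁻¹ ∉ A}.ncard : ℕ) : ℝ) ≤ ((R * (bdry S A).ncard : ℕ) : ℝ) :=
    Nat.cast_le.mpr (move_word S A R (E1b_inv hw))
  rw [Nat.cast_mul] at h3 h4
  linarith

private theorem E1b_tri (f c : G → ℝ) {t Z : ℝ} (ht0 : 0 ≤ t) (ht1 : t < 1)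
    (hc : nsq c ≤ t ^ 2 * nsq f) (hZ : nsq (fun g => c g - f g) ≤ Z) :
    (1 - t) ^ 2 * nsq f ≤ Z := by
  rcases ht0.eq_or_lt with h0 | h0
  · subst h0
    have h1 : nsq c ≤ 0 := by
      have : (0 : ℝ) ^ 2 * nsq f = 0 := by ring
      rw [this] at hc
      exact hc
    have h2 : ∀ g, c g = 0 := by
      intro g
      have h3 : c g ^ 2 ≤ nsq c :=
        Finset.single_le_sum (f := fun g => c g ^ 2) (fun i _ => sq_nonneg _) (Finset.mem_univ g)
      have h4 : c g ^ 2 = 0 := le_antisymm (h3.trans h1) (sq_nonneg _)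
      exact pow_eq_zero_iff (two_ne_zero) |>.mp h4
    have h5 : nsq (fun g => c g - f g) = nsq f := by
      unfold nsq
      refine Finset.sum_congr rfl fun g _ => ?_
      show (c g - f g) ^ 2 = f g ^ 2
      rw [h2 g]
      ring
    rw [h5] at hZ
    have : (1 - (0 : ℝ)) ^ 2 * nsq f = nsq f := by ring
    rw [this]
    exact hZ
  · have h1 : t * (1 - t) * nsq f ≤ (1 - t) * nsq c + t * nsq (fun g => c g - f g) := by
      unfold nsq
      rw [Finset.mul_sum, Finset.mul_sum, Finset.mul_sum, ← Finset.sum_add_distrib]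
      refine Finset.sum_le_sum fun g _ => ?_
      have h2 := sq_nonneg ((1 - t) * c g + t * (c g - f g))
      nlinarith [h2]
    have h3 : (1 - t) * nsq c ≤ (1 - t) * (t ^ 2 * nsq f) :=
      mul_le_mul_of_nonneg_left hc (by linarith)
    have h4 : t * nsq (fun g => c g - f g) ≤ t * Z := mul_le_mul_of_nonneg_left hZ ht0
    have h5 : t * ((1 - t) ^ 2 * nsq f) ≤ t * Z := by nlinarith [h1, h3, h4]
    exact le_of_mul_le_mul_left h5 h0

/-- From the operator bound to expansion. PROOF. Let `A` be a set with `2 |A| ≤ |G|`, not empty; `b = #(bdry S A)`. Let `f = 1_{A⁻¹} - |A|/|G|`; `∑ f = 0`, `nsq f = |A| - |A|²/|G| ≥ |A| / 2`. For `w` one of the four letters `u^±, v^±` let `f_w(g) = f (w⁻¹ g)`: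
`nsq (f_w - f) = #{g | exactly one of w⁻¹ g, g ∈ A⁻¹} = #{k | exactly one of k w, k ∈ A}` (`k = g⁻¹`, `(w⁻¹ g)⁻¹ = g⁻¹ w`) `≤ 2 R b` (`move_word` for `w` and for `w⁻¹`: `k ∉ A, k w ∈ A` means `k' = k w ∈ A`, `k' w⁻¹ ∉ A`).
`conv (rwk u v 1) f - f` is the average of the four functions `f_w - f`, so `nsq (conv (rwk u v 1) f - f) ≤ 2 R b` (convexity). Hence
`‖f‖ - √(2 R b) ≤ ‖conv (rwk u v 1) f‖ ≤ √ρ ‖f‖`, `(1 - √ρ) ‖f‖ ≤ √(2 R b)`, `(1 - √ρ)² |A| / 2 ≤ 2 R b`. -/
theorem expander_of_bound (S : Set G) (u v : G) (R : ℕ) (hR : 1 ≤ R) (hu : u ∈ Wrd S R)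
    (hv : v ∈ Wrd S R) {ρ : ℝ} (h0 : 0 ≤ ρ) (h1 : ρ < 1)
    (h : ∀ f : G → ℝ, ∑ g, f g = 0 → nsq (conv (rwk u v 1) f) ≤ ρ * nsq f) :
    IsExpander ((1 - √ρ) ^ 2 / (4 * R)) S := by
  classical
  intro A hA
  have hR' : (0 : ℝ) < R := by exact_mod_cast hR
  have hN : (0 : ℝ) < Fintype.card G := by exact_mod_cast Fintype.card_pos
  rw [Nat.card_eq_fintype_card] at hA
  have hA' : 2 * (A.ncard : ℝ) ≤ Fintype.card G := by exact_mod_cast hA
  have ht0 : 0 ≤ √ρ := Real.sqrt_nonneg _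
  have ht1 : √ρ < 1 := by
    rw [Real.sqrt_lt' one_pos, one_pow]
    exact h1
  set a : ℝ := (A.ncard : ℝ) with ha
  set N : ℝ := (Fintype.card G : ℝ) with hNdef
  have ha0 : 0 ≤ a := Nat.cast_nonneg _
  set f : G → ℝ := fun g => A.indicator (fun _ => (1 : ℝ)) g⁻¹ - a / N with hf
  have hsum1 : ∑ g : G, A.indicator (fun _ => (1 : ℝ)) g⁻¹ = a := by
    rw [ha, ← E1b_sum_ind A]
    exact Equiv.sum_comp (Equiv.inv G) (A.indicator (fun _ => (1 : ℝ)))
  have hsumc : ∀ c : ℝ, ∑ _g : G, c = N * c := by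
    intro c
    rw [Finset.sum_const, nsmul_eq_mul, Finset.card_univ]
  have hf0 : ∑ g, f g = 0 := by
    rw [hf]
    rw [Finset.sum_sub_distrib, hsum1, hsumc]
    field_simp
    ring
  have hfn : nsq f = a - a ^ 2 / N := by
    unfold nsq
    have h2 : ∀ g : G, f g ^ 2 =
        (1 - 2 * (a / N)) * A.indicator (fun _ => (1 : ℝ)) g⁻¹ + (a / N) ^ 2 := by
      intro g
      rw [hf]
      by_cases hg : g⁻¹ ∈ A
      · simp only [Set.indicator_of_mem hg]
        ring
      · simp only [Set.indicator_of_notMem hg]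
        ring
    rw [Finset.sum_congr rfl fun g _ => h2 g, Finset.sum_add_distrib, ← Finset.mul_sum, hsum1,
      hsumc]
    field_simp
    ring
  have hfn2 : a / 2 ≤ nsq f := by
    rw [hfn]
    have h3 : a ^ 2 / N ≤ a / 2 := by
      rw [div_le_div_iff₀ hN two_pos]
      nlinarith [mul_le_mul_of_nonneg_left hA' ha0]
    linarith
  have hdiff : ∀ w : G, w ∈ Wrd S R → ∀ z : G, z = w⁻¹ →
      nsq (fun g => f (z * g) - f g) ≤ 2 * R * (bdry S A).ncard := by
    intro w hw z hz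
    refine le_trans (le_of_eq ?_) (E1b_move S A R hw)
    unfold nsq
    refine Finset.sum_congr rfl fun g _ => ?_
    rw [hf, hz]
    simp only [mul_inv_rev, inv_inv]
    ring
  have hd1 := hdiff u hu u⁻¹ rfl
  have hd2 := hdiff u⁻¹ (E1b_inv hu) u (inv_inv u).symm
  have hd3 := hdiff v hv v⁻¹ rfl
  have hd4 := hdiff v⁻¹ (E1b_inv hv) v (inv_inv v).symm
  have hZ : nsq (fun g => conv (rwk u v 1) f g - f g) ≤ 2 * R * (bdry S A).ncard := by
    have h5 : nsq (fun g => conv (rwk u v 1) f g - f g) ≤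
        (nsq (fun g => f (u⁻¹ * g) - f g) + nsq (fun g => f (u * g) - f g) +
          nsq (fun g => f (v⁻¹ * g) - f g) + nsq (fun g => f (v * g) - f g)) / 4 := by
      unfold nsq
      rw [← Finset.sum_add_distrib, ← Finset.sum_add_distrib, ← Finset.sum_add_distrib,
        Finset.sum_div]
      refine Finset.sum_le_sum fun g _ => ?_
      show (conv (rwk u v 1) f g - f g) ^ 2 ≤ ((f (u⁻¹ * g) - f g) ^ 2 + (f (u * g) - f g) ^ 2 +
        (f (v⁻¹ * g) - f g) ^ 2 + (f (v * g) - f g) ^ 2) / 4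
      rw [E1b_conv]
      set x1 := f (u⁻¹ * g)
      set x2 := f (u * g)
      set x3 := f (v⁻¹ * g)
      set x4 := f (v * g)
      set y := f g
      nlinarith [sq_nonneg (x1 - x2), sq_nonneg (x1 - x3), sq_nonneg (x1 - x4),
        sq_nonneg (x2 - x3), sq_nonneg (x2 - x4), sq_nonneg (x3 - x4)]
    linarith
  have hY : nsq (conv (rwk u v 1) f) ≤ √ρ ^ 2 * nsq f := by
    rw [Real.sq_sqrt h0]
    exact h f hf0
  have hfin := E1b_tri f (conv (rwk u v 1) f) ht0 ht1 hY hZ
  have h6 : (1 - √ρ) ^ 2 * (a / 2) ≤ (1 - √ρ) ^ 2 * nsq f :=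
    mul_le_mul_of_nonneg_left hfn2 (sq_nonneg _)
  rw [div_mul_eq_mul_div, div_le_iff₀ (by positivity)]
  nlinarith [h6, hfin]

end Pool.Agent.Lib.MP_3bb35d_al.UE
end

section

/-!
# From an operator bound to the expansion constant
-/

set_option autoImplicit false

open scoped Pointwise
open Finset

namespace Pool.Agent.Lib.MP_3bb35d_al.UE

variable {G : Type*} [Group G] [Fintype G]

private theorem E1c_inv_word {S : Set G} {R : ℕ} {w : G} (hw : w ∈ Wrd S R) : w⁻¹ ∈ Wrd S R := by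
  obtain ⟨l, h1, h2, rfl⟩ := hw
  refine ⟨(l.map fun x => x⁻¹).reverse, by simpa using h1, ?_, (List.prod_inv_reverse l).symm⟩
  intro x hx
  rw [List.mem_reverse, List.mem_map] at hx
  obtain ⟨y, hy, rfl⟩ := hx
  rcases h2 y hy with h | h
  · right; simpa using h
  · left; exact h

/-- If each move by `T i` or its inverse out of `A` happens for at most `N` elements of `A` then the boundary has at
most `2 k N` elements. -/
private theorem E1c_count {k : ℕ} (T : Fin k → G) (A : Set G) (N : ℕ)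
    (h1 : ∀ i, {g ∈ A | g * T i ∉ A}.ncard ≤ N)
    (h2 : ∀ i, {g ∈ A | g * (T i)⁻¹ ∉ A}.ncard ≤ N) :
    (bdry (Set.range T) A).ncard ≤ 2 * k * N := by
  have hsub : bdry (Set.range T) A ⊆
      (⋃ i : Fin k, (fun g : G => (g, g * T i)) '' {g ∈ A | g * T i ∉ A}) ∪
        ⋃ i : Fin k, (fun g : G => (g, g * (T i)⁻¹)) '' {g ∈ A | g * (T i)⁻¹ ∉ A} := by
    rintro ⟨x, y⟩ ⟨hx, hy, s, ⟨i, rfl⟩, hs⟩
    simp only at hx hy hs
    rcases hs with hs | hs
    · left
      rw [Set.mem_iUnion]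
      exact ⟨i, x, ⟨hx, by rw [← hs]; exact hy⟩, by simp [hs]⟩
    · right
      have hy' : y = x * (T i)⁻¹ := by rw [hs]; group
      rw [Set.mem_iUnion]
      exact ⟨i, x, ⟨hx, by rw [← hy']; exact hy⟩, by simp [hy']⟩
  have hA : ∀ t : Fin k → G, (∀ i, {g ∈ A | g * t i ∉ A}.ncard ≤ N) →
      (⋃ i : Fin k, (fun g : G => (g, g * t i)) '' {g ∈ A | g * t i ∉ A}).ncard ≤ k * N := by
    intro t ht
    refine (Set.ncard_iUnion_le_of_fintype _).trans ?_
    refine (Finset.sum_le_sum fun i _ => (Set.ncard_image_le (Set.toFinite _)).trans (ht i)).trans ?_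
    simp
  calc (bdry (Set.range T) A).ncard ≤ _ := Set.ncard_le_ncard hsub (Set.toFinite _)
    _ ≤ _ := Set.ncard_union_le _ _
    _ ≤ k * N + k * N := Nat.add_le_add (hA T h1) (hA (fun i => (T i)⁻¹) h2)
    _ = 2 * k * N := by ring

/-- The constant depends only on the words. PROOF: each `t ∈ T` is in `Wrd S R`, so for a pair `(g, h)` of the boundary of `A` with respect to `T`, `h = g t` or `h = g t⁻¹`: there is a pair of the boundary with respect to `S` on the path from `g` to `h`.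
Count: `#(bdry T A) ≤ ∑ over t ∈ T ∪ T⁻¹ of {g ∈ A | g t ∉ A} ≤ 2 k R #(bdry S A)` (`move_word`), `T` the range of a `k`-tuple. -/
theorem IsExpander.of_words {S : Set G} {k : ℕ} (T : Fin k → G) (R : ℕ)
    (hT : ∀ i, T i ∈ Wrd S R) {ε : ℝ} (h : IsExpander ε (Set.range T)) (hk : 1 ≤ k)
    (hR : 1 ≤ R) : IsExpander (ε / (2 * k * R)) S := by
  intro A hA
  have h1 := h A hA
  have h2 := E1c_count T A (R * (bdry S A).ncard) (fun i => move_word S A R (hT i))
    (fun i => move_word S A R (E1c_inv_word (hT i)))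
  have h3 : ((bdry (Set.range T) A).ncard : ℝ) ≤ 2 * k * (R * (bdry S A).ncard) := by
    exact_mod_cast h2
  have hk' : (0 : ℝ) < k := by exact_mod_cast hk
  have hR' : (0 : ℝ) < R := by exact_mod_cast hR
  rw [div_mul_eq_mul_div, div_le_iff₀ (by positivity)]
  calc ε * (A.ncard : ℝ) ≤ _ := h1
    _ ≤ _ := h3
    _ = _ := by ring

private theorem E1c_fibre {G' : Type*} [Group G'] [Fintype G'] (φ : G →* G')
    (hφ : Function.Surjective φ) :
    ∃ κ : ℕ, 0 < κ ∧ ∀ Y : Set G', (φ ⁻¹' Y).ncard = κ * Y.ncard := by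
  classical
  refine ⟨#{g | φ g = 1}, Finset.card_pos.mpr ⟨1, by simp⟩, fun Y => ?_⟩
  have h1 : (φ ⁻¹' Y).ncard = #{g | φ g ∈ Y} := by
    rw [← Set.ncard_coe_finset]
    congr 1
    ext g
    simp
  have h2 : Y.ncard = #{y | y ∈ Y} := by
    rw [← Set.ncard_coe_finset]
    congr 1
    ext g
    simp
  rw [h1, h2]
  rw [Finset.card_eq_sum_card_fiberwise (f := φ) (t := {y | y ∈ Y}) (by
    intro g hg
    simpa using hg)]
  have h3 : ∀ b ∈ ({y | y ∈ Y} : Finset G'),
      #{a ∈ ({g | φ g ∈ Y} : Finset G) | φ a = b} = #{g | φ g = 1} := by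
    intro b hb
    rw [← MonoidHom.card_fiber_eq_of_mem_range φ (x := b) (y := 1) (hφ b) ⟨1, map_one φ⟩]
    congr 1
    ext g
    simp only [Finset.mem_filter, Finset.mem_univ, true_and] at hb ⊢
    constructor
    · rintro ⟨_, h⟩; exact h
    · intro h; exact ⟨by rw [h]; exact hb, h⟩
  rw [Finset.sum_congr rfl h3, Finset.sum_const, smul_eq_mul, mul_comm]

/-- Quotients. PROOF: for `A ⊆ G'` the preimage has `|ker| |A|` elements, and every boundary pair of `A` has at most `|ker|` preimages which are boundary pairs of the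
preimage of `A`: precisely, a boundary pair `(x, y)` of `φ⁻¹ A`, `y = x s` or `x = y s`, is determined by `x` and `(φ x, φ y)` if ... count the pairs by `(φ x, φ y)`: the pairs over `(a, b)` are among the `(x, x s)` or `(x, x s⁻¹)`
with `φ x = a`, `s` with `φ s = a⁻¹ b` (or `b⁻¹ a`): so at most `2 k |ker|` with `k = ` the number of elements of `S` (range of a `k`-tuple). -/
theorem IsExpander.map {G' : Type*} [Group G'] [Fintype G'] (φ : G →* G')
    (hφ : Function.Surjective φ) {k : ℕ} (S : Fin k → G) {ε : ℝ}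
    (h : IsExpander ε (Set.range S)) (hk : 1 ≤ k) (hε : 0 ≤ ε) :
    IsExpander (ε / (2 * k)) (Set.range fun i => φ (S i)) := by
  intro A hA
  obtain ⟨κ, hκ, hY⟩ := E1c_fibre φ hφ
  set b := (bdry (Set.range fun i => φ (S i)) A).ncard with hb
  have hG : Nat.card G = κ * Nat.card G' := by
    have := hY Set.univ
    rwa [Set.preimage_univ, Set.ncard_univ, Set.ncard_univ] at this
  have h1 := h (φ ⁻¹' A) (by
    rw [hY A, hG]
    calc 2 * (κ * A.ncard) = κ * (2 * A.ncard) := by ring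
      _ ≤ κ * Nat.card G' := Nat.mul_le_mul_left _ hA)
  have hW : ∀ i, φ (S i) ∈ Wrd (Set.range fun i => φ (S i)) 1 := fun i =>
    ⟨[φ (S i)], by simp, by simp, by simp⟩
  have hm : ∀ t : G, φ t ∈ Wrd (Set.range fun i => φ (S i)) 1 →
      {g ∈ φ ⁻¹' A | g * t ∉ φ ⁻¹' A}.ncard ≤ κ * b := by
    intro t ht
    have h2 : {g ∈ φ ⁻¹' A | g * t ∉ φ ⁻¹' A} = φ ⁻¹' {a ∈ A | a * φ t ∉ A} := by
      ext g
      simp
    rw [h2, hY]
    have h3 := move_word (Set.range fun i => φ (S i)) A 1 ht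
    rw [one_mul] at h3
    exact Nat.mul_le_mul_left _ h3
  have h2 := E1c_count S (φ ⁻¹' A) (κ * b) (fun i => hm _ (hW i)) (fun i => hm _ (by
    rw [map_inv]
    exact E1c_inv_word (hW i)))
  have h3 : ((bdry (Set.range S) (φ ⁻¹' A)).ncard : ℝ) ≤ 2 * k * (κ * b) := by
    exact_mod_cast h2
  have h4 : ε * (κ * (A.ncard : ℝ)) ≤ 2 * k * (κ * b) := by
    refine le_trans ?_ h3
    rw [hY A] at h1
    push_cast at h1
    exact h1
  have hk' : (0 : ℝ) < k := by exact_mod_cast hk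
  have hκ' : (0 : ℝ) < κ := by exact_mod_cast hκ
  rw [div_mul_eq_mul_div, div_le_iff₀ (by positivity)]
  refine le_of_mul_le_mul_left ?_ hκ'
  calc (κ : ℝ) * (ε * A.ncard) = ε * (κ * (A.ncard : ℝ)) := by ring
    _ ≤ 2 * k * (κ * b) := h4
    _ = κ * (b * (2 * k)) := by ring

end Pool.Agent.Lib.MP_3bb35d_al.UE
end

section

end
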