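import Pool.Agent.Lib.MP_3bb35d_al.Mg.G006
import Pool.Agent.Lib.MP_3bb35d_al.Mg.G014
import Pool.Agent.Lib.MP_3bb35d_al.Mg.G008
import Pool.Agent.Lib.MP_3bb35d_al.UE.Z6
import Pool.Agent.Lib.MP_3bb35d_al.UE.Z9

section

/-!
# Escape: a nondegenerate pair of short words
-/

set_option autoImplicit false

namespace Pool.Agent.Lib.MP_3bb35d_al.UE

variable {p : ℕ} [Fact p.Prime]

/-- The trace of the commutator. PROOF: `tr (x y x⁻¹ y⁻¹) - 2 = DD (tr x) (tr y) (tr (x y))`, entries and the determinant. -/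
theorem tr_cm {R : Type*} [CommRing R] (x y : Matrix.SpecialLinearGroup (Fin 2) R) :
    tr (cm x y) = DD (tr x) (tr y) (tr (x * y)) + 2 := by
  have hx := x.det_coe
  have hy := y.det_coe
  rw [Matrix.det_fin_two] at hx hy
  have h1 : ((cm x y : Matrix.SpecialLinearGroup (Fin 2) R) : Matrix (Fin 2) (Fin 2) R) =
      !![x 0 0, x 0 1; x 1 0, x 1 1] * !![y 0 0, y 0 1; y 1 0, y 1 1] *
        !![x 1 1, -x 0 1; -x 1 0, x 0 0] * !![y 1 1, -y 0 1; -y 1 0, y 0 0] := by
    unfold cm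
    rw [Matrix.SpecialLinearGroup.coe_mul, Matrix.SpecialLinearGroup.coe_mul,
      Matrix.SpecialLinearGroup.coe_mul, Matrix.SpecialLinearGroup.coe_inv,
      Matrix.SpecialLinearGroup.coe_inv, Matrix.adjugate_fin_two, Matrix.adjugate_fin_two,
      ← Matrix.eta_fin_two (x : Matrix (Fin 2) (Fin 2) R),
      ← Matrix.eta_fin_two (y : Matrix (Fin 2) (Fin 2) R)]
  have h2 : ((x * y : Matrix.SpecialLinearGroup (Fin 2) R) : Matrix (Fin 2) (Fin 2) R) =
      !![x 0 0, x 0 1; x 1 0, x 1 1] * !![y 0 0, y 0 1; y 1 0, y 1 1] := by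
    rw [Matrix.SpecialLinearGroup.coe_mul, ← Matrix.eta_fin_two (x : Matrix (Fin 2) (Fin 2) R),
      ← Matrix.eta_fin_two (y : Matrix (Fin 2) (Fin 2) R)]
  unfold tr DD
  rw [h1, h2, Matrix.mul_fin_two, Matrix.mul_fin_two, Matrix.mul_fin_two]
  simp only [Matrix.of_apply, Matrix.cons_val', Matrix.cons_val_zero, Matrix.cons_val_one,
    Matrix.cons_val_fin_one, Fin.isValue]
  linear_combination ((y 0 0 + y 1 1) ^ 2 - 2 * (y 0 0 * y 1 1 - y 0 1 * y 1 0)) * hx +
    ((x 0 0 + x 1 1) ^ 2 - 2) * hy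

/-- A vector on the same line. -/
private theorem Z5_line {v w : Fin 2 → ZMod p} (hv : v ≠ 0) (h : v 0 * w 1 = v 1 * w 0) :
    ∃ c : ZMod p, w = c • v := by
  by_cases h0 : v 0 = 0
  · have h1 : v 1 ≠ 0 := by
      intro h1
      apply hv
      funext i
      fin_cases i
      · exact h0
      · exact h1
    have h2 : w 0 = 0 := by
      rw [h0, zero_mul] at h
      exact (mul_eq_zero.mp h.symm).resolve_left h1
    refine ⟨w 1 / v 1, ?_⟩
    funext i
    fin_cases i
    · simp [h0, h2]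
    · simp [h1]
  · refine ⟨w 0 / v 0, ?_⟩
    funext i
    fin_cases i
    · simp [h0]
    · simp only [Pi.smul_apply, smul_eq_mul, Fin.mk_one, Fin.isValue]
      field_simp
      linear_combination h

private theorem Z5_mulVec (x : SL2 p) (v : Fin 2 → ZMod p) :
    (x : Matrix (Fin 2) (Fin 2) (ZMod p)).mulVec v =
      ![x 0 0 * v 0 + x 0 1 * v 1, x 1 0 * v 0 + x 1 1 * v 1] := by
  funext i
  fin_cases i <;> simp [Matrix.mulVec, dotProduct, Fin.sum_univ_two]

private theorem Z5_tr_mul (x y : SL2 p) : tr (x * y) =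
    x 0 0 * y 0 0 + x 0 1 * y 1 0 + (x 1 0 * y 0 1 + x 1 1 * y 1 1) := by
  unfold tr
  rw [Matrix.SpecialLinearGroup.coe_mul, Matrix.mul_apply, Matrix.mul_apply, Fin.sum_univ_two,
    Fin.sum_univ_two]

private theorem Z5_ext {x : SL2 p} {a : ZMod p} (h00 : x 0 0 = a) (h01 : x 0 1 = 0)
    (h10 : x 1 0 = 0) (h11 : x 1 1 = a) :
    (x : Matrix (Fin 2) (Fin 2) (ZMod p)) = !![a, 0; 0, a] := by
  rw [Matrix.eta_fin_two (x : Matrix (Fin 2) (Fin 2) (ZMod p)), h00, h01, h10, h11]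

/-- The core of `DD_unip` for both signs. -/
private theorem Z5_unip {x y : SL2 p} {e : ZMod p} (he : e * e = 1) (hx : tr x = 2 * e)
    (h1 : (x : Matrix (Fin 2) (Fin 2) (ZMod p)) ≠ !![e, 0; 0, e])
    (hD : DD (tr x) (tr y) (tr (x * y)) = 0) {v : Fin 2 → ZMod p} (hv : v ≠ 0) (hxv : x ∈ bor v) :
    y ∈ bor v := by
  obtain ⟨c, hc⟩ := hxv
  rw [Z5_mulVec] at hc
  have hc0 : x 0 0 * v 0 + x 0 1 * v 1 = c * v 0 := by
    have := congrFun hc 0
    simpa using this
  have hc1 : x 1 0 * v 0 + x 1 1 * v 1 = c * v 1 := by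
    have := congrFun hc 1
    simpa using this
  have hdet : x 0 0 * x 1 1 - x 0 1 * x 1 0 = 1 := by
    have := x.det_coe
    rwa [Matrix.det_fin_two] at this
  have htr : x 0 0 + x 1 1 = 2 * e := hx
  -- the eigenvalue is `e`
  have hce : c = e := by
    have h2 : ∀ i, (c - e) ^ 2 * v i = 0 := by
      intro i
      fin_cases i
      · show (c - e) ^ 2 * v 0 = 0
        linear_combination (-c + x 1 1) * hc0 - x 0 1 * hc1 + v 0 * c * htr - v 0 * hdet +
          v 0 * he
      · show (c - e) ^ 2 * v 1 = 0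
        linear_combination (-c + x 0 0) * hc1 - x 1 0 * hc0 + v 1 * c * htr - v 1 * hdet +
          v 1 * he
    have h3 : (c - e) ^ 2 = 0 := by
      by_contra h4
      apply hv
      funext i
      exact (mul_eq_zero.mp (h2 i)).resolve_left h4
    exact sub_eq_zero.mp (pow_eq_zero_iff two_ne_zero |>.mp h3)
  subst hce
  have hD' : tr (x * y) = c * tr y := by
    have h2 : (tr (x * y) - c * tr y) ^ 2 = 0 := by
      rw [hx] at hD
      unfold DD at hD
      linear_combination hD + (tr y ^ 2 - 4) * he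
    exact sub_eq_zero.mp (pow_eq_zero_iff two_ne_zero |>.mp h2)
  rw [Z5_tr_mul] at hD'
  have hD2 : x 0 0 * y 0 0 + x 0 1 * y 1 0 + (x 1 0 * y 0 1 + x 1 1 * y 1 1) =
      c * (y 0 0 + y 1 1) := hD'
  have h11 : x 1 1 = 2 * c - x 0 0 := by linear_combination htr
  refine (Z5_line hv ?_).imp fun d hd => hd
  rw [Z5_mulVec]
  show v 0 * (y 1 0 * v 0 + y 1 1 * v 1) = v 1 * (y 0 0 * v 0 + y 0 1 * v 1)
  by_cases h01 : x 0 1 = 0
  · -- `x` is lower triangular with the diagonal `c`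
    have h00 : x 0 0 = c := by
      have h2 : (x 0 0 - c) ^ 2 = 0 := by
        rw [h01, h11] at hdet
        linear_combination -hdet + he
      exact sub_eq_zero.mp (pow_eq_zero_iff two_ne_zero |>.mp h2)
    have h10 : x 1 0 ≠ 0 := by
      intro h10
      exact h1 (Z5_ext h00 h01 h10 (by rw [h11, h00]; ring))
    have hv0 : v 0 = 0 := by
      have h2 : x 1 0 * v 0 = 0 := by
        rw [h11, h00] at hc1
        linear_combination hc1
      exact (mul_eq_zero.mp h2).resolve_left h10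
    have hy : y 0 1 = 0 := by
      have h2 : x 1 0 * y 0 1 = 0 := by
        rw [h01, h11, h00] at hD2
        linear_combination hD2
      exact (mul_eq_zero.mp h2).resolve_left h10
    rw [hv0, hy]
    ring
  · have h2 : x 0 1 * (v 0 * (y 1 0 * v 0 + y 1 1 * v 1) - v 1 * (y 0 0 * v 0 + y 0 1 * v 1)) = 0 := by
      have e1 : x 0 1 * v 1 = (c - x 0 0) * v 0 := by linear_combination hc0
      have e2 : x 1 0 * v 0 = (x 0 0 - c) * v 1 := by
        rw [h11] at hc1
        linear_combination hc1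
      rw [h11] at hD2
      linear_combination (v 0 ^ 2) * hD2 + (v 0 * (y 1 1 - y 0 0) - y 0 1 * v 1) * e1 -
        y 0 1 * v 0 * e2
    have h3 := (mul_eq_zero.mp h2).resolve_left h01
    exact sub_eq_zero.mp h3

/-- `DD = 0` iff there is a common fixed line, for `x` of trace `±2`, `x ≠ ±1`. PROOF: `x = ±!![1, 1; 0, 1]` in a suitable basis of `(ZMod p)²` with first vector `v`; `DD = (y₁₀)²` times a nonzero constant. So if `DD = 0` then `y v` is a multiple of `v`. -/
theorem DD_unip {x y : SL2 p} (hx : tr x = 2 ∨ tr x = -2) (h1 : x ≠ 1) (h2 : x ≠ -1)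
    (hD : DD (tr x) (tr y) (tr (x * y)) = 0) {v : Fin 2 → ZMod p} (hv : v ≠ 0) (hxv : x ∈ bor v) :
    y ∈ bor v := by
  rcases hx with hx | hx
  · refine Z5_unip (e := 1) (by ring) (by rw [hx]; ring) (fun h => h1 ?_) hD hv hxv
    apply Subtype.ext
    rw [h, Matrix.SpecialLinearGroup.coe_one, Matrix.one_fin_two]
  · refine Z5_unip (e := -1) (by ring) (by rw [hx]; ring) (fun h => h2 ?_) hD hv hxv
    apply Subtype.ext
    rw [h, Matrix.SpecialLinearGroup.coe_neg, Matrix.SpecialLinearGroup.coe_one,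
      Matrix.one_fin_two]
    simp

private theorem Z5_Wrd_mono {G : Type*} [Group G] {S : Set G} {R R' : ℕ} (h : R ≤ R') :
    Wrd S R ⊆ Wrd S R' := by
  rintro g ⟨l, h1, h2, h3⟩
  exact ⟨l, h1.trans h, h2, h3⟩

private theorem Z5_Wrd_mul {G : Type*} [Group G] {S : Set G} {R R' : ℕ} {g g' : G}
    (h : g ∈ Wrd S R) (h' : g' ∈ Wrd S R') : g * g' ∈ Wrd S (R + R') := by
  obtain ⟨l, h1, h2, h3⟩ := h
  obtain ⟨l', h1', h2', h3'⟩ := h'
  refine ⟨l ++ l', ?_, ?_, ?_⟩
  · rw [List.length_append]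
    omega
  · intro x hx
    rcases List.mem_append.mp hx with hx | hx
    · exact h2 x hx
    · exact h2' x hx
  · rw [List.prod_append, h3, h3']

private theorem Z5_Wrd_inv {G : Type*} [Group G] {S : Set G} {R : ℕ} {g : G}
    (h : g ∈ Wrd S R) : g⁻¹ ∈ Wrd S R := by
  obtain ⟨l, h1, h2, h3⟩ := h
  refine ⟨(l.map fun x => x⁻¹).reverse, ?_, ?_, ?_⟩
  · rw [List.length_reverse, List.length_map]
    exact h1
  · intro x hx
    rw [List.mem_reverse, List.mem_map] at hx
    obtain ⟨y, hy, rfl⟩ := hx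
    rcases h2 y hy with h | h
    · right
      rw [inv_inv]
      exact h
    · left
      exact h
  · rw [← h3, List.prod_inv_reverse]

private theorem Z5_Wrd_mem {G : Type*} [Group G] {S : Set G} {g : G} (h : g ∈ S) :
    g ∈ Wrd S 1 := by
  refine ⟨[g], by simp, ?_, by simp⟩
  intro x hx
  left
  rw [List.mem_singleton.mp hx]
  exact h

/-- The upper and the lower unipotent matrix. -/
private def Z5_U : SL2 p := ⟨!![1, 1; 0, 1], by simp⟩

private def Z5_L : SL2 p := ⟨!![1, 0; 1, 1], by simp⟩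

private theorem Z5_coeU :
    ((Z5_U : SL2 p) : Matrix (Fin 2) (Fin 2) (ZMod p)) = !![1, 1; 0, 1] := rfl

private theorem Z5_coeL :
    ((Z5_L : SL2 p) : Matrix (Fin 2) (Fin 2) (ZMod p)) = !![1, 0; 1, 1] := rfl

private theorem Z5_num {k : ℕ} (hkp : ∀ q : ℕ, q.Prime → q ∣ k → q < p) :
    (k : ZMod p) ≠ 0 := by
  intro h
  rw [ZMod.natCast_eq_zero_iff] at h
  exact lt_irrefl _ (hkp p Fact.out h)

/-- Cayley-Hamilton. -/
private theorem Z5_inv_of_tr {g : SL2 p} (h : tr g = 0) : g⁻¹ = -g := by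
  have h' : g 0 0 + g 1 1 = 0 := h
  apply Subtype.ext
  rw [Matrix.SpecialLinearGroup.coe_inv, Matrix.SpecialLinearGroup.coe_neg,
    Matrix.adjugate_fin_two, Matrix.eta_fin_two (-(g : Matrix (Fin 2) (Fin 2) (ZMod p)))]
  have e1 : g 1 1 = -g 0 0 := by linear_combination h'
  have e2 : g 0 0 = -g 1 1 := by linear_combination h'
  simp only [Matrix.neg_apply]
  rw [← e1, ← e2]

/-- PROOF. Let `A = S ∪ S⁻¹ ∪ {1}` and suppose that all elements of `Wrd S 6` have trace in `{0, 2, -2}`. For `x ∈ Wrd S 2`, `y ∈ A`: the traces `a, b, c` of `x, y, x y` are in `{0, ±2}` and `tr (cm x y) = a² + b² + c² - a b c - 2 ∈ {0, ±2}` (`cm x y ∈ Wrd S 6`). If `a ≠ 0`: the possible cases are (`p ≥ 7`): `b = c = 0`, or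
`a b c = 8`; (`(±2, ±2, 0)` gives `6`, `a b c = -8` gives `18`; `6, 4, 8, 18, 16, 20` are not divisible by `p ≥ 7`.) In both cases `DD = 0`. If `x ≠ ±1` has trace `±2` it fixes a line (of a vector `v`), and by `DD_unip` all `y ∈ A` fix this line, so `bor v` (a subgroup) contains the group generated by `S`, a contradiction. So all elements of `Wrd S 2` are `±1` or have trace zero;
an element `x` of trace zero satisfies `x² = -1`. So for `x, y ∈ A` with `x, y ≠ ±1` either `x y = ±1` or `tr (x y) = 0`, `(x y)² = -1`, `x y x y = -1`, `x y = -y⁻¹ x⁻¹ = - y x` (as `x⁻¹ = -x`, `y⁻¹ = -y`). In all cases `x y = ± y x`. So the image of the group in the quotient by `±1` is commutative: for all `g, h`: `g h = ± h g`;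
but `!![1, 1; 0, 1]` and `!![1, 0; 1, 1]` do not have this property, contradiction. -/
theorem escape1 (hp : 7 ≤ p) (S : Set (SL2 p)) (hS : Subgroup.closure S = ⊤) :
    ∃ u ∈ Wrd S 6, tr u ≠ 0 ∧ tr u ≠ 2 ∧ tr u ≠ -2 := by
  by_contra hcon
  push Not at hcon
  have htr : ∀ u ∈ Wrd S 6, tr u = 0 ∨ tr u = 2 ∨ tr u = -2 := by
    intro u hu
    by_cases h1 : tr u = 0
    · exact Or.inl h1
    · by_cases h2 : tr u = 2
      · exact Or.inr (Or.inl h2)
      · exact Or.inr (Or.inr (hcon u hu h1 h2))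
  have hnum : ∀ {k : ℕ}, k ∈ ([4, 6, 8, 16, 18, 20] : List ℕ) → (k : ZMod p) ≠ 0 := by
    intro k hk
    refine Z5_num fun q hq hqk => ?_
    have h1 : k ∣ 2 ^ 4 * 3 ^ 2 * 5 := by
      simp only [List.mem_cons, List.not_mem_nil, or_false] at hk
      rcases hk with rfl | rfl | rfl | rfl | rfl | rfl <;> decide
    have h2 := hqk.trans h1
    rcases (Nat.Prime.dvd_mul hq).mp h2 with h3 | h3
    · rcases (Nat.Prime.dvd_mul hq).mp h3 with h4 | h4
      · have := Nat.le_of_dvd (by norm_num) (hq.dvd_of_dvd_pow h4)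
        omega
      · have := Nat.le_of_dvd (by norm_num) (hq.dvd_of_dvd_pow h4)
        omega
    · have := Nat.le_of_dvd (by norm_num) h3
      omega
  have n4 : (4 : ZMod p) ≠ 0 := by exact_mod_cast hnum (k := 4) (by simp)
  have n6 : (6 : ZMod p) ≠ 0 := by exact_mod_cast hnum (k := 6) (by simp)
  have n8 : (8 : ZMod p) ≠ 0 := by exact_mod_cast hnum (k := 8) (by simp)
  have n16 : (16 : ZMod p) ≠ 0 := by exact_mod_cast hnum (k := 16) (by simp)
  have n18 : (18 : ZMod p) ≠ 0 := by exact_mod_cast hnum (k := 18) (by simp)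
  have n20 : (20 : ZMod p) ≠ 0 := by exact_mod_cast hnum (k := 20) (by simp)
  -- the numerical core
  have hcore : ∀ a b c : ZMod p, (a = 2 ∨ a = -2) → (b = 0 ∨ b = 2 ∨ b = -2) →
      (c = 0 ∨ c = 2 ∨ c = -2) → (DD a b c + 2 = 0 ∨ DD a b c + 2 = 2 ∨ DD a b c + 2 = -2) →
      DD a b c = 0 := by
    intro a b c ha hb hc h
    by_contra h0
    rcases ha with rfl | rfl <;> rcases hb with rfl | rfl | rfl <;>
      rcases hc with rfl | rfl | rfl <;> unfold DD at h h0 <;> rcases h with h | h | h <;>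
      first
        | (exact h0 (by linear_combination h))
        | (exact h0 (by ring1))
        | (exact n4 (by linear_combination h))
        | (exact n6 (by linear_combination h))
        | (exact n8 (by linear_combination h))
        | (exact n16 (by linear_combination h))
        | (exact n18 (by linear_combination h))
        | (exact n20 (by linear_combination h))
  -- elements of `Wrd S 2` with trace `±2` are `±1`
  have hpm : ∀ x ∈ Wrd S 2, tr x = 0 ∨ x = 1 ∨ x = -1 := by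
    intro x hx
    by_contra hcon2
    push Not at hcon2
    obtain ⟨h0, h1, h2⟩ := hcon2
    have hx2 : tr x = 2 ∨ tr x = -2 :=
      (htr x (Z5_Wrd_mono (by norm_num) hx)).resolve_left h0
    -- the fixed line
    have hv : ∃ v : Fin 2 → ZMod p, v ≠ 0 ∧ x ∈ bor v := by
      have hdet : x 0 0 * x 1 1 - x 0 1 * x 1 0 = 1 := by
        have := x.det_coe
        rwa [Matrix.det_fin_two] at this
      have key : ∀ e : ZMod p, e * e = 1 → tr x = 2 * e →
          ∃ v : Fin 2 → ZMod p, v ≠ 0 ∧ x ∈ bor v := by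
        intro e he hxe
        have hxe' : x 0 0 + x 1 1 = 2 * e := hxe
        have h3 : ((x : Matrix (Fin 2) (Fin 2) (ZMod p)) - !![e, 0; 0, e]).det = 0 := by
          rw [Matrix.det_fin_two]
          simp only [Matrix.sub_apply, Matrix.of_apply, Matrix.cons_val', Matrix.cons_val_zero,
            Matrix.cons_val_one, Matrix.cons_val_fin_one, Fin.isValue]
          linear_combination hdet - e * hxe' - he
        obtain ⟨v, hv0, hv⟩ := Matrix.exists_mulVec_eq_zero_iff.mpr h3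
        refine ⟨v, hv0, e, ?_⟩
        rw [Matrix.sub_mulVec, sub_eq_zero] at hv
        rw [hv]
        funext i
        fin_cases i <;> simp [Matrix.mulVec, dotProduct, Fin.sum_univ_two]
      rcases hx2 with h | h
      · exact key 1 (by ring) (by rw [h]; ring)
      · exact key (-1) (by ring) (by rw [h]; ring)
    obtain ⟨v, hv0, hxv⟩ := hv
    obtain ⟨B, hB⟩ := bor_subgroup v hv0
    have hSB : S ⊆ B := by
      intro y hy
      show y ∈ (B : Set (SL2 p))
      rw [hB]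
      have hy1 : y ∈ Wrd S 1 := Z5_Wrd_mem hy
      have hxy : x * y ∈ Wrd S 6 := Z5_Wrd_mono (by norm_num) (Z5_Wrd_mul hx hy1)
      have hcm : cm x y ∈ Wrd S 6 :=
        Z5_Wrd_mul (Z5_Wrd_mul (Z5_Wrd_mul hx hy1) (Z5_Wrd_inv hx)) (Z5_Wrd_inv hy1)
      have h4 := htr _ hcm
      rw [tr_cm] at h4
      exact DD_unip hx2 h1 h2
        (hcore _ _ _ hx2 (htr y (Z5_Wrd_mono (by norm_num) hy1)) (htr _ hxy) h4) hv0 hxv
    obtain ⟨g, hg⟩ := bor_ne_univ v hv0
    apply hg
    rw [← hB]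
    have h5 : (⊤ : Subgroup (SL2 p)) ≤ B := by
      rw [← hS, Subgroup.closure_le]
      exact hSB
    exact h5 (Subgroup.mem_top g)
  -- elements of `S` commute up to sign
  have hcomm : ∀ x ∈ S, ∀ y ∈ S, x * y = y * x ∨ x * y = -(y * x) := by
    intro x hx y hy
    have hx1 := Z5_Wrd_mem hx
    have hy1 := Z5_Wrd_mem hy
    rcases hpm x (Z5_Wrd_mono (by norm_num) hx1) with h1 | h1 | h1
    · rcases hpm y (Z5_Wrd_mono (by norm_num) hy1) with h2 | h2 | h2
      · rcases hpm (x * y) (Z5_Wrd_mul hx1 hy1) with h3 | h3 | h3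
        · right
          have h4 := Z5_inv_of_tr h3
          rw [mul_inv_rev, Z5_inv_of_tr h1, Z5_inv_of_tr h2, neg_mul_neg] at h4
          rw [h4, neg_neg]
        · left
          have h4 : y = x⁻¹ := eq_inv_of_mul_eq_one_right h3
          rw [h4]
          simp
        · left
          have h4 : x * (-y) = 1 := by rw [mul_neg, h3, neg_neg]
          have h5 : -y = x⁻¹ := eq_inv_of_mul_eq_one_right h4
          have h6 : y = -x⁻¹ := by rw [← h5, neg_neg]
          rw [h6]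
          simp
      · left; rw [h2]; simp
      · left; rw [h2]; simp
    · left; rw [h1]; simp
    · left; rw [h1]; simp
  -- all elements commute up to sign
  have hZ : ∀ g : SL2 p, ∃ Z : Subgroup (SL2 p), ∀ h, h ∈ Z ↔ (g * h = h * g ∨ g * h = -(h * g)) := by
    intro g
    refine ⟨{
      carrier := {h | g * h = h * g ∨ g * h = -(h * g)}
      one_mem' := Or.inl (by simp)
      mul_mem' := ?_
      inv_mem' := ?_ }, fun h => Iff.rfl⟩
    · rintro a b ha hb
      rcases ha with ha | ha <;> rcases hb with hb | hb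
      · left; rw [← mul_assoc, ha, mul_assoc, hb, mul_assoc]
      · right; rw [← mul_assoc, ha, mul_assoc, hb, mul_neg, mul_assoc]
      · right; rw [← mul_assoc, ha, neg_mul, mul_assoc, hb, mul_assoc]
      · left; rw [← mul_assoc, ha, neg_mul, mul_assoc, hb, mul_neg, neg_neg, mul_assoc]
    · rintro a ha
      rcases ha with ha | ha
      · left
        rw [← mul_right_inj a, ← mul_left_inj a]
        have : a * (g * a⁻¹) * a = a * g := by group
        rw [this]
        have : a * (a⁻¹ * g) * a = g * a := by group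
        rw [this, ha]
      · right
        rw [← mul_right_inj a, ← mul_left_inj a]
        have e1 : a * (g * a⁻¹) * a = a * g := by group
        have e2 : a * -(a⁻¹ * g) * a = -(g * a) := by
          rw [mul_neg, neg_mul]
          congr 1
          group
        rw [e1, e2, ha, neg_neg]
  have hall : ∀ g h : SL2 p, g * h = h * g ∨ g * h = -(h * g) := by
    have step1 : ∀ x ∈ S, ∀ h : SL2 p, x * h = h * x ∨ x * h = -(h * x) := by
      intro x hx h
      obtain ⟨Z, hZ'⟩ := hZ x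
      rw [← hZ' h]
      have h5 : (⊤ : Subgroup (SL2 p)) ≤ Z := by
        rw [← hS, Subgroup.closure_le]
        intro y hy
        exact (hZ' y).mpr (hcomm x hx y hy)
      exact h5 (Subgroup.mem_top h)
    intro g h
    obtain ⟨Z, hZ'⟩ := hZ g
    rw [← hZ' h]
    have h5 : (⊤ : Subgroup (SL2 p)) ≤ Z := by
      rw [← hS, Subgroup.closure_le]
      intro y hy
      refine (hZ' y).mpr ?_
      rcases step1 y hy g with h6 | h6
      · exact Or.inl h6.symm
      · right
        rw [h6, neg_neg]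
    exact h5 (Subgroup.mem_top h)
  have hUL : (((Z5_U : SL2 p) * Z5_L : SL2 p) : Matrix (Fin 2) (Fin 2) (ZMod p)) =
      !![1 + 1, 1; 1, 1] := by
    rw [Matrix.SpecialLinearGroup.coe_mul, Z5_coeU, Z5_coeL, Matrix.mul_fin_two]
    simp
  have hLU : (((Z5_L : SL2 p) * Z5_U : SL2 p) : Matrix (Fin 2) (Fin 2) (ZMod p)) =
      !![1, 1; 1, 1 + 1] := by
    rw [Matrix.SpecialLinearGroup.coe_mul, Z5_coeU, Z5_coeL, Matrix.mul_fin_two]
    simp
  rcases hall (Z5_U : SL2 p) Z5_L with h | h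
  · have h1 : (((Z5_U : SL2 p) * Z5_L : SL2 p) : Matrix (Fin 2) (Fin 2) (ZMod p)) =
        (((Z5_L : SL2 p) * Z5_U : SL2 p) : Matrix (Fin 2) (Fin 2) (ZMod p)) := by rw [h]
    rw [hUL, hLU] at h1
    have h2 := congrFun (congrFun h1 0) 0
    have h3 : (1 : ZMod p) + 1 = 1 := h2
    apply n4
    linear_combination 4 * h3
  · have h1 : (((Z5_U : SL2 p) * Z5_L : SL2 p) : Matrix (Fin 2) (Fin 2) (ZMod p)) =
        -(((Z5_L : SL2 p) * Z5_U : SL2 p) : Matrix (Fin 2) (Fin 2) (ZMod p)) := by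
      rw [h]
      rfl
    rw [hUL, hLU] at h1
    have h2 := congrFun (congrFun h1 0) 0
    have h3 : (1 : ZMod p) + 1 = -1 := h2
    apply n6
    linear_combination 2 * h3

/-- Entries of a product in the basis `P`. -/
private theorem Z5_ent_mul (P : GL (Fin 2) (Kb p)) (g h : SL2 p) (i j : Fin 2) :
    ent P (g * h) i j = ent P g i 0 * ent P h 0 j + ent P g i 1 * ent P h 1 j := by
  rw [ent_mul, Matrix.mul_apply, Fin.sum_univ_two]

private theorem Z5_inv_ent (P : GL (Fin 2) (Kb p)) (g : SL2 p) :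
    ent P g⁻¹ 0 0 = ent P g 1 1 ∧ ent P g⁻¹ 0 1 = -ent P g 0 1 ∧ ent P g⁻¹ 1 0 = -ent P g 1 0 ∧
      ent P g⁻¹ 1 1 = ent P g 0 0 := by
  rw [ent_inv]
  simp

private theorem Z5_map_DD (a b c : ZMod p) : algebraMap (ZMod p) (Kb p) (DD a b c) =
    DD (algebraMap (ZMod p) (Kb p) a) (algebraMap (ZMod p) (Kb p) b)
      (algebraMap (ZMod p) (Kb p) c) := by
  have h4 : algebraMap (ZMod p) (Kb p) 4 = 4 := map_ofNat _ 4
  unfold DD
  rw [map_sub, map_sub, map_add, map_add, map_mul, map_mul, map_pow, map_pow, map_pow, h4]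

/-- The elements whose matrix in the basis `P` has a zero at the place `(i, j)`, `i ≠ j`: not all. -/
private theorem Z5_tri (P : GL (Fin 2) (Kb p)) (S : Set (SL2 p)) (hS : Subgroup.closure S = ⊤)
    (i j : Fin 2) (hij : i ≠ j) : ∃ s ∈ S, ent P s i j ≠ 0 := by
  by_contra hcon
  push Not at hcon
  have hall : ∀ g : SL2 p, ent P g i j = 0 := by
    intro g
    have hg : g ∈ Subgroup.closure S := by rw [hS]; exact Subgroup.mem_top g
    induction hg using Subgroup.closure_induction with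
    | mem x hx => exact hcon x hx
    | one => rw [ent_one, Matrix.one_apply_ne hij]
    | mul x y _ _ hx hy =>
      rw [Z5_ent_mul]
      fin_cases i <;> fin_cases j
      · exact absurd rfl hij
      · simp only [Fin.mk_one, Fin.isValue, Fin.zero_eta] at hx hy ⊢
        rw [hx, hy]
        ring
      · simp only [Fin.mk_one, Fin.isValue, Fin.zero_eta] at hx hy ⊢
        rw [hx, hy]
        ring
      · exact absurd rfl hij
    | inv x _ hx =>
      obtain ⟨_, h1, h2, _⟩ := Z5_inv_ent P x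
      fin_cases i <;> fin_cases j
      · exact absurd rfl hij
      · simp only [Fin.mk_one, Fin.isValue, Fin.zero_eta] at hx ⊢
        rw [h1, hx, neg_zero]
      · simp only [Fin.mk_one, Fin.isValue, Fin.zero_eta] at hx ⊢
        rw [h2, hx, neg_zero]
      · exact absurd rfl hij
  -- then all commutators have trace two
  have hDD : ∀ x y : SL2 p, DD (tr x) (tr y) (tr (x * y)) = 0 := by
    intro x y
    have hinj := (algebraMap (ZMod p) (Kb p)).injective
    apply hinj
    rw [map_zero]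
    have h1 : algebraMap (ZMod p) (Kb p) (DD (tr x) (tr y) (tr (x * y))) =
        DD (algebraMap (ZMod p) (Kb p) (tr x)) (algebraMap (ZMod p) (Kb p) (tr y))
          (algebraMap (ZMod p) (Kb p) (tr (x * y))) := Z5_map_DD _ _ _
    rw [h1, ← tr_ent P, ← tr_ent P, ← tr_ent P, Z5_ent_mul, Z5_ent_mul]
    have hx := det_ent P x
    have hy := det_ent P y
    have hxij := hall x
    have hyij := hall y
    unfold DD
    fin_cases i <;> fin_cases j
    · exact absurd rfl hij
    · simp only [Fin.mk_one, Fin.isValue, Fin.zero_eta] at hxij hyij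
      rw [hxij] at hx ⊢
      rw [hyij] at hy ⊢
      linear_combination (2 - ent P y 0 0 ^ 2 - ent P y 1 1 ^ 2) * hx +
        (2 - ent P x 0 0 ^ 2 - ent P x 1 1 ^ 2) * hy
    · simp only [Fin.mk_one, Fin.isValue, Fin.zero_eta] at hxij hyij
      rw [hxij] at hx ⊢
      rw [hyij] at hy ⊢
      linear_combination (2 - ent P y 0 0 ^ 2 - ent P y 1 1 ^ 2) * hx +
        (2 - ent P x 0 0 ^ 2 - ent P x 1 1 ^ 2) * hy
    · exact absurd rfl hij
  have h1 := hDD (Z5_U : SL2 p) Z5_L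
  have h2 : tr (Z5_U : SL2 p) = 1 + 1 := rfl
  have h3 : tr (Z5_L : SL2 p) = 1 + 1 := rfl
  have h4 : tr ((Z5_U : SL2 p) * Z5_L) = (1 + 1) + 1 := by
    unfold tr
    rw [Matrix.SpecialLinearGroup.coe_mul, Z5_coeU, Z5_coeL, Matrix.mul_fin_two]
    simp
  rw [h2, h3, h4] at h1
  unfold DD at h1
  have h5 : (1 : ZMod p) = 0 := by linear_combination h1
  exact one_ne_zero h5

/-- Not all elements are monomial in the basis `P`. -/
private theorem Z5_mono (hp : 3 ≤ p) (P : GL (Fin 2) (Kb p)) (S : Set (SL2 p))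
    (hS : Subgroup.closure S = ⊤) :
    ∃ s ∈ S, ¬(ent P s 0 1 = 0 ∧ ent P s 1 0 = 0) ∧ ¬(ent P s 0 0 = 0 ∧ ent P s 1 1 = 0) := by
  by_contra hcon
  have hcon' : ∀ s ∈ S, (ent P s 0 1 = 0 ∧ ent P s 1 0 = 0) ∨
      (ent P s 0 0 = 0 ∧ ent P s 1 1 = 0) := by
    intro s hs
    by_contra h
    exact hcon ⟨s, hs, not_or.mp h⟩
  have hall : ∀ g : SL2 p, (ent P g 0 1 = 0 ∧ ent P g 1 0 = 0) ∨
      (ent P g 0 0 = 0 ∧ ent P g 1 1 = 0) := by
    intro g
    have hg : g ∈ Subgroup.closure S := by rw [hS]; exact Subgroup.mem_top g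
    induction hg using Subgroup.closure_induction with
    | mem x hx => exact hcon' x hx
    | one =>
      left
      rw [ent_one]
      exact ⟨Matrix.one_apply_ne (by decide), Matrix.one_apply_ne (by decide)⟩
    | mul x y _ _ hx hy =>
      rw [Z5_ent_mul, Z5_ent_mul, Z5_ent_mul, Z5_ent_mul]
      rcases hx with ⟨h1, h2⟩ | ⟨h1, h2⟩ <;> rcases hy with ⟨h3, h4⟩ | ⟨h3, h4⟩ <;>
        rw [h1, h2, h3, h4] <;> simp
    | inv x _ hx =>
      obtain ⟨h0, h1, h2, h3⟩ := Z5_inv_ent P x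
      rw [h0, h1, h2, h3]
      rcases hx with ⟨h4, h5⟩ | ⟨h4, h5⟩
      · left
        rw [h4, h5, neg_zero]
        exact ⟨rfl, rfl⟩
      · right
        exact ⟨h5, h4⟩
  -- squares are diagonal, so they commute
  have hsq : ∀ g : SL2 p, ent P (g * g) 0 1 = 0 ∧ ent P (g * g) 1 0 = 0 := by
    intro g
    rw [Z5_ent_mul, Z5_ent_mul]
    rcases hall g with ⟨h1, h2⟩ | ⟨h1, h2⟩ <;> rw [h1, h2] <;> simp
  have hdc : ∀ a b : SL2 p, ent P a 0 1 = 0 ∧ ent P a 1 0 = 0 → ent P b 0 1 = 0 ∧ ent P b 1 0 = 0 →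
      a * b = b * a := by
    rintro a b ⟨h1, h2⟩ ⟨h3, h4⟩
    apply ent_inj P
    ext i j
    rw [Z5_ent_mul P a b, Z5_ent_mul P b a]
    fin_cases i <;> fin_cases j <;>
      simp only [Fin.mk_one, Fin.isValue, Fin.zero_eta, h1, h2, h3, h4] <;> ring
  have hcomm : (Z5_U : SL2 p) * Z5_U * (Z5_L * Z5_L) = Z5_L * Z5_L * (Z5_U * Z5_U) :=
    hdc _ _ (hsq _) (hsq _)
  have hU2 : (((Z5_U : SL2 p) * Z5_U : SL2 p) : Matrix (Fin 2) (Fin 2) (ZMod p)) =
      !![1, 1 + 1; 0, 1] := by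
    rw [Matrix.SpecialLinearGroup.coe_mul, Z5_coeU, Matrix.mul_fin_two]
    simp
  have hL2 : (((Z5_L : SL2 p) * Z5_L : SL2 p) : Matrix (Fin 2) (Fin 2) (ZMod p)) =
      !![1, 0; 1 + 1, 1] := by
    rw [Matrix.SpecialLinearGroup.coe_mul, Z5_coeL, Matrix.mul_fin_two]
    simp
  have h5 : (((Z5_U : SL2 p) * Z5_U * (Z5_L * Z5_L) : SL2 p) : Matrix (Fin 2) (Fin 2) (ZMod p)) 0 0 =
      (((Z5_L : SL2 p) * Z5_L * (Z5_U * Z5_U) : SL2 p) : Matrix (Fin 2) (Fin 2) (ZMod p)) 0 0 := by
    rw [hcomm]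
  rw [Matrix.SpecialLinearGroup.coe_mul, Matrix.SpecialLinearGroup.coe_mul (Z5_L * Z5_L), hU2, hL2,
    Matrix.mul_fin_two, Matrix.mul_fin_two] at h5
  have h6 : (1 : ZMod p) * 1 + (1 + 1) * (1 + 1) = 1 * 1 + 0 * 0 := h5
  have h7 : ((4 : ℕ) : ZMod p) ≠ 0 := by
    refine Z5_num fun q hq hq4 => ?_
    have : q ∣ 2 ^ 2 := by simpa using hq4
    have := Nat.le_of_dvd (by norm_num) (hq.dvd_of_dvd_pow this)
    omega
  apply h7
  push_cast
  linear_combination h6

/-- PROOF. Over the algebraic closure `K` choose a basis of eigenvectors of `u`: `u = diag(l, l⁻¹)`, `l² ≠ ±1` (`ent P u`). `DD (tr u) (tr y) (tr (u y)) = -(l - l⁻¹)² y₀₁ y₁₀` for every `y`. We look for `y ∈ Wrd S 2` with `y₀₁ y₁₀ ≠ 0` and `(y₀₀, y₁₁) ≠ (0, 0)`. The group does not preserve the pair of eigenlines, so there is `s ∈ S` which is neither diagonal nor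
antidiagonal (the monomial matrices are a proper subgroup: for instance they satisfy: squares are diagonal and commute; or `!![1, 1; 0, 1]`, of order `p`, would be diagonal, so trivial). If `s₀₁ s₁₀ ≠ 0` take `y = s`. Otherwise one of them is zero, say `s₁₀ = 0`, `s₀₁ ≠ 0`, `s₀₀ s₁₁ = 1` (the other case is symmetric). Not all elements of `S` have
`s'₁₀ = 0` (a common eigenline); let `s'₁₀ ≠ 0`. If `s'₀₁ ≠ 0` and `(s'₀₀, s'₁₁) ≠ (0, 0)` take `y = s'`. If `s'₀₁ = 0`: `y = s s'`: `y₀₁ = s₀₁ s'₁₁ ≠ 0`, `y₁₀ = s₁₁ s'₁₀ ≠ 0`, `y₁₁ = s₁₁ s'₁₁ ≠ 0`. If `s'₀₀ = s'₁₁ = 0`: `y = s s'`: `y₀₀ = s₀₁ s'₁₀ ≠ 0`, `y₀₁ = s₀₀ s'₀₁ ≠ 0`, `y₁₀ = s₁₁ s'₁₀ ≠ 0`.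
Then `tr y = y₀₀ + y₁₁` and `tr (u y) = l y₀₀ + l⁻¹ y₁₁` are not both zero (`l² ≠ 1`). If `tr y ≠ 0` take `v = y`, otherwise `v = u y` (`DD (tr u) (tr (u y)) (tr (u u y)) = DD (tr u) (tr y) (tr (u y))`). -/
theorem escape2 (S : Set (SL2 p)) (hS : Subgroup.closure S = ⊤) (hp : 3 ≤ p) {m : ℕ} {u : SL2 p}
    (hu : u ∈ Wrd S m) (h0 : tr u ≠ 0) (h2 : tr u ≠ 2) (h2' : tr u ≠ -2) :
    ∃ v ∈ Wrd S (m + 2), Ph (tr u) (tr v) (tr (u * v)) ≠ 0 := by
  have hinj := (algebraMap (ZMod p) (Kb p)).injective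
  obtain ⟨P, hP⟩ := exists_diag u h2 h2'
  obtain ⟨hu01, hu10⟩ := hP
  have hu1 : u ≠ 1 := by
    rintro rfl
    apply h2
    show (1 : ZMod p) + 1 = 2
    ring
  have hu1' : u ≠ -1 := by
    rintro rfl
    apply h2'
    show -(1 : ZMod p) + -1 = -2
    ring
  have hne := (tor_tr P ⟨hu01, hu10⟩ hu1 hu1').2.2
  set l := ent P u 0 0 with hl
  set l' := ent P u 1 1 with hl'
  have hll : l * l' = 1 := by
    have := det_ent P u
    rw [hu01] at this
    linear_combination this
  have hl0 : l ≠ 0 := left_ne_zero_of_mul_eq_one hll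
  have hl0' : l' ≠ 0 := right_ne_zero_of_mul_eq_one hll
  have hul : l - l' ≠ 0 := sub_ne_zero.mpr hne
  -- the discriminant
  have hdisc : ∀ y : SL2 p, algebraMap (ZMod p) (Kb p) (DD (tr u) (tr y) (tr (u * y))) =
      -(l - l') ^ 2 * (ent P y 0 1 * ent P y 1 0) := by
    intro y
    have hy := det_ent P y
    rw [Z5_map_DD, ← tr_ent P, ← tr_ent P, ← tr_ent P, Z5_ent_mul, Z5_ent_mul, hu01, hu10]
    unfold DD
    rw [← hl, ← hl']
    have hy' : ent P y 0 1 * ent P y 1 0 = ent P y 0 0 * ent P y 1 1 - 1 := by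
      linear_combination -hy
    rw [hy']
    linear_combination (4 - (ent P y 0 0 + ent P y 1 1) ^ 2) * hll
  -- a good short word
  have hy : ∃ y ∈ Wrd S 2, ent P y 0 1 ≠ 0 ∧ ent P y 1 0 ≠ 0 ∧
      (ent P y 0 0 ≠ 0 ∨ ent P y 1 1 ≠ 0) := by
    obtain ⟨s, hs, hs1, hs2⟩ := Z5_mono hp P S hS
    have hsW : s ∈ Wrd S 2 := Z5_Wrd_mono (by norm_num) (Z5_Wrd_mem hs)
    have hdet := det_ent P s
    have hs3 : ent P s 0 0 ≠ 0 ∨ ent P s 1 1 ≠ 0 := by
      by_contra h
      push Not at h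
      exact hs2 h
    by_cases h01 : ent P s 0 1 = 0
    · have h10 : ent P s 1 0 ≠ 0 := fun h => hs1 ⟨h01, h⟩
      rw [h01, zero_mul, sub_zero] at hdet
      have h00 : ent P s 0 0 ≠ 0 := left_ne_zero_of_mul_eq_one hdet
      have h11 : ent P s 1 1 ≠ 0 := right_ne_zero_of_mul_eq_one hdet
      obtain ⟨s', hs', ht01⟩ := Z5_tri P S hS 0 1 (by decide)
      have hsW' : s' ∈ Wrd S 2 := Z5_Wrd_mono (by norm_num) (Z5_Wrd_mem hs')
      have hss : s * s' ∈ Wrd S 2 := Z5_Wrd_mul (Z5_Wrd_mem hs) (Z5_Wrd_mem hs')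
      have hdet' := det_ent P s'
      by_cases ht10 : ent P s' 1 0 = 0
      · rw [ht10, mul_zero, sub_zero] at hdet'
        have ht00 : ent P s' 0 0 ≠ 0 := left_ne_zero_of_mul_eq_one hdet'
        refine ⟨s * s', hss, ?_, ?_, Or.inl ?_⟩
        · rw [Z5_ent_mul, h01, zero_mul, add_zero]
          exact mul_ne_zero h00 ht01
        · rw [Z5_ent_mul, ht10, mul_zero, add_zero]
          exact mul_ne_zero h10 ht00
        · rw [Z5_ent_mul, h01, zero_mul, add_zero]
          exact mul_ne_zero h00 ht00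
      · by_cases ht : ent P s' 0 0 ≠ 0 ∨ ent P s' 1 1 ≠ 0
        · exact ⟨s', hsW', ht01, ht10, ht⟩
        · push Not at ht
          obtain ⟨ht00, ht11⟩ := ht
          refine ⟨s * s', hss, ?_, ?_, Or.inr ?_⟩
          · rw [Z5_ent_mul, h01, zero_mul, add_zero]
            exact mul_ne_zero h00 ht01
          · rw [Z5_ent_mul, ht00, mul_zero, zero_add]
            exact mul_ne_zero h11 ht10
          · rw [Z5_ent_mul, ht11, mul_zero, add_zero]
            exact mul_ne_zero h10 ht01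
    · by_cases h10 : ent P s 1 0 = 0
      · rw [h10, mul_zero, sub_zero] at hdet
        have h00 : ent P s 0 0 ≠ 0 := left_ne_zero_of_mul_eq_one hdet
        have h11 : ent P s 1 1 ≠ 0 := right_ne_zero_of_mul_eq_one hdet
        obtain ⟨s', hs', ht10⟩ := Z5_tri P S hS 1 0 (by decide)
        have hsW' : s' ∈ Wrd S 2 := Z5_Wrd_mono (by norm_num) (Z5_Wrd_mem hs')
        have hss : s * s' ∈ Wrd S 2 := Z5_Wrd_mul (Z5_Wrd_mem hs) (Z5_Wrd_mem hs')
        have hdet' := det_ent P s'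
        by_cases ht01 : ent P s' 0 1 = 0
        · rw [ht01, zero_mul, sub_zero] at hdet'
          have ht11 : ent P s' 1 1 ≠ 0 := right_ne_zero_of_mul_eq_one hdet'
          refine ⟨s * s', hss, ?_, ?_, Or.inr ?_⟩
          · rw [Z5_ent_mul, ht01, mul_zero, zero_add]
            exact mul_ne_zero h01 ht11
          · rw [Z5_ent_mul, h10, zero_mul, zero_add]
            exact mul_ne_zero h11 ht10
          · rw [Z5_ent_mul, h10, zero_mul, zero_add]
            exact mul_ne_zero h11 ht11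
        · by_cases ht : ent P s' 0 0 ≠ 0 ∨ ent P s' 1 1 ≠ 0
          · exact ⟨s', hsW', ht01, ht10, ht⟩
          · push Not at ht
            obtain ⟨ht00, ht11⟩ := ht
            refine ⟨s * s', hss, ?_, ?_, Or.inl ?_⟩
            · rw [Z5_ent_mul, ht11, mul_zero, add_zero]
              exact mul_ne_zero h00 ht01
            · rw [Z5_ent_mul, h10, zero_mul, zero_add]
              exact mul_ne_zero h11 ht10
            · rw [Z5_ent_mul, ht00, mul_zero, zero_add]
              exact mul_ne_zero h01 ht10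
      · exact ⟨s, hsW, h01, h10, hs3⟩
  obtain ⟨y, hyW, hy01, hy10, hyd⟩ := hy
  have htu : algebraMap (ZMod p) (Kb p) (tr (u * y)) = l * ent P y 0 0 + l' * ent P y 1 1 := by
    rw [← tr_ent P, Z5_ent_mul, Z5_ent_mul, hu01, hu10, ← hl, ← hl']
    ring
  have hty : algebraMap (ZMod p) (Kb p) (tr y) = ent P y 0 0 + ent P y 1 1 := by
    rw [← tr_ent P]
  by_cases hy0 : tr y = 0
  · have hv0 : tr (u * y) ≠ 0 := by
      intro h
      rw [h, map_zero] at htu
      rw [hy0, map_zero] at hty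
      have e1 : (l - l') * ent P y 0 0 = 0 := by linear_combination -htu + l' * hty
      have e2 : (l - l') * ent P y 1 1 = 0 := by linear_combination htu - l * hty
      rcases hyd with h' | h'
      · exact h' ((mul_eq_zero.mp e1).resolve_left hul)
      · exact h' ((mul_eq_zero.mp e2).resolve_left hul)
    refine ⟨u * y, Z5_Wrd_mul hu hyW, ?_⟩
    unfold Ph
    refine mul_ne_zero (mul_ne_zero ?_ h0) hv0
    intro h
    have h3 := hdisc (u * y)
    rw [h, map_zero, Z5_ent_mul, Z5_ent_mul, hu01, hu10, ← hl, ← hl'] at h3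
    have h4 : (l - l') ^ 2 * (l * l' * (ent P y 0 1 * ent P y 1 0)) = 0 := by
      linear_combination h3
    exact (mul_ne_zero (pow_ne_zero 2 hul) (mul_ne_zero (mul_ne_zero hl0 hl0')
      (mul_ne_zero hy01 hy10))) h4
  · refine ⟨y, Z5_Wrd_mono (by omega) hyW, ?_⟩
    unfold Ph
    refine mul_ne_zero (mul_ne_zero ?_ h0) hy0
    intro h
    have h3 := hdisc y
    rw [h, map_zero] at h3
    have h4 : (l - l') ^ 2 * (ent P y 0 1 * ent P y 1 0) = 0 := by linear_combination h3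
    exact (mul_ne_zero (pow_ne_zero 2 hul) (mul_ne_zero hy01 hy10)) h4

end Pool.Agent.Lib.MP_3bb35d_al.UE
end

section

/-!
# The trace criterion: lemmas
-/

set_option autoImplicit false

namespace Pool.Agent.Lib.MP_3bb35d_al.UE

private theorem Z11a_mono {G : Type*} [Group G] (S : Set G) {m n : ℕ} (h : m ≤ n) :
    Wrd S m ⊆ Wrd S n := by
  rintro g ⟨l, hl, h1, h2⟩
  exact ⟨l, hl.trans h, h1, h2⟩

private theorem Z11a_mul {G : Type*} [Group G] (S : Set G) {m n : ℕ} {g h : G} (hg : g ∈ Wrd S m)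
    (hh : h ∈ Wrd S n) : g * h ∈ Wrd S (m + n) := by
  obtain ⟨l, hl, h1, rfl⟩ := hg
  obtain ⟨l', hl', h1', rfl⟩ := hh
  refine ⟨l ++ l', by rw [List.length_append]; omega, ?_, by rw [List.prod_append]⟩
  intro x hx
  rcases List.mem_append.1 hx with hx | hx
  · exact h1 x hx
  · exact h1' x hx

theorem trace_sl2 {p : ℕ} [Fact p.Prime] (hp : 7 ≤ p) {B : Set (Fin 3 → ZMod p)} {ε₀ : ℝ}
    (hB : ∀ (S : Set (SL2 p)) (R : ℕ) (u v : SL2 p), 1 ≤ R → u ∈ Wrd S R → v ∈ Wrd S R →
      Ph (tr u) (tr v) (tr (u * v)) ≠ 0 → trP u v ∉ B → IsExpander (ε₀ / R) S)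
    (S : Set (SL2 p)) (hS : Subgroup.closure S = ⊤) (N : ℕ) {s : SL2 p} (hs : s ∈ Wrd S N)
    (ht : tr s ∉ ((fun P : Fin 3 → ZMod p => P 0) '' B ∪ {0, 2, -2} : Set (ZMod p))) :
    IsExpander (ε₀ / ((N + 14 : ℕ) : ℝ)) S := by
  obtain ⟨u, hu, hu0, hu2, hu2'⟩ := escape1 hp S hS
  obtain ⟨v, hv, hΦ⟩ := escape2 S hS (by omega) hu hu0 hu2 hu2'
  have hv8 : v ∈ Wrd S 8 := hv
  have h0 : tr s ≠ 0 := fun h => ht (Or.inr (by simp [h]))
  have h2 : tr s ≠ 2 := fun h => ht (Or.inr (by simp [h]))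
  have h2' : tr s ≠ -2 := fun h => ht (Or.inr (by simp [h]))
  obtain ⟨z, hz, hP⟩ := exists_partner u v s hΦ h0 h2 h2'
  have huv : u * v ∈ Wrd S 14 := Z11a_mul S hu hv8
  have hzW : z ∈ Wrd S (N + 14) := by
    rcases hz with rfl | rfl | rfl | rfl
    · exact Z11a_mono S (by omega) hu
    · exact Z11a_mono S (by omega) hv8
    · exact Z11a_mono S (by omega) huv
    · exact Z11a_mul S hs huv
  refine hB S (N + 14) s z (by omega) (Z11a_mono S (by omega) hs) hzW hP ?_
  intro hb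
  exact ht (Or.inl ⟨trP s z, hb, by simp [trP]⟩)

private theorem Z11a_surj (p : ℕ) : Function.Surjective (toPSL p) := QuotientGroup.mk'_surjective _

private theorem Z11a_center {p : ℕ} [Fact p.Prime] {c : SL2 p}
    (hc : c ∈ Subgroup.center (SL2 p)) : c = 1 ∨ c = -1 := by
  obtain ⟨r, hr, h⟩ := Matrix.SpecialLinearGroup.mem_center_iff.1 hc
  have hr2 : r ^ 2 = 1 := by simpa using hr
  rw [pow_two] at hr2
  rcases mul_self_eq_one_iff.1 hr2 with rfl | rfl
  · left
    refine Subtype.ext ?_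
    rw [← h]; simp
  · right
    refine Subtype.ext ?_
    rw [← h, map_neg, map_one]
    rfl

theorem lift_word {p : ℕ} [Fact p.Prime] (S : Set (PSL2 p)) (N : ℕ) (g : SL2 p)
    (h : toPSL p g ∈ Wrd S N) : g = 1 ∨ g = -1 ∨ g ∈ Wrd (toPSL p ⁻¹' S) N := by
  obtain ⟨l, hl, h1, h2⟩ := h
  have key : ∀ (l : List (PSL2 p)), (∀ x ∈ l, x ∈ S ∨ x⁻¹ ∈ S) → ∀ g : SL2 p,
      toPSL p g = l.prod → l ≠ [] → g ∈ Wrd (toPSL p ⁻¹' S) l.length := by
    intro l
    induction l with
    | nil => intro _ _ _ h; exact absurd rfl h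
    | cons x l ih =>
      intro hx g hg _
      by_cases hl0 : l = []
      · subst hl0
        have hgx : toPSL p g = x := by simpa using hg
        refine ⟨[g], by simp, ?_, by simp⟩
        intro y hy
        rw [List.mem_singleton] at hy
        subst hy
        rcases hx x (by simp) with h | h
        · left
          show toPSL p y ∈ S
          rw [hgx]; exact h
        · right
          show toPSL p y⁻¹ ∈ S
          rw [map_inv, hgx]; exact h
      · obtain ⟨t, ht⟩ := Z11a_surj p x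
        have h3 : t⁻¹ * g ∈ Wrd (toPSL p ⁻¹' S) l.length := by
          refine ih (fun y hy => hx y (List.mem_cons_of_mem _ hy)) _ ?_ hl0
          rw [map_mul, map_inv, ht, hg, List.prod_cons]
          group
        have h4 : t ∈ Wrd (toPSL p ⁻¹' S) 1 := by
          refine ⟨[t], by simp, ?_, by simp⟩
          intro y hy
          rw [List.mem_singleton] at hy
          subst hy
          rcases hx x (by simp) with h | h
          · left
            show toPSL p y ∈ S
            rw [ht]; exact h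
          · right
            show toPSL p y⁻¹ ∈ S
            rw [map_inv, ht]; exact h
        have h5 := Z11a_mul _ h4 h3
        rw [mul_inv_cancel_left, add_comm] at h5
        simpa using h5
  by_cases hl0 : l = []
  · subst hl0
    have h3 : g ∈ Subgroup.center (SL2 p) := by
      have : toPSL p g = 1 := by rw [← h2]; simp
      exact (QuotientGroup.eq_one_iff g).1 this
    rcases Z11a_center h3 with h | h
    · exact Or.inl h
    · exact Or.inr (Or.inl h)
  · exact Or.inr (Or.inr (Z11a_mono _ hl (key l h1 g h2.symm hl0)))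

theorem closure_preimage {p : ℕ} [Fact p.Prime] (S : Set (PSL2 p))
    (h : Subgroup.closure S = ⊤) : Subgroup.closure (toPSL p ⁻¹' S) = ⊤ := by
  set H := Subgroup.closure (toPSL p ⁻¹' S) with hH
  have h1 : H.map (toPSL p) = ⊤ := by
    rw [hH, MonoidHom.map_closure, Set.image_preimage_eq _ (Z11a_surj p)]
    exact h
  have hne : S.Nonempty := by
    by_contra hS
    rw [Set.not_nonempty_iff_eq_empty] at hS
    rw [hS, Subgroup.closure_empty] at h
    set t : SL2 p := ⟨!![1, 1; 0, 1], by simp [Matrix.det_fin_two]⟩ with ht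
    have h3 : toPSL p t ∈ (⊥ : Subgroup (PSL2 p)) := by rw [h]; trivial
    have h4 : t ∈ Subgroup.center (SL2 p) := (QuotientGroup.eq_one_iff t).1 h3
    rcases Z11a_center h4 with h5 | h5
    · have h6 : t 0 1 = (1 : SL2 p) 0 1 := by rw [h5]
      simp [ht] at h6
    · have h6 : t 0 1 = (-1 : SL2 p) 0 1 := by rw [h5]
      simp [ht] at h6
  obtain ⟨s, hs⟩ := hne
  obtain ⟨t, ht⟩ := Z11a_surj p s
  have hc : ∀ c ∈ Subgroup.center (SL2 p), c ∈ H := by
    intro c hc
    have h3 : t ∈ H := Subgroup.subset_closure (by show toPSL p t ∈ S; rw [ht]; exact hs)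
    have h4 : t * c ∈ H := by
      refine Subgroup.subset_closure ?_
      show toPSL p (t * c) ∈ S
      have : toPSL p c = 1 := (QuotientGroup.eq_one_iff c).2 hc
      rw [map_mul, this, mul_one, ht]; exact hs
    have := H.mul_mem (H.inv_mem h3) h4
    rwa [inv_mul_cancel_left] at this
  refine (Subgroup.eq_top_iff' H).2 fun g => ?_
  have h3 : toPSL p g ∈ H.map (toPSL p) := by rw [h1]; trivial
  obtain ⟨h', hh', he⟩ := h3
  have h4 : h'⁻¹ * g ∈ Subgroup.center (SL2 p) := QuotientGroup.eq.1 he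
  have := H.mul_mem hh' (hc _ h4)
  rwa [mul_inv_cancel_left] at this

theorem IsExpander.of_preimage {G G' : Type*} [Group G] [Fintype G] [Group G'] [Fintype G']
    (φ : G →* G') (hφ : Function.Surjective φ) (hker : Nat.card φ.ker ≤ 2) {S : Set G'} {ε : ℝ}
    (hε : 0 ≤ ε) (h : IsExpander ε (φ ⁻¹' S)) : IsExpander (ε / 2) S := by
  classical
  obtain ⟨σ, hσ⟩ := hφ.hasRightInverse
  have hk1 : 0 < Nat.card φ.ker := Nat.card_pos
  have hmem : ∀ g : G, (σ (φ g))⁻¹ * g ∈ φ.ker := by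
    intro g
    rw [MonoidHom.mem_ker, map_mul, map_inv, hσ (φ g)]
    group
  have hcard : ∀ A : Set G', (φ ⁻¹' A).ncard = Nat.card φ.ker * A.ncard := by
    intro A
    rw [← Nat.card_coe_set_eq, ← Nat.card_coe_set_eq, ← Nat.card_prod]
    refine Nat.card_congr ⟨fun g => (⟨(σ (φ g.1))⁻¹ * g.1, hmem g.1⟩, ⟨φ g.1, g.2⟩),
      fun e => ⟨σ e.2.1 * e.1.1, ?_⟩, ?_, ?_⟩
    · show φ (σ e.2.1 * e.1.1) ∈ A
      rw [map_mul, hσ, (MonoidHom.mem_ker).1 e.1.2, mul_one]
      exact e.2.2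
    · intro g
      refine Subtype.ext ?_
      show σ (φ g.1) * ((σ (φ g.1))⁻¹ * g.1) = g.1
      group
    · rintro ⟨⟨z, hz⟩, ⟨a, ha⟩⟩
      have h3 : φ (σ a * z) = a := by
        rw [map_mul, hσ, (MonoidHom.mem_ker).1 hz, mul_one]
      refine Prod.ext (Subtype.ext ?_) (Subtype.ext ?_)
      · show (σ (φ (σ a * z)))⁻¹ * (σ a * z) = z
        rw [h3]; group
      · exact h3
  intro A hA
  have hG : Nat.card G = Nat.card φ.ker * Nat.card G' := by
    have := hcard Set.univ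
    simpa [Set.ncard_univ] using this
  have h1 := h (φ ⁻¹' A) (by
    rw [hcard A, hG]
    calc 2 * (Nat.card φ.ker * A.ncard) = Nat.card φ.ker * (2 * A.ncard) := by ring
      _ ≤ _ := Nat.mul_le_mul_left _ hA)
  have h2 : (bdry (φ ⁻¹' S) (φ ⁻¹' A)).ncard ≤ Nat.card φ.ker ^ 2 * (bdry S A).ncard := by
    have h3 : Nat.card (bdry (φ ⁻¹' S) (φ ⁻¹' A)) ≤
        Nat.card ((φ.ker × φ.ker) × (bdry S A)) := by
      have hfin : Finite ((φ.ker × φ.ker) × (bdry S A)) := inferInstance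
      refine Nat.card_le_card_of_injective (fun e =>
        ((⟨(σ (φ e.1.1))⁻¹ * e.1.1, hmem _⟩, ⟨(σ (φ e.1.2))⁻¹ * e.1.2, hmem _⟩),
          ⟨(φ e.1.1, φ e.1.2), ?_⟩)) ?_
      · obtain ⟨⟨x, y⟩, hx, hy, s, hs, hxy⟩ := e
        refine ⟨hx, hy, φ s, hs, ?_⟩
        rcases hxy with hxy | hxy
        · left
          show φ y = φ x * φ s
          rw [← map_mul]; exact congrArg φ hxy
        · right
          show φ x = φ y * φ s
          rw [← map_mul]; exact congrArg φ hxy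
      · rintro ⟨⟨x, y⟩, hxy⟩ ⟨⟨x', y'⟩, hxy'⟩ e
        simp only [Prod.mk.injEq, Subtype.mk.injEq] at e
        obtain ⟨⟨e1, e2⟩, e3, e4⟩ := e
        rw [e3] at e1
        rw [e4] at e2
        refine Subtype.ext (Prod.ext (mul_left_cancel e1) (mul_left_cancel e2))
    rw [Nat.card_coe_set_eq, Nat.card_prod, Nat.card_prod, Nat.card_coe_set_eq] at h3
    calc _ ≤ _ := h3
      _ = _ := by ring
  rw [hcard A] at h1
  push_cast at h1
  have hk : (0 : ℝ) < Nat.card φ.ker := by exact_mod_cast hk1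
  have hk2 : (Nat.card φ.ker : ℝ) ≤ 2 := by exact_mod_cast hker
  have h2' : ((bdry (φ ⁻¹' S) (φ ⁻¹' A)).ncard : ℝ) ≤
      (Nat.card φ.ker : ℝ) ^ 2 * (bdry S A).ncard := by exact_mod_cast h2
  have h4 : (Nat.card φ.ker : ℝ) * (ε * A.ncard) ≤
      (Nat.card φ.ker : ℝ) * (Nat.card φ.ker * (bdry S A).ncard) := by
    calc _ = ε * ((Nat.card φ.ker : ℝ) * A.ncard) := by ring
      _ ≤ _ := h1
      _ ≤ _ := h2'
      _ = _ := by ring
  have h5 := le_of_mul_le_mul_left h4 hk
  have h6 : (Nat.card φ.ker : ℝ) * (bdry S A).ncard ≤ 2 * (bdry S A).ncard :=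
    mul_le_mul_of_nonneg_right hk2 (Nat.cast_nonneg _)
  have h7 : ε * A.ncard ≤ 2 * (bdry S A).ncard := h5.trans h6
  calc ε / 2 * A.ncard = (ε * A.ncard) / 2 := by ring
    _ ≤ (2 * (bdry S A).ncard) / 2 := by linarith
    _ = _ := by ring

end Pool.Agent.Lib.MP_3bb35d_al.UE
end
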