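import Pool.Agent.Lib.MP_3bb35d_al.Mg.G017

section

/-!
# Resultants as products, two steps
-/

set_option autoImplicit false

open Polynomial

namespace Pool.Agent.Lib.MP_3bb35d_al.UE

/-- PROOF: functoriality of the resultant for the homomorphism `S[T][U][Y] → L[T][U]`, `Y ↦ C (C y)`, which maps `res1i F f Φ n` to the resultant of the image of `F` (the image is `(F.map (eval₂RingHom ψ y)).map (CC L)`, a product of `X - C (C (C z))`) and of the image of `mix1 f Φ`, as in `res2_eq`. -/
theorem res1i_eq {S L : Type*} [CommRing S] [Field L] [IsAlgClosed L] (ψ : S →+* L)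
    (F f Φ : Polynomial (Polynomial S)) (hF : F.Monic) (n : ℕ) (hf : f.natDegree ≤ n)
    (hΦ : Φ.natDegree ≤ n) (y : L) :
    (((res1i F f Φ n).map (mapRingHom (mapRingHom ψ)) : Polynomial (Polynomial (Polynomial L)))).eval
        (C (C y)) =
      Wm ((F.map (eval₂RingHom ψ y)).roots.map fun z =>
        ((f.map (eval₂RingHom ψ y)).eval z, (Φ.map (eval₂RingHom ψ y)).eval z)) := by
  set e : Polynomial S →+* L := eval₂RingHom ψ y with he
  set θ : Polynomial (Polynomial (Polynomial S)) →+* Polynomial (Polynomial L) :=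
    (evalRingHom (C (C y) : Polynomial (Polynomial L))).comp
      (mapRingHom (mapRingHom (mapRingHom ψ))) with hθ
  have hθC : θ.comp (mapRingHom (CC S)) = (CC L).comp e := by
    refine Polynomial.ringHom_ext (fun s => ?_) ?_
    · simp [hθ, he, CC]
    · simp [hθ, he, CC]
  have hT : θ (C (C X)) = C X := by simp [hθ]
  have hU : θ (C X) = X := by simp [hθ]
  have h1 : ((res1i F f Φ n).map (mapRingHom (mapRingHom ψ))).eval (C (C y)) =
      θ (res1i F f Φ n) := rfl
  have h2 : θ (res1i F f Φ n) =
      resultant ((F.map e).map (CC L)) (mix (f.map e) (Φ.map e)) (F.map e).natDegree n := by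
    have h0 := resultant_map_map (R := Polynomial (Polynomial (Polynomial S)))
      (S := Polynomial (Polynomial L)) (f := F.map (mapRingHom (CC S))) (g := mix1 f Φ)
      (m := F.natDegree) (n := n) θ
    unfold res1i
    rw [← h0, hF.natDegree_map]
    have hA : ∀ G : Polynomial (Polynomial S), (G.map (mapRingHom (CC S))).map θ =
        (G.map e).map (CC L) := by
      intro G
      rw [Polynomial.map_map, Polynomial.map_map, hθC]
    rw [hA]
    congr 1
    unfold mix1 mix
    rw [Polynomial.map_add, Polynomial.map_add, Polynomial.map_mul, hA, hA, map_C, map_C, hT, hU]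
  have h3 := res2_eq (RingHom.id L) (F.map e) (f.map e) (Φ.map e) (hF.map e) n
    (natDegree_map_le.trans hf) (natDegree_map_le.trans hΦ)
  rw [mapRingHom_id, Polynomial.map_id, Polynomial.map_id, Polynomial.map_id,
    Polynomial.map_id] at h3
  rw [h1, h2]
  exact h3

/-- PROOF: functoriality and `resultant_split` for `q.map ψ = ∏ (X - C y)`, then `res1i_eq`; a product of `Wm`s is the `Wm` of the `bind`. -/
theorem res1_eq {S L : Type*} [CommRing S] [Field L] [IsAlgClosed L] (ψ : S →+* L)
    (q : Polynomial S) (hq : q.Monic) (F f Φ : Polynomial (Polynomial S)) (hF : F.Monic)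
    (n n' : ℕ) (hf : f.natDegree ≤ n) (hΦ : Φ.natDegree ≤ n)
    (hn' : (res1i F f Φ n).natDegree ≤ n') :
    (res1 q F f Φ n n').map (mapRingHom ψ) =
      Wm ((q.map ψ).roots.bind fun y => (F.map (eval₂RingHom ψ y)).roots.map fun z =>
        ((f.map (eval₂RingHom ψ y)).eval z, (Φ.map (eval₂RingHom ψ y)).eval z)) := by
  set Ψ : Polynomial (Polynomial S) →+* Polynomial (Polynomial L) :=
    mapRingHom (mapRingHom ψ) with hΨ
  have h1 : (res1 q F f Φ n n').map (mapRingHom ψ) = Ψ (res1 q F f Φ n n') := rfl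
  have hC : Ψ.comp (CC S) = (CC L).comp ψ := by
    ext s
    simp [hΨ, CC]
  have hq' : (q.map ψ).Monic := hq.map ψ
  have hsp : (q.map ψ).Splits := IsAlgClosed.splits _
  have hprod : (q.map (CC S)).map Ψ =
      (((q.map ψ).roots.map (CC L)).map fun r => X - C r).prod := by
    rw [Polynomial.map_map, hC, ← Polynomial.map_map]
    conv_lhs => rw [hsp.eq_prod_roots_of_monic hq']
    rw [Polynomial.map_multiset_prod, Multiset.map_map, Multiset.map_map]
    congr 1
    refine Multiset.map_congr rfl fun r _ => ?_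
    simp
  have hcard : q.natDegree = Multiset.card ((q.map ψ).roots.map (CC L)) := by
    rw [Multiset.card_map, ← hsp.natDegree_eq_card_roots, hq.natDegree_map]
  rw [h1]
  unfold res1
  have h0 := resultant_map_map (R := Polynomial (Polynomial S))
      (S := Polynomial (Polynomial L)) (f := q.map (CC S)) (g := res1i F f Φ n)
      (m := q.natDegree) (n := n') Ψ
  rw [← h0, hprod, hcard,
    resultant_split _ _ n' (natDegree_map_le.trans hn'), Multiset.map_map]
  unfold Wm
  rw [Multiset.map_bind, Multiset.prod_bind]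
  congr 1
  refine Multiset.map_congr rfl fun y _ => ?_
  have h2 := res1i_eq ψ F f Φ hF n hf hΦ y
  exact h2

end Pool.Agent.Lib.MP_3bb35d_al.UE
end

section

/-!
# Sampling, generic combinations, counting of points
-/

set_option autoImplicit false

open Polynomial Finset

namespace Pool.Agent.Lib.MP_3bb35d_al.UE

/-- PROOF. `∑ ω, #{P ∈ X | V ω P} = ∑ P, #{ω | V ω P} ≥ η |Ω| |X|`. If `β < 1` there is `ω ∉ bad`; if for all `ω ∉ bad` `#{P ∈ X | V ω P} + β |X| < η |X|` then the sum is less than `|Ω| (η - β) |X| + β |Ω| |X|`, a contradiction. -/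
theorem sample {Ω α : Type*} [Fintype Ω] [Nonempty Ω] (X : Finset α) (V : Ω → α → Prop)
    (bad : Set Ω) {η β : ℝ} (hX : ∀ P ∈ X, η * Fintype.card Ω ≤ ({ω : Ω | V ω P}.ncard : ℝ))
    (hbad : (bad.ncard : ℝ) ≤ β * Fintype.card Ω) :
    1 ≤ β ∨ ∃ ω ∉ bad, ∃ X' ⊆ X, (∀ P ∈ X', V ω P) ∧
      η * #X ≤ #X' + β * #X := by
  classical
  by_contra hcon
  rw [not_or] at hcon
  obtain ⟨hβ, hno⟩ := hcon
  rw [not_le] at hβ
  have hgood : ∀ ω, ω ∉ bad → (#(X.filter (fun P => V ω P)) : ℝ) < (η - β) * #X := by
    intro ω hω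
    by_contra h1
    rw [not_lt] at h1
    exact hno ⟨ω, hω, X.filter (fun P => V ω P), filter_subset _ _,
      fun P hP => (mem_filter.1 hP).2, by linarith⟩
  set N : ℝ := (Fintype.card Ω : ℝ) with hN
  have hNpos : 0 < N := by
    rw [hN]
    exact_mod_cast Fintype.card_pos
  -- the double count
  have hsum : ∑ ω : Ω, (#(X.filter (fun P => V ω P)) : ℝ) =
      ∑ P ∈ X, ({ω : Ω | V ω P}.ncard : ℝ) := by
    have e1 : ∀ P, {ω : Ω | V ω P}.ncard = #(univ.filter (fun ω : Ω => V ω P)) := by
      intro P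
      rw [← Set.ncard_coe_finset]
      congr 1
      ext ω
      simp
    simp only [e1, card_filter, Nat.cast_sum]
    rw [sum_comm]
  have hlow : η * N * #X ≤ ∑ ω : Ω, (#(X.filter (fun P => V ω P)) : ℝ) := by
    rw [hsum]
    have := Finset.card_nsmul_le_sum X (fun P => ({ω : Ω | V ω P}.ncard : ℝ)) (η * N) hX
    rw [nsmul_eq_mul] at this
    linarith
  have hsplit := sum_filter_add_sum_filter_not (univ : Finset Ω) (fun ω => ω ∈ bad)
    (fun ω => (#(X.filter (fun P => V ω P)) : ℝ))
  have hbc : (#(univ.filter (fun ω : Ω => ω ∈ bad)) : ℝ) = bad.ncard := by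
    rw [← Set.ncard_coe_finset]
    congr 2
    ext ω
    simp
  have h1 : ∑ ω ∈ univ.filter (fun ω : Ω => ω ∈ bad), (#(X.filter (fun P => V ω P)) : ℝ) ≤
      β * N * #X := by
    have h2 : ∑ ω ∈ univ.filter (fun ω : Ω => ω ∈ bad), (#(X.filter (fun P => V ω P)) : ℝ) ≤
        (#(univ.filter (fun ω : Ω => ω ∈ bad)) : ℝ) * #X := by
      rw [← nsmul_eq_mul]
      refine sum_le_card_nsmul _ _ _ fun ω _ => ?_
      exact_mod_cast card_filter_le _ _
    rw [hbc] at h2
    exact h2.trans (mul_le_mul_of_nonneg_right hbad (by positivity))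
  -- a good element exists
  have hex : (univ.filter (fun ω : Ω => ¬ ω ∈ bad)).Nonempty := by
    by_contra hne
    rw [not_nonempty_iff_eq_empty, filter_eq_empty_iff] at hne
    have hall : univ.filter (fun ω : Ω => ω ∈ bad) = univ := by
      refine filter_true_of_mem fun ω hω => ?_
      by_contra h3
      exact hne hω h3
    rw [hall, card_univ] at hbc
    have h5 : N = bad.ncard := hN.trans hbc
    have h6 : N ≤ β * N := h5.le.trans hbad
    nlinarith
  obtain ⟨ω₀, hω₀⟩ := hex
  have hpos : 0 < (η - β) * #X := by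
    have := hgood ω₀ (mem_filter.1 hω₀).2
    have h0 : (0 : ℝ) ≤ (#(X.filter (fun P => V ω₀ P)) : ℝ) := by positivity
    linarith
  have h2 : ∑ ω ∈ univ.filter (fun ω : Ω => ¬ ω ∈ bad), (#(X.filter (fun P => V ω P)) : ℝ) <
      N * ((η - β) * #X) := by
    have h3 : ∑ ω ∈ univ.filter (fun ω : Ω => ¬ ω ∈ bad), (#(X.filter (fun P => V ω P)) : ℝ) <
        ∑ ω ∈ univ.filter (fun ω : Ω => ¬ ω ∈ bad), (η - β) * #X :=
      sum_lt_sum_of_nonempty ⟨ω₀, hω₀⟩ fun ω hω => hgood ω (mem_filter.1 hω).2
    rw [sum_const, nsmul_eq_mul] at h3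
    refine h3.trans_le (mul_le_mul_of_nonneg_right ?_ hpos.le)
    rw [hN]
    exact_mod_cast card_le_univ _
  have h4 : N * ((η - β) * #X) + β * N * #X = η * N * #X := by ring
  linarith

/-- PROOF: for each `i` the polynomial `∑ j, a i j T ^ j` over `K` is not zero, so it has finitely many roots; `k` is infinite. -/
theorem generic_comb {k K : Type*} [Field k] [Infinite k] [Field K] [Algebra k K] {m : ℕ}
    {ι : Type*} (s : Finset ι) (a : ι → Fin m → K) (h : ∀ i ∈ s, ∃ j, a i j ≠ 0) :
    ∃ t : k, ∀ i ∈ s, ∑ j : Fin m, (algebraMap k K t) ^ (j : ℕ) * a i j ≠ 0 := by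
  classical
  let g : ι → Polynomial K := fun i => ∑ j : Fin m, C (a i j) * X ^ (j : ℕ)
  have hg : ∀ i ∈ s, g i ≠ 0 := by
    intro i hi h0
    obtain ⟨j, hj⟩ := h i hi
    apply hj
    have h1 : (g i).coeff (j : ℕ) = a i j := by
      simp only [g, finsetSum_coeff, coeff_C_mul, coeff_X_pow]
      rw [sum_eq_single j]
      · simp
      · intro b _ hb
        rw [if_neg, mul_zero]
        intro h2
        exact hb (Fin.ext h2.symm)
      · simp
    rw [← h1, h0, coeff_zero]
  have hprod : (∏ i ∈ s, g i) ≠ 0 := prod_ne_zero_iff.2 hg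
  have hfin : {t : k | (∏ i ∈ s, g i).IsRoot (algebraMap k K t)}.Finite :=
    (finite_setOfPred_isRoot hprod).preimage (algebraMap k K).injective.injOn
  obtain ⟨t, ht⟩ := hfin.exists_notMem
  refine ⟨t, fun i hi h0 => ht ?_⟩
  show (∏ i ∈ s, g i).eval (algebraMap k K t) = 0
  rw [eval_prod]
  refine prod_eq_zero hi ?_
  simp only [g, eval_finsetSum, eval_mul, eval_C, eval_pow, eval_X]
  rw [← h0]
  exact sum_congr rfl fun j _ => mul_comm _ _

/-- PROOF: at most `deg s` values of `x`, for each `x` at most `deg q` values of `y` (`q` monic in `Y`, so `q(x, Y) ≠ 0` has degree `deg q`), for each `(x, y)` at most `deg F` values of `z`. -/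
theorem card_points {k : Type*} [Field k] (X : Finset (k × k × k)) {s : Polynomial k} (hs : s ≠ 0)
    {q : Polynomial (Polynomial k)} (hq : q.Monic) {F : R3 k} (hF : F.Monic)
    (h : ∀ P ∈ X, (e1 P.1 : Polynomial k →+* k) s = 0 ∧ (e2 P.1 P.2.1 : _ →+* k) q = 0 ∧
      (e3 P.1 P.2.1 P.2.2 : R3 k →+* k) F = 0) :
    #X ≤ s.natDegree * q.natDegree * F.natDegree := by
  classical
  have hroots : ∀ {R : Type _} [CommRing R] (G : Polynomial R) (hG : G.Monic) (ψ : R →+* k),
      #(G.map ψ).roots.toFinset ≤ G.natDegree := by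
    intro R _ G hG ψ
    calc #(G.map ψ).roots.toFinset ≤ Multiset.card (G.map ψ).roots := Multiset.toFinset_card_le _
      _ ≤ (G.map ψ).natDegree := card_roots' _
      _ ≤ G.natDegree := natDegree_map_le
  have h1 : #X ≤ (q.natDegree * F.natDegree) * #s.roots.toFinset := by
    refine card_le_mul_card_image_of_maps_to (f := fun P => P.1) ?_ _ ?_
    · intro P hP
      rw [Multiset.mem_toFinset, mem_roots hs, IsRoot.def]
      have := (h P hP).1
      rwa [e1, coe_eval₂RingHom, Algebra.algebraMap_self, eval₂_id] at this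
    · intro x _
      have h2 : #(X.filter fun P => P.1 = x) ≤ F.natDegree * #(q.map (e1 x)).roots.toFinset := by
        refine card_le_mul_card_image_of_maps_to (f := fun P => P.2.1) ?_ _ ?_
        · intro P hP
          rw [mem_filter] at hP
          rw [Multiset.mem_toFinset, mem_roots (hq.map _).ne_zero, IsRoot.def, eval_map]
          have := (h P hP.1).2.1
          rwa [hP.2, e2, coe_eval₂RingHom] at this
        · intro y _
          refine le_trans ?_ (hroots F hF (e2 x y))
          refine card_le_card_of_injOn (fun P => P.2.2) ?_ ?_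
          · intro P hP
            have hP' := mem_filter.1 (Finset.mem_coe.1 hP)
            have hP'' := mem_filter.1 hP'.1
            rw [Finset.mem_coe, Multiset.mem_toFinset, mem_roots (hF.map _).ne_zero, IsRoot.def,
              eval_map]
            have := (h P hP''.1).2.2
            rwa [hP''.2, hP'.2, e3, coe_eval₂RingHom] at this
          · intro P hP Q hQ hPQ
            have hP' := mem_filter.1 (Finset.mem_coe.1 hP)
            have hP'' := mem_filter.1 hP'.1
            have hQ' := mem_filter.1 (Finset.mem_coe.1 hQ)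
            have hQ'' := mem_filter.1 hQ'.1
            exact Prod.ext (hP''.2.trans hQ''.2.symm) (Prod.ext (hP'.2.trans hQ'.2.symm) hPQ)
      refine h2.trans ?_
      rw [mul_comm]
      exact Nat.mul_le_mul_right _ (hroots q hq (e1 x))
  have h3 : #s.roots.toFinset ≤ s.natDegree := (Multiset.toFinset_card_le _).trans (card_roots' _)
  calc #X ≤ (q.natDegree * F.natDegree) * #s.roots.toFinset := h1
    _ ≤ (q.natDegree * F.natDegree) * s.natDegree := Nat.mul_le_mul_left _ h3
    _ = s.natDegree * q.natDegree * F.natDegree := by ring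

/-- Evaluation of a combination. -/
theorem e3_comb {k K : Type*} [Field k] [Field K] [Algebra k K] {m : ℕ} (f : Fin m → R3 k)
    (t : k) (x y z : K) :
    e3 x y z (∑ j : Fin m, C (C (C (t ^ (j : ℕ)))) * f j) =
      ∑ j : Fin m, (algebraMap k K t) ^ (j : ℕ) * e3 x y z (f j) := by
  rw [map_sum]
  refine sum_congr rfl fun j _ => ?_
  rw [map_mul]
  congr 1
  simp only [e3, e2, e1, coe_eval₂RingHom, eval₂_C, map_pow]

end Pool.Agent.Lib.MP_3bb35d_al.UE
end
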