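import Pool.Agent.Lib.MP_3bb35d_al.Mg.G017
import Pool.Agent.Lib.MP_3bb35d_al.Mg.G018

section

/-!
# The degrees of the eliminants
-/

set_option autoImplicit false

open Polynomial

namespace Pool.Agent.Lib.MP_3bb35d_al.UE

variable {k : Type*} [Field k]

private theorem C3b_C {B : Type*} [CommRing B] (T : Filt B) {a : B} {n : ℕ} (h : a ∈ T.F n) :
    C a ∈ T.poly.F n := by
  intro i
  rw [coeff_C]
  split_ifs
  · exact h
  · exact T.zero n

private theorem C3b_X {B : Type*} [CommRing B] (T : Filt B) : (X : Polynomial B) ∈ T.poly.F 0 := by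
  intro i
  rw [coeff_X]
  split_ifs
  · exact T.one
  · exact T.zero 0

private theorem C3b_mul {B : Type*} [CommRing B] (T : Filt B) {a b : B} {n : ℕ} (ha : a ∈ T.F 0)
    (hb : b ∈ T.F n) : a * b ∈ T.F n := by
  have h := T.mul ha hb
  rwa [Nat.zero_add] at h

private theorem C3b_CC {A : Type*} [CommRing A] (T : Filt A) {a : A} {n : ℕ} (h : a ∈ T.F n) :
    CC A a ∈ T.poly.poly.F n := C3b_C T.poly (C3b_C T h)

private theorem C3b_res2 {A : Type*} [CommRing A] (T : Filt A) {F f Φ : Polynomial A} {d dz : ℕ}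
    (hFd : F.natDegree ≤ dz) (hF : ∀ i, F.coeff i ∈ T.F d) (hf : ∀ i, f.coeff i ∈ T.F d)
    (hΦ : ∀ i, Φ.coeff i ∈ T.F d) (ν : ℕ) :
    ((res2 F f Φ dz).coeff ν).coeff 0 ∈ T.F (2 * dz * d) := by
  have h1 : res2 F f Φ dz ∈ T.poly.poly.F ((F.natDegree + dz) * d) := by
    refine Filt.resultant_mem T.poly.poly _ _ _ _ d (fun i => ?_) (fun i => ?_)
    · rw [coeff_map]
      exact C3b_CC T (hF i)
    · unfold mix
      rw [coeff_add, coeff_add, coeff_C_mul, coeff_map, coeff_map]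
      refine T.poly.poly.add (T.poly.poly.add (C3b_CC T (hf i)) ?_) ?_
      · exact C3b_mul T.poly.poly (C3b_C T.poly (C3b_X T)) (C3b_CC T (hΦ i))
      · rw [coeff_C]
        split_ifs
        · exact T.poly.poly.mono (Nat.zero_le d) (C3b_X T.poly)
        · exact T.poly.poly.zero d
  have h2 : (F.natDegree + dz) * d ≤ 2 * dz * d := by
    refine Nat.mul_le_mul_right d ?_
    omega
  exact T.mono h2 (h1 ν 0)

private theorem C3b_res1i {S : Type*} [CommRing S]
    (T : Filt (Polynomial (Polynomial (Polynomial S)))) {F f Φ : Polynomial (Polynomial S)}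
    {d n : ℕ} (h1 : (C (C X) : Polynomial (Polynomial (Polynomial S))) ∈ T.F 0)
    (h2 : (C X : Polynomial (Polynomial (Polynomial S))) ∈ T.F 0)
    (hF : ∀ i, (F.coeff i).map (CC S) ∈ T.F d) (hf : ∀ i, (f.coeff i).map (CC S) ∈ T.F d)
    (hΦ : ∀ i, (Φ.coeff i).map (CC S) ∈ T.F d) :
    res1i F f Φ n ∈ T.F ((F.natDegree + n) * d) := by
  refine Filt.resultant_mem T _ _ _ _ d (fun i => ?_) (fun i => ?_)
  · rw [coeff_map, coe_mapRingHom]
    exact hF i
  · unfold mix1
    rw [coeff_add, coeff_add, coeff_C_mul, coeff_map, coeff_map, coe_mapRingHom]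
    refine T.add (T.add (hf i) ?_) ?_
    · exact C3b_mul T h1 (hΦ i)
    · rw [coeff_C]
      split_ifs
      · exact T.mono (Nat.zero_le d) h2
      · exact T.zero d

/-- PROOF: `Filt.resultant_mem` for the two filtrations of `A[T][U]`, `A = k[X][Y]`, `((Filt.dg k).poly).poly.poly` (degree in `X`, level `dx`) and `(Filt.dg (Polynomial k)).poly.poly` (degree in `Y`, level `dy`): the coefficients of `F.map (CC A)` and of `mix f Φ` are in level `dx`, `dy`.
`F.natDegree + n ≤ 2 dz`. -/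
theorem Bd_res2 {F f Φ : R3 k} {dx dy dz : ℕ} (hF : Bd3 dx dy dz F) (hf : Bd3 dx dy dz f)
    (hΦ : Bd3 dx dy dz Φ) (ν : ℕ) :
    Bd (2 * dz * dx) (2 * dz * dy) (((res2 F f Φ dz).coeff ν).coeff 0) :=
  ⟨C3b_res2 (Filt.dg (Polynomial k)) hF.1 (fun i => (hF.2 i).1) (fun i => (hf.2 i).1)
      (fun i => (hΦ.2 i).1) ν,
    C3b_res2 (Filt.dg k).poly hF.1 (fun i => (hF.2 i).2) (fun i => (hf.2 i).2)
      (fun i => (hΦ.2 i).2) ν⟩

/-- The degree in `Y` of the inner resultant. PROOF: `Filt.resultant_mem` for `Filt.dg (S[T][U])`, `S = k[X]`, level `dy`. -/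
theorem natDegree_res1i {F f Φ : R3 k} {dx dy dz : ℕ} (hF : Bd3 dx dy dz F)
    (hf : Bd3 dx dy dz f) (hΦ : Bd3 dx dy dz Φ) :
    (res1i F f Φ dz).natDegree ≤ 2 * dz * dy := by
  have h1 : res1i F f Φ dz ∈ (Filt.dg (Polynomial (Polynomial (Polynomial k)))).F
      ((F.natDegree + dz) * dy) := by
    refine C3b_res1i _ ?_ ?_ (fun i => ?_) (fun i => ?_) (fun i => ?_)
    · exact (natDegree_C _).le
    · exact (natDegree_C _).le
    · exact (natDegree_map_le).trans (hF.2 i).1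
    · exact (natDegree_map_le).trans (hf.2 i).1
    · exact (natDegree_map_le).trans (hΦ.2 i).1
  have h2 : (F.natDegree + dz) * dy ≤ 2 * dz * dy := by
    refine Nat.mul_le_mul_right dy ?_
    have := hF.1
    omega
  exact le_trans h1 h2

/-- PROOF: `S = k[X]`; the filtration `Filt.dg k` of `S` by the degree in `X`, and `.poly.poly` of `S[T][U]`, `.poly` of `S[T][U][Y]`: `res1i F f Φ dz` has level `2 dz dx`, the outer resultant has size at most `qy + 2 dz dy` and entries of level `qx + 2 dz dx`. -/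
theorem natDegree_res1 {q : Polynomial (Polynomial k)} {F f Φ : R3 k} {qx qy dx dy dz : ℕ}
    (hq : Bd qx qy q) (hF : Bd3 dx dy dz F) (hf : Bd3 dx dy dz f) (hΦ : Bd3 dx dy dz Φ)
    (ν : ℕ) :
    (((res1 q F f Φ dz (2 * dz * dy)).coeff ν).coeff 0).natDegree ≤
      (qy + 2 * dz * dy) * (qx + 2 * dz * dx) := by
  set T : Filt (Polynomial k) := Filt.dg k with hT
  have hm : ∀ {a : Polynomial (Polynomial k)}, (∀ i, (a.coeff i).natDegree ≤ dx) →
      a.map (CC (Polynomial k)) ∈ T.poly.poly.poly.F dx := by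
    intro a ha i
    rw [coeff_map]
    exact C3b_CC T (ha i)
  have h1 : res1i F f Φ dz ∈ T.poly.poly.poly.F ((F.natDegree + dz) * dx) := by
    refine C3b_res1i _ ?_ ?_ (fun i => hm (hF.2 i).2) (fun i => hm (hf.2 i).2)
      (fun i => hm (hΦ.2 i).2)
    · exact C3b_C T.poly.poly (C3b_C T.poly (C3b_X T))
    · exact C3b_C T.poly.poly (C3b_X T.poly)
  have h2 : (F.natDegree + dz) * dx ≤ qx + 2 * dz * dx := by
    refine le_trans (Nat.mul_le_mul_right dx ?_) (Nat.le_add_left _ _)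
    have := hF.1
    omega
  have h3 : res1 q F f Φ dz (2 * dz * dy) ∈ T.poly.poly.F
      ((q.natDegree + 2 * dz * dy) * (qx + 2 * dz * dx)) := by
    refine Filt.resultant_mem T.poly.poly _ _ _ _ _ (fun i => ?_) (fun i => ?_)
    · rw [coeff_map]
      exact T.poly.poly.mono (Nat.le_add_right _ _) (C3b_CC T (hq.2 i))
    · exact T.poly.poly.mono h2 (h1 i)
  have h4 : (q.natDegree + 2 * dz * dy) * (qx + 2 * dz * dx) ≤
      (qy + 2 * dz * dy) * (qx + 2 * dz * dx) :=
    Nat.mul_le_mul_right _ (Nat.add_le_add_right hq.1 _)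
  exact T.mono h4 (h3 ν 0)

/-- Linear combinations. -/
theorem Bd3_comb {m : ℕ} {dx dy dz : ℕ} (f : Fin m → R3 k) (hf : ∀ j, Bd3 dx dy dz (f j))
    (c : Fin m → k) : Bd3 dx dy dz (∑ j, C (C (C (c j))) * f j) := by
  refine ⟨?_, fun i => ⟨?_, fun i' => ?_⟩⟩
  · refine natDegree_sum_le_of_forall_le _ _ fun j _ => ?_
    exact (natDegree_C_mul_le _ _).trans (hf j).1
  · rw [finset_sum_coeff]
    refine natDegree_sum_le_of_forall_le _ _ fun j _ => ?_
    rw [coeff_C_mul]
    exact (natDegree_C_mul_le _ _).trans ((hf j).2 i).1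
  · rw [finset_sum_coeff, finset_sum_coeff]
    refine natDegree_sum_le_of_forall_le _ _ fun j _ => ?_
    rw [coeff_C_mul, coeff_C_mul]
    exact (natDegree_C_mul_le _ _).trans (((hf j).2 i).2 i')

end Pool.Agent.Lib.MP_3bb35d_al.UE
end

section

/-!
# The second stage: from a surface to a plane curve
-/

set_option autoImplicit false

open Polynomial Finset

namespace Pool.Agent.Lib.MP_3bb35d_al.UE

private theorem C5_e3 {k K : Type*} [Field k] [Field K] [Algebra k K] (x y z : K) (f : R3 k) :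
    e3 x y z f = (f.map (e2 x y)).eval z := by
  rw [e3, coe_eval₂RingHom, eval_map]

private theorem C5_fieldex (k : Type) [Field k] :
    ∃ (K : Type) (_ : Field K) (_ : IsAlgClosed K) (_ : Algebra k K) (x y : K),
      Function.Injective (e2 x y : Polynomial (Polynomial k) →+* K) := by
  let A := Polynomial (Polynomial k)
  let K := AlgebraicClosure (FractionRing A)
  let φ : A →+* K := (algebraMap (FractionRing A) K).comp (algebraMap A (FractionRing A))
  have hφ : Function.Injective φ :=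
    (algebraMap (FractionRing A) K).injective.comp (IsFractionRing.injective A (FractionRing A))
  let alg : Algebra k K := (φ.comp (C.comp C)).toAlgebra
  refine ⟨K, inferInstance, inferInstance, alg, φ (C X), φ X, ?_⟩
  have h1 : (e1 (φ (C X)) : Polynomial k →+* K) = φ.comp C := by
    refine Polynomial.ringHom_ext ?_ ?_
    · intro a
      rw [e1, coe_eval₂RingHom, eval₂_C]
      rfl
    · rw [e1, coe_eval₂RingHom, eval₂_X]
      rfl
  have h2 : (e2 (φ (C X)) (φ X) : Polynomial (Polynomial k) →+* K) = φ := by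
    refine Polynomial.ringHom_ext ?_ ?_
    · intro a
      rw [e2, coe_eval₂RingHom, eval₂_C, h1]
      rfl
    · rw [e2, coe_eval₂RingHom, eval₂_X]
  rw [h2]
  exact hφ

private theorem C5_trans {k K : Type} [Field k] [Field K] [Algebra k K] (x y : K)
    (h : Function.Injective (e2 x y : Polynomial (Polynomial k) →+* K)) : Transcendental k x := by
  intro halg
  obtain ⟨p, hp, hpx⟩ := halg
  apply hp
  have h1 : (e2 x y : Polynomial (Polynomial k) →+* K) (C p) = 0 := by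
    rw [e2, coe_eval₂RingHom, eval₂_C, e1, coe_eval₂RingHom, ← aeval_def, hpx]
  have h2 := h (h1.trans (map_zero _).symm)
  exact C_eq_zero.1 h2

private theorem C5_union {Ω ι : Type} [Fintype Ω] (Z : Finset ι) (s : ι → Set Ω) {c : ℝ}
    (h : ∀ z ∈ Z, ((s z).ncard : ℝ) ≤ c) : ((⋃ z ∈ Z, s z).ncard : ℝ) ≤ #Z * c := by
  classical
  induction Z using Finset.induction_on with
  | empty => simp
  | insert a Z ha ih =>
    rw [set_biUnion_insert, card_insert_of_notMem ha]
    have h1 := ih fun z hz => h z (mem_insert_of_mem hz)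
    have h2 := h a (mem_insert_self _ _)
    have h3 : ((s a ∪ ⋃ z ∈ Z, s z).ncard : ℝ) ≤ (s a).ncard + (⋃ z ∈ Z, s z).ncard := by
      exact_mod_cast Set.ncard_union_le _ _
    push_cast
    linarith

/-- PROOF. `A = k[X][Y]`, `K = AlgebraicClosure (FractionRing A)`, `φ : A → K` injective, `x, y` the images of `X, Y` (`φ = e2 x y`), `x` is transcendental over `k`. Let `Z` be the finite set of the roots `z ∈ K` of `F.map φ` with `e3 x y z Φ ≠ 0`, at most `dz` elements. For each `z ∈ Z`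
the set of the `ω` with `e3 x y z (fam ω j) = 0` for all `j` has at most `θ |Ω|` elements (`H`). `bad` = the union, at most `dz θ |Ω|` (`θ ≥ 0`). `sample`: `ω ∉ bad` and `X'`. `generic_comb`: `t`, `f = ∑ j, C (C (C (t ^ j))) * fam ω j`: `e3 x y z f ≠ 0` for all `z ∈ Z` (`e3_comb`), and `f` vanishes on `X'`. `N = res2 F f Φ dz`, `res2_eq` for `φ`,
`elim_coeff`: `ν`, `q = (N.coeff ν).coeff 0 ≠ 0`, `Bd_res2`. For `P = (a, b, c) ∈ X'`: `ψ = (algebraMap k L).comp (e2 a b)`, `L = AlgebraicClosure k`: `c` is a root of `F.map ψ`, with `f^ψ(c) = 0`, `Φ^ψ(c) ≠ 0`, so `ψ q = 0` by `elim_coeff` and `res2_eq` for `ψ`, hence `e2 a b q = 0`. -/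
theorem stageA {k : Type} [Field k] [Infinite k] {Ω : Type} [Fintype Ω]
    [Nonempty Ω] {m : ℕ}
    (fam : Ω → Fin m → R3 k) (Φ F : R3 k) {θ η : ℝ} {dx dy dz : ℕ} (hθ : 0 ≤ θ)
    (hfam : ∀ ω j, Bd3 dx dy dz (fam ω j)) (hΦ : Bd3 dx dy dz Φ) (hF : F.Monic)
    (hFd : Bd3 dx dy dz F) (H : Hyp fam Φ θ) (X : Finset (k × k × k))
    (h1 : ∀ P ∈ X, (e3 P.1 P.2.1 P.2.2 : R3 k →+* k) F = 0)
    (h2 : ∀ P ∈ X, (e3 P.1 P.2.1 P.2.2 : R3 k →+* k) Φ ≠ 0)
    (h3 : ∀ P ∈ X, η * Fintype.card Ω ≤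
      ({ω : Ω | ∀ j, (e3 P.1 P.2.1 P.2.2 : R3 k →+* k) (fam ω j) = 0}.ncard : ℝ)) :
    1 ≤ dz * θ ∨ ∃ q : Polynomial (Polynomial k), q ≠ 0 ∧ Bd (2 * dz * dx) (2 * dz * dy) q ∧
      ∃ X' ⊆ X, η * #X ≤ #X' + dz * θ * #X ∧
        ∀ P ∈ X', (e2 P.1 P.2.1 : _ →+* k) q = 0 := by
  classical
  obtain ⟨K, _, _, _, x, y, hinj⟩ := C5_fieldex k
  have hx : Transcendental k x := C5_trans x y hinj
  let Z : Finset K := (F.map (e2 x y)).roots.toFinset.filter (fun z => e3 x y z Φ ≠ 0)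
  have hZcard : #Z ≤ dz := by
    calc #Z ≤ #(F.map (e2 x y)).roots.toFinset := card_filter_le _ _
      _ ≤ Multiset.card (F.map (e2 x y)).roots := Multiset.toFinset_card_le _
      _ ≤ (F.map (e2 x y)).natDegree := card_roots' _
      _ ≤ F.natDegree := natDegree_map_le
      _ ≤ dz := hFd.1
  let bad : Set Ω := ⋃ z ∈ Z, {ω : Ω | ∀ j, e3 x y z (fam ω j) = 0}
  have hbad : (bad.ncard : ℝ) ≤ (dz * θ) * Fintype.card Ω := by
    have h4 := C5_union Z (fun z => {ω : Ω | ∀ j, e3 x y z (fam ω j) = 0})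
      (c := θ * Fintype.card Ω) (fun z hz => H K x y z (Or.inl hx) (mem_filter.1 hz).2)
    refine h4.trans ?_
    rw [mul_assoc]
    refine mul_le_mul_of_nonneg_right ?_ (by positivity)
    exact_mod_cast hZcard
  rcases sample X (fun ω P => ∀ j, (e3 P.1 P.2.1 P.2.2 : R3 k →+* k) (fam ω j) = 0) bad
    (η := η) (β := dz * θ) h3 hbad with h4 | ⟨ω, hω, X', hX'X, hX', hcard⟩
  · exact Or.inl h4
  right
  obtain ⟨t, ht⟩ := generic_comb (k := k) Z (fun z j => e3 x y z (fam ω j)) (by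
    intro z hz
    by_contra hno
    push Not at hno
    exact hω (Set.mem_iUnion₂.2 ⟨z, hz, hno⟩))
  let f : R3 k := ∑ j : Fin m, C (C (C (t ^ (j : ℕ)))) * fam ω j
  have hf : Bd3 dx dy dz f := Bd3_comb (fam ω) (hfam ω) (fun j => t ^ (j : ℕ))
  have hfZ : ∀ z ∈ Z, e3 x y z f ≠ 0 := by
    intro z hz
    rw [show e3 x y z f = _ from e3_comb (fam ω) t x y z]
    exact ht z hz
  have hN := res2_eq (e2 x y : Polynomial (Polynomial k) →+* K) F f Φ hF dz hf.1 hΦ.1
  obtain ⟨ν, hν, hcl⟩ := elim_coeff (e2 x y : Polynomial (Polynomial k) →+* K) hinj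
    (res2 F f Φ dz) _ hN (by
      intro e he
      obtain ⟨z, hz, rfl⟩ := Multiset.mem_map.1 he
      by_cases h5 : (Φ.map (e2 x y)).eval z = 0
      · exact Or.inr h5
      · left
        show (f.map (e2 x y)).eval z ≠ 0
        rw [← C5_e3]
        refine hfZ z (mem_filter.2 ⟨Multiset.mem_toFinset.2 hz, ?_⟩)
        rw [C5_e3]
        exact h5)
  refine ⟨((res2 F f Φ dz).coeff ν).coeff 0, hν, Bd_res2 hFd hf hΦ ν, X', hX'X, hcard, ?_⟩
  intro P hP
  let ψ : Polynomial (Polynomial k) →+* AlgebraicClosure k :=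
    (algebraMap k (AlgebraicClosure k)).comp (e2 P.1 P.2.1)
  have hev : ∀ g : R3 k, (g.map ψ).eval (algebraMap k (AlgebraicClosure k) P.2.2) =
      algebraMap k (AlgebraicClosure k) ((e3 P.1 P.2.1 P.2.2 : R3 k →+* k) g) := by
    intro g
    rw [C5_e3, ← Polynomial.map_map, eval_map_algebraMap, aeval_algebraMap_apply, coe_aeval_eq_eval]
  have hψ := hcl (AlgebraicClosure k) ψ _ (res2_eq ψ F f Φ hF dz hf.1 hΦ.1) (by
    refine ⟨_, Multiset.mem_map.2 ⟨algebraMap k (AlgebraicClosure k) P.2.2, ?_, rfl⟩, ?_, ?_⟩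
    · rw [mem_roots (hF.map _).ne_zero, IsRoot.def, hev, h1 P (hX'X hP), map_zero]
    · show (f.map ψ).eval _ = 0
      rw [hev, show (e3 P.1 P.2.1 P.2.2 : R3 k →+* k) f = _ from
        e3_comb (fam ω) t P.1 P.2.1 P.2.2]
      have h6 := hX' P hP
      rw [sum_eq_zero fun j _ => by rw [h6 j, mul_zero], map_zero]
    · show (Φ.map ψ).eval _ ≠ 0
      rw [hev]
      intro h7
      exact h2 P (hX'X hP) ((map_eq_zero _).1 h7))
  exact (map_eq_zero (algebraMap k (AlgebraicClosure k))).1 hψ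

end Pool.Agent.Lib.MP_3bb35d_al.UE
end
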