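import Pool.Agent.Lib.MP_3bb35d_al.Mg.G017
import Pool.Agent.Lib.MP_3bb35d_al.Mg.G018
import Pool.Agent.Lib.MP_3bb35d_al.Mg.G019
import Pool.Agent.Lib.MP_3bb35d_al.UE.W0

section

/-!
# The third stage: from a curve to points
-/

set_option autoImplicit false

open Polynomial Finset

namespace Pool.Agent.Lib.MP_3bb35d_al.UE

/-- A transcendental element in an algebraically closed field. -/
private theorem C6_exists_trans (k : Type) [Field k] :
    ∃ (K : Type) (_ : Field K) (_ : IsAlgClosed K) (_ : Algebra k K) (x : K),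
      Transcendental k x := by
  refine ⟨AlgebraicClosure (FractionRing (Polynomial k)), inferInstance, inferInstance,
    inferInstance, algebraMap (Polynomial k) _ X, ?_⟩
  have h1 : Transcendental k (X : Polynomial k) := transcendental_X k
  have hinj : Function.Injective
      (algebraMap (Polynomial k) (AlgebraicClosure (FractionRing (Polynomial k)))) := by
    rw [IsScalarTower.algebraMap_eq (Polynomial k) (FractionRing (Polynomial k))
      (AlgebraicClosure (FractionRing (Polynomial k)))]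
    exact (algebraMap (FractionRing (Polynomial k)) _).injective.comp
      (IsFractionRing.injective (Polynomial k) (FractionRing (Polynomial k)))
  intro halg
  apply h1
  exact (isAlgebraic_algebraMap_iff hinj).1 halg

/-- Evaluation at a transcendental element is injective. -/
private theorem C6_e1_inj {k K : Type} [Field k] [Field K] [Algebra k K] {x : K}
    (hx : Transcendental k x) : Function.Injective (e1 x : Polynomial k →+* K) := by
  rw [transcendental_iff_injective] at hx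
  intro a b hab
  exact hx hab

/-- Evaluation of a mapped polynomial. -/
private theorem C6_eval {k K : Type} [Field k] [Field K] [Algebra k K] (x y z : K) (f : R3 k) :
    (f.map (eval₂RingHom (e1 x) y)).eval z = e3 x y z f := by
  rw [eval_map]
  rfl

/-- Evaluation in an extension, two variables. -/
private theorem C6_comp2 {k L : Type} [Field k] [Field L] [Algebra k L] (a b : k) :
    (eval₂RingHom ((algebraMap k L).comp (e1 a : Polynomial k →+* k)) (algebraMap k L b)) =
      (algebraMap k L).comp (e2 a b : Polynomial (Polynomial k) →+* k) := by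
  refine Polynomial.ringHom_ext (fun c => ?_) ?_
  · simp [e2]
  · simp [e2]

/-- PROOF. `S = k[X]`, `K = AlgebraicClosure (FractionRing S)`, `φ : S → K` injective, `x` the image of `X`, transcendental over `k`, `φ = e1 x`. Let `Z` be the finite set of the pairs `(y, z) ∈ K²` with `y` a root of `q.map φ`, `z` a root of `F.map (e2 x y)`, `e3 x y z Φ ≠ 0`: at most `qy dz` pairs.
`bad` = the `ω` with `e3 x y z (fam ω j) = 0` for all `j`, for some pair of `Z`: at most `qy dz θ |Ω|`. `sample`: `ω ∉ bad`, `X'`; `generic_comb`: `f`, with `e3 x y z f ≠ 0` on `Z`, `f` vanishes on `X'`. `N = res1 q F f Φ dz (2 dz dy)`, `natDegree_res1i`, `res1_eq` for `φ` (`eval₂RingHom φ y = e2 x y`),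
`elim_coeff`: `ν`, `s = (N.coeff ν).coeff 0 ≠ 0`, `natDegree_res1`. For `P = (a, b, c) ∈ X'`: `ψ = (algebraMap k L).comp (e1 a)`, `L = AlgebraicClosure k`: the pair `(b, c)` occurs in `res1_eq` for `ψ`, with `f = 0`, `Φ ≠ 0`, so `ψ s = 0`, `e1 a s = 0`. `card_points`: `#X' ≤ deg s * qy * dz`. -/
theorem stageB {k : Type} [Field k] [Infinite k] {Ω : Type} [Fintype Ω]
    [Nonempty Ω] {m : ℕ}
    (fam : Ω → Fin m → R3 k) (Φ F : R3 k) (q : Polynomial (Polynomial k)) {θ η : ℝ}
    {qx qy dx dy dz : ℕ} (hθ : 0 ≤ θ)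
    (hfam : ∀ ω j, Bd3 dx dy dz (fam ω j)) (hΦ : Bd3 dx dy dz Φ) (hF : F.Monic)
    (hFd : Bd3 dx dy dz F) (hq : q.Monic) (hqd : Bd qx qy q) (H : Hyp fam Φ θ)
    (X : Finset (k × k × k)) (h0 : ∀ P ∈ X, (e2 P.1 P.2.1 : _ →+* k) q = 0)
    (h1 : ∀ P ∈ X, (e3 P.1 P.2.1 P.2.2 : R3 k →+* k) F = 0)
    (h2 : ∀ P ∈ X, (e3 P.1 P.2.1 P.2.2 : R3 k →+* k) Φ ≠ 0)
    (h3 : ∀ P ∈ X, η * Fintype.card Ω ≤
      ({ω : Ω | ∀ j, (e3 P.1 P.2.1 P.2.2 : R3 k →+* k) (fam ω j) = 0}.ncard : ℝ)) :
    1 ≤ qy * dz * θ ∨ η * #X ≤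
      (qy + 2 * dz * dy) * (qx + 2 * dz * dx) * qy * dz + qy * dz * θ * #X := by
  classical
  obtain ⟨K, hK1, hK2, hK3, x, hx⟩ := C6_exists_trans k
  have hinj := C6_e1_inj hx
  set φ : Polynomial k →+* K := e1 x with hφ
  -- the pairs over the generic point
  set M : Multiset (K × K) := (q.map φ).roots.bind fun y =>
    (F.map (eval₂RingHom φ y)).roots.map fun z => (y, z) with hM
  have hMcard : Multiset.card M ≤ qy * dz := by
    rw [hM, Multiset.card_bind]
    have h5 : ∀ y : K, Multiset.card ((F.map (eval₂RingHom φ y)).roots.map fun z => (y, z)) ≤ dz := by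
      intro y
      rw [Multiset.card_map]
      exact (card_roots' _).trans (natDegree_map_le.trans hFd.1)
    have h6 : Multiset.card (q.map φ).roots ≤ qy :=
      (card_roots' _).trans (natDegree_map_le.trans hqd.1)
    calc (Multiset.map (Multiset.card ∘ fun y =>
          (F.map (eval₂RingHom φ y)).roots.map fun z => (y, z)) (q.map φ).roots).sum
        ≤ Multiset.card (Multiset.map (Multiset.card ∘ fun y =>
          (F.map (eval₂RingHom φ y)).roots.map fun z => (y, z)) (q.map φ).roots) • dz := by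
          refine Multiset.sum_le_card_nsmul _ _ ?_
          intro n hn
          rw [Multiset.mem_map] at hn
          obtain ⟨y, -, rfl⟩ := hn
          exact h5 y
      _ = Multiset.card (q.map φ).roots * dz := by rw [Multiset.card_map, smul_eq_mul]
      _ ≤ qy * dz := Nat.mul_le_mul_right _ h6
  set Z : Finset (K × K) := M.toFinset.filter fun p => e3 x p.1 p.2 Φ ≠ 0 with hZ
  have hZcard : #Z ≤ qy * dz :=
    (Finset.card_filter_le _ _).trans ((Multiset.toFinset_card_le M).trans hMcard)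
  -- the bad families
  set badF : Finset Ω := Z.biUnion fun p =>
    univ.filter fun ω => ∀ j, e3 x p.1 p.2 (fam ω j) = 0 with hbadF
  have hbadcard : (((badF : Finset Ω) : Set Ω).ncard : ℝ) ≤ (qy * dz * θ) * Fintype.card Ω := by
    rw [Set.ncard_coe_finset]
    have h5 : ∀ p ∈ Z, ((#(univ.filter fun ω => ∀ j, e3 x p.1 p.2 (fam ω j) = 0) : ℕ) : ℝ) ≤
        θ * Fintype.card Ω := by
      intro p hp
      have h6 := H K x p.1 p.2 (Or.inl hx) (Finset.mem_filter.1 hp).2
      have h7 : ({ω : Ω | ∀ j, e3 x p.1 p.2 (fam ω j) = 0}) =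
          ((univ.filter fun ω => ∀ j, e3 x p.1 p.2 (fam ω j) = 0 : Finset Ω) : Set Ω) := by
        ext ω
        simp
      rw [h7, Set.ncard_coe_finset] at h6
      exact h6
    have h8 : (badF.card : ℝ) ≤ ∑ p ∈ Z,
        ((#(univ.filter fun ω => ∀ j, e3 x p.1 p.2 (fam ω j) = 0) : ℕ) : ℝ) := by
      have := Finset.card_biUnion_le (s := Z) (t := fun p =>
        univ.filter fun ω => ∀ j, e3 x p.1 p.2 (fam ω j) = 0)
      exact_mod_cast this
    have h9 : (0 : ℝ) ≤ θ * Fintype.card Ω := mul_nonneg hθ (Nat.cast_nonneg _)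
    calc (badF.card : ℝ) ≤ ∑ p ∈ Z,
          ((#(univ.filter fun ω => ∀ j, e3 x p.1 p.2 (fam ω j) = 0) : ℕ) : ℝ) := h8
      _ ≤ ∑ _p ∈ Z, θ * Fintype.card Ω := Finset.sum_le_sum h5
      _ = #Z * (θ * Fintype.card Ω) := by rw [Finset.sum_const, nsmul_eq_mul]
      _ ≤ (qy * dz : ℝ) * (θ * Fintype.card Ω) := by
          refine mul_le_mul_of_nonneg_right ?_ h9
          exact_mod_cast hZcard
      _ = (qy * dz * θ) * Fintype.card Ω := by ring
  rcases sample X (fun ω P => ∀ j, (e3 P.1 P.2.1 P.2.2 : R3 k →+* k) (fam ω j) = 0)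
    ((badF : Finset Ω) : Set Ω) h3 hbadcard with hβ | ⟨ω, hω, X', hX'X, hX', hcount⟩
  · exact Or.inl hβ
  right
  have hωZ : ∀ p ∈ Z, ∃ j, e3 x p.1 p.2 (fam ω j) ≠ 0 := by
    intro p hp
    by_contra hcon
    push Not at hcon
    apply hω
    rw [hbadF, Finset.mem_coe, Finset.mem_biUnion]
    exact ⟨p, hp, by simpa using hcon⟩
  obtain ⟨t, ht⟩ := generic_comb (k := k) (K := K) Z
    (fun p j => e3 x p.1 p.2 (fam ω j)) hωZ
  set f : R3 k := ∑ j : Fin m, C (C (C (t ^ (j : ℕ)))) * fam ω j with hf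
  have hfB : Bd3 dx dy dz f := Bd3_comb (fam ω) (hfam ω) (fun j => t ^ (j : ℕ))
  have hfZ : ∀ p ∈ Z, e3 x p.1 p.2 f ≠ 0 := by
    intro p hp
    rw [hf, e3_comb]
    exact ht p hp
  have hfX : ∀ P ∈ X', (e3 P.1 P.2.1 P.2.2 : R3 k →+* k) f = 0 := by
    intro P hP
    rw [hf, e3_comb]
    refine Finset.sum_eq_zero fun j _ => ?_
    rw [hX' P hP j, mul_zero]
  have hn' : (res1i F f Φ dz).natDegree ≤ 2 * dz * dy := natDegree_res1i hFd hfB hΦ
  have hres : ∀ (L : Type) [Field L] [IsAlgClosed L] (ψ : Polynomial k →+* L),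
      (res1 q F f Φ dz (2 * dz * dy)).map (mapRingHom ψ) =
      Wm ((q.map ψ).roots.bind fun y => (F.map (eval₂RingHom ψ y)).roots.map fun z =>
        ((f.map (eval₂RingHom ψ y)).eval z, (Φ.map (eval₂RingHom ψ y)).eval z)) := by
    intro L _ _ ψ
    exact res1_eq ψ q hq F f Φ hF dz (2 * dz * dy) hfB.1 hΦ.1 hn'
  have hgen := hres K φ
  obtain ⟨ν, hs, hclosed⟩ := elim_coeff φ hinj _ _ hgen (by
    intro e he
    rw [Multiset.mem_bind] at he
    obtain ⟨y, hy, he⟩ := he
    rw [Multiset.mem_map] at he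
    obtain ⟨z, hz, rfl⟩ := he
    rw [hφ, C6_eval, C6_eval]
    by_cases hΦ0 : e3 x y z Φ = 0
    · exact Or.inr hΦ0
    · left
      refine hfZ (y, z) ?_
      rw [hZ, Finset.mem_filter]
      refine ⟨?_, hΦ0⟩
      rw [Multiset.mem_toFinset, hM, Multiset.mem_bind]
      exact ⟨y, hy, Multiset.mem_map.2 ⟨z, hz, rfl⟩⟩)
  set s : Polynomial k := ((res1 q F f Φ dz (2 * dz * dy)).coeff ν).coeff 0 with hsdef
  have hsdeg : s.natDegree ≤ (qy + 2 * dz * dy) * (qx + 2 * dz * dx) :=
    natDegree_res1 hqd hFd hfB hΦ ν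
  have hsX : ∀ P ∈ X', (e1 P.1 : Polynomial k →+* k) s = 0 := by
    intro P hP
    have hPX := hX'X hP
    let L := AlgebraicClosure k
    have hψ := hclosed L ((algebraMap k L).comp (e1 P.1 : Polynomial k →+* k)) _
      (hres L ((algebraMap k L).comp (e1 P.1 : Polynomial k →+* k)))
    have h10 := hψ (by
      refine ⟨((f.map (eval₂RingHom ((algebraMap k L).comp (e1 P.1 : Polynomial k →+* k))
          (algebraMap k L P.2.1))).eval (algebraMap k L P.2.2),
        (Φ.map (eval₂RingHom ((algebraMap k L).comp (e1 P.1 : Polynomial k →+* k))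
          (algebraMap k L P.2.1))).eval (algebraMap k L P.2.2)), ?_, ?_, ?_⟩
      · rw [Multiset.mem_bind]
        refine ⟨algebraMap k L P.2.1, ?_, ?_⟩
        · rw [mem_roots (hq.map _).ne_zero, IsRoot.def, eval_map, ← hom_eval₂]
          have h11 : eval₂ (e1 P.1 : Polynomial k →+* k) P.2.1 q = 0 := h0 P hPX
          rw [h11, map_zero]
        · rw [Multiset.mem_map]
          refine ⟨algebraMap k L P.2.2, ?_, rfl⟩
          rw [mem_roots (hF.map _).ne_zero, IsRoot.def, eval_map, C6_comp2, ← hom_eval₂]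
          have h11 : eval₂ (e2 P.1 P.2.1 : Polynomial (Polynomial k) →+* k) P.2.2 F = 0 :=
            h1 P hPX
          rw [h11, map_zero]
      · change (f.map _).eval _ = 0
        rw [eval_map, C6_comp2, ← hom_eval₂]
        have h11 : eval₂ (e2 P.1 P.2.1 : Polynomial (Polynomial k) →+* k) P.2.2 f = 0 :=
          hfX P hP
        rw [h11, map_zero]
      · change (Φ.map _).eval _ ≠ 0
        rw [eval_map, C6_comp2, ← hom_eval₂]
        intro h11
        apply h2 P hPX
        exact (map_eq_zero _).1 h11)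
    rw [RingHom.comp_apply] at h10
    exact (map_eq_zero _).1 h10
  have hcard := card_points X' hs hq hF (fun P hP =>
    ⟨hsX P hP, h0 P (hX'X hP), h1 P (hX'X hP)⟩)
  have hcard2 : #X' ≤ (qy + 2 * dz * dy) * (qx + 2 * dz * dx) * qy * dz := by
    refine hcard.trans ?_
    exact Nat.mul_le_mul (Nat.mul_le_mul hsdeg hqd.1) hFd.1
  have hcard3 : (#X' : ℝ) ≤ (qy + 2 * dz * dy) * (qx + 2 * dz * dx) * qy * dz := by
    exact_mod_cast hcard2
  calc η * #X ≤ #X' + qy * dz * θ * #X := hcount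
    _ ≤ (qy + 2 * dz * dy) * (qx + 2 * dz * dx) * qy * dz + qy * dz * θ * #X := by
        linarith

end Pool.Agent.Lib.MP_3bb35d_al.UE
end

section

/-!
# The number of words of length `m` with a given value in the free group
-/

set_option autoImplicit false

namespace Pool.Agent.Lib.MP_3bb35d_al.UE

private theorem W2_norm_cons (x : Bool × Bool) (g : F2) (hd : Bool × Bool) (tl : List (Bool × Bool))
    (hg : g.toWord = hd :: tl) :
    (FreeGroup.mk [x] * g).norm = if x.1 = hd.1 ∧ x.2 = !hd.2 then tl.length else tl.length + 2 := by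
  rw [FreeGroup.norm, FreeGroup.toWord_mul, FreeGroup.toWord_mk, FreeGroup.reduce_singleton]
  rw [List.singleton_append, FreeGroup.reduce.cons, FreeGroup.reduce_toWord, hg]
  simp only
  split_ifs <;> simp

private theorem W2_norm_nil (x : Bool × Bool) (g : F2) (hg : g.toWord = []) :
    (FreeGroup.mk [x] * g).norm = 1 := by
  rw [FreeGroup.norm, FreeGroup.toWord_mul, FreeGroup.toWord_mk, FreeGroup.reduce_singleton]
  rw [hg]
  simp

/-- PROOF. For `g ≠ 1` exactly one of the four elements `s⁻¹ g` (`s` a letter) has norm `norm g - 1` and the other three have norm `norm g + 1`; for `g = 1` all four have norm one. Precisely: every letter changes the norm by `±1`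
(parity and `norm_mul_le`) and if both `s⁻¹ g`, `s'⁻¹ g` are shorter than `g` then the reduced word of `g` begins with `s` and with `s'`, so `s = s'`. (`FreeGroup.toWord`, `FreeGroup.reduce`, `List.IsChain`.) -/
theorem norm_letters (g : F2) :
    (∑ i : Fin 4, ((√3)⁻¹ : ℝ) ^ ((lt fx fy i)⁻¹ * g).norm) ≤ 2 * √3 * ((√3)⁻¹ : ℝ) ^ g.norm := by
  have h0 : (lt fx fy 0)⁻¹ = FreeGroup.mk [(true, false)] := rfl
  have h1 : (lt fx fy 1)⁻¹ = FreeGroup.mk [(true, true)] := rfl
  have h2 : (lt fx fy 2)⁻¹ = FreeGroup.mk [(false, false)] := rfl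
  have h3 : (lt fx fy 3)⁻¹ = FreeGroup.mk [(false, true)] := rfl
  have hs : (0 : ℝ) < √3 := by positivity
  have hss : √3 * √3 = (3 : ℝ) := Real.mul_self_sqrt (by norm_num)
  rw [Fin.sum_univ_four, h0, h1, h2, h3]
  rcases hg : g.toWord with _ | ⟨hd, tl⟩
  · rw [W2_norm_nil _ _ hg, W2_norm_nil _ _ hg, W2_norm_nil _ _ hg, W2_norm_nil _ _ hg]
    have : g.norm = 0 := by rw [FreeGroup.norm, hg]; rfl
    rw [this]
    have h4 : (√3)⁻¹ = √3 / 3 := by
      field_simp; nlinarith
    rw [pow_zero, pow_one, h4]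
    linarith
  · rw [W2_norm_cons _ _ _ _ hg, W2_norm_cons _ _ _ _ hg, W2_norm_cons _ _ _ _ hg,
      W2_norm_cons _ _ _ _ hg]
    have : g.norm = tl.length + 1 := by rw [FreeGroup.norm, hg]; rfl
    rw [this]
    have hr : (√3)⁻¹ * √3 = (1 : ℝ) := inv_mul_cancel₀ hs.ne'
    have hrr : (√3)⁻¹ * (√3)⁻¹ = (1 / 3 : ℝ) := by
      rw [← mul_inv, hss]; norm_num
    have key : 2 * √3 * ((√3)⁻¹ : ℝ) ^ (tl.length + 1) = 2 * ((√3)⁻¹ : ℝ) ^ tl.length := by
      rw [pow_succ]; linear_combination (2 * ((√3)⁻¹ : ℝ) ^ tl.length) * hr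
    have key2 : ((√3)⁻¹ : ℝ) ^ (tl.length + 2) = (1 / 3) * ((√3)⁻¹ : ℝ) ^ tl.length := by
      rw [pow_add, sq, hrr]; ring
    rw [key]
    rcases hd with ⟨a, b⟩
    cases a <;> cases b <;> simp [key2] <;> linarith

private theorem W2_wd_cons (m : ℕ) (i : Fin 4) (B : Fin m → Fin 4) :
    wd fx fy (Fin.cons i B : Fin (m + 1) → Fin 4) = lt fx fy i * wd fx fy B := by
  rw [wd, wd, List.ofFn_succ, List.prod_cons]
  simp

/-- PROOF: induction on `m`; a word of length `m + 1` is a letter `s` and a word of length `m` (`Fin.consEquiv` or `Fin.cons`, `List.ofFn_succ`) with the value `s⁻¹ g`; `norm_letters`. -/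
theorem card_wd_eq (m : ℕ) (g : F2) :
    ({A : Fin m → Fin 4 | wd fx fy A = g}.ncard : ℝ) ≤ (2 * √3) ^ m * ((√3)⁻¹ : ℝ) ^ g.norm := by
  have hs : (0 : ℝ) < √3 := by positivity
  induction m generalizing g with
  | zero =>
    by_cases hg : g = 1
    · subst hg
      rw [FreeGroup.norm_one, pow_zero, pow_zero, mul_one]
      have : {A : Fin 0 → Fin 4 | wd fx fy A = 1}.ncard ≤ 1 := Set.ncard_le_one_of_subsingleton _
      exact_mod_cast this
    · have : {A : Fin 0 → Fin 4 | wd fx fy A = g} = ∅ := by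
        ext A
        simp only [Set.mem_ofPred_eq, Set.mem_empty_iff_false, iff_false]
        intro h
        apply hg
        rw [← h, wd]
        simp
      rw [this, Set.ncard_empty, Nat.cast_zero]
      positivity
  | succ m ih =>
    have hsub : {A : Fin (m + 1) → Fin 4 | wd fx fy A = g} ⊆
        ⋃ i ∈ (Finset.univ : Finset (Fin 4)), (fun B : Fin m → Fin 4 => (Fin.cons i B : Fin (m + 1) → Fin 4)) ''
          {B : Fin m → Fin 4 | wd fx fy B = (lt fx fy i)⁻¹ * g} := by
      intro A hA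
      simp only [Set.mem_iUnion]
      refine ⟨A 0, Finset.mem_univ _, Fin.tail A, ?_, Fin.cons_self_tail A⟩
      have h := W2_wd_cons m (A 0) (Fin.tail A)
      rw [Fin.cons_self_tail] at h
      simp only [Set.mem_ofPred_eq] at hA ⊢
      rw [← hA, h]
      group
    have h1 : {A : Fin (m + 1) → Fin 4 | wd fx fy A = g}.ncard ≤
        ∑ i : Fin 4, {B : Fin m → Fin 4 | wd fx fy B = (lt fx fy i)⁻¹ * g}.ncard := by
      refine (Set.ncard_le_ncard hsub (Set.toFinite _)).trans ?_
      refine (Finset.set_ncard_biUnion_le _ _).trans ?_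
      exact Finset.sum_le_sum fun i _ => Set.ncard_image_le (Set.toFinite _)
    calc ({A : Fin (m + 1) → Fin 4 | wd fx fy A = g}.ncard : ℝ)
        ≤ ((∑ i : Fin 4, {B : Fin m → Fin 4 | wd fx fy B = (lt fx fy i)⁻¹ * g}.ncard : ℕ) : ℝ) := by
          exact_mod_cast h1
      _ = ∑ i : Fin 4, ({B : Fin m → Fin 4 | wd fx fy B = (lt fx fy i)⁻¹ * g}.ncard : ℝ) := by
          push_cast; rfl
      _ ≤ ∑ i : Fin 4, (2 * √3) ^ m * ((√3)⁻¹ : ℝ) ^ ((lt fx fy i)⁻¹ * g).norm :=
          Finset.sum_le_sum fun i _ => ih _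
      _ = (2 * √3) ^ m * ∑ i : Fin 4, ((√3)⁻¹ : ℝ) ^ ((lt fx fy i)⁻¹ * g).norm := by
          rw [Finset.mul_sum]
      _ ≤ (2 * √3) ^ m * (2 * √3 * ((√3)⁻¹ : ℝ) ^ g.norm) :=
          mul_le_mul_of_nonneg_left (norm_letters g) (by positivity)
      _ = (2 * √3) ^ (m + 1) * ((√3)⁻¹ : ℝ) ^ g.norm := by ring

theorem card_wd_le (l : ℕ) (g : F2) :
    {A : Fin (2 * l) → Fin 4 | wd fx fy A = g}.ncard ≤ 12 ^ l := by
  have h := card_wd_eq (2 * l) g
  have hs : (0 : ℝ) < √3 := by positivity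
  have hss : √3 ^ 2 = (3 : ℝ) := Real.sq_sqrt (by norm_num)
  have h1 : (1 : ℝ) ≤ √3 := by
    nlinarith
  have h2 : ((√3)⁻¹ : ℝ) ^ g.norm ≤ 1 := pow_le_one₀ (by positivity) (inv_le_one_of_one_le₀ h1)
  have h3 : (2 * √3) ^ (2 * l) = (12 : ℝ) ^ l := by
    rw [pow_mul, mul_pow, hss]; norm_num
  have h4 : ({A : Fin (2 * l) → Fin 4 | wd fx fy A = g}.ncard : ℝ) ≤ (12 : ℝ) ^ l := by
    calc _ ≤ _ := h
      _ ≤ (2 * √3) ^ (2 * l) * 1 := mul_le_mul_of_nonneg_left h2 (by positivity)
      _ = _ := by rw [mul_one, h3]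
  exact_mod_cast h4

/-- PROOF: `norm_mul_le`, `norm_of`, `norm_inv_eq`. -/
theorem norm_wd_le (m : ℕ) (A : Fin m → Fin 4) : (wd fx fy A).norm ≤ m := by
  induction m with
  | zero => simp [wd]
  | succ m ih =>
    have h := W2_wd_cons m (A 0) (Fin.tail A)
    rw [Fin.cons_self_tail] at h
    rw [h]
    refine (FreeGroup.norm_mul_le _ _).trans ?_
    have h1 : (lt fx fy (A 0)).norm ≤ 1 := by
      generalize A 0 = i
      fin_cases i <;> simp [lt, fx, fy, FreeGroup.norm_inv_eq]
    have := ih (Fin.tail A)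
    omega

end Pool.Agent.Lib.MP_3bb35d_al.UE
end
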