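import Pool.Agent.Lib.MP_3bb35d_al.Mg.G022
import Pool.Agent.Lib.MP_3bb35d_al.Mg.G020

section

/-!
# Pairs of words
-/

set_option autoImplicit false

namespace Pool.Agent.Lib.MP_3bb35d_al.UE

private theorem W3a_fib {α β : Type*} [Finite α] (f : α → β) (S : Set α) {V : Set β}
    (hV : V.Finite) (hS : ∀ a ∈ S, f a ∈ V) (n : ℕ)
    (hn : ∀ b ∈ V, {a | a ∈ S ∧ f a = b}.ncard ≤ n) : S.ncard ≤ n * V.ncard := by
  classical
  have hSf : S.Finite := Set.toFinite S
  have h1 : hSf.toFinset.card ≤ n * (hSf.toFinset.image f).card := by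
    refine Finset.card_le_mul_card_image _ n fun b hb => ?_
    obtain ⟨a, ha, rfl⟩ := Finset.mem_image.mp hb
    have h2 := hn (f a) (hS a (hSf.mem_toFinset.mp ha))
    have h3 : {x | x ∈ S ∧ f x = f a} = ((hSf.toFinset.filter fun x => f x = f a : Finset α) : Set α) := by
      ext x
      simp
    rw [h3, Set.ncard_coe_finset] at h2
    exact h2
  rw [Set.ncard_eq_toFinset_card S hSf, Set.ncard_eq_toFinset_card V hV]
  refine h1.trans (Nat.mul_le_mul_left n (Finset.card_le_card ?_))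
  intro b hb
  obtain ⟨a, ha, rfl⟩ := Finset.mem_image.mp hb
  exact hV.mem_toFinset.mpr (hS a (hSf.mem_toFinset.mp ha))

private theorem W3a_pairs {α : Type*} [Fintype α] (S : Set (α × α)) (n : ℕ)
    (hn : ∀ a, {b | (a, b) ∈ S}.ncard ≤ n) : S.ncard ≤ n * Fintype.card α := by
  have h := W3a_fib (fun e : α × α => e.1) S (V := Set.univ) Set.finite_univ
    (fun _ _ => Set.mem_univ _) n ?_
  · rwa [Set.ncard_univ, Nat.card_eq_fintype_card] at h
  · intro a _
    refine le_trans ?_ (hn a)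
    refine Set.ncard_le_ncard_of_injOn (fun e : α × α => e.2) ?_ ?_ (Set.toFinite _)
    · rintro ⟨x, y⟩ ⟨h1, h2⟩
      subst h2
      exact h1
    · rintro ⟨x, y⟩ ⟨_, h2⟩ ⟨x', y'⟩ ⟨_, h2'⟩ h3
      simp only at h2 h2' h3
      rw [h2, h2', h3]

/-- Sets of words with values in a finite set. PROOF: sum over the values, `card_wd_le`. -/
theorem card_wd_mem (l : ℕ) {V : Set F2} {c : ℕ} (hV : V.Finite) (hc : V.ncard ≤ c) :
    {A : Fin (2 * l) → Fin 4 | wd fx fy A ∈ V}.ncard ≤ c * 12 ^ l := by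
  have h := W3a_fib (fun A : Fin (2 * l) → Fin 4 => wd fx fy A)
    {A : Fin (2 * l) → Fin 4 | wd fx fy A ∈ V} hV (fun _ h => h) (12 ^ l) ?_
  · calc _ ≤ 12 ^ l * V.ncard := h
      _ ≤ 12 ^ l * c := Nat.mul_le_mul_left _ hc
      _ = c * 12 ^ l := mul_comm _ _
  · intro g _
    refine le_trans (Set.ncard_le_ncard ?_ (Set.toFinite _)) (card_wd_le l g)
    rintro A ⟨_, h2⟩
    exact h2

/-- Commuting pairs. PROOF: `A` with value one: at most `12 ^ l`, times `16 ^ l`. For each of the other `A` (at most `16 ^ l`) the value of `B` is in the centralizer of the value of `A` and of norm at most `2 l`: `card_centralizer`, `card_wd_mem`: at most `(4 l + 1) 12 ^ l`. -/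
theorem card_commuting (l : ℕ) :
    {e : (Fin (2 * l) → Fin 4) × (Fin (2 * l) → Fin 4) |
      wd fx fy e.1 * wd fx fy e.2 = wd fx fy e.2 * wd fx fy e.1}.ncard ≤
      (4 * l + 2) * 12 ^ l * 16 ^ l := by
  have hcard : Fintype.card (Fin (2 * l) → Fin 4) = 16 ^ l := by
    rw [Fintype.card_fun, Fintype.card_fin, Fintype.card_fin, pow_mul]
    norm_num
  set E1 : Set ((Fin (2 * l) → Fin 4) × (Fin (2 * l) → Fin 4)) :=
    {e | wd fx fy e.2 ∈ ({1} : Set F2)} with hE1
  set E2 : Set ((Fin (2 * l) → Fin 4) × (Fin (2 * l) → Fin 4)) :=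
    {e | wd fx fy e.2 ≠ 1 ∧ wd fx fy e.1 * wd fx fy e.2 = wd fx fy e.2 * wd fx fy e.1} with hE2
  have hsub : {e : (Fin (2 * l) → Fin 4) × (Fin (2 * l) → Fin 4) |
      wd fx fy e.1 * wd fx fy e.2 = wd fx fy e.2 * wd fx fy e.1} ⊆ E1 ∪ E2 := by
    intro e he
    by_cases h1 : wd fx fy e.2 = 1
    · left
      exact h1
    · right
      exact ⟨h1, he⟩
  have h1 : E1.ncard ≤ (1 * 12 ^ l) * 16 ^ l := by
    rw [← hcard]
    refine W3a_pairs E1 _ fun a => ?_
    exact card_wd_mem l (Set.finite_singleton 1) (by rw [Set.ncard_singleton])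
  have h2 : E2.ncard ≤ ((4 * l + 1) * 12 ^ l) * 16 ^ l := by
    have hsw : E2.ncard ≤ (Prod.swap ⁻¹' E2).ncard := by
      refine Set.ncard_le_ncard_of_injOn Prod.swap ?_ Prod.swap_injective.injOn (Set.toFinite _)
      intro e he
      show Prod.swap (Prod.swap e) ∈ E2
      rw [Prod.swap_swap]
      exact he
    refine hsw.trans ?_
    rw [← hcard]
    refine W3a_pairs (Prod.swap ⁻¹' E2) _ fun a => ?_
    by_cases ha : wd fx fy a = 1
    · have h3 : {b | (a, b) ∈ Prod.swap ⁻¹' E2} = ∅ := by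
        ext b
        simp only [Set.mem_setOf_eq, Set.mem_preimage, Prod.swap_prod_mk, Set.mem_empty_iff_false,
          iff_false]
        rintro ⟨h4, _⟩
        exact h4 ha
      rw [h3, Set.ncard_empty]
      exact Nat.zero_le _
    · obtain ⟨hf, hn⟩ := card_centralizer ha (2 * l)
      have h4 := card_wd_mem l hf hn
      rw [show 2 * (2 * l) + 1 = 4 * l + 1 by ring] at h4
      refine le_trans (Set.ncard_le_ncard ?_ (Set.toFinite _)) h4
      rintro b ⟨_, h5⟩
      exact ⟨h5, norm_wd_le _ b⟩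
  calc _ ≤ (E1 ∪ E2).ncard := Set.ncard_le_ncard hsub (Set.toFinite _)
    _ ≤ E1.ncard + E2.ncard := Set.ncard_union_le _ _
    _ ≤ (1 * 12 ^ l) * 16 ^ l + ((4 * l + 1) * 12 ^ l) * 16 ^ l := Nat.add_le_add h1 h2
    _ = (4 * l + 2) * 12 ^ l * 16 ^ l := by ring

/-- Pairs with a given commutator of the 240th powers. PROOF: `y ≠ 1` so the value of `C` is not one; for each of the (at most `16 ^ l`) words `C` the value of `D` is in the set of `card_cm_eq` with `L = 2 l`. -/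
theorem card_cm_pairs (l : ℕ) {y : F2} (hy : y ≠ 1) :
    {e : (Fin (2 * l) → Fin 4) × (Fin (2 * l) → Fin 4) |
      cm (wd fx fy e.1 ^ 240) (wd fx fy e.2 ^ 240) = y}.ncard ≤
      (1920 * l + 1) * 12 ^ l * 16 ^ l := by
  have hcard : Fintype.card (Fin (2 * l) → Fin 4) = 16 ^ l := by
    rw [Fintype.card_fun, Fintype.card_fin, Fintype.card_fin, pow_mul]
    norm_num
  rw [← hcard]
  refine W3a_pairs _ _ fun a => ?_
  by_cases ha : wd fx fy a = 1
  · have h3 : {b | (a, b) ∈ {e : (Fin (2 * l) → Fin 4) × (Fin (2 * l) → Fin 4) |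
        cm (wd fx fy e.1 ^ 240) (wd fx fy e.2 ^ 240) = y}} = ∅ := by
      ext b
      simp only [Set.mem_setOf_eq, Set.mem_empty_iff_false, iff_false]
      intro h4
      apply hy
      rw [← h4, ha]
      simp [cm]
    rw [h3, Set.ncard_empty]
    exact Nat.zero_le _
  · obtain ⟨hf, hn⟩ := card_cm_eq ha y (2 * l)
    have h4 := card_wd_mem l hf hn
    rw [show 960 * (2 * l) + 1 = 1920 * l + 1 by ring] at h4
    refine le_trans (Set.ncard_le_ncard ?_ (Set.toFinite _)) h4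
    intro b h5
    exact ⟨h5, norm_wd_le _ b⟩

end Pool.Agent.Lib.MP_3bb35d_al.UE
end

section

/-!
# Quadruples of words satisfying the law
-/

set_option autoImplicit false

namespace Pool.Agent.Lib.MP_3bb35d_al.UE

private theorem W3b_norm_pow (a : F2) (k : ℕ) : (a ^ k).norm ≤ k * a.norm := by
  induction k with
  | zero => simp
  | succ k ih =>
    rw [pow_succ]
    refine (FreeGroup.norm_mul_le _ _).trans ?_
    have : (k + 1) * a.norm = k * a.norm + a.norm := by ring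
    omega

private theorem W3b_norm_cm (a b : F2) : (cm a b).norm ≤ 2 * a.norm + 2 * b.norm := by
  unfold cm
  have h1 := FreeGroup.norm_mul_le (a * b * a⁻¹) b⁻¹
  have h2 := FreeGroup.norm_mul_le (a * b) a⁻¹
  have h3 := FreeGroup.norm_mul_le a b
  rw [FreeGroup.norm_inv_eq] at h1 h2
  omega

private theorem W3b_cm_eq_one {G : Type*} [Group G] {a b : G} (h : cm a b = 1) :
    a * b = b * a := by
  unfold cm at h
  have h1 : a * b * a⁻¹ * b⁻¹ * b * a = b * a := by rw [h, one_mul]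
  simpa using h1

private theorem W3b_norm_cm_wd {m : ℕ} (A B : Fin m → Fin 4) :
    (cm (wd fx fy A ^ 240) (wd fx fy B ^ 240)).norm ≤ 960 * m := by
  have h1 := W3b_norm_cm (wd fx fy A ^ 240) (wd fx fy B ^ 240)
  have h2 := W3b_norm_pow (wd fx fy A) 240
  have h3 := W3b_norm_pow (wd fx fy B) 240
  have h4 := norm_wd_le m A
  have h5 := norm_wd_le m B
  omega

/-- PROOF: the value `y ≠ 1` of the commutator of `e` commutes with `x ≠ 1` and has norm at most `4 * 240 * 2 l = 1920 l`: by `card_centralizer` at most `3840 l + 1` values, for each `card_cm_pairs`. -/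
theorem card_cm_commuting (l : ℕ) {x : F2} (hx : x ≠ 1) :
    {e : (Fin (2 * l) → Fin 4) × (Fin (2 * l) → Fin 4) |
      cm (wd fx fy e.1 ^ 240) (wd fx fy e.2 ^ 240) ≠ 1 ∧
      cm x (cm (wd fx fy e.1 ^ 240) (wd fx fy e.2 ^ 240)) = 1}.ncard ≤
      (3840 * l + 1) * ((1920 * l + 1) * 12 ^ l * 16 ^ l) := by
  classical
  set S : Set F2 := {g : F2 | g * x = x * g ∧ g.norm ≤ 1920 * l} with hS
  obtain ⟨hfin, hcard⟩ := card_centralizer hx (1920 * l)
  set V : Finset F2 := hfin.toFinset.filter (fun y => y ≠ 1) with hV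
  have hVcard : V.card ≤ 3840 * l + 1 := by
    have h1 : V.card ≤ hfin.toFinset.card := Finset.card_filter_le _ _
    have h2 : hfin.toFinset.card = {g : F2 | g * x = x * g ∧ g.norm ≤ 1920 * l}.ncard :=
      (Set.ncard_eq_toFinset_card _ hfin).symm
    omega
  set T : Set ((Fin (2 * l) → Fin 4) × (Fin (2 * l) → Fin 4)) :=
    {e | cm (wd fx fy e.1 ^ 240) (wd fx fy e.2 ^ 240) ≠ 1 ∧
      cm x (cm (wd fx fy e.1 ^ 240) (wd fx fy e.2 ^ 240)) = 1} with hT
  set U : F2 → Finset ((Fin (2 * l) → Fin 4) × (Fin (2 * l) → Fin 4)) := fun y =>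
    (Set.toFinite {e : (Fin (2 * l) → Fin 4) × (Fin (2 * l) → Fin 4) |
      cm (wd fx fy e.1 ^ 240) (wd fx fy e.2 ^ 240) = y}).toFinset with hU
  have hsub : (Set.toFinite T).toFinset ⊆ V.biUnion U := by
    intro e he
    rw [Set.Finite.mem_toFinset] at he
    obtain ⟨h1, h2⟩ := he
    rw [Finset.mem_biUnion]
    refine ⟨cm (wd fx fy e.1 ^ 240) (wd fx fy e.2 ^ 240), ?_, ?_⟩
    · rw [hV, Finset.mem_filter, Set.Finite.mem_toFinset]
      refine ⟨⟨(W3b_cm_eq_one h2).symm, ?_⟩, h1⟩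
      have := W3b_norm_cm_wd e.1 e.2
      omega
    · rw [hU]
      simp only [Set.Finite.mem_toFinset, Set.mem_ofPred_eq]
  rw [Set.ncard_eq_toFinset_card T (Set.toFinite T)]
  refine (Finset.card_le_card hsub).trans ?_
  refine (Finset.card_biUnion_le_card_mul V U ((1920 * l + 1) * 12 ^ l * 16 ^ l) ?_).trans
    (Nat.mul_le_mul_right _ hVcard)
  intro y hy
  have hy1 : y ≠ 1 := (Finset.mem_filter.1 hy).2
  have h := card_cm_pairs l hy1
  rw [Set.ncard_eq_toFinset_card _ (Set.toFinite _)] at h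
  exact h

private theorem W3b_fiber {α β : Type} [Fintype α] [Fintype β] (S : Set (α × β)) (c : ℕ)
    (h : ∀ a, {b | (a, b) ∈ S}.ncard ≤ c) : S.ncard ≤ Fintype.card α * c := by
  classical
  have h1 : S ⊆ ⋃ a : α, (fun b => (a, b)) '' {b | (a, b) ∈ S} := by
    rintro ⟨a, b⟩ hab
    exact Set.mem_iUnion.2 ⟨a, b, hab, rfl⟩
  refine (Set.ncard_le_ncard h1 (Set.toFinite _)).trans ?_
  refine (Set.ncard_iUnion_le_of_fintype _).trans ?_
  refine (Finset.sum_le_card_nsmul _ _ c ?_).trans_eq ?_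
  · intro a _
    exact (Set.ncard_image_le (Set.toFinite _)).trans (h a)
  · rw [Finset.card_univ, smul_eq_mul]

private theorem W3b_fiber' {α β : Type} [Fintype α] [Fintype β] (S : Set (α × β)) (c : ℕ)
    (h : ∀ b, {a | (a, b) ∈ S}.ncard ≤ c) : S.ncard ≤ Fintype.card β * c := by
  classical
  have h1 := W3b_fiber (Prod.swap ⁻¹' S : Set (β × α)) c h
  have h2 : (Prod.swap ⁻¹' S : Set (β × α)).ncard = S.ncard := by
    rw [← Set.image_swap_eq_preimage_swap]
    exact Set.ncard_image_of_injective _ Prod.swap_injective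
  omega

/-- PROOF. Let `ω` be with `lw fx fy ω = 1`, `X` and `Y` the two inner commutators. `X = 1` implies that the values of `ω 0, ω 1` commute (`commute_of_pow`): at most `(4 l + 2) 12 ^ l 16 ^ l * (16 ^ l) ^ 2` such `ω`; `Y = 1`: the same bound.
Otherwise, for given `ω 0, ω 1` (at most `(16 ^ l) ^ 2`) `card_cm_commuting`. The sum is at most `16 ^ (3 l) 12 ^ l (2 (4 l + 2) + (3840 l + 1) (1920 l + 1)) ≤ 8000000 l² (3/4) ^ l 4 ^ (8 l)`. -/
theorem card_law (l : ℕ) (hl : 1 ≤ l) :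
    ({ω : Om (2 * l) | lw fx fy ω = 1}.ncard : ℝ) ≤
      8000000 * (l : ℝ) ^ 2 * (3 / 4) ^ l * 4 ^ (8 * l) := by
  classical
  let W : Type := Fin (2 * l) → Fin 4
  let P : Type := W × W
  have hW : Fintype.card W = 16 ^ l := by
    change Fintype.card (Fin (2 * l) → Fin 4) = 16 ^ l
    rw [Fintype.card_fun, Fintype.card_fin, Fintype.card_fin, pow_mul]
    norm_num
  have hP : Fintype.card P = 16 ^ l * 16 ^ l := by
    change Fintype.card (W × W) = _
    rw [Fintype.card_prod, hW]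
  let φ : Om (2 * l) → P × P := fun ω => ((ω 0, ω 1), (ω 2, ω 3))
  have hφ : Function.Injective φ := by
    intro ω ω' h
    have h0 : ω 0 = ω' 0 := congrArg (fun z : P × P => z.1.1) h
    have h1 : ω 1 = ω' 1 := congrArg (fun z : P × P => z.1.2) h
    have h2 : ω 2 = ω' 2 := congrArg (fun z : P × P => z.2.1) h
    have h3 : ω 3 = ω' 3 := congrArg (fun z : P × P => z.2.2) h
    funext i
    fin_cases i
    · exact h0
    · exact h1
    · exact h2
    · exact h3
  let C : P → F2 := fun e => cm (wd fx fy e.1 ^ 240) (wd fx fy e.2 ^ 240)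
  set S1 : Set (P × P) := {z | C z.1 = 1} with hS1
  set S2 : Set (P × P) := {z | C z.2 = 1} with hS2
  set S3 : Set (P × P) := {z | C z.1 ≠ 1 ∧ C z.2 ≠ 1 ∧ cm (C z.1) (C z.2) = 1} with hS3
  have hcomm : {e : P | C e = 1}.ncard ≤ (4 * l + 2) * 12 ^ l * 16 ^ l := by
    refine (Set.ncard_le_ncard ?_ (Set.toFinite _)).trans (card_commuting l)
    intro e he
    have h1 : C e = 1 := he
    exact commute_of_pow (m := 240) (n := 240) (by norm_num) (by norm_num) (W3b_cm_eq_one h1)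
  have c1 : S1.ncard ≤ Fintype.card P * ((4 * l + 2) * 12 ^ l * 16 ^ l) :=
    W3b_fiber' S1 _ (fun b => hcomm)
  have c2 : S2.ncard ≤ Fintype.card P * ((4 * l + 2) * 12 ^ l * 16 ^ l) :=
    W3b_fiber S2 _ (fun a => hcomm)
  have c3 : S3.ncard ≤ Fintype.card P * ((3840 * l + 1) * ((1920 * l + 1) * 12 ^ l * 16 ^ l)) := by
    refine W3b_fiber S3 _ (fun a => ?_)
    by_cases ha : C a = 1
    · have h1 : {b | (a, b) ∈ S3} = ∅ := by
        ext b
        simp only [Set.mem_ofPred_eq, Set.mem_empty_iff_false, iff_false]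
        intro hb
        exact hb.1 ha
      rw [h1, Set.ncard_empty]
      exact Nat.zero_le _
    · refine (Set.ncard_le_ncard ?_ (Set.toFinite _)).trans (card_cm_commuting l ha)
      intro b hb
      exact ⟨hb.2.1, hb.2.2⟩
  have hsub : φ '' {ω : Om (2 * l) | lw fx fy ω = 1} ⊆ (S1 ∪ S2) ∪ S3 := by
    rintro _ ⟨ω, hω, rfl⟩
    have hω' : cm (C (ω 0, ω 1)) (C (ω 2, ω 3)) = 1 := hω
    by_cases h1 : C (ω 0, ω 1) = 1
    · exact Or.inl (Or.inl h1)
    · by_cases h2 : C (ω 2, ω 3) = 1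
      · exact Or.inl (Or.inr h2)
      · exact Or.inr ⟨h1, h2, hω'⟩
  have hn : {ω : Om (2 * l) | lw fx fy ω = 1}.ncard ≤
      (16 ^ l * 16 ^ l) * ((4 * l + 2) * 12 ^ l * 16 ^ l) +
      (16 ^ l * 16 ^ l) * ((4 * l + 2) * 12 ^ l * 16 ^ l) +
      (16 ^ l * 16 ^ l) * ((3840 * l + 1) * ((1920 * l + 1) * 12 ^ l * 16 ^ l)) := by
    rw [← Set.ncard_image_of_injective _ hφ]
    refine (Set.ncard_le_ncard hsub (Set.toFinite _)).trans ?_
    refine (Set.ncard_union_le _ _).trans ?_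
    rw [hP] at c1 c2 c3
    exact Nat.add_le_add ((Set.ncard_union_le _ _).trans (Nat.add_le_add c1 c2)) c3
  have hpoly : (4 * l + 2) + (4 * l + 2) + (3840 * l + 1) * (1920 * l + 1) ≤
      8000000 * l ^ 2 := by
    nlinarith [hl, Nat.mul_le_mul hl hl]
  have hn2 : {ω : Om (2 * l) | lw fx fy ω = 1}.ncard ≤
      8000000 * l ^ 2 * (16 ^ l * 16 ^ l * 16 ^ l * 12 ^ l) := by
    refine hn.trans ?_
    have e1 : (16 ^ l * 16 ^ l) * ((4 * l + 2) * 12 ^ l * 16 ^ l) +
      (16 ^ l * 16 ^ l) * ((4 * l + 2) * 12 ^ l * 16 ^ l) +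
      (16 ^ l * 16 ^ l) * ((3840 * l + 1) * ((1920 * l + 1) * 12 ^ l * 16 ^ l)) =
      ((4 * l + 2) + (4 * l + 2) + (3840 * l + 1) * (1920 * l + 1)) *
        (16 ^ l * 16 ^ l * 16 ^ l * 12 ^ l) := by ring
    rw [e1]
    exact Nat.mul_le_mul_right _ hpoly
  have hn3 : ({ω : Om (2 * l) | lw fx fy ω = 1}.ncard : ℝ) ≤
      8000000 * (l : ℝ) ^ 2 * (16 ^ l * 16 ^ l * 16 ^ l * 12 ^ l) := by
    exact_mod_cast hn2
  refine hn3.trans_eq ?_
  have e2 : (3 / 4 : ℝ) ^ l * 4 ^ (8 * l) = 16 ^ l * 16 ^ l * 16 ^ l * 12 ^ l := by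
    rw [pow_mul, ← mul_pow, ← mul_pow, ← mul_pow, ← mul_pow]
    norm_num
  rw [mul_assoc (8000000 * (l : ℝ) ^ 2), e2]

/-- PROOF: `norm_wd_le`, `norm_mul_le`, `norm_inv_eq`: a power `a ^ 240` has norm at most `240 n`, each commutator multiplies the bound by four. -/
theorem norm_lw_le (n : ℕ) (ω : Om n) : (lw fx fy ω).norm ≤ 3840 * n := by
  have h1 := W3b_norm_cm_wd (ω 0) (ω 1)
  have h2 := W3b_norm_cm_wd (ω 2) (ω 3)
  have h3 := W3b_norm_cm (cm (wd fx fy (ω 0) ^ 240) (wd fx fy (ω 1) ^ 240))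
    (cm (wd fx fy (ω 2) ^ 240) (wd fx fy (ω 3) ^ 240))
  unfold lw law
  omega

end Pool.Agent.Lib.MP_3bb35d_al.UE
end
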