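import Pool.Agent.Lib.MP_3bb35d_al.Mg.G006
import Pool.Agent.Lib.MP_3bb35d_al.Mg.G024

section

/-!
# The representation and the words
-/

set_option autoImplicit false

namespace Pool.Agent.Lib.MP_3bb35d_al.UE

/-- Functoriality. PROOF: two homomorphisms of the free group which agree on the generators (`Units.map (φ.mapMatrix)`, `FreeGroup.ext_hom`). -/
theorem Rep_map {R S : Type*} [CommRing R] [CommRing S] (φ : R →+* S) (a b c : R) (w : F2) :
    ((Rep a b c w : (Matrix (Fin 4) (Fin 4) R)ˣ) : Matrix (Fin 4) (Fin 4) R).map φ =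
      ((Rep (φ a) (φ b) (φ c) w : (Matrix (Fin 4) (Fin 4) S)ˣ) : Matrix (Fin 4) (Fin 4) S) := by
  have h : (Units.map (φ.mapMatrix (m := Fin 4)).toMonoidHom).comp (Rep a b c) =
      Rep (φ a) (φ b) (φ c) := by
    refine FreeGroup.ext_hom _ _ fun t => ?_
    cases t
    · have h1 : Rep a b c (FreeGroup.of false) = uLy a b c := ev_fy _ _
      have h2 : Rep (φ a) (φ b) (φ c) (FreeGroup.of false) = uLy (φ a) (φ b) (φ c) := ev_fy _ _
      rw [MonoidHom.comp_apply, h1, h2]
      apply Units.ext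
      ext i j
      fin_cases i <;> fin_cases j <;> simp [uLy, Ly]
    · have h1 : Rep a b c (FreeGroup.of true) = uLx a b c := ev_fx _ _
      have h2 : Rep (φ a) (φ b) (φ c) (FreeGroup.of true) = uLx (φ a) (φ b) (φ c) := ev_fx _ _
      rw [MonoidHom.comp_apply, h1, h2]
      apply Units.ext
      ext i j
      fin_cases i <;> fin_cases j <;> simp [uLx, Lx]
  have h3 := congrArg (fun f => ((f w : (Matrix (Fin 4) (Fin 4) S)ˣ) : Matrix (Fin 4) (Fin 4) S)) h
  exact h3

/-- The element with the coordinates `q`. -/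
private def R1_Psi {F : Type*} [Field F] (X Y : Matrix (Fin 2) (Fin 2) F) (q : Fin 4 → F) :
    Matrix (Fin 2) (Fin 2) F := q 0 • 1 + q 1 • X + q 2 • Y + q 3 • (X * Y)

private theorem R1_x {F : Type*} [Field F] (X Y : Matrix (Fin 2) (Fin 2) F) (c : F)
    (hX : X 0 0 * X 1 1 - X 0 1 * X 1 0 = 1) (q : Fin 4 → F) (b : F) :
    R1_Psi X Y ((Lx (X 0 0 + X 1 1) b c).mulVec q) = X * R1_Psi X Y q := by
  ext i j
  fin_cases i <;> fin_cases j <;>
    simp [R1_Psi, Lx, Matrix.mulVec, dotProduct, Fin.sum_univ_four, Matrix.mul_apply,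
      Fin.sum_univ_two]
  · linear_combination (q 1 + q 3 * Y 0 0) * hX
  · linear_combination (q 3 * Y 0 1) * hX
  · linear_combination (q 3 * Y 1 0) * hX
  · linear_combination (q 1 + q 3 * Y 1 1) * hX

private theorem R1_y {F : Type*} [Field F] (X Y : Matrix (Fin 2) (Fin 2) F)
    (hY : Y 0 0 * Y 1 1 - Y 0 1 * Y 1 0 = 1) (q : Fin 4 → F) :
    R1_Psi X Y ((Ly (X 0 0 + X 1 1) (Y 0 0 + Y 1 1) ((X * Y) 0 0 + (X * Y) 1 1)).mulVec q) =
      Y * R1_Psi X Y q := by
  ext i j
  fin_cases i <;> fin_cases j <;>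
    simp [R1_Psi, Ly, Matrix.mulVec, dotProduct, Fin.sum_univ_four, Matrix.mul_apply,
      Fin.sum_univ_two]
  · linear_combination (q 2 - q 3 * (X 0 0 - (X 0 0 + X 1 1))) * hY
  · linear_combination (- q 3 * X 0 1) * hY
  · linear_combination (- q 3 * X 1 0) * hY
  · linear_combination (q 2 - q 3 * (X 1 1 - (X 0 0 + X 1 1))) * hY

private theorem R1_key {F : Type*} [Field F] (x y : Matrix.SpecialLinearGroup (Fin 2) F)
    (w : F2) : ∀ q : Fin 4 → F,
    R1_Psi x.1 y.1 ((Rep (tr x) (tr y) (tr (x * y)) w).val.mulVec q) =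
      (ev x y w).1 * R1_Psi x.1 y.1 q := by
  have hx : x.1 0 0 * x.1 1 1 - x.1 0 1 * x.1 1 0 = 1 := by
    rw [← Matrix.det_fin_two]; exact x.2
  have hy : y.1 0 0 * y.1 1 1 - y.1 0 1 * y.1 1 0 = 1 := by
    rw [← Matrix.det_fin_two]; exact y.2
  have hgx : ∀ q : Fin 4 → F,
      R1_Psi x.1 y.1 ((Rep (tr x) (tr y) (tr (x * y)) fx).val.mulVec q) =
        (ev x y fx).1 * R1_Psi x.1 y.1 q := by
    intro q
    have h1 : Rep (tr x) (tr y) (tr (x * y)) fx = uLx (tr x) (tr y) (tr (x * y)) := ev_fx _ _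
    rw [h1, ev_fx]
    exact R1_x x.1 y.1 (tr (x * y)) hx q (tr y)
  have hgy : ∀ q : Fin 4 → F,
      R1_Psi x.1 y.1 ((Rep (tr x) (tr y) (tr (x * y)) fy).val.mulVec q) =
        (ev x y fy).1 * R1_Psi x.1 y.1 q := by
    intro q
    have h1 : Rep (tr x) (tr y) (tr (x * y)) fy = uLy (tr x) (tr y) (tr (x * y)) := ev_fy _ _
    rw [h1, ev_fy]
    exact R1_y x.1 y.1 hy q
  have hmul : ∀ w₁ w₂ : F2,
      (∀ q : Fin 4 → F, R1_Psi x.1 y.1 ((Rep (tr x) (tr y) (tr (x * y)) w₁).val.mulVec q) =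
        (ev x y w₁).1 * R1_Psi x.1 y.1 q) →
      (∀ q : Fin 4 → F, R1_Psi x.1 y.1 ((Rep (tr x) (tr y) (tr (x * y)) w₂).val.mulVec q) =
        (ev x y w₂).1 * R1_Psi x.1 y.1 q) →
      ∀ q : Fin 4 → F, R1_Psi x.1 y.1 ((Rep (tr x) (tr y) (tr (x * y)) (w₁ * w₂)).val.mulVec q) =
        (ev x y (w₁ * w₂)).1 * R1_Psi x.1 y.1 q := by
    intro w₁ w₂ h1 h2 q
    rw [map_mul, map_mul, Units.val_mul, ← Matrix.mulVec_mulVec, h1, h2]
    change _ = ((ev x y w₁).1 * (ev x y w₂).1) * _
    rw [Matrix.mul_assoc]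
  have hinv : ∀ w₁ : F2,
      (∀ q : Fin 4 → F, R1_Psi x.1 y.1 ((Rep (tr x) (tr y) (tr (x * y)) w₁).val.mulVec q) =
        (ev x y w₁).1 * R1_Psi x.1 y.1 q) →
      ∀ q : Fin 4 → F, R1_Psi x.1 y.1 ((Rep (tr x) (tr y) (tr (x * y)) w₁⁻¹).val.mulVec q) =
        (ev x y w₁⁻¹).1 * R1_Psi x.1 y.1 q := by
    intro w₁ h1 q
    have h2 := h1 ((Rep (tr x) (tr y) (tr (x * y)) w₁⁻¹).val.mulVec q)
    rw [Matrix.mulVec_mulVec, ← Units.val_mul, ← map_mul, mul_inv_cancel, map_one, Units.val_one,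
      Matrix.one_mulVec] at h2
    have h3 : (ev x y w₁⁻¹).1 * (ev x y w₁).1 = 1 := by
      have : ev x y w₁⁻¹ * ev x y w₁ = 1 := by rw [← map_mul, inv_mul_cancel, map_one]
      exact congrArg Subtype.val this
    rw [h2, ← Matrix.mul_assoc, h3, Matrix.one_mul]
  induction w using FreeGroup.induction_on with
  | C1 =>
    intro q
    rw [map_one, map_one, Units.val_one, Matrix.one_mulVec]
    exact (Matrix.one_mul _).symm
  | of t =>
    cases t
    · exact hgy
    · exact hgx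
  | inv_of t ih => exact hinv _ ih
  | mul w₁ w₂ h1 h2 => exact hmul w₁ w₂ h1 h2

/-- PROOF. Let `a = tr x`, `b = tr y`, `c = tr (x y)` and for `q : Fin 4 → F` let `Ψ q = q 0 • 1 + q 1 • x + q 2 • y + q 3 • (x y)` (a `2 × 2` matrix). Then `Ψ (Lx q) = x Ψ q` and `Ψ (Ly q) = y Ψ q` (Cayley-Hamilton `x² = a x - 1`, `y² = b y - 1` and
`y x = c - x y - a b + b x + a y`, from `x y + (x y)⁻¹ = c`), and similarly for the inverses. So `Ψ (Rep w q) = ev x y w * Ψ q` for all words `w` (the set of `w` for which this holds for all `q` is a subgroup containing the generators). With `q = (1, 0, 0, 0)`. -/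
theorem ev_eq_one_of_Rep {F : Type*} [Field F] (x y : Matrix.SpecialLinearGroup (Fin 2) F) (w : F2)
    (h : Rep (tr x) (tr y) (tr (x * y)) w = 1) : ev x y w = 1 := by
  have h1 := R1_key x y w ![1, 0, 0, 0]
  rw [h, Units.val_one, Matrix.one_mulVec] at h1
  have h2 : R1_Psi x.1 y.1 ![1, 0, 0, 0] = 1 := by simp [R1_Psi]
  rw [h2, Matrix.mul_one] at h1
  exact Subtype.ext h1.symm

/-- PROOF. As before, `Ψ (Rep w q) = ev x y w * Ψ q = Ψ q`. `Ψ` is injective when `D ≠ 0`: the determinant of the `4 × 4` matrix of the entries of `1, x, y, x y` is `± D` (`D = a² + b² + c² - a b c - 4 = tr [x, y] - 2`; the identity holds in the ideal of `det x = det y = 1`). -/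
theorem Rep_eq_one_of_ev {F : Type*} [Field F] (x y : Matrix.SpecialLinearGroup (Fin 2) F) (w : F2)
    (hD : DD (tr x) (tr y) (tr (x * y)) ≠ 0) (h : ev x y w = 1) :
    Rep (tr x) (tr y) (tr (x * y)) w = 1 := by
  have hx : x.1 0 0 * x.1 1 1 - x.1 0 1 * x.1 1 0 = 1 := by
    rw [← Matrix.det_fin_two]; exact x.2
  have hy : y.1 0 0 * y.1 1 1 - y.1 0 1 * y.1 1 0 = 1 := by
    rw [← Matrix.det_fin_two]; exact y.2
  have hinj : ∀ r : Fin 4 → F, R1_Psi x.1 y.1 r = 0 → r = 0 := by
    intro r hr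
    set M : Matrix (Fin 4) (Fin 4) F :=
      !![1, x.1 0 0, y.1 0 0, (x.1 * y.1) 0 0; 0, x.1 0 1, y.1 0 1, (x.1 * y.1) 0 1;
        0, x.1 1 0, y.1 1 0, (x.1 * y.1) 1 0; 1, x.1 1 1, y.1 1 1, (x.1 * y.1) 1 1] with hM
    have hdet : M.det ≠ 0 := by
      have : M.det = -DD (tr x) (tr y) (tr (x * y)) := by
        have e1 : tr x = x.1 0 0 + x.1 1 1 := rfl
        have e2 : tr y = y.1 0 0 + y.1 1 1 := rfl
        have e3 : tr (x * y) = (x.1 * y.1) 0 0 + (x.1 * y.1) 1 1 := rfl
        rw [hM, e1, e2, e3]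
        simp [Matrix.det_succ_row_zero, Fin.sum_univ_succ, Matrix.mul_apply, DD, Fin.succAbove]
        linear_combination (-(x.1 0 0 + x.1 1 1) ^ 2 +
            4 * (x.1 0 0 * x.1 1 1 - x.1 0 1 * x.1 1 0)) * hy +
          (-(y.1 0 0 + y.1 1 1) ^ 2 + 4) * hx
      rw [this]
      exact neg_ne_zero.2 hD
    refine Matrix.eq_zero_of_mulVec_eq_zero hdet ?_
    have e : ∀ i j, R1_Psi x.1 y.1 r i j = 0 := fun i j => by rw [hr]; rfl
    funext i
    have e00 := e 0 0
    have e01 := e 0 1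
    have e10 := e 1 0
    have e11 := e 1 1
    simp only [R1_Psi, Matrix.add_apply, Matrix.smul_apply, smul_eq_mul] at e00 e01 e10 e11
    fin_cases i
    · simp [hM, Matrix.mulVec, dotProduct, Fin.sum_univ_four] at e00 ⊢
      linear_combination e00
    · simp [hM, Matrix.mulVec, dotProduct, Fin.sum_univ_four] at e01 ⊢
      linear_combination e01
    · simp [hM, Matrix.mulVec, dotProduct, Fin.sum_univ_four] at e10 ⊢
      linear_combination e10
    · simp [hM, Matrix.mulVec, dotProduct, Fin.sum_univ_four] at e11 ⊢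
      linear_combination e11
  have hfix : ∀ q : Fin 4 → F, (Rep (tr x) (tr y) (tr (x * y)) w).val.mulVec q = q := by
    intro q
    have h1 := R1_key x y w q
    rw [h] at h1
    have h2 : R1_Psi x.1 y.1 ((Rep (tr x) (tr y) (tr (x * y)) w).val.mulVec q) =
        R1_Psi x.1 y.1 q := by
      rw [h1]
      exact Matrix.one_mul _
    have h3 : R1_Psi x.1 y.1 ((Rep (tr x) (tr y) (tr (x * y)) w).val.mulVec q - q) = 0 := by
      have : R1_Psi x.1 y.1 ((Rep (tr x) (tr y) (tr (x * y)) w).val.mulVec q - q) =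
          R1_Psi x.1 y.1 ((Rep (tr x) (tr y) (tr (x * y)) w).val.mulVec q) -
            R1_Psi x.1 y.1 q := by
        simp only [R1_Psi, Pi.sub_apply, sub_smul]
        abel
      rw [this, h2, sub_self]
    exact sub_eq_zero.1 (hinj _ h3)
  apply Units.ext
  rw [Units.val_one]
  refine Matrix.toLin'.injective ?_
  refine LinearMap.ext fun q => ?_
  rw [Matrix.toLin'_apply, Matrix.toLin'_apply, Matrix.one_mulVec]
  exact hfix q

/-- PROOF: `x = !![a, -1; 1, 0]`, `y = !![0, z; -z⁻¹, b]` with `z + z⁻¹ = c` (`K` algebraically closed), `x y = !![z⁻¹, *; *, z]`. -/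
theorem exists_pair {K : Type*} [Field K] [IsAlgClosed K] (a b c : K) :
    ∃ x y : Matrix.SpecialLinearGroup (Fin 2) K, tr x = a ∧ tr y = b ∧ tr (x * y) = c := by
  obtain ⟨z, hz⟩ : ∃ z : K, z ^ 2 - c * z + 1 = 0 := by
    have hdeg : (Polynomial.X ^ 2 - Polynomial.C c * Polynomial.X + 1 : Polynomial K).degree
        = 2 := by compute_degree!
    obtain ⟨z, hz⟩ := IsAlgClosed.exists_root
      (Polynomial.X ^ 2 - Polynomial.C c * Polynomial.X + 1 : Polynomial K) (by rw [hdeg]; norm_num)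
    refine ⟨z, ?_⟩
    simpa [Polynomial.IsRoot] using hz
  have hz0 : z ≠ 0 := by
    intro h0
    rw [h0] at hz
    simp at hz
  refine ⟨⟨!![a, -1; 1, 0], by simp [Matrix.det_fin_two]⟩,
    ⟨!![0, z; -z⁻¹, b], by simp [Matrix.det_fin_two, hz0]⟩, ?_, ?_, ?_⟩
  · simp [tr]
  · simp [tr]
  · have h1 : z * z⁻¹ = 1 := mul_inv_cancel₀ hz0
    change (!![a, -1; 1, 0] * !![0, z; -z⁻¹, b] : Matrix (Fin 2) (Fin 2) K) 0 0 +
      (!![a, -1; 1, 0] * !![0, z; -z⁻¹, b] : Matrix (Fin 2) (Fin 2) K) 1 1 = c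
    simp only [Matrix.mul_apply, Fin.sum_univ_two]
    simp
    linear_combination z⁻¹ * hz + (c - z) * h1

end Pool.Agent.Lib.MP_3bb35d_al.UE
end

section

/-!
# The polynomials of the families
-/

set_option autoImplicit false

open MvPolynomial

namespace Pool.Agent.Lib.MP_3bb35d_al.UE

/-- The matrix of the word in the generic traces, minus one. -/
noncomputable def RepX (k : Type*) [Field k] (w : F2) :
    Matrix (Fin 4) (Fin 4) (MvPolynomial (Fin 3) k) :=
  ((Rep (X 0) (X 1) (X 2) w : (Matrix (Fin 4) (Fin 4) (MvPolynomial (Fin 3) k))ˣ) :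
    Matrix (Fin 4) (Fin 4) (MvPolynomial (Fin 3) k)) - 1

private theorem R2_deg_lin (k : Type*) [Field k] (i : Fin 3) :
    (X i : MvPolynomial (Fin 3) k).totalDegree ≤ 2 := by
  rw [totalDegree_X]; omega

private theorem R2_deg_quad (k : Type*) [Field k] :
    (X 2 - X 0 * X 1 : MvPolynomial (Fin 3) k).totalDegree ≤ 2 := by
  refine (totalDegree_sub _ _).trans (max_le (R2_deg_lin k 2) ?_)
  refine (totalDegree_mul _ _).trans ?_
  rw [totalDegree_X, totalDegree_X]

private theorem R2_deg_quad' (k : Type*) [Field k] :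
    (-X 2 + X 0 * X 1 : MvPolynomial (Fin 3) k).totalDegree ≤ 2 := by
  have h : (-X 2 + X 0 * X 1 : MvPolynomial (Fin 3) k) = -(X 2 - X 0 * X 1) := by ring
  rw [h, totalDegree_neg]
  exact R2_deg_quad k

private theorem R2_deg_neg (k : Type*) [Field k] (i : Fin 3) :
    (-X i : MvPolynomial (Fin 3) k).totalDegree ≤ 2 := by
  rw [totalDegree_neg]
  exact R2_deg_lin k i

private theorem R2_deg_zero (k : Type*) [Field k] :
    (0 : MvPolynomial (Fin 3) k).totalDegree ≤ 2 := by
  rw [totalDegree_zero]; omega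

private theorem R2_deg_one (k : Type*) [Field k] :
    (1 : MvPolynomial (Fin 3) k).totalDegree ≤ 2 := by
  rw [totalDegree_one]; omega

private theorem R2_deg_negone (k : Type*) [Field k] :
    (-1 : MvPolynomial (Fin 3) k).totalDegree ≤ 2 := by
  rw [totalDegree_neg, totalDegree_one]; omega

private theorem R2_Lx (k : Type*) [Field k] (i j : Fin 4) :
    (Lx (X 0) (X 1) (X 2) i j : MvPolynomial (Fin 3) k).totalDegree ≤ 2 := by
  have h0 := R2_deg_zero k
  have h1 := R2_deg_one k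
  have h2 := R2_deg_negone k
  have h3 := R2_deg_lin k 0
  fin_cases i <;> fin_cases j <;>
    first
    | exact h0
    | exact h1
    | exact h2
    | exact h3

private theorem R2_Lx' (k : Type*) [Field k] (i j : Fin 4) :
    (Lx' (X 0) (X 1) (X 2) i j : MvPolynomial (Fin 3) k).totalDegree ≤ 2 := by
  have h0 := R2_deg_zero k
  have h1 := R2_deg_one k
  have h2 := R2_deg_negone k
  have h3 := R2_deg_lin k 0
  fin_cases i <;> fin_cases j <;>
    first
    | exact h0
    | exact h1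
    | exact h2
    | exact h3

private theorem R2_Ly (k : Type*) [Field k] (i j : Fin 4) :
    (Ly (X 0) (X 1) (X 2) i j : MvPolynomial (Fin 3) k).totalDegree ≤ 2 := by
  have h0 := R2_deg_zero k
  have h1 := R2_deg_one k
  have h2 := R2_deg_negone k
  have h3 := R2_deg_lin k 0
  have h4 := R2_deg_lin k 1
  have h5 := R2_deg_lin k 2
  have h6 := R2_deg_neg k 0
  have h7 := R2_deg_quad k
  fin_cases i <;> fin_cases j <;>
    first
    | exact h0
    | exact h1
    | exact h2
    | exact h3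
    | exact h4
    | exact h5
    | exact h6
    | exact h7

private theorem R2_Ly' (k : Type*) [Field k] (i j : Fin 4) :
    (Ly' (X 0) (X 1) (X 2) i j : MvPolynomial (Fin 3) k).totalDegree ≤ 2 := by
  have h0 := R2_deg_zero k
  have h1 := R2_deg_one k
  have h2 := R2_deg_negone k
  have h3 := R2_deg_lin k 0
  have h4 := R2_deg_lin k 1
  have h5 := R2_deg_lin k 2
  have h6 := R2_deg_neg k 0
  have h7 := R2_deg_neg k 2
  have h8 := R2_deg_quad' k
  fin_cases i <;> fin_cases j <;>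
    first
    | exact h0
    | exact h1
    | exact h2
    | exact h3
    | exact h4
    | exact h5
    | exact h6
    | exact h7
    | exact h8

private theorem R2_letter (k : Type*) [Field k] (x : Bool × Bool) (i j : Fin 4) :
    (((Rep (X 0) (X 1) (X 2) (FreeGroup.mk [x]) :
      (Matrix (Fin 4) (Fin 4) (MvPolynomial (Fin 3) k))ˣ) :
      Matrix (Fin 4) (Fin 4) (MvPolynomial (Fin 3) k)) i j).totalDegree ≤ 2 := by
  obtain ⟨b, s⟩ := x
  have h1 : FreeGroup.mk [(true, true)] = fx := rfl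
  have h2 : FreeGroup.mk [(true, false)] = fx⁻¹ := rfl
  have h3 : FreeGroup.mk [(false, true)] = fy := rfl
  have h4 : FreeGroup.mk [(false, false)] = fy⁻¹ := rfl
  cases b <;> cases s
  · rw [h4, map_inv, Rep, ev_fy]
    exact R2_Ly' k i j
  · rw [h3, Rep, ev_fy]
    exact R2_Ly k i j
  · rw [h2, map_inv, Rep, ev_fx]
    exact R2_Lx' k i j
  · rw [h1, Rep, ev_fx]
    exact R2_Lx k i j

private theorem R2_word (k : Type*) [Field k] (L : List (Bool × Bool)) (i j : Fin 4) :
    (((Rep (X 0) (X 1) (X 2) (FreeGroup.mk L) :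
      (Matrix (Fin 4) (Fin 4) (MvPolynomial (Fin 3) k))ˣ) :
      Matrix (Fin 4) (Fin 4) (MvPolynomial (Fin 3) k)) i j).totalDegree ≤ 2 * L.length := by
  induction L generalizing i j with
  | nil =>
    have h1 : (FreeGroup.mk [] : F2) = 1 := rfl
    rw [h1, map_one, Units.val_one, Matrix.one_apply]
    split_ifs
    · rw [totalDegree_one]; omega
    · rw [totalDegree_zero]; omega
  | cons x L ih =>
    have h1 : (FreeGroup.mk (x :: L) : F2) = FreeGroup.mk [x] * FreeGroup.mk L := rfl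
    rw [h1, map_mul, Units.val_mul, Matrix.mul_apply]
    refine totalDegree_finsetSum_le (fun m _ => ?_)
    refine (totalDegree_mul _ _).trans ?_
    have h2 := R2_letter k x i m
    have h3 := ih m j
    rw [List.length_cons]
    omega

/-- PROOF: the entries of `Lx, Ly, Lx', Ly'` have total degree at most two; `w` is the product of its `norm w` letters (`FreeGroup.mk_toWord`), the entries of a product of `n` such matrices have total degree at most `2 n` (`totalDegree_mul_le`, `totalDegree_finset_sum_le`). -/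
theorem degree_RepX (k : Type*) [Field k] (w : F2) (i j : Fin 4) :
    (RepX k w i j).totalDegree ≤ 2 * w.norm := by
  have h := R2_word k w.toWord i j
  rw [FreeGroup.mk_toWord] at h
  rw [RepX, Matrix.sub_apply]
  refine (totalDegree_sub _ _).trans (max_le h ?_)
  rw [Matrix.one_apply]
  split_ifs
  · rw [totalDegree_one]; omega
  · rw [totalDegree_zero]; omega

/-- PROOF: `Rep_map` for `aeval P`. -/
theorem aeval_RepX {k K : Type*} [Field k] [Field K] [Algebra k K] (P : Fin 3 → K) (w : F2) :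
    (∀ i j, aeval P (RepX k w i j) = 0) ↔ Rep (P 0) (P 1) (P 2) w = 1 := by
  have h := Rep_map ((aeval P : MvPolynomial (Fin 3) k →ₐ[k] K) : MvPolynomial (Fin 3) k →+* K)
    (X 0) (X 1) (X 2) w
  simp only [RingHom.coe_coe, aeval_X] at h
  constructor
  · intro h1
    refine Units.ext ?_
    rw [← h]
    ext i j
    have h2 := h1 i j
    rw [RepX, Matrix.sub_apply, map_sub, sub_eq_zero] at h2
    rw [Matrix.map_apply, h2, Units.val_one, Matrix.one_apply, Matrix.one_apply]
    split_ifs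
    · rw [map_one]
    · rw [map_zero]
  · intro h1 i j
    rw [RepX, Matrix.sub_apply, map_sub, sub_eq_zero]
    have h2 := congrFun (congrFun h i) j
    rw [Matrix.map_apply, h1, Units.val_one] at h2
    rw [h2, Matrix.one_apply, Matrix.one_apply]
    split_ifs
    · rw [map_one]
    · rw [map_zero]

private theorem R2_hom (φ : F2 →* F2) (C : ℕ) (h : ∀ b, (φ (FreeGroup.of b)).norm ≤ C)
    (L : List (Bool × Bool)) : (φ (FreeGroup.mk L)).norm ≤ C * L.length := by
  induction L with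
  | nil =>
    have h1 : (FreeGroup.mk [] : F2) = 1 := rfl
    rw [h1, map_one, FreeGroup.norm_one]
    exact Nat.zero_le _
  | cons x L ih =>
    have h1 : (FreeGroup.mk (x :: L) : F2) = FreeGroup.mk [x] * FreeGroup.mk L := rfl
    rw [h1, map_mul]
    refine (FreeGroup.norm_mul_le _ _).trans ?_
    have h2 : (φ (FreeGroup.mk [x])).norm ≤ C := by
      obtain ⟨b, s⟩ := x
      cases s
      · have h3 : (FreeGroup.mk [(b, false)] : F2) = (FreeGroup.of b)⁻¹ := rfl
        rw [h3, map_inv, FreeGroup.norm_inv_eq]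
        exact h b
      · exact h b
    rw [List.length_cons, Nat.mul_succ]
    omega

private theorem R2_pow (a : F2) (k : ℕ) : (a ^ k).norm ≤ k * a.norm := by
  induction k with
  | zero => simp
  | succ k ih =>
    rw [pow_succ]
    refine (FreeGroup.norm_mul_le _ _).trans ?_
    have : (k + 1) * a.norm = k * a.norm + a.norm := by ring
    omega

private theorem R2_wj (j : Fin 3) {h g : F2} (hh : h.norm ≤ 2) (hg : g.norm ≤ 1) :
    (wj j h g).norm ≤ 6 := by
  have h2 := R2_pow h 2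
  have e1 := FreeGroup.norm_mul_le (g * h ^ 2) g
  have e2 := FreeGroup.norm_mul_le g (h ^ 2)
  have e3 := FreeGroup.norm_mul_le (g * h⁻¹) g
  have e4 := FreeGroup.norm_mul_le g h⁻¹
  rw [FreeGroup.norm_inv_eq] at e4
  have d0 : (wj 0 h g).norm ≤ 6 := by
    change g.norm ≤ 6
    omega
  have d1 : (wj 1 h g).norm ≤ 6 := by
    change (g * h ^ 2 * g).norm ≤ 6
    omega
  have d2 : (wj 2 h g).norm ≤ 6 := by
    change (g * h⁻¹ * g).norm ≤ 6
    omega
  fin_cases j
  · exact d0
  · exact d1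
  · exact d2

/-- PROOF: `norm (θ w) ≤ 56 norm w`, because `norm (th i (of b)) ≤ 56`: `norm (h ^ 22) ≤ 44`, `norm (wj j h g) ≤ 6`, `norm (w h ^ 22 w⁻¹) ≤ 56` (`norm h ≤ 2`, `norm g ≤ 1`... for `h = fx * fy`: `norm h ≤ 2`, `g = fy⁻¹`), and `w` is a product of `norm w` letters. -/
theorem norm_th_le (i : Fin 3 × Fin 3) (w : F2) : (th i w).norm ≤ 56 * w.norm := by
  have hx : fx.norm = 1 := FreeGroup.norm_of _
  have hy : fy.norm = 1 := FreeGroup.norm_of _
  have hh : ((hg i.1).1).norm ≤ 2 ∧ ((hg i.1).2).norm ≤ 1 := by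
    obtain ⟨i1, i2⟩ := i
    fin_cases i1
    · exact ⟨by change fx.norm ≤ 2; omega, by change fy.norm ≤ 1; omega⟩
    · exact ⟨by change fy.norm ≤ 2; omega, by change fx.norm ≤ 1; omega⟩
    · refine ⟨?_, ?_⟩
      · change (fx * fy).norm ≤ 2
        have := FreeGroup.norm_mul_le fx fy
        omega
      · change (fy⁻¹).norm ≤ 1
        rw [FreeGroup.norm_inv_eq]
        omega
  obtain ⟨h1, h2⟩ := hh
  have hp := R2_pow (hg i.1).1 22
  have hw := R2_wj i.2 h1 h2
  have hb : ∀ b, ((th i) (FreeGroup.of b)).norm ≤ 56 := by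
    intro b
    cases b
    · have e1 : (th i) (FreeGroup.of false) =
          wj i.2 (hg i.1).1 (hg i.1).2 * (hg i.1).1 ^ 22 * (wj i.2 (hg i.1).1 (hg i.1).2)⁻¹ :=
        ev_fy _ _
      rw [e1]
      have e2 := FreeGroup.norm_mul_le (wj i.2 (hg i.1).1 (hg i.1).2 * (hg i.1).1 ^ 22)
        (wj i.2 (hg i.1).1 (hg i.1).2)⁻¹
      have e3 := FreeGroup.norm_mul_le (wj i.2 (hg i.1).1 (hg i.1).2) ((hg i.1).1 ^ 22)
      rw [FreeGroup.norm_inv_eq] at e2
      omega
    · have e1 : (th i) (FreeGroup.of true) = (hg i.1).1 ^ 22 := ev_fx _ _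
      rw [e1]
      omega
  have h := R2_hom (th i) 56 hb w.toWord
  rw [FreeGroup.mk_toWord] at h
  exact h

end Pool.Agent.Lib.MP_3bb35d_al.UE
end
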