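import Pool.Agent.Lib.MP_3bb35d_al.Mg.G025
import Pool.Agent.Lib.MP_3bb35d_al.UE.T3a

section

/-!
# The normal form
-/

set_option autoImplicit false

namespace Pool.Agent.Lib.MP_3bb35d_al.UE

private theorem T3b_det {K : Type*} [Field K] (P : Matrix (Fin 2) (Fin 2) K) (hP : P.det ≠ 0)
    (x : Matrix.SpecialLinearGroup (Fin 2) K) :
    (P⁻¹ * (x : Matrix (Fin 2) (Fin 2) K) * P).det = 1 := by
  rw [Matrix.det_mul, Matrix.det_mul, x.2, Matrix.det_nonsing_inv, Ring.inverse_eq_inv', mul_one,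
    inv_mul_cancel₀ hP]

private theorem T3b_det' {K : Type*} [Field K] (P : Matrix (Fin 2) (Fin 2) K) (hP : P.det ≠ 0)
    (x : Matrix.SpecialLinearGroup (Fin 2) K) :
    (P * (x : Matrix (Fin 2) (Fin 2) K) * P⁻¹).det = 1 := by
  rw [Matrix.det_mul, Matrix.det_mul, x.2, Matrix.det_nonsing_inv, Ring.inverse_eq_inv', mul_one,
    mul_inv_cancel₀ hP]

/-- The conjugation by an invertible matrix. -/
private noncomputable def T3b_conj {K : Type*} [Field K] (P : Matrix (Fin 2) (Fin 2) K)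
    (hP : P.det ≠ 0) :
    Matrix.SpecialLinearGroup (Fin 2) K ≃* Matrix.SpecialLinearGroup (Fin 2) K where
  toFun x := ⟨P⁻¹ * (x : Matrix (Fin 2) (Fin 2) K) * P, T3b_det P hP x⟩
  invFun x := ⟨P * (x : Matrix (Fin 2) (Fin 2) K) * P⁻¹, T3b_det' P hP x⟩
  left_inv x := by
    apply Subtype.ext
    have hu : IsUnit P.det := isUnit_iff_ne_zero.2 hP
    change P * (P⁻¹ * (x : Matrix (Fin 2) (Fin 2) K) * P) * P⁻¹ = x
    rw [Matrix.mul_assoc, Matrix.mul_assoc (P⁻¹ * _), Matrix.mul_nonsing_inv P hu, Matrix.mul_one,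
      ← Matrix.mul_assoc, Matrix.mul_nonsing_inv P hu, Matrix.one_mul]
  right_inv x := by
    apply Subtype.ext
    have hu : IsUnit P.det := isUnit_iff_ne_zero.2 hP
    change P⁻¹ * (P * (x : Matrix (Fin 2) (Fin 2) K) * P⁻¹) * P = x
    rw [Matrix.mul_assoc, Matrix.mul_assoc (P * _), Matrix.nonsing_inv_mul P hu, Matrix.mul_one,
      ← Matrix.mul_assoc, Matrix.nonsing_inv_mul P hu, Matrix.one_mul]
  map_mul' x y := by
    apply Subtype.ext
    have hu : IsUnit P.det := isUnit_iff_ne_zero.2 hP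
    change P⁻¹ * ((x : Matrix (Fin 2) (Fin 2) K) * (y : Matrix (Fin 2) (Fin 2) K)) * P =
      (P⁻¹ * (x : Matrix (Fin 2) (Fin 2) K) * P) * (P⁻¹ * (y : Matrix (Fin 2) (Fin 2) K) * P)
    have h1 : (P⁻¹ * (x : Matrix (Fin 2) (Fin 2) K) * P) *
        (P⁻¹ * (y : Matrix (Fin 2) (Fin 2) K) * P) =
        P⁻¹ * (x : Matrix (Fin 2) (Fin 2) K) * (P * P⁻¹) * (y : Matrix (Fin 2) (Fin 2) K) * P := by
      simp only [Matrix.mul_assoc]
    rw [h1, Matrix.mul_nonsing_inv P hu, Matrix.mul_one]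
    simp only [Matrix.mul_assoc]

private theorem T3b_tr {K : Type*} [Field K] (P : Matrix (Fin 2) (Fin 2) K)
    (hP : P.det ≠ 0) (x : Matrix.SpecialLinearGroup (Fin 2) K) : tr (T3b_conj P hP x) = tr x := by
  have hu : IsUnit P.det := isUnit_iff_ne_zero.2 hP
  have h1 : ∀ y : Matrix.SpecialLinearGroup (Fin 2) K,
      tr y = Matrix.trace (y : Matrix (Fin 2) (Fin 2) K) := fun y => by
    rw [Matrix.trace_fin_two]; rfl
  rw [h1, h1]
  change Matrix.trace (P⁻¹ * (x : Matrix (Fin 2) (Fin 2) K) * P) = _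
  rw [Matrix.trace_mul_cycle, Matrix.mul_nonsing_inv P hu, Matrix.one_mul]

private theorem T3b_diag {K : Type*} [Field K] (h : Matrix.SpecialLinearGroup (Fin 2) K) (s : K)
    (hs : s ≠ 0) (hss : s ≠ s⁻¹) (ht : tr h = s + s⁻¹) :
    ∃ (P : Matrix (Fin 2) (Fin 2) K) (hP : P.det ≠ 0),
      (T3b_conj P hP h) 0 0 = s ∧ (T3b_conj P hP h) 0 1 = 0 ∧
      (T3b_conj P hP h) 1 0 = 0 ∧ (T3b_conj P hP h) 1 1 = s⁻¹ := by
  have hsi : s * s⁻¹ = 1 := mul_inv_cancel₀ hs
  have hdet : h 0 0 * h 1 1 - h 0 1 * h 1 0 = 1 := by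
    have := h.2
    rw [Matrix.det_fin_two] at this
    exact this
  have htr : h 0 0 + h 1 1 = s + s⁻¹ := ht
  have hne : s - s⁻¹ ≠ 0 := sub_ne_zero.2 hss
  have fin : ∀ (P : Matrix (Fin 2) (Fin 2) K) (hP : P.det ≠ 0),
      (h : Matrix (Fin 2) (Fin 2) K) * P = P * !![s, 0; 0, s⁻¹] →
      (T3b_conj P hP h) 0 0 = s ∧ (T3b_conj P hP h) 0 1 = 0 ∧
      (T3b_conj P hP h) 1 0 = 0 ∧ (T3b_conj P hP h) 1 1 = s⁻¹ := by
    intro P hP e
    have hu : IsUnit P.det := isUnit_iff_ne_zero.2 hP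
    have e2 : ((T3b_conj P hP h : Matrix.SpecialLinearGroup (Fin 2) K) :
        Matrix (Fin 2) (Fin 2) K) = !![s, 0; 0, s⁻¹] := by
      change P⁻¹ * (h : Matrix (Fin 2) (Fin 2) K) * P = _
      rw [Matrix.mul_assoc, e, ← Matrix.mul_assoc, Matrix.nonsing_inv_mul P hu, Matrix.one_mul]
    refine ⟨?_, ?_, ?_, ?_⟩
    · rw [e2]; rfl
    · rw [e2]; rfl
    · rw [e2]; rfl
    · rw [e2]; rfl
  by_cases hd : h 1 1 = s
  · have hd' : h 1 1 - s⁻¹ ≠ 0 := by rw [hd]; exact hne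
    refine ⟨!![h 0 1, h 0 0 - s; h 1 1 - s⁻¹, h 1 0], ?_, ?_⟩
    · rw [Matrix.det_fin_two]
      have e : h 0 1 * h 1 0 - (h 0 0 - s) * (h 1 1 - s⁻¹) = (h 1 1 - s⁻¹) * (s - s⁻¹) := by
        linear_combination -hdet + s⁻¹ * htr + hsi
      simp only [Matrix.of_apply, Matrix.cons_val', Matrix.cons_val_zero, Matrix.cons_val_one,
        Matrix.cons_val_fin_one]
      rw [e]
      exact mul_ne_zero hd' hne
    · apply fin
      have e00 : h 0 0 * h 0 1 + h 0 1 * (h 1 1 - s⁻¹) = h 0 1 * s := by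
        linear_combination h 0 1 * htr
      have e01 : h 0 0 * (h 0 0 - s) + h 0 1 * h 1 0 = (h 0 0 - s) * s⁻¹ := by
        linear_combination h 0 0 * htr - hdet + hsi
      have e10 : h 1 0 * h 0 1 + h 1 1 * (h 1 1 - s⁻¹) = (h 1 1 - s⁻¹) * s := by
        linear_combination h 1 1 * htr - hdet + hsi
      have e11 : h 1 0 * (h 0 0 - s) + h 1 1 * h 1 0 = h 1 0 * s⁻¹ := by
        linear_combination h 1 0 * htr
      ext i j
      fin_cases i <;> fin_cases j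
      · simpa [Matrix.mul_apply, Fin.sum_univ_two] using e00
      · simpa [Matrix.mul_apply, Fin.sum_univ_two] using e01
      · simpa [Matrix.mul_apply, Fin.sum_univ_two] using e10
      · simpa [Matrix.mul_apply, Fin.sum_univ_two] using e11
  · have hd' : h 1 1 - s ≠ 0 := sub_ne_zero.2 hd
    refine ⟨!![h 0 0 - s⁻¹, h 0 1; h 1 0, h 1 1 - s], ?_, ?_⟩
    · rw [Matrix.det_fin_two]
      have e : (h 0 0 - s⁻¹) * (h 1 1 - s) - h 0 1 * h 1 0 = (h 1 1 - s) * (s - s⁻¹) := by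
        linear_combination hdet - s * htr - hsi
      simp only [Matrix.of_apply, Matrix.cons_val', Matrix.cons_val_zero, Matrix.cons_val_one,
        Matrix.cons_val_fin_one]
      rw [e]
      exact mul_ne_zero hd' hne
    · apply fin
      have e00 : h 0 0 * (h 0 0 - s⁻¹) + h 0 1 * h 1 0 = (h 0 0 - s⁻¹) * s := by
        linear_combination h 0 0 * htr - hdet + hsi
      have e01 : h 0 0 * h 0 1 + h 0 1 * (h 1 1 - s) = h 0 1 * s⁻¹ := by
        linear_combination h 0 1 * htr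
      have e10 : h 1 0 * (h 0 0 - s⁻¹) + h 1 1 * h 1 0 = h 1 0 * s := by
        linear_combination h 1 0 * htr
      have e11 : h 1 0 * h 0 1 + h 1 1 * (h 1 1 - s) = (h 1 1 - s) * s⁻¹ := by
        linear_combination h 1 1 * htr - hdet + hsi
      ext i j
      fin_cases i <;> fin_cases j
      · simpa [Matrix.mul_apply, Fin.sum_univ_two] using e00
      · simpa [Matrix.mul_apply, Fin.sum_univ_two] using e01
      · simpa [Matrix.mul_apply, Fin.sum_univ_two] using e10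
      · simpa [Matrix.mul_apply, Fin.sum_univ_two] using e11

/-- The eigenvalue of larger valuation. -/
private theorem T3b_eigen {K Γ : Type*} [Field K] [IsAlgClosed K]
    [LinearOrderedCommGroupWithZero Γ] (v : Valuation K Γ) (t : K) (ht : 1 < v t) :
    ∃ s : K, s ≠ 0 ∧ t = s + s⁻¹ ∧ 1 < v s ∧ v s⁻¹ < 1 ∧ v s = v t ∧ v (s - s⁻¹) = v s := by
  obtain ⟨r, hr⟩ := IsAlgClosed.exists_root
    (Polynomial.X ^ 2 - Polynomial.C t * Polynomial.X + 1 : Polynomial K) (by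
      have : (Polynomial.X ^ 2 - Polynomial.C t * Polynomial.X + 1 : Polynomial K).natDegree = 2 := by
        compute_degree!
      intro h0
      rw [Polynomial.natDegree_eq_of_degree_eq_some (n := 0) (by simpa using h0)] at this
      exact absurd this (by norm_num))
  have hr' : r ^ 2 - t * r + 1 = 0 := by
    simpa [Polynomial.IsRoot] using hr
  have hr0 : r ≠ 0 := by
    rintro rfl
    norm_num at hr'
  have htr : t = r + r⁻¹ := by
    field_simp
    linear_combination -hr'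
  have main : ∀ s : K, s ≠ 0 → t = s + s⁻¹ → 1 < v s →
      ∃ s : K, s ≠ 0 ∧ t = s + s⁻¹ ∧ 1 < v s ∧ v s⁻¹ < 1 ∧ v s = v t ∧ v (s - s⁻¹) = v s := by
    intro s hs hts hvs
    have hi : v s⁻¹ < 1 := by
      rw [map_inv₀]
      exact inv_lt_one_of_one_lt₀ hvs
    have hlt : v s⁻¹ < v s := hi.trans hvs
    refine ⟨s, hs, hts, hvs, hi, ?_, ?_⟩
    · rw [hts]
      exact (v.map_add_eq_of_lt_left hlt).symm
    · exact v.map_sub_eq_of_lt_left hlt
  rcases lt_trichotomy (v r) 1 with hlt | heq | hgt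
  · apply main r⁻¹ (inv_ne_zero hr0)
    · rw [inv_inv, add_comm]; exact htr
    · rw [map_inv₀]
      exact (one_lt_inv₀ ((v.pos_iff).2 hr0)).2 hlt
  · exfalso
    have h1 : v t ≤ 1 := by
      rw [htr]
      apply (v.map_add r r⁻¹).trans
      rw [map_inv₀, heq]
      simp
    exact absurd ht (not_lt.2 h1)
  · exact main r hr0 htr hgt

private theorem T3b_scale {K : Type*} [Field K] (τ : K) (hτ : τ ≠ 0)
    (hT : (!![τ, 0; 0, 1] : Matrix (Fin 2) (Fin 2) K).det ≠ 0)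
    (x : Matrix.SpecialLinearGroup (Fin 2) K) :
    (T3b_conj !![τ, 0; 0, 1] hT x) 0 0 = x 0 0 ∧
    (T3b_conj !![τ, 0; 0, 1] hT x) 0 1 = τ⁻¹ * x 0 1 ∧
    (T3b_conj !![τ, 0; 0, 1] hT x) 1 0 = τ * x 1 0 ∧
    (T3b_conj !![τ, 0; 0, 1] hT x) 1 1 = x 1 1 := by
  have hinv : (!![τ, 0; 0, 1] : Matrix (Fin 2) (Fin 2) K)⁻¹ = !![τ⁻¹, 0; 0, 1] := by
    apply Matrix.inv_eq_right_inv
    ext i j
    fin_cases i <;> fin_cases j <;> simp [Matrix.mul_apply, Fin.sum_univ_two, hτ]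
  have e2 : ((T3b_conj !![τ, 0; 0, 1] hT x : Matrix.SpecialLinearGroup (Fin 2) K) :
      Matrix (Fin 2) (Fin 2) K) = !![x 0 0, τ⁻¹ * x 0 1; τ * x 1 0, x 1 1] := by
    change (!![τ, 0; 0, 1] : Matrix (Fin 2) (Fin 2) K)⁻¹ * (x : Matrix (Fin 2) (Fin 2) K) *
      !![τ, 0; 0, 1] = _
    rw [hinv, Matrix.eta_fin_two (x : Matrix (Fin 2) (Fin 2) K)]
    ext i j
    fin_cases i <;> fin_cases j <;> simp [Matrix.mul_apply, Fin.sum_univ_two]
    · field_simp
    · ring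
  refine ⟨?_, ?_, ?_, ?_⟩
  · rw [e2]; rfl
  · rw [e2]; rfl
  · rw [e2]; rfl
  · rw [e2]; rfl

/-- PROOF. `tr h ≠ ±2` as `v (tr h) > 1` (`v` of integers is at most one), so `h` has two different eigenvalues `s, s⁻¹`, `s + s⁻¹ = tr h`; `v s ≠ 1` (otherwise `v (tr h) ≤ 1`), choose `v s > 1`. With a basis of eigenvectors: `P⁻¹ h P = diag(s, s⁻¹)`, `P ∈ GL₂(K)`; `P⁻¹ g P = !![α, β'; γ, δ]`. `D = DD (tr h) (tr g) (tr (h g)) = -(s - s⁻¹)² β' γ`
(identity: `tr h = s + s⁻¹`, `tr g = α + δ`, `tr (h g) = s α + s⁻¹ δ`, `α δ - β' γ = 1`) and `D ≠ 0`, so `β' γ ≠ 0`. Multiplying `P` by `diag(τ, 1)` with a suitable `τ` (`τ² = β' / γ` or its inverse, `K` algebraically closed) we get `β' = γ = β`.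
`Q`: the automorphism `x ↦ P⁻¹ x P` of `SL₂(K)`. -/
theorem normal_form {K Γ : Type*} [Field K] [IsAlgClosed K] [LinearOrderedCommGroupWithZero Γ]
    (v : Valuation K Γ) (h g : Matrix.SpecialLinearGroup (Fin 2) K) (hh : 1 < v (tr h))
    (hD : DD (tr h) (tr g) (tr (h * g)) ≠ 0) :
    ∃ (s : K) (Q : Matrix.SpecialLinearGroup (Fin 2) K ≃* Matrix.SpecialLinearGroup (Fin 2) K),
      (∀ x, tr (Q x) = tr x) ∧ 1 < v s ∧ v s = v (tr h) ∧ (Q h) 0 0 = s ∧ (Q h) 0 1 = 0 ∧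
      (Q h) 1 0 = 0 ∧ (Q h) 1 1 = s⁻¹ ∧ (Q g) 0 1 = (Q g) 1 0 := by
  obtain ⟨s, hs0, hts, hs1, hsi, hst, hss⟩ := T3b_eigen v (tr h) hh
  have hne : s ≠ s⁻¹ := by
    intro e
    rw [← e] at hsi
    exact absurd hsi (not_lt.2 hs1.le)
  obtain ⟨P, hP, h00, h01, h10, h11⟩ := T3b_diag h s hs0 hne hts
  have hdet : ∀ x : Matrix.SpecialLinearGroup (Fin 2) K,
      x 0 0 * x 1 1 - x 0 1 * x 1 0 = 1 := by
    intro x
    have := x.2
    rw [Matrix.det_fin_two] at this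
    exact this
  have hmul : tr (T3b_conj P hP h * T3b_conj P hP g) =
      s * (T3b_conj P hP g) 0 0 + s⁻¹ * (T3b_conj P hP g) 1 1 := by
    unfold tr
    rw [Matrix.SpecialLinearGroup.coe_mul, Matrix.mul_apply, Matrix.mul_apply,
      Fin.sum_univ_two, Fin.sum_univ_two, h00, h01, h10, h11]
    ring
  have hD' : DD (tr h) (tr g) (tr (h * g)) =
      -(s - s⁻¹) ^ 2 * ((T3b_conj P hP g) 0 1 * (T3b_conj P hP g) 1 0) := by
    rw [← T3b_tr P hP (h * g), map_mul, hmul, ← T3b_tr P hP g, hts]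
    have hg := hdet (T3b_conj P hP g)
    have hsi' : s * s⁻¹ = 1 := mul_inv_cancel₀ hs0
    unfold DD tr
    generalize s⁻¹ = y at hsi' ⊢
    generalize (T3b_conj P hP g) 0 0 = α at hg ⊢
    generalize (T3b_conj P hP g) 0 1 = β at hg ⊢
    generalize (T3b_conj P hP g) 1 0 = γ at hg ⊢
    generalize (T3b_conj P hP g) 1 1 = δ at hg ⊢
    linear_combination (4 - (α + δ) ^ 2) * hsi' - (s - y) ^ 2 * hg
  have hβγ : (T3b_conj P hP g) 0 1 * (T3b_conj P hP g) 1 0 ≠ 0 := by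
    intro e
    rw [hD', e, mul_zero] at hD
    exact hD rfl
  have hβ : (T3b_conj P hP g) 0 1 ≠ 0 := left_ne_zero_of_mul hβγ
  have hγ : (T3b_conj P hP g) 1 0 ≠ 0 := right_ne_zero_of_mul hβγ
  obtain ⟨τ, hτ⟩ := IsAlgClosed.exists_pow_nat_eq
    ((T3b_conj P hP g) 0 1 / (T3b_conj P hP g) 1 0) (n := 2) (by norm_num)
  have hτ0 : τ ≠ 0 := by
    rintro rfl
    rw [zero_pow (by norm_num)] at hτ
    exact div_ne_zero hβ hγ hτ.symm
  have hT : (!![τ, 0; 0, 1] : Matrix (Fin 2) (Fin 2) K).det ≠ 0 := by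
    rw [Matrix.det_fin_two]
    simpa using hτ0
  refine ⟨s, (T3b_conj P hP).trans (T3b_conj !![τ, 0; 0, 1] hT), ?_, hs1, hst, ?_, ?_, ?_, ?_, ?_⟩
  · intro x
    rw [MulEquiv.trans_apply, T3b_tr, T3b_tr]
  · rw [MulEquiv.trans_apply, (T3b_scale τ hτ0 hT _).1, h00]
  · rw [MulEquiv.trans_apply, (T3b_scale τ hτ0 hT _).2.1, h01, mul_zero]
  · rw [MulEquiv.trans_apply, (T3b_scale τ hτ0 hT _).2.2.1, h10, mul_zero]
  · rw [MulEquiv.trans_apply, (T3b_scale τ hτ0 hT _).2.2.2, h11]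
  · rw [MulEquiv.trans_apply, (T3b_scale τ hτ0 hT _).2.1, (T3b_scale τ hτ0 hT _).2.2.1]
    have e1 : (T3b_conj P hP g) 0 1 = τ ^ 2 * (T3b_conj P hP g) 1 0 := by
      rw [hτ, div_mul_cancel₀ _ hγ]
    rw [e1]
    field_simp

/-- PROOF. `normal_form`; `M = v s = v (tr h)`, `α = (Q g) 0 0`, ... `(s - s⁻¹) α = tr (h g) - s⁻¹ tr g` has valuation at most `M`, and `v (s - s⁻¹) = M`, so `v α ≤ 1`; `δ = tr g - α`, `v δ ≤ M`. `D = -(s - s⁻¹)² β²`, so `v β ^ 2 = v D / M² ≥ M⁻⁴`, `v β ≥ M⁻²` (if `M² v β < 1` then its square is less than one).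
`choice_w` gives `j`; `ping_pong` for `Q h` and `w = wj j (Q h) (Q g) = Q (wj j h g)`; `ev (Q a) (Q b) = Q ∘ ev a b`. -/
theorem free_pair {K Γ : Type*} [Field K] [IsAlgClosed K] [LinearOrderedCommGroupWithZero Γ]
    (v : Valuation K Γ) (h g : Matrix.SpecialLinearGroup (Fin 2) K) (hh : 1 < v (tr h))
    (hg : v (tr g) ≤ v (tr h)) (hhg : v (tr (h * g)) ≤ v (tr h))
    (hD : 1 ≤ v (tr h) ^ 2 * v (DD (tr h) (tr g) (tr (h * g))))
    (ht : 1 ≤ v (tr h) ^ 4 * v (tr g)) :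
    ∃ j : Fin 3, Function.Injective (ev (pq j h g).1 (pq j h g).2) := by
  have hD0 : DD (tr h) (tr g) (tr (h * g)) ≠ 0 := by
    intro e
    rw [e, map_zero, mul_zero] at hD
    exact absurd hD (not_le.2 zero_lt_one)
  obtain ⟨s, Q, hQ, hs1, hst, h00, h01, h10, h11, hsym⟩ := normal_form v h g hh hD0
  have hs0 : s ≠ 0 := by
    rintro rfl
    rw [map_zero] at hs1
    exact absurd hs1 (not_lt.2 zero_le)
  have hsi' : s * s⁻¹ = 1 := mul_inv_cancel₀ hs0
  have hi : v s⁻¹ < 1 := by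
    rw [map_inv₀]
    exact inv_lt_one_of_one_lt₀ hs1
  have hlt : v s⁻¹ < v s := hi.trans hs1
  have hss : v (s - s⁻¹) = v s := v.map_sub_eq_of_lt_left hlt
  have hvs0 : v s ≠ 0 := (v.ne_zero_iff).2 hs0
  rw [← hst] at hg hhg hD ht
  have trh : tr h = s + s⁻¹ := by
    rw [← hQ h]
    unfold tr
    rw [h00, h11]
  have trg : tr g = (Q g) 0 0 + (Q g) 1 1 := by
    rw [← hQ g]
    rfl
  have trhg : tr (h * g) = s * (Q g) 0 0 + s⁻¹ * (Q g) 1 1 := by
    rw [← hQ (h * g), map_mul]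
    unfold tr
    rw [Matrix.SpecialLinearGroup.coe_mul, Matrix.mul_apply, Matrix.mul_apply,
      Fin.sum_univ_two, Fin.sum_univ_two, h00, h01, h10, h11]
    ring
  have hdet : (Q g) 0 0 * (Q g) 1 1 - (Q g) 0 1 * (Q g) 1 0 = 1 := by
    have := (Q g).2
    rw [Matrix.det_fin_two] at this
    exact this
  have hα : v ((Q g) 0 0) ≤ 1 := by
    have e1 : (s - s⁻¹) * (Q g) 0 0 = tr (h * g) - s⁻¹ * tr g := by
      rw [trhg, trg]; ring
    have e2 : v s * v ((Q g) 0 0) ≤ v s := by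
      rw [← hss, ← map_mul, e1, hss]
      apply (v.map_sub _ _).trans
      apply max_le hhg
      rw [map_mul]
      calc v s⁻¹ * v (tr g) ≤ 1 * v s := mul_le_mul' hi.le hg
        _ = v s := one_mul _
    by_contra hcon
    push Not at hcon
    have : v s * 1 < v s * v ((Q g) 0 0) := by
      apply mul_lt_mul_of_pos_left hcon
      exact (v.pos_iff).2 hs0
    rw [mul_one] at this
    exact absurd e2 (not_le.2 this)
  have hδ : v ((Q g) 1 1) ≤ v s := by
    have e1 : (Q g) 1 1 = tr g - (Q g) 0 0 := by rw [trg]; ring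
    rw [e1]
    apply (v.map_sub _ _).trans
    exact max_le hg (hα.trans hs1.le)
  have hDD : DD (tr h) (tr g) (tr (h * g)) = -((s - s⁻¹) * (Q g) 0 1) ^ 2 := by
    rw [trhg, trg, trh]
    unfold DD
    rw [← hsym] at hdet
    generalize s⁻¹ = y at hsi' ⊢
    generalize (Q g) 0 0 = α at hdet ⊢
    generalize (Q g) 0 1 = β at hdet ⊢
    generalize (Q g) 1 1 = δ at hdet ⊢
    linear_combination (4 - (α + δ) ^ 2) * hsi' - (s - y) ^ 2 * hdet
  have hβ : 1 ≤ v s ^ 2 * v ((Q g) 0 1) := by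
    rw [hDD, Valuation.map_neg, map_pow, map_mul, hss] at hD
    have e1 : v s ^ 2 * (v s * v ((Q g) 0 1)) ^ 2 = (v s ^ 2 * v ((Q g) 0 1)) ^ 2 := by
      rw [mul_pow, mul_pow, ← mul_assoc]
      congr 1
      rw [← pow_mul, ← pow_add]
    rw [e1] at hD
    by_contra hcon
    push Not at hcon
    have := pow_lt_one₀ (zero_le (a := v s ^ 2 * v ((Q g) 0 1))) hcon two_ne_zero
    exact absurd hD (not_le.2 this)
  have ht' : 1 ≤ v s ^ 4 * v ((Q g) 0 0 + (Q g) 1 1) := by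
    rw [← trg]; exact ht
  obtain ⟨j, hj, hj'⟩ := choice_w v (Q h) (Q g) s hs1 h00 h01 h10 h11 hsym hα hδ hβ ht'
  refine ⟨j, ?_⟩
  have hp := ping_pong v (Q h) (wj j (Q h) (Q g)) s hs1 h00 h01 h10 h11 hj hj'
  have e : (ev ((Q h) ^ 22) (wj j (Q h) (Q g) * (Q h) ^ 22 * (wj j (Q h) (Q g))⁻¹) :
      F2 →* Matrix.SpecialLinearGroup (Fin 2) K) =
      Q.toMonoidHom.comp (ev (pq j h g).1 (pq j h g).2) := by
    refine FreeGroup.ext_hom _ _ fun b => ?_
    have hw : Q (wj j h g) = wj j (Q h) (Q g) := map_wj Q.toMonoidHom j h g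
    cases b <;> simp [ev, pq, hw]
  rw [e] at hp
  exact Function.Injective.of_comp (f := Q) hp

end Pool.Agent.Lib.MP_3bb35d_al.UE
end

section

/-!
# The uniform Tits alternative at generic points
-/

set_option autoImplicit false

namespace Pool.Agent.Lib.MP_3bb35d_al.UE

private theorem T4_tr_comm {R : Type*} [CommRing R] (x y : Matrix.SpecialLinearGroup (Fin 2) R) :
    tr (y * x) = tr (x * y) := by
  simp only [tr, Matrix.SpecialLinearGroup.coe_mul, Matrix.mul_apply, Fin.sum_univ_two]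
  ring

private theorem T4_tr_inv {R : Type*} [CommRing R] (y : Matrix.SpecialLinearGroup (Fin 2) R) :
    tr y⁻¹ = tr y := by
  simp only [tr, Matrix.SpecialLinearGroup.coe_inv, Matrix.adjugate_fin_two]
  simp
  ring

private theorem T4_bounds {K Γ : Type*} [Field K] [LinearOrderedCommGroupWithZero Γ]
    (v : Valuation K Γ) (a b c : K) (M : Γ) (hM : 1 < M) (ha : v a ≤ M) (hb : v b ≤ M)
    (hc : v c ≤ M) (hΦ : 1 ≤ v (Ph a b c)) :
    1 ≤ M ^ 2 * v (DD a b c) ∧ 1 ≤ M ^ 4 * v a ∧ 1 ≤ M ^ 4 * v b := by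
  have hM1 : 1 ≤ M := hM.le
  have hM0 : (0 : Γ) ≤ M := zero_le
  have hpow : ∀ z : K, v z ≤ M → v (z ^ 2) ≤ M ^ 3 := by
    intro z hz
    rw [map_pow]
    exact (pow_le_pow_left₀ zero_le hz 2).trans (pow_le_pow_right₀ hM1 (by norm_num))
  have habc : v (a * b * c) ≤ M ^ 3 := by
    rw [map_mul, map_mul]
    calc v a * v b * v c ≤ M * M * M := by gcongr
      _ = M ^ 3 := by rw [pow_succ, pow_two]
  have h4 : v (4 : K) ≤ M ^ 3 := by
    have h2 : v (2 : K) ≤ 1 := by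
      have := v.map_add_le (x := 1) (y := 1) (g := 1) (by simp) (by simp)
      rwa [one_add_one_eq_two] at this
    have : v (4 : K) ≤ 1 := by
      have e : (4 : K) = 2 * 2 := by norm_num
      rw [e, map_mul]
      exact mul_le_one' h2 h2
    exact this.trans (one_le_pow₀ hM1)
  have hD : v (DD a b c) ≤ M ^ 3 := by
    unfold DD
    refine v.map_sub_le (v.map_sub_le (v.map_add_le (v.map_add_le ?_ ?_) ?_) habc) h4
    · exact hpow a ha
    · exact hpow b hb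
    · exact hpow c hc
  have hP : v (Ph a b c) = v (DD a b c) * v a * v b := by
    unfold Ph
    rw [map_mul, map_mul]
  rw [hP] at hΦ
  refine ⟨hΦ.trans ?_, hΦ.trans ?_, hΦ.trans ?_⟩
  · calc v (DD a b c) * v a * v b ≤ v (DD a b c) * M * M := by gcongr
      _ = M ^ 2 * v (DD a b c) := by rw [pow_two, mul_assoc, mul_comm]
  · calc v (DD a b c) * v a * v b ≤ M ^ 3 * v a * M := by gcongr
      _ = M ^ 4 * v a := by rw [pow_succ M 3]; exact mul_right_comm _ _ _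
  · calc v (DD a b c) * v a * v b ≤ M ^ 3 * M * v b := by gcongr
      _ = M ^ 4 * v b := by rw [pow_succ M 3]

private theorem T4_DD1 {R : Type*} [CommRing R] (a b c : R) : DD b a c = DD a b c := by
  unfold DD; ring

private theorem T4_DD2 {R : Type*} [CommRing R] (a b c : R) : DD c b a = DD a b c := by
  unfold DD; ring

/-- PROOF. `exists_valuation`: a valuation `v = O.valuation` with `v Φ ≥ 1` (`Φ⁻¹ ∈ O`) and `M = max (v a) (v b) (v c) > 1`, where `a = tr x`, `b = tr y`, `c = tr (x y)`. `D = DD a b c`, `v D ≤ M ^ 3`, `1 ≤ v D * v a * v b`. Hence `1 ≤ M² v D`, `1 ≤ M ^ 4 v a`, `1 ≤ M ^ 4 v b`.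
If `M = v a`: `i.1 = 0`, `(h, g) = (x, y)`, `tr (h g) = c`. If `M = v b`: `i.1 = 1`, `(h, g) = (y, x)`, `tr (y x) = tr (x y) = c`, `DD b a c = DD a b c`. If `M = v c`: `i.1 = 2`, `(h, g) = (x y, y⁻¹)`, `tr g = b`, `h g = x`, `DD c b a = DD a b c`.
`free_pair` gives `i.2`, and `ev_comp_th`. -/
theorem tits {k K : Type*} [Field k] [Field K] [IsAlgClosed K] [Algebra k K]
    (x y : Matrix.SpecialLinearGroup (Fin 2) K)
    (h : Transcendental k (tr x) ∨ Transcendental k (tr y) ∨ Transcendental k (tr (x * y)))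
    (hΦ : Ph (tr x) (tr y) (tr (x * y)) ≠ 0) :
    ∃ i : Fin 3 × Fin 3, Function.Injective ((ev x y).comp (th i)) := by
  obtain ⟨O, hO, hn⟩ := exists_valuation (k := k) (tr x) (tr y) (tr (x * y)) h hΦ
  set v := O.valuation with hv
  have hmem : ∀ z : K, z ∈ O ↔ v z ≤ 1 := fun z => (O.valuation_le_one_iff z).symm
  have h1 : 1 ≤ v (Ph (tr x) (tr y) (tr (x * y))) := by
    have h2 := (hmem _).1 hO
    rw [map_inv₀] at h2
    have h0 : v (Ph (tr x) (tr y) (tr (x * y))) ≠ 0 := (Valuation.ne_zero_iff v).2 hΦ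
    exact (inv_le_one₀ (zero_lt_iff.2 h0)).1 h2
  have hM : 1 < max (v (tr x)) (max (v (tr y)) (v (tr (x * y)))) := by
    by_contra hcon
    rw [not_lt] at hcon
    apply hn
    rw [hmem, hmem, hmem]
    refine ⟨(le_max_left _ _).trans hcon, ((le_max_left _ _).trans (le_max_right _ _)).trans hcon,
      ((le_max_right _ _).trans (le_max_right _ _)).trans hcon⟩
  rcases le_total (v (tr y)) (v (tr x)) with hab | hab
  · rcases le_total (v (tr (x * y))) (v (tr x)) with hac | hac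
    · -- the maximum is `v (tr x)`
      have hMa : 1 < v (tr x) := by rwa [max_eq_left (max_le hab hac)] at hM
      obtain ⟨b1, b2, b3⟩ := T4_bounds v (tr x) (tr y) (tr (x * y)) (v (tr x)) hMa le_rfl hab hac h1
      obtain ⟨j, hj⟩ := free_pair v x y hMa hab hac b1 b3
      refine ⟨(0, j), ?_⟩
      rw [ev_comp_th]
      simpa [hg, ev_fx, ev_fy] using hj
    · -- the maximum is `v (tr (x * y))`
      have hbc : v (tr y) ≤ v (tr (x * y)) := hab.trans hac
      have hMc : 1 < v (tr (x * y)) := by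
        rwa [max_eq_right (hac.trans (le_max_right _ _)), max_eq_right hbc] at hM
      obtain ⟨b1, b2, b3⟩ := T4_bounds v (tr x) (tr y) (tr (x * y)) (v (tr (x * y))) hMc hac hbc
        le_rfl h1
      have e1 : (x * y) * y⁻¹ = x := by group
      obtain ⟨j, hj⟩ := free_pair v (x * y) y⁻¹ hMc (by rw [T4_tr_inv]; exact hbc)
        (by rw [e1]; exact hac) (by rw [e1, T4_tr_inv, T4_DD2]; exact b1)
        (by rw [T4_tr_inv]; exact b3)
      refine ⟨(2, j), ?_⟩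
      rw [ev_comp_th]
      simpa [hg, ev_fx, ev_fy] using hj
  · rcases le_total (v (tr (x * y))) (v (tr y)) with hac | hac
    · -- the maximum is `v (tr y)`
      have hMb : 1 < v (tr y) := by
        rwa [max_eq_left hac, max_eq_right hab] at hM
      obtain ⟨b1, b2, b3⟩ := T4_bounds v (tr x) (tr y) (tr (x * y)) (v (tr y)) hMb hab le_rfl hac h1
      obtain ⟨j, hj⟩ := free_pair v y x hMb hab (by rw [T4_tr_comm]; exact hac)
        (by rw [T4_tr_comm, T4_DD1]; exact b1) b2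
      refine ⟨(1, j), ?_⟩
      rw [ev_comp_th]
      simpa [hg, ev_fx, ev_fy] using hj
    · -- the maximum is `v (tr (x * y))`
      have hxc : v (tr x) ≤ v (tr (x * y)) := hab.trans hac
      have hMc : 1 < v (tr (x * y)) := by
        rwa [max_eq_right (hxc.trans (le_max_right _ _)), max_eq_right hac] at hM
      obtain ⟨b1, b2, b3⟩ := T4_bounds v (tr x) (tr y) (tr (x * y)) (v (tr (x * y))) hMc hxc hac
        le_rfl h1
      have e1 : (x * y) * y⁻¹ = x := by group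
      obtain ⟨j, hj⟩ := free_pair v (x * y) y⁻¹ hMc (by rw [T4_tr_inv]; exact hac)
        (by rw [e1]; exact hxc) (by rw [e1, T4_tr_inv, T4_DD2]; exact b1)
        (by rw [T4_tr_inv]; exact b3)
      refine ⟨(2, j), ?_⟩
      rw [ev_comp_th]
      simpa [hg, ev_fx, ev_fy] using hj

end Pool.Agent.Lib.MP_3bb35d_al.UE
end
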