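import Pool.Agent.Lib.MP_3bb35d_al.Mg.G014
import Pool.Agent.Lib.MP_3bb35d_al.Mg.G020
import Pool.Agent.Lib.MP_3bb35d_al.UE.C7b
import Pool.Agent.Lib.MP_3bb35d_al.Mg.G019
import Pool.Agent.Lib.MP_3bb35d_al.Mg.G006
import Pool.Agent.Lib.MP_3bb35d_al.Mg.G023
import Pool.Agent.Lib.MP_3bb35d_al.Mg.G026

section

/-!
# Classes of generating tuples
-/

set_option autoImplicit false

namespace Pool.Agent.Lib.MP_3bb35d_al.UE

/-- PROOF: transport of sets and boundaries by the isomorphism (`Set.ncard_image_of_injective`, `Nat.card_congr`). -/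
theorem IsExpander.equiv {G G' : Type*} [Group G] [Group G'] (φ : G ≃* G') {S : Set G} {ε : ℝ}
    (h : IsExpander ε S) : IsExpander ε (φ '' S) := by
  intro A' hA'
  have hφA : φ '' (φ ⁻¹' A') = A' := Set.image_preimage_eq A' φ.surjective
  have hcardA : (φ ⁻¹' A').ncard = A'.ncard := by
    conv_rhs => rw [← hφA]
    rw [Set.ncard_image_of_injective _ φ.injective]
  have hcardG : Nat.card G = Nat.card G' := Nat.card_congr φ.toEquiv
  have hb : bdry (φ '' S) A' = (Prod.map φ φ) '' bdry S (φ ⁻¹' A') := by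
    ext ⟨x, y⟩
    constructor
    · rintro ⟨hx, hy, t, ⟨s, hs, rfl⟩, h⟩
      refine ⟨(φ.symm x, φ.symm y), ⟨?_, ?_, s, hs, ?_⟩, by simp⟩
      · simpa using hx
      · simpa using hy
      · rcases h with h | h
        · left
          change φ.symm y = φ.symm x * s
          apply φ.injective
          simpa using h
        · right
          change φ.symm x = φ.symm y * s
          apply φ.injective
          simpa using h
    · rintro ⟨⟨a, b⟩, ⟨ha, hb, s, hs, h⟩, heq⟩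
      simp only [Prod.map_apply, Prod.mk.injEq] at heq
      obtain ⟨rfl, rfl⟩ := heq
      refine ⟨ha, hb, φ s, ⟨s, hs, rfl⟩, ?_⟩
      rcases h with h | h
      · left
        have h' : b = a * s := h
        simp only [h', map_mul]
      · right
        have h' : a = b * s := h
        simp only [h', map_mul]
  have h1 := h (φ ⁻¹' A') (by rw [hcardA, hcardG]; exact hA')
  rw [hb, Set.ncard_image_of_injective _ (φ.injective.prodMap φ.injective), ← hcardA]
  exact h1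

/-- PROOF. `G` acts on `B` by conjugation of all components, freely: if `g` commutes with all `S i` then it commutes with the group generated, `G`, so `g = 1`. So the orbits have `|G|` elements; `T` = a system of representatives (e.g. the image of `Quotient.out` for the orbit relation, or strong induction: choose an element, remove its orbit). -/
theorem reps {G : Type*} [Group G] [Finite G] {k : ℕ} (B : Set (Fin k → G))
    (hB : ∀ S ∈ B, ∀ g : G, (fun i => g * S i * g⁻¹) ∈ B)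
    (hgen : ∀ S ∈ B, Subgroup.closure (Set.range S) = ⊤)
    (hc : ∀ g : G, (∀ x, g * x = x * g) → g = 1) :
    ∃ T : Finset (Fin k → G), T.card * Nat.card G ≤ B.ncard ∧
      ∀ S ∈ B, ∃ g : G, (fun i => g * S i * g⁻¹) ∈ T := by
  classical
  let st : Setoid (Fin k → G) :=
    { r := fun S S' => ∃ g : G, (fun i => g * S i * g⁻¹) = S'
      iseqv :=
        { refl := fun S => ⟨1, by funext i; simp⟩
          symm := by
            rintro S S' ⟨g, rfl⟩
            exact ⟨g⁻¹, by funext i; simp [mul_assoc]⟩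
          trans := by
            rintro S S' S'' ⟨g, rfl⟩ ⟨g', rfl⟩
            exact ⟨g' * g, by funext i; simp [mul_assoc]⟩ } }
  let f : (Fin k → G) → (Fin k → G) := fun S => (Quotient.mk st S).out
  have hf : ∀ S, st.r S (f S) := fun S => st.iseqv.symm (Quotient.mk_out (s := st) S)
  have hff : ∀ S S', st.r S S' → f S = f S' := by
    intro S S' h
    change (Quotient.mk st S).out = (Quotient.mk st S').out
    rw [Quotient.sound (s := st) h]
  have hfin : (f '' B).Finite := Set.toFinite _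
  refine ⟨hfin.toFinset, ?_, ?_⟩
  · have h1 : ((f '' B) ×ˢ (Set.univ : Set G)).ncard ≤ B.ncard := by
      refine Set.ncard_le_ncard_of_injOn (fun x : (Fin k → G) × G => fun i => x.2 * x.1 i * x.2⁻¹)
        ?_ ?_ (Set.toFinite _)
      · rintro ⟨t, g⟩ ⟨⟨S, hS, rfl⟩, -⟩
        obtain ⟨g', hg'⟩ := hf S
        refine hB _ ?_ g
        change f S ∈ B
        rw [← hg']
        exact hB S hS g'
      · rintro ⟨t, g⟩ ⟨⟨S, hS, rfl⟩, -⟩ ⟨t', g'⟩ ⟨⟨S', hS', rfl⟩, -⟩ heq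
        have heq' : (fun i => g * f S i * g⁻¹) = fun i => g' * f S' i * g'⁻¹ := heq
        have h2 : st.r S S' := by
          refine st.iseqv.trans (hf S) (st.iseqv.trans ?_ (st.iseqv.symm (hf S')))
          refine ⟨g'⁻¹ * g, ?_⟩
          funext i
          have h3 : g * f S i * g⁻¹ = g' * f S' i * g'⁻¹ := congrFun heq' i
          calc g'⁻¹ * g * f S i * (g'⁻¹ * g)⁻¹ = g'⁻¹ * (g * f S i * g⁻¹) * g' := by
                simp [mul_assoc]
            _ = f S' i := by rw [h3]; simp [mul_assoc]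
        have h3 : f S = f S' := hff S S' h2
        have h4 : g'⁻¹ * g = 1 := by
          refine hc _ fun x => ?_
          have hmem : f S ∈ B := by
            obtain ⟨g'', hg''⟩ := hf S
            rw [← hg'']
            exact hB S hS g''
          have hx : x ∈ Subgroup.closure (Set.range (f S)) := by
            rw [hgen _ hmem]
            trivial
          have hle : Subgroup.closure (Set.range (f S)) ≤
              Subgroup.centralizer {g'⁻¹ * g} := by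
            rw [Subgroup.closure_le]
            rintro y ⟨i, rfl⟩
            rw [SetLike.mem_coe, Subgroup.mem_centralizer_iff]
            rintro z hz
            rw [Set.mem_singleton_iff] at hz
            rw [hz]
            have h5 : g * f S i * g⁻¹ = g' * f S i * g'⁻¹ := by
              have := congrFun heq' i
              rwa [← h3] at this
            calc g'⁻¹ * g * f S i = g'⁻¹ * (g * f S i * g⁻¹) * g := by simp [mul_assoc]
              _ = f S i * (g'⁻¹ * g) := by rw [h5]; simp [mul_assoc]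
          have h6 := hle hx
          rw [Subgroup.mem_centralizer_iff] at h6
          exact h6 _ rfl
        have h5 : g = g' := by
          have := congrArg (fun z => g' * z) h4
          simpa using this
        exact Prod.ext h3 h5
    rw [Set.ncard_prod, Set.ncard_univ] at h1
    rw [← Set.ncard_eq_toFinset_card _ hfin]
    exact h1
  · intro S hS
    obtain ⟨g, hg⟩ := hf S
    refine ⟨g, ?_⟩
    rw [Set.Finite.mem_toFinset, hg]
    exact ⟨S, hS, rfl⟩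

end Pool.Agent.Lib.MP_3bb35d_al.UE
end

section

/-!
# The third stage for a general plane curve
-/

set_option autoImplicit false

open Polynomial Finset

namespace Pool.Agent.Lib.MP_3bb35d_al.UE

/-- PROOF. `e = qy + 1`; `nagata1`: `q' = C (C c) * sub1 e q` is monic, `Bd qx (qy + e qx) q'` (`Bd_sub1`). Apply `stageB` to the families `sub2 e (fam ω j)`, `sub2 e Φ`, `sub2 e F` (`Bd3_sub2`, `monic_sub2`, `Hyp_sub2`), `q'`, and the set `X̃` of the points `(a - b ^ e, b, c)`, `(a, b, c) ∈ X` (`#X̃ = #X`; `e2_sub1`, `e3_sub2`). -/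
theorem stageB' {k : Type} [Field k] [Infinite k] {Ω : Type} [Fintype Ω]
    [Nonempty Ω] {m : ℕ}
    (fam : Ω → Fin m → R3 k) (Φ F : R3 k) (q : Polynomial (Polynomial k)) {θ η : ℝ}
    {qx qy dx dy dz M M' : ℕ} (hθ : 0 ≤ θ)
    (hM : M = qy + (qy + 1) * qx) (hM' : M' = dy + (qy + 1) * dx)
    (hfam : ∀ ω j, Bd3 dx dy dz (fam ω j)) (hΦ : Bd3 dx dy dz Φ) (hF : F.Monic)
    (hFd : Bd3 dx dy dz F) (hq : q ≠ 0) (hqd : Bd qx qy q) (H : Hyp fam Φ θ)
    (X : Finset (k × k × k)) (h0 : ∀ P ∈ X, (e2 P.1 P.2.1 : _ →+* k) q = 0)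
    (h1 : ∀ P ∈ X, (e3 P.1 P.2.1 P.2.2 : R3 k →+* k) F = 0)
    (h2 : ∀ P ∈ X, (e3 P.1 P.2.1 P.2.2 : R3 k →+* k) Φ ≠ 0)
    (h3 : ∀ P ∈ X, η * Fintype.card Ω ≤
      ({ω : Ω | ∀ j, (e3 P.1 P.2.1 P.2.2 : R3 k →+* k) (fam ω j) = 0}.ncard : ℝ)) :
    1 ≤ M * dz * θ ∨ η * #X ≤
      (M + 2 * dz * M') * (qx + 2 * dz * dx) * M * dz + M * dz * θ * #X := by
  classical
  obtain ⟨c, hc, hmon⟩ := nagata1 (e := qy + 1) hq hqd (Nat.lt_succ_self qy)
  have hq1 := Bd_sub1 (qy + 1) hqd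
  have hq2 : Bd qx M (C (C c) * sub1 (qy + 1) q) := by
    rw [hM]
    refine ⟨le_trans (natDegree_C_mul_le _ _) hq1.1, fun i => ?_⟩
    rw [coeff_C_mul]
    exact le_trans (natDegree_C_mul_le _ _) (hq1.2 i)
  let g : k × k × k → k × k × k := fun P => (P.1 - P.2.1 ^ (qy + 1), P.2.1, P.2.2)
  have hg : Function.Injective g := by
    rintro ⟨a, b, c⟩ ⟨a', b', c'⟩ h
    simp only [g, Prod.mk.injEq] at h
    obtain ⟨h1, h2, h3⟩ := h
    subst h2
    subst h3
    have : a = a' := by simpa using h1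
    rw [this]
  have hcard : #(X.image g) = #X := Finset.card_image_of_injective X hg
  have key := stageB (qx := qx) (qy := M) (dx := dx) (dy := M') (dz := dz) (η := η)
    (fun ω j => sub2 (qy + 1) (fam ω j)) (sub2 (qy + 1) Φ) (sub2 (qy + 1) F)
    (C (C c) * sub1 (qy + 1) q) hθ
    (fun ω j => by rw [hM']; exact Bd3_sub2 (qy + 1) (hfam ω j))
    (by rw [hM']; exact Bd3_sub2 (qy + 1) hΦ)
    (monic_sub2 (qy + 1) hF)
    (by rw [hM']; exact Bd3_sub2 (qy + 1) hFd)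
    hmon hq2 (Hyp_sub2 H (qy + 1)) (X.image g)
    (by
      intro P hP
      obtain ⟨Q, hQ, rfl⟩ := Finset.mem_image.mp hP
      have h := h0 Q hQ
      simp only [g, map_mul, e2_sub1, sub_add_cancel]
      rw [h, mul_zero])
    (by
      intro P hP
      obtain ⟨Q, hQ, rfl⟩ := Finset.mem_image.mp hP
      have h := h1 Q hQ
      simp only [g, e3_sub2, sub_add_cancel]
      exact h)
    (by
      intro P hP
      obtain ⟨Q, hQ, rfl⟩ := Finset.mem_image.mp hP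
      have h := h2 Q hQ
      simp only [g, e3_sub2, sub_add_cancel]
      exact h)
    (by
      intro P hP
      obtain ⟨Q, hQ, rfl⟩ := Finset.mem_image.mp hP
      have h := h3 Q hQ
      simp only [g, e3_sub2, sub_add_cancel]
      exact h)
  rw [hcard] at key
  exact key

end Pool.Agent.Lib.MP_3bb35d_al.UE
end

section

/-!
# The counting theorem
-/

set_option autoImplicit false

open Polynomial Finset

namespace Pool.Agent.Lib.MP_3bb35d_al.UE

/-- The first stage. PROOF: `K` = an algebraic closure of the fraction field of `MvPolynomial (Fin 3) k`, `P i` = the image of `X i`, transcendental; `aeval P` is injective, so `aeval P Φ ≠ 0`. `bad` = the `ω` with all `fam ω j = 0`; it has at most `θ |Ω|` elements by `H`.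
`sample`: `1 ≤ θ`, or `ω ∉ bad` with `X'`; some `f = fam ω j ≠ 0` vanishes on `X'`. -/
theorem stage0 {k : Type} [Field k] {Ω : Type} [Fintype Ω] [Nonempty Ω] {m : ℕ}
    (fam : Ω → Fin m → MvPolynomial (Fin 3) k) (Φ : MvPolynomial (Fin 3) k) {d : ℕ} {θ η : ℝ}
    (hfam : ∀ ω j, (fam ω j).totalDegree ≤ d) (hΦ0 : Φ ≠ 0)
    (H : ∀ (K : Type) [Field K] [IsAlgClosed K] [Algebra k K] (P : Fin 3 → K),
      (∃ i, Transcendental k (P i)) → MvPolynomial.aeval P Φ ≠ 0 →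
      ({ω : Ω | ∀ j, MvPolynomial.aeval P (fam ω j) = 0}.ncard : ℝ) ≤ θ * Fintype.card Ω)
    (X : Finset (Fin 3 → k))
    (h3 : ∀ P ∈ X, η * Fintype.card Ω ≤
      ({ω : Ω | ∀ j, MvPolynomial.eval P (fam ω j) = 0}.ncard : ℝ)) :
    1 ≤ θ ∨ ∃ f : MvPolynomial (Fin 3) k, f ≠ 0 ∧ f.totalDegree ≤ d ∧
      ∃ X' ⊆ X, η * #X ≤ #X' + θ * #X ∧ ∀ P ∈ X', MvPolynomial.eval P f = 0 := by
  classical
  let R := MvPolynomial (Fin 3) k
  let K := AlgebraicClosure (FractionRing R)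
  let φ : R →ₐ[k] K := IsScalarTower.toAlgHom k R K
  have hφ : Function.Injective φ := by
    have h1 : Function.Injective (algebraMap R K) := by
      rw [IsScalarTower.algebraMap_eq R (FractionRing R) K]
      exact (algebraMap (FractionRing R) K).injective.comp (IsFractionRing.injective R _)
    exact h1
  let P : Fin 3 → K := fun i => φ (MvPolynomial.X i)
  have haev : ∀ g : R, MvPolynomial.aeval P g = φ g := by
    intro g
    have h1 : MvPolynomial.aeval P = φ := MvPolynomial.algHom_ext fun i => by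
      rw [MvPolynomial.aeval_X]
    rw [h1]
  have htr : Transcendental k (P 0) := by
    have h1 : Transcendental k (MvPolynomial.X 0 : R) := MvPolynomial.transcendental_X k 0
    exact fun h2 => h1 ((isAlgebraic_algHom_iff φ hφ).1 h2)
  have hb := H K P ⟨0, htr⟩ (by
    rw [haev]
    exact fun h0 => hΦ0 (hφ (by rw [h0, map_zero])))
  rcases sample X (fun ω P => ∀ j, MvPolynomial.eval P (fam ω j) = 0)
    {ω : Ω | ∀ j, MvPolynomial.aeval P (fam ω j) = 0} h3 hb with h | ⟨ω, hω, X', hX', hV, hc⟩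
  · exact Or.inl h
  · right
    have h1 : ∃ j, MvPolynomial.aeval P (fam ω j) ≠ 0 := by
      by_contra hcon
      push Not at hcon
      exact hω hcon
    obtain ⟨j, hj⟩ := h1
    refine ⟨fam ω j, fun h0 => hj (by rw [h0, map_zero]), hfam ω j, X', hX', hc,
      fun Q hQ => hV Q hQ j⟩

private theorem C8b_num {d dz M2 M M' : ℕ} (hdz : dz = d * (d + 1) ^ 2) (hM2 : M2 = 2 * dz * d)
    (hM : M = M2 + (M2 + 1) * M2) (hM' : M' = d + (M2 + 1) * d) :
    dz ≤ (d + 2) ^ 40 ∧ M * dz ≤ (d + 2) ^ 40 ∧ 1 + dz + M * dz ≤ (d + 2) ^ 40 ∧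
      (M + 2 * dz * M') * (M2 + 2 * dz * d) * M * dz ≤ (d + 2) ^ 40 := by
  set D := d + 1 with hD
  have hD1 : 1 ≤ D := by omega
  have hdD : d ≤ D := by omega
  have a1 : dz ≤ D ^ 3 := by
    rw [hdz]
    calc d * D ^ 2 ≤ D * D ^ 2 := Nat.mul_le_mul_right _ hdD
      _ = D ^ 3 := by ring
  have a2 : M2 ≤ 2 * D ^ 4 := by
    rw [hM2]
    calc 2 * dz * d ≤ 2 * D ^ 3 * D := Nat.mul_le_mul (Nat.mul_le_mul_left _ a1) hdD
      _ = 2 * D ^ 4 := by ring
  have p4 : 1 ≤ D ^ 4 := Nat.one_le_pow _ _ hD1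
  have a3 : M ≤ 8 * D ^ 8 := by
    have e1 : M = M2 * M2 + 2 * M2 := by rw [hM]; ring
    rw [e1]
    calc M2 * M2 + 2 * M2 ≤ (2 * D ^ 4) * (2 * D ^ 4) + 2 * (2 * D ^ 4) :=
          Nat.add_le_add (Nat.mul_le_mul a2 a2) (Nat.mul_le_mul_left _ a2)
      _ ≤ (2 * D ^ 4) * (2 * D ^ 4) + 2 * (2 * D ^ 4) * D ^ 4 :=
          Nat.add_le_add_left (Nat.le_mul_of_pos_right _ p4) _
      _ = 8 * D ^ 8 := by ring
  have a4 : M' ≤ 4 * D ^ 5 := by
    have e1 : M' = (M2 + 2) * d := by rw [hM']; ring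
    rw [e1]
    calc (M2 + 2) * d ≤ (2 * D ^ 4 + 2 * D ^ 4) * D :=
          Nat.mul_le_mul (Nat.add_le_add a2 (Nat.le_mul_of_pos_right _ p4)) hdD
      _ = 4 * D ^ 5 := by ring
  have a5 : M + 2 * dz * M' ≤ 16 * D ^ 8 := by
    calc M + 2 * dz * M' ≤ 8 * D ^ 8 + 2 * D ^ 3 * (4 * D ^ 5) :=
          Nat.add_le_add a3 (Nat.mul_le_mul (Nat.mul_le_mul_left _ a1) a4)
      _ = 16 * D ^ 8 := by ring
  have a6 : M2 + 2 * dz * d ≤ 4 * D ^ 4 := by
    rw [← hM2]
    calc M2 + M2 ≤ 2 * D ^ 4 + 2 * D ^ 4 := Nat.add_le_add a2 a2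
      _ = 4 * D ^ 4 := by ring
  have a7 : M * dz ≤ 8 * D ^ 11 := by
    calc M * dz ≤ 8 * D ^ 8 * D ^ 3 := Nat.mul_le_mul a3 a1
      _ = 8 * D ^ 11 := by ring
  have a8 : (M + 2 * dz * M') * (M2 + 2 * dz * d) * M * dz ≤ 512 * D ^ 23 := by
    calc _ = (M + 2 * dz * M') * (M2 + 2 * dz * d) * (M * dz) := by ring
      _ ≤ (16 * D ^ 8) * (4 * D ^ 4) * (8 * D ^ 11) := Nat.mul_le_mul (Nat.mul_le_mul a5 a6) a7
      _ = 512 * D ^ 23 := by ring
  have hE : D ≤ d + 2 := by omega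
  have hE2 : 2 ≤ d + 2 := by omega
  have b0 : 512 * D ^ 23 ≤ (d + 2) ^ 40 := by
    calc 512 * D ^ 23 ≤ (d + 2) ^ 17 * (d + 2) ^ 23 := by
          refine Nat.mul_le_mul ?_ (Nat.pow_le_pow_left hE _)
          calc 512 ≤ 2 ^ 17 := by norm_num
            _ ≤ (d + 2) ^ 17 := Nat.pow_le_pow_left hE2 _
      _ = (d + 2) ^ 40 := by rw [← pow_add]
  have c1 : D ^ 3 ≤ D ^ 23 := Nat.pow_le_pow_right hD1 (by norm_num)
  have c2 : D ^ 11 ≤ D ^ 23 := Nat.pow_le_pow_right hD1 (by norm_num)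
  have c3 : 1 ≤ D ^ 23 := Nat.one_le_pow _ _ hD1
  refine ⟨by omega, by omega, by omega, by omega⟩

private theorem C8b_Bd3_const_mul {k : Type*} [Field k] {a b c : ℕ} (t : k) {f : R3 k}
    (h : Bd3 a b c f) : Bd3 a b c (C (C (C t)) * f) := by
  refine ⟨(natDegree_C_mul_le _ _).trans h.1, fun i => ?_⟩
  rw [coeff_C_mul]
  refine ⟨(natDegree_C_mul_le _ _).trans (h.2 i).1, fun j => ?_⟩
  rw [coeff_C_mul]
  exact (natDegree_C_mul_le _ _).trans ((h.2 i).2 j)

private theorem C8b_combine {η θ x x1 x2 T dz Mdz : ℝ} (hη : 0 ≤ η) (hη1 : η ≤ 1) (hθ : 0 ≤ θ)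
    (hx : 0 ≤ x) (hx1 : x1 ≤ x) (hx10 : 0 ≤ x1) (hx2 : x2 ≤ x1) (hdz : 0 ≤ dz)
    (hMdz : 0 ≤ Mdz)
    (h1 : η * x ≤ x1 + θ * x) (h2 : η * x1 ≤ x2 + dz * θ * x1) (h3 : η * x2 ≤ T + Mdz * θ * x2) :
    x * η ^ 3 ≤ T + (1 + dz + Mdz) * (x * θ) := by
  have k1 : η ^ 2 * (η * x) ≤ η ^ 2 * (x1 + θ * x) := mul_le_mul_of_nonneg_left h1 (sq_nonneg η)
  have k2 : η * (η * x1) ≤ η * (x2 + dz * θ * x1) := mul_le_mul_of_nonneg_left h2 hη
  have e1 : η ^ 2 ≤ 1 := pow_le_one₀ hη hη1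
  have e2 : 0 ≤ θ * x := mul_nonneg hθ hx
  have k3 : η ^ 2 * (θ * x) ≤ 1 * (θ * x) := mul_le_mul_of_nonneg_right e1 e2
  have e3 : dz * θ * x1 ≤ dz * θ * x := mul_le_mul_of_nonneg_left hx1 (mul_nonneg hdz hθ)
  have e3' : 0 ≤ dz * θ * x1 := mul_nonneg (mul_nonneg hdz hθ) hx10
  have k4 : η * (dz * θ * x1) ≤ 1 * (dz * θ * x1) := mul_le_mul_of_nonneg_right hη1 e3'
  have e4 : Mdz * θ * x2 ≤ Mdz * θ * x :=
    mul_le_mul_of_nonneg_left (hx2.trans hx1) (mul_nonneg hMdz hθ)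
  nlinarith

/-- The counting theorem. PROOF. If `X = ∅` trivial; otherwise `Φ ≠ 0`. `stage0`: if `1 ≤ θ` then `#X η³ ≤ #X ≤ #X θ (d + 2) ^ 40`. Otherwise `f`, `X₁`. `e = d + 1`, `F = C (C (C c)) * nag e f` monic (`nagata2`), all of `nag e (fam ω j)`, `nag e Φ`, `F` satisfy `Bd3 d d (d (d + 1)²)` (`Bd3_nag`), `Hyp_nag`. The points `P = (a, b, c)` of `X₁` become
`(a - c ^ e, b - c ^ (e ^ 2), c)` (injective; `e3_nag`). `stageA` with `dz = d (d + 1)²`, `dx = dy = d`: `q ≠ 0`, `Bd M₂ M₂ q` with `M₂ = 2 dz d`, `X₂` (or `1 ≤ dz θ`: then `#X η³ ≤ #X dz θ`). `stageB'` for `X₂`: `M = M₂ + (M₂ + 1) M₂`, `M' = d + (M₂ + 1) d`: (or `1 ≤ M dz θ`)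
`η #X₂ ≤ (M + 2 dz M') (M₂ + 2 dz d) M dz + M dz θ #X₂`. Together, as `η ≤ 1`: `#X η³ ≤ (M + 2 dz M') (M₂ + 2 dz d) M dz + (1 + dz + M dz) θ #X`. With `D = d + 1`: `dz ≤ D³`, `M₂ ≤ 2 D⁴`, `M ≤ 2 M₂² + 2 M₂ ≤ 12 D⁸`, `2 dz M' ≤ 2 D³ * (3 D⁴ * D + D) ≤ 8 D⁸`, so the first term is at most
`20 D⁸ * 4 D⁴ * 12 D⁸ * D³ ≤ 2 ^ 10 D ^ 23 ≤ (d + 2) ^ 40` and `1 + dz + M dz ≤ 14 D ^ 11 ≤ (d + 2) ^ 40`. -/
theorem counting {k : Type} [Field k] [Infinite k] {Ω : Type} [Fintype Ω] [Nonempty Ω] {m : ℕ}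
    (fam : Ω → Fin m → MvPolynomial (Fin 3) k) (Φ : MvPolynomial (Fin 3) k) {d : ℕ} {θ η : ℝ}
    (hθ : 0 ≤ θ) (hη : 0 ≤ η) (hη1 : η ≤ 1)
    (hfam : ∀ ω j, (fam ω j).totalDegree ≤ d) (hΦ : Φ.totalDegree ≤ d)
    (H : ∀ (K : Type) [Field K] [IsAlgClosed K] [Algebra k K] (P : Fin 3 → K),
      (∃ i, Transcendental k (P i)) → MvPolynomial.aeval P Φ ≠ 0 →
      ({ω : Ω | ∀ j, MvPolynomial.aeval P (fam ω j) = 0}.ncard : ℝ) ≤ θ * Fintype.card Ω)
    (X : Finset (Fin 3 → k)) (h2 : ∀ P ∈ X, MvPolynomial.eval P Φ ≠ 0)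
    (h3 : ∀ P ∈ X, η * Fintype.card Ω ≤
      ({ω : Ω | ∀ j, MvPolynomial.eval P (fam ω j) = 0}.ncard : ℝ)) :
    #X * η ^ 3 ≤ ((d : ℝ) + 2) ^ 40 * (1 + #X * θ) := by
  classical
  have hX0 : (0 : ℝ) ≤ #X := Nat.cast_nonneg _
  have hXθ : (0 : ℝ) ≤ #X * θ := mul_nonneg hX0 hθ
  have hE1 : (1 : ℝ) ≤ ((d : ℝ) + 2) ^ 40 := one_le_pow₀ (by
    have : (0 : ℝ) ≤ d := Nat.cast_nonneg _
    linarith)
  have hη3 : η ^ 3 ≤ 1 := pow_le_one₀ hη hη1
  have hXη : #X * η ^ 3 ≤ (#X : ℝ) := by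
    calc (#X : ℝ) * η ^ 3 ≤ #X * 1 := mul_le_mul_of_nonneg_left hη3 hX0
      _ = _ := mul_one _
  -- a way to finish
  have fin : ∀ c : ℝ, c ≤ ((d : ℝ) + 2) ^ 40 → 1 ≤ c * θ →
      #X * η ^ 3 ≤ ((d : ℝ) + 2) ^ 40 * (1 + #X * θ) := by
    intro c hc h1
    calc #X * η ^ 3 ≤ (#X : ℝ) * 1 := by rw [mul_one]; exact hXη
      _ ≤ #X * (c * θ) := mul_le_mul_of_nonneg_left h1 hX0
      _ = c * (#X * θ) := by ring
      _ ≤ ((d : ℝ) + 2) ^ 40 * (#X * θ) := mul_le_mul_of_nonneg_right hc hXθ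
      _ ≤ ((d : ℝ) + 2) ^ 40 * (1 + #X * θ) :=
          mul_le_mul_of_nonneg_left (by linarith) (by linarith)
  rcases X.eq_empty_or_nonempty with h0 | ⟨P₀, hP₀⟩
  · subst h0
    simp only [card_empty, Nat.cast_zero, zero_mul, add_zero, mul_one]
    linarith
  have hΦ0 : Φ ≠ 0 := fun h0 => h2 P₀ hP₀ (by rw [h0, map_zero])
  rcases stage0 fam Φ hfam hΦ0 H X h3 with h1 | ⟨f, hf0, hfd, X₁, hX₁, hc₁, hv₁⟩
  · exact fin 1 hE1 (by rw [one_mul]; exact h1)
  set e := d + 1 with he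
  obtain ⟨c, hc, hmon⟩ := nagata2 (e := e) hf0 (by omega)
  set dz := d * (d + 1) ^ 2 with hdz
  set M2 := 2 * dz * d with hM2
  set M := M2 + (M2 + 1) * M2 with hM
  set M' := d + (M2 + 1) * d with hM'
  obtain ⟨n1, n2, n3, n4⟩ := C8b_num hdz hM2 hM hM'
  have r1 : (dz : ℝ) ≤ ((d : ℝ) + 2) ^ 40 := by exact_mod_cast n1
  have r2 : (M : ℝ) * dz ≤ ((d : ℝ) + 2) ^ 40 := by exact_mod_cast n2
  have r3 : 1 + (dz : ℝ) + M * dz ≤ ((d : ℝ) + 2) ^ 40 := by exact_mod_cast n3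
  have r4 : ((M : ℝ) + 2 * dz * M') * (M2 + 2 * dz * d) * M * dz ≤ ((d : ℝ) + 2) ^ 40 := by
    exact_mod_cast n4
  have hfamN : ∀ ω j, Bd3 d d dz (nag e (fam ω j)) := fun ω j => Bd3_nag (by omega) (hfam ω j)
  have hΦN : Bd3 d d dz (nag e Φ) := Bd3_nag (by omega) hΦ
  have hFN : Bd3 d d dz (C (C (C c)) * nag e f) :=
    C8b_Bd3_const_mul c (Bd3_nag (by omega) hfd)
  have hHyp := Hyp_nag fam Φ H e
  -- the new points
  set τ : (Fin 3 → k) → k × k × k := fun P => (P 0 - P 2 ^ e, P 1 - P 2 ^ (e ^ 2), P 2) with hτ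
  have hτinj : Function.Injective τ := by
    intro P Q h
    simp only [hτ, Prod.mk.injEq] at h
    obtain ⟨a1, a2, a3⟩ := h
    rw [a3] at a1 a2
    funext i
    fin_cases i
    · exact sub_left_injective a1
    · exact sub_left_injective a2
    · exact a3
  have hev : ∀ (P : Fin 3 → k) (g : MvPolynomial (Fin 3) k),
      (e3 (τ P).1 (τ P).2.1 (τ P).2.2 : R3 k →+* k) (nag e g) = MvPolynomial.eval P g := by
    intro P g
    rw [e3_nag]
    have h1 : (![(τ P).1 + (τ P).2.2 ^ e, (τ P).2.1 + (τ P).2.2 ^ (e ^ 2), (τ P).2.2] :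
        Fin 3 → k) = P := by
      funext i
      fin_cases i
      · show P 0 - P 2 ^ e + P 2 ^ e = P 0
        rw [sub_add_cancel]
      · show P 1 - P 2 ^ (e ^ 2) + P 2 ^ (e ^ 2) = P 1
        rw [sub_add_cancel]
      · rfl
    rw [h1]
    exact DFunLike.congr_fun (MvPolynomial.coe_aeval_eq_eval P) g
  set Y₁ := X₁.image τ with hY₁
  have hcY₁ : #Y₁ = #X₁ := card_image_of_injective _ hτinj
  have hY : ∀ Q ∈ Y₁, ∃ P ∈ X₁, τ P = Q := fun Q hQ => mem_image.1 hQ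
  rcases stageA (fun ω j => nag e (fam ω j)) (nag e Φ) (C (C (C c)) * nag e f) (η := η) hθ hfamN
    hΦN hmon hFN hHyp Y₁
    (by
      intro Q hQ
      obtain ⟨P, hP, rfl⟩ := hY Q hQ
      rw [map_mul, hev, hv₁ P hP, mul_zero])
    (by
      intro Q hQ
      obtain ⟨P, hP, rfl⟩ := hY Q hQ
      rw [hev]
      exact h2 P (hX₁ hP))
    (by
      intro Q hQ
      obtain ⟨P, hP, rfl⟩ := hY Q hQ
      simp only [hev]
      exact h3 P (hX₁ hP)) with h1 | ⟨q, hq0, hqd, X₂, hX₂, hc₂, hv₂⟩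
  · exact fin dz r1 h1
  rcases stageB' (fun ω j => nag e (fam ω j)) (nag e Φ) (C (C (C c)) * nag e f) q (η := η)
    (M := M) (M' := M') hθ hM hM' hfamN hΦN hmon hFN hq0 hqd hHyp X₂ hv₂
    (by
      intro Q hQ
      obtain ⟨P, hP, rfl⟩ := hY Q (hX₂ hQ)
      rw [map_mul, hev, hv₁ P hP, mul_zero])
    (by
      intro Q hQ
      obtain ⟨P, hP, rfl⟩ := hY Q (hX₂ hQ)
      rw [hev]
      exact h2 P (hX₁ hP))
    (by
      intro Q hQ
      obtain ⟨P, hP, rfl⟩ := hY Q (hX₂ hQ)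
      simp only [hev]
      exact h3 P (hX₁ hP)) with h1 | h1
  · exact fin (M * dz) r2 h1
  have hx1 : (#X₁ : ℝ) ≤ #X := by exact_mod_cast card_le_card hX₁
  have hx2 : (#X₂ : ℝ) ≤ #X₁ := by
    rw [← hcY₁]
    exact_mod_cast card_le_card hX₂
  rw [hcY₁] at hc₂
  have key := C8b_combine (T := ((M : ℝ) + 2 * dz * M') * (M2 + 2 * dz * d) * M * dz)
    (dz := dz) (Mdz := M * dz) hη hη1 hθ hX0 hx1 (Nat.cast_nonneg _) hx2
    (Nat.cast_nonneg _) (mul_nonneg (Nat.cast_nonneg _) (Nat.cast_nonneg _)) hc₁ hc₂ h1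
  calc #X * η ^ 3 ≤ _ := key
    _ ≤ ((d : ℝ) + 2) ^ 40 + ((d : ℝ) + 2) ^ 40 * (#X * θ) :=
        add_le_add r4 (mul_le_mul_of_nonneg_right r3 hXθ)
    _ = _ := by ring

end Pool.Agent.Lib.MP_3bb35d_al.UE
end

section

/-!
# The number of bad points
-/

set_option autoImplicit false
set_option maxRecDepth 20000

open MvPolynomial Finset

namespace Pool.Agent.Lib.MP_3bb35d_al.UE

private theorem Z1_fiber {ι Ω : Type} [Fintype ι] [DecidableEq ι] [Fintype Ω] (i : ι)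
    (S : Set Ω) :
    ({ω : ι → Ω | ω i ∈ S}.ncard) * Fintype.card Ω = S.ncard * Fintype.card (ι → Ω) := by
  classical
  have h1 : {ω : ι → Ω | ω i ∈ S} =
      (Equiv.funSplitAt i Ω).symm '' (S ×ˢ (Set.univ : Set ({j // j ≠ i} → Ω))) := by
    rw [Equiv.image_symm_eq_preimage]
    ext ω
    simp only [Set.mem_ofPred_eq, Set.mem_preimage, Set.mem_prod, Set.mem_univ, and_true]
    rfl
  have h2 : Fintype.card (ι → Ω) = Fintype.card Ω * Fintype.card ({j // j ≠ i} → Ω) := by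
    rw [← Fintype.card_prod]
    exact Fintype.card_congr (Equiv.funSplitAt i Ω)
  rw [h1, Set.ncard_image_of_injective _ (Equiv.injective _), Set.ncard_prod, Set.ncard_univ,
    Nat.card_eq_fintype_card, h2]
  ring

private theorem Z1_pi {ι Ω : Type} [Fintype ι] (S : ι → Set Ω) :
    {ω : ι → Ω | ∀ i, ω i ∈ S i}.ncard = ∏ i, (S i).ncard := by
  have h1 : {ω : ι → Ω | ∀ i, ω i ∈ S i} = Set.univ.pi S := by
    ext ω
    simp [Set.mem_pi]
  rw [h1, ← Nat.card_coe_set_eq, Nat.card_congr (Equiv.Set.univPi S), Nat.card_pi]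
  rfl

private theorem Z1_card (n : ℕ) : Fintype.card (Om (2 * n)) = 4 ^ (8 * n) := by
  rw [Fintype.card_fun, Fintype.card_fun, Fintype.card_fin, Fintype.card_fin, ← pow_mul]
  congr 1
  ring

private theorem Z1_deg {k : Type} [Field k] :
    (Ph (X 0) (X 1) (X 2) : MvPolynomial (Fin 3) k).totalDegree ≤ 5 := by
  have hX : ∀ i, (X i : MvPolynomial (Fin 3) k).totalDegree ≤ 1 := fun i => by
    rw [totalDegree_X]
  have hX2 : ∀ i, ((X i : MvPolynomial (Fin 3) k) ^ 2).totalDegree ≤ 3 := fun i => by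
    refine (totalDegree_pow _ _).trans ?_
    have := hX i
    omega
  have h3 : (X 0 * X 1 * X 2 : MvPolynomial (Fin 3) k).totalDegree ≤ 3 := by
    refine (totalDegree_mul _ _).trans ?_
    have h1 := totalDegree_mul (X 0 : MvPolynomial (Fin 3) k) (X 1)
    have := hX 0
    have := hX 1
    have := hX 2
    omega
  have hD : (DD (X 0) (X 1) (X 2) : MvPolynomial (Fin 3) k).totalDegree ≤ 3 := by
    unfold DD
    have e1 := (totalDegree_add (X 0 ^ 2 : MvPolynomial (Fin 3) k) (X 1 ^ 2)).trans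
      (max_le (hX2 0) (hX2 1))
    have e2 := (totalDegree_add (X 0 ^ 2 + X 1 ^ 2 : MvPolynomial (Fin 3) k) (X 2 ^ 2)).trans
      (max_le e1 (hX2 2))
    have e3 := (totalDegree_sub (X 0 ^ 2 + X 1 ^ 2 + X 2 ^ 2 : MvPolynomial (Fin 3) k)
      (X 0 * X 1 * X 2)).trans (max_le e2 h3)
    have h4 : (4 : MvPolynomial (Fin 3) k).totalDegree ≤ 3 := by
      have h5 : (4 : MvPolynomial (Fin 3) k) = C 4 := (map_ofNat C 4).symm
      rw [h5, totalDegree_C]
      exact Nat.zero_le _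
    exact (totalDegree_sub _ _).trans (max_le e3 h4)
  unfold Ph
  have e1 := totalDegree_mul (DD (X 0) (X 1) (X 2) : MvPolynomial (Fin 3) k) (X 0)
  have e2 := totalDegree_mul (DD (X 0) (X 1) (X 2) * X 0 : MvPolynomial (Fin 3) k) (X 1)
  have := hX 0
  have := hX 1
  omega

private theorem Z1_map {R S : Type*} [CommRing R] [CommRing S] (φ : R →+* S) (a b c : R) :
    φ (Ph a b c) = Ph (φ a) (φ b) (φ c) := by
  have h4 : φ 4 = 4 := map_ofNat φ 4
  simp only [Ph, DD, map_mul, map_sub, map_add, map_pow, h4]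

private theorem Z1_Rep {R S : Type*} [CommRing R] [CommRing S] (φ : R →+* S)
    (hφ : Function.Injective φ) (a b c : R) (w : F2) :
    Rep (φ a) (φ b) (φ c) w = 1 ↔ Rep a b c w = 1 := by
  have h := Rep_map φ a b c w
  constructor
  · intro h1
    rw [h1] at h
    apply Units.ext
    ext i j
    have h2 := congrFun (congrFun h i) j
    apply hφ
    have h3 : φ ((1 : Matrix (Fin 4) (Fin 4) R) i j) = (1 : Matrix (Fin 4) (Fin 4) S) i j := by
      rw [Matrix.one_apply, Matrix.one_apply]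
      split_ifs
      · exact map_one φ
      · exact map_zero φ
    exact h2.trans h3.symm
  · intro h1
    rw [h1] at h
    apply Units.ext
    rw [← h]
    ext i j
    change φ ((1 : Matrix (Fin 4) (Fin 4) R) i j) = (1 : Matrix (Fin 4) (Fin 4) S) i j
    rw [Matrix.one_apply, Matrix.one_apply]
    split_ifs
    · exact map_one φ
    · exact map_zero φ

private noncomputable def Z1_e : Fin 144 ≃ (Fin 3 × Fin 3) × (Fin 4 × Fin 4) :=
  (Fintype.equivFinOfCardEq (by simp)).symm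

private theorem Z1_fam {k K : Type} [Field k] [Field K] [Algebra k K] (P : Fin 3 → K)
    (w : Fin 3 × Fin 3 → F2) :
    (∀ j : Fin 144, aeval P (RepX k (th (Z1_e j).1 (w (Z1_e j).1)) (Z1_e j).2.1 (Z1_e j).2.2) = 0)
      ↔ ∀ i : Fin 3 × Fin 3, Rep (P 0) (P 1) (P 2) (th i (w i)) = 1 := by
  constructor
  · intro h i
    rw [← aeval_RepX (k := k)]
    intro a b
    have h1 := h (Z1_e.symm (i, (a, b)))
    rw [Equiv.apply_symm_apply] at h1
    exact h1
  · intro h j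
    exact (aeval_RepX P _).2 (h (Z1_e j).1) _ _

/-- At a generic point. PROOF. `x, y` with the traces `P 0, P 1, P 2` (`exists_pair`), `i` from `tits` (the transcendental coordinate; `Ph ≠ 0`). If `Rep (P 0) (P 1) (P 2) (th i (lw fx fy (ω i))) = 1` then `ev x y (th i (lw fx fy (ω i))) = 1` (`ev_eq_one_of_Rep`), so `lw fx fy (ω i) = 1` by injectivity. So the number of such `ω` is
at most (number of the `ω₀ ∈ Om (2 n)` with `lw fx fy ω₀ = 1`) times `(4 ^ (8 n)) ^ 8`: `card_law`; the number of all `ω` is `(4 ^ (8 n)) ^ 9`. -/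
theorem generic_count {k K : Type} [Field k] [Field K] [IsAlgClosed K] [Algebra k K] (n : ℕ)
    (hn : 1 ≤ n) (P : Fin 3 → K) (hP : ∃ i, Transcendental k (P i))
    (hΦ : Ph (P 0) (P 1) (P 2) ≠ 0) :
    ({ω : Fin 3 × Fin 3 → Om (2 * n) | ∀ i,
      Rep (P 0) (P 1) (P 2) (th i (lw fx fy (ω i))) = 1}.ncard : ℝ) ≤
      (8000000 * (n : ℝ) ^ 2 * (3 / 4) ^ n) * Fintype.card (Fin 3 × Fin 3 → Om (2 * n)) := by
  classical
  obtain ⟨x, y, hx, hy, hxy⟩ := exists_pair (P 0) (P 1) (P 2)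
  have hT : Transcendental k (tr x) ∨ Transcendental k (tr y) ∨ Transcendental k (tr (x * y)) := by
    rw [hx, hy, hxy]
    obtain ⟨i, hi⟩ := hP
    fin_cases i
    · exact Or.inl hi
    · exact Or.inr (Or.inl hi)
    · exact Or.inr (Or.inr hi)
  obtain ⟨i, hinj⟩ := tits (k := k) x y hT (by rw [hx, hy, hxy]; exact hΦ)
  have hsub : {ω : Fin 3 × Fin 3 → Om (2 * n) | ∀ i,
      Rep (P 0) (P 1) (P 2) (th i (lw fx fy (ω i))) = 1} ⊆
      {ω : Fin 3 × Fin 3 → Om (2 * n) | ω i ∈ {ω₀ : Om (2 * n) | lw fx fy ω₀ = 1}} := by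
    intro ω hω
    have h1 := hω i
    rw [← hx, ← hy, ← hxy] at h1
    have h2 := ev_eq_one_of_Rep x y (th i (lw fx fy (ω i))) h1
    have h3 : lw fx fy (ω i) = 1 :=
      hinj ((MonoidHom.comp_apply (ev x y) (th i) _).trans (h2.trans (map_one _).symm))
    exact h3
  have h1 : (({ω : Fin 3 × Fin 3 → Om (2 * n) | ∀ i,
      Rep (P 0) (P 1) (P 2) (th i (lw fx fy (ω i))) = 1}.ncard : ℕ) : ℝ) ≤
      ({ω : Fin 3 × Fin 3 → Om (2 * n) | ω i ∈ {ω₀ : Om (2 * n) | lw fx fy ω₀ = 1}}.ncard : ℝ) := by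
    exact_mod_cast Set.ncard_le_ncard hsub (Set.toFinite _)
  refine h1.trans ?_
  have h2 := Z1_fiber (Ω := Om (2 * n)) i {ω₀ : Om (2 * n) | lw fx fy ω₀ = 1}
  have h3 := card_law n hn
  have h4 : (0 : ℝ) < (4 : ℝ) ^ (8 * n) := by positivity
  have h5 : (({ω : Fin 3 × Fin 3 → Om (2 * n) |
      ω i ∈ {ω₀ : Om (2 * n) | lw fx fy ω₀ = 1}}.ncard : ℕ) : ℝ) * 4 ^ (8 * n) =
      ({ω₀ : Om (2 * n) | lw fx fy ω₀ = 1}.ncard : ℝ) *
        Fintype.card (Fin 3 × Fin 3 → Om (2 * n)) := by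
    have h6 := congrArg (fun m : ℕ => (m : ℝ)) h2
    simp only [Nat.cast_mul] at h6
    rw [Z1_card] at h6
    push_cast at h6 ⊢
    exact h6
  refine le_of_mul_le_mul_right ?_ h4
  rw [h5]
  calc ({ω₀ : Om (2 * n) | lw fx fy ω₀ = 1}.ncard : ℝ) * Fintype.card (Fin 3 × Fin 3 → Om (2 * n))
      ≤ (8000000 * (n : ℝ) ^ 2 * (3 / 4) ^ n * 4 ^ (8 * n)) *
          Fintype.card (Fin 3 × Fin 3 → Om (2 * n)) :=
        mul_le_mul_of_nonneg_right h3 (Nat.cast_nonneg _)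
    _ = _ := by ring

/-- PROOF. `counting` with `k = Kb p` (algebraic closure of `ZMod p`, infinite), `Ω = Fin 3 × Fin 3 → Om (2 n)`, the family of `ω`: the `144` polynomials `RepX k (th i (lw fx fy (ω i))) a b` (an equivalence `Fin 144 ≃ (Fin 3 × Fin 3) × Fin 4 × Fin 4`), `Φ = Ph (X 0) (X 1) (X 2)` (total degree at most `5`),
`d = 860160 n = 2 * 56 * 3840 * (2 n)` (`degree_RepX`, `norm_th_le`, `norm_lw_le`), `θ = 8000000 n² (3/4) ^ n`, `η ^ 9` in the place of `η`, `X` the image of `BadPt` in `(Kb p)³` (injective). `H`: `generic_count` and `aeval_RepX`. For `P ∈ BadPt` the number of `ω` with all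
`Rep .. = 1` is the product over the nine `i` of the numbers in `BadPt` (`Rep_map` for the injective `algebraMap`), at least `(η * 4 ^ (8 n)) ^ 9 = η ^ 9 |Ω|`. -/
theorem card_Bad (p : ℕ) [Fact p.Prime] (n : ℕ) (hn : 1 ≤ n) {η : ℝ} (h0 : 0 ≤ η) (h1 : η ≤ 1) :
    ((BadPt p n η).ncard : ℝ) * η ^ 27 ≤ (860160 * (n : ℝ) + 2) ^ 40 *
      (1 + (BadPt p n η).ncard * (8000000 * (n : ℝ) ^ 2 * (3 / 4) ^ n)) := by
  have : DecidableEq (Fin 3 → Kb p) := Classical.decEq _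
  have hinj : Function.Injective (fun Q : Fin 3 → ZMod p => fun j => algebraMap (ZMod p) (Kb p) (Q j)) := by
    intro Q Q' h
    funext j
    exact (algebraMap (ZMod p) (Kb p)).injective (congrFun h j)
  have hfin : (BadPt p n η).Finite := Set.toFinite _
  have hcard : (#(hfin.toFinset.image
      (fun Q : Fin 3 → ZMod p => fun j => algebraMap (ZMod p) (Kb p) (Q j))) : ℝ) =
      ((BadPt p n η).ncard : ℝ) := by
    rw [card_image_of_injective _ hinj, Set.ncard_eq_toFinset_card _ hfin]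
  have hmem : ∀ P ∈ hfin.toFinset.image
      (fun Q : Fin 3 → ZMod p => fun j => algebraMap (ZMod p) (Kb p) (Q j)),
      ∃ Q ∈ BadPt p n η, P = fun j => algebraMap (ZMod p) (Kb p) (Q j) := by
    intro P hP
    obtain ⟨Q, hQ, rfl⟩ := mem_image.1 hP
    exact ⟨Q, hfin.mem_toFinset.1 hQ, rfl⟩
  have hev : ∀ (P : Fin 3 → Kb p) (q : MvPolynomial (Fin 3) (Kb p)), eval P q = aeval P q := by
    intro P q
    rw [aeval_eq_eval]
  have key := counting (k := Kb p) (Ω := Fin 3 × Fin 3 → Om (2 * n)) (m := 144)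
    (fun ω j => RepX (Kb p) (th (Z1_e j).1 (lw fx fy (ω (Z1_e j).1))) (Z1_e j).2.1 (Z1_e j).2.2)
    (Ph (X 0) (X 1) (X 2)) (d := 860160 * n) (θ := 8000000 * (n : ℝ) ^ 2 * (3 / 4) ^ n)
    (η := η ^ 9) (by positivity) (by positivity) (pow_le_one₀ h0 h1) ?_ ?_ ?_
    (hfin.toFinset.image (fun Q : Fin 3 → ZMod p => fun j => algebraMap (ZMod p) (Kb p) (Q j)))
    ?_ ?_
  · rw [hcard] at key
    calc ((BadPt p n η).ncard : ℝ) * η ^ 27 = ((BadPt p n η).ncard : ℝ) * (η ^ 9) ^ 3 := by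
          rw [← pow_mul]
      _ ≤ _ := key
      _ = _ := by
          push_cast
          rfl
  · intro ω j
    refine (degree_RepX _ _ _ _).trans ?_
    have e1 := norm_th_le (Z1_e j).1 (lw fx fy (ω (Z1_e j).1))
    have e2 := norm_lw_le (2 * n) (ω (Z1_e j).1)
    calc 2 * (th (Z1_e j).1 (lw fx fy (ω (Z1_e j).1))).norm ≤ 2 * (56 * (3840 * (2 * n))) := by
          refine Nat.mul_le_mul_left 2 (e1.trans (Nat.mul_le_mul_left 56 e2))
      _ = 860160 * n := by ring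
  · exact Z1_deg.trans (by omega)
  · intro K _ _ _ P hP hΦ
    have h2 : Ph (P 0) (P 1) (P 2) ≠ 0 := by
      intro h
      apply hΦ
      have h3 := Z1_map (aeval P : MvPolynomial (Fin 3) (Kb p) →ₐ[Kb p] K).toRingHom
        (X 0) (X 1) (X 2)
      have h4 : ∀ j, (aeval P : MvPolynomial (Fin 3) (Kb p) →ₐ[Kb p] K).toRingHom (X j) = P j :=
        fun j => aeval_X P j
      rw [h4, h4, h4, h] at h3
      exact h3
    have h3 := generic_count n hn P hP h2
    have h4 : {ω : Fin 3 × Fin 3 → Om (2 * n) | ∀ j : Fin 144, aeval P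
        (RepX (Kb p) (th (Z1_e j).1 (lw fx fy (ω (Z1_e j).1))) (Z1_e j).2.1 (Z1_e j).2.2) = 0} =
        {ω : Fin 3 × Fin 3 → Om (2 * n) | ∀ i,
          Rep (P 0) (P 1) (P 2) (th i (lw fx fy (ω i))) = 1} := by
      ext ω
      exact Z1_fam P (fun i => lw fx fy (ω i))
    rw [h4]
    exact h3
  · intro P hP
    obtain ⟨Q, hQ, rfl⟩ := hmem P hP
    intro h
    apply hQ.1
    have h3 := Z1_map (eval (fun j => algebraMap (ZMod p) (Kb p) (Q j)) :
      MvPolynomial (Fin 3) (Kb p) →+* Kb p) (X 0) (X 1) (X 2)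
    rw [h, eval_X, eval_X, eval_X, ← Z1_map (algebraMap (ZMod p) (Kb p))] at h3
    exact (algebraMap (ZMod p) (Kb p)).injective (by rw [← h3, map_zero])
  · intro P hP
    obtain ⟨Q, hQ, rfl⟩ := hmem P hP
    have h4 : {ω : Fin 3 × Fin 3 → Om (2 * n) | ∀ j : Fin 144,
        eval (fun j => algebraMap (ZMod p) (Kb p) (Q j))
        (RepX (Kb p) (th (Z1_e j).1 (lw fx fy (ω (Z1_e j).1))) (Z1_e j).2.1 (Z1_e j).2.2) = 0} =
        {ω : Fin 3 × Fin 3 → Om (2 * n) | ∀ i,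
          ω i ∈ {ω₀ : Om (2 * n) | Rep (Q 0) (Q 1) (Q 2) (th i (lw fx fy ω₀)) = 1}} := by
      ext ω
      have h5 := Z1_fam (k := Kb p) (fun j => algebraMap (ZMod p) (Kb p) (Q j))
        (fun i => lw fx fy (ω i))
      simp only [Set.mem_ofPred_eq, hev]
      refine h5.trans ?_
      refine forall_congr' fun i => ?_
      exact Z1_Rep (algebraMap (ZMod p) (Kb p)) (algebraMap (ZMod p) (Kb p)).injective
        (Q 0) (Q 1) (Q 2) (th i (lw fx fy (ω i)))
    rw [h4, Z1_pi]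
    push_cast
    have h6 : (Fintype.card (Fin 3 × Fin 3 → Om (2 * n)) : ℝ) =
        ∏ _i : Fin 3 × Fin 3, (4 : ℝ) ^ (8 * n) := by
      rw [Fintype.card_fun, Z1_card, prod_const, card_univ]
      push_cast
      rfl
    have h7 : η ^ 9 = ∏ _i : Fin 3 × Fin 3, η := by
      rw [prod_const, card_univ]
      rfl
    have h8 : η ^ 9 * (Fintype.card (Fin 3 × Fin 3 → Om (2 * n)) : ℝ) =
        ∏ _i : Fin 3 × Fin 3, η * (4 : ℝ) ^ (8 * n) := by
      rw [h6, h7, ← prod_mul_distrib]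
    rw [h8]
    refine prod_le_prod (fun i _ => by positivity) fun i _ => ?_
    have h9 : η * 4 ^ (8 * n) ≤
        ({ω : Om (2 * n) | Rep (Q 0) (Q 1) (Q 2) (th i (lw fx fy ω)) = 1}.ncard : ℝ) := hQ.2 i
    exact h9

end Pool.Agent.Lib.MP_3bb35d_al.UE
end
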