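import Mathlib

section

/-!
# Elimination: definitions
-/

set_option autoImplicit false

open Polynomial

namespace Pool.Agent.Lib.MP_3bb35d_al.UE

/-- Polynomials in three variables `X, Y, Z` (innermost `X`, outermost `Z`). -/
abbrev R3 (k : Type*) [Field k] : Type _ := Polynomial (Polynomial (Polynomial k))

/-- Evaluation of polynomials in `X`. -/
noncomputable def e1 {k K : Type*} [Field k] [Field K] [Algebra k K] (x : K) :
    Polynomial k →+* K := eval₂RingHom (algebraMap k K) x

/-- Evaluation of polynomials in `X, Y`. -/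
noncomputable def e2 {k K : Type*} [Field k] [Field K] [Algebra k K] (x y : K) :
    Polynomial (Polynomial k) →+* K := eval₂RingHom (e1 x) y

/-- Evaluation of polynomials in `X, Y, Z`. -/
noncomputable def e3 {k K : Type*} [Field k] [Field K] [Algebra k K] (x y z : K) :
    R3 k →+* K := eval₂RingHom (e2 x y) z

/-- The degree in `X` is at most `dx`, the degree in `Y` at most `dy`. -/
def Bd {k : Type*} [Field k] (dx dy : ℕ) (q : Polynomial (Polynomial k)) : Prop :=
  q.natDegree ≤ dy ∧ ∀ i, (q.coeff i).natDegree ≤ dx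

/-- The degrees in `X, Y, Z` are at most `dx, dy, dz`. -/
def Bd3 {k : Type*} [Field k] (dx dy dz : ℕ) (f : R3 k) : Prop :=
  f.natDegree ≤ dz ∧ ∀ i, Bd dx dy (f.coeff i)

/-- The hypothesis at the generic points: at every point with a transcendental coordinate, in an algebraically closed field,
where `Φ` does not vanish, the proportion of the vanishing families is at most `θ`. -/
def Hyp {k : Type} [Field k] {Ω : Type} [Fintype Ω] {m : ℕ} (fam : Ω → Fin m → R3 k) (Φ : R3 k)
    (θ : ℝ) : Prop :=
  ∀ (K : Type) [Field K] [IsAlgClosed K] [Algebra k K] (x y z : K),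
    (Transcendental k x ∨ Transcendental k y ∨ Transcendental k z) → e3 x y z Φ ≠ 0 →
    ({ω : Ω | ∀ j, e3 x y z (fam ω j) = 0}.ncard : ℝ) ≤ θ * Fintype.card Ω

/-- The factor `U + (α + T β)` in `L[T][U]`. -/
noncomputable def fac {L : Type*} [CommRing L] (e : L × L) : Polynomial (Polynomial L) :=
  X + C (C e.1 + C e.2 * X)

/-- The product of the factors. -/
noncomputable def Wm {L : Type*} [CommRing L] (m : Multiset (L × L)) :
    Polynomial (Polynomial L) := (m.map fac).prod

/-- Constants. -/
noncomputable def CC (A : Type*) [CommRing A] : A →+* Polynomial (Polynomial A) :=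
  (C : Polynomial A →+* Polynomial (Polynomial A)).comp C

/-- `f + T Φ + U`, as a polynomial over `A[T][U]`. -/
noncomputable def mix {A : Type*} [CommRing A] (f Φ : Polynomial A) :
    Polynomial (Polynomial (Polynomial A)) :=
  f.map (CC A) + C (C X) * Φ.map (CC A) + C X

/-- `Res_Z (F, f + T Φ + U)`, an element of `A[T][U]`. -/
noncomputable def res2 {A : Type*} [CommRing A] (F f Φ : Polynomial A) (n : ℕ) :
    Polynomial (Polynomial A) :=
  resultant (F.map (CC A)) (mix f Φ) F.natDegree n

/-- `f + T Φ + U` for `f, Φ ∈ S[Y][Z]`, as a polynomial in `Y, Z` over `S[T][U]`. -/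
noncomputable def mix1 {S : Type*} [CommRing S] (f Φ : Polynomial (Polynomial S)) :
    Polynomial (Polynomial (Polynomial (Polynomial S))) :=
  f.map (mapRingHom (CC S)) + C (C (C X)) * Φ.map (mapRingHom (CC S)) + C (C X)

/-- The inner resultant `Res_Z (F, f + T Φ + U)`, a polynomial in `Y` over `S[T][U]`. -/
noncomputable def res1i {S : Type*} [CommRing S] (F f Φ : Polynomial (Polynomial S)) (n : ℕ) :
    Polynomial (Polynomial (Polynomial S)) :=
  resultant (F.map (mapRingHom (CC S))) (mix1 f Φ) F.natDegree n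

/-- `Res_Y (q, Res_Z (F, f + T Φ + U))`, an element of `S[T][U]`. -/
noncomputable def res1 {S : Type*} [CommRing S] (q : Polynomial S)
    (F f Φ : Polynomial (Polynomial S)) (n n' : ℕ) : Polynomial (Polynomial S) :=
  resultant (q.map (CC S)) (res1i F f Φ n) q.natDegree n'

/-- Filtrations of a ring. -/
structure Filt (B : Type*) [CommRing B] where
  F : ℕ → Set B
  mono : ∀ {m n : ℕ}, m ≤ n → F m ⊆ F n
  zero : ∀ n, (0 : B) ∈ F n
  one : (1 : B) ∈ F 0
  add : ∀ {n : ℕ} {a b : B}, a ∈ F n → b ∈ F n → a + b ∈ F n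
  neg : ∀ {n : ℕ} {a : B}, a ∈ F n → -a ∈ F n
  mul : ∀ {m n : ℕ} {a b : B}, a ∈ F m → b ∈ F n → a * b ∈ F (m + n)

end Pool.Agent.Lib.MP_3bb35d_al.UE
end

section

/-!
# The coefficient of `U ^ ν T ^ 0`
-/

set_option autoImplicit false

open Polynomial

namespace Pool.Agent.Lib.MP_3bb35d_al.UE

private theorem C1_Wm_add {L : Type*} [Field L] (a b : Multiset (L × L)) :
    Wm (a + b) = Wm a * Wm b := by
  rw [Wm, Wm, Wm, Multiset.map_add, Multiset.prod_add]

private theorem C1_Wm_zero {L : Type*} [Field L] (a : Multiset (L × L))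
    (h : ∀ e ∈ a, e.1 = 0 ∧ e.2 = 0) : Wm a = X ^ a.card := by
  rw [Wm, Multiset.map_congr rfl (g := fun _ => (X : Polynomial (Polynomial L))),
    Multiset.map_const', Multiset.prod_replicate]
  intro e he
  obtain ⟨h1, h2⟩ := h e he
  simp [fac, h1, h2]

private theorem C1_coeff0 {L : Type*} [Field L] (a : Multiset (L × L)) :
    (Wm a).coeff 0 = (a.map fun e => C e.1 + C e.2 * X).prod := by
  have h1 : (Wm a).coeff 0 = constantCoeff (Wm a) := rfl
  rw [h1, Wm, map_multiset_prod, Multiset.map_map]
  congr 1
  apply Multiset.map_congr rfl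
  intro e _
  simp [fac]

private theorem C1_coeff00 {L : Type*} [Field L] (a : Multiset (L × L)) :
    ((Wm a).coeff 0).coeff 0 = (a.map fun e => e.1).prod := by
  rw [C1_coeff0]
  have h1 : ((a.map fun e => C e.1 + C e.2 * X).prod : Polynomial L).coeff 0 =
    constantCoeff (a.map fun e => C e.1 + C e.2 * X).prod := rfl
  rw [h1, map_multiset_prod, Multiset.map_map]
  congr 1
  apply Multiset.map_congr rfl
  intro e _
  simp

private theorem C1_zero_notMem {L : Type*} [Field L] (a : Multiset (L × L)) :
    (0 : L) ∈ (a.map fun e => e.1) ↔ ∃ e ∈ a, e.1 = 0 := by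
  simp

/-- PROOF: the factors with `e.1 = 0` are `X` (as `e.2 = 0`); `Wm m = X ^ ν * Wm m'` with `m'` the multiset of the `e` with `e.1 ≠ 0`, the coefficient `ν` of `Wm m` is the coefficient zero of `Wm m'`, i.e. `∏ (C e.1 + C e.2 * X)`, and its constant coefficient is `∏ e.1 ≠ 0`. -/
theorem Wm_generic {L : Type*} [Field L] [DecidableEq L] (m : Multiset (L × L))
    (hm : ∀ e ∈ m, e.1 ≠ 0 ∨ e.2 = 0) :
    (∀ j < (m.filter fun e => e.1 = 0).card, (Wm m).coeff j = 0) ∧
      ((Wm m).coeff (m.filter fun e => e.1 = 0).card).coeff 0 ≠ 0 := by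
  set m1 := m.filter fun e => e.1 = 0 with hm1
  set m2 := m.filter fun e => ¬ e.1 = 0 with hm2
  have hsplit : m1 + m2 = m := Multiset.filter_add_not _ m
  have hW : Wm m = X ^ m1.card * Wm m2 := by
    rw [← hsplit, C1_Wm_add, C1_Wm_zero m1]
    intro e he
    rw [hm1, Multiset.mem_filter] at he
    refine ⟨he.2, ?_⟩
    rcases hm e he.1 with h1 | h1
    · exact absurd he.2 h1
    · exact h1
  rw [hW]
  constructor
  · intro j hj
    rw [coeff_X_pow_mul', if_neg (not_le.2 hj)]
  · rw [coeff_X_pow_mul', if_pos le_rfl, Nat.sub_self, C1_coeff00]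
    apply Multiset.prod_ne_zero
    rw [C1_zero_notMem]
    rintro ⟨e, he, he0⟩
    rw [hm2, Multiset.mem_filter] at he
    exact he.2 he0

/-- PROOF. Let `ν'` be the number of `e ∈ m` with `e = (0, 0)`; `Wm m = X ^ ν' * Wm m''`, `m''` the other `e`. `(Wm m'').coeff 0 = ∏ (C e.1 + C e.2 * X) ≠ 0`, so `(Wm m).coeff ν' ≠ 0` and `ν ≤ ν'`. If `ν < ν'` the coefficient `ν` is zero. If `ν = ν'` it is
`∏ over m'' of (C e.1 + C e.2 * X)`, whose constant coefficient is `∏ e.1 = 0`, as the given `e₀ = (0, e.2)`, `e.2 ≠ 0` is in `m''`. -/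
theorem Wm_closed {L : Type*} [Field L] (m : Multiset (L × L)) (ν : ℕ)
    (h : ∀ j < ν, (Wm m).coeff j = 0) (h' : ∃ e ∈ m, e.1 = 0 ∧ e.2 ≠ 0) :
    ((Wm m).coeff ν).coeff 0 = 0 := by
  classical
  set m1 := m.filter fun e => e.1 = 0 ∧ e.2 = 0 with hm1
  set m2 := m.filter fun e => ¬ (e.1 = 0 ∧ e.2 = 0) with hm2
  have hsplit : m1 + m2 = m := Multiset.filter_add_not _ m
  have hW : Wm m = X ^ m1.card * Wm m2 := by
    rw [← hsplit, C1_Wm_add, C1_Wm_zero m1]
    intro e he
    rw [hm1, Multiset.mem_filter] at he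
    exact he.2
  have hne : (Wm m2).coeff 0 ≠ 0 := by
    rw [C1_coeff0]
    apply Multiset.prod_ne_zero
    rw [Multiset.mem_map]
    rintro ⟨e, he, he0⟩
    rw [hm2, Multiset.mem_filter] at he
    apply he.2
    constructor
    · have := congrArg (fun q => Polynomial.coeff q 0) he0
      simpa using this
    · have := congrArg (fun q => Polynomial.coeff q 1) he0
      simpa [coeff_C] using this
  have hν : ν ≤ m1.card := by
    by_contra hlt
    apply hne
    have h1 := h m1.card (not_le.1 hlt)
    rw [hW, coeff_X_pow_mul', if_pos le_rfl, Nat.sub_self] at h1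
    exact h1
  rw [hW, coeff_X_pow_mul']
  split_ifs with hh
  · have : ν - m1.card = 0 := by omega
    rw [this, C1_coeff00]
    apply Multiset.prod_eq_zero
    rw [C1_zero_notMem]
    obtain ⟨e, he, he1, he2⟩ := h'
    refine ⟨e, ?_, he1⟩
    rw [hm2, Multiset.mem_filter]
    exact ⟨he, fun hc => he2 hc.2⟩
  · simp

/-- PROOF: `ν` = the number of `e ∈ m` with `e.1 = 0`. By `Wm_generic` the coefficients of `N` of index `< ν` are mapped to zero by the injective `φ`, so they are zero; `(N.coeff ν).coeff 0` is mapped to a nonzero element. `Wm_closed` for `N.map (mapRingHom ψ)`. -/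
theorem elim_coeff {A Ω : Type*} [CommRing A] [Field Ω] (φ : A →+* Ω)
    (hφ : Function.Injective φ) (N : Polynomial (Polynomial A)) (m : Multiset (Ω × Ω))
    (hN : N.map (mapRingHom φ) = Wm m) (hm : ∀ e ∈ m, e.1 ≠ 0 ∨ e.2 = 0) :
    ∃ ν : ℕ, (N.coeff ν).coeff 0 ≠ 0 ∧
      ∀ (L : Type) [Field L] (ψ : A →+* L) (m' : Multiset (L × L)),
        N.map (mapRingHom ψ) = Wm m' → (∃ e ∈ m', e.1 = 0 ∧ e.2 ≠ 0) →
        ψ ((N.coeff ν).coeff 0) = 0 := by
  classical
  have hg := Wm_generic m hm
  rw [← hN] at hg
  refine ⟨(m.filter fun e => e.1 = 0).card, ?_, ?_⟩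
  · intro h0
    apply hg.2
    rw [coeff_map, coe_mapRingHom, coeff_map, h0, map_zero]
  · intro L _ ψ m' hm' he
    have h1 : ∀ j < (m.filter fun e => e.1 = 0).card, (Wm m').coeff j = 0 := by
      intro j hj
      have h2 := hg.1 j hj
      rw [coeff_map, coe_mapRingHom] at h2
      have h3 : N.coeff j = 0 := by
        apply Polynomial.map_injective φ hφ
        rw [h2, Polynomial.map_zero]
      rw [← hm', coeff_map, h3, map_zero]
    have h4 := Wm_closed m' _ h1 he
    rw [← hm', coeff_map, coe_mapRingHom, coeff_map] at h4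
    exact h4

end Pool.Agent.Lib.MP_3bb35d_al.UE
end

section

/-!
# Resultants as products, one step
-/

set_option autoImplicit false

open Polynomial

namespace Pool.Agent.Lib.MP_3bb35d_al.UE

/-- PROOF: induction on `m`: Mathlib `resultant_mul_left`, `resultant_X_sub_C_left` (or `resultant_prod_left`), file `RingTheory/Polynomial/Resultant/Basic`; `B` nontrivial or trivial (both sides equal). -/
theorem resultant_split {B : Type*} [CommRing B] (m : Multiset B) (g : Polynomial B) (n : ℕ)
    (hn : g.natDegree ≤ n) :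
    resultant (m.map fun r => X - C r).prod g (Multiset.card m) n = (m.map fun r => g.eval r).prod := by
  cases subsingleton_or_nontrivial B with
  | inl _ => exact Subsingleton.elim _ _
  | inr _ =>
    induction m using Multiset.induction_on with
    | empty => simp
    | cons a m ih =>
      have h1 : (X - C a : Polynomial B).natDegree = 1 := natDegree_X_sub_C a
      have h2 : ((m.map fun r => X - C r).prod : Polynomial B).natDegree = Multiset.card m :=
        natDegree_multiset_prod_X_sub_C_eq_card m
      have h3 := resultant_mul_left (X - C a) (m.map fun r => X - C r).prod g n hn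
      rw [h1, h2, ih, resultant_X_sub_C_left g n a hn] at h3
      rw [Multiset.map_cons, Multiset.prod_cons, Multiset.map_cons, Multiset.prod_cons,
        Multiset.card_cons, add_comm (Multiset.card m) 1]
      exact h3

/-- PROOF: `resultant_map_map` (functoriality); `(F.map (CC A)).map (mapRingHom (mapRingHom ψ)) = (F.map ψ).map (CC L)`, and `F.map ψ = ∏ (X - C z)` over its roots, `resultant_split` with the roots `C (C z)`; `(mix f Φ).map ..` evaluated at `C (C z)` is `fac (f^ψ(z), Φ^ψ(z))`. -/
theorem res2_eq {A L : Type*} [CommRing A] [Field L] [IsAlgClosed L] (ψ : A →+* L)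
    (F f Φ : Polynomial A) (hF : F.Monic) (n : ℕ) (hf : f.natDegree ≤ n) (hΦ : Φ.natDegree ≤ n) :
    (res2 F f Φ n).map (mapRingHom ψ) =
      Wm ((F.map ψ).roots.map fun z => ((f.map ψ).eval z, (Φ.map ψ).eval z)) := by
  have hφ : (mapRingHom (mapRingHom ψ)).comp (CC A) = (CC L).comp ψ := by
    ext a
    simp [CC]
  have hFm : (F.map ψ).Monic := hF.map ψ
  have hroots : F.map ψ = ((F.map ψ).roots.map fun z => X - C z).prod :=
    (IsAlgClosed.splits (F.map ψ)).eq_prod_roots_of_monic hFm
  have hcard : F.natDegree = Multiset.card ((F.map ψ).roots.map fun z => C (C z)) := by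
    rw [Multiset.card_map, ← (IsAlgClosed.splits (F.map ψ)).natDegree_eq_card_roots,
      hF.natDegree_map]
  have hF1 : (F.map (CC A)).map (mapRingHom (mapRingHom ψ)) =
      (((F.map ψ).roots.map fun z => C (C z)).map fun r => X - C r).prod := by
    rw [Polynomial.map_map, hφ, ← Polynomial.map_map]
    conv_lhs => rw [hroots]
    rw [Polynomial.map_multiset_prod, Multiset.map_map, Multiset.map_map]
    refine congrArg Multiset.prod (Multiset.map_congr rfl fun z _ => ?_)
    simp [CC]
  have hdeg : ((mix f Φ).map (mapRingHom (mapRingHom ψ))).natDegree ≤ n := by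
    refine natDegree_map_le.trans ?_
    unfold mix
    refine natDegree_add_le_of_degree_le (natDegree_add_le_of_degree_le ?_ ?_) ?_
    · exact natDegree_map_le.trans hf
    · exact (natDegree_C_mul_le _ _).trans (natDegree_map_le.trans hΦ)
    · rw [natDegree_C]
      exact Nat.zero_le _
  have hres : (res2 F f Φ n).map (mapRingHom ψ) =
      resultant ((F.map (CC A)).map (mapRingHom (mapRingHom ψ)))
        ((mix f Φ).map (mapRingHom (mapRingHom ψ))) F.natDegree n := by
    rw [resultant_map_map]
    rfl
  rw [hres, hF1, hcard, resultant_split _ _ _ hdeg]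
  unfold Wm
  rw [Multiset.map_map, Multiset.map_map]
  refine congrArg Multiset.prod (Multiset.map_congr rfl fun z _ => ?_)
  have key : ∀ g : Polynomial A,
      ((g.map (CC A)).map (mapRingHom (mapRingHom ψ))).eval (C (C z)) =
        C (C ((g.map ψ).eval z)) := by
    intro g
    rw [Polynomial.map_map, hφ, ← Polynomial.map_map, eval_map]
    exact (Polynomial.hom_eval₂ (g.map ψ) (RingHom.id L) (CC L) z).symm
  show ((mix f Φ).map (mapRingHom (mapRingHom ψ))).eval (C (C z)) =
    fac ((f.map ψ).eval z, (Φ.map ψ).eval z)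
  unfold mix fac
  rw [Polynomial.map_add, Polynomial.map_add, Polynomial.map_mul, eval_add, eval_add, eval_mul,
    key, key, map_C, map_C, eval_C, eval_C]
  simp only [coe_mapRingHom, map_C, map_X, map_add, map_mul]
  ring

end Pool.Agent.Lib.MP_3bb35d_al.UE
end

section

/-!
# Filtrations, determinants and resultants
-/

set_option autoImplicit false

open Polynomial

namespace Pool.Agent.Lib.MP_3bb35d_al.UE

variable {B : Type*} [CommRing B]

theorem Filt.sum_mem (T : Filt B) {ι : Type*} (s : Finset ι) (f : ι → B) (n : ℕ)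
    (h : ∀ i ∈ s, f i ∈ T.F n) : ∑ i ∈ s, f i ∈ T.F n := by
  classical
  induction s using Finset.cons_induction with
  | empty => simpa using T.zero n
  | cons a s ha ih =>
    rw [Finset.sum_cons]
    exact T.add (h a (Finset.mem_cons_self a s))
      (ih fun i hi => h i (Finset.mem_cons_of_mem hi))

/-- A product of `#s` elements of `T.F n` is in `T.F (#s * n)`. -/
theorem Filt.prod_mem (T : Filt B) {ι : Type*} (s : Finset ι) (f : ι → B) (n : ℕ)
    (h : ∀ i ∈ s, f i ∈ T.F n) : ∏ i ∈ s, f i ∈ T.F (s.card * n) := by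
  classical
  induction s using Finset.cons_induction with
  | empty => simpa using T.one
  | cons a s ha ih =>
    rw [Finset.prod_cons, Finset.card_cons, add_mul, one_mul, add_comm]
    exact T.mul (h a (Finset.mem_cons_self a s))
      (ih fun i hi => h i (Finset.mem_cons_of_mem hi))

/-- The filtration of `B[X]` by the coefficients. -/
def Filt.poly (T : Filt B) : Filt (Polynomial B) where
  F n := {q | ∀ i, q.coeff i ∈ T.F n}
  mono := fun hmn _ hq i => T.mono hmn (hq i)
  zero := fun n i => by simpa using T.zero n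
  one := fun i => by
    rw [coeff_one]
    split_ifs
    · exact T.one
    · exact T.zero 0
  add := fun ha hb i => by
    rw [coeff_add]
    exact T.add (ha i) (hb i)
  neg := fun ha i => by
    rw [coeff_neg]
    exact T.neg (ha i)
  mul := by
    intro m n a b ha hb i
    rw [coeff_mul]
    have key : ∀ s : Finset (ℕ × ℕ), ∑ x ∈ s, a.coeff x.1 * b.coeff x.2 ∈ T.F (m + n) := by
      intro s
      induction s using Finset.cons_induction with
      | empty => simpa using T.zero (m + n)
      | cons x s hx ih =>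
        rw [Finset.sum_cons]
        exact T.add (T.mul (ha _) (hb _)) ih
    exact key _

/-- The filtration of `B[X]` by the degree. -/
def Filt.dg (B : Type*) [CommRing B] : Filt (Polynomial B) where
  F n := {q | q.natDegree ≤ n}
  mono := fun hmn _ hq => le_trans hq hmn
  zero := fun n => by simp
  one := by simp
  add := fun ha hb => (natDegree_add_le_of_degree_le ha hb)
  neg := fun ha => by simpa using ha
  mul := fun ha hb => natDegree_mul_le_of_le ha hb

/-- PROOF: Leibniz formula `Matrix.det_apply`, `Filt.prod_mem`, signs by `neg`. -/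
theorem Filt.det_mem (T : Filt B) {N : ℕ} (M : Matrix (Fin N) (Fin N) B) (n : ℕ)
    (h : ∀ i j, M i j ∈ T.F n) : M.det ∈ T.F (N * n) := by
  rw [Matrix.det_apply]
  refine Filt.sum_mem T _ _ _ ?_
  intro σ _
  have h1 : ∏ i, M (σ i) i ∈ T.F (N * n) := by
    have h2 := Filt.prod_mem T (Finset.univ : Finset (Fin N)) (fun i => M (σ i) i) n
      (fun i _ => h _ _)
    rwa [Finset.card_univ, Fintype.card_fin] at h2
  rcases Int.units_eq_one_or (Equiv.Perm.sign σ) with h3 | h3
  · rw [h3, one_smul]
    exact h1
  · rw [h3, Units.neg_smul, one_smul]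
    exact T.neg h1

/-- PROOF: the entries of the Sylvester matrix are zero or coefficients of `f` or `g`. -/
theorem Filt.resultant_mem (T : Filt B) (f g : Polynomial B) (m n d : ℕ)
    (hf : ∀ i, f.coeff i ∈ T.F d) (hg : ∀ i, g.coeff i ∈ T.F d) :
    resultant f g m n ∈ T.F ((m + n) * d) := by
  rw [resultant]
  refine Filt.det_mem T _ d ?_
  intro i j
  induction j using Fin.addCases with
  | left j =>
    simp only [sylvester, Matrix.of_apply, Fin.addCases_left]
    split_ifs
    · exact hg _
    · exact T.zero d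
  | right j =>
    simp only [sylvester, Matrix.of_apply, Fin.addCases_right]
    split_ifs
    · exact hf _
    · exact T.zero d

end Pool.Agent.Lib.MP_3bb35d_al.UE
end
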