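import Pool.Agent.Lib.MP_3bb35d_al.Mg.G017
import Pool.Agent.Lib.MP_3bb35d_al.Mg.G005

section

/-!
# Substitutions (definitions)
-/

set_option autoImplicit false

open Polynomial

namespace Pool.Agent.Lib.MP_3bb35d_al.UE

variable {k : Type*} [Field k]

/-- The substitution `X ↦ X + Y ^ e` of `k[X][Y]`. -/
noncomputable def sub1 (e : ℕ) : Polynomial (Polynomial k) →+* Polynomial (Polynomial k) :=
  eval₂RingHom (eval₂RingHom ((C : Polynomial k →+* Polynomial (Polynomial k)).comp C)
    (C X + X ^ e)) X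

/-- The substitution `X ↦ X + Y ^ e` of `k[X][Y][Z]`. -/
noncomputable def sub2 (e : ℕ) : R3 k →+* R3 k := mapRingHom (sub1 e)

/-- The substitution `a ↦ X + Z ^ e`, `b ↦ Y + Z ^ (e ^ 2)`, `c ↦ Z`. -/
noncomputable def nag (e : ℕ) : MvPolynomial (Fin 3) k →ₐ[k] R3 k :=
  MvPolynomial.aeval (![C (C X) + X ^ e, C X + X ^ (e ^ 2), X] : Fin 3 → R3 k)

end Pool.Agent.Lib.MP_3bb35d_al.UE
end

section

/-!
# Finite subgroups of `SL₂(K)` of order prime to the characteristic
-/

set_option autoImplicit false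

namespace Pool.Agent.Lib.MP_3bb35d_al.UE

private theorem H2c_abs {G X : Type*} [Group G] [Finite G] [Finite X] [MulAction G X]
    (Z : Subgroup G) (h1 : ∀ g ∈ Z, ∀ x : X, g • x = x)
    (h2 : ∀ g : G, g ∉ Z → Nat.card (MulAction.fixedBy X g) = 2)
    (h3 : ∀ x : X, ∃ g : G, g ∉ Z ∧ g • x = x) (hZ : Z ≠ ⊤) :
    (∃ x : X, (MulAction.stabilizer G x).index ≤ 2) ∨
      ∃ n, Nat.card G = Nat.card Z * n ∧ (n = 12 ∨ n = 24 ∨ n = 60) := by
  classical
  have := Fintype.ofFinite G
  have := Fintype.ofFinite X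
  have : Fintype (Quotient (MulAction.orbitRel G X)) := Fintype.ofFinite _
  have : ∀ g : G, Fintype (MulAction.fixedBy X g) := fun g => Fintype.ofFinite _
  have : ∀ x : X, Fintype (MulAction.stabilizer G x) := fun x => Fintype.ofFinite _
  have hn : 1 < Z.index := Subgroup.one_lt_index_of_ne_top hZ
  have hz : 0 < Nat.card Z := Nat.card_pos
  have hG : Nat.card Z * Z.index = Nat.card G := Z.card_mul_index
  set z := Nat.card Z with hzdef
  set n := Z.index with hndef
  have hbur := MulAction.sum_card_fixedBy_eq_card_orbits_mul_card_group G X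
  have hcls := MulAction.card_eq_sum_card_group_div_card_stabilizer G X
  have hm : ∀ x : X, 1 ≤ (MulAction.stabilizer G x).index ∧
      (MulAction.stabilizer G x).index ∣ n ∧ 2 * (MulAction.stabilizer G x).index ≤ n := by
    intro x
    have hle : Z ≤ MulAction.stabilizer G x := fun g hg => MulAction.mem_stabilizer_iff.2 (h1 g hg x)
    have hrel := Subgroup.relIndex_mul_index hle
    have hk0 : Z.relIndex (MulAction.stabilizer G x) ≠ 0 := by
      intro h0
      rw [h0, zero_mul] at hrel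
      omega
    have hk1 : Z.relIndex (MulAction.stabilizer G x) ≠ 1 := by
      intro h0
      have := Subgroup.relIndex_eq_one.1 h0
      obtain ⟨g, hg, hgx⟩ := h3 x
      exact hg (this (MulAction.mem_stabilizer_iff.2 hgx))
    have hk2 : 2 ≤ Z.relIndex (MulAction.stabilizer G x) := by omega
    refine ⟨?_, ⟨_, by rw [mul_comm]; exact hrel.symm⟩, ?_⟩
    · exact Nat.one_le_iff_ne_zero.2 Subgroup.index_ne_zero_of_finite
    · calc 2 * (MulAction.stabilizer G x).index ≤
          Z.relIndex (MulAction.stabilizer G x) * (MulAction.stabilizer G x).index :=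
            Nat.mul_le_mul_right _ hk2
        _ = n := hrel
  have hcls' : Fintype.card X = ∑ ω : Quotient (MulAction.orbitRel G X),
      (MulAction.stabilizer G ω.out).index := by
    rw [hcls]
    refine Finset.sum_congr rfl fun ω _ => ?_
    have h4 := (MulAction.stabilizer G ω.out).card_mul_index
    have h5 : 0 < Nat.card (MulAction.stabilizer G ω.out) := Nat.card_pos
    rw [← Nat.card_eq_fintype_card, ← Nat.card_eq_fintype_card, ← h4]
    exact Nat.mul_div_cancel_left _ h5
  have hlhs : ∑ g : G, Fintype.card (MulAction.fixedBy X g) =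
      z * Fintype.card X + (Nat.card G - z) * 2 := by
    have e1 : ∀ g : G, Fintype.card (MulAction.fixedBy X g) =
        if g ∈ Z then Fintype.card X else 2 := by
      intro g
      split_ifs with hg
      · have : MulAction.fixedBy X g = Set.univ := by
          ext x
          simp [h1 g hg x]
        rw [← Nat.card_eq_fintype_card, this, Nat.card_univ, Nat.card_eq_fintype_card]
      · rw [← Nat.card_eq_fintype_card, h2 g hg]
    rw [Finset.sum_congr rfl fun g _ => e1 g, Finset.sum_ite, Finset.sum_const, Finset.sum_const,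
      smul_eq_mul, smul_eq_mul]
    have e2 : (Finset.univ.filter (fun g => g ∈ Z)).card = z := by
      rw [hzdef, Nat.card_eq_fintype_card, Fintype.card_subtype]
    have e3 : (Finset.univ.filter (fun g => g ∈ Z)).card +
        (Finset.univ.filter (fun g => ¬ g ∈ Z)).card = Nat.card G := by
      rw [Finset.card_filter_add_card_filter_not, Finset.card_univ, Nat.card_eq_fintype_card]
    rw [e2] at e3
    rw [e2, ← e3]
    congr 2
    omega
  rw [hlhs, ← Nat.card_eq_fintype_card (α := G), ← hG, hcls'] at hbur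
  have hsum : ∑ ω : Quotient (MulAction.orbitRel G X), (MulAction.stabilizer G ω.out).index +
      2 * (n - 1) = (Finset.univ : Finset (Quotient (MulAction.orbitRel G X))).card * n := by
    rw [Finset.card_univ]
    have e1 : z * n - z = z * (n - 1) := by rw [Nat.mul_sub, mul_one]
    rw [e1] at hbur
    refine Nat.eq_of_mul_eq_mul_left hz ?_
    rw [← mul_assoc z, mul_comm z (Fintype.card _), mul_assoc, ← hbur]
    ring
  have hfin := orbit_numbers (Finset.univ : Finset (Quotient (MulAction.orbitRel G X))) n hn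
    (fun ω => (MulAction.stabilizer G ω.out).index) (fun ω _ => hm ω.out) hsum
  rcases hfin with ⟨ω, -, h4⟩ | h4
  · exact Or.inl ⟨ω.out, h4⟩
  · exact Or.inr ⟨n, hG.symm, h4⟩

private theorem H2c_mulVec_ne {K : Type*} [Field K] (g : Matrix.SpecialLinearGroup (Fin 2) K)
    {v : Fin 2 → K} (hv : v ≠ 0) : (g : Matrix (Fin 2) (Fin 2) K).mulVec v ≠ 0 := by
  intro h
  apply hv
  have h1 : ((g⁻¹ * g : Matrix.SpecialLinearGroup (Fin 2) K) : Matrix (Fin 2) (Fin 2) K).mulVec v
      = 0 := by
    rw [Matrix.SpecialLinearGroup.coe_mul, ← Matrix.mulVec_mulVec, h, Matrix.mulVec_zero]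
  rw [inv_mul_cancel, Matrix.SpecialLinearGroup.coe_one, Matrix.one_mulVec] at h1
  exact h1

private theorem H2c_span_smul {K : Type*} [Field K] {v : Fin 2 → K} {c : K} (hc : c ≠ 0) :
    Submodule.span K {c • v} = Submodule.span K {v} :=
  Submodule.span_singleton_smul_eq (isUnit_iff_ne_zero.2 hc) v

private theorem H2c_fix {K : Type*} [Field K] (g : Matrix.SpecialLinearGroup (Fin 2) K)
    {v : Fin 2 → K} (hv : v ≠ 0) :
    (Submodule.span K {v}).map (Matrix.mulVecLin (g : Matrix (Fin 2) (Fin 2) K)) =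
      Submodule.span K {v} ↔ ∃ c : K, (g : Matrix (Fin 2) (Fin 2) K).mulVec v = c • v := by
  rw [Submodule.map_span, Set.image_singleton, Matrix.mulVecLin_apply]
  constructor
  · intro h
    have h1 : (g : Matrix (Fin 2) (Fin 2) K).mulVec v ∈ Submodule.span K {v} := by
      rw [← h]
      exact Submodule.mem_span_singleton_self _
    obtain ⟨c, hc⟩ := Submodule.mem_span_singleton.1 h1
    exact ⟨c, hc.symm⟩
  · rintro ⟨c, hc⟩
    have hc0 : c ≠ 0 := by
      intro h0
      rw [h0, zero_smul] at hc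
      exact H2c_mulVec_ne g hv hc
    rw [hc, H2c_span_smul hc0]

/-- The lines fixed by some nontrivial element of `H`. -/
private def H2c_X {K : Type*} [Field K] (H : Subgroup (Matrix.SpecialLinearGroup (Fin 2) K)) :
    Set (Submodule K (Fin 2 → K)) :=
  {l | ∃ h ∈ H, h ≠ 1 ∧ h ≠ -1 ∧ ∃ v : Fin 2 → K, v ≠ 0 ∧ l = Submodule.span K {v} ∧
    h ∈ lstab H v}

private theorem H2c_X_map {K : Type*} [Field K]
    (H : Subgroup (Matrix.SpecialLinearGroup (Fin 2) K)) {g : Matrix.SpecialLinearGroup (Fin 2) K}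
    (hg : g ∈ H) {l : Submodule K (Fin 2 → K)} (hl : l ∈ H2c_X H) :
    l.map (Matrix.mulVecLin (g : Matrix (Fin 2) (Fin 2) K)) ∈ H2c_X H := by
  obtain ⟨h, hh, h1, h2, v, hv, rfl, -, c, hc⟩ := hl
  refine ⟨g * h * g⁻¹, H.mul_mem (H.mul_mem hg hh) (H.inv_mem hg), ?_, ?_,
    (g : Matrix (Fin 2) (Fin 2) K).mulVec v, H2c_mulVec_ne g hv, ?_,
    H.mul_mem (H.mul_mem hg hh) (H.inv_mem hg), c, ?_⟩
  · intro h0
    apply h1
    rwa [mul_inv_eq_one, mul_eq_left] at h0
  · intro h0
    apply h2
    have h3 : g * h = (-1) * g := by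
      rw [← h0]
      group
    have h4 : g * h = g * (-1) := by
      rw [h3]
      simp
    exact mul_left_cancel h4
  · rw [Submodule.map_span, Set.image_singleton, Matrix.mulVecLin_apply]
  · rw [Matrix.mulVec_mulVec, ← Matrix.SpecialLinearGroup.coe_mul, inv_mul_cancel_right,
      Matrix.SpecialLinearGroup.coe_mul, ← Matrix.mulVec_mulVec, hc, Matrix.mulVec_smul]

/-- The action on the lines. -/
@[reducible] private def H2c_act {K : Type*} [Field K]
    (H : Subgroup (Matrix.SpecialLinearGroup (Fin 2) K)) : MulAction H (H2c_X H) where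
  smul g l := ⟨l.1.map (Matrix.mulVecLin (g.1 : Matrix (Fin 2) (Fin 2) K)),
    H2c_X_map H g.2 l.2⟩
  one_smul l := by
    refine Subtype.ext ?_
    show l.1.map (Matrix.mulVecLin (((1 : H) : Matrix.SpecialLinearGroup (Fin 2) K) :
      Matrix (Fin 2) (Fin 2) K)) = l.1
    rw [Subgroup.coe_one, Matrix.SpecialLinearGroup.coe_one, Matrix.mulVecLin_one, Submodule.map_id]
  mul_smul a b l := by
    refine Subtype.ext ?_
    show l.1.map (Matrix.mulVecLin (((a * b : H) : Matrix.SpecialLinearGroup (Fin 2) K) :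
      Matrix (Fin 2) (Fin 2) K)) = (l.1.map (Matrix.mulVecLin
        ((b : Matrix.SpecialLinearGroup (Fin 2) K) : Matrix (Fin 2) (Fin 2) K))).map
        (Matrix.mulVecLin ((a : Matrix.SpecialLinearGroup (Fin 2) K) : Matrix (Fin 2) (Fin 2) K))
    rw [Subgroup.coe_mul, Matrix.SpecialLinearGroup.coe_mul, Matrix.mulVecLin_mul,
      Submodule.map_comp]

/-- The central elements of `H`. -/
private def H2c_Z {K : Type*} [Field K] (H : Subgroup (Matrix.SpecialLinearGroup (Fin 2) K)) :
    Subgroup H where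
  carrier := {g | (g : Matrix.SpecialLinearGroup (Fin 2) K) = 1 ∨
    (g : Matrix.SpecialLinearGroup (Fin 2) K) = -1}
  mul_mem' := by
    rintro a b (ha | ha) (hb | hb)
    · left; simp [ha, hb]
    · right; simp [ha, hb]
    · right; simp [ha, hb]
    · left; simp [ha, hb]
  one_mem' := by left; simp
  inv_mem' := by
    rintro a (ha | ha)
    · left; simp [ha]
    · right; simp [ha]

private theorem H2c_mem_Z {K : Type*} [Field K] (H : Subgroup (Matrix.SpecialLinearGroup (Fin 2) K))
    (g : H) : g ∈ H2c_Z H ↔ (g : Matrix.SpecialLinearGroup (Fin 2) K) = 1 ∨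
    (g : Matrix.SpecialLinearGroup (Fin 2) K) = -1 := Iff.rfl

private theorem H2c_card_Z {K : Type*} [Field K]
    (H : Subgroup (Matrix.SpecialLinearGroup (Fin 2) K)) [Finite H] : Nat.card (H2c_Z H) ≤ 2 := by
  classical
  have h1 : Nat.card (H2c_Z H) ≤ Nat.card ({1, -1} : Set (Matrix.SpecialLinearGroup (Fin 2) K)) := by
    have : Finite ({1, -1} : Set (Matrix.SpecialLinearGroup (Fin 2) K)) :=
      Set.Finite.to_subtype (Set.toFinite _)
    refine Nat.card_le_card_of_injective
      (fun g : H2c_Z H => (⟨((g : H) : Matrix.SpecialLinearGroup (Fin 2) K), by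
        rcases (H2c_mem_Z H g.1).1 g.2 with h | h
        · rw [h]; exact Set.mem_insert _ _
        · rw [h]; exact Set.mem_insert_of_mem _ rfl⟩ :
          ({1, -1} : Set (Matrix.SpecialLinearGroup (Fin 2) K)))) ?_
    intro a b hab
    have h2 := congrArg Subtype.val hab
    exact Subtype.ext (Subtype.ext h2)
  refine h1.trans ?_
  show ({1, -1} : Set (Matrix.SpecialLinearGroup (Fin 2) K)).ncard ≤ 2
  exact (Set.ncard_insert_le _ _).trans (by rw [Set.ncard_singleton])

private theorem H2c_X_finite {K : Type*} [Field K] [IsAlgClosed K]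
    (H : Subgroup (Matrix.SpecialLinearGroup (Fin 2) K)) [Finite H] (hc : (Nat.card H : K) ≠ 0) :
    (H2c_X H).Finite := by
  have hsub : H2c_X H ⊆ ⋃ h : H, {l | (h : Matrix.SpecialLinearGroup (Fin 2) K) ≠ 1 ∧
      (h : Matrix.SpecialLinearGroup (Fin 2) K) ≠ -1 ∧ ∃ v : Fin 2 → K, v ≠ 0 ∧
      l = Submodule.span K {v} ∧ (h : Matrix.SpecialLinearGroup (Fin 2) K) ∈ lstab H v} := by
    rintro l ⟨h, hh, h1, h2, h3⟩
    exact Set.mem_iUnion.2 ⟨⟨h, hh⟩, h1, h2, h3⟩
  refine Set.Finite.subset (Set.finite_iUnion fun h => ?_) hsub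
  by_cases h1 : (h : Matrix.SpecialLinearGroup (Fin 2) K) = 1
  · refine Set.Finite.subset Set.finite_empty ?_
    rintro l ⟨h2, -⟩
    exact h2 h1
  by_cases h2 : (h : Matrix.SpecialLinearGroup (Fin 2) K) = -1
  · refine Set.Finite.subset Set.finite_empty ?_
    rintro l ⟨-, h3, -⟩
    exact h3 h2
  obtain ⟨v, w, hv, hw, -, -, -, hall⟩ := two_lines H hc h.2 h1 h2
  refine Set.Finite.subset (Set.toFinite {Submodule.span K {v}, Submodule.span K {w}}) ?_
  rintro l ⟨-, -, u, hu, rfl, hu2⟩
  rcases hall u hu hu2 with ⟨c, rfl⟩ | ⟨c, rfl⟩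
  · left
    exact H2c_span_smul fun h0 => hu (by rw [h0, zero_smul])
  · right
    exact H2c_span_smul fun h0 => hu (by rw [h0, zero_smul])

/-- PROOF. If `H ⊆ {1, -1}` take `N = H`. Otherwise let `z = |H ∩ {1, -1}|` (one or two), `n = |H| / z > 1`, and let `Ω` be the set of the lines of `K²` (points of `Projectivization K (Fin 2 → K)`) fixed by some `h ∈ H`, `h ≠ ±1`; it is finite (`two_lines`: two lines for each `h`) and `H` acts on it. Burnside's lemma
(`MulAction.sum_card_fixedBy_eq_card_orbits_mul_card_group`): `z |Ω| + 2 (|H| - z) = r |H|` with `r` the number of orbits, i.e. `|Ω| + 2 (n - 1) = r n`. An orbit `o` has `m = |H| / |stab|` elements, the stabiliser contains `H ∩ {±1}` and some `h ≠ ±1`, so `m` divides `n` and `2 m ≤ n`; `|Ω| = ∑ m`. `orbit_numbers`: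
either an orbit has at most two elements: then the stabiliser `N` of one of its lines has index one or two, is commutative (`lstab_comm`), and `h ^ 2 ∈ N` for all `h ∈ H`; or `n = 12, 24, 60`, so `|H|` is one of `12, 24, 48, 60, 120` and divides `240`: `h ^ 240 = 1`. -/
theorem finite_subgroup {K : Type*} [Field K] [IsAlgClosed K]
    (H : Subgroup (Matrix.SpecialLinearGroup (Fin 2) K)) [Finite H] (hc : (Nat.card H : K) ≠ 0) :
    (∃ N : Subgroup (Matrix.SpecialLinearGroup (Fin 2) K), (∀ h ∈ H, h ^ 2 ∈ N) ∧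
      ∀ a ∈ N, ∀ b ∈ N, a * b = b * a) ∨ ∀ h ∈ H, h ^ 240 = 1 := by
  classical
  by_cases hZ : H2c_Z H = ⊤
  · left
    refine ⟨⊥, fun h hh => ?_, fun a ha b hb => ?_⟩
    · have h1 : (⟨h, hh⟩ : H) ∈ H2c_Z H := by rw [hZ]; trivial
      rw [Subgroup.mem_bot]
      rcases (H2c_mem_Z H _).1 h1 with h2 | h2
      · have h3 : h = 1 := h2
        rw [h3, one_pow]
      · have h3 : h = -1 := h2
        rw [h3]
        simp
    · rw [Subgroup.mem_bot] at ha hb
      rw [ha, hb]
  let := H2c_act H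
  have : Finite (H2c_X H) := (H2c_X_finite H hc).to_subtype
  have hact : ∀ (g : H) (l : H2c_X H), (g • l).1 =
      l.1.map (Matrix.mulVecLin (g.1 : Matrix (Fin 2) (Fin 2) K)) := fun g l => rfl
  have hfix : ∀ (g : H) (l : H2c_X H) (v : Fin 2 → K), v ≠ 0 → l.1 = Submodule.span K {v} →
      (g • l = l ↔ (g : Matrix.SpecialLinearGroup (Fin 2) K) ∈ lstab H v) := by
    intro g l v hv hl
    have h1 := H2c_fix (g : Matrix.SpecialLinearGroup (Fin 2) K) hv
    rw [← hl] at h1
    constructor
    · intro h2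
      exact ⟨g.2, h1.1 (by rw [← hact, h2])⟩
    · rintro ⟨-, h2⟩
      exact Subtype.ext (by rw [hact]; exact h1.2 h2)
  have key := H2c_abs (X := H2c_X H) (H2c_Z H) (by
    rintro g hg ⟨l, hl⟩
    obtain ⟨h, hh, k1, k2, v, hv, hlv, k3⟩ := hl
    refine (hfix g _ v hv hlv).2 ⟨g.2, ?_⟩
    rcases (H2c_mem_Z H g).1 hg with h2 | h2
    · exact ⟨1, by rw [h2]; simp⟩
    · exact ⟨-1, by rw [h2]; simp [Matrix.neg_mulVec]⟩) (by
    intro g hg
    rw [H2c_mem_Z, not_or] at hg
    obtain ⟨v, w, hv, hw, hvw, hgv, hgw, hall⟩ := two_lines H hc g.2 hg.1 hg.2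
    set lv : H2c_X H := ⟨Submodule.span K {v}, g.1, g.2, hg.1, hg.2, v, hv, rfl, hgv⟩ with hlv
    set lw : H2c_X H := ⟨Submodule.span K {w}, g.1, g.2, hg.1, hg.2, w, hw, rfl, hgw⟩ with hlw
    have hne : lv ≠ lw := by
      intro h0
      have h1 : Submodule.span K {v} = Submodule.span K {w} := congrArg Subtype.val h0
      have h2 : w ∈ Submodule.span K {v} := by
        rw [h1]
        exact Submodule.mem_span_singleton_self _
      obtain ⟨c, hcw⟩ := Submodule.mem_span_singleton.1 h2
      exact hvw c hcw.symm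
    have hset : MulAction.fixedBy (H2c_X H) g = {lv, lw} := by
      ext l
      rw [MulAction.mem_fixedBy, Set.mem_insert_iff, Set.mem_singleton_iff]
      constructor
      · intro hgl
        obtain ⟨h, hh, k1, k2, u, hu, hlu, k3⟩ := l.2
        have h1 := (hfix g l u hu hlu).1 hgl
        rcases hall u hu h1 with ⟨c, hcu⟩ | ⟨c, hcu⟩
        · left
          refine Subtype.ext ?_
          rw [hlu, hcu]
          exact H2c_span_smul fun h0 => hu (by rw [hcu, h0, zero_smul])
        · right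
          refine Subtype.ext ?_
          rw [hlu, hcu]
          exact H2c_span_smul fun h0 => hu (by rw [hcu, h0, zero_smul])
      · rintro (rfl | rfl)
        · exact (hfix g lv v hv rfl).2 hgv
        · exact (hfix g lw w hw rfl).2 hgw
    rw [hset]
    show ({lv, lw} : Set (H2c_X H)).ncard = 2
    exact Set.ncard_pair hne) (by
    rintro ⟨l, h, hh, k1, k2, v, hv, hlv, k3⟩
    refine ⟨⟨h, hh⟩, ?_, ?_⟩
    · rw [H2c_mem_Z, not_or]
      exact ⟨k1, k2⟩
    · exact (hfix ⟨h, hh⟩ _ v hv hlv).2 k3) hZ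
  rcases key with ⟨x, hx⟩ | ⟨n, hn, hn'⟩
  · left
    refine ⟨(MulAction.stabilizer H x).map H.subtype, fun h hh => ?_, ?_⟩
    · refine Subgroup.mem_map.2 ⟨⟨h, hh⟩ ^ 2, ?_, rfl⟩
      have h0 : (MulAction.stabilizer H x).index ≠ 0 := Subgroup.index_ne_zero_of_finite
      have h1 : (MulAction.stabilizer H x).index = 1 ∨ (MulAction.stabilizer H x).index = 2 := by
        omega
      rcases h1 with h1 | h1
      · rw [Subgroup.index_eq_one.1 h1]
        trivial
      · exact Subgroup.sq_mem_of_index_two h1 _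
    · intro a ha b hb
      obtain ⟨a', ha', rfl⟩ := Subgroup.mem_map.1 ha
      obtain ⟨b', hb', rfl⟩ := Subgroup.mem_map.1 hb
      obtain ⟨h, hh, k1, k2, v, hv, hlv, k3⟩ := x.2
      exact lstab_comm H hc hv ((hfix a' x v hv hlv).1 (MulAction.mem_stabilizer_iff.1 ha'))
        ((hfix b' x v hv hlv).1 (MulAction.mem_stabilizer_iff.1 hb'))
  · right
    intro h hh
    have h1 : (⟨h, hh⟩ : H) ^ Nat.card H = 1 := pow_card_eq_one'
    have h2 : h ^ Nat.card H = 1 := congrArg Subtype.val h1
    have h3 := H2c_card_Z H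
    have h4 : 0 < Nat.card (H2c_Z H) := Nat.card_pos
    have h5 : Nat.card H ∣ 240 := by
      have h6 : Nat.card (H2c_Z H) = 1 ∨ Nat.card (H2c_Z H) = 2 := by omega
      rw [hn]
      rcases h6 with h6 | h6 <;> rw [h6] <;> rcases hn' with rfl | rfl | rfl <;> decide
    obtain ⟨k, hk⟩ := h5
    rw [hk, pow_mul, h2, one_pow]

end Pool.Agent.Lib.MP_3bb35d_al.UE
end
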