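import Pool.Agent.Lib.MP_3bb35d_al.Mg.G021
import Pool.Agent.Lib.MP_3bb35d_al.UE.W0

section

/-!
# The substitution `X ↦ X + Y ^ e`
-/

set_option autoImplicit false

open Polynomial

namespace Pool.Agent.Lib.MP_3bb35d_al.UE

/-- Sums of monic polynomials of different degrees. PROOF: let `i` be the index with `c i ≠ 0` of maximal `n i`; all the other terms with `c ≠ 0` have smaller degree, so the leading coefficient is that of `C (c i) * P i`, which is `c i` (`algebraMap` to the nontrivial ring is injective on the field). -/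
theorem leadingCoeff_sum {k B : Type*} [Field k] [CommRing B] [Nontrivial B] [Algebra k B]
    {ι : Type*} (s : Finset ι) (c : ι → k) (P : ι → Polynomial B) (n : ι → ℕ)
    (hP : ∀ i ∈ s, (P i).Monic ∧ (P i).natDegree = n i) (hn : Set.InjOn n s)
    (hc : ∃ i ∈ s, c i ≠ 0) :
    ∃ i ∈ s, c i ≠ 0 ∧ (∑ i ∈ s, C (algebraMap k B (c i)) * P i).leadingCoeff =
      algebraMap k B (c i) := by
  classical
  obtain ⟨i₁, hi₁, hc₁⟩ := hc
  obtain ⟨i₀, hi₀, hmax⟩ := Finset.exists_max_image (s.filter fun i => c i ≠ 0) n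
    ⟨i₁, Finset.mem_filter.2 ⟨hi₁, hc₁⟩⟩
  obtain ⟨hs₀, hc₀⟩ := Finset.mem_filter.1 hi₀
  have hle : ∀ i ∈ s, c i ≠ 0 → n i ≤ n i₀ := fun i hi hci =>
    hmax i (Finset.mem_filter.2 ⟨hi, hci⟩)
  have hdeg : (∑ i ∈ s, C (algebraMap k B (c i)) * P i).natDegree ≤ n i₀ := by
    refine natDegree_sum_le_of_forall_le s _ fun i hi => ?_
    by_cases hci : c i = 0
    · rw [hci, map_zero, C_0, zero_mul, natDegree_zero]
      exact Nat.zero_le _
    · exact (natDegree_C_mul_le _ _).trans ((hP i hi).2.le.trans (hle i hi hci))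
  have hcoef : (∑ i ∈ s, C (algebraMap k B (c i)) * P i).coeff (n i₀) =
      algebraMap k B (c i₀) := by
    rw [finsetSum_coeff, Finset.sum_eq_single_of_mem i₀ hs₀]
    · rw [coeff_C_mul]
      have h1 : (P i₀).coeff (n i₀) = 1 := by
        rw [← (hP i₀ hs₀).2]
        exact (hP i₀ hs₀).1.coeff_natDegree
      rw [h1, mul_one]
    · intro i hi hne
      rw [coeff_C_mul]
      by_cases hci : c i = 0
      · rw [hci, map_zero, zero_mul]
      · have h1 : n i ≠ n i₀ := fun he => hne (hn hi hs₀ he)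
        have h2 : (P i).natDegree < n i₀ := by
          rw [(hP i hi).2]
          exact lt_of_le_of_ne (hle i hi hci) h1
        rw [coeff_eq_zero_of_natDegree_lt h2, mul_zero]
  have hne : algebraMap k B (c i₀) ≠ 0 := by
    rw [Ne, map_eq_zero_iff _ (algebraMap k B).injective]
    exact hc₀
  have hnd : (∑ i ∈ s, C (algebraMap k B (c i)) * P i).natDegree = n i₀ := by
    refine le_antisymm hdeg (le_natDegree_of_ne_zero ?_)
    rw [hcoef]
    exact hne
  refine ⟨i₀, hs₀, hc₀, ?_⟩
  rw [leadingCoeff, hnd, hcoef]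

private theorem C7a_comp {k K : Type*} [Field k] [Field K] [Algebra k K] (e : ℕ) (x y : K) :
    (e2 x y : Polynomial (Polynomial k) →+* K).comp (sub1 e) = e2 (x + y ^ e) y := by
  refine Polynomial.ringHom_ext' (Polynomial.ringHom_ext' ?_ ?_) ?_
  · ext c
    simp [e2, e1, sub1]
  · simp [e2, e1, sub1]
  · simp [e2, e1, sub1]

/-- PROOF: two ring homomorphisms which agree on constants, `X`, `Y` (`Polynomial.ringHom_ext`). -/
theorem e2_sub1 {k K : Type*} [Field k] [Field K] [Algebra k K] (e : ℕ) (x y : K)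
    (q : Polynomial (Polynomial k)) : e2 x y (sub1 e q) = e2 (x + y ^ e) y q := by
  rw [← C7a_comp e x y]
  rfl

theorem e3_sub2 {k K : Type*} [Field k] [Field K] [Algebra k K] (e : ℕ) (x y z : K)
    (f : R3 k) : e3 x y z (sub2 e f) = e3 (x + y ^ e) y z f := by
  unfold e3 sub2
  rw [coe_eval₂RingHom, coe_eval₂RingHom, coe_mapRingHom, eval₂_map, C7a_comp]

private theorem C7a_expand {k : Type*} [Field k] {dx dy : ℕ} (e : ℕ)
    {q : Polynomial (Polynomial k)} (hq : Bd dx dy q) :
    sub1 e q = ∑ i ∈ Finset.range (dx + 1) ×ˢ Finset.range (dy + 1),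
      C (C ((q.coeff i.2).coeff i.1)) * ((C X + X ^ e) ^ i.1 * X ^ i.2) := by
  have h1 : ∀ a : Polynomial k, a.natDegree ≤ dx → sub1 e (C a) =
      ∑ i ∈ Finset.range (dx + 1), C (C (a.coeff i)) * (C X + X ^ e) ^ i := by
    intro a ha
    have h0 : ∀ b : Polynomial k, sub1 e (C b) =
        eval₂RingHom ((C : Polynomial k →+* Polynomial (Polynomial k)).comp C) (C X + X ^ e) b :=
      fun b => by simp [sub1]
    rw [h0]
    conv_lhs => rw [as_sum_range_C_mul_X_pow' a (Nat.lt_succ_of_le ha)]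
    rw [map_sum]
    refine Finset.sum_congr rfl fun i _ => ?_
    simp
  conv_lhs => rw [as_sum_range_C_mul_X_pow' q (Nat.lt_succ_of_le hq.1)]
  rw [map_sum, Finset.sum_product_right]
  refine Finset.sum_congr rfl fun j _ => ?_
  have h2 : sub1 e (X : Polynomial (Polynomial k)) = X := by simp [sub1]
  rw [map_mul, map_pow, h2, h1 _ (hq.2 j), Finset.sum_mul]
  refine Finset.sum_congr rfl fun i _ => ?_
  rw [mul_assoc]

private theorem C7a_mono {k : Type*} [Field k] {a b c d : ℕ} {q : Polynomial (Polynomial k)}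
    (hq : Bd a b q) (hac : a ≤ c) (hbd : b ≤ d) : Bd c d q :=
  ⟨hq.1.trans hbd, fun i => (hq.2 i).trans hac⟩

private theorem C7a_sum {k : Type*} [Field k] {a b : ℕ} {ι : Type*} (s : Finset ι)
    (f : ι → Polynomial (Polynomial k)) (hf : ∀ i ∈ s, Bd a b (f i)) : Bd a b (∑ i ∈ s, f i) := by
  refine ⟨natDegree_sum_le_of_forall_le s _ fun i hi => (hf i hi).1, fun j => ?_⟩
  rw [finsetSum_coeff]
  exact natDegree_sum_le_of_forall_le s _ fun i hi => (hf i hi).2 j

private theorem C7a_mul {k : Type*} [Field k] {a b c d : ℕ} {p q : Polynomial (Polynomial k)}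
    (hp : Bd a b p) (hq : Bd c d q) : Bd (a + c) (b + d) (p * q) := by
  refine ⟨natDegree_mul_le.trans (add_le_add hp.1 hq.1), fun j => ?_⟩
  rw [coeff_mul]
  exact natDegree_sum_le_of_forall_le _ _ fun x _ =>
    natDegree_mul_le.trans (add_le_add (hp.2 _) (hq.2 _))

private theorem C7a_one {k : Type*} [Field k] : Bd 0 0 (1 : Polynomial (Polynomial k)) := by
  refine ⟨by simp, fun j => ?_⟩
  rw [coeff_one]
  split_ifs <;> simp

private theorem C7a_pow {k : Type*} [Field k] {a b : ℕ} {p : Polynomial (Polynomial k)}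
    (hp : Bd a b p) (i : ℕ) : Bd (i * a) (i * b) (p ^ i) := by
  induction i with
  | zero =>
    rw [pow_zero, zero_mul, zero_mul]
    exact C7a_one
  | succ i ih =>
    rw [pow_succ, Nat.succ_mul, Nat.succ_mul]
    exact C7a_mul ih hp

private theorem C7a_base {k : Type*} [Field k] (e : ℕ) :
    Bd 1 e (C X + X ^ e : Polynomial (Polynomial k)) := by
  constructor
  · refine (natDegree_add_le _ _).trans (max_le ?_ ?_)
    · rw [natDegree_C]
      exact Nat.zero_le _
    · exact natDegree_X_pow_le e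
  · intro i
    rw [coeff_add, coeff_C, coeff_X_pow]
    refine (natDegree_add_le _ _).trans (max_le ?_ ?_)
    · split_ifs
      · exact natDegree_X_le
      · simp
    · split_ifs <;> simp

private theorem C7a_X {k : Type*} [Field k] : Bd 0 1 (X : Polynomial (Polynomial k)) := by
  refine ⟨natDegree_X_le, fun i => ?_⟩
  rw [coeff_X]
  split_ifs <;> simp

private theorem C7a_C {k : Type*} [Field k] (c : k) :
    Bd 0 0 (C (C c) : Polynomial (Polynomial k)) := by
  refine ⟨by simp, fun i => ?_⟩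
  rw [coeff_C]
  split_ifs <;> simp

/-- PROOF: `q` is a sum of monomials `c X ^ i Y ^ j` with `i ≤ dx`, `j ≤ dy`, mapped to `c (X + Y ^ e) ^ i Y ^ j`, which has degree at most `i` in `X` and `e i + j` in `Y`; `Bd` is closed under sums. -/
theorem Bd_sub1 {k : Type*} [Field k] {dx dy : ℕ} (e : ℕ) {q : Polynomial (Polynomial k)}
    (hq : Bd dx dy q) : Bd dx (dy + e * dx) (sub1 e q) := by
  rw [C7a_expand e hq]
  refine C7a_sum _ _ fun i hi => ?_
  rw [Finset.mem_product, Finset.mem_range, Finset.mem_range] at hi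
  have h1 : i.1 ≤ dx := Nat.lt_succ_iff.1 hi.1
  have h2 : i.2 ≤ dy := Nat.lt_succ_iff.1 hi.2
  refine C7a_mono (C7a_mul (C7a_C _) (C7a_mul (C7a_pow (C7a_base e) i.1)
    (C7a_pow C7a_X i.2))) (by omega) ?_
  have h3 : i.1 * e ≤ e * dx := by
    rw [mul_comm]
    exact Nat.mul_le_mul_left e h1
  omega

theorem Bd3_sub2 {k : Type*} [Field k] {dx dy dz : ℕ} (e : ℕ) {f : R3 k}
    (hf : Bd3 dx dy dz f) : Bd3 dx (dy + e * dx) dz (sub2 e f) := by
  refine ⟨natDegree_map_le.trans hf.1, fun i => ?_⟩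
  have h : (sub2 e f).coeff i = sub1 e (f.coeff i) := coeff_map _ _
  rw [h]
  exact Bd_sub1 e (hf.2 i)

theorem monic_sub2 {k : Type*} [Field k] (e : ℕ) {f : R3 k} (hf : f.Monic) :
    (sub2 e f).Monic :=
  hf.map _

/-- PROOF: `e3_sub2`; if `x, y, z` has a transcendental coordinate then so has `x + y ^ e, y, z` (if all three are algebraic then `x = (x + y ^ e) - y ^ e` is algebraic). -/
theorem Hyp_sub2 {k : Type} [Field k] {Ω : Type} [Fintype Ω] {m : ℕ}
    {fam : Ω → Fin m → R3 k} {Φ : R3 k} {θ : ℝ} (H : Hyp fam Φ θ) (e : ℕ) :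
    Hyp (fun ω j => sub2 e (fam ω j)) (sub2 e Φ) θ := by
  intro K _ _ _ x y z ht hΦ
  rw [e3_sub2] at hΦ
  have ht' : Transcendental k (x + y ^ e) ∨ Transcendental k y ∨ Transcendental k z := by
    rcases ht with hx | hy | hz
    · by_cases hy : Transcendental k y
      · exact Or.inr (Or.inl hy)
      · refine Or.inl fun halg => hx ?_
        have hya : IsAlgebraic k y := not_not.1 hy
        have h1 := halg.sub (hya.pow e)
        rwa [add_sub_cancel_right] at h1
    · exact Or.inr (Or.inl hy)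
    · exact Or.inr (Or.inr hz)
  have h := H K (x + y ^ e) y z ht' hΦ
  simp_rw [e3_sub2]
  exact h

/-- PROOF: `q = ∑ c i j X ^ i Y ^ j`, `i ≤ dx`, `j ≤ dy < e`; `sub1 e q = ∑ c i j (X + Y ^ e) ^ i Y ^ j` with `(C X + X ^ e) ^ i * X ^ j` monic of degree `e i + j`, different for different `(i, j)`: `leadingCoeff_sum`. Multiply by the inverse of the constant. -/
theorem nagata1 {k : Type*} [Field k] {dx dy e : ℕ} {q : Polynomial (Polynomial k)}
    (hq : q ≠ 0) (hqd : Bd dx dy q) (he : dy < e) :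
    ∃ c : k, c ≠ 0 ∧ (C (C c) * sub1 e q).Monic := by
  have he0 : e ≠ 0 := by omega
  have hbm : (C X + X ^ e : Polynomial (Polynomial k)).Monic := by
    rw [add_comm]
    exact monic_X_pow_add_C _ he0
  have hbd : (C X + X ^ e : Polynomial (Polynomial k)).natDegree = e := by
    rw [add_comm]
    exact natDegree_X_pow_add_C
  have hne : ∃ i ∈ Finset.range (dx + 1) ×ˢ Finset.range (dy + 1),
      (q.coeff i.2).coeff i.1 ≠ 0 := by
    by_contra hall
    push Not at hall
    apply hq
    ext j i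
    rw [coeff_zero, coeff_zero]
    by_cases hj : j ≤ dy
    · by_cases hi : i ≤ dx
      · exact hall (i, j) (Finset.mem_product.2 ⟨Finset.mem_range.2 (Nat.lt_succ_of_le hi),
          Finset.mem_range.2 (Nat.lt_succ_of_le hj)⟩)
      · exact coeff_eq_zero_of_natDegree_lt (lt_of_le_of_lt (hqd.2 j) (by omega))
    · have h1 : q.coeff j = 0 :=
        coeff_eq_zero_of_natDegree_lt (lt_of_le_of_lt hqd.1 (by omega))
      rw [h1, coeff_zero]
  obtain ⟨i₀, hi₀, hc₀, hlead⟩ := leadingCoeff_sum (B := Polynomial k)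
    (Finset.range (dx + 1) ×ˢ Finset.range (dy + 1)) (fun i => (q.coeff i.2).coeff i.1)
    (fun i => (C X + X ^ e) ^ i.1 * X ^ i.2) (fun i => i.1 * e + i.2)
    (fun i _ => by
      refine ⟨(hbm.pow _).mul (monic_X_pow _), ?_⟩
      rw [(hbm.pow _).natDegree_mul (monic_X_pow _), hbm.natDegree_pow, hbd, natDegree_X_pow])
    (by
      rintro ⟨a, b⟩ hab ⟨a', b'⟩ hab' heq
      rw [Finset.mem_coe, Finset.mem_product, Finset.mem_range, Finset.mem_range] at hab hab'
      simp only at heq hab hab'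
      have hb : b < e := by omega
      have hb' : b' < e := by omega
      have h1 : a = a' := by
        rcases lt_trichotomy a a' with h | h | h
        · exfalso
          have : (a + 1) * e ≤ a' * e := Nat.mul_le_mul_right e h
          have h2 : (a + 1) * e = a * e + e := by ring
          omega
        · exact h
        · exfalso
          have : (a' + 1) * e ≤ a * e := Nat.mul_le_mul_right e h
          have h2 : (a' + 1) * e = a' * e + e := by ring
          omega
      subst h1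
      have h2 : b = b' := by omega
      rw [h2])
    hne
  have hsum : (∑ i ∈ Finset.range (dx + 1) ×ˢ Finset.range (dy + 1),
      C (algebraMap k (Polynomial k) ((q.coeff i.2).coeff i.1)) *
        ((C X + X ^ e) ^ i.1 * X ^ i.2)) = sub1 e q := (C7a_expand e hqd).symm
  rw [hsum] at hlead
  refine ⟨((q.coeff i₀.2).coeff i₀.1)⁻¹, inv_ne_zero hc₀, ?_⟩
  refine monic_C_mul_of_mul_leadingCoeff_eq_one ?_
  rw [hlead]
  show C _ * C _ = 1
  rw [← C_mul, inv_mul_cancel₀ hc₀, C_1]

end Pool.Agent.Lib.MP_3bb35d_al.UE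
end

section

/-!
# Centralizers in the free group are cyclic
-/

set_option autoImplicit false

namespace Pool.Agent.Lib.MP_3bb35d_al.UE

private theorem W1a_cyc {G : Type} [Group G] [IsFreeGroup G]
    (h : Subsingleton (IsFreeGroup.Generators G)) : ∃ t : G, ∀ g : G, ∃ k : ℤ, g = t ^ k := by
  classical
  obtain ⟨t, ht⟩ : ∃ t : G, ∀ x : IsFreeGroup.Generators G,
      IsFreeGroup.of x ∈ Subgroup.zpowers t := by
    rcases isEmpty_or_nonempty (IsFreeGroup.Generators G) with h1 | ⟨⟨a⟩⟩
    · exact ⟨1, fun x => h1.elim x⟩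
    · refine ⟨IsFreeGroup.of a, fun x => ?_⟩
      rw [Subsingleton.elim x a]
      exact Subgroup.mem_zpowers _
  refine ⟨t, fun g => ?_⟩
  have key : ∀ w : FreeGroup (IsFreeGroup.Generators G),
      IsFreeGroup.mulEquiv G w ∈ Subgroup.zpowers t := by
    intro w
    induction w using FreeGroup.induction_on with
    | C1 => rw [map_one]; exact Subgroup.one_mem _
    | of x => exact ht x
    | inv_of x hx => rw [map_inv]; exact Subgroup.inv_mem _ hx
    | mul x y hx hy => rw [map_mul]; exact Subgroup.mul_mem _ hx hy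
  have h2 := key ((IsFreeGroup.mulEquiv G).symm g)
  rw [MulEquiv.apply_symm_apply] at h2
  obtain ⟨k, hk⟩ := Subgroup.mem_zpowers_iff.1 h2
  exact ⟨k, hk.symm⟩

private theorem W1a_comm {G : Type} [Group G] [IsFreeGroup G] (h : ∀ a b : G, a * b = b * a) :
    ∃ t : G, ∀ g : G, ∃ k : ℤ, g = t ^ k := by
  classical
  refine W1a_cyc ⟨fun a b => ?_⟩
  by_contra hab
  have h1 := congrArg (IsFreeGroup.lift (fun x : IsFreeGroup.Generators G =>
    if x = a then Equiv.swap (0 : Fin 3) 1 else Equiv.swap 1 2))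
    (h (IsFreeGroup.of a) (IsFreeGroup.of b))
  rw [map_mul, map_mul, IsFreeGroup.lift_of, IsFreeGroup.lift_of, if_pos rfl,
    if_neg (fun e => hab e.symm)] at h1
  revert h1
  decide

private theorem W1a_pow {G : Type} [Group G] [IsFreeGroup G] (z : G)
    (hc : ∀ g : G, g * z = z * g) (s : IsFreeGroup.Generators G) :
    ∃ k : ℤ, z = IsFreeGroup.of s ^ k := by
  classical
  have hcomm : ∀ x ∈ ({z, IsFreeGroup.of s} : Set G), ∀ y ∈ ({z, IsFreeGroup.of s} : Set G),
      x * y = y * x := by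
    intro x hx y hy
    simp only [Set.mem_insert_iff, Set.mem_singleton_iff] at hx hy
    rcases hx with rfl | rfl
    · exact (hc y).symm
    · rcases hy with rfl | rfl
      · exact hc _
      · rfl
  obtain ⟨t, ht⟩ := W1a_comm (G := Subgroup.closure ({z, IsFreeGroup.of s} : Set G))
    (fun a b => (Subgroup.isMulCommutative_closure hcomm).is_comm.comm a b)
  obtain ⟨i, hi⟩ := ht ⟨z, Subgroup.subset_closure (Set.mem_insert _ _)⟩
  obtain ⟨j, hj⟩ := ht ⟨IsFreeGroup.of s, Subgroup.subset_closure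
    (Set.mem_insert_of_mem _ (Set.mem_singleton _))⟩
  have hi' : z = (t : G) ^ i := by simpa using congrArg Subtype.val hi
  have hj' : IsFreeGroup.of s = (t : G) ^ j := by simpa using congrArg Subtype.val hj
  have h1 := congrArg (IsFreeGroup.lift (fun x : IsFreeGroup.Generators G =>
    if x = s then Multiplicative.ofAdd (1 : ℤ) else 1)) hj'
  rw [IsFreeGroup.lift_of, if_pos rfl, map_zpow] at h1
  have h2 := congrArg Multiplicative.toAdd h1
  rw [toAdd_ofAdd, toAdd_zpow, smul_eq_mul] at h2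
  rcases Int.eq_one_or_neg_one_of_mul_eq_one h2.symm with h3 | h3
  · refine ⟨i, ?_⟩
    rw [hj', h3, zpow_one]
    exact hi'
  · refine ⟨-i, ?_⟩
    rw [hj', h3, ← zpow_mul, neg_mul_neg, one_mul]
    exact hi'

private theorem W1a_center {G : Type} [Group G] [IsFreeGroup G] (z : G) (hz : z ≠ 1)
    (hc : ∀ g : G, g * z = z * g) : Subsingleton (IsFreeGroup.Generators G) := by
  classical
  refine ⟨fun a b => ?_⟩
  by_contra hab
  obtain ⟨k, hk⟩ := W1a_pow z hc a
  obtain ⟨m, hm⟩ := W1a_pow z hc b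
  have h1 := congrArg (IsFreeGroup.lift (fun x : IsFreeGroup.Generators G =>
    if x = a then Multiplicative.ofAdd (1 : ℤ) else 1)) (hk.symm.trans hm)
  rw [map_zpow, map_zpow, IsFreeGroup.lift_of, IsFreeGroup.lift_of, if_pos rfl,
    if_neg (fun e => hab e.symm), one_zpow] at h1
  have h2 := congrArg Multiplicative.toAdd h1
  rw [toAdd_zpow, toAdd_ofAdd, smul_eq_mul, mul_one, toAdd_one] at h2
  rw [h2, zpow_zero] at hk
  exact hz hk

/-- PROOF. The centralizer `C` of `z` is free on a set `S` (Nielsen-Schreier, `subgroupIsFreeOfIsFree`). (1) A free group which is commutative is free on at most one generator (two different generators do not commute: map them to two non commuting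
elements of some group, e.g. `Equiv.Perm (Fin 3)`), so it is cyclic. (2) Let `s, s'` be different elements of `S`. `z ∈ C` commutes with `s`: the subgroup generated by `z` and `s` is free and commutative, so it is generated by one `t`: `z = t ^ i`, `s = t ^ j`. In the
abelianization (or under the homomorphism of `C` to `Multiplicative ℤ` which is one on `s` and zero on the other generators) `j` divides one, so `t = s^±1` and `z` is a power of `s`. Similarly `z` is a power of `s'`. Abelianizing, both exponents are zero, so `z = 1`, a contradiction.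
So `S` has at most one element and `C` is cyclic. Any other proof is welcome (e.g. with `FreeGroup.norm`, unique roots (`IsMulTorsionFree (FreeGroup α)` is in Mathlib) and a root of `z` of maximal exponent: `z = r ^ m` with `m` maximal
(`m ≤ norm z`); if `g` commutes with `z` then `⟨g, z⟩ = ⟨t⟩` by (1) and `r` commutes with `z = t ^ j`, hence with `t` by uniqueness of roots, so `⟨r, t⟩ = ⟨q⟩` is cyclic, `r = q ^ e`, `z = q ^ (e m)` and by maximality `e = ±1`, so `t` and `g` are powers of `r`). -/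
theorem free_centralizer {z : F2} (hz : z ≠ 1) :
    ∃ r : F2, r ≠ 1 ∧ ∀ g : F2, g * z = z * g → ∃ k : ℤ, g = r ^ k := by
  obtain ⟨t, ht⟩ := W1a_cyc (G := Subgroup.centralizer ({z} : Set F2))
    (W1a_center ⟨z, Subgroup.mem_centralizer_singleton_iff.2 rfl⟩
      (fun h => hz (by simpa using congrArg Subtype.val h))
      (fun g => Subtype.ext (Subgroup.mem_centralizer_singleton_iff.1 g.2)))
  have key : ∀ g : F2, g * z = z * g → ∃ k : ℤ, g = (t : F2) ^ k := by
    intro g hg
    obtain ⟨k, hk⟩ := ht ⟨g, Subgroup.mem_centralizer_singleton_iff.2 hg⟩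
    exact ⟨k, by simpa using congrArg Subtype.val hk⟩
  refine ⟨t, fun h => ?_, key⟩
  obtain ⟨k, hk⟩ := key z rfl
  rw [h, one_zpow] at hk
  exact hz hk

end Pool.Agent.Lib.MP_3bb35d_al.UE
end

section

/-!
# Norms of powers, unique roots, counting in centralizers
-/

set_option autoImplicit false

namespace Pool.Agent.Lib.MP_3bb35d_al.UE

private theorem W1b_norm_pow {r : F2} (hr : r ≠ 1) (n : ℕ) : n ≤ (r ^ n).norm := by
  rcases Nat.eq_zero_or_pos n with rfl | hn
  · exact Nat.zero_le _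
  have hc : FreeGroup.reduceCyclically r.toWord ≠ [] := by
    intro h
    apply hr
    have h1 := FreeGroup.reduceCyclically.conj_conjugator_reduceCyclically r.toWord
    rw [h, List.append_nil] at h1
    have h2 := congrArg FreeGroup.mk h1
    rw [FreeGroup.mk_toWord, ← FreeGroup.mul_mk, ← FreeGroup.inv_mk, mul_inv_cancel] at h2
    exact h2.symm
  have hl : 0 < (FreeGroup.reduceCyclically r.toWord).length := List.length_pos_iff.2 hc
  rw [FreeGroup.norm, FreeGroup.toWord_pow,
    FreeGroup.reduceCyclically.reduce_flatten_replicate FreeGroup.isReduced_toWord, if_neg hn.ne']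
  simp only [List.length_append, List.length_flatten, List.map_replicate, List.sum_replicate,
    smul_eq_mul]
  nlinarith

private theorem W1b_norm_pow_le (d : F2) (n : ℕ) : (d ^ n).norm ≤ n * d.norm := by
  induction n with
  | zero => simp
  | succ n ih =>
    rw [pow_succ]
    refine (FreeGroup.norm_mul_le _ _).trans ?_
    rw [Nat.succ_mul]
    omega

/-- PROOF: Mathlib `FreeGroup.reduce_flatten_replicate` (file `GroupTheory/FreeGroup/CyclicallyReduced`): `r = w c w⁻¹` with `c` cyclically reduced and not empty, the reduced word of `r ^ k` is `w c ⋯ c w⁻¹`, of length at least `k`. Negative `k`: `FreeGroup.norm_inv_eq`. -/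
theorem norm_zpow_ge {r : F2} (hr : r ≠ 1) (k : ℤ) : k.natAbs ≤ (r ^ k).norm := by
  rcases Int.natAbs_eq k with h | h
  · rw [h, zpow_natCast, Int.natAbs_natCast]
    exact W1b_norm_pow hr _
  · rw [h, zpow_neg, zpow_natCast, FreeGroup.norm_inv_eq, Int.natAbs_neg, Int.natAbs_natCast]
    exact W1b_norm_pow hr _

/-- PROOF: `(b ^ n a (b ^ n)⁻¹) ^ m = b ^ n a ^ m (b ^ n)⁻¹ = a ^ m`, so `b ^ n a (b ^ n)⁻¹ = a` (`pow_left_injective`, free groups are `IsMulTorsionFree`), so `(a⁻¹ b a) ^ n = b ^ n` and `a⁻¹ b a = b`. -/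
theorem commute_of_pow {a b : F2} {m n : ℕ} (hm : m ≠ 0) (hn : n ≠ 0)
    (h : a ^ m * b ^ n = b ^ n * a ^ m) : a * b = b * a := by
  have h1 : b ^ n * a * (b ^ n)⁻¹ = a := by
    apply pow_left_injective hm
    show (b ^ n * a * (b ^ n)⁻¹) ^ m = a ^ m
    rw [conj_pow, ← h, mul_inv_cancel_right]
  have h2 : b ^ n * a = a * b ^ n := mul_inv_eq_iff_eq_mul.1 h1
  have h3 : a⁻¹ * b * a = b := by
    apply pow_left_injective hn
    show (a⁻¹ * b * a) ^ n = b ^ n
    have h4 := conj_pow (i := n) (a := a⁻¹) (b := b)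
    rw [inv_inv] at h4
    rw [h4, mul_assoc, h2, inv_mul_cancel_left]
  rw [mul_assoc, inv_mul_eq_iff_eq_mul] at h3
  exact h3.symm

/-- PROOF: `free_centralizer` and `norm_zpow_ge`: `g = r ^ k` with `|k| ≤ L`. -/
theorem card_centralizer {z : F2} (hz : z ≠ 1) (L : ℕ) :
    {g : F2 | g * z = z * g ∧ g.norm ≤ L}.Finite ∧
      {g : F2 | g * z = z * g ∧ g.norm ≤ L}.ncard ≤ 2 * L + 1 := by
  classical
  obtain ⟨r, hr, h⟩ := free_centralizer hz
  have hsub : {g : F2 | g * z = z * g ∧ g.norm ≤ L} ⊆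
      (((Finset.Icc (-(L : ℤ)) L).image fun k => r ^ k : Finset F2) : Set F2) := by
    rintro g ⟨hg, hL⟩
    obtain ⟨k, rfl⟩ := h g hg
    have hk := (norm_zpow_ge hr k).trans hL
    rw [Finset.mem_coe, Finset.mem_image]
    exact ⟨k, Finset.mem_Icc.2 ⟨by omega, by omega⟩, rfl⟩
  refine ⟨(Finset.finite_toSet _).subset hsub, ?_⟩
  refine (Set.ncard_le_ncard hsub (Finset.finite_toSet _)).trans ?_
  rw [Set.ncard_coe_finset]
  refine Finset.card_image_le.trans ?_
  rw [Int.card_Icc]
  omega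

private theorem W1b_card {c : F2} (hc : c ≠ 1) (y : F2) (L N : ℕ) (hN : N ≠ 0) :
    {d : F2 | cm (c ^ N) (d ^ N) = y ∧ d.norm ≤ L}.Finite ∧
      {d : F2 | cm (c ^ N) (d ^ N) = y ∧ d.norm ≤ L}.ncard ≤ 2 * (2 * (N * L)) + 1 := by
  rcases Set.eq_empty_or_nonempty {d : F2 | cm (c ^ N) (d ^ N) = y ∧ d.norm ≤ L} with h | ⟨d₀, hd₀⟩
  · rw [h]
    exact ⟨Set.finite_empty, by simp⟩
  have hc' : c ^ N ≠ 1 := fun h => hc (by
    apply pow_left_injective hN
    show c ^ N = 1 ^ N
    rw [h, one_pow])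
  obtain ⟨hf, hcard⟩ := card_centralizer hc' (2 * (N * L))
  have hmap : ∀ d ∈ {d : F2 | cm (c ^ N) (d ^ N) = y ∧ d.norm ≤ L},
      (d₀ ^ N)⁻¹ * d ^ N ∈ {g : F2 | g * c ^ N = c ^ N * g ∧ g.norm ≤ 2 * (N * L)} := by
    rintro d ⟨hd, hdL⟩
    obtain ⟨hd0, hd0L⟩ := hd₀
    refine ⟨?_, ?_⟩
    · rw [← hd0] at hd
      generalize c ^ N = C at hd ⊢
      generalize d ^ N = X at hd ⊢
      generalize d₀ ^ N = Y at hd ⊢
      unfold cm at hd
      have h1 : X * C⁻¹ * X⁻¹ = Y * C⁻¹ * Y⁻¹ := by
        have := mul_left_cancel (a := C) (by simpa only [mul_assoc] using hd :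
          C * (X * (C⁻¹ * X⁻¹)) = C * (Y * (C⁻¹ * Y⁻¹)))
        simpa only [mul_assoc] using this
      have h2 : X * C * X⁻¹ = Y * C * Y⁻¹ := by
        have := congrArg (fun t => t⁻¹) h1
        simpa only [mul_inv_rev, inv_inv, mul_assoc] using this
      have h3 : X * C = Y * C * Y⁻¹ * X := by
        rw [← h2, inv_mul_cancel_right]
      rw [mul_assoc, h3]
      simp only [mul_assoc, inv_mul_cancel_left]
    · refine (FreeGroup.norm_mul_le _ _).trans ?_
      rw [FreeGroup.norm_inv_eq]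
      have h1 := (W1b_norm_pow_le d N).trans (Nat.mul_le_mul_left N hdL)
      have h2 := (W1b_norm_pow_le d₀ N).trans (Nat.mul_le_mul_left N hd0L)
      omega
  have hinj : Set.InjOn (fun d : F2 => (d₀ ^ N)⁻¹ * d ^ N)
      {d : F2 | cm (c ^ N) (d ^ N) = y ∧ d.norm ≤ L} := by
    intro d _ d' _ h
    exact pow_left_injective hN (mul_left_cancel h)
  exact ⟨Set.Finite.of_injOn hmap hinj hf, (Set.ncard_le_ncard_of_injOn _ hmap hinj hf).trans hcard⟩

/-- PROOF: if the set is not empty let `d₀` be an element. For `d` in the set `d ^ 240 c⁻²⁴⁰ d⁻²⁴⁰ = c⁻²⁴⁰ y = d₀ ^ 240 c⁻²⁴⁰ d₀⁻²⁴⁰`, so `d₀⁻²⁴⁰ d ^ 240` commutes with `c ^ 240 ≠ 1` and has norm at most `480 L`; the map `d ↦ d₀⁻²⁴⁰ d ^ 240` is injective (unique roots).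
`card_centralizer`. -/
theorem card_cm_eq {c : F2} (hc : c ≠ 1) (y : F2) (L : ℕ) :
    {d : F2 | cm (c ^ 240) (d ^ 240) = y ∧ d.norm ≤ L}.Finite ∧
      {d : F2 | cm (c ^ 240) (d ^ 240) = y ∧ d.norm ≤ L}.ncard ≤ 960 * L + 1 := by
  obtain ⟨h1, h2⟩ := W1b_card hc y L 240 (by norm_num)
  exact ⟨h1, h2.trans (by omega)⟩

end Pool.Agent.Lib.MP_3bb35d_al.UE
end
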