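import Pool.Agent.Lib.MP_3bb35d_al.UE.T0

section

/-!
# A valuation with `|Φ| ≥ 1` and an unbounded coordinate
-/

set_option autoImplicit false

namespace Pool.Agent.Lib.MP_3bb35d_al.UE

/-- If `t⁻¹` is integral over `k[t]` then `t` is algebraic over `k`. -/
private theorem T1_alg {k K : Type*} [Field k] [Field K] [Algebra k K] (t : K) (ht : t ≠ 0)
    (h : IsIntegral (Algebra.adjoin k {t}) t⁻¹) : IsIntegral k t := by
  obtain ⟨f, hf, hf'⟩ := h
  -- multiply by the power of `t`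
  have hmem : t⁻¹ ∈ Algebra.adjoin k {t} := by
    have htB : t ∈ Algebra.adjoin k {t} := Algebra.subset_adjoin rfl
    rcases Nat.eq_zero_or_pos f.natDegree with h0 | hpos
    · rw [Polynomial.natDegree_eq_zero_iff_degree_le_zero, ] at h0
      have h1 : f = 1 := by
        apply Polynomial.eq_one_of_monic_natDegree_zero hf
        exact Polynomial.natDegree_eq_zero_iff_degree_le_zero.2 h0
      rw [h1, Polynomial.eval₂_one] at hf'
      exact absurd hf' one_ne_zero
    · obtain ⟨n, hn⟩ : ∃ n, f.natDegree = n + 1 := ⟨f.natDegree - 1, by omega⟩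
      rw [Polynomial.eval₂_eq_sum_range, Finset.sum_range_succ, hn] at hf'
      have hc : f.coeff (n + 1) = 1 := by rw [← hn]; exact hf
      rw [hc, map_one, one_mul] at hf'
      have e : t⁻¹ = -∑ i ∈ Finset.range (n + 1), ((f.coeff i : Algebra.adjoin k {t}) : K) *
          t ^ (n - i) := by
        have h2 : t⁻¹ ^ (n + 1) = -∑ i ∈ Finset.range (n + 1),
            (algebraMap (Algebra.adjoin k {t}) K) (f.coeff i) * t⁻¹ ^ i := by
          linear_combination hf'
        have h3 : t⁻¹ = t ^ n * t⁻¹ ^ (n + 1) := by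
          rw [pow_succ, ← mul_assoc, ← mul_pow, mul_inv_cancel₀ ht, one_pow, one_mul]
        rw [h3, h2, mul_neg, Finset.mul_sum]
        congr 1
        apply Finset.sum_congr rfl
        intro i hi
        have hi' : i ≤ n := Nat.lt_succ_iff.1 (Finset.mem_range.1 hi)
        have h4 : t ^ n * t⁻¹ ^ i = t ^ (n - i) := by
          rw [inv_pow, pow_sub₀ t ht hi']
        change t ^ n * (((f.coeff i : Algebra.adjoin k {t}) : K) * t⁻¹ ^ i) = _
        rw [← h4]
        ring
      rw [e]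
      apply neg_mem
      apply sum_mem
      intro i _
      exact mul_mem (f.coeff i).2 (pow_mem htB _)
  rw [Algebra.adjoin_singleton_eq_range_aeval] at hmem
  obtain ⟨g, hg⟩ := hmem
  have hg' : (Polynomial.aeval t) g = t⁻¹ := hg
  by_contra hnot
  have htr : Transcendental k t := fun h => hnot h.isIntegral
  have hz : (Polynomial.aeval t) (Polynomial.X * g - 1) = 0 := by
    rw [map_sub, map_mul, Polynomial.aeval_X, hg', map_one, mul_inv_cancel₀ ht, sub_self]
  have h0 := (transcendental_iff.1 htr) _ hz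
  have h1 : Polynomial.X * g = 1 := by linear_combination h0
  have h2 := congrArg (Polynomial.eval 0) h1
  simp at h2

/-- PROOF. Let `t = (Ph a b c)⁻¹` and `B = k[t] ⊆ K` (`Algebra.adjoin k {t}`). Suppose that every valuation subring of `K` containing `t` contains `a, b, c`; in particular every valuation subring containing `B`. The intersection of the valuation subrings containing `B` is the integral
closure of `B` (Mathlib `iInf_valuationSubring_superset`, or `Subring.exists_le_valuationSubring_of_isIntegrallyClosedIn`, file `RingTheory/Valuation/LocalSubring`), so `a, b, c` are integral over `B`, and so is `s = t⁻¹ = Ph a b c`, a polynomial in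
`a, b, c`. Multiplying the equation of `s` of degree `n` by `t ^ (n - 1)` gives `s ∈ B`, `s = f(t)` with `f ∈ k[X]`, so `t f(t) - 1 = 0` and `t` is algebraic over `k` (`X * f - 1 ≠ 0`). So `B` is algebraic (integral) over `k` and `a, b, c` are algebraic over `k`, a contradiction. -/
theorem exists_valuation {k K : Type*} [Field k] [Field K] [Algebra k K] (a b c : K)
    (h : Transcendental k a ∨ Transcendental k b ∨ Transcendental k c) (hΦ : Ph a b c ≠ 0) :
    ∃ O : ValuationSubring K, (Ph a b c)⁻¹ ∈ O ∧ ¬ (a ∈ O ∧ b ∈ O ∧ c ∈ O) := by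
  by_contra hcon
  push Not at hcon
  set t : K := (Ph a b c)⁻¹ with ht
  have ht0 : t ≠ 0 := inv_ne_zero hΦ
  have key : ∀ x : K, (∀ O : ValuationSubring K, t ∈ O → x ∈ O) →
      IsIntegral (Algebra.adjoin k {t}) x := by
    intro x hx
    by_contra hni
    have hxR : x ∉ (integralClosure (Algebra.adjoin k {t}) K).toSubring := hni
    obtain ⟨V, hV, hxV⟩ := Subring.exists_le_valuationSubring_of_isIntegrallyClosedIn hxR
    apply hxV
    apply hx
    apply hV
    change IsIntegral (Algebra.adjoin k {t}) t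
    exact isIntegral_algebraMap (R := Algebra.adjoin k {t}) (A := K)
      (x := ⟨t, Algebra.subset_adjoin rfl⟩)
  have ha := key a fun O hO => (hcon O hO).1
  have hb := key b fun O hO => (hcon O hO).2.1
  have hc := key c fun O hO => (hcon O hO).2.2
  have hs : IsIntegral (Algebra.adjoin k {t}) t⁻¹ := by
    rw [ht, inv_inv]
    unfold Ph DD
    have h4 : IsIntegral (Algebra.adjoin k {t}) (4 : K) := by
      have h := isIntegral_algebraMap (R := Algebra.adjoin k {t}) (A := K) (x := ((4 : ℕ) : _))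
      rw [map_natCast] at h
      exact_mod_cast h
    exact ((((((ha.pow 2).add (hb.pow 2)).add (hc.pow 2)).sub ((ha.mul hb).mul hc)).sub h4).mul
      ha).mul hb
  have hti : IsIntegral k t := T1_alg t ht0 hs
  have hB : Algebra.IsIntegral k (Algebra.adjoin k {t}) := by
    apply Algebra.IsIntegral.adjoin
    intro x hx
    rw [Set.mem_singleton_iff] at hx
    rw [hx]
    exact hti
  have tr : ∀ x : K, IsIntegral (Algebra.adjoin k {t}) x → ¬ Transcendental k x := by
    intro x hx hx'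
    exact hx' (isIntegral_trans (R := k) x hx).isAlgebraic
  rcases h with h | h | h
  · exact tr a ha h
  · exact tr b hb h
  · exact tr c hc h

end Pool.Agent.Lib.MP_3bb35d_al.UE
end

section

/-!
# Ping-pong
-/

set_option autoImplicit false

namespace Pool.Agent.Lib.MP_3bb35d_al.UE

private theorem T2_add {K Γ : Type*} [Field K] [LinearOrderedCommGroupWithZero Γ]
    (v : Valuation K Γ) (M : Γ) (hM : 1 < M) (a b X Y : K) (ha : 1 ≤ M ^ 10 * v a)
    (hb : v b ≤ M ^ 10) (hXY : M ^ 21 * v Y < v X) : v (a * X + b * Y) = v a * v X := by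
  have hM0 : 0 < M := lt_trans zero_lt_one hM
  have h1 : v (b * Y) < v (a * X) := by
    rw [map_mul, map_mul]
    have h2 : M ^ 10 * (v b * v Y) < M ^ 10 * (v a * v X) := by
      calc M ^ 10 * (v b * v Y) ≤ M ^ 10 * (M ^ 10 * v Y) := by gcongr
        _ = M ^ 20 * v Y := by rw [← mul_assoc, ← pow_add]
        _ ≤ M ^ 21 * v Y := by
            gcongr
            · exact hM.le
            · norm_num
        _ < v X := hXY
        _ = 1 * v X := by rw [one_mul]
        _ ≤ (M ^ 10 * v a) * v X := by gcongr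
        _ = M ^ 10 * (v a * v X) := by rw [mul_assoc]
    exact lt_of_mul_lt_mul_left' h2
  rw [Valuation.map_add_eq_of_lt_left v h1, map_mul]

private theorem T2_two {K Γ : Type*} [Field K] [LinearOrderedCommGroupWithZero Γ]
    (v : Valuation K Γ) (M : Γ) (hM : 1 < M) (a b c d X Y : K) (ha : 1 ≤ M ^ 10 * v a)
    (ha' : v a ≤ M ^ 10)
    (hb : v b ≤ M ^ 10) (hc : 1 ≤ M ^ 10 * v c) (hd : v d ≤ M ^ 10)
    (hXY : M ^ 21 * v Y < v X) : v (a * X + b * Y) ≤ M ^ 21 * v (c * X + d * Y) := by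
  rw [T2_add v M hM a b X Y ha hb hXY, T2_add v M hM c d X Y hc hd hXY]
  calc v a * v X ≤ M ^ 10 * v X := by gcongr
    _ = M ^ 10 * (1 * v X) := by rw [one_mul]
    _ ≤ M ^ 10 * ((M ^ 10 * v c) * v X) := by gcongr
    _ = M ^ 20 * (v c * v X) := by rw [mul_assoc, ← mul_assoc, ← pow_add]
    _ ≤ M ^ 21 * (v c * v X) := by
        gcongr
        · exact hM.le
        · norm_num

private theorem T2_pow {K : Type*} [Field K] (h : Matrix.SpecialLinearGroup (Fin 2) K) (s : K)
    (h00 : h 0 0 = s) (h01 : h 0 1 = 0) (h10 : h 1 0 = 0) (h11 : h 1 1 = s⁻¹) (n : ℕ) :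
    (h ^ n) 0 0 = s ^ n ∧ (h ^ n) 0 1 = 0 ∧ (h ^ n) 1 0 = 0 ∧ (h ^ n) 1 1 = (s⁻¹) ^ n := by
  induction n with
  | zero => simp
  | succ n ih =>
    obtain ⟨a, b, c, d⟩ := ih
    simp only [pow_succ, Matrix.SpecialLinearGroup.coe_mul, Matrix.mul_apply, Fin.sum_univ_two]
    simp only [Matrix.SpecialLinearGroup.coe_pow] at a b c d ⊢
    rw [a, b, c, d, h00, h01, h10, h11]
    simp

/-- Nonzero vectors. -/
private abbrev T2_V (K : Type*) [Field K] : Type _ := {x : Fin 2 → K // x ≠ 0}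

/-- The action. -/
@[instance_reducible] private def T2_act (K : Type*) [Field K] :
    MulAction (Matrix.SpecialLinearGroup (Fin 2) K) (T2_V K) where
  smul g x := ⟨g.1.mulVec x.1, fun h => x.2 (by
    have : (g⁻¹).1.mulVec (g.1.mulVec x.1) = 0 := by rw [h, Matrix.mulVec_zero]
    rw [Matrix.mulVec_mulVec, ← Matrix.SpecialLinearGroup.coe_mul, inv_mul_cancel,
      Matrix.SpecialLinearGroup.coe_one, Matrix.one_mulVec] at this
    exact this)⟩
  one_smul x := Subtype.ext (by
    change (1 : Matrix.SpecialLinearGroup (Fin 2) K).1.mulVec x.1 = x.1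
    rw [Matrix.SpecialLinearGroup.coe_one, Matrix.one_mulVec])
  mul_smul g g' x := Subtype.ext (by
    change (g * g').1.mulVec x.1 = g.1.mulVec (g'.1.mulVec x.1)
    rw [Matrix.SpecialLinearGroup.coe_mul, Matrix.mulVec_mulVec])

/-- PROOF. Ping-pong on the nonzero vectors `(X, Y)` of `K²` (a subtype with its action of `SL₂(K)`, or `Projectivization`), Mathlib `FreeGroup.injective_lift_of_ping_pong`. `M = v s > 1`. Let `U₊ = {v X > M ^ 21 * v Y}`, `U₋ = {v Y > M ^ 21 * v X}`.
`h ^ 22 (X, Y) = (s ^ 22 X, s⁻²² Y)`. If `(X, Y) ∉ U₋`, i.e. `v Y ≤ M ^ 21 v X` (so `X ≠ 0`), then `M ^ 21 v (s⁻²² Y) ≤ M ^ 20 v X < v (s ^ 22 X)`, so `h ^ 22 (U₋)ᶜ ⊆ U₊`; similarly `h⁻²² (U₊)ᶜ ⊆ U₋`. The domains of the second generator are `w U₊`, `w U₋`. If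
`(X, Y) ∈ U₊` then `v (w₁₂ Y) ≤ M ^ 10 v Y < M⁻¹¹ v X < v (w₁₁ X)`, so the first coordinate of `w (X, Y)` has valuation `v w₁₁ v X`, similarly the second `v w₂₁ v X`; both are between `M⁻¹⁰ v X` and `M ^ 10 v X`, so `w (X, Y)` is neither in `U₊` nor in `U₋` (ratio at
most `M ^ 20 < M ^ 21`). Similarly for `U₋`. So the four domains `U₊, U₋, w U₊, w U₋` are disjoint. -/
theorem ping_pong {K Γ : Type*} [Field K] [LinearOrderedCommGroupWithZero Γ] (v : Valuation K Γ)
    (h w : Matrix.SpecialLinearGroup (Fin 2) K) (s : K) (hs : 1 < v s)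
    (h00 : h 0 0 = s) (h01 : h 0 1 = 0) (h10 : h 1 0 = 0) (h11 : h 1 1 = s⁻¹)
    (hw : ∀ i j, 1 ≤ v s ^ 10 * v (w i j)) (hw' : ∀ i j, v (w i j) ≤ v s ^ 10) :
    Function.Injective (ev (h ^ 22) (w * h ^ 22 * w⁻¹)) := by
  classical
  let _ := T2_act K
  have hsm : ∀ (g : Matrix.SpecialLinearGroup (Fin 2) K) (x : T2_V K),
      (g • x).1 = g.1.mulVec x.1 := fun g x => rfl
  have hsm0 : ∀ (g : Matrix.SpecialLinearGroup (Fin 2) K) (x : T2_V K),
      (g • x).1 0 = g 0 0 * x.1 0 + g 0 1 * x.1 1 := fun g x => by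
    rw [hsm, Matrix.mulVec, dotProduct, Fin.sum_univ_two]
  have hsm1 : ∀ (g : Matrix.SpecialLinearGroup (Fin 2) K) (x : T2_V K),
      (g • x).1 1 = g 1 0 * x.1 0 + g 1 1 * x.1 1 := fun g x => by
    rw [hsm, Matrix.mulVec, dotProduct, Fin.sum_univ_two]
  set M : Γ := v s with hMdef
  have hM0 : 0 < M := lt_trans zero_lt_one hs
  have hs0 : s ≠ 0 := by
    rintro rfl
    rw [hMdef, map_zero] at hM0
    exact lt_irrefl _ hM0
  let Up : Set (T2_V K) := {x | M ^ 21 * v (x.1 1) < v (x.1 0)}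
  let Um : Set (T2_V K) := {x | M ^ 21 * v (x.1 0) < v (x.1 1)}
  -- nonzero coordinates
  have hnz : ∀ x : T2_V K, x.1 0 ≠ 0 ∨ x.1 1 ≠ 0 := by
    intro x
    by_contra hcon
    push Not at hcon
    apply x.2
    ext i
    fin_cases i
    · exact hcon.1
    · exact hcon.2
  obtain ⟨e00, e01, e10, e11⟩ := T2_pow h s h00 h01 h10 h11 22
  have hA : ∀ x : T2_V K, x ∉ Um → h ^ 22 • x ∈ Up := by
    intro x hx
    simp only [Um, Up, Set.mem_ofPred_eq, not_lt] at hx ⊢
    rw [hsm0, hsm1, e00, e01, e10, e11, zero_mul, zero_mul, add_zero, zero_add, map_mul, map_mul,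
      map_pow, map_pow, map_inv₀, ← hMdef]
    have hX : x.1 0 ≠ 0 := by
      intro h0
      rw [h0, map_zero, mul_zero] at hx
      have : v (x.1 1) = 0 := le_antisymm hx zero_le
      rw [map_eq_zero] at this
      rcases hnz x with h | h
      · exact h h0
      · exact h this
    have hvX : 0 < v (x.1 0) := (Valuation.pos_iff v).2 hX
    calc M ^ 21 * (M⁻¹ ^ 22 * v (x.1 1)) = M⁻¹ * v (x.1 1) := by
          rw [← mul_assoc]
          congr 1
          rw [inv_pow, pow_succ M 21, mul_inv, ← mul_assoc, mul_inv_cancel₀ (pow_ne_zero _ hM0.ne'),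
            one_mul]
      _ ≤ M⁻¹ * (M ^ 21 * v (x.1 0)) := by gcongr
      _ = M ^ 20 * v (x.1 0) := by
          rw [← mul_assoc, pow_succ' M 20, ← mul_assoc, inv_mul_cancel₀ hM0.ne', one_mul]
      _ < M ^ 22 * v (x.1 0) := by
          apply mul_lt_mul_of_pos_right _ hvX
          exact pow_lt_pow_right₀ hs (by norm_num)
  have hB : ∀ x : T2_V K, x ∉ Up → (h ^ 22)⁻¹ • x ∈ Um := by
    intro x hx
    obtain ⟨y, rfl⟩ : ∃ y, x = h ^ 22 • y := ⟨(h ^ 22)⁻¹ • x, by rw [smul_inv_smul]⟩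
    rw [inv_smul_smul]
    simp only [Um, Up, Set.mem_ofPred_eq, not_lt] at hx ⊢
    rw [hsm0, hsm1, e00, e01, e10, e11, zero_mul, zero_mul, add_zero, zero_add, map_mul, map_mul,
      map_pow, map_pow, map_inv₀, ← hMdef] at hx
    have h3 : M ^ 21 * (M⁻¹ ^ 22 * v (y.1 1)) = M⁻¹ * v (y.1 1) := by
      rw [← mul_assoc]
      congr 1
      rw [inv_pow, pow_succ M 21, mul_inv, ← mul_assoc, mul_inv_cancel₀ (pow_ne_zero _ hM0.ne'),
        one_mul]
    rw [h3] at hx
    have h4 : M ^ 23 * v (y.1 0) ≤ v (y.1 1) := by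
      calc M ^ 23 * v (y.1 0) = M * (M ^ 22 * v (y.1 0)) := by rw [← mul_assoc, ← pow_succ']
        _ ≤ M * (M⁻¹ * v (y.1 1)) := by gcongr
        _ = v (y.1 1) := by rw [← mul_assoc, mul_inv_cancel₀ hM0.ne', one_mul]
    rcases eq_or_ne (y.1 0) 0 with hy | hy
    · rw [hy, map_zero, mul_zero]
      rcases hnz y with h | h
      · exact absurd hy h
      · exact (Valuation.pos_iff v).2 h
    · have hvX : 0 < v (y.1 0) := (Valuation.pos_iff v).2 hy
      refine lt_of_lt_of_le ?_ h4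
      apply mul_lt_mul_of_pos_right _ hvX
      exact pow_lt_pow_right₀ hs (by norm_num)
  have hM21 : (1 : Γ) ≤ M ^ 21 := one_le_pow₀ hs.le
  have hC : ∀ x : T2_V K, x ∈ Up → x ∉ Um := by
    intro x hx hx'
    simp only [Um, Up, Set.mem_ofPred_eq] at hx hx'
    have h1 : v (x.1 1) ≤ M ^ 21 * v (x.1 1) := by
      calc v (x.1 1) = 1 * v (x.1 1) := by rw [one_mul]
        _ ≤ _ := by gcongr
    have h2 : v (x.1 0) ≤ M ^ 21 * v (x.1 0) := by
      calc v (x.1 0) = 1 * v (x.1 0) := by rw [one_mul]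
        _ ≤ _ := by gcongr
    exact lt_irrefl _ (((h1.trans_lt hx).trans_le h2).trans hx')
  have hD : ∀ x : T2_V K, x ∈ Up ∨ x ∈ Um → w • x ∉ Up ∧ w • x ∉ Um := by
    intro x hx
    simp only [Um, Up, Set.mem_ofPred_eq, not_lt] at hx ⊢
    rw [hsm0, hsm1]
    rcases hx with hx | hx
    · exact ⟨T2_two v M hs _ _ _ _ _ _ (hw _ _) (hw' _ _) (hw' _ _) (hw _ _) (hw' _ _) hx,
        T2_two v M hs _ _ _ _ _ _ (hw _ _) (hw' _ _) (hw' _ _) (hw _ _) (hw' _ _) hx⟩
    · rw [add_comm (w 0 0 * _), add_comm (w 1 0 * _)]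
      exact ⟨T2_two v M hs _ _ _ _ _ _ (hw _ _) (hw' _ _) (hw' _ _) (hw _ _) (hw' _ _) hx,
        T2_two v M hs _ _ _ _ _ _ (hw _ _) (hw' _ _) (hw' _ _) (hw _ _) (hw' _ _) hx⟩
  -- the ping-pong lemma
  let a : ULift Bool → Matrix.SpecialLinearGroup (Fin 2) K := fun b =>
    if b.down then h ^ 22 else w * h ^ 22 * w⁻¹
  let XX : ULift Bool → Set (T2_V K) := fun b => if b.down then Up else {x | w⁻¹ • x ∈ Up}
  let YY : ULift Bool → Set (T2_V K) := fun b => if b.down then Um else {x | w⁻¹ • x ∈ Um}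
  have hDD : ∀ x : T2_V K, w⁻¹ • x ∈ Up ∨ w⁻¹ • x ∈ Um → x ∉ Up ∧ x ∉ Um := by
    intro x hx
    have := hD _ hx
    rwa [smul_inv_smul] at this
  have key : Function.Injective (FreeGroup.lift a) := by
    apply FreeGroup.injective_lift_of_ping_pong a XX YY
    · have hne : (⟨![1, 0], fun h0 => one_ne_zero (congrFun h0 0)⟩ : T2_V K) ∈ Up := by
        simp [Up]
      rintro ⟨b⟩
      cases b
      · refine ⟨w • ⟨![1, 0], fun h0 => one_ne_zero (congrFun h0 0)⟩, ?_⟩
        change w⁻¹ • _ ∈ Up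
        rw [inv_smul_smul]
        exact hne
      · exact ⟨_, hne⟩
    · rintro ⟨b⟩ ⟨c⟩ hbc
      cases b <;> cases c
      · exact absurd rfl hbc
      · exact Set.disjoint_left.2 fun x hx hx' => (hDD x (Or.inl hx)).1 hx'
      · exact Set.disjoint_left.2 fun x hx hx' => (hDD x (Or.inl hx')).1 hx
      · exact absurd rfl hbc
    · rintro ⟨b⟩ ⟨c⟩ hbc
      cases b <;> cases c
      · exact absurd rfl hbc
      · exact Set.disjoint_left.2 fun x hx hx' => (hDD x (Or.inr hx)).2 hx'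
      · exact Set.disjoint_left.2 fun x hx hx' => (hDD x (Or.inr hx')).2 hx
      · exact absurd rfl hbc
    · rintro ⟨b⟩ ⟨c⟩
      cases b <;> cases c
      · exact Set.disjoint_left.2 fun x hx hx' => hC _ hx hx'
      · exact Set.disjoint_left.2 fun x hx hx' => (hDD x (Or.inl hx)).2 hx'
      · exact Set.disjoint_left.2 fun x hx hx' => (hDD x (Or.inr hx')).1 hx
      · exact Set.disjoint_left.2 fun x hx hx' => hC _ hx hx'
    · rintro ⟨b⟩
      cases b
      · rintro _ ⟨x, hx, rfl⟩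
        change w⁻¹ • ((w * h ^ 22 * w⁻¹) • x) ∈ Up
        rw [smul_smul, ← mul_assoc, ← mul_assoc, inv_mul_cancel, one_mul, mul_smul]
        exact hA _ hx
      · rintro _ ⟨x, hx, rfl⟩
        exact hA _ hx
    · rintro ⟨b⟩
      cases b
      · rintro _ ⟨x, hx, rfl⟩
        change w⁻¹ • ((w * h ^ 22 * w⁻¹)⁻¹ • x) ∈ Um
        have : w⁻¹ * (w * h ^ 22 * w⁻¹)⁻¹ = (h ^ 22)⁻¹ * w⁻¹ := by group
        rw [smul_smul, this, mul_smul]
        exact hB _ hx
      · rintro _ ⟨x, hx, rfl⟩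
        exact hB _ hx
  have hcomp : ev (h ^ 22) (w * h ^ 22 * w⁻¹) =
      (FreeGroup.lift a).comp (FreeGroup.freeGroupCongr Equiv.ulift.symm).toMonoidHom := by
    refine FreeGroup.ext_hom _ _ fun b => ?_
    cases b <;> simp [ev, a, FreeGroup.freeGroupCongr]
  rw [hcomp, MonoidHom.coe_comp]
  exact key.comp (MulEquiv.injective _)

end Pool.Agent.Lib.MP_3bb35d_al.UE
end
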