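import Pool.Agent.Lib.MP_3bb35d_al.Mg.G010
import Pool.Agent.Lib.MP_3bb35d_al.Mg.G021
import Pool.Agent.Lib.MP_3bb35d_al.Mg.G003
import Pool.Agent.Lib.MP_3bb35d_al.Mg.G006
import Pool.Agent.Lib.MP_3bb35d_al.Mg.G023

section

/-!
# The law of the proper subgroups, and the mass of cosets
-/

set_option autoImplicit false

namespace Pool.Agent.Lib.MP_3bb35d_al.UE

private theorem H3_fix_comm {K : Type*} [Field K] {v : Fin 2 → K} (hv : v ≠ 0)
    {g h : Matrix.SpecialLinearGroup (Fin 2) K}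
    (hg : (g : Matrix (Fin 2) (Fin 2) K).mulVec v = v)
    (hh : (h : Matrix (Fin 2) (Fin 2) K).mulVec v = v) : g * h = h * g := by
  have key : ∀ (a b c d x y : K), x ≠ 0 → a * x + b * y = x → c * x + d * y = y →
      a * d - b * c = 1 → a = 1 - b * (y / x) ∧ d = 1 + b * (y / x) ∧ c = - b * (y / x) ^ 2 := by
    intro a b c d x y hx h1 h2 h3
    have ha : a = 1 - b * (y / x) := by
      field_simp
      linear_combination h1
    have hc : c = (1 - d) * (y / x) := by
      field_simp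
      linear_combination h2
    have hd : d = 1 + b * (y / x) := by
      rw [ha, hc] at h3
      linear_combination h3
    refine ⟨ha, hd, ?_⟩
    rw [hc, hd]
    ring
  have eqs : ∀ g : Matrix.SpecialLinearGroup (Fin 2) K,
      (g : Matrix (Fin 2) (Fin 2) K).mulVec v = v →
      g 0 0 * v 0 + g 0 1 * v 1 = v 0 ∧ g 1 0 * v 0 + g 1 1 * v 1 = v 1 ∧
      g 0 0 * g 1 1 - g 0 1 * g 1 0 = 1 := by
    intro g hg
    refine ⟨?_, ?_, ?_⟩
    · have := congrFun hg 0
      simpa [Matrix.mulVec, dotProduct, Fin.sum_univ_two] using this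
    · have := congrFun hg 1
      simpa [Matrix.mulVec, dotProduct, Fin.sum_univ_two] using this
    · have := g.det_coe
      rw [Matrix.det_fin_two] at this
      exact this
  obtain ⟨g1, g2, g3⟩ := eqs g hg
  obtain ⟨h1, h2, h3⟩ := eqs h hh
  by_cases hx : v 0 = 0
  · have hy : v 1 ≠ 0 := by
      intro h0
      apply hv
      funext i
      fin_cases i
      · exact hx
      · exact h0
    obtain ⟨e1, e2, e3⟩ := key (g 1 1) (g 1 0) (g 0 1) (g 0 0) (v 1) (v 0) hy
      (by linear_combination g2) (by linear_combination g1) (by linear_combination g3)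
    obtain ⟨f1, f2, f3⟩ := key (h 1 1) (h 1 0) (h 0 1) (h 0 0) (v 1) (v 0) hy
      (by linear_combination h2) (by linear_combination h1) (by linear_combination h3)
    ext i j
    rw [Matrix.SpecialLinearGroup.coe_mul, Matrix.SpecialLinearGroup.coe_mul, Matrix.mul_apply,
      Matrix.mul_apply, Fin.sum_univ_two, Fin.sum_univ_two]
    fin_cases i <;> fin_cases j <;> simp only [Fin.zero_eta, Fin.mk_one, Fin.isValue, e1, e2, e3, f1, f2, f3] <;> ring
  · obtain ⟨e1, e2, e3⟩ := key _ _ _ _ _ _ hx g1 g2 g3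
    obtain ⟨f1, f2, f3⟩ := key _ _ _ _ _ _ hx h1 h2 h3
    ext i j
    rw [Matrix.SpecialLinearGroup.coe_mul, Matrix.SpecialLinearGroup.coe_mul, Matrix.mul_apply,
      Matrix.mul_apply, Fin.sum_univ_two, Fin.sum_univ_two]
    fin_cases i <;> fin_cases j <;> simp only [Fin.zero_eta, Fin.mk_one, Fin.isValue, e1, e2, e3, f1, f2, f3] <;> ring

private theorem H3_bor_inv {p : ℕ} [Fact p.Prime] {v : Fin 2 → ZMod p} (hv : v ≠ 0) {a : SL2 p}
    {c : ZMod p} (ha : (a : Matrix (Fin 2) (Fin 2) (ZMod p)).mulVec v = c • v) :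
    c ≠ 0 ∧ ((a⁻¹ : SL2 p) : Matrix (Fin 2) (Fin 2) (ZMod p)).mulVec v = c⁻¹ • v := by
  have h1 : ((a⁻¹ : SL2 p) : Matrix (Fin 2) (Fin 2) (ZMod p)).mulVec
      ((a : Matrix (Fin 2) (Fin 2) (ZMod p)).mulVec v) = v := by
    rw [Matrix.mulVec_mulVec, ← Matrix.SpecialLinearGroup.coe_mul, inv_mul_cancel,
      Matrix.SpecialLinearGroup.coe_one, Matrix.one_mulVec]
  rw [ha, Matrix.mulVec_smul] at h1
  have hc : c ≠ 0 := by
    rintro rfl
    rw [zero_smul] at h1
    exact hv h1.symm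
  refine ⟨hc, ?_⟩
  rw [eq_inv_smul_iff₀ hc]
  exact h1

private theorem H3_bor_pow {p : ℕ} [Fact p.Prime] {v : Fin 2 → ZMod p} {a : SL2 p}
    (ha : a ∈ bor v) (n : ℕ) : a ^ n ∈ bor v := by
  induction n with
  | zero => exact ⟨1, by simp⟩
  | succ n ih =>
    obtain ⟨c, hc⟩ := ih
    obtain ⟨d, hd⟩ := ha
    refine ⟨d * c, ?_⟩
    rw [pow_succ, Matrix.SpecialLinearGroup.coe_mul, ← Matrix.mulVec_mulVec, hd,
      Matrix.mulVec_smul, hc, smul_smul]

private theorem H3_cm_fix {p : ℕ} [Fact p.Prime] {v : Fin 2 → ZMod p} (hv : v ≠ 0) {a b : SL2 p}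
    (ha : a ∈ bor v) (hb : b ∈ bor v) :
    ((cm a b : SL2 p) : Matrix (Fin 2) (Fin 2) (ZMod p)).mulVec v = v := by
  obtain ⟨c, hc⟩ := ha
  obtain ⟨d, hd⟩ := hb
  obtain ⟨c0, hc'⟩ := H3_bor_inv hv hc
  obtain ⟨d0, hd'⟩ := H3_bor_inv hv hd
  rw [cm, Matrix.SpecialLinearGroup.coe_mul, Matrix.SpecialLinearGroup.coe_mul,
    Matrix.SpecialLinearGroup.coe_mul, ← Matrix.mulVec_mulVec, hd', Matrix.mulVec_smul,
    ← Matrix.mulVec_mulVec, hc', Matrix.mulVec_smul, ← Matrix.mulVec_mulVec, hd,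
    Matrix.mulVec_smul, hc]
  simp only [smul_smul]
  rw [show d⁻¹ * (c⁻¹ * (d * c)) = 1 by field_simp, one_smul]

private theorem H3_cm_one {G : Type*} [Group G] {a b : G} (h : a * b = b * a) : cm a b = 1 := by
  rw [cm, h]
  group

/-- PROOF: for `g, h ∈ bor v` the commutator fixes `v` (the eigenvalues multiply), so the two inner commutators of the law are of the form `!![1, x; 0, 1]` in a suitable basis, they commute. -/
theorem law_bor {p : ℕ} [Fact p.Prime] {v : Fin 2 → ZMod p} (hv : v ≠ 0) {a b c d : SL2 p}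
    (ha : a ∈ bor v) (hb : b ∈ bor v) (hc : c ∈ bor v) (hd : d ∈ bor v) : law a b c d = 1 :=
  H3_cm_one (H3_fix_comm hv (H3_cm_fix hv (H3_bor_pow ha 240) (H3_bor_pow hb 240))
    (H3_cm_fix hv (H3_bor_pow hc 240) (H3_bor_pow hd 240)))

private theorem H3_law_comm {G : Type*} [Group G] {a b c d : G}
    (h : a ^ 240 * b ^ 240 = b ^ 240 * a ^ 240) (h' : c ^ 240 * d ^ 240 = d ^ 240 * c ^ 240) :
    law a b c d = 1 := by
  rw [law, H3_cm_one h, H3_cm_one h']
  simp [cm]

/-- PROOF: if `p` divides `|H|`: `subgroup_bor`, `law_bor`. Otherwise the image of `H` in `SL₂(K)`, `K` the algebraic closure of `ZMod p`, satisfies the hypothesis of `finite_subgroup` (the map is injective, `|H| ≠ 0` in `K`): in the first case `a ^ 240, b ^ 240 ∈ N` (240 is even) commute, so their commutator is one, similarly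
for `c, d`; in the second case `a ^ 240 = 1` etc. In both cases the law is one; pull back by injectivity (`map_law`). (No condition `p ≥ 5` is needed.) -/
theorem law_proper {p : ℕ} [Fact p.Prime] (H : Subgroup (SL2 p)) (hH : H ≠ ⊤) {a b c d : SL2 p}
    (ha : a ∈ H) (hb : b ∈ H) (hc : c ∈ H) (hd : d ∈ H) : law a b c d = 1 := by
  by_cases hp : p ∣ Nat.card H
  · obtain ⟨v, hv, hHv⟩ := subgroup_bor H hp hH
    exact law_bor hv (hHv ha) (hHv hb) (hHv hc) (hHv hd)
  · set φ : SL2 p →* Matrix.SpecialLinearGroup (Fin 2) (Kb p) :=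
      Matrix.SpecialLinearGroup.map (algebraMap (ZMod p) (Kb p)) with hφ
    have hinj : Function.Injective φ := by
      intro x y hxy
      ext i j
      have h1 := congrArg (fun z : Matrix.SpecialLinearGroup (Fin 2) (Kb p) => z i j) hxy
      simp only [hφ, Matrix.SpecialLinearGroup.map_apply_coe, RingHom.mapMatrix_apply,
        Matrix.map_apply] at h1
      exact (algebraMap (ZMod p) (Kb p)).injective h1
    have hcard : Nat.card (H.map φ) = Nat.card H :=
      (Nat.card_congr (H.equivMapOfInjective φ hinj).toEquiv).symm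
    haveI : Finite (H.map φ) := Finite.of_equiv H (H.equivMapOfInjective φ hinj).toEquiv
    have hne : (Nat.card (H.map φ) : Kb p) ≠ 0 := by
      rw [hcard]
      intro h0
      exact hp ((CharP.cast_eq_zero_iff (Kb p) p _).1 h0)
    apply hinj
    rw [map_law, map_one]
    have hm : ∀ x ∈ H, φ x ∈ H.map φ := fun x hx => Subgroup.mem_map_of_mem φ hx
    rcases finite_subgroup (H.map φ) hne with ⟨N, hN, hcomm⟩ | h240
    · have hN' : ∀ x ∈ H, φ x ^ 240 ∈ N := by
        intro x hx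
        have h2 : φ x ^ 240 = (φ x ^ 2) ^ 120 := by rw [← pow_mul]
        rw [h2]
        exact N.pow_mem (hN _ (hm x hx)) 120
      exact H3_law_comm (hcomm _ (hN' a ha) _ (hN' b hb)) (hcomm _ (hN' c hc) _ (hN' d hd))
    · refine H3_law_comm ?_ ?_
      · rw [h240 _ (hm a ha), h240 _ (hm b hb)]
      · rw [h240 _ (hm c hc), h240 _ (hm d hd)]

private theorem H3_mass_rwk {G : Type*} [Group G] [Fintype G] (u v : G) (n : ℕ) (S : Set G) :
    mass (rwk u v n) S = ({A : Fin n → Fin 4 | wd u v A ∈ S}.ncard : ℝ) / 4 ^ n := by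
  classical
  rw [mass]
  have h1 : ∀ g : G, S.indicator (rwk u v n) g =
      (if g ∈ S then (({A : Fin n → Fin 4 | wd u v A = g}.ncard : ℝ)) else 0) / 4 ^ n := by
    intro g
    by_cases hg : g ∈ S
    · rw [Set.indicator_of_mem hg, if_pos hg, rwk]
    · rw [Set.indicator_of_notMem hg, if_neg hg, zero_div]
  rw [Finset.sum_congr rfl fun g _ => h1 g, ← Finset.sum_div]
  congr 1
  have h2 : ∀ g : G, {A : Fin n → Fin 4 | wd u v A = g}.ncard =
      (Finset.univ.filter fun A : Fin n → Fin 4 => wd u v A = g).card := by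
    intro g
    rw [← Set.ncard_coe_finset]
    congr 1
    ext A
    simp
  have h3 : {A : Fin n → Fin 4 | wd u v A ∈ S}.ncard =
      (Finset.univ.filter fun A : Fin n → Fin 4 => wd u v A ∈ S).card := by
    rw [← Set.ncard_coe_finset]
    congr 1
    ext A
    simp
  rw [h3, Finset.card_eq_sum_card_fiberwise (f := fun A => wd u v A) (t := Finset.univ)
    (by intro x _; simp)]
  push_cast
  refine Finset.sum_congr rfl fun g _ => ?_
  by_cases hg : g ∈ S
  · rw [if_pos hg, h2, Finset.filter_filter]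
    congr 2
    ext A
    simp only [Finset.mem_filter, Finset.mem_univ, true_and]
    constructor
    · rintro rfl
      exact ⟨hg, rfl⟩
    · exact fun h => h.2
  · rw [if_neg hg, Finset.filter_filter]
    symm
    rw [Nat.cast_eq_zero, Finset.card_eq_zero, Finset.filter_eq_empty_iff]
    rintro A _ ⟨h, rfl⟩
    exact hg h

private theorem H3_mass_conv {G : Type*} [Group G] [Fintype G] {μ : G → ℝ} (hμ : SP μ)
    (H : Subgroup G) (g : G) : (mass μ {x | g * x ∈ H}) ^ 2 ≤ mass (conv μ μ) (H : Set G) := by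
  classical
  have e1 : mass (conv μ μ) (H : Set G) =
      ∑ h, μ h * ∑ y, (if h * y ∈ H then μ y else 0) := by
    rw [mass]
    have h1 : ∀ x : G, (H : Set G).indicator (conv μ μ) x =
        ∑ h, μ h * (if x ∈ H then μ (h⁻¹ * x) else 0) := by
      intro x
      by_cases hx : x ∈ H
      · rw [Set.indicator_of_mem (by exact hx)]
        simp only [if_pos hx]
        rfl
      · rw [Set.indicator_of_notMem (by exact hx)]
        simp only [if_neg hx, mul_zero, Finset.sum_const_zero]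
    rw [Finset.sum_congr rfl fun x _ => h1 x, Finset.sum_comm]
    refine Finset.sum_congr rfl fun h _ => ?_
    rw [← Finset.mul_sum]
    congr 1
    refine Fintype.sum_equiv (Equiv.mulLeft h⁻¹) _ _ fun x => ?_
    simp
  have e2 : mass μ {x | g * x ∈ H} = ∑ y, (if g * y ∈ H then μ y else 0) := by
    rw [mass]
    refine Finset.sum_congr rfl fun y _ => ?_
    by_cases hy : g * y ∈ H
    · rw [Set.indicator_of_mem (by exact hy), if_pos hy]
    · rw [Set.indicator_of_notMem (by exact hy), if_neg hy]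
  have e3 : mass μ {x | g * x ∈ H} = ∑ h, (if g * h⁻¹ ∈ H then μ h else 0) := by
    rw [e2]
    refine Fintype.sum_equiv (Equiv.inv G) _ _ fun x => ?_
    simp [hμ.symm]
  rw [e1, sq]
  nth_rewrite 1 [e3]
  rw [Finset.sum_mul]
  refine Finset.sum_le_sum fun h _ => ?_
  by_cases hh : g * h⁻¹ ∈ H
  · rw [if_pos hh]
    refine mul_le_mul_of_nonneg_left ?_ (hμ.nonneg h)
    rw [e2]
    refine Finset.sum_le_sum fun y _ => ?_
    by_cases hy : g * y ∈ H
    · rw [if_pos hy, if_pos]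
      have h1 : h * y = (g * h⁻¹)⁻¹ * (g * y) := by group
      rw [h1]
      exact H.mul_mem (H.inv_mem hh) hy
    · rw [if_neg hy]
      split_ifs
      · exact hμ.nonneg y
      · exact le_rfl
  · rw [if_neg hh, zero_mul]
    refine mul_nonneg (hμ.nonneg h) (Finset.sum_nonneg fun y _ => ?_)
    split_ifs
    · exact hμ.nonneg y
    · exact le_rfl

/-- PROOF. `m = mass (rwk u v n) {x | g * x ∈ H}` is the proportion of the words `A` of length `n` with `g * wd u v A ∈ H`. For two such words `A, A'`: `(wd A)⁻¹ * wd A' = (g * wd A)⁻¹ * (g * wd A') ∈ H`; `(wd A)⁻¹ = wd A''` where `A''` is the reversed word with inverted letters, so the proportion of the words of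
length `2 n` with value in `H` is at least `m ^ 2` (or with `rwk_add`, `SP_rwk`: `mass (rwk u v (2 n)) H = ∑ h, rwk u v n h * mass (rwk u v n) {x | h * x ∈ H} ≥ ...` with `h = y⁻¹`, symmetric). The number of quadruples `ω ∈ Om (2 n)` with all four values in `H` is the fourth power of the number of words with value in `H`,
at least `(m ^ 2 * 4 ^ (2 n)) ^ 4 = m ^ 8 * 4 ^ (8 n)`, and they satisfy `lw u v ω = 1`. -/
theorem mass_law {G : Type*} [Group G] [Fintype G] (u v : G) (n : ℕ) (H : Subgroup G)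
    (hH : ∀ a ∈ H, ∀ b ∈ H, ∀ c ∈ H, ∀ d ∈ H, law a b c d = 1) (g : G) :
    (mass (rwk u v n) {x | g * x ∈ H}) ^ 8 ≤
      ({ω : Om (2 * n) | lw u v ω = 1}.ncard : ℝ) / 4 ^ (8 * n) := by
  classical
  have h1 := H3_mass_conv (SP_rwk u v n) H g
  rw [← rwk_add, ← two_mul, H3_mass_rwk u v (2 * n)] at h1
  set S : Finset (Fin (2 * n) → Fin 4) := Finset.univ.filter fun A => wd u v A ∈ H with hS
  have hS' : {A : Fin (2 * n) → Fin 4 | wd u v A ∈ (H : Set G)}.ncard = S.card := by
    rw [← Set.ncard_coe_finset]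
    congr 1
    ext A
    simp [hS]
  rw [hS'] at h1
  have h2 : S.card ^ 4 ≤ {ω : Om (2 * n) | lw u v ω = 1}.ncard := by
    have h3 : (Fintype.piFinset fun _ : Fin 4 => S).card = S.card ^ 4 := by
      rw [Fintype.card_piFinset]
      simp
    rw [← h3, ← Set.ncard_coe_finset]
    refine Set.ncard_le_ncard ?_ (Set.toFinite _)
    intro ω hω
    have hω' : ∀ i, wd u v (ω i) ∈ H := by
      intro i
      have := (Fintype.mem_piFinset.1 (Finset.mem_coe.1 hω)) i
      simpa [hS] using this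
    exact hH _ (hω' 0) _ (hω' 1) _ (hω' 2) _ (hω' 3)
  have h0 : (0 : ℝ) ≤ (mass (rwk u v n) {x | g * x ∈ H}) ^ 2 := sq_nonneg _
  calc (mass (rwk u v n) {x | g * x ∈ H}) ^ 8
      = ((mass (rwk u v n) {x | g * x ∈ H}) ^ 2) ^ 4 := by rw [← pow_mul]
    _ ≤ ((S.card : ℝ) / 4 ^ (2 * n)) ^ 4 := pow_le_pow_left₀ h0 h1 4
    _ = (S.card : ℝ) ^ 4 / 4 ^ (8 * n) := by
      rw [div_pow, ← pow_mul]
      congr 2
      ring
    _ ≤ _ := by
      refine div_le_div_of_nonneg_right ?_ (by positivity)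
      exact_mod_cast h2

end Pool.Agent.Lib.MP_3bb35d_al.UE
end

section

/-!
# Points which are not bad: non-concentration
-/

set_option autoImplicit false
set_option maxRecDepth 20000

namespace Pool.Agent.Lib.MP_3bb35d_al.UE

private theorem Z3_trP {R : Type*} [CommRing R] (u v : Matrix.SpecialLinearGroup (Fin 2) R) :
    trP u v 0 = tr u ∧ trP u v 1 = tr v ∧ trP u v 2 = tr (u * v) := ⟨rfl, rfl, rfl⟩

/-- PROOF. `P = trP u v`; there is `i` with `#{ω | Rep .. (th i (lw fx fy ω)) = 1} < η 4 ^ (8 n)`. Let `u' = ev u v (th i fx)`, `v' = ev u v (th i fy)`. `lw u' v' ω = ev u v (th i (lw fx fy ω))` (`map_lw`); if it is one then `Rep .. = 1` (`Rep_eq_one_of_ev`; `DD ≠ 0` as `Ph ≠ 0`). So the number of the `ω` with `lw u' v' ω = 1` is less than `η 4 ^ (8 n)`.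
`mass_law` with `law_proper`: `mass ^ 8 ≤ η = (p ^ (-κ)) ^ 8`. -/
theorem mass_of_not_bad {p : ℕ} [Fact p.Prime] {n : ℕ} {κ : ℝ} (u v : SL2 p)
    (hΦ : Ph (tr u) (tr v) (tr (u * v)) ≠ 0)
    (h : trP u v ∉ BadPt p n ((p : ℝ) ^ (-(8 * κ)))) :
    ∃ i : Fin 3 × Fin 3, ∀ H : Subgroup (SL2 p), H ≠ ⊤ → ∀ g,
      mass (rwk (ev u v (th i fx)) (ev u v (th i fy)) n) {x | g * x ∈ H} ≤ (p : ℝ) ^ (-κ) := by
  have hp0 : (0 : ℝ) ≤ p := Nat.cast_nonneg p
  have hD : DD (tr u) (tr v) (tr (u * v)) ≠ 0 := by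
    intro h0
    apply hΦ
    rw [Ph, h0, zero_mul, zero_mul]
  obtain ⟨i, hi⟩ : ∃ i : Fin 3 × Fin 3,
      ({ω : Om (2 * n) | Rep (tr u) (tr v) (tr (u * v)) (th i (lw fx fy ω)) = 1}.ncard : ℝ) <
        (p : ℝ) ^ (-(8 * κ)) * 4 ^ (8 * n) := by
    by_contra hcon
    push Not at hcon
    apply h
    obtain ⟨e0, e1, e2⟩ := Z3_trP u v
    unfold BadPt
    rw [Set.mem_ofPred_eq, e0, e1, e2]
    exact ⟨hΦ, hcon⟩
  refine ⟨i, fun H hH g => ?_⟩
  have h1 := mass_law (ev u v (th i fx)) (ev u v (th i fy)) n H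
    (fun a ha b hb c hc d hd => law_proper H hH ha hb hc hd) g
  have h2 : {ω : Om (2 * n) | lw (ev u v (th i fx)) (ev u v (th i fy)) ω = 1} ⊆
      {ω : Om (2 * n) | Rep (tr u) (tr v) (tr (u * v)) (th i (lw fx fy ω)) = 1} := by
    intro ω hω
    rw [Set.mem_ofPred_eq] at hω
    have h3 : ev u v (th i (lw fx fy ω)) = 1 := by
      rw [map_lw, map_lw, hω]
    exact Rep_eq_one_of_ev u v _ hD h3
  have h3 : ({ω : Om (2 * n) | lw (ev u v (th i fx)) (ev u v (th i fy)) ω = 1}.ncard : ℝ) ≤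
      ({ω : Om (2 * n) | Rep (tr u) (tr v) (tr (u * v)) (th i (lw fx fy ω)) = 1}.ncard : ℝ) := by
    exact_mod_cast Set.ncard_le_ncard h2 (Set.toFinite _)
  have h4 : ({ω : Om (2 * n) | lw (ev u v (th i fx)) (ev u v (th i fy)) ω = 1}.ncard : ℝ) /
      4 ^ (8 * n) ≤ (p : ℝ) ^ (-(8 * κ)) := by
    rw [div_le_iff₀ (by positivity)]
    exact h3.trans hi.le
  have h5 : (p : ℝ) ^ (-(8 * κ)) = ((p : ℝ) ^ (-κ)) ^ 8 := by
    rw [← Real.rpow_natCast, ← Real.rpow_mul hp0]
    congr 1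
    push_cast
    ring
  have h6 := h1.trans h4
  rw [h5] at h6
  exact le_of_pow_le_pow_left₀ (by norm_num) (Real.rpow_nonneg hp0 _) h6

end Pool.Agent.Lib.MP_3bb35d_al.UE
end
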