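import Pool.Agent.Lib.MP_3bb35d_al.UE.Z2
import Pool.Agent.Lib.MP_3bb35d_al.Mg.G027
import Pool.Agent.Lib.MP_3bb35d_al.Mg.G013
import Pool.Agent.Lib.MP_3bb35d_al.Mg.G014
import Pool.Agent.Lib.MP_3bb35d_al.Mg.G015
import Pool.Agent.Lib.MP_3bb35d_al.UE.Z6

section

/-!
# Pairs outside of the bad set expand
-/

set_option autoImplicit false

namespace Pool.Agent.Lib.MP_3bb35d_al.UE

private theorem Z4_mono {G : Type*} [Group G] (S : Set G) {R R' : ℕ} (h : R ≤ R') {g : G}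
    (hg : g ∈ Wrd S R) : g ∈ Wrd S R' := by
  obtain ⟨l, hl, hl2, hl3⟩ := hg
  exact ⟨l, hl.trans h, hl2, hl3⟩

private theorem Z4_mul {G : Type*} [Group G] (S : Set G) {R R' : ℕ} {g h : G}
    (hg : g ∈ Wrd S R) (hh : h ∈ Wrd S R') : g * h ∈ Wrd S (R + R') := by
  obtain ⟨l, hl, hl2, rfl⟩ := hg
  obtain ⟨m, hm, hm2, rfl⟩ := hh
  refine ⟨l ++ m, ?_, ?_, List.prod_append⟩
  · rw [List.length_append]
    omega
  · intro x hx
    rcases List.mem_append.mp hx with h | h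
    · exact hl2 x h
    · exact hm2 x h

private theorem Z4_inv {G : Type*} [Group G] (S : Set G) {R : ℕ} {g : G}
    (hg : g ∈ Wrd S R) : g⁻¹ ∈ Wrd S R := by
  obtain ⟨l, hl, hl2, rfl⟩ := hg
  refine ⟨(l.map fun x => x⁻¹).reverse, ?_, ?_, ?_⟩
  · simpa using hl
  · intro x hx
    rw [List.mem_reverse, List.mem_map] at hx
    obtain ⟨y, hy, rfl⟩ := hx
    rcases hl2 y hy with h | h
    · right
      rwa [inv_inv]
    · left
      exact h
  · rw [List.prod_inv_reverse]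

private theorem Z4_list {G : Type*} [Group G] (S : Set G) {u v : G} {R : ℕ} (hu : u ∈ Wrd S R)
    (hv : v ∈ Wrd S R) (L : List (Bool × Bool)) :
    ev u v (FreeGroup.mk L) ∈ Wrd S (L.length * R) := by
  induction L with
  | nil =>
    refine ⟨[], by simp, by simp, ?_⟩
    rw [← FreeGroup.one_eq_mk, map_one]
    rfl
  | cons a L ih =>
    have h1 : FreeGroup.mk (a :: L) = FreeGroup.mk [a] * FreeGroup.mk L := by
      rw [FreeGroup.mul_mk]
      rfl
    rw [h1, map_mul, List.length_cons]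
    have h2 : ev u v (FreeGroup.mk [a]) ∈ Wrd S R := by
      obtain ⟨b, c⟩ := a
      have h3 : ev u v (FreeGroup.mk [(b, c)]) =
          cond c (if b then u else v) (if b then u else v)⁻¹ := by
        simp [ev]
      rw [h3]
      cases b <;> cases c
      · simpa using Z4_inv S hv
      · simpa using hv
      · simpa using Z4_inv S hu
      · simpa using hu
    have h4 := Z4_mul S h2 ih
    have h5 : (L.length + 1) * R = R + L.length * R := by ring
    rw [h5]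
    exact h4

private theorem Z4_ev {G : Type*} [Group G] (S : Set G) {u v : G} {R : ℕ} (hu : u ∈ Wrd S R)
    (hv : v ∈ Wrd S R) (w : F2) : ev u v w ∈ Wrd S (w.norm * R) := by
  have h := Z4_list S hu hv w.toWord
  rw [FreeGroup.mk_toWord] at h
  exact h

private theorem Z4_choose {L : ℝ} (hL : 1 ≤ L) : ∃ r : ℕ, L ≤ (2 : ℝ) ^ r ∧ (2 : ℝ) ^ r ≤ 2 * L := by
  classical
  have hex : ∃ r : ℕ, L ≤ (2 : ℝ) ^ r := by
    obtain ⟨r, hr⟩ := pow_unbounded_of_one_lt L (by norm_num : (1 : ℝ) < 2)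
    exact ⟨r, hr.le⟩
  refine ⟨Nat.find hex, Nat.find_spec hex, ?_⟩
  rcases Nat.eq_zero_or_pos (Nat.find hex) with h | h
  · rw [h]
    linarith
  · obtain ⟨m, hm⟩ := Nat.exists_eq_succ_of_ne_zero h.ne'
    have h1 : ¬ L ≤ (2 : ℝ) ^ m := Nat.find_min hex (by omega)
    rw [hm, pow_succ]
    linarith [not_le.mp h1]

/-- Substituting words. PROOF: `Wrd S R` is closed under inverses, and products of elements of `Wrd S R` and `Wrd S R'` are in `Wrd S (R + R')`; so `ev u v w ∈ Wrd S (norm w * R)` for all `w : F2` (product of the letters of `w.toWord`); `norm_th_le` with `norm fx = norm fy = 1`; `Wrd` is monotone. -/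
theorem ev_mem_Wrd {G : Type*} [Group G] (S : Set G) {u v : G} {R : ℕ} (hu : u ∈ Wrd S R)
    (hv : v ∈ Wrd S R) (i : Fin 3 × Fin 3) :
    ev u v (th i fx) ∈ Wrd S (56 * R) ∧ ev u v (th i fy) ∈ Wrd S (56 * R) := by
  have h : ∀ w : F2, w.norm ≤ 1 → ev u v (th i w) ∈ Wrd S (56 * R) := by
    intro w hw
    have h1 := Z4_ev S hu hv (th i w)
    refine Z4_mono S (Nat.mul_le_mul_right R ?_) h1
    have := norm_th_le i w
    omega
  exact ⟨h fx (by rw [fx, FreeGroup.norm_of]), h fy (by rw [fy, FreeGroup.norm_of])⟩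

/-- PROOF. `Bad_le`: `κ`, `p0`; `bg_theorem`: `ρ`, `p1`. `ε₀ = (1 - √ρ)² / 224`. For `p ≥ max p0 p1 3` choose `r` with `log p ≤ 2 ^ r ≤ 2 log p` (the least `r` with `log p ≤ 2 ^ r`; `log p ≥ 1`), `n = 2 ^ r`, `B = BadPt p n (p ^ (-8 κ))`. For `u, v` with `Ph ≠ 0`, `trP u v ∉ B`: `mass_of_not_bad`: `i`; `bg_theorem` for `u' = ev u v (th i fx)`, `v'`;
`expander_of_bound` with `56 R`: `IsExpander ((1 - √ρ)² / (4 * 56 R)) S`. -/
theorem good_pair (δ : ℝ) (hδ : 0 < δ) : ∃ ε₀ : ℝ, 0 < ε₀ ∧ ∃ p0 : ℕ, ∀ p : ℕ,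
    ∀ _ : Fact p.Prime, p0 ≤ p → ∃ B : Set (Fin 3 → ZMod p), (B.ncard : ℝ) ≤ (p : ℝ) ^ δ ∧
      ∀ (S : Set (SL2 p)) (R : ℕ) (u v : SL2 p), 1 ≤ R → u ∈ Wrd S R → v ∈ Wrd S R →
        Ph (tr u) (tr v) (tr (u * v)) ≠ 0 → trP u v ∉ B → IsExpander (ε₀ / R) S := by
  obtain ⟨κ, hκ, hκ1, p0, hp0⟩ := Bad_le δ hδ
  obtain ⟨ρ, p1, hρ0, hρ1, hbg⟩ := bg_theorem κ hκ hκ1
  have hsq : √ρ < 1 := by
    rw [Real.sqrt_lt' one_pos]
    simpa using hρ1
  have hpos : 0 < (1 - √ρ) ^ 2 := by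
    have : 0 < 1 - √ρ := by linarith
    positivity
  refine ⟨(1 - √ρ) ^ 2 / 224, by positivity, max p0 (max p1 3), ?_⟩
  intro p hp hle
  have hle0 : p0 ≤ p := (le_max_left _ _).trans hle
  have hle1 : p1 ≤ p := ((le_max_left _ _).trans (le_max_right _ _)).trans hle
  have hle3 : 3 ≤ p := ((le_max_right _ _).trans (le_max_right _ _)).trans hle
  have hlog : 1 ≤ Real.log p := by
    rw [Real.le_log_iff_exp_le (by exact_mod_cast (by omega : 0 < p))]
    have h1 := Real.exp_one_lt_d9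
    have h2 : (3 : ℝ) ≤ p := by exact_mod_cast hle3
    linarith
  obtain ⟨r, hr1, hr2⟩ := Z4_choose hlog
  refine ⟨BadPt p (2 ^ r) ((p : ℝ) ^ (-(8 * κ))), ?_, ?_⟩
  · exact hp0 p hp hle0 (2 ^ r) (by push_cast; exact hr1) (by push_cast; exact hr2)
  · intro S R u v hR hu hv hΦ hB
    obtain ⟨i, hi⟩ := mass_of_not_bad u v hΦ hB
    obtain ⟨h1, h2⟩ := ev_mem_Wrd S hu hv i
    have h3 := hbg p hp hle1 (ev u v (th i fx)) (ev u v (th i fy)) r hr2 hi
    have h4 := expander_of_bound S _ _ (56 * R) (by omega) h1 h2 hρ0 hρ1 h3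
    have hR0 : (0 : ℝ) < R := by exact_mod_cast hR
    have h5 : (1 - √ρ) ^ 2 / 224 / R = (1 - √ρ) ^ 2 / (4 * ((56 * R : ℕ) : ℝ)) := by
      push_cast
      rw [div_div]
      congr 1
      ring
    rw [h5]
    exact h4

end Pool.Agent.Lib.MP_3bb35d_al.UE
end

section

/-!
# The number of generating tuples of `SL₂(p)` which do not expand
-/

set_option autoImplicit false

namespace Pool.Agent.Lib.MP_3bb35d_al.UE

private theorem Z7_mono {G : Type*} [Group G] (S : Set G) {m n : ℕ} (h : m ≤ n) :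
    Wrd S m ⊆ Wrd S n := by
  rintro g ⟨l, h1, h2, h3⟩
  exact ⟨l, h1.trans h, h2, h3⟩

private theorem Z7_one {G : Type*} [Group G] (S : Set G) : (1 : G) ∈ Wrd S 0 :=
  ⟨[], by simp, by simp, by simp⟩

private theorem Z7_gen {G : Type*} [Group G] {S : Set G} {s : G} (hs : s ∈ S) : s ∈ Wrd S 1 :=
  ⟨[s], by simp, by simpa using Or.inl hs, by simp⟩

private theorem Z7_mul {G : Type*} [Group G] {S : Set G} {m n : ℕ} {g h : G} (hg : g ∈ Wrd S m)
    (hh : h ∈ Wrd S n) : g * h ∈ Wrd S (m + n) := by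
  obtain ⟨l, h1, h2, rfl⟩ := hg
  obtain ⟨l', h1', h2', rfl⟩ := hh
  refine ⟨l ++ l', ?_, ?_, List.prod_append⟩
  · rw [List.length_append]
    omega
  · intro x hx
    rcases List.mem_append.1 hx with h | h
    · exact h2 x h
    · exact h2' x h

/-- PROOF. Let `S` be a generating tuple which is not an `(ε₀ / 40)`-expander. `escape1`, `escape2`: `u ∈ Wrd S 6`, `v ∈ Wrd S 8` with `Ph ≠ 0`. By hypothesis on `B` (all `R ≤ 40`; `IsExpander.mono`) every pair of elements of `Wrd S 40` with `Ph ≠ 0` has `trP ∈ B`. So `trP u v ∈ B`. Let `T = {P 0 | P ∈ B} ∪ {0, 2, -2}`. For `s ∈ Wrd S 15` (`s = S j`, `u * S j`, `v * S j`, `u * v * S j`)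
`tr s ∈ T`: otherwise `exists_partner` gives `z ∈ Wrd S 29` with `Ph (tr s) (tr z) (tr (s z)) ≠ 0`, so `trP s z ∈ B` and `tr s` is the first coordinate of a point of `B`. -/
theorem structure_of_bad {p : ℕ} [Fact p.Prime] (hp : 7 ≤ p) {B : Set (Fin 3 → ZMod p)} {ε₀ : ℝ}
    (hε : 0 < ε₀)
    (hB : ∀ (S : Set (SL2 p)) (R : ℕ) (u v : SL2 p), 1 ≤ R → u ∈ Wrd S R → v ∈ Wrd S R →
      Ph (tr u) (tr v) (tr (u * v)) ≠ 0 → trP u v ∉ B → IsExpander (ε₀ / R) S)
    {k : ℕ} (S : Fin k → SL2 p) (hS : Subgroup.closure (Set.range S) = ⊤)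
    (hne : ¬ IsExpander (ε₀ / 40) (Set.range S)) :
    ∃ u v : SL2 p, Ph (tr u) (tr v) (tr (u * v)) ≠ 0 ∧ trP u v ∈ B ∧
      ∀ j, ∀ w ∈ ({1, u, v, u * v} : Set (SL2 p)),
        tr (w * S j) ∈ ((fun P : Fin 3 → ZMod p => P 0) '' B ∪ {0, 2, -2} : Set (ZMod p)) := by
  have key : ∀ u ∈ Wrd (Set.range S) 40, ∀ v ∈ Wrd (Set.range S) 40,
      Ph (tr u) (tr v) (tr (u * v)) ≠ 0 → trP u v ∈ B := by
    intro u hu v hv hP
    by_contra hcon
    apply hne
    have h1 := hB (Set.range S) 40 u v (by norm_num) hu hv hP hcon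
    exact_mod_cast h1
  obtain ⟨u, hu, u0, u2, u2'⟩ := escape1 hp (Set.range S) hS
  obtain ⟨v, hv, hP⟩ := escape2 (Set.range S) hS (by omega) hu u0 u2 u2'
  refine ⟨u, v, hP, key u (Z7_mono _ (by norm_num) hu) v (Z7_mono _ (by norm_num) hv) hP, ?_⟩
  intro j w hw
  have huv : u * v ∈ Wrd (Set.range S) 14 := Z7_mul hu hv
  have hw14 : w ∈ Wrd (Set.range S) 14 := by
    rcases hw with rfl | rfl | rfl | hw
    · exact Z7_mono _ (by norm_num) (Z7_one _)
    · exact Z7_mono _ (by norm_num) hu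
    · exact Z7_mono _ (by norm_num) hv
    · rw [Set.mem_singleton_iff.1 hw]
      exact huv
  have hs : w * S j ∈ Wrd (Set.range S) 15 := Z7_mul hw14 (Z7_gen ⟨j, rfl⟩)
  set s := w * S j with hsdef
  by_cases h0 : tr s = 0
  · right
    rw [h0]
    exact Set.mem_insert _ _
  by_cases h2 : tr s = 2
  · right
    rw [h2]
    exact Set.mem_insert_of_mem _ (Set.mem_insert _ _)
  by_cases h2' : tr s = -2
  · right
    rw [h2']
    exact Set.mem_insert_of_mem _ (Set.mem_insert_of_mem _ rfl)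
  left
  obtain ⟨z, hz, hPz⟩ := exists_partner u v s hP h0 h2 h2'
  have hz29 : z ∈ Wrd (Set.range S) 29 := by
    rcases hz with rfl | rfl | rfl | rfl
    · exact Z7_mono _ (by norm_num) hu
    · exact Z7_mono _ (by norm_num) hv
    · exact Z7_mono _ (by norm_num) huv
    · exact Z7_mul hs huv
  exact ⟨trP s z, key s (Z7_mono _ (by norm_num) hs) z (Z7_mono _ (by norm_num) hz29) hPz, rfl⟩

/-- PROOF. By `structure_of_bad` each such tuple `S` is of the following form: `(u, v)` with `trP u v = P ∈ B`, `Ph ≠ 0` (at most `#B * 4 p³` pairs, `card_pairs`), and for each `j` the four traces `tr (w * S j)`, `w ∈ {1, u, v, u v}`, are in `T` (at most `#B + 3` elements) and determine `S j` (`eq_of_traces`): at most `(#B + 3) ^ 4` possibilities for each `j`. -/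
theorem card_bad_tuples {p : ℕ} [Fact p.Prime] (hp : 7 ≤ p) {B : Set (Fin 3 → ZMod p)} {ε₀ : ℝ}
    (hε : 0 < ε₀)
    (hB : ∀ (S : Set (SL2 p)) (R : ℕ) (u v : SL2 p), 1 ≤ R → u ∈ Wrd S R → v ∈ Wrd S R →
      Ph (tr u) (tr v) (tr (u * v)) ≠ 0 → trP u v ∉ B → IsExpander (ε₀ / R) S) (k : ℕ) :
    {S : Fin k → SL2 p | Subgroup.closure (Set.range S) = ⊤ ∧
      ¬ IsExpander (ε₀ / 40) (Set.range S)}.ncard ≤
      B.ncard * (4 * p ^ 3) * (B.ncard + 3) ^ (4 * k) := by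
  classical
  set Bad := {S : Fin k → SL2 p | Subgroup.closure (Set.range S) = ⊤ ∧
      ¬ IsExpander (ε₀ / 40) (Set.range S)} with hBad
  set T : Set (ZMod p) := (fun P : Fin 3 → ZMod p => P 0) '' B ∪ {0, 2, -2} with hT
  set Pa : Set (SL2 p × SL2 p) := {e | Ph (tr e.1) (tr e.2) (tr (e.1 * e.2)) ≠ 0 ∧
    trP e.1 e.2 ∈ B} with hPa
  have hstr : ∀ S : Bad, ∃ e : Pa, ∀ j, ∀ w ∈ ({1, e.1.1, e.1.2, e.1.1 * e.1.2} : Set (SL2 p)),
      tr (w * S.1 j) ∈ T := by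
    rintro ⟨S, hS1, hS2⟩
    obtain ⟨u, v, h1, h2, h3⟩ := structure_of_bad hp hε hB S hS1 hS2
    exact ⟨⟨(u, v), h1, h2⟩, h3⟩
  choose e he using hstr
  have hw : ∀ (e : SL2 p × SL2 p) (i : Fin 4),
      (![1, e.1, e.2, e.1 * e.2] : Fin 4 → SL2 p) i ∈
        ({1, e.1, e.2, e.1 * e.2} : Set (SL2 p)) := by
    intro e i
    fin_cases i
    · exact Set.mem_insert _ _
    · exact Set.mem_insert_of_mem _ (Set.mem_insert _ _)
    · exact Set.mem_insert_of_mem _ (Set.mem_insert_of_mem _ (Set.mem_insert _ _))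
    · exact Set.mem_insert_of_mem _ (Set.mem_insert_of_mem _ (Set.mem_insert_of_mem _ rfl))
  have hinj : Function.Injective (fun S : Bad => ((e S, fun j i =>
      ⟨tr ((![1, (e S).1.1, (e S).1.2, (e S).1.1 * (e S).1.2] : Fin 4 → SL2 p) i * S.1 j),
        he S j _ (hw _ i)⟩) : Pa × (Fin k → Fin 4 → T))) := by
    intro S S' h
    simp only [Prod.mk.injEq] at h
    obtain ⟨h1, h2⟩ := h
    have h3 : ∀ j i, tr ((![1, (e S).1.1, (e S).1.2, (e S).1.1 * (e S).1.2] :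
        Fin 4 → SL2 p) i * S.1 j) =
        tr ((![1, (e S).1.1, (e S).1.2, (e S).1.1 * (e S).1.2] : Fin 4 → SL2 p) i * S'.1 j) := by
      intro j i
      have h4 := congrArg Subtype.val (congrFun (congrFun h2 j) i)
      simp only at h4
      rw [h4, h1]
    refine Subtype.ext (funext fun j => ?_)
    have hD : DD (tr (e S).1.1) (tr (e S).1.2) (tr ((e S).1.1 * (e S).1.2)) ≠ 0 := by
      intro h0
      apply (e S).2.1
      unfold Ph
      rw [h0]
      ring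
    refine eq_of_traces (e S).1.1 (e S).1.2 (S.1 j) (S'.1 j) hD ?_ (h3 j 1) (h3 j 2) (h3 j 3)
    have h5 := h3 j 0
    have h6 : (![1, (e S).1.1, (e S).1.2, (e S).1.1 * (e S).1.2] : Fin 4 → SL2 p) 0 = 1 := rfl
    rw [h6, one_mul, one_mul] at h5
    exact h5
  have hcard := Nat.card_le_card_of_injective _ hinj
  rw [Nat.card_prod, Nat.card_fun, Nat.card_fun, Nat.card_fin, Nat.card_fin, ← pow_mul] at hcard
  have hTc : Nat.card T ≤ B.ncard + 3 := by
    show T.ncard ≤ B.ncard + 3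
    refine (Set.ncard_union_le _ _).trans (Nat.add_le_add (Set.ncard_image_le (Set.toFinite B)) ?_)
    refine (Set.ncard_insert_le _ _).trans ?_
    have := Set.ncard_insert_le (2 : ZMod p) {-2}
    rw [Set.ncard_singleton] at this
    omega
  have hPc : Nat.card Pa ≤ B.ncard * (4 * p ^ 3) := by
    show Pa.ncard ≤ B.ncard * (4 * p ^ 3)
    rw [Set.ncard_eq_toFinset_card' Pa, mul_comm]
    have h1 := Finset.card_le_mul_card_image (f := fun e : SL2 p × SL2 p => trP e.1 e.2)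
      Pa.toFinset (4 * p ^ 3) (by
        intro P hP
        obtain ⟨x, hx, hxP⟩ := Finset.mem_image.1 hP
        rw [Set.mem_toFinset] at hx
        have hD : DD (P 0) (P 1) (P 2) ≠ 0 := by
          rw [← hxP]
          intro h0
          apply hx.1
          have h0' : DD (tr x.1) (tr x.2) (tr (x.1 * x.2)) = 0 := h0
          unfold Ph
          rw [h0']
          ring
        refine le_trans ?_ (card_pairs P hD)
        rw [Set.ncard_eq_toFinset_card']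
        refine Finset.card_le_card ?_
        intro y hy
        rw [Set.mem_toFinset]
        exact (Finset.mem_filter.1 hy).2)
    refine h1.trans (Nat.mul_le_mul_left _ ?_)
    rw [Set.ncard_eq_toFinset_card' B]
    refine Finset.card_le_card ?_
    intro P hP
    obtain ⟨x, hx, rfl⟩ := Finset.mem_image.1 hP
    rw [Set.mem_toFinset] at hx ⊢
    exact hx.2
  show Nat.card Bad ≤ _
  refine hcard.trans (Nat.mul_le_mul hPc ?_)
  exact Nat.pow_le_pow_left hTc _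

end Pool.Agent.Lib.MP_3bb35d_al.UE
end

section

/-!
# Uniform expansion of `SL₂(p)`
-/

set_option autoImplicit false

namespace Pool.Agent.Lib.MP_3bb35d_al.UE

/-- PROOF. `δ' = δ / (4 k + 2)`; `good_pair`: `ε₀`, `p0`, `B` with `#B ≤ p ^ δ'`. `card_bad_tuples` for `p ≥ max p0 7`: the number is at most `p ^ δ' * 4 p³ * (p ^ δ' + 3) ^ (4 k) ≤ 4 ^ (4 k + 1) p ^ (3 + (4 k + 1) δ') ≤ p ^ (3 + δ)` for large `p` (`p ^ δ' ≥ 4 ^ (4 k + 1)`, `p ^ δ' ≥ 1`). `ε = ε₀ / 40`. -/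
theorem sl2_large (k : ℕ) (δ : ℝ) (hδ : 0 < δ) : ∃ ε : ℝ, 0 < ε ∧ ∃ p0 : ℕ, ∀ p : ℕ,
    ∀ _ : Fact p.Prime, p0 ≤ p →
      ({S : Fin k → SL2 p | Subgroup.closure (Set.range S) = ⊤ ∧
        ¬ IsExpander ε (Set.range S)}.ncard : ℝ) ≤ (p : ℝ) ^ (3 + δ) := by
  have hk : (0 : ℝ) < 4 * k + 2 := by positivity
  obtain ⟨ε₀, hε₀, p0, h⟩ := good_pair (δ / (4 * k + 2)) (div_pos hδ hk)
  set δ' : ℝ := δ / (4 * k + 2) with hδ'
  have hδ'0 : 0 < δ' := div_pos hδ hk
  have hδ'1 : δ' * (4 * k + 2 : ℕ) = δ := by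
    rw [hδ']; push_cast; field_simp
  obtain ⟨p1, hp1⟩ := exists_nat_ge (((4 : ℝ) ^ (4 * k + 1)) ^ (1 / δ'))
  refine ⟨ε₀ / 40, by positivity, max (max p0 7) p1, fun p hp hpp => ?_⟩
  have hpp0 : p0 ≤ p := le_trans (le_trans (le_max_left _ _) (le_max_left _ _)) hpp
  have hpp7 : 7 ≤ p := le_trans (le_trans (le_max_right _ _) (le_max_left _ _)) hpp
  have hpp1 : p1 ≤ p := le_trans (le_max_right _ _) hpp
  obtain ⟨B, hB1, hB2⟩ := h p hp hpp0
  have key := card_bad_tuples hpp7 hε₀ hB2 k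
  have hpR : (0 : ℝ) < p := by
    have : 0 < p := by omega
    exact_mod_cast this
  set x : ℝ := (p : ℝ) ^ δ' with hx
  have hx4 : (4 : ℝ) ^ (4 * k + 1) ≤ x := by
    have h1 : ((4 : ℝ) ^ (4 * k + 1)) ^ (1 / δ') ≤ (p : ℝ) :=
      le_trans hp1 (by exact_mod_cast hpp1)
    have h2 := Real.rpow_le_rpow (by positivity) h1 hδ'0.le
    rw [← Real.rpow_mul (by positivity), one_div, inv_mul_cancel₀ hδ'0.ne', Real.rpow_one] at h2
    exact h2
  have hx1 : (1 : ℝ) ≤ x := le_trans (one_le_pow₀ (by norm_num)) hx4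
  have hx0 : (0 : ℝ) ≤ x := by linarith
  have key' : ({S : Fin k → SL2 p | Subgroup.closure (Set.range S) = ⊤ ∧
      ¬ IsExpander (ε₀ / 40) (Set.range S)}.ncard : ℝ) ≤
      (B.ncard : ℝ) * (4 * (p : ℝ) ^ 3) * ((B.ncard : ℝ) + 3) ^ (4 * k) := by
    exact_mod_cast key
  refine le_trans key' ?_
  have h3 : ((B.ncard : ℝ) + 3) ^ (4 * k) ≤ (4 * x) ^ (4 * k) := by
    apply pow_le_pow_left₀ (by positivity)
    linarith
  calc (B.ncard : ℝ) * (4 * (p : ℝ) ^ 3) * ((B.ncard : ℝ) + 3) ^ (4 * k)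
      ≤ x * (4 * (p : ℝ) ^ 3) * (4 * x) ^ (4 * k) := by
        apply mul_le_mul _ h3 (by positivity) (by positivity)
        exact mul_le_mul_of_nonneg_right hB1 (by positivity)
    _ = 4 ^ (4 * k + 1) * (x ^ (4 * k + 1) * (p : ℝ) ^ 3) := by
        rw [mul_pow, pow_succ, pow_succ]; ring
    _ ≤ x * (x ^ (4 * k + 1) * (p : ℝ) ^ 3) :=
        mul_le_mul_of_nonneg_right hx4 (by positivity)
    _ = x ^ (4 * k + 2) * (p : ℝ) ^ 3 := by
        rw [pow_succ x (4 * k + 1)]; ring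
    _ = (p : ℝ) ^ (3 + δ) := by
        rw [hx, ← Real.rpow_natCast ((p : ℝ) ^ δ') (4 * k + 2), ← Real.rpow_mul hpR.le, hδ'1,
          ← Real.rpow_natCast (p : ℝ) 3, ← Real.rpow_add hpR, add_comm]
        norm_num

end Pool.Agent.Lib.MP_3bb35d_al.UE
end
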