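import Pool.Agent.Lib.MP_3bb35d_al.Mg.G014
import Pool.Agent.Lib.MP_3bb35d_al.Mg.G031
import Pool.Agent.Lib.MP_3bb35d_al.Mg.G030

section

/-!
# From a spectral gap to the expansion constant, for a general measure
-/

set_option autoImplicit false

open Finset

namespace Pool.Agent.Lib.MP_3bb35d_al.LE

open Pool.Agent.Lib.MP_3bb35d_al.UE

section aux

variable {G : Type*} [Group G] [Fintype G]

omit [Fintype G] in
private theorem E1_inv {S : Set G} {R : ℕ} {w : G} (hw : w ∈ Wrd S R) : w⁻¹ ∈ Wrd S R := by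
  obtain ⟨l, hl, hx, rfl⟩ := hw
  refine ⟨(l.map (fun x => x⁻¹)).reverse, ?_, ?_, ?_⟩
  · rw [List.length_reverse, List.length_map]
    exact hl
  · intro x hx'
    rw [List.mem_reverse, List.mem_map] at hx'
    obtain ⟨y, hy, rfl⟩ := hx'
    rw [inv_inv]
    exact (hx y hy).symm
  · exact (List.prod_inv_reverse l).symm

omit [Group G] in
private theorem E1_sum_ind (B : Set G) : ∑ g : G, B.indicator (fun _ => (1 : ℝ)) g = B.ncard := by
  classical
  rw [Set.ncard_eq_toFinset_card', Finset.card_eq_sum_ones, Nat.cast_sum, Nat.cast_one]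
  rw [← Finset.sum_subset (Finset.subset_univ B.toFinset)]
  · refine Finset.sum_congr rfl fun g hg => ?_
    rw [Set.mem_toFinset] at hg
    rw [Set.indicator_of_mem hg]
  · intro g _ hg
    rw [Set.mem_toFinset] at hg
    rw [Set.indicator_of_notMem hg]

private theorem E1_move (S A : Set G) (R : ℕ) {w : G} (hw : w ∈ Wrd S R) :
    ∑ g : G, (A.indicator (fun _ => (1 : ℝ)) (g⁻¹ * w) - A.indicator (fun _ => (1 : ℝ)) g⁻¹) ^ 2 ≤
      2 * R * (bdry S A).ncard := by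
  classical
  rw [← Equiv.sum_comp (Equiv.inv G)]
  simp only [Equiv.inv_apply, inv_inv]
  have h1 : ∀ g : G, (A.indicator (fun _ => (1 : ℝ)) (g * w) -
      A.indicator (fun _ => (1 : ℝ)) g) ^ 2 =
      {g ∈ A | g * w ∉ A}.indicator (fun _ => (1 : ℝ)) g +
      {g ∈ A | g * w⁻¹ ∉ A}.indicator (fun _ => (1 : ℝ)) (g * w) := by
    intro g
    by_cases ha : g ∈ A <;> by_cases hb : g * w ∈ A
    · rw [Set.indicator_of_mem ha, Set.indicator_of_mem hb, Set.indicator_of_notMem,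
        Set.indicator_of_notMem]
      · norm_num
      · rintro ⟨_, h⟩
        rw [mul_inv_cancel_right] at h
        exact h ha
      · rintro ⟨_, h⟩
        exact h hb
    · rw [Set.indicator_of_mem ha, Set.indicator_of_notMem hb, Set.indicator_of_mem,
        Set.indicator_of_notMem]
      · norm_num
      · rintro ⟨h, _⟩
        exact hb h
      · exact ⟨ha, hb⟩
    · rw [Set.indicator_of_notMem ha, Set.indicator_of_mem hb, Set.indicator_of_notMem,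
        Set.indicator_of_mem]
      · norm_num
      · refine ⟨hb, ?_⟩
        rw [mul_inv_cancel_right]
        exact ha
      · rintro ⟨h, _⟩
        exact ha h
    · rw [Set.indicator_of_notMem ha, Set.indicator_of_notMem hb, Set.indicator_of_notMem,
        Set.indicator_of_notMem]
      · norm_num
      · rintro ⟨h, _⟩
        exact hb h
      · rintro ⟨h, _⟩
        exact ha h
  rw [Finset.sum_congr rfl fun g _ => h1 g, Finset.sum_add_distrib]
  have h2 : ∑ g : G, {g ∈ A | g * w⁻¹ ∉ A}.indicator (fun _ => (1 : ℝ)) (g * w) =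
      ∑ g : G, {g ∈ A | g * w⁻¹ ∉ A}.indicator (fun _ => (1 : ℝ)) g :=
    Equiv.sum_comp (Equiv.mulRight w) ({g ∈ A | g * w⁻¹ ∉ A}.indicator (fun _ => (1 : ℝ)))
  rw [h2, E1_sum_ind, E1_sum_ind]
  have h3 : (({g ∈ A | g * w ∉ A}.ncard : ℕ) : ℝ) ≤ ((R * (bdry S A).ncard : ℕ) : ℝ) :=
    Nat.cast_le.mpr (move_word S A R hw)
  have h4 : (({g ∈ A | g * w⁻¹ ∉ A}.ncard : ℕ) : ℝ) ≤ ((R * (bdry S A).ncard : ℕ) : ℝ) :=
    Nat.cast_le.mpr (move_word S A R (E1_inv hw))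
  rw [Nat.cast_mul] at h3 h4
  linarith

private theorem E1_tri (f c : G → ℝ) {t Z : ℝ} (ht0 : 0 ≤ t) (ht1 : t < 1)
    (hc : nsq c ≤ t ^ 2 * nsq f) (hZ : nsq (fun g => c g - f g) ≤ Z) :
    (1 - t) ^ 2 * nsq f ≤ Z := by
  rcases ht0.eq_or_lt with h0 | h0
  · subst h0
    have h1 : nsq c ≤ 0 := by
      have : (0 : ℝ) ^ 2 * nsq f = 0 := by ring
      rw [this] at hc
      exact hc
    have h2 : ∀ g, c g = 0 := by
      intro g
      have h3 : c g ^ 2 ≤ nsq c :=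
        Finset.single_le_sum (f := fun g => c g ^ 2) (fun i _ => sq_nonneg _) (Finset.mem_univ g)
      have h4 : c g ^ 2 = 0 := le_antisymm (h3.trans h1) (sq_nonneg _)
      exact pow_eq_zero_iff (two_ne_zero) |>.mp h4
    have h5 : nsq (fun g => c g - f g) = nsq f := by
      unfold nsq
      refine Finset.sum_congr rfl fun g _ => ?_
      show (c g - f g) ^ 2 = f g ^ 2
      rw [h2 g]
      ring
    rw [h5] at hZ
    have : (1 - (0 : ℝ)) ^ 2 * nsq f = nsq f := by ring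
    rw [this]
    exact hZ
  · have h1 : t * (1 - t) * nsq f ≤ (1 - t) * nsq c + t * nsq (fun g => c g - f g) := by
      unfold nsq
      rw [Finset.mul_sum, Finset.mul_sum, Finset.mul_sum, ← Finset.sum_add_distrib]
      refine Finset.sum_le_sum fun g _ => ?_
      have h2 := sq_nonneg ((1 - t) * c g + t * (c g - f g))
      nlinarith [h2]
    have h3 : (1 - t) * nsq c ≤ (1 - t) * (t ^ 2 * nsq f) :=
      mul_le_mul_of_nonneg_left hc (by linarith)
    have h4 : t * nsq (fun g => c g - f g) ≤ t * Z := mul_le_mul_of_nonneg_left hZ ht0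
    have h5 : t * ((1 - t) ^ 2 * nsq f) ≤ t * Z := by nlinarith [h1, h3, h4]
    exact le_of_mul_le_mul_left h5 h0

end aux

/-- From a spectral gap to expansion. PROOF. As `expander_of_bound` in UE/E1b (the same for `μ = rwk u v 1`; its private lemmas can be copied): `A` with `2 |A| ≤ |G|`, `f g = 1_A(g⁻¹) - |A|/|G|`, `∑ f = 0`, `nsq f = |A| - |A|²/|G| ≥ |A| / 2`. For `w ∈ Wrd S R`: `nsq (g ↦ f (w⁻¹ g) - f g) ≤ 2 R b`, `b = #(bdry S A)` (`move_word` for `w` and `w⁻¹`).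
`conv μ f g - f g = ∑ h, μ h * (f (h⁻¹ g) - f g)`, so by convexity (Cauchy-Schwarz, `∑ μ = 1`) `nsq (conv μ f - f) ≤ ∑ h, μ h * nsq (g ↦ f (h⁻¹ g) - f g) ≤ 2 R b` (only `h ∈ Wrd S R` contribute). Then `(1 - √ρ)² nsq f ≤ nsq (conv μ f - f)` (triangle inequality, as in UE/E1b), so `(1 - √ρ)² |A| / 2 ≤ 2 R b`. -/
theorem expander_of_gap {G : Type*} [Group G] [Fintype G] (S : Set G) {μ : G → ℝ} (hμ : SP μ)
    (R : ℕ) (hR : 1 ≤ R) (hS : ∀ h, μ h ≠ 0 → h ∈ Wrd S R) {ρ : ℝ} (h0 : 0 ≤ ρ) (h1 : ρ < 1)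
    (h : ∀ f : G → ℝ, ∑ g, f g = 0 → nsq (conv μ f) ≤ ρ * nsq f) :
    IsExpander ((1 - √ρ) ^ 2 / (4 * R)) S := by
  classical
  intro A hA
  have hR' : (0 : ℝ) < R := by exact_mod_cast hR
  have hN : (0 : ℝ) < Fintype.card G := by exact_mod_cast Fintype.card_pos
  rw [Nat.card_eq_fintype_card] at hA
  have hA' : 2 * (A.ncard : ℝ) ≤ Fintype.card G := by exact_mod_cast hA
  have ht0 : 0 ≤ √ρ := Real.sqrt_nonneg _
  have ht1 : √ρ < 1 := by
    rw [Real.sqrt_lt' one_pos, one_pow]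
    exact h1
  set a : ℝ := (A.ncard : ℝ) with ha
  set N : ℝ := (Fintype.card G : ℝ) with hNdef
  have ha0 : 0 ≤ a := Nat.cast_nonneg _
  set f : G → ℝ := fun g => A.indicator (fun _ => (1 : ℝ)) g⁻¹ - a / N with hf
  have hsum1 : ∑ g : G, A.indicator (fun _ => (1 : ℝ)) g⁻¹ = a := by
    rw [ha, ← E1_sum_ind A]
    exact Equiv.sum_comp (Equiv.inv G) (A.indicator (fun _ => (1 : ℝ)))
  have hsumc : ∀ c : ℝ, ∑ _g : G, c = N * c := by
    intro c
    rw [Finset.sum_const, nsmul_eq_mul, Finset.card_univ]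
  have hf0 : ∑ g, f g = 0 := by
    rw [hf]
    rw [Finset.sum_sub_distrib, hsum1, hsumc]
    field_simp
    ring
  have hfn : nsq f = a - a ^ 2 / N := by
    unfold nsq
    have h2 : ∀ g : G, f g ^ 2 =
        (1 - 2 * (a / N)) * A.indicator (fun _ => (1 : ℝ)) g⁻¹ + (a / N) ^ 2 := by
      intro g
      rw [hf]
      by_cases hg : g⁻¹ ∈ A
      · simp only [Set.indicator_of_mem hg]
        ring
      · simp only [Set.indicator_of_notMem hg]
        ring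
    rw [Finset.sum_congr rfl fun g _ => h2 g, Finset.sum_add_distrib, ← Finset.mul_sum, hsum1,
      hsumc]
    field_simp
    ring
  have hfn2 : a / 2 ≤ nsq f := by
    rw [hfn]
    have h3 : a ^ 2 / N ≤ a / 2 := by
      rw [div_le_div_iff₀ hN two_pos]
      nlinarith [mul_le_mul_of_nonneg_left hA' ha0]
    linarith
  have hdiff : ∀ w : G, w ∈ Wrd S R →
      nsq (fun g => f (w⁻¹ * g) - f g) ≤ 2 * R * (bdry S A).ncard := by
    intro w hw
    refine le_trans (le_of_eq ?_) (E1_move S A R hw)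
    unfold nsq
    refine Finset.sum_congr rfl fun g _ => ?_
    rw [hf]
    simp only [mul_inv_rev, inv_inv]
    ring
  have hZ : nsq (fun g => conv μ f g - f g) ≤ 2 * R * (bdry S A).ncard := by
    have h5 : nsq (fun g => conv μ f g - f g) ≤
        ∑ k, μ k * nsq (fun g => f (k⁻¹ * g) - f g) := by
      have h6 : ∀ g : G, (conv μ f g - f g) ^ 2 ≤ ∑ k, μ k * (f (k⁻¹ * g) - f g) ^ 2 := by
        intro g
        have h7 : conv μ f g - f g = ∑ k, μ k * (f (k⁻¹ * g) - f g) := by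
          unfold conv
          simp only [mul_sub, Finset.sum_sub_distrib, ← Finset.sum_mul, hμ.sum, one_mul]
        rw [h7]
        have h8 : ∀ k, μ k * (f (k⁻¹ * g) - f g) =
            √(μ k) * (√(μ k) * (f (k⁻¹ * g) - f g)) := by
          intro k
          rw [← mul_assoc, Real.mul_self_sqrt (hμ.nonneg k)]
        rw [Finset.sum_congr rfl fun k _ => h8 k]
        refine (Finset.sum_mul_sq_le_sq_mul_sq _ _ _).trans (le_of_eq ?_)
        have h9 : ∑ k : G, √(μ k) ^ 2 = 1 := by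
          rw [← hμ.sum]
          exact Finset.sum_congr rfl fun k _ => Real.sq_sqrt (hμ.nonneg k)
        rw [h9, one_mul]
        refine Finset.sum_congr rfl fun k _ => ?_
        rw [mul_pow, Real.sq_sqrt (hμ.nonneg k)]
      unfold nsq
      refine (Finset.sum_le_sum fun g _ => h6 g).trans (le_of_eq ?_)
      rw [Finset.sum_comm]
      exact Finset.sum_congr rfl fun k _ => by rw [Finset.mul_sum]
    refine h5.trans ?_
    have h10 : ∀ k, μ k * nsq (fun g => f (k⁻¹ * g) - f g) ≤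
        μ k * (2 * R * (bdry S A).ncard) := by
      intro k
      rcases eq_or_ne (μ k) 0 with hk | hk
      · rw [hk, zero_mul, zero_mul]
      · exact mul_le_mul_of_nonneg_left (hdiff k (hS k hk)) (hμ.nonneg k)
    refine (Finset.sum_le_sum fun k _ => h10 k).trans (le_of_eq ?_)
    rw [← Finset.sum_mul, hμ.sum, one_mul]
  have hY : nsq (conv μ f) ≤ √ρ ^ 2 * nsq f := by
    rw [Real.sq_sqrt h0]
    exact h f hf0
  have hfin := E1_tri f (conv μ f) ht0 ht1 hY hZ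
  have h6 : (1 - √ρ) ^ 2 * (a / 2) ≤ (1 - √ρ) ^ 2 * nsq f :=
    mul_le_mul_of_nonneg_left hfn2 (sq_nonneg _)
  rw [div_mul_eq_mul_div, div_le_iff₀ (by positivity)]
  nlinarith [h6, hfin]

end Pool.Agent.Lib.MP_3bb35d_al.LE
end

section

/-!
# Non-concentration on the cosets of a subgroup, without constants
-/

set_option autoImplicit false

open Finset

namespace Pool.Agent.Lib.MP_3bb35d_al.LE

open Pool.Agent.Lib.MP_3bb35d_al.UE

variable {G : Type*} [Group G] [Fintype G]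

private theorem C1_dl_self {X : Type*} (z : X) : dl z z = 1 := by
  unfold dl
  rw [Set.indicator_of_mem (Set.mem_singleton _)]

private theorem C1_dl_nonneg {X : Type*} (z x : X) : 0 ≤ dl z x := by
  unfold dl
  exact Set.indicator_nonneg (fun _ _ => zero_le_one) _

private theorem C1_ix_dl {X : Type*} [Fintype X] (f : X → ℝ) (z : X) : ix f (dl z) = f z := by
  unfold ix
  rw [Finset.sum_eq_single z]
  · rw [C1_dl_self, mul_one]
  · intro x _ hx
    unfold dl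
    rw [Set.indicator_of_notMem (by simpa using hx), mul_zero]
  · intro hz
    exact absurd (Finset.mem_univ z) hz

/-- PROOF. Let `z = (1 : G ⧸ K)`, `y = g⁻¹ • z`, `ν = cpow μ r`. The `x` with `g x ∈ K` satisfy `x • z = y`, so `mass (conv ν ν) {x | g x ∈ K} ≤ ∑ x, conv ν ν x * dl z (x⁻¹ • y) = act (conv ν ν) (dl z) y = ix (act ν (act ν (dl z))) (dl y) = ix (act ν (dl z)) (act ν (dl y))`
(`act_conv`, `ix_act`), which is at most `√(nx (act ν (dl z))) * √(nx (act ν (dl y)))` (`ix_le`); so one of the two norms is at least the mass. (`cpow μ (r + 1) = conv ν ν` by definition.) -/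
theorem exists_point {μ : G → ℝ} (h : SP μ) (K : Subgroup G) [Fintype (G ⧸ K)] (r : ℕ) (g : G)
    {a : ℝ} (ha : 0 < a) (hm : a ≤ mass (cpow μ (r + 1)) {x | g * x ∈ K}) :
    ∃ z : G ⧸ K, a ≤ nx (act (cpow μ r) (dl z)) := by
  have hS : SP (cpow μ r) := h.cpow r
  have hC : SP (conv (cpow μ r) (cpow μ r)) := hS.conv
  have h1 : mass (conv (cpow μ r) (cpow μ r)) {x | g * x ∈ K} ≤
      act (conv (cpow μ r) (cpow μ r)) (dl (((1 : G)) : G ⧸ K)) (g⁻¹ • (((1 : G)) : G ⧸ K)) := by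
    unfold mass act
    apply Finset.sum_le_sum
    intro x _
    by_cases hx : x ∈ {x | g * x ∈ K}
    · rw [Set.indicator_of_mem hx]
      have h2 : x⁻¹ • g⁻¹ • (((1 : G)) : G ⧸ K) = (((1 : G)) : G ⧸ K) := by
        change (((x⁻¹ * (g⁻¹ * 1) : G)) : G ⧸ K) = (((1 : G)) : G ⧸ K)
        rw [QuotientGroup.eq]
        have h3 : (x⁻¹ * (g⁻¹ * 1))⁻¹ * 1 = g * x := by group
        rw [h3]
        exact hx
      rw [h2, C1_dl_self, mul_one]
    · rw [Set.indicator_of_notMem hx]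
      exact mul_nonneg (hC.nonneg x) (C1_dl_nonneg _ _)
  have h2 : a ≤ √(nx (act (cpow μ r) (dl (((1 : G)) : G ⧸ K)))) *
      √(nx (act (cpow μ r) (dl (g⁻¹ • (((1 : G)) : G ⧸ K))))) := by
    refine le_trans hm (le_trans h1 ?_)
    rw [act_conv, ← C1_ix_dl (act (cpow μ r) (act (cpow μ r) (dl (((1 : G)) : G ⧸ K)))),
      ix_act hS.symm]
    exact ix_le _ _
  by_contra hcon
  push Not at hcon
  have k1 := hcon (((1 : G)) : G ⧸ K)
  have k2 := hcon (g⁻¹ • (((1 : G)) : G ⧸ K))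
  have k3 : √(nx (act (cpow μ r) (dl (((1 : G)) : G ⧸ K)))) *
      √(nx (act (cpow μ r) (dl (g⁻¹ • (((1 : G)) : G ⧸ K))))) < √a * √a :=
    mul_lt_mul'' (Real.sqrt_lt_sqrt (nx_nonneg _) k1) (Real.sqrt_lt_sqrt (nx_nonneg _) k2)
      (Real.sqrt_nonneg _) (Real.sqrt_nonneg _)
  rw [Real.mul_self_sqrt ha.le] at k3
  exact absurd h2 (not_le.mpr k3)

/-- PROOF. `tens m u y ≠ 0` implies that `y` is injective. Choose representatives `y i = (x i : G ⧸ K)` (`Quotient.out`): `(x i)⁻¹ * x j ∉ K` for `i ≠ j` (`QuotientGroup.eq`), and `g • y = y` iff `(x i)⁻¹ * g⁻¹ * x i ∈ K` for all `i`, iff `(x i)⁻¹ * g * x i ∈ K` for all `i`. So the set is contained in the set in `Geo`. -/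
theorem stab_tens (K : Subgroup G) {m : ℕ} (hK : Geo K m) (u : G ⧸ K → ℝ) (y : Fin m → G ⧸ K)
    (hy : tens m u y ≠ 0) : ({g : G | g • y = y}.ncard : ℝ) ≤ 8 := by
  have hinj : Function.Injective y := by
    by_contra hc
    apply hy
    unfold tens
    rw [Set.indicator_of_notMem]
    exact hc
  have hout : ∀ i, (((y i).out : G) : G ⧸ K) = y i := fun i => QuotientGroup.out_eq' (y i)
  have h1 := hK.2 (fun i => (y i).out) (by
    intro i j hij hmem
    apply hij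
    apply hinj
    rw [← hout i, ← hout j, QuotientGroup.eq]
    exact hmem)
  have h2 : {g : G | g • y = y} ⊆ {g : G | ∀ i, ((y i).out)⁻¹ * g * (y i).out ∈ K} := by
    intro g hg i
    have h3 : g • y i = y i := congrFun hg i
    rw [← hout i] at h3
    have h4 : (((y i).out : G) : G ⧸ K) = ((g * (y i).out : G) : G ⧸ K) := h3.symm
    rw [QuotientGroup.eq] at h4
    rw [mul_assoc]
    exact h4
  have h3 : {g : G | g • y = y}.ncard ≤ 8 := le_trans (Set.ncard_le_ncard h2 (Set.toFinite _)) h1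
  exact_mod_cast h3

/-- The core. PROOF. Let `X = G ⧸ K` (`Fintype` by `Fintype.ofFinite`). `exists_point`: `z` with `a ≤ nx (act (cpow μ r') (dl z))`. `down` for `u₀ = dl z` (nonnegative, sum one, `nx = 1`): `u ≥ 0`, `∑ u = 1`, `a ≤ b ≤ 1` with `b = nx u`, and `(1 - θ) b ≤ a ^ (1 / 2 ^ r') * b ≤ nx (act μ u)`.
By `defect` `∑ g, conv μ μ g * nx (trl g u - u) = 2 (b - nx (act μ u)) ≤ 2 θ b`, all terms are nonnegative, so for `s ∈ T₂`: `η * nx (trl s u - u) ≤ 2 θ b`, and `nx (trl s u - u) ≤ 2 θ b / η ≤ b / 100`.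
`gap` (the action on `G ⧸ K` is pretransitive, `Fintype.card (G ⧸ K) = K.index`) and `nondeg` with `r = 1/100`: `(1/100) ^ m * b ^ m ≤ nx v` for `v = tens m u`. As `m ≤ 3` and `b ≤ 1`: `b ^ m ≤ 10 ^ 6 * nx v` and `nx v ≥ b ^ 3 / 10 ^ 6 ≥ a ^ 3 / 10 ^ 6`.
`tens_act`: `nx (act μ v) ≥ nx v - m θ b ^ m ≥ (1 - 3 * 10 ^ 6 * θ) * nx v`. `up`: `(1 - 3 * 10 ^ 6 * θ) ^ (2 ^ r) * nx v ≤ nx (act (cpow μ r) v)`.
`upper` with `c = 8` (`stab_tens`) and `tens_sum_le`: `nx (act (cpow μ r) v) ≤ 8 * cpow μ (r + 1) 1 * 1 ≤ 8 * cpow μ r 1` (`cpow_one_anti`). -/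
theorem core {μ : G → ℝ} (h : SP μ) (K : Subgroup G) {m : ℕ} (hm : m ≤ 3) (hK : Geo K m)
    {T₂ : Set G} (hT : Subgroup.closure T₂ = ⊤) {η θ a : ℝ} (hη : 0 < η)
    (hT₂ : ∀ s ∈ T₂, η ≤ conv μ μ s) (h0 : 0 ≤ θ) (h1 : 200 * θ ≤ η)
    (h2 : 3 * 10 ^ 6 * θ ≤ 1) (ha : 0 < a) (r' : ℕ) (h3 : 1 - θ ≤ a ^ ((1 : ℝ) / 2 ^ r')) (g : G)
    (hmass : a ≤ mass (cpow μ (r' + 1)) {x | g * x ∈ K}) {r : ℕ} (hr : 1 ≤ r) :
    (1 - 3 * 10 ^ 6 * θ) ^ (2 ^ r) * (a ^ 3 / 10 ^ 6) ≤ 8 * cpow μ r 1 := by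
  have : Fintype (G ⧸ K) := Fintype.ofFinite _
  obtain ⟨z, hz⟩ := exists_point h K r' g ha hmass
  have hd1 : ∑ x, dl z x = 1 := by
    have h5 := C1_ix_dl (fun _ : G ⧸ K => (1 : ℝ)) z
    unfold ix at h5
    simpa using h5
  have hd2 : nx (dl z) ≤ 1 := by
    have h5 := C1_ix_dl (dl z) z
    rw [C1_dl_self] at h5
    have h6 : nx (dl z) = ix (dl z) (dl z) := by
      unfold nx ix
      exact Finset.sum_congr rfl fun x _ => pow_two _
    rw [h6, h5]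
  obtain ⟨u, hu0, hu1, hua, hub, hu⟩ := down h (C1_dl_nonneg z) hd1 hd2 ha r' hz
  have hbpos : 0 < nx u := lt_of_lt_of_le ha hua
  have hθ : (1 - θ) * nx u ≤ nx (act μ u) := le_trans (mul_le_mul_of_nonneg_right h3 hbpos.le) hu
  have hdef := defect h u
  have hs : ∀ s ∈ T₂, nx (fun x => trl s u x - u x) ≤ nx u / 100 := by
    intro s hs
    have h5 : conv μ μ s * nx (fun x => trl s u x - u x) ≤
        ∑ g, conv μ μ g * nx (fun x => trl g u x - u x) :=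
      Finset.single_le_sum (f := fun g => conv μ μ g * nx (fun x => trl g u x - u x))
        (fun g _ => mul_nonneg (h.conv.nonneg g) (nx_nonneg _)) (Finset.mem_univ s)
    have h6 : η * nx (fun x => trl s u x - u x) ≤ conv μ μ s * nx (fun x => trl s u x - u x) :=
      mul_le_mul_of_nonneg_right (hT₂ s hs) (nx_nonneg _)
    have h7 : η * nx (fun x => trl s u x - u x) ≤ 2 * θ * nx u := by linarith
    by_contra hc
    push Not at hc
    have h8 : η * (nx u / 100) < η * nx (fun x => trl s u x - u x) := mul_lt_mul_of_pos_left hc hη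
    have h9 : 200 * θ * (nx u / 100) ≤ η * (nx u / 100) :=
      mul_le_mul_of_nonneg_right h1 (by positivity)
    linarith
  have hcard : m ≤ Fintype.card (G ⧸ K) := by
    rw [← Nat.card_eq_fintype_card]
    exact hK.1
  have hnd : (1 / 100 : ℝ) ^ m * nx u ^ m ≤ nx (tens m u) :=
    nondeg u m (by norm_num) fun F hF => gap (G := G) hm hcard hT hu0 hbpos hs F hF
  have hta := tens_act h m hu0 hθ
  have hv1 : nx u ^ m ≤ 10 ^ 6 * nx (tens m u) := by
    have h5 : (1 / 100 : ℝ) ^ 3 ≤ (1 / 100 : ℝ) ^ m :=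
      pow_le_pow_of_le_one (by norm_num) (by norm_num) hm
    have h6 : (1 / 100 : ℝ) ^ 3 * nx u ^ m ≤ (1 / 100 : ℝ) ^ m * nx u ^ m :=
      mul_le_mul_of_nonneg_right h5 (pow_nonneg hbpos.le _)
    have h7 : (1 / 100 : ℝ) ^ 3 = 1 / 10 ^ 6 := by norm_num
    rw [h7] at h6
    have h8 : nx u ^ m = 10 ^ 6 * (1 / 10 ^ 6 * nx u ^ m) := by ring
    rw [h8]
    exact mul_le_mul_of_nonneg_left (le_trans h6 hnd) (by positivity)
  have hv2 : a ^ 3 / 10 ^ 6 ≤ nx (tens m u) := by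
    have h5 : a ^ 3 ≤ nx u ^ 3 := pow_le_pow_left₀ ha.le hua 3
    have h6 : nx u ^ 3 ≤ nx u ^ m := pow_le_pow_of_le_one hbpos.le hub hm
    rw [div_le_iff₀ (by positivity)]
    linarith
  have hv0 : 0 ≤ nx (tens m u) := nx_nonneg _
  have hv3 : (1 - 3 * 10 ^ 6 * θ) * nx (tens m u) ≤ nx (act μ (tens m u)) := by
    have h5 : (m : ℝ) ≤ 3 := by exact_mod_cast hm
    have h6 : (m : ℝ) * θ * nx u ^ m ≤ 3 * θ * (10 ^ 6 * nx (tens m u)) :=
      mul_le_mul (mul_le_mul_of_nonneg_right h5 h0) hv1 (pow_nonneg hbpos.le _) (by positivity)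
    linarith
  have h10 : 0 ≤ 1 - 3 * 10 ^ 6 * θ := by linarith
  have hup := up h h10 hv3 r
  have hupper := upper h (v := tens m u) (tens_nonneg m hu0) (c := 8)
    (fun y hy => stab_tens K hK u y hy) r
  have hsum0 : 0 ≤ ∑ y, tens m u y := Finset.sum_nonneg fun y _ => tens_nonneg m hu0 y
  have hsum : (∑ y, tens m u y) ^ 2 ≤ 1 := pow_le_one₀ hsum0 (tens_sum_le m hu0 hu1)
  have hanti := cpow_one_anti h hr (Nat.le_succ r)
  have hpos : 0 ≤ cpow μ (r + 1) 1 := (h.cpow (r + 1)).nonneg 1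
  calc (1 - 3 * 10 ^ 6 * θ) ^ (2 ^ r) * (a ^ 3 / 10 ^ 6)
      ≤ (1 - 3 * 10 ^ 6 * θ) ^ (2 ^ r) * nx (tens m u) :=
        mul_le_mul_of_nonneg_left hv2 (pow_nonneg h10 _)
    _ ≤ nx (act (cpow μ r) (tens m u)) := hup
    _ ≤ 8 * cpow μ (r + 1) 1 * (∑ y, tens m u y) ^ 2 := hupper
    _ ≤ 8 * cpow μ (r + 1) 1 * 1 := mul_le_mul_of_nonneg_left hsum (by positivity)
    _ ≤ 8 * cpow μ r 1 := by
        rw [mul_one]
        exact mul_le_mul_of_nonneg_left hanti (by norm_num)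

end Pool.Agent.Lib.MP_3bb35d_al.LE
end

section

/-!
# Non-concentration on the cosets of a subgroup, with constants
-/

set_option autoImplicit false

open Finset

namespace Pool.Agent.Lib.MP_3bb35d_al.LE

open Pool.Agent.Lib.MP_3bb35d_al.UE

/-- PROOF (numerical). Let `κ = min (1/4) (min (C η / 400) (min (C / (12 * 10 ^ 6)) (δ / (26 * 10 ^ 6))))`, `θ = 2 κ / C`, so `200 θ ≤ η`, `3 * 10 ^ 6 * θ ≤ 1/2`. `p0`: such that for `p ≥ p0`: `C log p > 2` and `p ^ (δ / 2) > 8 * 10 ^ 6`.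
Suppose `mass > a := p ^ (-κ)` for some `g`. `2 ^ r' ≥ C log p > 1` so `r' = r'' + 1`, and `2 ^ r'' ≥ C log p / 2`; `a ^ (1 / 2 ^ r'') = exp (- κ log p / 2 ^ r'') ≥ 1 - κ log p / 2 ^ r'' ≥ 1 - 2 κ / C = 1 - θ` (`Real.add_one_le_exp`).
`core`: `(1 - 3 * 10 ^ 6 * θ) ^ (2 ^ r) * (a ^ 3 / 10 ^ 6) ≤ 8 * cpow μ r 1 ≤ 8 p ^ (-δ)`. With `t = 3 * 10 ^ 6 * θ ≤ 1/2`: `1 - t ≥ exp (- 2 t)`, so `(1 - t) ^ (2 ^ r) ≥ exp (- 2 t 2 ^ r) ≥ exp (- 2 t C log p) = p ^ (- 12 * 10 ^ 6 * κ)`.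
So `p ^ (- (12 * 10 ^ 6 + 3) κ) ≤ 8 * 10 ^ 6 * p ^ (-δ)` and `(12 * 10 ^ 6 + 3) κ ≤ δ / 2` gives `p ^ (δ / 2) ≤ 8 * 10 ^ 6`. Contradiction. -/
theorem nonconc_geo (η C δ : ℝ) (hη : 0 < η) (hC : 0 < C) (hδ : 0 < δ) :
    ∃ κ : ℝ, 0 < κ ∧ κ ≤ 1 / 4 ∧ ∃ p0 : ℕ, ∀ p : ℕ, p0 ≤ p →
      ∀ (G : Type) [Group G] [Fintype G] (K : Subgroup G) (m : ℕ), m ≤ 3 → Geo K m →
      ∀ μ : G → ℝ, SP μ → ∀ T₂ : Set G, Subgroup.closure T₂ = ⊤ → (∀ s ∈ T₂, η ≤ conv μ μ s) →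
      ∀ r : ℕ, 1 ≤ r → (2 : ℝ) ^ r ≤ C * Real.log p → cpow μ r 1 ≤ (p : ℝ) ^ (-δ) →
      ∀ r' : ℕ, C * Real.log p ≤ 2 ^ r' → ∀ g : G,
        mass (cpow μ r') {x | g * x ∈ K} ≤ (p : ℝ) ^ (-κ) := by
  set κ : ℝ := min (1 / 4) (min (C * η / 400) (min (C / (12 * 10 ^ 6)) (δ / (26 * 10 ^ 6)))) with hκ
  have hκ0 : 0 < κ := by
    rw [hκ]
    refine lt_min (by norm_num) (lt_min (by positivity) (lt_min (by positivity) (by positivity)))
  have k1 : κ ≤ 1 / 4 := min_le_left _ _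
  have k2 : κ ≤ C * η / 400 := (min_le_right _ _).trans (min_le_left _ _)
  have k3 : κ ≤ C / (12 * 10 ^ 6) := ((min_le_right _ _).trans (min_le_right _ _)).trans (min_le_left _ _)
  have k4 : κ ≤ δ / (26 * 10 ^ 6) := ((min_le_right _ _).trans (min_le_right _ _)).trans (min_le_right _ _)
  have hev : ∀ᶠ p : ℕ in Filter.atTop, max (2 / C) (2 * Real.log (8 * 10 ^ 6) / δ) < Real.log (p : ℝ) :=
    (Real.tendsto_log_atTop.comp tendsto_natCast_atTop_atTop).eventually_gt_atTop _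
  obtain ⟨p0, hp0⟩ := Filter.eventually_atTop.1 hev
  refine ⟨κ, hκ0, k1, p0, ?_⟩
  intro p hp G _ _ K m hm hK μ hμ T₂ hT hT₂ r hr hrC hret r' hr' g
  have hlog := hp0 p hp
  set ℓ : ℝ := Real.log (p : ℝ) with hℓ
  have l1 : 2 / C < ℓ := (le_max_left _ _).trans_lt hlog
  have l2 : 2 * Real.log (8 * 10 ^ 6) / δ < ℓ := (le_max_right _ _).trans_lt hlog
  have hℓ0 : 0 < ℓ := lt_trans (by positivity) l1
  have hpp : (0 : ℝ) < p := by
    rcases Nat.eq_zero_or_pos p with h0 | h0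
    · rw [hℓ, h0] at hℓ0
      simp at hℓ0
    · exact_mod_cast h0
  have hpow : ∀ x : ℝ, (p : ℝ) ^ x = Real.exp (x * ℓ) := by
    intro x
    rw [Real.rpow_def_of_pos hpp, mul_comm]
  have hCl : 2 < C * ℓ := by
    rw [div_lt_iff₀ hC] at l1
    linarith
  by_contra hcon
  rw [not_le] at hcon
  have hr'1 : r' ≠ 0 := by
    rintro rfl
    rw [pow_zero] at hr'
    linarith
  obtain ⟨r'', rfl⟩ := Nat.exists_eq_succ_of_ne_zero hr'1
  have hr'' : C * ℓ ≤ 2 * 2 ^ r'' := by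
    have : (2:ℝ) ^ (r''.succ) = 2 * 2 ^ r'' := by rw [pow_succ]; ring
    rw [this] at hr'
    exact hr'
  have h2pos : (0:ℝ) < 2 ^ r'' := by positivity
  set θ : ℝ := 2 * κ / C with hθ
  have hθ0 : 0 ≤ θ := by rw [hθ]; positivity
  have hθC : θ * C = 2 * κ := by rw [hθ]; field_simp
  have h200 : 200 * θ ≤ η := by
    rw [hθ, ← mul_div_assoc, div_le_iff₀ hC]
    nlinarith
  have ht : 3 * 10 ^ 6 * θ ≤ 1 / 2 := by
    rw [hθ, ← mul_div_assoc, div_le_iff₀ hC]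
    rw [le_div_iff₀ (by norm_num)] at k3
    nlinarith
  have ha : 0 < (p : ℝ) ^ (-κ) := Real.rpow_pos_of_pos hpp _
  have h3 : 1 - θ ≤ ((p : ℝ) ^ (-κ)) ^ ((1 : ℝ) / 2 ^ r'') := by
    rw [hpow, ← Real.exp_mul]
    have h4 := Real.add_one_le_exp (-κ * ℓ * (1 / 2 ^ r''))
    refine le_trans ?_ h4
    have h5 : κ * ℓ * (1 / 2 ^ r'') ≤ θ := by
      rw [mul_one_div, div_le_iff₀ h2pos, hθ, div_mul_eq_mul_div, le_div_iff₀ hC]
      nlinarith
    linarith
  have hcore := core hμ K hm hK hT hη hT₂ hθ0 h200 (by linarith) ha r'' h3 g hcon.le hr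
  set t : ℝ := 3 * 10 ^ 6 * θ with htdef
  have ht0 : 0 ≤ t := by rw [htdef]; positivity
  have h1t : Real.exp (-(2 * t)) ≤ 1 - t := by
    have h4 := Real.add_one_le_exp (2 * t)
    rw [Real.exp_neg, inv_le_comm₀ (Real.exp_pos _) (by linarith)]
    refine le_trans ?_ h4
    rw [inv_le_iff_one_le_mul₀ (by linarith)]
    nlinarith
  have h5 : Real.exp (-(12 * 10 ^ 6 * κ) * ℓ) ≤ (1 - t) ^ (2 ^ r) := by
    calc Real.exp (-(12 * 10 ^ 6 * κ) * ℓ) ≤ Real.exp (((2 ^ r : ℕ) : ℝ) * (-(2 * t))) := by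
          apply Real.exp_le_exp.2
          push_cast
          have h6 : 2 * t * C = 12 * 10 ^ 6 * κ := by
            rw [htdef]
            linear_combination 6 * 10 ^ 6 * hθC
          have h7 : (2:ℝ) ^ r * (2 * t) ≤ (C * ℓ) * (2 * t) := mul_le_mul_of_nonneg_right hrC (by linarith)
          nlinarith
      _ = Real.exp (-(2 * t)) ^ (2 ^ r) := Real.exp_nat_mul _ _
      _ ≤ (1 - t) ^ (2 ^ r) := pow_le_pow_left₀ (Real.exp_pos _).le h1t _
  have h8 : Real.exp (-(12 * 10 ^ 6 * κ) * ℓ) * (Real.exp (-κ * ℓ * 3) / 10 ^ 6) ≤ 8 * Real.exp (-δ * ℓ) := by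
    have h9 : ((p : ℝ) ^ (-κ)) ^ 3 = Real.exp (-κ * ℓ * 3) := by
      rw [hpow, ← Real.exp_nat_mul]
      congr 1
      push_cast
      ring
    rw [← h9, ← hpow (-δ)]
    have h10 : (0:ℝ) ≤ ((p : ℝ) ^ (-κ)) ^ 3 / 10 ^ 6 := by positivity
    calc Real.exp (-(12 * 10 ^ 6 * κ) * ℓ) * (((p : ℝ) ^ (-κ)) ^ 3 / 10 ^ 6)
        ≤ (1 - t) ^ (2 ^ r) * (((p : ℝ) ^ (-κ)) ^ 3 / 10 ^ 6) := mul_le_mul_of_nonneg_right h5 h10
      _ ≤ 8 * cpow μ r 1 := hcore
      _ ≤ 8 * (p : ℝ) ^ (-δ) := by linarith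
  have h11 : Real.exp (-(12 * 10 ^ 6 * κ) * ℓ + -κ * ℓ * 3 + δ * ℓ) ≤ 8 * 10 ^ 6 := by
    have h12 : Real.exp (-(12 * 10 ^ 6 * κ) * ℓ + -κ * ℓ * 3 + δ * ℓ) =
        Real.exp (-(12 * 10 ^ 6 * κ) * ℓ) * Real.exp (-κ * ℓ * 3) * Real.exp (δ * ℓ) := by
      rw [Real.exp_add, Real.exp_add]
    have h13 : Real.exp (-δ * ℓ) * Real.exp (δ * ℓ) = 1 := by
      rw [← Real.exp_add]
      simp
    rw [h12]
    have h14 := mul_le_mul_of_nonneg_right h8 (Real.exp_pos (δ * ℓ)).le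
    have h15 : 8 * Real.exp (-δ * ℓ) * Real.exp (δ * ℓ) = 8 := by
      rw [mul_assoc, h13, mul_one]
    rw [h15] at h14
    have h16 : Real.exp (-(12 * 10 ^ 6 * κ) * ℓ) * (Real.exp (-κ * ℓ * 3) / 10 ^ 6) * Real.exp (δ * ℓ) =
        Real.exp (-(12 * 10 ^ 6 * κ) * ℓ) * Real.exp (-κ * ℓ * 3) * Real.exp (δ * ℓ) / 10 ^ 6 := by ring
    rw [h16, div_le_iff₀ (by norm_num)] at h14
    linarith
  have h17 : δ / 2 * ℓ ≤ -(12 * 10 ^ 6 * κ) * ℓ + -κ * ℓ * 3 + δ * ℓ := by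
    rw [le_div_iff₀ (by norm_num)] at k4
    nlinarith
  have h18 : Real.log (8 * 10 ^ 6) < δ / 2 * ℓ := by
    rw [div_lt_iff₀ hδ] at l2
    generalize Real.log (8 * 10 ^ 6) = Q at l2 ⊢
    linarith
  have h19 : (8 * 10 ^ 6 : ℝ) < Real.exp (δ / 2 * ℓ) := by
    rw [← Real.log_lt_iff_lt_exp (by norm_num)]
    exact h18
  have h20 := Real.exp_le_exp.2 h17
  exact absurd (h19.trans_le (h20.trans h11)) (lt_irrefl _)

end Pool.Agent.Lib.MP_3bb35d_al.LE
end
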