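import Pool.Agent.Lib.MP_3bb35d_al.LE.M1
import Pool.Agent.Lib.MP_3bb35d_al.Mg.G013
import Pool.Agent.Lib.MP_3bb35d_al.Mg.G029
import Pool.Agent.Lib.MP_3bb35d_al.Mg.G031
import Pool.Agent.Lib.MP_3bb35d_al.Mg.G030
import Pool.Agent.Lib.MP_3bb35d_al.Mg.G015

section

/-!
# Spectral gap from the return probability
-/

set_option autoImplicit false

open Finset

namespace Pool.Agent.Lib.MP_3bb35d_al.LE

open Pool.Agent.Lib.MP_3bb35d_al.UE

private theorem N1_cpow_cpow {G : Type*} [Fintype G] [Group G] (μ : G → ℝ) (r j : ℕ) :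
    cpow (cpow μ r) j = cpow μ (r + j) := by
  induction j with
  | zero => rfl
  | succ j ih =>
    have h1 : cpow (cpow μ r) (j + 1) = conv (cpow (cpow μ r) j) (cpow (cpow μ r) j) := rfl
    have h2 : cpow μ (r + (j + 1)) = conv (cpow μ (r + j)) (cpow μ (r + j)) := rfl
    rw [h1, h2, ih]

private theorem N1_nsq_nonneg {G : Type*} [Fintype G] [Group G] (f : G → ℝ) : 0 ≤ nsq f :=
  Finset.sum_nonneg fun _ _ => sq_nonneg _

private theorem N1_least {x : ℝ} (hx : 1 ≤ x) : ∃ r : ℕ, x ≤ 2 ^ r ∧ (2 : ℝ) ^ r ≤ 2 * x := by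
  classical
  have hex : ∃ n : ℕ, x ≤ 2 ^ n := by
    obtain ⟨n, hn⟩ := pow_unbounded_of_one_lt x (by norm_num : (1 : ℝ) < 2)
    exact ⟨n, hn.le⟩
  refine ⟨Nat.find hex, Nat.find_spec hex, ?_⟩
  rcases Nat.eq_zero_or_pos (Nat.find hex) with h0 | h0
  · rw [h0, pow_zero]
    linarith
  · have h1 : Nat.find hex - 1 < Nat.find hex := by omega
    have h2 := Nat.find_min hex h1
    rw [not_le] at h2
    have h3 : (2 : ℝ) ^ Nat.find hex = 2 * 2 ^ (Nat.find hex - 1) := by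
      rw [← pow_succ']
      congr 1
      omega
    rw [h3]
    linarith

/-- PROOF. `κ, p₁` from `nonconc`, `J, p₂` from `bg_iter κ`. `ρ = exp (- 1 / (4 C 2 ^ J))`, `p0 = max p₁ p₂` and such that `C log p ≥ 1` for `p ≥ p0`. Let `r'` be the least number with `C log p ≤ 2 ^ r'`; then `2 ^ r' ≤ 2 C log p` (`r' = 0`: `1 ≤ 2 C log p`; otherwise by minimality).
`nonconc` is the hypothesis of `bg_iter` for `ν = cpow μ r'` (`SP.cpow`). `cpow ν J = cpow μ (r' + J)` (`cpow_cpow`). `nsq_conv_root` with `r' + J` and `p ^ (-1/2)`: `nsq (conv μ f) ≤ (p ^ (-1/2)) ^ (1 / 2 ^ (r' + J)) * nsq f` and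
`(p ^ (-1/2)) ^ (1 / 2 ^ (r' + J)) = exp (- log p / (2 · 2 ^ r' · 2 ^ J)) ≤ exp (- 1 / (4 C 2 ^ J))` as `2 ^ r' ≤ 2 C log p`. See `bg_theorem` (UE/G2) for the same computation. -/
theorem gap_sl2 (η C δ : ℝ) (hη : 0 < η) (hC : 0 < C) (hδ : 0 < δ) :
    ∃ ρ : ℝ, 0 ≤ ρ ∧ ρ < 1 ∧ ∃ p0 : ℕ, ∀ p : ℕ, ∀ _ : Fact p.Prime, p0 ≤ p →
      ∀ μ : SL2 p → ℝ, SP μ → ∀ T₂ : Set (SL2 p), Subgroup.closure T₂ = ⊤ →
      (∀ s ∈ T₂, η ≤ conv μ μ s) →
      ∀ r : ℕ, 1 ≤ r → (2 : ℝ) ^ r ≤ C * Real.log p → cpow μ r 1 ≤ (p : ℝ) ^ (-δ) →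
      ∀ f : SL2 p → ℝ, ∑ g, f g = 0 → nsq (conv μ f) ≤ ρ * nsq f := by
  obtain ⟨κ, hκ, hκ1, p₁, hnc⟩ := nonconc η C δ hη hC hδ
  obtain ⟨J, p₂, hJ⟩ := bg_iter κ hκ hκ1
  obtain ⟨p₃, hp₃⟩ := exists_nat_ge (Real.exp (1 / C))
  refine ⟨Real.exp (-(1 / (4 * C * 2 ^ J))), (Real.exp_pos _).le, ?_, max (max p₁ p₂) p₃, ?_⟩
  · rw [Real.exp_lt_one_iff]
    have : (0 : ℝ) < 1 / (4 * C * 2 ^ J) := by positivity
    linarith
  · intro p hp hpp μ hμ T₂ hT₂ hη₂ r hr1 hr hret f hf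
    have hpa : p₁ ≤ p := (le_max_left _ _).trans ((le_max_left _ _).trans hpp)
    have hpb : p₂ ≤ p := (le_max_right _ _).trans ((le_max_left _ _).trans hpp)
    have hpc : p₃ ≤ p := (le_max_right _ _).trans hpp
    have hp1 : (1 : ℝ) < p := by exact_mod_cast hp.out.one_lt
    have hp0 : (0 : ℝ) < p := by linarith
    have hlog : 1 ≤ C * Real.log p := by
      have h1 : Real.exp (1 / C) ≤ p := hp₃.trans (by exact_mod_cast hpc)
      have h2 : 1 / C ≤ Real.log p := (Real.le_log_iff_exp_le hp0).2 h1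
      rw [div_le_iff₀ hC] at h2
      linarith
    obtain ⟨r', hr', hr''⟩ := N1_least hlog
    have h2 : ∀ f : SL2 p → ℝ, ∑ g, f g = 0 →
        nsq (conv (cpow μ (r' + J)) f) ≤ (p : ℝ) ^ (-(1 / 2) : ℝ) * nsq f := by
      intro f hf
      rw [← N1_cpow_cpow]
      exact hJ p hp hpb (cpow μ r') (hμ.cpow r')
        (hnc p hp hpa μ hμ T₂ hT₂ hη₂ r hr1 hr hret r' hr') f hf
    have h3 := nsq_conv_root hμ (r' + J) (ρ := (p : ℝ) ^ (-(1 / 2) : ℝ))
      (by positivity) h2 f hf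
    refine h3.trans (mul_le_mul_of_nonneg_right ?_ (N1_nsq_nonneg f))
    rw [← Real.rpow_mul hp0.le, Real.rpow_def_of_pos hp0, Real.exp_le_exp, pow_add]
    have hA : (0 : ℝ) < 2 ^ r' := by positivity
    have hB : (0 : ℝ) < 2 ^ J := by positivity
    have h4 : 1 / (4 * C * (2 : ℝ) ^ J) ≤ Real.log p * (1 / 2 * (1 / (2 ^ r' * 2 ^ J))) := by
      have h5 : Real.log p * (1 / 2 * (1 / ((2 : ℝ) ^ r' * 2 ^ J))) =
          Real.log p / (2 * (2 ^ r' * 2 ^ J)) := by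
        field_simp
      rw [h5, div_le_div_iff₀ (by positivity) (by positivity)]
      have h6 : (2 : ℝ) ^ r' * 2 ^ J ≤ 2 * (C * Real.log p) * 2 ^ J :=
        mul_le_mul_of_nonneg_right hr'' hB.le
      nlinarith
    linarith

end Pool.Agent.Lib.MP_3bb35d_al.LE
end

section

/-!
# The criterion by return probabilities, for large `p`
-/

set_option autoImplicit false

open Finset

namespace Pool.Agent.Lib.MP_3bb35d_al.LE

open Pool.Agent.Lib.MP_3bb35d_al.UE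

/-- `S ∪ S⁻¹`. -/
def sy {G : Type*} [Group G] (S : Set G) : Set G := {s | s ∈ S ∨ s⁻¹ ∈ S}

theorem sy_inv {G : Type*} [Group G] (S : Set G) : ∀ g ∈ sy S, g⁻¹ ∈ sy S := by
  rintro g (h | h)
  · right
    show g⁻¹⁻¹ ∈ S
    rwa [inv_inv]
  · exact Or.inl h

theorem closure_sy {G : Type*} [Group G] (S : Set G) :
    Subgroup.closure (sy S) = Subgroup.closure S := by
  refine le_antisymm ?_ (Subgroup.closure_mono fun g h => Or.inl h)
  rw [Subgroup.closure_le]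
  rintro g (h | h)
  · exact Subgroup.subset_closure h
  · exact inv_mem_iff.1 (Subgroup.subset_closure h)

theorem ncard_sy {G : Type*} [Group G] [Finite G] (S : Set G) : (sy S).ncard ≤ 2 * S.ncard := by
  have h1 : sy S = S ∪ (fun g => g⁻¹) '' S := by
    ext g
    constructor
    · rintro (h | h)
      · exact Or.inl h
      · exact Or.inr ⟨g⁻¹, h, inv_inv g⟩
    · rintro (h | ⟨x, hx, rfl⟩)
      · exact Or.inl h
      · right
        show x⁻¹⁻¹ ∈ S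
        rwa [inv_inv]
  have h2 := Set.ncard_union_le S ((fun g => g⁻¹) '' S)
  have h3 : ((fun g : G => g⁻¹) '' S).ncard ≤ S.ncard := Set.ncard_image_le (Set.toFinite S)
  rw [h1]
  omega

/-- PROOF: the conditions `∃ s ∈ S, y = x s ∨ x = y s` and `∃ s ∈ sy S, y = x s ∨ x = y s` agree. -/
theorem bdry_sy {G : Type*} [Group G] (S A : Set G) : bdry (sy S) A = bdry S A := by
  ext e
  constructor
  · rintro ⟨h1, h2, s, hs, h⟩
    refine ⟨h1, h2, ?_⟩
    rcases hs with hs | hs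
    · exact ⟨s, hs, h⟩
    · refine ⟨s⁻¹, hs, ?_⟩
      rcases h with h | h
      · right
        rw [h, mul_inv_cancel_right]
      · left
        rw [h, mul_inv_cancel_right]
  · rintro ⟨h1, h2, s, hs, h⟩
    exact ⟨h1, h2, s, Or.inl hs, h⟩

theorem IsExpander_sy {G : Type*} [Group G] {S : Set G} {ε : ℝ} (h : IsExpander ε (sy S)) :
    IsExpander ε S := by
  intro A hA
  rw [← bdry_sy]
  exact h A hA

/-- PROOF: the kernel of `toPSL p` is the centre, `{1, -1}` (see UE/Z11a, `psl_of_sl` or the private lemmas there for the kernel of `toPSL`). -/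
theorem card_ker (p : ℕ) [Fact p.Prime] : Nat.card (toPSL p).ker ≤ 2 := by
  have h1 : ((toPSL p).ker : Set (SL2 p)) ⊆ {1, -1} := by
    intro c hc
    have h2 : c ∈ Subgroup.center (SL2 p) := (QuotientGroup.eq_one_iff c).1 hc
    obtain ⟨r, hr, h⟩ := Matrix.SpecialLinearGroup.mem_center_iff.1 h2
    have hr2 : r ^ 2 = 1 := by simpa using hr
    rw [pow_two] at hr2
    rcases mul_self_eq_one_iff.1 hr2 with rfl | rfl
    · left
      refine Subtype.ext ?_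
      rw [← h]; simp
    · right
      refine Subtype.ext ?_
      rw [← h, map_neg, map_one]
      rfl
  have h3 := Set.ncard_le_ncard h1 (Set.toFinite _)
  have h4 : ({1, -1} : Set (SL2 p)).ncard ≤ 2 := by
    refine (Set.ncard_insert_le _ _).trans ?_
    rw [Set.ncard_singleton]
  have h5 : ((toPSL p).ker : Set (SL2 p)).ncard = Nat.card (toPSL p).ker := by
    rw [← Nat.card_coe_set_eq]
    rfl
  omega

theorem toPSL_surj (p : ℕ) : Function.Surjective (toPSL p) := QuotientGroup.mk'_surjective _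

/-- The lifts of `S ∪ S⁻¹` to `SL₂(p)`. PROOF: `sy_inv`; `card_preimage`, `card_ker`, `ncard_sy`; `closure_preimage` (UE/Z11a) for `sy S`, `closure_sy`; nonempty because the closure of the empty set is trivial and `PSL₂(p)` is not (`p ≥ 5`; or: `sy S = ∅` would make `SL₂(p)` equal to `closure ∅`). -/
theorem lifts {p : ℕ} [Fact p.Prime] (hp : 5 ≤ p) {S : Set (PSL2 p)}
    (hS : Subgroup.closure S = ⊤) {k : ℕ} (hk : S.ncard ≤ k) :
    (toPSL p ⁻¹' sy S).Nonempty ∧ (∀ g ∈ toPSL p ⁻¹' sy S, g⁻¹ ∈ toPSL p ⁻¹' sy S) ∧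
      (toPSL p ⁻¹' sy S).ncard ≤ 4 * k ∧ Subgroup.closure (toPSL p ⁻¹' sy S) = ⊤ := by
  classical
  have hfin : Finite (PSL2 p) := Finite.of_surjective _ (toPSL_surj p)
  have hft : Fintype (PSL2 p) := Fintype.ofFinite _
  have hcl : Subgroup.closure (toPSL p ⁻¹' sy S) = ⊤ :=
    closure_preimage (sy S) (by rw [closure_sy, hS])
  refine ⟨?_, ?_, ?_, hcl⟩
  · by_contra hne
    rw [Set.not_nonempty_iff_eq_empty] at hne
    rw [hne, Subgroup.closure_empty] at hcl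
    set t : SL2 p := ⟨!![1, 1; 0, 1], by simp [Matrix.det_fin_two]⟩ with ht
    have h3 : t ∈ (⊥ : Subgroup (SL2 p)) := by rw [hcl]; trivial
    have h5 : t = 1 := Subgroup.mem_bot.1 h3
    have h6 : t 0 1 = (1 : SL2 p) 0 1 := by rw [h5]
    simp [ht] at h6
  · intro g hg
    show toPSL p g⁻¹ ∈ sy S
    rw [map_inv]
    exact sy_inv S _ hg
  · rw [card_preimage (toPSL p) (toPSL_surj p)]
    calc Nat.card (toPSL p).ker * (sy S).ncard ≤ 2 * (2 * S.ncard) :=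
          Nat.mul_le_mul (card_ker p) (ncard_sy S)
      _ ≤ 2 * (2 * k) := by omega
      _ = 4 * k := by ring

/-- PROOF. `T = toPSL p ⁻¹' sy S` (`lifts`). `expander_of_gap` (`R = 1`, the set `T`: `μ h ≠ 0 → h ∈ T ∪ {1}`, all in `Wrd T 1`), then `IsExpander.of_preimage` (UE/Z11a, `card_ker`) and `IsExpander_sy`. The constant is `(1 - √ρ) ^ 2 / 4 / 2`. -/
theorem expander_psl {p : ℕ} [Fact p.Prime] {S : Set (PSL2 p)} {μ : SL2 p → ℝ} (hμ : SP μ)
    (h1 : ∀ g, μ g ≠ 0 → g = 1 ∨ g ∈ toPSL p ⁻¹' sy S) {ρ : ℝ} (h0 : 0 ≤ ρ) (hρ : ρ < 1)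
    (h : ∀ f : SL2 p → ℝ, ∑ g, f g = 0 → nsq (conv μ f) ≤ ρ * nsq f) :
    IsExpander ((1 - √ρ) ^ 2 / 8) S := by
  classical
  have hfin : Finite (PSL2 p) := Finite.of_surjective _ (toPSL_surj p)
  let hft : Fintype (PSL2 p) := Fintype.ofFinite _
  have h2 := expander_of_gap (toPSL p ⁻¹' sy S) hμ 1 le_rfl (fun g hg => by
    rcases h1 g hg with rfl | hgT
    · exact ⟨[], by simp, by simp, by simp⟩
    · exact ⟨[g], by simp, by
        intro x hx
        rw [List.mem_singleton] at hx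
        subst hx
        exact Or.inl hgT, by simp⟩) h0 hρ h
  have h3 := IsExpander.of_preimage (toPSL p) (toPSL_surj p) (card_ker p)
    (by positivity) h2
  have h4 : (1 - √ρ) ^ 2 / (4 * ((1 : ℕ) : ℝ)) / 2 = (1 - √ρ) ^ 2 / 8 := by
    rw [Nat.cast_one]; ring
  rw [h4] at h3
  exact IsExpander_sy h3

/-- PROOF. `η = 1 / (16 k ^ 2)` (`k ≥ 1` as `S` generates a nontrivial group; if `k = 0` then `S` is empty, impossible for `p ≥ 5`: use `lifts`), `C = 4 / δ`; `ρ, p₁` from `gap_sl2 η C δ`; `ε = (1 - √ρ) ^ 2 / 8`, `p0 = max p₁ 5`. Let `T = toPSL p ⁻¹' sy S`, `μ = unif T` (`SP_unif`), `T₂ = {a b | a, b ∈ T}`: closure `⊤` (`closure_even`),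
`conv μ μ (a b) ≥ μ a * μ b = 1 / |T|² ≥ η`. Let `r` be the least number with `2 n ≤ 2 ^ r`: `r ≥ 1`, `2 ^ r ≤ 4 n ≤ C log p`. `cpow μ r 1 ≤ cpow (pf (toPSL p) μ) r 1 = cpow (unif (sy S)) r 1 ≤ p ^ (-δ)` (`cpow_le_pf`, `pf_unif`, `return_of_words`). `expander_psl`. -/
theorem return_large (k : ℕ) (δ : ℝ) (hδ : 0 < δ) : ∃ ε : ℝ, 0 < ε ∧ ∃ p0 : ℕ, ∀ p : ℕ,
    ∀ _ : Fact p.Prime, p0 ≤ p → ∀ S : Set (PSL2 p), Subgroup.closure S = ⊤ → S.ncard ≤ k →
    ∀ n : ℕ, 1 ≤ n → (n : ℝ) ≤ Real.log p / δ →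
      ({w : Fin (2 * n) → PSL2 p | (∀ i, w i ∈ sy S) ∧ (List.ofFn w).prod = 1}.ncard : ℝ) ≤
        (p : ℝ) ^ (-δ) * ((sy S).ncard : ℝ) ^ (2 * n) → IsExpander ε S := by
  classical
  obtain ⟨ρ, hρ0, hρ1, p₁, hgap⟩ := gap_sl2 (1 / (16 * ((k : ℝ) + 1) ^ 2)) (4 / δ) δ
    (by positivity) (by positivity) hδ
  have hsq : √ρ < 1 := by
    rw [Real.sqrt_lt' one_pos]
    simpa using hρ1
  refine ⟨(1 - √ρ) ^ 2 / 8, by have : 0 < 1 - √ρ := by linarith
                               positivity, max p₁ 5, ?_⟩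
  intro p hpF hp S hS hk n hn hnp hw
  have hfin : Finite (PSL2 p) := Finite.of_surjective _ (toPSL_surj p)
  let hft : Fintype (PSL2 p) := Fintype.ofFinite _
  have hp5 : 5 ≤ p := (le_max_right _ _).trans hp
  obtain ⟨hne, hinv, hcard, hcl⟩ := lifts hp5 hS hk
  set T : Set (SL2 p) := toPSL p ⁻¹' sy S with hT
  have hμ : SP (unif T) := SP_unif hne hinv
  have hcl2 := closure_even (by omega : 3 ≤ p) hcl hinv
  have hTpos : 0 < T.ncard := (Set.ncard_pos (Set.toFinite T)).2 hne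
  have hTpos' : (0 : ℝ) < (T.ncard : ℝ) := by exact_mod_cast hTpos
  have hTle : (T.ncard : ℝ) ≤ 4 * ((k : ℝ) + 1) := by
    have : (T.ncard : ℝ) ≤ ((4 * k : ℕ) : ℝ) := by exact_mod_cast hcard
    push_cast at this
    linarith
  have hval : ∀ a ∈ T, unif T a = 1 / (T.ncard : ℝ) := fun a ha =>
    Set.indicator_of_mem ha _
  have hη : ∀ s ∈ {g : SL2 p | ∃ a ∈ T, ∃ b ∈ T, g = a * b},
      1 / (16 * ((k : ℝ) + 1) ^ 2) ≤ conv (unif T) (unif T) s := by
    rintro s ⟨a, ha, b, hb, rfl⟩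
    have h1 : unif T a * unif T (a⁻¹ * (a * b)) ≤ conv (unif T) (unif T) (a * b) := by
      unfold conv
      exact Finset.single_le_sum (f := fun h => unif T h * unif T (h⁻¹ * (a * b)))
        (fun h _ => mul_nonneg (hμ.nonneg _) (hμ.nonneg _)) (Finset.mem_univ a)
    refine le_trans ?_ h1
    rw [inv_mul_cancel_left, hval a ha, hval b hb, ← one_div_mul_one_div_rev,
      one_div_mul_one_div_rev]
    rw [div_mul_div_comm, one_mul]
    refine one_div_le_one_div_of_le (by positivity) ?_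
    nlinarith
  obtain ⟨r, hr1, hr2, hr3⟩ : ∃ r : ℕ, 1 ≤ r ∧ 2 * n ≤ 2 ^ r ∧ 2 ^ r ≤ 4 * n := by
    have hex : ∃ r : ℕ, 2 * n ≤ 2 ^ r := ⟨2 * n, Nat.lt_two_pow_self.le⟩
    refine ⟨Nat.find hex, ?_, Nat.find_spec hex, ?_⟩
    · by_contra h0
      have h1 := Nat.find_spec hex
      have h2 : Nat.find hex = 0 := by omega
      rw [h2] at h1
      simp at h1
      omega
    · by_cases h0 : Nat.find hex = 0
      · rw [h0]; simp; omega
      · have h1 := Nat.find_min hex (m := Nat.find hex - 1) (by omega)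
        obtain ⟨m, hm⟩ := Nat.exists_eq_succ_of_ne_zero h0
        rw [hm] at h1 ⊢
        rw [Nat.succ_sub_one] at h1
        rw [Nat.pow_succ]
        omega
  have hr4 : (2 : ℝ) ^ r ≤ 4 / δ * Real.log p := by
    have h1 : ((2 ^ r : ℕ) : ℝ) ≤ ((4 * n : ℕ) : ℝ) := by exact_mod_cast hr3
    push_cast at h1
    calc (2 : ℝ) ^ r ≤ 4 * n := h1
      _ ≤ 4 * (Real.log p / δ) := by linarith
      _ = 4 / δ * Real.log p := by ring
  have hsne : (sy S).Nonempty := by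
    obtain ⟨t, ht⟩ := hne
    exact ⟨toPSL p t, ht⟩
  have hret : cpow (unif T) r 1 ≤ (p : ℝ) ^ (-δ) := by
    refine (cpow_le_pf (toPSL p) hμ r).trans ?_
    rw [hT, pf_unif (toPSL p) (toPSL_surj p)]
    exact return_of_words hsne (sy_inv S) hn hr2 hw
  have hg := hgap p hpF ((le_max_left _ _).trans hp) (unif T) hμ _ hcl2 hη r hr1 hr4 hret
  refine expander_psl hμ (fun g hg' => ?_) hρ0 hρ1 hg
  right
  by_contra hn'
  exact hg' (Set.indicator_of_notMem hn' _)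

end Pool.Agent.Lib.MP_3bb35d_al.LE
end
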